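import Pool.Agent.Run7.h27.Lob

/-!
# Angles of a tetrahedron: vertex determinants, cofactors, the edge equation
-/

set_option autoImplicit false

namespace Run7.h27

open Real

/-- vertex parameter -/
noncomputable def Tv (a b c : ℝ) : ℝ := (3 * π - a - b - c) / 2

/-- quadrilateral parameter -/
noncomputable def Qv (a b c d : ℝ) : ℝ := (4 * π - a - b - c - d) / 2

/-- Gram determinant of a vertex with dihedral angles `x, y, z` -/
noncomputable def Dv (x y z : ℝ) : ℝ :=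
  1 - cos x ^ 2 - cos y ^ 2 - cos z ^ 2 - 2 * cos x * cos y * cos z

/-- cofactor of the edge with angle `φ`; `θ` is opposite, `φ, β₁, β₂` and `φ, γ₁, γ₂` are the two ends,
`θ, β₁, γ₁` and `θ, β₂, γ₂` the two ends of the opposite edge -/
noncomputable def Cof (φ θ β1 β2 γ1 γ2 : ℝ) : ℝ :=
  sin φ ^ 2 * cos θ + cos β1 * cos γ1 + cos β2 * cos γ2 +
    cos φ * (cos β1 * cos γ2 + cos β2 * cos γ1)

/-- leading coefficient -/
noncomputable def AA (φ β1 β2 γ1 γ2 : ℝ) : ℝ := (cos φ + cos (β1 - β2)) * (cos φ + cos (γ1 - γ2))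

/-- constant coefficient -/
noncomputable def CC (φ β1 β2 γ1 γ2 : ℝ) : ℝ := (cos φ + cos (β1 + β2)) * (cos φ + cos (γ1 + γ2))

lemma Dv_eq (x y z : ℝ) : (cos x + cos (y + z)) * (cos x + cos (y - z)) = -Dv x y z := by
  unfold Dv
  rw [cos_add, cos_sub]
  have h1 := sin_sq_add_cos_sq y
  have h2 := sin_sq_add_cos_sq z
  linear_combination (-sin z ^ 2) * h1 + (cos y ^ 2 - 1) * h2

lemma AA_CC (φ β1 β2 γ1 γ2 : ℝ) : AA φ β1 β2 γ1 γ2 * CC φ β1 β2 γ1 γ2 = Dv φ β1 β2 * Dv φ γ1 γ2 := by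
  have h1 := Dv_eq φ β1 β2
  have h2 := Dv_eq φ γ1 γ2
  unfold AA CC
  linear_combination ((cos φ + cos (γ1 + γ2)) * (cos φ + cos (γ1 - γ2))) * h1 - Dv φ β1 β2 * h2

/-- angles strictly between `0` and `π` -/
def Ang (x : ℝ) : Prop := 0 < x ∧ x < π

lemma Ang.sin_pos {x : ℝ} (h : Ang x) : 0 < sin x := sin_pos_of_pos_of_lt_pi h.1 h.2

lemma vert_signs {x y z : ℝ} (hy : Ang y) (hz : Ang z) (hD : 0 < Dv x y z) :
    cos x + cos (y + z) < 0 ∧ 0 < cos x + cos (y - z) := by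
  have h1 := Dv_eq x y z
  have h2 : cos (y + z) < cos (y - z) := by
    rw [cos_add, cos_sub]
    have := mul_pos hy.sin_pos hz.sin_pos
    linarith
  constructor
  · by_contra h
    push Not at h
    have : 0 ≤ (cos x + cos (y + z)) * (cos x + cos (y - z)) := mul_nonneg h (by linarith)
    linarith
  · by_contra h
    push Not at h
    have : 0 ≤ (cos x + cos (y + z)) * (cos x + cos (y - z)) :=
      mul_nonneg_of_nonpos_of_nonpos (by linarith) h
    linarith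

lemma vert_ineq1 {x y z : ℝ} (hx : Ang x) (hy : Ang y) (hz : Ang z) (hD : 0 < Dv x y z) :
    π < x + y + z ∧ y + z - x < π := by
  obtain ⟨h1, _⟩ := vert_signs hy hz hD
  have hx2 : cos (π - x) = -cos x := cos_pi_sub x
  have h3 : cos (y + z) < cos (π - x) := by rw [hx2]; linarith
  constructor
  · by_contra h
    push Not at h
    have : cos (π - x) ≤ cos (y + z) :=
      cos_le_cos_of_nonneg_of_le_pi (by linarith [hy.1, hz.1]) (by linarith [hx.1]) (by linarith)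
    linarith
  · by_contra h
    push Not at h
    have e : cos (y + z) = cos (2 * π - (y + z)) := by rw [cos_two_pi_sub]
    have : cos (π - x) ≤ cos (2 * π - (y + z)) :=
      cos_le_cos_of_nonneg_of_le_pi (by linarith [hy.2, hz.2]) (by linarith [hx.1]) (by linarith)
    linarith

lemma vert_ineq2 {x y z : ℝ} (hx : Ang x) (hy : Ang y) (hz : Ang z) (hD : 0 < Dv x y z) :
    x + y - z < π ∧ x + z - y < π := by
  obtain ⟨_, h1⟩ := vert_signs hy hz hD
  have hx2 : cos (π - x) = -cos x := cos_pi_sub x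
  have h3 : cos (π - x) < cos (y - z) := by rw [hx2]; linarith
  constructor
  · by_contra h
    push Not at h
    have : cos (y - z) ≤ cos (π - x) :=
      cos_le_cos_of_nonneg_of_le_pi (by linarith [hx.2]) (by linarith [hy.2, hz.1]) (by linarith)
    linarith
  · by_contra h
    push Not at h
    have e : cos (y - z) = cos (z - y) := by rw [← cos_neg]; congr 1; ring
    have : cos (z - y) ≤ cos (π - x) :=
      cos_le_cos_of_nonneg_of_le_pi (by linarith [hx.2]) (by linarith [hz.2, hy.1]) (by linarith)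
    linarith

lemma sin_mul_sin (a b : ℝ) : sin a * sin b = (cos (a - b) - cos (a + b)) / 2 := by
  rw [cos_sub, cos_add]; ring

/-- the quadratic equation of an edge -/
lemma edge_quad {φ θ β1 β2 γ1 γ2 y X : ℝ}
    (h1 : cos ((β1 + β2 - γ1 - γ2) / 2) - cos y =
      X * (cos ((β1 - β2 - γ1 + γ2) / 2) + cos (y + θ)))
    (h2 : cos ((β1 + β2 + γ1 + γ2) / 2) + cos (y - φ) =
      X * (cos ((β1 - β2 + γ1 - γ2) / 2) - cos (y - φ + θ))) :
    AA φ β1 β2 γ1 γ2 * X ^ 2 - 2 * Cof φ θ β1 β2 γ1 γ2 * X + CC φ β1 β2 γ1 γ2 = 0 := by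
  set C1 := cos ((β1 + β2 - γ1 - γ2) / 2) with hC1
  set C2 := cos ((β1 - β2 - γ1 + γ2) / 2) with hC2
  set C3 := cos ((β1 + β2 + γ1 + γ2) / 2) with hC3
  set C4 := cos ((β1 - β2 + γ1 - γ2) / 2) with hC4
  -- product formulas
  have p11 : 2 * C1 ^ 2 = 1 + cos (β1 + β2 - γ1 - γ2) := by
    have := cos_sq ((β1 + β2 - γ1 - γ2) / 2)
    rw [hC1, this, show 2 * ((β1 + β2 - γ1 - γ2) / 2) = β1 + β2 - γ1 - γ2 by ring]; ring
  have p33 : 2 * C3 ^ 2 = 1 + cos (β1 + β2 + γ1 + γ2) := by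
    have := cos_sq ((β1 + β2 + γ1 + γ2) / 2)
    rw [hC3, this, show 2 * ((β1 + β2 + γ1 + γ2) / 2) = β1 + β2 + γ1 + γ2 by ring]; ring
  have p22 : 2 * C2 ^ 2 = 1 + cos (β1 - β2 - γ1 + γ2) := by
    have := cos_sq ((β1 - β2 - γ1 + γ2) / 2)
    rw [hC2, this, show 2 * ((β1 - β2 - γ1 + γ2) / 2) = β1 - β2 - γ1 + γ2 by ring]; ring
  have p44 : 2 * C4 ^ 2 = 1 + cos (β1 - β2 + γ1 - γ2) := by
    have := cos_sq ((β1 - β2 + γ1 - γ2) / 2)
    rw [hC4, this, show 2 * ((β1 - β2 + γ1 - γ2) / 2) = β1 - β2 + γ1 - γ2 by ring]; ring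
  have prod : ∀ a b : ℝ, 2 * (cos a * cos b) = cos (a + b) + cos (a - b) := by
    intro a b; rw [cos_add, cos_sub]; ring
  have p13 : 2 * (C1 * C3) = cos (β1 + β2) + cos (γ1 + γ2) := by
    rw [hC1, hC3, prod]; congr 1
    · congr 1; ring
    · rw [← cos_neg]; congr 1; ring
  have p24 : 2 * (C2 * C4) = cos (β1 - β2) + cos (γ1 - γ2) := by
    rw [hC2, hC4, prod]; congr 1
    · congr 1; ring
    · rw [← cos_neg]; congr 1; ring
  have p12 : 2 * (C1 * C2) = cos (β1 - γ1) + cos (β2 - γ2) := by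
    rw [hC1, hC2, prod]; congr 1
    · congr 1; ring
    · congr 1; ring
  have p34 : 2 * (C3 * C4) = cos (β1 + γ1) + cos (β2 + γ2) := by
    rw [hC3, hC4, prod]; congr 1
    · congr 1; ring
    · congr 1; ring
  have p14 : 2 * (C1 * C4) = cos (β1 - γ2) + cos (β2 - γ1) := by
    rw [hC1, hC4, prod]; congr 1
    · congr 1; ring
    · congr 1; ring
  have p23 : 2 * (C2 * C3) = cos (β1 + γ2) + cos (β2 + γ1) := by
    rw [hC2, hC3, prod]; congr 1
    · congr 1; ring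
    · rw [← cos_neg]; congr 1; ring
  -- the modulus identity
  set m := C1 - X * C2 with hm
  set n := X * C4 - C3 with hn
  have em : m = cos y + X * cos (y + θ) := by rw [hm]; linarith
  have en : n = cos (y - φ) + X * cos (y - φ + θ) := by rw [hn]; linarith
  have key : sin φ ^ 2 * (1 + 2 * X * cos θ + X ^ 2) = m ^ 2 + n ^ 2 - 2 * m * n * cos φ := by
    rw [em, en, cos_add y θ, cos_add (y - φ) θ, cos_sub, sin_sub]
    have h1 := sin_sq_add_cos_sq y
    have h2 := sin_sq_add_cos_sq φ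
    have h3 := sin_sq_add_cos_sq θ
    have e1 : sin y ^ 2 = 1 - cos y ^ 2 := by linarith
    have e2 : sin φ ^ 2 = 1 - cos φ ^ 2 := by linarith
    have e3 : sin θ ^ 2 = 1 - cos θ ^ 2 := by linarith
    ring_nf
    simp only [e1, e2, e3]
    ring
  rw [hm, hn] at key
  unfold AA CC Cof
  have q1 : cos (β1 + β2 - γ1 - γ2) + cos (β1 + β2 + γ1 + γ2) = 2 * cos (β1 + β2) * cos (γ1 + γ2) := by
    rw [show β1 + β2 - γ1 - γ2 = (β1 + β2) - (γ1 + γ2) by ring,
      show β1 + β2 + γ1 + γ2 = (β1 + β2) + (γ1 + γ2) by ring, cos_sub (β1 + β2), cos_add (β1 + β2)]; ring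
  have q2 : cos (β1 - β2 - γ1 + γ2) + cos (β1 - β2 + γ1 - γ2) = 2 * cos (β1 - β2) * cos (γ1 - γ2) := by
    rw [show β1 - β2 - γ1 + γ2 = (β1 - β2) - (γ1 - γ2) by ring,
      show β1 - β2 + γ1 - γ2 = (β1 - β2) + (γ1 - γ2) by ring, cos_sub (β1 - β2) (γ1 - γ2), cos_add (β1 - β2)]; ring
  have r1 : cos (β1 - γ1) + cos (β1 + γ1) = 2 * cos β1 * cos γ1 := by
    rw [cos_sub, cos_add]; ring
  have r2 : cos (β2 - γ2) + cos (β2 + γ2) = 2 * cos β2 * cos γ2 := by
    rw [cos_sub, cos_add]; ring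
  have r3 : cos (β1 - γ2) + cos (β1 + γ2) = 2 * cos β1 * cos γ2 := by
    rw [cos_sub, cos_add]; ring
  have r4 : cos (β2 - γ1) + cos (β2 + γ1) = 2 * cos β2 * cos γ1 := by
    rw [cos_sub, cos_add]; ring
  have h2 := sin_sq_add_cos_sq φ
  linear_combination key * (-1) + X ^ 2 * (-1 / 2 * p22 - 1 / 2 * p44 - 1 / 2 * q2 + h2 - cos φ * p24) +
    X * (p12 + p34 + r1 + r2 + cos φ * (p14 + p23 + r3 + r4)) +
    (-1 / 2 * p11 - 1 / 2 * p33 - 1 / 2 * q1 + h2 - cos φ * p13)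

end Run7.h27
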