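import Pool.Agent.Run7.h27.Loc1

/-!
# The recursion up to the boundary of the admissible region
-/

set_option autoImplicit false

namespace Run7.h27

open Real Finset Filter Topology

/-- numerical conditions for the recursion up to the boundary -/
structure RecB (r : ℕ) (T Q : Fin 4 → ℤ) : Prop where
  odd : Odd r
  r3 : 3 ≤ r
  T1 : ∀ i, 1 ≤ T i
  Qr : ∀ j, Q j + 1 < r
  TQ0 : ∀ i j, 0 ≤ Q j - T i
  TQ : ∀ i j, (i = 0 ∨ i = 1) → (j = 0 ∨ j = 1) → 1 ≤ Q j - T i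
  sum : ∑ j, Q j - ∑ i, T i = (r:ℤ) - 2
  ha : fa (an r T) (an r Q) (2 * π / r) ≠ 0
  ha' : fa' (an r T) (an r Q) (2 * π / r) ≠ 0
  hc : fc (an r T) (an r Q) (2 * π / r) ≠ 0
  hcm : fcm (an r T) (an r Q) (2 * π / r) ≠ 0

/-- unnormalised three-term recursion -/
theorem rec_S' {r : ℕ} {T Q : Fin 4 → ℤ} (h : RecB r T Q) :
    Ssym r (shT T 1) (shQ Q 1) =
      fc (an r T) (an r Q) (2 * π / r) / (fa (an r T) (an r Q) (2 * π / r) * fa' (an r T) (an r Q) (2 * π / r)) *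
        (fa' (an r T) (an r Q) (2 * π / r) * fb (an r T) (an r Q) / fc (an r T) (an r Q) (2 * π / r) +
          fb' (an r T) (an r Q) (2 * π / r) * fam (an r T) (an r Q) / fcm (an r T) (an r Q) (2 * π / r) +
          fc' (an r T) (an r Q) (2 * π / r)) * Ssym r T Q -
      fc (an r T) (an r Q) (2 * π / r) / (fa (an r T) (an r Q) (2 * π / r) * fa' (an r T) (an r Q) (2 * π / r)) *
        (fb' (an r T) (an r Q) (2 * π / r) * fbm (an r T) (an r Q) (2 * π / r) /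
          fcm (an r T) (an r Q) (2 * π / r)) * Ssym r (shT T (-1)) (shQ Q (-1)) := by
  obtain ⟨hodd, r3, T1, Qr, _, _, sum, ha, ha', hc, hcm⟩ := h
  rw [Fin.sum_univ_four, Fin.sum_univ_four] at sum
  have t0 := T1 0
  have t1 := T1 1
  have t2 := T1 2
  have t3 := T1 3
  have q0 := Qr 0
  have q1 := Qr 1
  have q2 := Qr 2
  have q3 := Qr 3
  have bs : ∀ n : ℤ, br r n = ss (2 * π / r * n) := fun n => rfl
  have r1 := contig_A hodd r3 (T3 := T 0) (T4 := T 1) (T5 := T 2) (T6 := T 3) (Q0 := Q 0) (QL := Q 1)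
    (Qa := Q 2 + 1) (Qb := Q 3 + 1) (by omega) (by omega) (by omega) (by omega) (by omega) (by omega)
    (by omega) (by omega) (by omega)
  have r2 := contig_A hodd r3 (T3 := T 0 - 1) (T4 := T 1 - 1) (T5 := T 2) (T6 := T 3) (Q0 := Q 0)
    (QL := Q 1) (Qa := Q 2) (Qb := Q 3) (by omega) (by omega) (by omega) (by omega) (by omega)
    (by omega) (by omega) (by omega) (by omega)
  have r3' := contig_B hodd r3 (T3 := T 0) (T4 := T 1 - 1) (T5 := T 2) (T6 := T 3) (Q0 := Q 0)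
    (QL := Q 1) (Qa := Q 2) (Qb := Q 3 + 1) (by omega) (by omega) (by omega) (by omega) (by omega)
    (by omega) (by omega) (by omega) (by omega)
  rw [show Q 2 + 1 - 1 = Q 2 by ring, show Q 3 + 1 - 1 = Q 3 by ring] at r1
  rw [show T 0 - 1 + 1 = T 0 by ring, show T 1 - 1 + 1 = T 1 by ring] at r2
  rw [show T 1 - 1 + 1 = T 1 by ring, show Q 3 + 1 - 1 = Q 3 by ring] at r3'
  rw [Ssym_S8 r T Q, Ssym_sh, Ssym_sh]
  rw [show T 0 + -1 = T 0 - 1 by ring, show T 1 + -1 = T 1 - 1 by ring, show Q 2 + -1 = Q 2 - 1 by ring,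
    show Q 3 + -1 = Q 3 - 1 by ring]
  have sse : ∀ x y : ℝ, x = y → ss x = ss y := fun x y h => by rw [h]
  apply rec_elim ha ha' hc hcm (M0 := S8 r (T 0 + 1) (T 1) (T 2) (T 3) (Q 0) (Q 1) (Q 2) (Q 3 + 1))
    (Mm := S8 r (T 0) (T 1 - 1) (T 2) (T 3) (Q 0) (Q 1) (Q 2 - 1) (Q 3))
  · have e1 : fa (an r T) (an r Q) (2 * π / r) = br r (Q 2 + 1 - T 2) * br r (Q 2 + 1 - T 3) := by
      unfold fa an
      rw [bs, bs]
      congr 1 <;> (apply sse; push_cast; ring)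
    have e2 : fb (an r T) (an r Q) = br r (Q 0 - T 0) * br r (Q 1 - T 0) := by
      unfold fb an
      rw [bs, bs]
      congr 1 <;> (apply sse; push_cast; ring)
    have e3 : fc (an r T) (an r Q) (2 * π / r) = br r (Q 3 + 1 - T 1) * br r (Q 0 + Q 1 - T 0 - T 1) := by
      unfold fc an
      rw [bs, bs]
      congr 1 <;> (apply sse; push_cast; ring)
    rw [e1, e2, e3]
    exact r1
  · have e1 : fam (an r T) (an r Q) = br r (Q 2 - T 2) * br r (Q 2 - T 3) := by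
      unfold fam an
      rw [bs, bs]
      congr 1 <;> (apply sse; push_cast; ring)
    have e2 : fbm (an r T) (an r Q) (2 * π / r) = br r (Q 0 - (T 0 - 1)) * br r (Q 1 - (T 0 - 1)) := by
      unfold fbm an
      rw [bs, bs]
      congr 1 <;> (apply sse; push_cast; ring)
    have e3 : fcm (an r T) (an r Q) (2 * π / r) =
        br r (Q 3 - (T 1 - 1)) * br r (Q 0 + Q 1 - (T 0 - 1) - (T 1 - 1)) := by
      unfold fcm an
      rw [bs, bs]
      congr 1 <;> (apply sse; push_cast; ring)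
    rw [e1, e2, e3]
    exact r2
  · have e1 : fa' (an r T) (an r Q) (2 * π / r) = br r (Q 3 + 1 - T 2) * br r (Q 3 + 1 - T 3) := by
      unfold fa' an
      rw [bs, bs]
      congr 1 <;> (apply sse; push_cast; ring)
    have e2 : fb' (an r T) (an r Q) (2 * π / r) = br r (Q 0 - (T 1 - 1)) * br r (Q 1 - (T 1 - 1)) := by
      unfold fb' an
      rw [bs, bs]
      congr 1 <;> (apply sse; push_cast; ring)
    have e3 : fc' (an r T) (an r Q) (2 * π / r) =
        br r (Q 2 - T 0) * br r (Q 0 + Q 1 - T 0 - (T 1 - 1)) := by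
      unfold fc' an
      rw [bs, bs]
      congr 1 <;> (apply sse; push_cast; ring)
    rw [e1, e2, e3]
    exact r3'

lemma sum16_p' {r : ℕ} {T Q : Fin 4 → ℤ} (h : RecB r T Q) :
    exp (1 / 2 * ∑ i, ∑ j, LZ r (shQ Q 1 j - shT T 1 i)) =
      Rf (an r T) (an r Q) (2 * π / r) * exp (1 / 2 * ∑ i, ∑ j, LZ r (Q j - T i)) := by
  unfold Rf
  rw [← exp_add]
  congr 1
  simp only [Fin.sum_univ_four, shT, shQ, Matrix.cons_val]
  have f : ∀ i j, LZ r (Q j + 1 - T i) = LZ r (Q j - T i) + Real.log |ss (an r Q j - an r T i + 2 * π / r)| := by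
    intro i j
    have := h.TQ0 i j
    rw [LZ_succ (show 1 ≤ Q j + 1 - T i by omega), br_ss]
    unfold an
    have e1 : Q j + 1 - T i - 1 = Q j - T i := by ring
    have e2 : 2 * π / (r:ℝ) * ((Q j + 1 - T i : ℤ) : ℝ) =
        2 * π / r * (Q j : ℝ) - 2 * π / r * (T i : ℝ) + 2 * π / r := by
      push_cast; ring
    rw [e1, e2]
  have g : ∀ i j, (i = 0 ∨ i = 1) → (j = 0 ∨ j = 1) →
      LZ r (Q j - (T i + 1)) = LZ r (Q j - T i) - Real.log |ss (an r Q j - an r T i)| := by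
    intro i j hi hj
    have := h.TQ i j hi hj
    rw [LZ_succ (show 1 ≤ Q j - T i by omega), br_ss]
    unfold an
    have e1 : Q j - (T i + 1) = Q j - T i - 1 := by ring
    have e2 : 2 * π / (r:ℝ) * ((Q j - T i : ℤ) : ℝ) = 2 * π / r * (Q j : ℝ) - 2 * π / r * (T i : ℝ) := by
      push_cast; ring
    rw [e1, e2]; ring
  have k : ∀ i j, LZ r (Q j + 1 - (T i + 1)) = LZ r (Q j - T i) := by
    intro i j; congr 1; ring
  rw [g 0 0 (by simp) (by simp), g 0 1 (by simp) (by simp), k 0 2, k 0 3, g 1 0 (by simp) (by simp),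
    g 1 1 (by simp) (by simp), k 1 2, k 1 3, f 2 2, f 2 3, f 3 2, f 3 3]
  ring

lemma Ssym_zero {r : ℕ} {T Q : Fin 4 → ℤ} {i j : Fin 4} (h : Q j < T i) : Ssym r T Q = 0 := by
  unfold Ssym
  have : ∀ z : ℤ, ∏ i, (isf r (z - T i) * isf r (Q i - z)) = 0 := by
    intro z
    by_cases h1 : z < T i
    · apply prod_eq_zero (mem_univ i)
      rw [isf_neg (show z - T i < 0 by omega), zero_mul]
    · apply prod_eq_zero (mem_univ j)
      rw [isf_neg (show Q j - z < 0 by omega), mul_zero]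
  simp [this]

/-- at the boundary the previous term vanishes -/
theorem rec_bd {r : ℕ} {T Q : Fin 4 → ℤ} (h : RecB r T Q) (h0 : Q 2 = T 2 ∨ Q 3 = T 2) :
    N4 r (shT T (-1)) (shQ Q (-1)) = 0 ∧
    N4 r (shT T 1) (shQ Q 1) = Pc (an r T) (an r Q) (2 * π / r) * N4 r T Q := by
  have hz : Ssym r (shT T (-1)) (shQ Q (-1)) = 0 := by
    rcases h0 with h1 | h1
    · apply Ssym_zero (i := 2) (j := 2)
      simp only [shT, shQ, Matrix.cons_val]
      omega
    · apply Ssym_zero (i := 2) (j := 3)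
      simp only [shT, shQ, Matrix.cons_val]
      omega
  constructor
  · unfold N4; rw [hz, mul_zero]
  · unfold N4
    rw [sum16_p' h, rec_S' h, hz]
    unfold Pc
    ring

section squares

variable {t q : Fin 4 → ℝ} {h : ℝ}

lemma exp_half_logs {a b c d e f g k : ℝ} (ha : a ≠ 0) (hb : b ≠ 0) (hc : c ≠ 0) (hd : d ≠ 0)
    (he : e ≠ 0) (hf : f ≠ 0) (hg : g ≠ 0) (hk : k ≠ 0) :
    exp (1 / 2 * (Real.log |a| + Real.log |b| + Real.log |c| + Real.log |d| - Real.log |e| -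
      Real.log |f| - Real.log |g| - Real.log |k|)) ^ 2 = |a * b * (c * d)| / |e * g * (f * k)| := by
  rw [← exp_nat_mul]
  have e1 : ((2:ℕ):ℝ) * (1 / 2 * (Real.log |a| + Real.log |b| + Real.log |c| + Real.log |d| -
      Real.log |e| - Real.log |f| - Real.log |g| - Real.log |k|)) =
      Real.log |a| + Real.log |b| + Real.log |c| + Real.log |d| - Real.log |e| -
      Real.log |f| - Real.log |g| - Real.log |k| := by
    push_cast; ring
  have ea := abs_pos.mpr ha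
  have eb := abs_pos.mpr hb
  have ec := abs_pos.mpr hc
  have ed := abs_pos.mpr hd
  have ee := abs_pos.mpr he
  have ef := abs_pos.mpr hf
  have eg := abs_pos.mpr hg
  have ek := abs_pos.mpr hk
  rw [e1, exp_sub, exp_sub, exp_sub, exp_sub, exp_add, exp_add, exp_add,
    Real.exp_log ea, Real.exp_log eb, Real.exp_log ec, Real.exp_log ed, Real.exp_log ee,
    Real.exp_log ef, Real.exp_log eg, Real.exp_log ek]
  rw [abs_mul, abs_mul, abs_mul, abs_mul, abs_mul, abs_mul]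
  field_simp

lemma Rf_sq' (h1 : fa t q h ≠ 0) (h2 : fa' t q h ≠ 0) (h3 : fb t q ≠ 0) (h4 : fb' t q 0 ≠ 0) :
    Rf t q h ^ 2 = |fa t q h * fa' t q h| / |fb t q * fb' t q 0| := by
  unfold fa at h1 ⊢
  unfold fa' at h2 ⊢
  unfold fb at h3 ⊢
  unfold fb' at h4 ⊢
  simp only [add_zero] at h4 ⊢
  unfold Rf
  rw [exp_half_logs (left_ne_zero_of_mul h1) (right_ne_zero_of_mul h1) (left_ne_zero_of_mul h2)
    (right_ne_zero_of_mul h2) (left_ne_zero_of_mul h3) (left_ne_zero_of_mul h4)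
    (right_ne_zero_of_mul h3) (right_ne_zero_of_mul h4)]

lemma Rg_sq' (h1 : fa t q 0 ≠ 0) (h2 : fa' t q 0 ≠ 0) (h3 : fbm t q h ≠ 0) (h4 : fb' t q h ≠ 0) :
    Rg t q h ^ 2 = |fa t q 0 * fa' t q 0| / |fbm t q h * fb' t q h| := by
  unfold fa at h1 ⊢
  unfold fa' at h2 ⊢
  unfold fbm at h3 ⊢
  unfold fb' at h4 ⊢
  simp only [add_zero] at h1 h2 ⊢
  unfold Rg
  rw [exp_half_logs (left_ne_zero_of_mul h1) (right_ne_zero_of_mul h1) (left_ne_zero_of_mul h2)
    (right_ne_zero_of_mul h2) (left_ne_zero_of_mul h3) (left_ne_zero_of_mul h4)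
    (right_ne_zero_of_mul h3) (right_ne_zero_of_mul h4)]

/-- numerator of the leading coefficient -/
noncomputable def Wn (t q : Fin 4 → ℝ) (h : ℝ) : ℝ :=
  fa' t q h * fb t q + fb' t q h * fam t q * (fc t q h / fcm t q h) + fc t q h * fc' t q h

lemma Pc_sq (h1 : fa t q h ≠ 0) (h2 : fa' t q h ≠ 0) (h3 : fb t q ≠ 0) (h4 : fb' t q 0 ≠ 0)
    (h5 : fc t q h ≠ 0) :
    Pc t q h ^ 2 = Wn t q h ^ 2 / (|fa t q h * fa' t q h| * |fb t q * fb' t q 0|) := by
  unfold Pc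
  rw [mul_pow, mul_pow, Rf_sq' h1 h2 h3 h4]
  have e : (fc t q h / (fa t q h * fa' t q h)) ^ 2 *
      (fa' t q h * fb t q / fc t q h + fb' t q h * fam t q / fcm t q h + fc' t q h) ^ 2 =
      Wn t q h ^ 2 / (fa t q h * fa' t q h) ^ 2 := by
    unfold Wn
    rw [← mul_pow, ← div_pow]
    congr 1
    rw [div_mul_eq_mul_div]
    congr 1
    field_simp
  rw [mul_assoc, e, ← sq_abs (fa t q h * fa' t q h)]
  have h6 : |fa t q h * fa' t q h| ≠ 0 := abs_ne_zero.mpr (mul_ne_zero h1 h2)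
  field_simp

lemma Pc'_sq (h1 : fa t q h ≠ 0) (h2 : fa' t q h ≠ 0) (h3 : fb t q ≠ 0) (h4 : fb' t q 0 ≠ 0)
    (h6 : fa t q 0 ≠ 0) (h7 : fa' t q 0 ≠ 0) (h8 : fbm t q h ≠ 0)
    (h9 : fb' t q h ≠ 0) :
    Pc' t q h ^ 2 = |fa t q 0 * fa' t q 0| / |fa t q h * fa' t q h| *
      (|fbm t q h * fb' t q h| * fc t q h ^ 2 / (|fb t q * fb' t q 0| * fcm t q h ^ 2)) := by
  unfold Pc'
  rw [mul_pow, mul_pow, mul_pow, Rf_sq' h1 h2 h3 h4, Rg_sq' h6 h7 h8 h9]
  have e : (fc t q h / (fa t q h * fa' t q h)) ^ 2 * (fb' t q h * fbm t q h / fcm t q h) ^ 2 =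
      (fc t q h) ^ 2 * |fbm t q h * fb' t q h| ^ 2 / (|fa t q h * fa' t q h| ^ 2 * fcm t q h ^ 2) := by
    rw [sq_abs, sq_abs, ← mul_pow, div_mul_div_comm, div_pow]
    congr 1 <;> ring
  rw [mul_assoc, e]
  have k1 : |fa t q h * fa' t q h| ≠ 0 := abs_ne_zero.mpr (mul_ne_zero h1 h2)
  have k2 : |fbm t q h * fb' t q h| ≠ 0 := abs_ne_zero.mpr (mul_ne_zero h8 h9)
  have k3 : |fb t q * fb' t q 0| ≠ 0 := abs_ne_zero.mpr (mul_ne_zero h3 h4)
  field_simp

end squares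

lemma ratio_near {u0 : ℝ} (h0 : 0 ≤ u0) (h1 : u0 < π) : ∃ δ > 0, ∀ u h : ℝ, 0 ≤ u → |u - u0| < δ →
    0 < h → h < δ → 0 < ss (u + h) ∧ 0 ≤ ss u ∧ ss u ≤ 9 / 8 * ss (u + h) := by
  rcases eq_or_lt_of_le h0 with h2 | h2
  · subst h2
    refine ⟨π / 4, by positivity, ?_⟩
    intro u h hu hd hh hh'
    rw [sub_zero, abs_of_nonneg hu] at hd
    have hp := pi_pos
    unfold ss
    have s1 : 0 < sin (u + h) := sin_pos_of_pos_of_lt_pi (by linarith) (by linarith)
    have s2 : 0 ≤ sin u := sin_nonneg_of_nonneg_of_le_pi hu (by linarith)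
    have s3 : sin u ≤ sin (u + h) := sin_le_sin_of_le_of_le_pi_div_two (by linarith) (by linarith) (by linarith)
    refine ⟨by linarith, by linarith, by linarith⟩
  · have hs : 0 < ss u0 := by
      unfold ss
      have := sin_pos_of_pos_of_lt_pi h2 h1
      linarith
    have hc : Continuous (fun p : ℝ × ℝ => (ss (p.1 + p.2), ss p.1, 9 / 8 * ss (p.1 + p.2) - ss p.1)) := by
      unfold ss; fun_prop
    have c1 : Continuous (fun p : ℝ × ℝ => ss (p.1 + p.2)) := by unfold ss; fun_prop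
    have c2 : Continuous (fun p : ℝ × ℝ => ss p.1) := by unfold ss; fun_prop
    have c3 : Continuous (fun p : ℝ × ℝ => 9 / 8 * ss (p.1 + p.2) - ss p.1) := by unfold ss; fun_prop
    have e1 : ∀ᶠ p in 𝓝 ((u0, 0) : ℝ × ℝ), 0 < ss (p.1 + p.2) :=
      c1.continuousAt.eventually_const_lt (by simpa using hs)
    have e2 : ∀ᶠ p in 𝓝 ((u0, 0) : ℝ × ℝ), 0 < ss p.1 :=
      c2.continuousAt.eventually_const_lt (by simpa using hs)
    have e3 : ∀ᶠ p in 𝓝 ((u0, 0) : ℝ × ℝ), 0 < 9 / 8 * ss (p.1 + p.2) - ss p.1 :=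
      c3.continuousAt.eventually_const_lt (by simp only [add_zero]; linarith)
    have e4 := (e1.and e2).and e3
    rw [Metric.eventually_nhds_iff_ball] at e4
    obtain ⟨δ, hδ, hb⟩ := e4
    refine ⟨δ, hδ, ?_⟩
    intro u h _ hd hh hh'
    obtain ⟨⟨k1, k2⟩, k3⟩ := hb (u, h) (by
      rw [Metric.mem_ball, Prod.dist_eq, max_lt_iff, Real.dist_eq, Real.dist_eq]
      exact ⟨hd, by simpa [abs_of_pos hh] using hh'⟩)
    simp only at k1 k2 k3
    exact ⟨k1, k2.le, by linarith⟩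

end Run7.h27
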