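import Pool.Agent.Run7.h27.Wedge

/-!
# Bounds for the potential
-/

set_option autoImplicit false

namespace Run7.h27

open Real Set

/-! ### the difference of two values of Lobachevsky's function -/

lemma sin_lt_of_sq {a b : ℝ} (ha : 0 < sin (b - a) * sin (b + a)) : sin a ^ 2 < sin b ^ 2 := by
  have : sin (b - a) * sin (b + a) = sin b ^ 2 - sin a ^ 2 := by
    rw [sin_sub, sin_add]
    have h1 := sin_sq_add_cos_sq a
    have h2 := sin_sq_add_cos_sq b
    linear_combination (sin b ^ 2) * h1 - (sin a ^ 2) * h2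
  linarith

lemma sin_le_of_sq {a b : ℝ} (ha : 0 ≤ sin (b - a) * sin (b + a)) : sin a ^ 2 ≤ sin b ^ 2 := by
  have : sin (b - a) * sin (b + a) = sin b ^ 2 - sin a ^ 2 := by
    rw [sin_sub, sin_add]
    have h1 := sin_sq_add_cos_sq a
    have h2 := sin_sq_add_cos_sq b
    linear_combination (sin b ^ 2) * h1 - (sin a ^ 2) * h2
  linarith

lemma ph_le_ph {a b : ℝ} (h : sin a ^ 2 ≤ sin b ^ 2) (ha : sin a ≠ 0) : ph a ≤ ph b := by
  unfold ph
  apply Real.log_le_log
  · exact abs_pos.mpr (mul_ne_zero two_ne_zero ha)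
  · rw [abs_mul, abs_mul]
    apply mul_le_mul_of_nonneg_left _ (abs_nonneg _)
    exact sq_le_sq.mp h

lemma DL_deriv {e x : ℝ} (h1 : sin (x + e) ≠ 0) (h2 : sin x ≠ 0) :
    HasDerivAt (fun x => Lob (x + e) - Lob x) (ph x - ph (x + e)) x := by
  have d1 := Lob_comp ((hasDerivAt_id x).add_const e) h1
  have d2 := Lob_hasDeriv h2
  exact (d1.fun_sub d2).congr_deriv (by simp; ring)

/-- upper bound for `x ∈ [-e, 0]` -/
lemma DL_upper {e x : ℝ} (he : 0 < e) (he2 : e < π) (h1 : -e ≤ x) (h2 : x ≤ 0) :
    Lob (x + e) - Lob x ≤ 2 * Lob (e / 2) := by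
  have hc : Continuous (fun x => Lob (x + e) - Lob x) := by
    have := Lob_cont; fun_prop
  have hv : Lob (-(e / 2) + e) - Lob (-(e / 2)) = 2 * Lob (e / 2) := by
    rw [Lob_neg, show -(e / 2) + e = e / 2 by ring]; ring
  rcases le_total x (-(e / 2)) with hx | hx
  · have mono : MonotoneOn (fun x => Lob (x + e) - Lob x) (Icc (-e) (-(e / 2))) := by
      apply monotoneOn_of_deriv_nonneg (convex_Icc _ _) hc.continuousOn
      · intro y hy
        rw [interior_Icc] at hy
        exact (DL_deriv (sin_pos_of_pos_of_lt_pi (by linarith [hy.1]) (by linarith [hy.2])).ne'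
          (sin_neg_of_neg_of_neg_pi_lt (by linarith [hy.2]) (by linarith [hy.1])).ne).differentiableAt.differentiableWithinAt
      · intro y hy
        rw [interior_Icc] at hy
        have n1 := (sin_pos_of_pos_of_lt_pi (x := y + e) (by linarith [hy.1]) (by linarith [hy.2]))
        have n2 := (sin_neg_of_neg_of_neg_pi_lt (x := y) (by linarith [hy.2]) (by linarith [hy.1]))
        rw [(DL_deriv n1.ne' n2.ne).deriv]
        have : ph (y + e) ≤ ph y := by
          apply ph_le_ph _ n1.ne'
          apply (sin_lt_of_sq _).le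
          rw [show y - (y + e) = -e by ring, show y + (y + e) = -(-(2 * y + e)) by ring, sin_neg, sin_neg,
            neg_mul_neg]
          exact mul_pos (sin_pos_of_pos_of_lt_pi he he2)
            (sin_pos_of_pos_of_lt_pi (by linarith [hy.2]) (by linarith [hy.1]))
        linarith
    have := mono ⟨h1, hx⟩ (right_mem_Icc.mpr (by linarith)) hx
    simp only at this
    rw [hv] at this
    exact this
  · have anti : AntitoneOn (fun x => Lob (x + e) - Lob x) (Icc (-(e / 2)) 0) := by
      apply antitoneOn_of_deriv_nonpos (convex_Icc _ _) hc.continuousOn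
      · intro y hy
        rw [interior_Icc] at hy
        exact (DL_deriv (sin_pos_of_pos_of_lt_pi (by linarith [hy.1]) (by linarith [hy.2])).ne'
          (sin_neg_of_neg_of_neg_pi_lt (by linarith [hy.2]) (by linarith [hy.1])).ne).differentiableAt.differentiableWithinAt
      · intro y hy
        rw [interior_Icc] at hy
        have n1 := (sin_pos_of_pos_of_lt_pi (x := y + e) (by linarith [hy.1]) (by linarith [hy.2]))
        have n2 := (sin_neg_of_neg_of_neg_pi_lt (x := y) (by linarith [hy.2]) (by linarith [hy.1]))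
        rw [(DL_deriv n1.ne' n2.ne).deriv]
        have : ph y ≤ ph (y + e) := by
          apply ph_le_ph _ n2.ne
          apply (sin_lt_of_sq _).le
          rw [show y + e - y = e by ring, show y + e + y = 2 * y + e by ring]
          exact mul_pos (sin_pos_of_pos_of_lt_pi he he2)
            (sin_pos_of_pos_of_lt_pi (by linarith [hy.1]) (by linarith [hy.2]))
        linarith
    have := anti (left_mem_Icc.mpr (by linarith)) ⟨hx, h2⟩ hx
    simp only at this
    rw [hv] at this
    exact this

/-- lower bound for `x ∈ [0, (π - e)/2]` -/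
lemma DL_lower {e x : ℝ} (he : 0 < e) (he2 : e < π) (h1 : 0 ≤ x) (h2 : x ≤ (π - e) / 2) :
    -(2 * Lob ((π - e) / 2)) ≤ Lob (x + e) - Lob x := by
  have hc : Continuous (fun x => Lob (x + e) - Lob x) := by
    have := Lob_cont; fun_prop
  have hv : Lob ((π - e) / 2 + e) - Lob ((π - e) / 2) = -(2 * Lob ((π - e) / 2)) := by
    rw [show (π - e) / 2 + e = π - (π - e) / 2 by ring, Lob_pi_sub]; ring
  have anti : AntitoneOn (fun x => Lob (x + e) - Lob x) (Icc 0 ((π - e) / 2)) := by
    apply antitoneOn_of_deriv_nonpos (convex_Icc _ _) hc.continuousOn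
    · intro y hy
      rw [interior_Icc] at hy
      exact (DL_deriv (sin_pos_of_pos_of_lt_pi (by linarith [hy.1]) (by linarith [hy.2])).ne'
        (sin_pos_of_pos_of_lt_pi (by linarith [hy.1]) (by linarith [hy.2])).ne').differentiableAt.differentiableWithinAt
    · intro y hy
      rw [interior_Icc] at hy
      have n1 := (sin_pos_of_pos_of_lt_pi (x := y + e) (by linarith [hy.1]) (by linarith [hy.2]))
      have n2 := (sin_pos_of_pos_of_lt_pi (x := y) (by linarith [hy.1]) (by linarith [hy.2]))
      rw [(DL_deriv n1.ne' n2.ne').deriv]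
      have : ph y ≤ ph (y + e) := by
        apply ph_le_ph _ n2.ne'
        apply (sin_lt_of_sq _).le
        rw [show y + e - y = e by ring, show y + e + y = 2 * y + e by ring]
        exact mul_pos (sin_pos_of_pos_of_lt_pi he he2)
          (sin_pos_of_pos_of_lt_pi (by linarith [hy.1]) (by linarith [hy.2]))
      linarith
  have := anti ⟨h1, h2⟩ (right_mem_Icc.mpr (by linarith)) h2
  simp only at this
  rw [hv] at this
  exact this

/-! ### the alternating region -/

lemma ph_sub_mono {t q x x' : ℝ} (ht : t < x) (hxx : x ≤ x') (hq : x' < q) (hqt : q < t + π) :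
    ph (x - t) - ph (q - x) ≤ ph (x' - t) - ph (q - x') := by
  have p1 : 0 < sin (x - t) := sin_pos_of_pos_of_lt_pi (by linarith) (by linarith)
  have p2 : 0 < sin (q - x) := sin_pos_of_pos_of_lt_pi (by linarith) (by linarith)
  have p3 : 0 < sin (x' - t) := sin_pos_of_pos_of_lt_pi (by linarith) (by linarith)
  have p4 : 0 < sin (q - x') := sin_pos_of_pos_of_lt_pi (by linarith) (by linarith)
  have e : ∀ a b : ℝ, 0 < sin a → 0 < sin b → ph a - ph b = Real.log (sin a / sin b) := by
    intro a b ha hb
    unfold ph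
    rw [abs_of_pos (by positivity), abs_of_pos (by positivity), Real.log_mul (by norm_num) ha.ne',
      Real.log_mul (by norm_num) hb.ne', Real.log_div ha.ne' hb.ne']
    ring
  rw [e _ _ p1 p2, e _ _ p3 p4]
  rcases eq_or_lt_of_le hxx with h | h
  · rw [h]
  · exact Real.log_le_log (by positivity) (ratio_mono ht h hq hqt).le

lemma alt_bound {t q : Fin 4 → ℝ} {k : Fin 4} {xm : ℝ} (hq0 : q 0 = 2 * π)
    (ht : ∀ i, Ang (t i)) (hk : ∀ i, t i ≤ t k) (hqt : ∀ i j, j ≠ 0 → Ang (q j - t i))
    (hsum : ∑ i, q i - ∑ i, t i = 2 * π) (hx : π < xm) (hxq : ∀ j, j ≠ 0 → xm < q j)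
    (hcrit : ∑ i, ph (xm - t i) = ∑ i, ph (q i - xm)) {x : ℝ} (h1 : t k ≤ x) (h2 : x ≤ π) :
    F4 t q x ≤ F4 t q xm + 2 * Lob ((π - t k) / 2) + 2 * Lob (t k / 2) := by
  set e := π - t k with he
  have he0 : 0 < e := by linarith [(ht k).2]
  have heπ : e < π := by linarith [(ht k).1]
  set σ : Equiv.Perm (Fin 4) := Equiv.swap k 0 with hσ
  have hσk : σ k = 0 := by rw [hσ]; exact Equiv.swap_apply_left k 0
  have hσi : ∀ i, i ≠ k → σ i ≠ 0 := by
    intro i hi h
    apply hi
    apply σ.injective
    rw [h, hσk]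
  set g : ℝ → ℝ := fun x => ∑ i ∈ Finset.univ.erase k, (Lob (x - t i) + Lob (q (σ i) - x)) with hg
  set C := 1 / 2 * ∑ i, ∑ j, Lob (q j - t i) with hC
  have hF : ∀ x, F4 t q x = g x + (Lob (x + e) - Lob x) - C := by
    intro x
    unfold F4
    rw [← hC, hg]
    have e1 : ∑ i, (Lob (x - t i) + Lob (q i - x)) = ∑ i, (Lob (x - t i) + Lob (q (σ i) - x)) := by
      rw [Finset.sum_add_distrib, Finset.sum_add_distrib, Equiv.sum_comp σ (fun i => Lob (q i - x))]
    rw [e1, ← Finset.add_sum_erase _ _ (Finset.mem_univ k), hσk, hq0, Lob_two_pi_sub]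
    have e2 : Lob (x - t k) = Lob (x + e) := by
      rw [← Lob_add_pi (x - t k)]; congr 1; rw [he]; ring
    rw [e2]; ring
  -- position of xm
  have hxm1 : xm < t k + π := by
    have := (hqt k 1 (by decide)).2
    have := hxq 1 (by decide)
    linarith
  have hxm2 : xm - π ≤ (π - e) / 2 := by
    rw [Fin.sum_univ_four, Fin.sum_univ_four, hq0] at hsum
    have a1 := hxq 1 (by decide)
    have a2 := hxq 2 (by decide)
    have a3 := hxq 3 (by decide)
    have b0 := hk 0
    have b1 := hk 1
    have b2 := hk 2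
    have b3 := hk 3
    rw [he]
    -- 3 xm < q1+q2+q3 = Σ t ≤ 4 t k
    linarith [(ht k).2]
  -- ρ(xm) ≤ 0
  have hρm : ∑ i ∈ Finset.univ.erase k, (ph (xm - t i) - ph (q (σ i) - xm)) ≤ 0 := by
    have e1 : ∑ i, (ph (xm - t i) - ph (q (σ i) - xm)) = 0 := by
      rw [Finset.sum_sub_distrib, Equiv.sum_comp σ (fun i => ph (q i - xm)), hcrit, sub_self]
    rw [← Finset.add_sum_erase _ _ (Finset.mem_univ k), hσk, hq0] at e1
    have e2 : ph (2 * π - xm) ≤ ph (xm - t k) := by
      obtain ⟨s, hs⟩ : ∃ s, s = xm - π := ⟨_, rfl⟩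
      have s0 : 0 < s := by linarith
      have i1 : ph (2 * π - xm) = ph s := by
        unfold ph
        rw [show 2 * π - xm = π - s by rw [hs]; ring, sin_pi_sub]
      have i2 : xm - t k = s + e := by rw [hs, he]; ring
      rw [i1, i2]
      have n : 0 < sin s := sin_pos_of_pos_of_lt_pi s0 (by linarith)
      apply ph_le_ph _ n.ne'
      apply sin_le_of_sq
      rw [show s + e - s = e by ring, show s + e + s = 2 * s + e by ring]
      exact mul_nonneg (sin_nonneg_of_nonneg_of_le_pi he0.le heπ.le)
        (sin_nonneg_of_nonneg_of_le_pi (by linarith) (by linarith))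
    linarith
  have hgc : Continuous g := by
    rw [hg]
    have := Lob_cont
    fun_prop
  have hpos : ∀ y, t k < y → y < xm → ∀ i, sin (y - t i) ≠ 0 ∧ sin (q (σ i) - y) ≠ 0 ∨ i = k := by
    intro y hy1 hy2 i
    by_cases hi : i = k
    · right; exact hi
    · left
      have j1 := hqt i (σ i) (hσi i hi)
      have j2 := hxq (σ i) (hσi i hi)
      have j3 := hk i
      have j4 := hqt k (σ i) (hσi i hi)
      constructor
      · exact (sin_pos_of_pos_of_lt_pi (by linarith) (by linarith [j1.2])).ne'
      · exact (sin_pos_of_pos_of_lt_pi (by linarith) (by linarith [j4.2])).ne'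
  have hder : ∀ y, t k < y → y < xm →
      HasDerivAt g (-∑ i ∈ Finset.univ.erase k, (ph (y - t i) - ph (q (σ i) - y))) y := by
    intro y hy1 hy2
    rw [← Finset.sum_neg_distrib, hg]
    apply HasDerivAt.fun_sum
    intro i hi
    rcases hpos y hy1 hy2 i with ⟨n1, n2⟩ | h
    · have d1 := Lob_comp ((hasDerivAt_id y).sub_const (t i)) n1
      have d2 := Lob_comp ((hasDerivAt_id y).const_sub (q (σ i))) n2
      exact (d1.fun_add d2).congr_deriv (by simp; ring)
    · exact absurd h (Finset.ne_of_mem_erase hi)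
  have mono : MonotoneOn g (Icc (t k) xm) := by
    apply monotoneOn_of_deriv_nonneg (convex_Icc _ _) hgc.continuousOn
    · intro y hy
      rw [interior_Icc] at hy
      exact (hder y hy.1 hy.2).differentiableAt.differentiableWithinAt
    · intro y hy
      rw [interior_Icc] at hy
      rw [(hder y hy.1 hy.2).deriv]
      have : ∑ i ∈ Finset.univ.erase k, (ph (y - t i) - ph (q (σ i) - y)) ≤
          ∑ i ∈ Finset.univ.erase k, (ph (xm - t i) - ph (q (σ i) - xm)) := by
        apply Finset.sum_le_sum
        intro i hi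
        have hi' := Finset.ne_of_mem_erase hi
        apply ph_sub_mono
        · linarith [hk i, hy.1]
        · exact hy.2.le
        · exact hxq _ (hσi i hi')
        · linarith [(hqt i _ (hσi i hi')).2]
      linarith
  have hmono := mono ⟨h1, by linarith⟩ (right_mem_Icc.mpr (by linarith)) (by linarith : x ≤ xm)
  rw [hF x, hF xm]
  -- compare the differences
  have u1 := DL_upper (e := e) (x := x - π) he0 heπ (by rw [he]; linarith) (by linarith)
  have u2 := DL_lower (e := e) (x := xm - π) he0 heπ (by linarith) hxm2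
  rw [show x - π + e = x + e - π by ring, Lob_sub_pi, Lob_sub_pi] at u1
  rw [show xm - π + e = xm + e - π by ring, Lob_sub_pi, Lob_sub_pi] at u2
  rw [show (π - e) / 2 = t k / 2 by rw [he]; ring] at u2
  linarith

end Run7.h27
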