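import Pool.Agent.Run7.h27.Bound

/-!
# The potential on the positive region
-/

set_option autoImplicit false

namespace Run7.h27

open Real Set

/-- product difference -/
noncomputable def RU (φ θ β1 β2 γ1 γ2 x : ℝ) : ℝ :=
  sin (x - Tv φ β1 β2) * sin (x - Tv φ γ1 γ2) * (sin (x - Tv θ β1 γ1) * sin (x - Tv θ β2 γ2)) -
    sin (2 * π - x) * sin (Qv β1 β2 γ1 γ2 - x) * (sin (Qv φ θ γ1 β2 - x) * sin (Qv φ θ β1 γ2 - x))

lemma F6_dx {φ θ β1 β2 γ1 γ2 x : ℝ} (h : Reg φ θ β1 β2 γ1 γ2) (g : GR φ θ β1 β2 γ1 γ2 x) :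
    HasDerivAt (F6 φ θ β1 β2 γ1 γ2) (-(ph (x - Tv φ β1 β2) + ph (x - Tv φ γ1 γ2) +
      ph (x - Tv θ β1 γ1) + ph (x - Tv θ β2 γ2)) + (ph (2 * π - x) + ph (Qv β1 β2 γ1 γ2 - x) +
      ph (Qv φ θ γ1 β2 - x) + ph (Qv φ θ β1 γ2 - x))) x := by
  have hl := h.lin
  obtain ⟨⟨u3, u4, u5, u6⟩, ⟨v0, vL, va, vb⟩⟩ := g.pos h
  have main := F4_hasDeriv (s := x)
    (t := fun _ => ![Tv φ β1 β2, Tv φ γ1 γ2, Tv θ β1 γ1, Tv θ β2 γ2])
    (q := fun _ => ![2 * π, Qv β1 β2 γ1 γ2, Qv φ θ γ1 β2, Qv φ θ β1 γ2])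
    (t' := fun _ => 0) (q' := fun _ => 0) (x := fun s => s) (x' := 1)
    (fun i => hasDerivAt_const _ _) (fun i => hasDerivAt_const _ _) (hasDerivAt_id x)
    (by intro i; fin_cases i <;> first | exact u3.ne' | exact u4.ne' | exact u5.ne' | exact u6.ne')
    (by intro i; fin_cases i <;> first | exact v0.ne' | exact vL.ne' | exact va.ne' | exact vb.ne')
    (by
      intro i j
      fin_cases i <;> fin_cases j
      · exact sin_two_pi_sub_ne hl.t3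
      · exact hl.L3.ne
      · exact hl.a3.ne
      · exact hl.b3.ne
      · exact sin_two_pi_sub_ne hl.t4
      · exact hl.L4.ne
      · exact hl.a4.ne
      · exact hl.b4.ne
      · exact sin_two_pi_sub_ne hl.t5
      · exact hl.L5.ne
      · exact hl.a5.ne
      · exact hl.b5.ne
      · exact sin_two_pi_sub_ne hl.t6
      · exact hl.L6.ne
      · exact hl.a6.ne
      · exact hl.b6.ne)
  unfold F6
  refine main.congr_deriv ?_
  simp only [Fin.sum_univ_four, Matrix.cons_val]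
  ring

/-- the derivative through logarithms -/
lemma F6_dx_log {φ θ β1 β2 γ1 γ2 x : ℝ} (h : Reg φ θ β1 β2 γ1 γ2) (g : GR φ θ β1 β2 γ1 γ2 x) :
    HasDerivAt (F6 φ θ β1 β2 γ1 γ2) (Real.log
      (sin (2 * π - x) * sin (Qv β1 β2 γ1 γ2 - x) * (sin (Qv φ θ γ1 β2 - x) * sin (Qv φ θ β1 γ2 - x))) -
      Real.log (sin (x - Tv φ β1 β2) * sin (x - Tv φ γ1 γ2) * (sin (x - Tv θ β1 γ1) *
        sin (x - Tv θ β2 γ2)))) x := by
  obtain ⟨⟨u3, u4, u5, u6⟩, ⟨v0, vL, va, vb⟩⟩ := g.pos h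
  refine (F6_dx h g).congr_deriv ?_
  have e : ∀ a : ℝ, 0 < sin a → ph a = Real.log 2 + Real.log (sin a) := by
    intro a ha
    unfold ph
    rw [abs_of_pos (by positivity), Real.log_mul (by norm_num) ha.ne']
  rw [e _ u3, e _ u4, e _ u5, e _ u6, e _ v0, e _ vL, e _ va, e _ vb,
    Real.log_mul (mul_pos v0 vL).ne' (mul_pos va vb).ne', Real.log_mul v0.ne' vL.ne',
    Real.log_mul va.ne' vb.ne', Real.log_mul (mul_pos u3 u4).ne' (mul_pos u5 u6).ne',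
    Real.log_mul u3.ne' u4.ne', Real.log_mul u5.ne' u6.ne']
  ring

lemma F6_cont_x (φ θ β1 β2 γ1 γ2 : ℝ) : Continuous (F6 φ θ β1 β2 γ1 γ2) := by
  unfold F6; exact F4_cont _ _

lemma crit_of_deriv {φ θ β1 β2 γ1 γ2 x : ℝ} (h : Reg φ θ β1 β2 γ1 γ2) (g : GR φ θ β1 β2 γ1 γ2 x)
    (hd : deriv (F6 φ θ β1 β2 γ1 γ2) x = 0) : Crit φ θ β1 β2 γ1 γ2 x := by
  obtain ⟨⟨u3, u4, u5, u6⟩, ⟨v0, vL, va, vb⟩⟩ := g.pos h
  rw [(F6_dx_log h g).deriv] at hd
  unfold Crit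
  symm
  apply Real.log_injOn_pos (mul_pos (mul_pos v0 vL) (mul_pos va vb))
    (mul_pos (mul_pos u3 u4) (mul_pos u5 u6))
  linarith

lemma pos_bound {φ θ β1 β2 γ1 γ2 x : ℝ} (h : Hyp φ θ β1 β2 γ1 γ2) (h1 : π ≤ x)
    (hL : x ≤ Qv β1 β2 γ1 γ2) (ha : x ≤ Qv φ θ γ1 β2) (hb : x ≤ Qv φ θ β1 γ2) :
    F6 φ θ β1 β2 γ1 γ2 x ≤ max (F6 φ θ β1 β2 γ1 γ2 π)
      (max (F6 φ θ β1 β2 γ1 γ2 (xm φ θ β1 β2 γ1 γ2)) (F6 φ θ β1 β2 γ1 γ2 (xp φ θ β1 β2 γ1 γ2))) := by
  have hR := h.toReg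
  have hl := hR.lin
  obtain ⟨m, hm⟩ : ∃ m, m = min (Qv β1 β2 γ1 γ2) (min (Qv φ θ γ1 β2) (Qv φ θ β1 γ2)) := ⟨_, rfl⟩
  have mL : m ≤ Qv β1 β2 γ1 γ2 := by rw [hm]; exact min_le_left _ _
  have ma : m ≤ Qv φ θ γ1 β2 := by rw [hm]; exact (min_le_right _ _).trans (min_le_left _ _)
  have mb : m ≤ Qv φ θ β1 γ2 := by rw [hm]; exact (min_le_right _ _).trans (min_le_right _ _)
  have hxm : x ≤ m := by rw [hm]; exact le_min hL (le_min ha hb)
  have hgp := h.p.2.1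
  have hπm : π < m := by
    rw [hm]
    exact lt_min (hgp.pi.trans hgp.L) (lt_min (hgp.pi.trans hgp.a) (hgp.pi.trans hgp.b))
  have hmz : sin (Qv β1 β2 γ1 γ2 - m) * (sin (Qv φ θ γ1 β2 - m) * sin (Qv φ θ β1 γ2 - m)) = 0 := by
    rcases min_choice (Qv β1 β2 γ1 γ2) (min (Qv φ θ γ1 β2) (Qv φ θ β1 γ2)) with h2 | h2
    · rw [hm, h2, sub_self, sin_zero, zero_mul]
    · rcases min_choice (Qv φ θ γ1 β2) (Qv φ θ β1 γ2) with h3 | h3
      · rw [hm, h2, h3, sub_self, sin_zero]; ring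
      · rw [hm, h2, h3, sub_self, sin_zero]; ring
  have hRm : 0 < RU φ θ β1 β2 γ1 γ2 m := by
    unfold RU
    have z : sin (2 * π - m) * sin (Qv β1 β2 γ1 γ2 - m) *
        (sin (Qv φ θ γ1 β2 - m) * sin (Qv φ θ β1 γ2 - m)) = 0 := by
      linear_combination sin (2 * π - m) * hmz
    rw [z, sub_zero]
    apply mul_pos <;> apply mul_pos <;> apply sin_pos_of_pos_of_lt_pi
    · linarith [hl.t3.2]
    · linarith [hl.L3.2]
    · linarith [hl.t4.2]
    · linarith [hl.L4.2]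
    · linarith [hl.t5.2]
    · linarith [hl.L5.2]
    · linarith [hl.t6.2]
    · linarith [hl.L6.2]
  have hRc : Continuous (RU φ θ β1 β2 γ1 γ2) := by unfold RU; fun_prop
  -- a maximum point
  obtain ⟨y, hy, hmax⟩ := isCompact_Icc.exists_isMaxOn (nonempty_Icc.mpr hπm.le)
    (F6_cont_x φ θ β1 β2 γ1 γ2).continuousOn
  have hxy := hmax (show x ∈ Icc π m from ⟨h1, hxm⟩)
  simp only [mem_setOf_eq] at hxy
  apply hxy.trans
  rcases eq_or_lt_of_le hy.1 with hy1 | hy1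
  · rw [← hy1]; exact le_max_left _ _
  rcases eq_or_lt_of_le hy.2 with hy2 | hy2
  · -- y = m : contradiction
    exfalso
    have hev := hRc.continuousAt.eventually (lt_mem_nhds hRm)
    rw [Metric.eventually_nhds_iff] at hev
    obtain ⟨δ, hδ, hev⟩ := hev
    obtain ⟨d, hd0, hd1, hd2⟩ : ∃ d, 0 < d ∧ d < δ ∧ π < m - d := by
      refine ⟨min (δ / 2) ((m - π) / 2), lt_min (by linarith) (by linarith), ?_, ?_⟩
      · exact lt_of_le_of_lt (min_le_left _ _) (by linarith)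
      · have := min_le_right (δ / 2) ((m - π) / 2)
        linarith
    have anti : StrictAntiOn (F6 φ θ β1 β2 γ1 γ2) (Icc (m - d) m) := by
      apply strictAntiOn_of_deriv_neg (convex_Icc _ _) (F6_cont_x φ θ β1 β2 γ1 γ2).continuousOn
      intro z hz
      rw [interior_Icc] at hz
      have gz : GR φ θ β1 β2 γ1 γ2 z :=
        ⟨by linarith [hz.1], by linarith [hz.2], by linarith [hz.2], by linarith [hz.2]⟩
      obtain ⟨⟨u3, u4, u5, u6⟩, ⟨v0, vL, va, vb⟩⟩ := gz.pos hR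
      rw [(F6_dx_log hR gz).deriv]
      have hRz := hev (show dist z m < δ by
        rw [Real.dist_eq, abs_lt]; constructor <;> linarith [hz.1, hz.2])
      unfold RU at hRz
      have := Real.log_lt_log (mul_pos (mul_pos v0 vL) (mul_pos va vb)) (sub_pos.mp hRz)
      linarith
    have h3 := anti (left_mem_Icc.mpr (by linarith)) (right_mem_Icc.mpr (by linarith))
      (show m - d < m by linarith)
    have h4 := hmax (show m - d ∈ Icc π m from ⟨hd2.le, by linarith⟩)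
    simp only [mem_setOf_eq] at h4
    rw [hy2] at h4
    linarith
  · -- interior
    have gy : GR φ θ β1 β2 γ1 γ2 y := ⟨hy1, by linarith, by linarith, by linarith⟩
    have hloc : IsLocalMax (F6 φ θ β1 β2 γ1 γ2) y :=
      hmax.isLocalMax (Icc_mem_nhds hy1 hy2)
    have hc := crit_of_deriv hR gy hloc.deriv_eq_zero
    rcases crit_unique h hc gy with h5 | h5
    · rw [h5]; exact (le_max_left _ _).trans (le_max_right _ _)
    · rw [h5]; exact (le_max_right _ _).trans (le_max_right _ _)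

end Run7.h27
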