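import Pool.Agent.Run7.h27.Sym

/-!
# Growth of the symmetric sum
-/

set_option autoImplicit false

namespace Run7.h27

open Real Finset Filter Topology

/-- the potential -/
noncomputable def F4 (t q : Fin 4 → ℝ) (x : ℝ) : ℝ :=
  ∑ i, (Lob (x - t i) + Lob (q i - x)) - 1 / 2 * ∑ i, ∑ j, Lob (q j - t i)

/-- the range of summation -/
def InR (T Q : Fin 4 → ℤ) (z : ℤ) : Prop := ∀ i, T i ≤ z ∧ z ≤ Q i

/-- the terms -/
noncomputable def term (r : ℕ) (T Q : Fin 4 → ℤ) (z : ℤ) : ℝ :=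
  ∏ i, (isf r (z - T i) * isf r (Q i - z))

/-- exponent of the terms -/
noncomputable def gz (r : ℕ) (T Q : Fin 4 → ℤ) (z : ℤ) : ℝ :=
  2 * π / r * (1 / 2 * (∑ i, ∑ j, LZ r (Q j - T i)) - ∑ i, (LZ r (z - T i) + LZ r (Q i - z)))

lemma term_eq_zero {r : ℕ} {T Q : Fin 4 → ℤ} {z : ℤ} (h : ¬ InR T Q z) : term r T Q z = 0 := by
  unfold InR at h
  push Not at h
  obtain ⟨i, hi⟩ := h
  unfold term
  apply prod_eq_zero (mem_univ i)
  by_cases h1 : T i ≤ z
  · have := hi h1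
    unfold isf
    rw [if_neg (show ¬ (0 ≤ Q i - z) by omega), mul_zero]
  · unfold isf
    rw [if_neg (show ¬ (0 ≤ z - T i) by omega), zero_mul]

structure Good (r : ℕ) (T Q : Fin 4 → ℤ) : Prop where
  odd : Odd r
  r3 : 3 ≤ r
  Q0 : Q 0 = r - 2
  T0 : ∀ i, 0 ≤ T i
  le : ∀ i j, T i ≤ Q j
  small : ∀ i, ∀ j, j ≠ 0 → 2 * (Q j - T i) < r

lemma abs_isf {r : ℕ} {n : ℤ} (hr : Odd r) (hr3 : 3 ≤ r) (h0 : 0 ≤ n) (hn : n < r) :
    |isf r n| = exp (-LZ r n) := by
  unfold isf LZ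
  rw [if_pos h0, abs_inv, abs_sg hr hr3 (by omega), exp_neg]

lemma isf_pos {r : ℕ} {n : ℤ} (h0 : 0 ≤ n) (hn : 2 * n < r) : 0 < isf r n := by
  unfold isf
  rw [if_pos h0]
  exact inv_pos.mpr (sg_pos (by omega))

lemma abs_term {r : ℕ} {T Q : Fin 4 → ℤ} {z : ℤ} (hG : Good r T Q) (hz : InR T Q z) :
    |term r T Q z| = exp (-∑ i, (LZ r (z - T i) + LZ r (Q i - z))) := by
  unfold term
  rw [abs_prod, ← sum_neg_distrib, exp_sum]
  apply prod_congr rfl
  intro i _
  have h0 := (hz 0).2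
  have hT := hG.T0 0
  have hz0 := (hz 0).1
  rw [hG.Q0] at h0
  have hi := hz i
  have hTi := hG.T0 i
  have hQi : Q i - z < r := by
    by_cases h : i = 0
    · subst h; rw [hG.Q0]; omega
    · have := hG.small 0 i h
      omega
  rw [abs_mul, abs_isf hG.odd hG.r3 (by omega) (by omega), abs_isf hG.odd hG.r3 (by omega) hQi,
    ← exp_add]
  congr 1; ring

lemma term_pos {r : ℕ} {T Q : Fin 4 → ℤ} {z : ℤ} (hG : Good r T Q) (hz : InR T Q z)
    (hzr : (r:ℤ) - 3 ≤ 2 * z) : 0 < term r T Q z := by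
  unfold term
  apply prod_pos
  intro i _
  have hi := hz i
  apply mul_pos
  · apply isf_pos (by omega)
    have := hG.small i 1 (by decide)
    have h1 := (hz 1).2
    omega
  · apply isf_pos (by omega)
    by_cases h : i = 0
    · subst h; rw [hG.Q0]; omega
    · have := hG.small 0 i h
      have h0 := (hz 0).1
      omega

lemma Ssym_sum {r : ℕ} {T Q : Fin 4 → ℤ} (hG : Good r T Q) :
    Ssym r T Q = ∑ z ∈ Finset.Icc (0:ℤ) (r - 2), term r T Q z := by
  unfold Ssym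
  have : (Function.support (fun z : ℤ => ∏ i, (isf r (z - T i) * isf r (Q i - z)))) ⊆
      (Finset.Icc (0:ℤ) (r - 2) : Finset ℤ) := by
    intro z hz
    rw [Function.mem_support] at hz
    have h : InR T Q z := by
      by_contra h
      exact hz (term_eq_zero h)
    rw [Finset.mem_coe, Finset.mem_Icc]
    have h0 := h 0
    have := hG.T0 0
    rw [hG.Q0] at h0
    omega
  rw [finsum_eq_sum_of_support_subset _ this]
  rfl

lemma Ssym_upper {r : ℕ} {T Q : Fin 4 → ℤ} {B : ℝ} (hG : Good r T Q)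
    (hB : ∀ z, InR T Q z → |term r T Q z| ≤ B) (hB0 : 0 ≤ B) : |Ssym r T Q| ≤ r * B := by
  rw [Ssym_sum hG]
  calc |∑ z ∈ Finset.Icc (0:ℤ) (r - 2), term r T Q z|
      ≤ ∑ z ∈ Finset.Icc (0:ℤ) (r - 2), |term r T Q z| := abs_sum_le_sum_abs _ _
    _ ≤ ∑ z ∈ Finset.Icc (0:ℤ) (r - 2), B := by
        apply sum_le_sum
        intro z _
        by_cases h : InR T Q z
        · exact hB z h
        · rw [term_eq_zero h, abs_zero]; exact hB0
    _ ≤ r * B := by
        rw [sum_const, nsmul_eq_mul]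
        apply mul_le_mul_of_nonneg_right _ hB0
        rw [Int.card_Icc]
        have := hG.r3
        exact_mod_cast (by omega : ((r:ℤ) - 2 + 1 - 0).toNat ≤ r)

lemma Ssym_lower {r : ℕ} {T Q : Fin 4 → ℤ} {B : ℝ} {z0 : ℤ} (hG : Good r T Q)
    (hz0 : InR T Q z0) (hz0r : (r:ℤ) - 3 ≤ 2 * z0)
    (hB : ∀ z, InR T Q z → 2 * z < (r:ℤ) - 3 → |term r T Q z| ≤ B) (hB0 : 0 ≤ B) :
    term r T Q z0 - r * B ≤ Ssym r T Q := by
  rw [Ssym_sum hG]
  have hmem : z0 ∈ Finset.Icc (0:ℤ) (r - 2) := by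
    rw [Finset.mem_Icc]
    have h0 := hz0 0
    have := hG.T0 0
    rw [hG.Q0] at h0
    omega
  rw [← Finset.add_sum_erase _ _ hmem]
  have key : -(r * B) ≤ ∑ z ∈ (Finset.Icc (0:ℤ) (r - 2)).erase z0, term r T Q z := by
    calc -(r * B) ≤ ∑ z ∈ (Finset.Icc (0:ℤ) (r - 2)).erase z0, (-B) := by
          rw [sum_const, nsmul_eq_mul, mul_neg]
          apply neg_le_neg
          apply mul_le_mul_of_nonneg_right _ hB0
          have h1 := Finset.card_erase_le (s := Finset.Icc (0:ℤ) (r - 2)) (a := z0)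
          rw [Int.card_Icc] at h1
          have := hG.r3
          exact_mod_cast (by omega : ((Finset.Icc (0:ℤ) (r - 2)).erase z0).card ≤ r)
      _ ≤ _ := by
          apply sum_le_sum
          intro z _
          by_cases h : InR T Q z
          · rcases lt_or_ge (2 * z) ((r:ℤ) - 3) with h1 | h1
            · have := hB z h h1
              rw [abs_le] at this
              exact this.1
            · have := term_pos hG h h1
              linarith
          · rw [term_eq_zero h]; linarith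
  linarith

lemma Kb_eq {r : ℕ} {T Q : Fin 4 → ℤ} :
    Kb r T Q = s1 r * exp (-LL r (r - 1)) * (exp (1 / 2 * ∑ i, ∑ j, LZ r (Q j - T i)) * |Ssym r T Q|) := by
  unfold Kb
  rw [sub_eq_add_neg, exp_add]; ring

lemma exp_term {r : ℕ} {T Q : Fin 4 → ℤ} {z : ℤ} (hG : Good r T Q) (hz : InR T Q z) :
    exp (1 / 2 * ∑ i, ∑ j, LZ r (Q j - T i)) * |term r T Q z| = exp (r / (2 * π) * gz r T Q z) := by
  rw [abs_term hG hz, ← exp_add]
  congr 1
  unfold gz
  have hr : (r:ℝ) ≠ 0 := by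
    have := hG.r3
    exact_mod_cast (by omega : r ≠ 0)
  have := pi_ne_zero
  field_simp
  ring

end Run7.h27
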