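import Pool.Agent.Run7.h27.Tet
import Pool.Agent.Run7.h27.Grow

/-!
# Derivatives of the potential
-/

set_option autoImplicit false

namespace Run7.h27

open Real

lemma Lob_comp {f : ℝ → ℝ} {f' s : ℝ} (hf : HasDerivAt f f' s) (h : sin (f s) ≠ 0) :
    HasDerivAt (fun s => Lob (f s)) (-ph (f s) * f') s :=
  (Lob_hasDeriv h).comp s hf

lemma F4_hasDeriv {t q : ℝ → Fin 4 → ℝ} {x : ℝ → ℝ} {t' q' : Fin 4 → ℝ} {x' s : ℝ}
    (ht : ∀ i, HasDerivAt (fun s => t s i) (t' i) s) (hq : ∀ i, HasDerivAt (fun s => q s i) (q' i) s)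
    (hx : HasDerivAt x x' s) (h1 : ∀ i, sin (x s - t s i) ≠ 0) (h2 : ∀ i, sin (q s i - x s) ≠ 0)
    (h3 : ∀ i j, sin (q s j - t s i) ≠ 0) :
    HasDerivAt (fun s => F4 (t s) (q s) (x s))
      (∑ i, (-ph (x s - t s i) * (x' - t' i) + -ph (q s i - x s) * (q' i - x')) -
        1 / 2 * ∑ i, ∑ j, -ph (q s j - t s i) * (q' j - t' i)) s := by
  unfold F4
  apply HasDerivAt.sub
  · apply HasDerivAt.fun_sum
    intro i _
    apply HasDerivAt.add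
    · exact Lob_comp (hx.sub (ht i)) (h1 i)
    · exact Lob_comp ((hq i).sub hx) (h2 i)
  · apply HasDerivAt.const_mul
    apply HasDerivAt.fun_sum
    intro i _
    apply HasDerivAt.fun_sum
    intro j _
    exact Lob_comp ((hq j).sub (ht i)) (h3 i j)

/-- the potential in terms of the six dihedral angles -/
noncomputable def F6 (φ θ β1 β2 γ1 γ2 x : ℝ) : ℝ :=
  F4 ![Tv φ β1 β2, Tv φ γ1 γ2, Tv θ β1 γ1, Tv θ β2 γ2]
    ![2 * π, Qv β1 β2 γ1 γ2, Qv φ θ γ1 β2, Qv φ θ β1 γ2] x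

/-- the partial derivative in direction of `φ` -/
noncomputable def dF (φ θ β1 β2 γ1 γ2 x : ℝ) : ℝ :=
  -1 / 2 * (ph (x - Tv φ β1 β2) + ph (x - Tv φ γ1 γ2) - ph (Qv φ θ γ1 β2 - x) -
    ph (Qv φ θ β1 γ2 - x)) +
  1 / 4 * (ph (2 * π - Tv φ β1 β2) + ph (Qv β1 β2 γ1 γ2 - Tv φ β1 β2) +
    ph (2 * π - Tv φ γ1 γ2) + ph (Qv β1 β2 γ1 γ2 - Tv φ γ1 γ2) -
    ph (Qv φ θ γ1 β2 - Tv θ β1 γ1) - ph (Qv φ θ β1 γ2 - Tv θ β1 γ1) -
    ph (Qv φ θ γ1 β2 - Tv θ β2 γ2) - ph (Qv φ θ β1 γ2 - Tv θ β2 γ2))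

lemma ph_add_log {a b : ℝ} (ha : sin a ≠ 0) (hb : sin b ≠ 0) :
    ph a + ph b = Real.log |4 * (sin a * sin b)| := by
  unfold ph
  rw [← Real.log_mul (by simpa using ha) (by simpa using hb), ← abs_mul]
  congr 2; ring

lemma crit_ph {φ θ β1 β2 γ1 γ2 x : ℝ} (h : Reg φ θ β1 β2 γ1 γ2) (hc : Crit φ θ β1 β2 γ1 γ2 x) :
    ph (x - Tv φ β1 β2) + ph (x - Tv φ γ1 γ2) + ph (x - Tv θ β1 γ1) + ph (x - Tv θ β2 γ2) =
      ph (2 * π - x) + ph (Qv β1 β2 γ1 γ2 - x) + ph (Qv φ θ γ1 β2 - x) + ph (Qv φ θ β1 γ2 - x) := by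
  obtain ⟨⟨u3, u4, u5, u6⟩, ⟨v0, vL, va, vb⟩⟩ := crit_ne h hc
  have e1 := ph_add_log u3 u4
  have e2 := ph_add_log u5 u6
  have e3 := ph_add_log v0 vL
  have e4 := ph_add_log va vb
  have f : Real.log |4 * (sin (x - Tv φ β1 β2) * sin (x - Tv φ γ1 γ2))| +
      Real.log |4 * (sin (x - Tv θ β1 γ1) * sin (x - Tv θ β2 γ2))| =
      Real.log |4 * (sin (2 * π - x) * sin (Qv β1 β2 γ1 γ2 - x))| +
      Real.log |4 * (sin (Qv φ θ γ1 β2 - x) * sin (Qv φ θ β1 γ2 - x))| := by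
    have nz : ∀ a b : ℝ, a ≠ 0 → b ≠ 0 → |4 * (a * b)| ≠ 0 := fun a b ha hb =>
      abs_ne_zero.mpr (mul_ne_zero (by norm_num) (mul_ne_zero ha hb))
    rw [← Real.log_mul (nz _ _ u3 u4) (nz _ _ u5 u6),
      ← Real.log_mul (nz _ _ v0 vL) (nz _ _ va vb), ← abs_mul, ← abs_mul]
    congr 2
    unfold Crit at hc
    linear_combination 16 * hc
  linarith

/-- derivative of the potential along a curve of critical points -/
lemma F6_hasDeriv {φ θ β1 β2 γ1 γ2 x : ℝ → ℝ} {φ' θ' β1' β2' γ1' γ2' s : ℝ}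
    (hφ : HasDerivAt φ φ' s) (hθ : HasDerivAt θ θ' s) (hβ1 : HasDerivAt β1 β1' s)
    (hβ2 : HasDerivAt β2 β2' s) (hγ1 : HasDerivAt γ1 γ1' s) (hγ2 : HasDerivAt γ2 γ2' s)
    (hx : DifferentiableAt ℝ x s) (h : Reg (φ s) (θ s) (β1 s) (β2 s) (γ1 s) (γ2 s))
    (hc : Crit (φ s) (θ s) (β1 s) (β2 s) (γ1 s) (γ2 s) (x s)) :
    HasDerivAt (fun s => F6 (φ s) (θ s) (β1 s) (β2 s) (γ1 s) (γ2 s) (x s))
      (φ' * dF (φ s) (θ s) (β1 s) (β2 s) (γ1 s) (γ2 s) (x s) +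
        θ' * dF (θ s) (φ s) (β1 s) (γ1 s) (β2 s) (γ2 s) (x s) +
        β1' * dF (β1 s) (γ2 s) (φ s) (β2 s) (γ1 s) (θ s) (x s) +
        β2' * dF (β2 s) (γ1 s) (φ s) (β1 s) (γ2 s) (θ s) (x s) +
        γ1' * dF (γ1 s) (β2 s) (φ s) (γ2 s) (β1 s) (θ s) (x s) +
        γ2' * dF (γ2 s) (β1 s) (φ s) (γ1 s) (β2 s) (θ s) (x s)) s := by
  obtain ⟨x', hx'⟩ : ∃ x', HasDerivAt x x' s := ⟨_, hx.hasDerivAt⟩
  have hl := h.lin
  obtain ⟨⟨u3, u4, u5, u6⟩, ⟨v0, vL, va, vb⟩⟩ := crit_ne h hc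
  have hcp := crit_ph h hc
  have dT : ∀ {a b c : ℝ → ℝ} {a' b' c' : ℝ}, HasDerivAt a a' s → HasDerivAt b b' s →
      HasDerivAt c c' s → HasDerivAt (fun s => Tv (a s) (b s) (c s)) ((-a' - b' - c') / 2) s := by
    intro a b c a' b' c' ha hb hc
    unfold Tv
    exact (((ha.const_sub (3 * π)).fun_sub hb).fun_sub hc).div_const 2
  have dQ : ∀ {a b c d : ℝ → ℝ} {a' b' c' d' : ℝ}, HasDerivAt a a' s → HasDerivAt b b' s →
      HasDerivAt c c' s → HasDerivAt d d' s →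
      HasDerivAt (fun s => Qv (a s) (b s) (c s) (d s)) ((-a' - b' - c' - d') / 2) s := by
    intro a b c d a' b' c' d' ha hb hc hd
    unfold Qv
    exact ((((ha.const_sub (4 * π)).fun_sub hb).fun_sub hc).fun_sub hd).div_const 2
  have z : ∀ t : ℝ, Ang t → sin (2 * π - t) ≠ 0 := by
    intro t ht
    rw [sin_two_pi_sub]
    exact neg_ne_zero.mpr ht.ne
  have main := F4_hasDeriv (s := s)
    (t := fun s => ![Tv (φ s) (β1 s) (β2 s), Tv (φ s) (γ1 s) (γ2 s), Tv (θ s) (β1 s) (γ1 s),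
      Tv (θ s) (β2 s) (γ2 s)])
    (q := fun s => ![2 * π, Qv (β1 s) (β2 s) (γ1 s) (γ2 s), Qv (φ s) (θ s) (γ1 s) (β2 s),
      Qv (φ s) (θ s) (β1 s) (γ2 s)])
    (t' := ![(-φ' - β1' - β2') / 2, (-φ' - γ1' - γ2') / 2, (-θ' - β1' - γ1') / 2,
      (-θ' - β2' - γ2') / 2])
    (q' := ![0, (-β1' - β2' - γ1' - γ2') / 2, (-φ' - θ' - γ1' - β2') / 2,
      (-φ' - θ' - β1' - γ2') / 2]) (x := x) (x' := x')
    (by
      intro i
      fin_cases i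
      · exact dT hφ hβ1 hβ2
      · exact dT hφ hγ1 hγ2
      · exact dT hθ hβ1 hγ1
      · exact dT hθ hβ2 hγ2)
    (by
      intro i
      fin_cases i
      · exact hasDerivAt_const s (2 * π)
      · exact dQ hβ1 hβ2 hγ1 hγ2
      · exact dQ hφ hθ hγ1 hβ2
      · exact dQ hφ hθ hβ1 hγ2) hx'
    (by intro i; fin_cases i <;> assumption)
    (by intro i; fin_cases i <;> assumption)
    (by
      intro i j
      fin_cases i <;> fin_cases j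
      · exact z _ hl.t3
      · exact hl.L3.ne
      · exact hl.a3.ne
      · exact hl.b3.ne
      · exact z _ hl.t4
      · exact hl.L4.ne
      · exact hl.a4.ne
      · exact hl.b4.ne
      · exact z _ hl.t5
      · exact hl.L5.ne
      · exact hl.a5.ne
      · exact hl.b5.ne
      · exact z _ hl.t6
      · exact hl.L6.ne
      · exact hl.a6.ne
      · exact hl.b6.ne)
  unfold F6
  convert main using 1
  simp only [Fin.sum_univ_four, Matrix.cons_val]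
  unfold dF
  -- canonical forms
  rw [show Qv (θ s) (φ s) (β2 s) (γ1 s) = Qv (φ s) (θ s) (γ1 s) (β2 s) by unfold Qv; ring,
    show Qv (θ s) (φ s) (β1 s) (γ2 s) = Qv (φ s) (θ s) (β1 s) (γ2 s) by unfold Qv; ring,
    show Qv (β1 s) (γ1 s) (β2 s) (γ2 s) = Qv (β1 s) (β2 s) (γ1 s) (γ2 s) by unfold Qv; ring,
    show Tv (β1 s) (φ s) (β2 s) = Tv (φ s) (β1 s) (β2 s) by unfold Tv; ring,
    show Tv (β1 s) (γ1 s) (θ s) = Tv (θ s) (β1 s) (γ1 s) by unfold Tv; ring,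
    show Tv (γ2 s) (φ s) (γ1 s) = Tv (φ s) (γ1 s) (γ2 s) by unfold Tv; ring,
    show Tv (γ2 s) (β2 s) (θ s) = Tv (θ s) (β2 s) (γ2 s) by unfold Tv; ring,
    show Qv (β1 s) (γ2 s) (γ1 s) (β2 s) = Qv (β1 s) (β2 s) (γ1 s) (γ2 s) by unfold Qv; ring,
    show Qv (β1 s) (γ2 s) (φ s) (θ s) = Qv (φ s) (θ s) (β1 s) (γ2 s) by unfold Qv; ring,
    show Qv (φ s) (β2 s) (γ1 s) (θ s) = Qv (φ s) (θ s) (γ1 s) (β2 s) by unfold Qv; ring,
    show Tv (β2 s) (φ s) (β1 s) = Tv (φ s) (β1 s) (β2 s) by unfold Tv; ring,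
    show Tv (β2 s) (γ2 s) (θ s) = Tv (θ s) (β2 s) (γ2 s) by unfold Tv; ring,
    show Tv (γ1 s) (φ s) (γ2 s) = Tv (φ s) (γ1 s) (γ2 s) by unfold Tv; ring,
    show Tv (γ1 s) (β1 s) (θ s) = Tv (θ s) (β1 s) (γ1 s) by unfold Tv; ring,
    show Qv (β2 s) (γ1 s) (γ2 s) (β1 s) = Qv (β1 s) (β2 s) (γ1 s) (γ2 s) by unfold Qv; ring,
    show Qv (β2 s) (γ1 s) (φ s) (θ s) = Qv (φ s) (θ s) (γ1 s) (β2 s) by unfold Qv; ring,
    show Qv (φ s) (β1 s) (γ2 s) (θ s) = Qv (φ s) (θ s) (β1 s) (γ2 s) by unfold Qv; ring,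
    show Qv (γ1 s) (β2 s) (β1 s) (γ2 s) = Qv (β1 s) (β2 s) (γ1 s) (γ2 s) by unfold Qv; ring,
    show Qv (γ1 s) (β2 s) (φ s) (θ s) = Qv (φ s) (θ s) (γ1 s) (β2 s) by unfold Qv; ring,
    show Qv (φ s) (γ2 s) (β1 s) (θ s) = Qv (φ s) (θ s) (β1 s) (γ2 s) by unfold Qv; ring,
    show Qv (γ2 s) (β1 s) (β2 s) (γ1 s) = Qv (β1 s) (β2 s) (γ1 s) (γ2 s) by unfold Qv; ring,
    show Qv (γ2 s) (β1 s) (φ s) (θ s) = Qv (φ s) (θ s) (β1 s) (γ2 s) by unfold Qv; ring,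
    show Qv (φ s) (γ1 s) (β2 s) (θ s) = Qv (φ s) (θ s) (γ1 s) (β2 s) by unfold Qv; ring]
  linear_combination x' * hcp

end Run7.h27
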