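import Mathlib

/-!
# Quantum numbers, theta and tetrahedral networks at `q = exp (2 π i / r)`

The vertices of the tetrahedral graph are `0, 1, 2, 3 : Fin 4`; a colouring is a symmetric function
`c`, `c i j` being the colour of the edge which joins `i` and `j`.
-/

set_option autoImplicit false

namespace Run7.h27

/-- `q = exp (2 π i / r)`. -/
noncomputable def rootq (r : ℕ) : ℂ := Complex.exp (2 * Real.pi * Complex.I / r)

/-- The quantum integer `[n] = (q^n - q^{-n}) / (q - q^{-1})`. -/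
noncomputable def qnum (r n : ℕ) : ℂ :=
  (rootq r ^ n - (rootq r)⁻¹ ^ n) / (rootq r - (rootq r)⁻¹)

/-- The quantum factorial `[n]! = [1][2]⋯[n]`. -/
noncomputable def qfact (r n : ℕ) : ℂ := ∏ k ∈ Finset.range n, qnum r (k + 1)

/-- `r`-admissible triples. -/
def AdmTriple (r a b c : ℕ) : Prop :=
  Even (a + b + c) ∧ a ≤ b + c ∧ b ≤ a + c ∧ c ≤ a + b ∧ a + b + c ≤ 2 * (r - 2)

/-- `r`-admissible colourings of the edges of the tetrahedral graph. -/
def AdmColoring (r : ℕ) (c : Fin 4 → Fin 4 → ℕ) : Prop :=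
  (∀ i j, c i j = c j i) ∧
  ∀ i j k l : Fin 4, i ≠ j → i ≠ k → i ≠ l → j ≠ k → j ≠ l → k ≠ l →
    AdmTriple r (c i j) (c i k) (c i l)

/-- Half the sum of the colours at each of the four vertices. -/
def triSum (c : Fin 4 → Fin 4 → ℕ) : Fin 4 → ℕ :=
  ![(c 0 1 + c 0 2 + c 0 3) / 2, (c 0 1 + c 1 2 + c 1 3) / 2,
    (c 0 2 + c 1 2 + c 2 3) / 2, (c 0 3 + c 1 3 + c 2 3) / 2]

/-- Half the sum of the colours of each of the three quadrilaterals (`4`-cycles). -/
def quadSum (c : Fin 4 → Fin 4 → ℕ) : Fin 3 → ℕ :=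
  ![(c 0 2 + c 0 3 + c 1 2 + c 1 3) / 2, (c 0 1 + c 0 3 + c 1 2 + c 2 3) / 2,
    (c 0 1 + c 0 2 + c 1 3 + c 2 3) / 2]

/-- The Kauffman-Lins evaluation of the theta graph with colours `a, b, c`. -/
noncomputable def thetaNet (r a b c : ℕ) : ℂ :=
  (-1) ^ ((a + b + c) / 2) *
    (qfact r ((a + b + c) / 2 + 1) * qfact r ((a + b + c) / 2 - a) *
      qfact r ((a + b + c) / 2 - b) * qfact r ((a + b + c) / 2 - c)) /
    (qfact r a * qfact r b * qfact r c)

/-- The Kauffman-Lins evaluation of the tetrahedral network with the colouring `c`. -/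
noncomputable def tetNet (r : ℕ) (c : Fin 4 → Fin 4 → ℕ) : ℂ :=
  (∏ i : Fin 4, ∏ j : Fin 3, qfact r (quadSum c j - triSum c i)) /
    (qfact r (c 0 1) * qfact r (c 0 2) * qfact r (c 0 3) *
      qfact r (c 1 2) * qfact r (c 1 3) * qfact r (c 2 3)) *
    ∑ z ∈ Finset.range (quadSum c 0 + 1) with
        (∀ i, triSum c i ≤ z) ∧ ∀ j, z ≤ quadSum c j,
      (-1) ^ z * qfact r (z + 1) /
        ((∏ i : Fin 4, qfact r (z - triSum c i)) * ∏ j : Fin 3, qfact r (quadSum c j - z))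

/-- The absolute value of the Kauffman bracket `⟨Γ, c⟩_q` of the coloured tetrahedral graph, in the
normalisation in which theta graphs have value `1`: the Kauffman-Lins evaluation divided by the
product over the four vertices of `|θ(v)|^{1/2}`. -/
noncomputable def absBracket (r : ℕ) (c : Fin 4 → Fin 4 → ℕ) : ℝ :=
  ‖tetNet r c‖ /
    (Real.sqrt ‖thetaNet r (c 0 1) (c 0 2) (c 0 3)‖ * Real.sqrt ‖thetaNet r (c 0 1) (c 1 2) (c 1 3)‖ *
      Real.sqrt ‖thetaNet r (c 0 2) (c 1 2) (c 2 3)‖ * Real.sqrt ‖thetaNet r (c 0 3) (c 1 3) (c 2 3)‖)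

end Run7.h27
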