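import Pool.Agent.Run7.h27.Std2

/-!
# Differentiability of the critical points
-/

set_option autoImplicit false

namespace Run7.h27

open Real

lemma ratio_bounds {m n R : ℝ} (hn : 0 < n) (hR : 0 < R) (h : m ^ 2 + n ^ 2 = R ^ 2) :
    m / R ≠ -1 ∧ m / R ≠ 1 := by
  have h1 : (m / R) ^ 2 + (n / R) ^ 2 = 1 := by
    rw [div_pow, div_pow, ← add_div, h, div_self (by positivity)]
  have h2 : 0 < n / R := by positivity
  constructor <;> intro h3 <;> rw [h3] at h1 <;> nlinarith [sq_pos_of_pos h2]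

lemma yy_bounds {φ θ β1 β2 γ1 γ2 X : ℝ} (hφ : Ang φ) (hθ : Ang θ) (h1 : Ang β1) (h2 : Ang β2)
    (h3 : Ang γ1) (h4 : Ang γ2) (hDβ : 0 < Dv φ β1 β2) (hDγ : 0 < Dv φ γ1 γ2) (hX : 0 < X)
    (hq : AA φ β1 β2 γ1 γ2 * X ^ 2 - 2 * Cof φ θ β1 β2 γ1 γ2 * X + CC φ β1 β2 γ1 γ2 = 0) :
    (mm β1 β2 γ1 γ2 X / RR θ X ≠ -1 ∧ mm β1 β2 γ1 γ2 X / RR θ X ≠ 1) ∧
    ((1 + X * cos θ) / RR θ X ≠ -1 ∧ (1 + X * cos θ) / RR θ X ≠ 1) := by
  have hn := nprime_pos hφ h1 h2 h3 h4 hDβ hDγ hX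
  have hmod := modulus hq
  have hRp := RR_pos hθ hX
  have hR2 := RR_sq hθ hX
  have hR : 0 < RR θ X := by unfold RR; exact sqrt_pos.mpr hRp
  set m := mm β1 β2 γ1 γ2 X with hm
  set n := nn β1 β2 γ1 γ2 X with hn'
  set R := RR θ X with hR'
  have hs := hφ.sin_pos
  have hsθ := hθ.sin_pos
  obtain ⟨N, hN, hn1⟩ : ∃ N, N * sin φ = n - m * cos φ ∧ 0 < N :=
    ⟨(n - m * cos φ) / sin φ, by field_simp, div_pos hn hs⟩
  have e1 : m ^ 2 + N ^ 2 = R ^ 2 := by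
    rw [hR2]
    have h := sin_sq_add_cos_sq φ
    have hh : sin φ ^ 2 * (m ^ 2 + N ^ 2) = sin φ ^ 2 * (1 + 2 * X * cos θ + X ^ 2) := by
      linear_combination (-1 : ℝ) * hmod + m ^ 2 * h + (N * sin φ + (n - m * cos φ)) * hN
    exact mul_left_cancel₀ (by positivity) hh
  have e2 : (1 + X * cos θ) ^ 2 + (X * sin θ) ^ 2 = R ^ 2 := by
    rw [hR2]
    have h := sin_sq_add_cos_sq θ
    linear_combination X ^ 2 * h
  exact ⟨ratio_bounds hn1 hR e1, ratio_bounds (mul_pos hX hsθ) hR e2⟩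

lemma diff_arccos {f : ℝ → ℝ} {s : ℝ} (hf : DifferentiableAt ℝ f s) (h : f s ≠ -1 ∧ f s ≠ 1) :
    DifferentiableAt ℝ (fun s => arccos (f s)) s :=
  (differentiableAt_arccos.mpr h).comp s hf

lemma diff_sqrt {f : ℝ → ℝ} {s : ℝ} (hf : DifferentiableAt ℝ f s) (h : f s ≠ 0) :
    DifferentiableAt ℝ (fun s => sqrt (f s)) s := hf.sqrt h

section

variable {φ θ β1 β2 γ1 γ2 X : ℝ → ℝ} {s : ℝ}

lemma diff_xx (hφ : DifferentiableAt ℝ φ s) (hθ : DifferentiableAt ℝ θ s)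
    (h1 : DifferentiableAt ℝ β1 s) (h2 : DifferentiableAt ℝ β2 s) (h3 : DifferentiableAt ℝ γ1 s)
    (h4 : DifferentiableAt ℝ γ2 s) (hX : DifferentiableAt ℝ X s)
    (h : Hyp (φ s) (θ s) (β1 s) (β2 s) (γ1 s) (γ2 s)) (hX0 : 0 < X s)
    (hq : AA (φ s) (β1 s) (β2 s) (γ1 s) (γ2 s) * X s ^ 2 -
      2 * Cof (φ s) (θ s) (β1 s) (β2 s) (γ1 s) (γ2 s) * X s +
      CC (φ s) (β1 s) (β2 s) (γ1 s) (γ2 s) = 0) :
    DifferentiableAt ℝ (fun s => xx (φ s) (θ s) (β1 s) (β2 s) (γ1 s) (γ2 s) (X s)) s := by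
  obtain ⟨⟨b1, b2⟩, ⟨b3, b4⟩⟩ := yy_bounds h.aφ h.aθ h.aβ1 h.aβ2 h.aγ1 h.aγ2 h.d3 h.d4 hX0 hq
  have hRp := RR_pos h.aθ hX0
  have hR : 0 < RR (θ s) (X s) := by unfold RR; exact sqrt_pos.mpr hRp
  have dR : DifferentiableAt ℝ (fun s => RR (θ s) (X s)) s := by
    unfold RR
    exact diff_sqrt (f := fun s => 1 + 2 * X s * cos (θ s) + X s ^ 2) (by fun_prop) hRp.ne'
  have dm : DifferentiableAt ℝ (fun s => mm (β1 s) (β2 s) (γ1 s) (γ2 s) (X s)) s := by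
    unfold mm
    fun_prop
  have dy : DifferentiableAt ℝ (fun s => yy (θ s) (β1 s) (β2 s) (γ1 s) (γ2 s) (X s)) s := by
    unfold yy
    apply DifferentiableAt.fun_sub
    · exact diff_arccos (dm.fun_div dR hR.ne') ⟨b1, b2⟩
    · exact diff_arccos (DifferentiableAt.fun_div (by fun_prop) dR hR.ne') ⟨b3, b4⟩
  unfold xx
  fun_prop

lemma diff_XX (hφ : DifferentiableAt ℝ φ s) (hθ : DifferentiableAt ℝ θ s)
    (h1 : DifferentiableAt ℝ β1 s) (h2 : DifferentiableAt ℝ β2 s) (h3 : DifferentiableAt ℝ γ1 s)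
    (h4 : DifferentiableAt ℝ γ2 s) (h : Hyp (φ s) (θ s) (β1 s) (β2 s) (γ1 s) (γ2 s)) :
    DifferentiableAt ℝ (fun s => Xp (φ s) (θ s) (β1 s) (β2 s) (γ1 s) (γ2 s)) s ∧
    DifferentiableAt ℝ (fun s => Xm (φ s) (θ s) (β1 s) (β2 s) (γ1 s) (γ2 s)) s := by
  have dC : DifferentiableAt ℝ (fun s => Cof (φ s) (θ s) (β1 s) (β2 s) (γ1 s) (γ2 s)) s := by
    unfold Cof; fun_prop
  have dD : DifferentiableAt ℝ (fun s => Dv (φ s) (β1 s) (β2 s)) s := by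
    unfold Dv; fun_prop
  have dD' : DifferentiableAt ℝ (fun s => Dv (φ s) (γ1 s) (γ2 s)) s := by
    unfold Dv; fun_prop
  have dA : DifferentiableAt ℝ (fun s => AA (φ s) (β1 s) (β2 s) (γ1 s) (γ2 s)) s := by
    unfold AA; fun_prop
  have dS : DifferentiableAt ℝ (fun s => sqrt (Cof (φ s) (θ s) (β1 s) (β2 s) (γ1 s) (γ2 s) ^ 2 -
      Dv (φ s) (β1 s) (β2 s) * Dv (φ s) (γ1 s) (γ2 s))) s := by
    apply DifferentiableAt.sqrt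
    · fun_prop
    · have := h.hyp
      linarith
  have hA := AA_pos h.aβ1 h.aβ2 h.aγ1 h.aγ2 h.d3 h.d4
  unfold Xp Xm
  exact ⟨(dC.add dS).div dA hA.ne', (dC.sub dS).div dA hA.ne'⟩

lemma diff_xp (hφ : DifferentiableAt ℝ φ s) (hθ : DifferentiableAt ℝ θ s)
    (h1 : DifferentiableAt ℝ β1 s) (h2 : DifferentiableAt ℝ β2 s) (h3 : DifferentiableAt ℝ γ1 s)
    (h4 : DifferentiableAt ℝ γ2 s) (h : Hyp (φ s) (θ s) (β1 s) (β2 s) (γ1 s) (γ2 s)) :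
    DifferentiableAt ℝ (fun s => xp (φ s) (θ s) (β1 s) (β2 s) (γ1 s) (γ2 s)) s := by
  obtain ⟨r1, r2, r3, r4⟩ := h.roots
  exact diff_xx hφ hθ h1 h2 h3 h4 (diff_XX hφ hθ h1 h2 h3 h4 h).1 h (r1.trans r2) r4

lemma diff_xm (hφ : DifferentiableAt ℝ φ s) (hθ : DifferentiableAt ℝ θ s)
    (h1 : DifferentiableAt ℝ β1 s) (h2 : DifferentiableAt ℝ β2 s) (h3 : DifferentiableAt ℝ γ1 s)
    (h4 : DifferentiableAt ℝ γ2 s) (h : Hyp (φ s) (θ s) (β1 s) (β2 s) (γ1 s) (γ2 s)) :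
    DifferentiableAt ℝ (fun s => xm (φ s) (θ s) (β1 s) (β2 s) (γ1 s) (γ2 s)) s := by
  obtain ⟨r1, r2, r3, r4⟩ := h.roots
  exact diff_xx hφ hθ h1 h2 h3 h4 (diff_XX hφ hθ h1 h2 h3 h4 h).2 h r1 r3

end

end Run7.h27
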