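import Pool.Agent.Run7.h27.Grow2

/-!
# Growth of the symmetric sum, third part: the limit
-/

set_option autoImplicit false

namespace Run7.h27

open Real Finset Filter Topology

lemma ev_log {ε : ℝ} (hε : 0 < ε) : ∀ᶠ r in oddTop, 2 * π / (r:ℕ) * Real.log (2 * r) ≤ ε := by
  have h1 : Tendsto (fun x : ℝ => Real.log x / x) atTop (𝓝 0) :=
    Real.isLittleO_log_id_atTop.tendsto_div_nhds_zero
  have h2 : Tendsto (fun r : ℕ => (2:ℝ) * r) atTop atTop :=
    tendsto_natCast_atTop_atTop.const_mul_atTop (by norm_num)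
  have h3 := ((h1.comp h2).const_mul (4 * π)).mono_left oddTop_le
  rw [mul_zero] at h3
  have h4 := h3.eventually_lt_const hε
  filter_upwards [h4] with r hr
  simp only [Function.comp] at hr
  have : 2 * π / (r:ℝ) * Real.log (2 * r) = 4 * π * (Real.log (2 * r) / (2 * r)) := by
    rcases eq_or_ne (r:ℝ) 0 with h | h
    · simp [h]
    · field_simp; ring
  linarith

lemma abs_log_s1 {r : ℕ} (hr : 4 ≤ r) : |Real.log (s1 r)| ≤ Real.log (2 * r) := by
  have hr' : (4:ℝ) ≤ r := by exact_mod_cast hr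
  have h1 : 1 / (r:ℝ) ≤ s1 r := by
    unfold s1
    have := Real.mul_le_sin (x := 2 * π / r) (by positivity)
      (by rw [div_le_div_iff₀ (by linarith) (by norm_num)]; nlinarith [pi_pos])
    have e : 2 / π * (2 * π / r) = 4 * (1 / r) := by
      have := pi_ne_zero
      field_simp; ring
    rw [e] at this
    have h0 : 0 < 1 / (r:ℝ) := by positivity
    linarith
  have h2 : s1 r ≤ 2 := by
    unfold s1
    have := sin_le_one (2 * π / r)
    linarith
  have hs : 0 < s1 r := s1_pos (by omega)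
  rw [abs_le]
  constructor
  · rw [← Real.log_inv]
    apply Real.log_le_log (by positivity)
    apply le_trans _ h1
    rw [← one_div]
    apply one_div_le_one_div_of_le <;> linarith
  · apply Real.log_le_log hs
    linarith

lemma ev_LL {ε : ℝ} (hε : 0 < ε) : ∀ᶠ r in oddTop, |2 * π / (r:ℕ) * LL r (r - 1)| ≤ ε := by
  obtain ⟨R, hR, h⟩ := LL_asymp (show 0 < ε / 2 by positivity)
  obtain ⟨δ, hδ, hL⟩ := Lob_unif (show 0 < ε / 2 by positivity)
  have h1 : ∀ᶠ r in oddTop, 2 * π / (r:ℕ) < δ := by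
    have : Tendsto (fun r : ℕ => 2 * π / (r:ℝ)) oddTop (𝓝 0) :=
      (tendsto_const_div_atTop_nhds_zero_nat (2 * π)).mono_left oddTop_le
    exact this.eventually_lt_const hδ
  filter_upwards [h1, ev_of_ge R h, ev_of_ge 3 (fun r hr _ => hr)] with r h2 h3 h4
  have h5 := h3 (r - 1) (by omega)
  have hr : (0:ℝ) < r := by exact_mod_cast (by omega : 0 < r)
  have e : 2 * π / r * ((r - 1 : ℕ) : ℝ) = 2 * π - 2 * π / r := by
    rw [Nat.cast_sub (by omega)]
    push_cast
    field_simp
  rw [e] at h5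
  have h6 := hL (2 * π - 2 * π / r) (2 * π) (by
    rw [abs_lt]
    have : 0 < 2 * π / r := by positivity
    constructor <;> linarith)
  have h7 : Lob (2 * π) = 0 := by
    have := Lob_two_pi_sub 0
    rw [sub_zero, Lob_zero] at this
    simpa using this
  rw [h7] at h6
  rw [abs_lt] at h6
  rw [abs_le] at h5 ⊢
  constructor <;> linarith

theorem growth {T Q : ℕ → Fin 4 → ℤ} {t q : Fin 4 → ℝ} {V x0 : ℝ} (h : Lim T Q t q)
    (htq : ∀ i j, t i ≤ q j) (htp : ∀ i, t i ≤ π)
    (H1 : ∀ x, (∀ i, t i ≤ x) → (∀ i, x ≤ q i) → F4 t q x ≤ V)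
    (hx1 : ∀ i, t i < x0) (hx2 : ∀ i, x0 < q i) (hx3 : π < x0) (H2 : F4 t q x0 = V)
    (H3 : ∀ x, (∀ i, t i ≤ x) → (∀ i, x ≤ q i) → x ≤ π → F4 t q x < V) :
    Tendsto (fun r : ℕ => 2 * π / r * Real.log (Kb r (T r) (Q r))) oddTop (𝓝 V) := by
  rw [Metric.tendsto_nhds]
  intro ε hε
  obtain ⟨η, hη, hB⟩ := gz_alt h htq htp H3
  obtain ⟨ε1, hε1, he1, he2⟩ : ∃ ε1 > 0, ε1 ≤ ε / 8 ∧ ε1 ≤ η / 4 :=
    ⟨min (ε / 8) (η / 4), lt_min (by linarith) (by linarith), min_le_left _ _, min_le_right _ _⟩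
  filter_upwards [hB, gz_upper h htq H1 hε1, gz_lower h hx1 hx2 hx3 hε1, ev_LL hε1, ev_log hε1,
    h.good, ev_of_ge 4 (fun r hr _ => hr)] with r hB hA hC hD hE hG hr4
  obtain ⟨z0, hz0, hz0r, hz0g⟩ := hC
  rw [H2] at hz0g
  rw [Real.dist_eq, Kb_eq]
  have hr : (0:ℝ) < r := by exact_mod_cast (by omega : 0 < r)
  have hrp : 0 < (r:ℝ) / (2 * π) := by positivity
  have hs : 0 < s1 r := s1_pos (by omega)
  set E0 := exp (1 / 2 * ∑ i, ∑ j, LZ r (Q r j - T r i)) with hE0
  have hE0p : 0 < E0 := exp_pos _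
  -- upper bound
  have hup : E0 * |Ssym r (T r) (Q r)| ≤ r * exp (r / (2 * π) * (V + ε1)) := by
    have := Ssym_upper (B := exp (r / (2 * π) * (V + ε1)) / E0) hG (by
      intro z hz
      rw [le_div_iff₀ hE0p, mul_comm, hE0, exp_term hG hz]
      apply exp_le_exp.mpr
      exact mul_le_mul_of_nonneg_left (hA z hz) hrp.le) (by positivity)
    calc E0 * |Ssym r (T r) (Q r)| ≤ E0 * (r * (exp (r / (2 * π) * (V + ε1)) / E0)) :=
          mul_le_mul_of_nonneg_left this hE0p.le
      _ = r * exp (r / (2 * π) * (V + ε1)) := by field_simp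
  have hlow : 1 / 2 * exp (r / (2 * π) * (V - ε1)) ≤ E0 * |Ssym r (T r) (Q r)| := by
    have h1 := Ssym_lower (B := exp (r / (2 * π) * (V - η)) / E0) hG hz0 hz0r (by
      intro z hz hzr
      rw [le_div_iff₀ hE0p, mul_comm, hE0, exp_term hG hz]
      apply exp_le_exp.mpr
      exact mul_le_mul_of_nonneg_left (hB z hz hzr) hrp.le) (by positivity)
    have h2 : E0 * term r (T r) (Q r) z0 = exp (r / (2 * π) * gz r (T r) (Q r) z0) := by
      rw [← exp_term hG hz0, ← hE0, abs_of_pos (term_pos hG hz0 hz0r)]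
    have h3 : exp (r / (2 * π) * (V - ε1)) ≤ exp (r / (2 * π) * gz r (T r) (Q r) z0) := by
      apply exp_le_exp.mpr
      exact mul_le_mul_of_nonneg_left hz0g hrp.le
    have h4 : r * exp (r / (2 * π) * (V - η)) ≤ 1 / 2 * exp (r / (2 * π) * (V - ε1)) := by
      have h5 : 2 * (r:ℝ) ≤ exp (r / (2 * π) * (η - ε1)) := by
        rw [← Real.log_le_iff_le_exp (by positivity)]
        have h6 : Real.log (2 * r) = r / (2 * π) * (2 * π / r * Real.log (2 * r)) := by
          have := pi_ne_zero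
          field_simp
        rw [h6]
        apply mul_le_mul_of_nonneg_left _ hrp.le
        linarith
      have h7 : exp (r / (2 * π) * (V - ε1)) =
          exp (r / (2 * π) * (η - ε1)) * exp (r / (2 * π) * (V - η)) := by
        rw [← exp_add]; congr 1; ring
      rw [h7]
      have := exp_pos (r / (2 * π) * (V - η))
      nlinarith
    calc 1 / 2 * exp (r / (2 * π) * (V - ε1))
        ≤ exp (r / (2 * π) * gz r (T r) (Q r) z0) - r * exp (r / (2 * π) * (V - η)) := by linarith
      _ = E0 * (term r (T r) (Q r) z0 - r * (exp (r / (2 * π) * (V - η)) / E0)) := by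
          rw [← h2]; field_simp
      _ ≤ E0 * Ssym r (T r) (Q r) := mul_le_mul_of_nonneg_left h1 hE0p.le
      _ ≤ E0 * |Ssym r (T r) (Q r)| := mul_le_mul_of_nonneg_left (le_abs_self _) hE0p.le
  set S := E0 * |Ssym r (T r) (Q r)| with hS
  have hSpos : 0 < S := lt_of_lt_of_le (by positivity) hlow
  have hlS1 : Real.log S ≤ Real.log r + r / (2 * π) * (V + ε1) := by
    have := Real.log_le_log hSpos hup
    rwa [Real.log_mul (by positivity) (exp_pos _).ne', Real.log_exp] at this
  have hlS2 : r / (2 * π) * (V - ε1) - Real.log 2 ≤ Real.log S := by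
    have := Real.log_le_log (by positivity) hlow
    rw [Real.log_mul (by positivity) (exp_pos _).ne', Real.log_exp, one_div, Real.log_inv] at this
    linarith
  have hlog : Real.log (s1 r * exp (-LL r (r - 1)) * S) = Real.log (s1 r) - LL r (r - 1) + Real.log S := by
    rw [Real.log_mul (by positivity) hSpos.ne', Real.log_mul hs.ne' (exp_pos _).ne', Real.log_exp]
    ring
  rw [hlog]
  have hlog2 : Real.log 2 ≤ Real.log (2 * r) := by
    apply Real.log_le_log (by norm_num)
    have : (4:ℝ) ≤ r := by exact_mod_cast hr4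
    linarith
  have hlogr : Real.log r ≤ Real.log (2 * r) := by
    apply Real.log_le_log hr
    linarith
  have hs1 := abs_log_s1 hr4
  have hc : 0 < 2 * π / (r:ℝ) := by positivity
  have e1 : 2 * π / r * (Real.log (s1 r) - LL r (r - 1) + Real.log S) =
    2 * π / r * Real.log (s1 r) - 2 * π / r * LL r (r - 1) + 2 * π / r * Real.log S := by ring
  rw [e1]
  have b1 : |2 * π / r * Real.log (s1 r)| ≤ ε1 := by
    rw [abs_mul, abs_of_pos hc]
    exact (mul_le_mul_of_nonneg_left hs1 hc.le).trans hE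
  have b2 : 2 * π / r * Real.log S ≤ V + ε1 + ε1 := by
    have := mul_le_mul_of_nonneg_left hlS1 hc.le
    have e2 : 2 * π / r * (Real.log r + r / (2 * π) * (V + ε1)) = 2 * π / r * Real.log r + (V + ε1) := by
      have := pi_ne_zero
      field_simp
    rw [e2] at this
    have := (mul_le_mul_of_nonneg_left hlogr hc.le).trans hE
    linarith
  have b3 : V - ε1 - ε1 ≤ 2 * π / r * Real.log S := by
    have := mul_le_mul_of_nonneg_left hlS2 hc.le
    have e2 : 2 * π / r * (r / (2 * π) * (V - ε1) - Real.log 2) = (V - ε1) - 2 * π / r * Real.log 2 := by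
      have := pi_ne_zero
      field_simp
    rw [e2] at this
    have := (mul_le_mul_of_nonneg_left hlog2 hc.le).trans hE
    linarith
  rw [abs_le] at b1 hD
  rw [abs_lt]
  constructor <;> linarith

end Run7.h27
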