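import Pool.Agent.Run7.h27.Bound2
import Pool.Agent.Run7.h27.Grow3

/-!
# Growth for tetrahedra in standard position
-/

set_option autoImplicit false

namespace Run7.h27

open Real Set Filter Topology

/-- vertex parameters -/
noncomputable def tvec (φ θ β1 β2 γ1 γ2 : ℝ) : Fin 4 → ℝ :=
  ![Tv φ β1 β2, Tv φ γ1 γ2, Tv θ β1 γ1, Tv θ β2 γ2]

/-- quadrilateral parameters -/
noncomputable def qvec (φ θ β1 β2 γ1 γ2 : ℝ) : Fin 4 → ℝ :=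
  ![2 * π, Qv β1 β2 γ1 γ2, Qv φ θ γ1 β2, Qv φ θ β1 γ2]

lemma F6_def (φ θ β1 β2 γ1 γ2 x : ℝ) :
    F6 φ θ β1 β2 γ1 γ2 x = F4 (tvec φ θ β1 β2 γ1 γ2) (qvec φ θ β1 β2 γ1 γ2) x := rfl

lemma Lob_nonneg {x : ℝ} (h0 : 0 ≤ x) (h1 : x ≤ π / 2) : 0 ≤ Lob x := by
  rw [Lob_eq]; exact EvenVol.LobIneq.lob_nonneg h0 h1

lemma Reg.tvec {φ θ β1 β2 γ1 γ2 : ℝ} (h : Reg φ θ β1 β2 γ1 γ2) (i : Fin 4) :
    Ang (tvec φ θ β1 β2 γ1 γ2 i) := by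
  have hl := h.lin
  fin_cases i
  · exact hl.t3
  · exact hl.t4
  · exact hl.t5
  · exact hl.t6

lemma Reg.qt {φ θ β1 β2 γ1 γ2 : ℝ} (h : Reg φ θ β1 β2 γ1 γ2) (i j : Fin 4) (hj : j ≠ 0) :
    Ang (qvec φ θ β1 β2 γ1 γ2 j - Run7.h27.tvec φ θ β1 β2 γ1 γ2 i) := by
  have hl := h.lin
  fin_cases i <;> fin_cases j
  · exact absurd rfl hj
  · exact hl.L3
  · exact hl.a3
  · exact hl.b3
  · exact absurd rfl hj
  · exact hl.L4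
  · exact hl.a4
  · exact hl.b4
  · exact absurd rfl hj
  · exact hl.L5
  · exact hl.a5
  · exact hl.b5
  · exact absurd rfl hj
  · exact hl.L6
  · exact hl.a6
  · exact hl.b6

lemma sum_qt (φ θ β1 β2 γ1 γ2 : ℝ) :
    ∑ i, qvec φ θ β1 β2 γ1 γ2 i - ∑ i, tvec φ θ β1 β2 γ1 γ2 i = 2 * π := by
  unfold qvec tvec
  simp only [Fin.sum_univ_four, Matrix.cons_val]
  unfold Tv Qv; ring

lemma Reg.tq {φ θ β1 β2 γ1 γ2 : ℝ} (h : Reg φ θ β1 β2 γ1 γ2) (i j : Fin 4) :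
    Run7.h27.tvec φ θ β1 β2 γ1 γ2 i ≤ qvec φ θ β1 β2 γ1 γ2 j := by
  by_cases hj : j = 0
  · subst hj
    have h1 := (h.tvec i).2
    have : qvec φ θ β1 β2 γ1 γ2 0 = 2 * π := rfl
    rw [this]
    linarith [pi_pos]
  · linarith [(h.qt i j hj).1]

lemma GR.q {φ θ β1 β2 γ1 γ2 x : ℝ} (g : GR φ θ β1 β2 γ1 γ2 x) (j : Fin 4) (hj : j ≠ 0) :
    x < qvec φ θ β1 β2 γ1 γ2 j := by
  fin_cases j
  · exact absurd rfl hj
  · exact g.L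
  · exact g.a
  · exact g.b

lemma Hyp.Vbounds {φ θ β1 β2 γ1 γ2 V : ℝ} (h : Hyp φ θ β1 β2 γ1 γ2)
    (hVm : F6 φ θ β1 β2 γ1 γ2 (xm φ θ β1 β2 γ1 γ2) = -V) {k : Fin 4}
    (hk : ∀ i, tvec φ θ β1 β2 γ1 γ2 i ≤ tvec φ θ β1 β2 γ1 γ2 k) {x : ℝ}
    (hx : tvec φ θ β1 β2 γ1 γ2 k ≤ x) (hxπ : x ≤ π) :
    F6 φ θ β1 β2 γ1 γ2 x ≤ -V + 2 * (Lob ((π - tvec φ θ β1 β2 γ1 γ2 k) / 2) +
      Lob (tvec φ θ β1 β2 γ1 γ2 k / 2)) := by
  obtain ⟨cm, gm, _⟩ := h.m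
  have := alt_bound (t := tvec φ θ β1 β2 γ1 γ2) (q := qvec φ θ β1 β2 γ1 γ2) (k := k)
    (xm := xm φ θ β1 β2 γ1 γ2) rfl h.toReg.tvec hk h.toReg.qt (sum_qt _ _ _ _ _ _) gm.pi gm.q
    (by
      have := crit_ph h.toReg cm
      unfold tvec qvec
      simp only [Fin.sum_univ_four, Matrix.cons_val]
      linarith) hx hxπ
  rw [← F6_def, ← F6_def, hVm] at this
  linarith

/-- growth under the volume condition -/
theorem hyp_growth {φ θ β1 β2 γ1 γ2 V : ℝ} (h : Hyp φ θ β1 β2 γ1 γ2)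
    (hVp : F6 φ θ β1 β2 γ1 γ2 (xp φ θ β1 β2 γ1 γ2) = V)
    (hVm : F6 φ θ β1 β2 γ1 γ2 (xm φ θ β1 β2 γ1 γ2) = -V) {k : Fin 4}
    (hk : ∀ i, tvec φ θ β1 β2 γ1 γ2 i ≤ tvec φ θ β1 β2 γ1 γ2 k)
    (hV : Lob ((π - tvec φ θ β1 β2 γ1 γ2 k) / 2) + Lob (tvec φ θ β1 β2 γ1 γ2 k / 2) < V)
    {T Q : ℕ → Fin 4 → ℤ} (hl : Lim T Q (tvec φ θ β1 β2 γ1 γ2) (qvec φ θ β1 β2 γ1 γ2)) :
    Tendsto (fun r : ℕ => 2 * π / r * Real.log (Kb r (T r) (Q r))) oddTop (𝓝 V) := by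
  have hR := h.toReg
  have htk := hR.tvec k
  have hV0 : 0 ≤ V := by
    have h1 := Lob_nonneg (x := (π - tvec φ θ β1 β2 γ1 γ2 k) / 2) (by linarith [htk.2])
      (by linarith [htk.1])
    have h2 := Lob_nonneg (x := tvec φ θ β1 β2 γ1 γ2 k / 2) (by linarith [htk.1]) (by linarith [htk.2])
    linarith
  have H3 : ∀ x, (∀ i, tvec φ θ β1 β2 γ1 γ2 i ≤ x) → x ≤ π → F6 φ θ β1 β2 γ1 γ2 x < V := by
    intro x hx hxπ
    have := h.Vbounds hVm hk (hx k) hxπ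
    linarith
  obtain ⟨cp, gp, _⟩ := h.p
  apply growth hl hR.tq (fun i => (hR.tvec i).2.le) (x0 := xp φ θ β1 β2 γ1 γ2) _ _ _ gp.pi hVp
  · intro x h1 _ h3
    exact H3 x h1 h3
  · intro x h1 h2
    rw [← F6_def]
    rcases le_total x π with hx | hx
    · exact (H3 x h1 hx).le
    · apply (pos_bound h hx (h2 1) (h2 2) (h2 3)).trans
      apply max_le
      · exact (H3 π (fun i => (hR.tvec i).2.le) le_rfl).le
      · apply max_le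
        · rw [hVm]; linarith
        · exact hVp.le
  · intro i
    exact (hR.tvec i).2.trans gp.pi
  · intro j
    by_cases hj : j = 0
    · subst hj
      have h1 := gp.L
      have h2 := hR.lin.L3.2
      have h3 := hR.lin.t3.2
      show xp φ θ β1 β2 γ1 γ2 < 2 * π
      linarith
    · exact gp.q j hj

end Run7.h27
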