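import Pool.Agent.Run7.h27.Line2
import Pool.Agent.Run7.h27.Main1

/-!
# The ideal end of the line
-/

set_option autoImplicit false

namespace Run7.h27

open Real Set Filter Topology

lemma ideal_core {φ y β γ β' γ' : ℝ} (h0 : 0 ≤ y) (hπ : y < π) (aβ : Ang β) (aγ : Ang γ)
    (hD : Dv y β γ = 0) (h6 : π - β' - γ' ≤ y) (hL : β + γ + β' + γ' < 2 * π)
    (hb : φ + y + β + γ' ≤ 2 * π) (hg : π < φ + γ + γ') (ha : φ + y + γ + β' ≤ 2 * π)
    (hβ : π < φ + β + β') : y + β + γ = π := by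
  have hp := Dv_eq y β γ
  rw [hD, neg_zero] at hp
  have inj : ∀ x, 0 ≤ x → x ≤ π → cos y = cos x → y = x := fun x hx1 hx2 h =>
    injOn_cos ⟨h0, hπ.le⟩ ⟨hx1, hx2⟩ h
  obtain ⟨b0, bπ⟩ := aβ
  obtain ⟨g0, gπ⟩ := aγ
  rcases mul_eq_zero.mp hp with h | h
  · rcases le_or_gt (β + γ) π with h1 | h1
    · have := inj (π - (β + γ)) (by linarith) (by linarith) (by rw [cos_pi_sub]; linarith)
      linarith
    · exfalso
      have := inj (β + γ - π) (by linarith) (by linarith) (by rw [cos_sub_pi]; linarith)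
      linarith
  · exfalso
    rcases le_or_gt γ β with h1 | h1
    · have := inj (π - (β - γ)) (by linarith) (by linarith) (by rw [cos_pi_sub]; linarith)
      linarith
    · have := inj (π - (γ - β)) (by linarith) (by linarith) (by
        rw [cos_pi_sub, show γ - β = -(β - γ) by ring, cos_neg]; linarith)
      linarith

variable {a1 a2 b1 b2 φ y : ℝ}

/-- linear facts on the hyperbolic part -/
lemma LnH.facts (h : LnH a1 a2 b1 b2 φ y) :
    π < y + be1 a1 a2 + be1 b1 b2 ∧ π < y + be2 a1 a2 φ + be2 b1 b2 φ ∧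
    φ + y + be1 b1 b2 + be2 a1 a2 φ < 2 * π ∧ φ + y + be1 a1 a2 + be2 b1 b2 φ < 2 * π := by
  have hy := h.hyp
  have g := hy.p.2.1
  have i5 := vert_ineq1 hy.aθ hy.aβ1 hy.aγ1 hy.d5
  have i6 := vert_ineq1 hy.aθ hy.aβ2 hy.aγ2 hy.d6
  have ga := g.pi.trans g.a
  have gb := g.pi.trans g.b
  unfold Qv at ga gb
  refine ⟨i5.1, i6.1, by linarith, by linarith⟩

lemma crit_fun {V0 : ℝ} (hV : 0 < V0) : ∃ δ > 0, ∀ s, π - δ < s → s ≤ π →
    Lob ((π - s) / 2) + Lob (s / 2) < V0 := by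
  have hc : Continuous (fun s => Lob ((π - s) / 2) + Lob (s / 2)) := by
    have := Lob_cont
    fun_prop
  have h0 : Lob (π / 2) = 0 := by
    have := Lob_pi_sub (π / 2)
    rw [show π - π / 2 = π / 2 by ring] at this
    linarith
  have h1 : (fun s => Lob ((π - s) / 2) + Lob (s / 2)) π < V0 := by
    simp only [sub_self, zero_div, Lob_zero, zero_add]
    rw [h0]; exact hV
  have h2 := hc.continuousAt.eventually_lt_const h1
  rw [Metric.eventually_nhds_iff] at h2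
  obtain ⟨δ, hδ, h3⟩ := h2
  refine ⟨δ, hδ, fun s hs1 hs2 => h3 ?_⟩
  rw [Real.dist_eq, abs_lt]
  constructor <;> linarith

/-- near the ideal end of the line the volume condition holds -/
theorem LnH.ideal_end (h : LnH a1 a2 b1 b2 φ y) {V0 : ℝ} (hV : 0 < V0) :
    ∃ z, z ≤ y ∧ LnH a1 a2 b1 b2 φ z ∧
      ∀ k, (∀ i, tvec φ z (be1 a1 a2) (be2 a1 a2 φ) (be1 b1 b2) (be2 b1 b2 φ) i ≤
        tvec φ z (be1 a1 a2) (be2 a1 a2 φ) (be1 b1 b2) (be2 b1 b2 φ) k) →
      Lob ((π - tvec φ z (be1 a1 a2) (be2 a1 a2 φ) (be1 b1 b2) (be2 b1 b2 φ) k) / 2) +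
        Lob (tvec φ z (be1 a1 a2) (be2 a1 a2 φ) (be1 b1 b2) (be2 b1 b2 φ) k / 2) < V0 := by
  set m : ℝ → ℝ := fun z => min (qk a1 b1 (kap a1 a2 b1 b2 z))
    (qk (hA a1 a2 φ) (hA b1 b2 φ) (kap a1 a2 b1 b2 z)) with hm
  have hkc := kap_cont a1 a2 b1 b2
  have hmc : Continuous m := by
    rw [hm]
    unfold qk
    fun_prop
  have hm0 : m 0 ≤ 0 := by
    have h1 := D5_kap a1 a2 b1 b2 0
    have h2 : Dv 0 (be1 a1 a2) (be1 b1 b2) ≤ 0 := by
      unfold Dv
      rw [cos_zero]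
      nlinarith [sq_nonneg (cos (be1 a1 a2) + cos (be1 b1 b2))]
    rw [h1] at h2
    have hL := lm_pos a1 a2
    have hM := lm_pos b1 b2
    have h3 : qk a1 b1 (kap a1 a2 b1 b2 0) ≤ 0 := by
      by_contra hh
      push Not at hh
      have : 0 < lm a1 a2 ^ 2 * lm b1 b2 ^ 2 * qk a1 b1 (kap a1 a2 b1 b2 0) := by positivity
      linarith
    exact (min_le_left _ _).trans h3
  have hmy : 0 < m y := lt_min h.q5 h.q6
  obtain ⟨s, hs, hsmax⟩ : ∃ s ∈ Icc 0 y ∩ m ⁻¹' Iic 0, ∀ z ∈ Icc 0 y ∩ m ⁻¹' Iic 0, z ≤ s := by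
    have hK : IsCompact (Icc 0 y ∩ m ⁻¹' Iic 0) :=
      isCompact_Icc.inter_right (isClosed_Iic.preimage hmc)
    exact hK.exists_isMaxOn ⟨0, ⟨le_rfl, h.ay.1.le⟩, hm0⟩ continuousOn_id
  have hsy : s < y := by
    apply lt_of_le_of_ne hs.1.2
    intro e
    have h3 : m s ≤ 0 := hs.2
    rw [e] at h3
    linarith
  have hpos : ∀ z, s < z → z ≤ y → 0 < m z := by
    intro z h1 h2
    by_contra hh
    push Not at hh
    have := hsmax z ⟨⟨hs.1.1.trans h1.le, h2⟩, hh⟩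
    linarith
  have hLH : ∀ z, s < z → z ≤ y → LnH a1 a2 b1 b2 φ z := by
    intro z h1 h2
    have h3 := hpos z h1 h2
    refine ⟨⟨h.aφ, ⟨hs.1.1.trans_lt h1, h2.trans_lt h.ay.2⟩, h3.trans_le (min_le_left _ _),
      h3.trans_le (min_le_right _ _)⟩, ?_, h.s0, h.s1⟩
    rcases eq_or_lt_of_le h2 with h4 | h4
    · rw [h4]; exact h.k1
    · exact h.k1.trans (kap_anti a1 a2 b1 b2 (hs.1.1.trans h1.le) h.ay.2.le h4)
  have hms : m s = 0 := by
    apply le_antisymm hs.2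
    have h1 : Tendsto m (𝓝[>] s) (𝓝 (m s)) := hmc.continuousAt.tendsto.mono_left nhdsWithin_le_nhds
    apply ge_of_tendsto h1
    filter_upwards [Ioc_mem_nhdsGT hsy] with z hz
    exact (hpos z hz.1 hz.2).le
  -- limits of the linear inequalities
  have lim_le : ∀ c d : ℝ, (∀ z, s < z → z ≤ y → c < z + d) → c ≤ s + d := by
    intro c d hz
    by_contra hh
    push Not at hh
    obtain ⟨z, hz1, hz2⟩ := exists_between (show s < min y (c - d) from lt_min hsy (by linarith))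
    have h1 := hz z hz1 (hz2.trans_le (min_le_left _ _)).le
    have h2 := hz2.trans_le (min_le_right _ _)
    linarith
  have lim_ge : ∀ c d : ℝ, (∀ z, s < z → z ≤ y → z + d < c) → s + d ≤ c := by
    intro c d hz
    have := hz y hsy le_rfl
    linarith
  have f5 := lim_le π (be1 a1 a2 + be1 b1 b2) (fun z h1 h2 => by
    have := (hLH z h1 h2).facts.1; linarith)
  have f6 := lim_le π (be2 a1 a2 φ + be2 b1 b2 φ) (fun z h1 h2 => by
    have := (hLH z h1 h2).facts.2.1; linarith)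
  have fa := lim_ge (2 * π) (φ + be1 b1 b2 + be2 a1 a2 φ) (fun z h1 h2 => by
    have := (hLH z h1 h2).facts.2.2.1; linarith)
  have fb := lim_ge (2 * π) (φ + be1 a1 a2 + be2 b1 b2 φ) (fun z h1 h2 => by
    have := (hLH z h1 h2).facts.2.2.2; linarith)
  have hy := h.hyp
  have hqL := hy.qL
  have i3 := (vert_ineq1 hy.aφ hy.aβ1 hy.aβ2 hy.d3).1
  have i4 := (vert_ineq1 hy.aφ hy.aγ1 hy.aγ2 hy.d4).1
  have hsπ : s < π := hsy.trans h.ay.2
  have hend : s + be1 a1 a2 + be1 b1 b2 = π ∨ s + be2 a1 a2 φ + be2 b1 b2 φ = π := by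
    rcases min_choice (qk a1 b1 (kap a1 a2 b1 b2 s))
      (qk (hA a1 a2 φ) (hA b1 b2 φ) (kap a1 a2 b1 b2 s)) with h1 | h1
    · left
      have h2 : qk a1 b1 (kap a1 a2 b1 b2 s) = 0 := by rw [← h1]; exact hms
      have h3 := D5_kap a1 a2 b1 b2 s
      rw [h2, mul_zero] at h3
      exact ideal_core (φ := φ) (β' := be2 a1 a2 φ) (γ' := be2 b1 b2 φ) hs.1.1 hsπ hy.aβ1 hy.aγ1 h3
        (by linarith) (by linarith) (by linarith) (by linarith) (by linarith) (by linarith)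
    · right
      have h2 : qk (hA a1 a2 φ) (hA b1 b2 φ) (kap a1 a2 b1 b2 s) = 0 := by rw [← h1]; exact hms
      have h3 := D6_kap a1 a2 b1 b2 φ s
      rw [h2, mul_zero] at h3
      exact ideal_core (φ := φ) (β' := be1 a1 a2) (γ' := be1 b1 b2) hs.1.1 hsπ hy.aβ2 hy.aγ2 h3
        (by linarith) (by linarith) (by linarith) (by linarith) (by linarith) (by linarith)
  obtain ⟨δ, hδ, hcrit⟩ := crit_fun hV
  obtain ⟨z, hz1, hz2⟩ := exists_between (show s < min y (s + δ) from lt_min hsy (by linarith))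
  have hzy : z ≤ y := (hz2.trans_le (min_le_left _ _)).le
  have hzδ : z < s + δ := hz2.trans_le (min_le_right _ _)
  have LZ' := hLH z hz1 hzy
  refine ⟨z, hzy, LZ', ?_⟩
  intro k hk
  apply hcrit
  · rcases hend with h1 | h1
    · refine lt_of_lt_of_le ?_ (hk 2)
      show π - δ < Tv z (be1 a1 a2) (be1 b1 b2)
      unfold Tv
      linarith
    · refine lt_of_lt_of_le ?_ (hk 3)
      show π - δ < Tv z (be2 a1 a2 φ) (be2 b1 b2 φ)
      unfold Tv
      linarith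
  · exact (LZ'.hyp.toReg.tvec k).2.le

end Run7.h27
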