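import Pool.Agent.Run7.h27.KL3
import Pool.Agent.Run7.h27.Main1

/-!
# Flipping the colours of a triangle
-/

set_option autoImplicit false

namespace Run7.h27

open Real Set Filter Topology

/-- replace the colours of the three edges which do not meet `v` by `r - 2` minus themselves -/
def flip (r : ℕ) (v : Fin 4) (c : Fin 4 → Fin 4 → ℕ) : Fin 4 → Fin 4 → ℕ :=
  fun i j => if i = v ∨ j = v then c i j else r - 2 - c i j

lemma AdmColoring.le {r : ℕ} {c : Fin 4 → Fin 4 → ℕ} (hr3 : 3 ≤ r) (h : AdmColoring r c)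
    {i j : Fin 4} (hij : i ≠ j) : c i j ≤ r - 2 := by
  have hN := h.num hr3
  obtain ⟨_, t0, t1, t2, t3, q0, q1, q2, ⟨a1, a2, a3, a4⟩, ⟨b1, b2, b3, b4⟩, ⟨c1, c2, c3, c4⟩,
    ⟨d1, d2, d3, d4⟩⟩ := hN
  have s10 := h.1 1 0
  have s20 := h.1 2 0
  have s30 := h.1 3 0
  have s21 := h.1 2 1
  have s31 := h.1 3 1
  have s32 := h.1 3 2
  fin_cases i <;> fin_cases j <;> first | exact absurd rfl hij | (simp only [Fin.zero_eta, Fin.mk_one, Fin.reduceFinMk]; omega)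

lemma AdmColoring.of {r : ℕ} {c : Fin 4 → Fin 4 → ℕ} (hs : ∀ i j, c i j = c j i)
    (h0 : AdmTriple r (c 0 1) (c 0 2) (c 0 3)) (h1 : AdmTriple r (c 0 1) (c 1 2) (c 1 3))
    (h2 : AdmTriple r (c 0 2) (c 1 2) (c 2 3)) (h3 : AdmTriple r (c 0 3) (c 1 3) (c 2 3)) :
    AdmColoring r c := by
  refine ⟨hs, ?_⟩
  unfold AdmTriple at *
  rw [Nat.even_iff] at *
  have s10 := hs 1 0
  have s20 := hs 2 0
  have s30 := hs 3 0
  have s21 := hs 2 1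
  have s31 := hs 3 1
  have s32 := hs 3 2
  intro i j k l
  rw [Nat.even_iff]
  fin_cases i <;> fin_cases j <;> fin_cases k <;> fin_cases l <;>
    simp only [Fin.zero_eta, Fin.mk_one, Fin.reduceFinMk, ne_eq, not_true_eq_false, 
      Fin.isValue, false_implies, not_false_eq_true, true_implies, Fin.reduceEq] <;>
    first | (intros; trivial) | omega | (intros; omega)

lemma AdmColoring.triples {r : ℕ} {c : Fin 4 → Fin 4 → ℕ} (h : AdmColoring r c) :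
    AdmTriple r (c 0 1) (c 0 2) (c 0 3) ∧ AdmTriple r (c 0 1) (c 1 2) (c 1 3) ∧
    AdmTriple r (c 0 2) (c 1 2) (c 2 3) ∧ AdmTriple r (c 0 3) (c 1 3) (c 2 3) := by
  obtain ⟨hs, h⟩ := h
  have a0 := h 0 1 2 3 (by decide) (by decide) (by decide) (by decide) (by decide) (by decide)
  have a1 := h 1 0 2 3 (by decide) (by decide) (by decide) (by decide) (by decide) (by decide)
  have a2 := h 2 0 1 3 (by decide) (by decide) (by decide) (by decide) (by decide) (by decide)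
  have a3 := h 3 0 1 2 (by decide) (by decide) (by decide) (by decide) (by decide) (by decide)
  rw [hs 1 0] at a1
  rw [hs 2 0, hs 2 1] at a2
  rw [hs 3 0, hs 3 1, hs 3 2] at a3
  exact ⟨a0, a1, a2, a3⟩

lemma flip_symm {r : ℕ} {c : Fin 4 → Fin 4 → ℕ} (hs : ∀ i j, c i j = c j i) (v i j : Fin 4) :
    flip r v c i j = flip r v c j i := by
  unfold flip
  rw [hs i j]
  by_cases h1 : i = v ∨ j = v
  · rw [if_pos h1, if_pos (or_comm.mp h1)]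
  · rw [if_neg h1, if_neg (fun h2 => h1 (or_comm.mp h2))]

lemma adm12 {r a b c a' b' : ℕ} (h : AdmTriple r a b c) (ha : a' + a + 2 = r) (hb : b' + b + 2 = r) :
    AdmTriple r a' b' c := by
  unfold AdmTriple at *
  rw [Nat.even_iff] at *
  refine ⟨?_, ?_, ?_, ?_, ?_⟩ <;> omega

lemma adm13 {r a b c a' c' : ℕ} (h : AdmTriple r a b c) (ha : a' + a + 2 = r) (hc : c' + c + 2 = r) :
    AdmTriple r a' b c' := by
  unfold AdmTriple at *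
  rw [Nat.even_iff] at *
  refine ⟨?_, ?_, ?_, ?_, ?_⟩ <;> omega

lemma adm23 {r a b c b' c' : ℕ} (h : AdmTriple r a b c) (hb : b' + b + 2 = r) (hc : c' + c + 2 = r) :
    AdmTriple r a b' c' := by
  unfold AdmTriple at *
  rw [Nat.even_iff] at *
  refine ⟨?_, ?_, ?_, ?_, ?_⟩ <;> omega

lemma flip0_rel {r : ℕ} {c : Fin 4 → Fin 4 → ℕ} (hr3 : 3 ≤ r) (h : AdmColoring r c) :
    flip r 0 c 1 2 + c 1 2 + 2 = r ∧
    flip r 0 c 1 3 + c 1 3 + 2 = r ∧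
    flip r 0 c 2 3 + c 2 3 + 2 = r := by
  have l12 := h.le hr3 (show (1 : Fin 4) ≠ 2 by decide)
  have l13 := h.le hr3 (show (1 : Fin 4) ≠ 3 by decide)
  have l23 := h.le hr3 (show (2 : Fin 4) ≠ 3 by decide)
  have f12 : flip r 0 c 1 2 = r - 2 - c 1 2 := rfl
  have f13 : flip r 0 c 1 3 = r - 2 - c 1 3 := rfl
  have f23 : flip r 0 c 2 3 = r - 2 - c 2 3 := rfl
  refine ⟨?_, ?_, ?_⟩
  · rw [f12]; omega
  · rw [f13]; omega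
  · rw [f23]; omega

lemma flip0_adm {r : ℕ} {c : Fin 4 → Fin 4 → ℕ} (hr3 : 3 ≤ r) (h : AdmColoring r c) :
    AdmColoring r (flip r 0 c) := by
  obtain ⟨a0, a1, a2, a3⟩ := h.triples
  obtain ⟨r12, r13, r23⟩ := flip0_rel hr3 h
  apply AdmColoring.of (flip_symm h.1 0)
  · exact a0
  · exact adm23 a1 r12 r13
  · exact adm23 a2 r12 r23
  · exact adm23 a3 r13 r23

lemma flip0_Kb {r : ℕ} {c : Fin 4 → Fin 4 → ℕ} (hr3 : 3 ≤ r) (h : AdmColoring r c) :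
    Kb r (TZ (flip r 0 c)) (QZ r (flip r 0 c)) = Kb r (TZ c) (QZ r c) := by
  have hN := h.num hr3
  have hN' := (flip0_adm hr3 h).num hr3
  obtain ⟨r12, r13, r23⟩ := flip0_rel hr3 h
  have f01 : flip r 0 c 0 1 = c 0 1 := rfl
  have f02 : flip r 0 c 0 2 = c 0 2 := rfl
  have f03 : flip r 0 c 0 3 = c 0 3 := rfl
  obtain ⟨_, t0, t1, t2, t3, q0, q1, q2, _, _, _, _⟩ := hN
  obtain ⟨_, t0', t1', t2', t3', q0', q1', q2', _, _, _, _⟩ := hN'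
  rw [f01, f02, f03] at t0'
  rw [f01] at t1'
  rw [f02] at t2'
  rw [f03] at t3'
  rw [f02, f03] at q0'
  rw [f01, f03] at q1'
  rw [f01, f02] at q2'
  set c' := flip r 0 c
  replace t0 := congrArg (fun n : ℕ => (n : ℤ)) t0
  replace t1 := congrArg (fun n : ℕ => (n : ℤ)) t1
  replace t2 := congrArg (fun n : ℕ => (n : ℤ)) t2
  replace t3 := congrArg (fun n : ℕ => (n : ℤ)) t3
  replace q0 := congrArg (fun n : ℕ => (n : ℤ)) q0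
  replace q1 := congrArg (fun n : ℕ => (n : ℤ)) q1
  replace q2 := congrArg (fun n : ℕ => (n : ℤ)) q2
  replace t0' := congrArg (fun n : ℕ => (n : ℤ)) t0'
  replace t1' := congrArg (fun n : ℕ => (n : ℤ)) t1'
  replace t2' := congrArg (fun n : ℕ => (n : ℤ)) t2'
  replace t3' := congrArg (fun n : ℕ => (n : ℤ)) t3'
  replace q0' := congrArg (fun n : ℕ => (n : ℤ)) q0'
  replace q1' := congrArg (fun n : ℕ => (n : ℤ)) q1'
  replace q2' := congrArg (fun n : ℕ => (n : ℤ)) q2'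
  replace r12 := congrArg (fun n : ℕ => (n : ℤ)) r12
  replace r13 := congrArg (fun n : ℕ => (n : ℤ)) r13
  replace r23 := congrArg (fun n : ℕ => (n : ℤ)) r23
  push_cast at t0 t1 t2 t3 q0 q1 q2 t0' t1' t2' t3' q0' q1' q2' r12 r13 r23
  obtain ⟨σ, hσ⟩ : ∃ σ : Equiv.Perm (Fin 4), σ = Equiv.refl (Fin 4) := ⟨_, rfl⟩
  have s0 : σ 0 = 0 := by rw [hσ]; decide
  have s1 : σ 1 = 1 := by rw [hσ]; decide
  have s2 : σ 2 = 2 := by rw [hσ]; decide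
  have s3 : σ 3 = 3 := by rw [hσ]; decide
  have eT : TZ c' = fun i => ((r:ℤ) - 2 + TZ c 0) - (QZ r c ∘ σ) i := by
    funext i
    fin_cases i
    · show ((triSum c' 0 : ℕ) : ℤ) = ((r:ℤ) - 2 + ((triSum c 0 : ℕ) : ℤ)) - QZ r c (σ 0)
      rw [s0]
      show ((triSum c' 0 : ℕ) : ℤ) = ((r:ℤ) - 2 + ((triSum c 0 : ℕ) : ℤ)) - ((r:ℤ) - 2)
      linarith
    · show ((triSum c' 1 : ℕ) : ℤ) = ((r:ℤ) - 2 + ((triSum c 0 : ℕ) : ℤ)) - QZ r c (σ 1)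
      rw [s1]
      show ((triSum c' 1 : ℕ) : ℤ) = ((r:ℤ) - 2 + ((triSum c 0 : ℕ) : ℤ)) - ((quadSum c 0 : ℕ) : ℤ)
      linarith
    · show ((triSum c' 2 : ℕ) : ℤ) = ((r:ℤ) - 2 + ((triSum c 0 : ℕ) : ℤ)) - QZ r c (σ 2)
      rw [s2]
      show ((triSum c' 2 : ℕ) : ℤ) = ((r:ℤ) - 2 + ((triSum c 0 : ℕ) : ℤ)) - ((quadSum c 1 : ℕ) : ℤ)
      linarith
    · show ((triSum c' 3 : ℕ) : ℤ) = ((r:ℤ) - 2 + ((triSum c 0 : ℕ) : ℤ)) - QZ r c (σ 3)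
      rw [s3]
      show ((triSum c' 3 : ℕ) : ℤ) = ((r:ℤ) - 2 + ((triSum c 0 : ℕ) : ℤ)) - ((quadSum c 2 : ℕ) : ℤ)
      linarith
  have eQ : QZ r c' = fun i => ((r:ℤ) - 2 + TZ c 0) - (TZ c ∘ σ) i := by
    funext i
    fin_cases i
    · show ((r:ℤ) - 2) = ((r:ℤ) - 2 + ((triSum c 0 : ℕ) : ℤ)) - TZ c (σ 0)
      rw [s0]
      show ((r:ℤ) - 2) = ((r:ℤ) - 2 + ((triSum c 0 : ℕ) : ℤ)) - ((triSum c 0 : ℕ) : ℤ)
      linarith
    · show ((quadSum c' 0 : ℕ) : ℤ) = ((r:ℤ) - 2 + ((triSum c 0 : ℕ) : ℤ)) - TZ c (σ 1)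
      rw [s1]
      show ((quadSum c' 0 : ℕ) : ℤ) = ((r:ℤ) - 2 + ((triSum c 0 : ℕ) : ℤ)) - ((triSum c 1 : ℕ) : ℤ)
      linarith
    · show ((quadSum c' 1 : ℕ) : ℤ) = ((r:ℤ) - 2 + ((triSum c 0 : ℕ) : ℤ)) - TZ c (σ 2)
      rw [s2]
      show ((quadSum c' 1 : ℕ) : ℤ) = ((r:ℤ) - 2 + ((triSum c 0 : ℕ) : ℤ)) - ((triSum c 2 : ℕ) : ℤ)
      linarith
    · show ((quadSum c' 2 : ℕ) : ℤ) = ((r:ℤ) - 2 + ((triSum c 0 : ℕ) : ℤ)) - TZ c (σ 3)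
      rw [s3]
      show ((quadSum c' 2 : ℕ) : ℤ) = ((r:ℤ) - 2 + ((triSum c 0 : ℕ) : ℤ)) - ((triSum c 3 : ℕ) : ℤ)
      linarith
  rw [eT, eQ, Kb_refl, Kb_perm]

lemma flip1_rel {r : ℕ} {c : Fin 4 → Fin 4 → ℕ} (hr3 : 3 ≤ r) (h : AdmColoring r c) :
    flip r 1 c 0 2 + c 0 2 + 2 = r ∧
    flip r 1 c 0 3 + c 0 3 + 2 = r ∧
    flip r 1 c 2 3 + c 2 3 + 2 = r := by
  have l02 := h.le hr3 (show (0 : Fin 4) ≠ 2 by decide)
  have l03 := h.le hr3 (show (0 : Fin 4) ≠ 3 by decide)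
  have l23 := h.le hr3 (show (2 : Fin 4) ≠ 3 by decide)
  have f02 : flip r 1 c 0 2 = r - 2 - c 0 2 := rfl
  have f03 : flip r 1 c 0 3 = r - 2 - c 0 3 := rfl
  have f23 : flip r 1 c 2 3 = r - 2 - c 2 3 := rfl
  refine ⟨?_, ?_, ?_⟩
  · rw [f02]; omega
  · rw [f03]; omega
  · rw [f23]; omega

lemma flip1_adm {r : ℕ} {c : Fin 4 → Fin 4 → ℕ} (hr3 : 3 ≤ r) (h : AdmColoring r c) :
    AdmColoring r (flip r 1 c) := by
  obtain ⟨a0, a1, a2, a3⟩ := h.triples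
  obtain ⟨r02, r03, r23⟩ := flip1_rel hr3 h
  apply AdmColoring.of (flip_symm h.1 1)
  · exact adm23 a0 r02 r03
  · exact a1
  · exact adm13 a2 r02 r23
  · exact adm13 a3 r03 r23

lemma flip1_Kb {r : ℕ} {c : Fin 4 → Fin 4 → ℕ} (hr3 : 3 ≤ r) (h : AdmColoring r c) :
    Kb r (TZ (flip r 1 c)) (QZ r (flip r 1 c)) = Kb r (TZ c) (QZ r c) := by
  have hN := h.num hr3
  have hN' := (flip1_adm hr3 h).num hr3
  obtain ⟨r02, r03, r23⟩ := flip1_rel hr3 h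
  have f01 : flip r 1 c 0 1 = c 0 1 := rfl
  have f12 : flip r 1 c 1 2 = c 1 2 := rfl
  have f13 : flip r 1 c 1 3 = c 1 3 := rfl
  obtain ⟨_, t0, t1, t2, t3, q0, q1, q2, _, _, _, _⟩ := hN
  obtain ⟨_, t0', t1', t2', t3', q0', q1', q2', _, _, _, _⟩ := hN'
  rw [f01] at t0'
  rw [f01, f12, f13] at t1'
  rw [f12] at t2'
  rw [f13] at t3'
  rw [f12, f13] at q0'
  rw [f01, f12] at q1'
  rw [f01, f13] at q2'
  set c' := flip r 1 c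
  replace t0 := congrArg (fun n : ℕ => (n : ℤ)) t0
  replace t1 := congrArg (fun n : ℕ => (n : ℤ)) t1
  replace t2 := congrArg (fun n : ℕ => (n : ℤ)) t2
  replace t3 := congrArg (fun n : ℕ => (n : ℤ)) t3
  replace q0 := congrArg (fun n : ℕ => (n : ℤ)) q0
  replace q1 := congrArg (fun n : ℕ => (n : ℤ)) q1
  replace q2 := congrArg (fun n : ℕ => (n : ℤ)) q2
  replace t0' := congrArg (fun n : ℕ => (n : ℤ)) t0'
  replace t1' := congrArg (fun n : ℕ => (n : ℤ)) t1'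
  replace t2' := congrArg (fun n : ℕ => (n : ℤ)) t2'
  replace t3' := congrArg (fun n : ℕ => (n : ℤ)) t3'
  replace q0' := congrArg (fun n : ℕ => (n : ℤ)) q0'
  replace q1' := congrArg (fun n : ℕ => (n : ℤ)) q1'
  replace q2' := congrArg (fun n : ℕ => (n : ℤ)) q2'
  replace r02 := congrArg (fun n : ℕ => (n : ℤ)) r02
  replace r03 := congrArg (fun n : ℕ => (n : ℤ)) r03
  replace r23 := congrArg (fun n : ℕ => (n : ℤ)) r23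
  push_cast at t0 t1 t2 t3 q0 q1 q2 t0' t1' t2' t3' q0' q1' q2' r02 r03 r23
  obtain ⟨σ, hσ⟩ : ∃ σ : Equiv.Perm (Fin 4), σ = (Equiv.swap (0 : Fin 4) 1).trans (Equiv.swap 2 3) := ⟨_, rfl⟩
  have s0 : σ 0 = 1 := by rw [hσ]; decide
  have s1 : σ 1 = 0 := by rw [hσ]; decide
  have s2 : σ 2 = 3 := by rw [hσ]; decide
  have s3 : σ 3 = 2 := by rw [hσ]; decide
  have eT : TZ c' = fun i => ((r:ℤ) - 2 + TZ c 1) - (QZ r c ∘ σ) i := by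
    funext i
    fin_cases i
    · show ((triSum c' 0 : ℕ) : ℤ) = ((r:ℤ) - 2 + ((triSum c 1 : ℕ) : ℤ)) - QZ r c (σ 0)
      rw [s0]
      show ((triSum c' 0 : ℕ) : ℤ) = ((r:ℤ) - 2 + ((triSum c 1 : ℕ) : ℤ)) - ((quadSum c 0 : ℕ) : ℤ)
      linarith
    · show ((triSum c' 1 : ℕ) : ℤ) = ((r:ℤ) - 2 + ((triSum c 1 : ℕ) : ℤ)) - QZ r c (σ 1)
      rw [s1]
      show ((triSum c' 1 : ℕ) : ℤ) = ((r:ℤ) - 2 + ((triSum c 1 : ℕ) : ℤ)) - ((r:ℤ) - 2)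
      linarith
    · show ((triSum c' 2 : ℕ) : ℤ) = ((r:ℤ) - 2 + ((triSum c 1 : ℕ) : ℤ)) - QZ r c (σ 2)
      rw [s2]
      show ((triSum c' 2 : ℕ) : ℤ) = ((r:ℤ) - 2 + ((triSum c 1 : ℕ) : ℤ)) - ((quadSum c 2 : ℕ) : ℤ)
      linarith
    · show ((triSum c' 3 : ℕ) : ℤ) = ((r:ℤ) - 2 + ((triSum c 1 : ℕ) : ℤ)) - QZ r c (σ 3)
      rw [s3]
      show ((triSum c' 3 : ℕ) : ℤ) = ((r:ℤ) - 2 + ((triSum c 1 : ℕ) : ℤ)) - ((quadSum c 1 : ℕ) : ℤ)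
      linarith
  have eQ : QZ r c' = fun i => ((r:ℤ) - 2 + TZ c 1) - (TZ c ∘ σ) i := by
    funext i
    fin_cases i
    · show ((r:ℤ) - 2) = ((r:ℤ) - 2 + ((triSum c 1 : ℕ) : ℤ)) - TZ c (σ 0)
      rw [s0]
      show ((r:ℤ) - 2) = ((r:ℤ) - 2 + ((triSum c 1 : ℕ) : ℤ)) - ((triSum c 1 : ℕ) : ℤ)
      linarith
    · show ((quadSum c' 0 : ℕ) : ℤ) = ((r:ℤ) - 2 + ((triSum c 1 : ℕ) : ℤ)) - TZ c (σ 1)
      rw [s1]
      show ((quadSum c' 0 : ℕ) : ℤ) = ((r:ℤ) - 2 + ((triSum c 1 : ℕ) : ℤ)) - ((triSum c 0 : ℕ) : ℤ)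
      linarith
    · show ((quadSum c' 1 : ℕ) : ℤ) = ((r:ℤ) - 2 + ((triSum c 1 : ℕ) : ℤ)) - TZ c (σ 2)
      rw [s2]
      show ((quadSum c' 1 : ℕ) : ℤ) = ((r:ℤ) - 2 + ((triSum c 1 : ℕ) : ℤ)) - ((triSum c 3 : ℕ) : ℤ)
      linarith
    · show ((quadSum c' 2 : ℕ) : ℤ) = ((r:ℤ) - 2 + ((triSum c 1 : ℕ) : ℤ)) - TZ c (σ 3)
      rw [s3]
      show ((quadSum c' 2 : ℕ) : ℤ) = ((r:ℤ) - 2 + ((triSum c 1 : ℕ) : ℤ)) - ((triSum c 2 : ℕ) : ℤ)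
      linarith
  rw [eT, eQ, Kb_refl, Kb_perm]

lemma flip2_rel {r : ℕ} {c : Fin 4 → Fin 4 → ℕ} (hr3 : 3 ≤ r) (h : AdmColoring r c) :
    flip r 2 c 0 1 + c 0 1 + 2 = r ∧
    flip r 2 c 0 3 + c 0 3 + 2 = r ∧
    flip r 2 c 1 3 + c 1 3 + 2 = r := by
  have l01 := h.le hr3 (show (0 : Fin 4) ≠ 1 by decide)
  have l03 := h.le hr3 (show (0 : Fin 4) ≠ 3 by decide)
  have l13 := h.le hr3 (show (1 : Fin 4) ≠ 3 by decide)
  have f01 : flip r 2 c 0 1 = r - 2 - c 0 1 := rfl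
  have f03 : flip r 2 c 0 3 = r - 2 - c 0 3 := rfl
  have f13 : flip r 2 c 1 3 = r - 2 - c 1 3 := rfl
  refine ⟨?_, ?_, ?_⟩
  · rw [f01]; omega
  · rw [f03]; omega
  · rw [f13]; omega

lemma flip2_adm {r : ℕ} {c : Fin 4 → Fin 4 → ℕ} (hr3 : 3 ≤ r) (h : AdmColoring r c) :
    AdmColoring r (flip r 2 c) := by
  obtain ⟨a0, a1, a2, a3⟩ := h.triples
  obtain ⟨r01, r03, r13⟩ := flip2_rel hr3 h
  apply AdmColoring.of (flip_symm h.1 2)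
  · exact adm13 a0 r01 r03
  · exact adm13 a1 r01 r13
  · exact a2
  · exact adm12 a3 r03 r13

lemma flip2_Kb {r : ℕ} {c : Fin 4 → Fin 4 → ℕ} (hr3 : 3 ≤ r) (h : AdmColoring r c) :
    Kb r (TZ (flip r 2 c)) (QZ r (flip r 2 c)) = Kb r (TZ c) (QZ r c) := by
  have hN := h.num hr3
  have hN' := (flip2_adm hr3 h).num hr3
  obtain ⟨r01, r03, r13⟩ := flip2_rel hr3 h
  have f02 : flip r 2 c 0 2 = c 0 2 := rfl
  have f12 : flip r 2 c 1 2 = c 1 2 := rfl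
  have f23 : flip r 2 c 2 3 = c 2 3 := rfl
  obtain ⟨_, t0, t1, t2, t3, q0, q1, q2, _, _, _, _⟩ := hN
  obtain ⟨_, t0', t1', t2', t3', q0', q1', q2', _, _, _, _⟩ := hN'
  rw [f02] at t0'
  rw [f12] at t1'
  rw [f02, f12, f23] at t2'
  rw [f23] at t3'
  rw [f02, f12] at q0'
  rw [f12, f23] at q1'
  rw [f02, f23] at q2'
  set c' := flip r 2 c
  replace t0 := congrArg (fun n : ℕ => (n : ℤ)) t0
  replace t1 := congrArg (fun n : ℕ => (n : ℤ)) t1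
  replace t2 := congrArg (fun n : ℕ => (n : ℤ)) t2
  replace t3 := congrArg (fun n : ℕ => (n : ℤ)) t3
  replace q0 := congrArg (fun n : ℕ => (n : ℤ)) q0
  replace q1 := congrArg (fun n : ℕ => (n : ℤ)) q1
  replace q2 := congrArg (fun n : ℕ => (n : ℤ)) q2
  replace t0' := congrArg (fun n : ℕ => (n : ℤ)) t0'
  replace t1' := congrArg (fun n : ℕ => (n : ℤ)) t1'
  replace t2' := congrArg (fun n : ℕ => (n : ℤ)) t2'
  replace t3' := congrArg (fun n : ℕ => (n : ℤ)) t3'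
  replace q0' := congrArg (fun n : ℕ => (n : ℤ)) q0'
  replace q1' := congrArg (fun n : ℕ => (n : ℤ)) q1'
  replace q2' := congrArg (fun n : ℕ => (n : ℤ)) q2'
  replace r01 := congrArg (fun n : ℕ => (n : ℤ)) r01
  replace r03 := congrArg (fun n : ℕ => (n : ℤ)) r03
  replace r13 := congrArg (fun n : ℕ => (n : ℤ)) r13
  push_cast at t0 t1 t2 t3 q0 q1 q2 t0' t1' t2' t3' q0' q1' q2' r01 r03 r13
  obtain ⟨σ, hσ⟩ : ∃ σ : Equiv.Perm (Fin 4), σ = (Equiv.swap (0 : Fin 4) 2).trans (Equiv.swap 1 3) := ⟨_, rfl⟩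
  have s0 : σ 0 = 2 := by rw [hσ]; decide
  have s1 : σ 1 = 3 := by rw [hσ]; decide
  have s2 : σ 2 = 0 := by rw [hσ]; decide
  have s3 : σ 3 = 1 := by rw [hσ]; decide
  have eT : TZ c' = fun i => ((r:ℤ) - 2 + TZ c 2) - (QZ r c ∘ σ) i := by
    funext i
    fin_cases i
    · show ((triSum c' 0 : ℕ) : ℤ) = ((r:ℤ) - 2 + ((triSum c 2 : ℕ) : ℤ)) - QZ r c (σ 0)
      rw [s0]
      show ((triSum c' 0 : ℕ) : ℤ) = ((r:ℤ) - 2 + ((triSum c 2 : ℕ) : ℤ)) - ((quadSum c 1 : ℕ) : ℤ)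
      linarith
    · show ((triSum c' 1 : ℕ) : ℤ) = ((r:ℤ) - 2 + ((triSum c 2 : ℕ) : ℤ)) - QZ r c (σ 1)
      rw [s1]
      show ((triSum c' 1 : ℕ) : ℤ) = ((r:ℤ) - 2 + ((triSum c 2 : ℕ) : ℤ)) - ((quadSum c 2 : ℕ) : ℤ)
      linarith
    · show ((triSum c' 2 : ℕ) : ℤ) = ((r:ℤ) - 2 + ((triSum c 2 : ℕ) : ℤ)) - QZ r c (σ 2)
      rw [s2]
      show ((triSum c' 2 : ℕ) : ℤ) = ((r:ℤ) - 2 + ((triSum c 2 : ℕ) : ℤ)) - ((r:ℤ) - 2)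
      linarith
    · show ((triSum c' 3 : ℕ) : ℤ) = ((r:ℤ) - 2 + ((triSum c 2 : ℕ) : ℤ)) - QZ r c (σ 3)
      rw [s3]
      show ((triSum c' 3 : ℕ) : ℤ) = ((r:ℤ) - 2 + ((triSum c 2 : ℕ) : ℤ)) - ((quadSum c 0 : ℕ) : ℤ)
      linarith
  have eQ : QZ r c' = fun i => ((r:ℤ) - 2 + TZ c 2) - (TZ c ∘ σ) i := by
    funext i
    fin_cases i
    · show ((r:ℤ) - 2) = ((r:ℤ) - 2 + ((triSum c 2 : ℕ) : ℤ)) - TZ c (σ 0)
      rw [s0]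
      show ((r:ℤ) - 2) = ((r:ℤ) - 2 + ((triSum c 2 : ℕ) : ℤ)) - ((triSum c 2 : ℕ) : ℤ)
      linarith
    · show ((quadSum c' 0 : ℕ) : ℤ) = ((r:ℤ) - 2 + ((triSum c 2 : ℕ) : ℤ)) - TZ c (σ 1)
      rw [s1]
      show ((quadSum c' 0 : ℕ) : ℤ) = ((r:ℤ) - 2 + ((triSum c 2 : ℕ) : ℤ)) - ((triSum c 3 : ℕ) : ℤ)
      linarith
    · show ((quadSum c' 1 : ℕ) : ℤ) = ((r:ℤ) - 2 + ((triSum c 2 : ℕ) : ℤ)) - TZ c (σ 2)
      rw [s2]
      show ((quadSum c' 1 : ℕ) : ℤ) = ((r:ℤ) - 2 + ((triSum c 2 : ℕ) : ℤ)) - ((triSum c 0 : ℕ) : ℤ)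
      linarith
    · show ((quadSum c' 2 : ℕ) : ℤ) = ((r:ℤ) - 2 + ((triSum c 2 : ℕ) : ℤ)) - TZ c (σ 3)
      rw [s3]
      show ((quadSum c' 2 : ℕ) : ℤ) = ((r:ℤ) - 2 + ((triSum c 2 : ℕ) : ℤ)) - ((triSum c 1 : ℕ) : ℤ)
      linarith
  rw [eT, eQ, Kb_refl, Kb_perm]

end Run7.h27
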