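import Pool.Agent.Run7.h27.Wedge

/-!
# The integral over a slice of the tetrahedron, in the coordinate `u`
-/

set_option autoImplicit false

namespace Run7.h27

open Real MeasureTheory Filter Topology Set

/-- the conditions on a slice -/
structure SliceC (A B t : ℝ) : Prop where
  ht : 0 < t
  P : 0 < B + A * cosh t
  P' : 0 < A + B * cosh t
  Q : 0 < A ^ 2 + B ^ 2 + 2 * A * B * cosh t - sinh t ^ 2

lemma SliceC.symm {A B t : ℝ} (h : SliceC A B t) : SliceC B A t :=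
  ⟨h.ht, h.P', h.P, by have := h.Q; nlinarith⟩

/-- the corner of the slice -/
noncomputable def ust (A B t : ℝ) : ℝ := sinh t / sqrt (A ^ 2 + B ^ 2 + 2 * A * B * cosh t)

/-- length of the vertical section -/
noncomputable def gg (A B t u : ℝ) : ℝ := t - arsinh (A * u) - arsinh (B * u)

lemma SliceC.D_pos {A B t : ℝ} (h : SliceC A B t) : 0 < A ^ 2 + B ^ 2 + 2 * A * B * cosh t := by
  have := h.Q; nlinarith [sq_nonneg (sinh t)]

lemma SliceC.ust_pos {A B t : ℝ} (h : SliceC A B t) : 0 < ust A B t :=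
  div_pos (sinh_pos_iff.mpr h.ht) (sqrt_pos.mpr h.D_pos)

lemma SliceC.ust_sq {A B t : ℝ} (h : SliceC A B t) :
    ust A B t ^ 2 = sinh t ^ 2 / (A ^ 2 + B ^ 2 + 2 * A * B * cosh t) := by
  unfold ust; rw [div_pow, sq_sqrt h.D_pos.le]

lemma SliceC.ust_lt {A B t : ℝ} (h : SliceC A B t) : ust A B t < 1 := by
  have h1 : ust A B t ^ 2 < 1 := by
    rw [h.ust_sq, div_lt_one h.D_pos]
    linarith [h.Q]
  nlinarith [h.ust_pos]

lemma SliceC.one_sub {A B t : ℝ} (h : SliceC A B t) :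
    1 - ust A B t ^ 2 = (A ^ 2 + B ^ 2 + 2 * A * B * cosh t - sinh t ^ 2) /
      (A ^ 2 + B ^ 2 + 2 * A * B * cosh t) := by
  rw [h.ust_sq]
  have := h.D_pos.ne'
  rw [eq_div_iff this, sub_mul, one_mul, div_mul_cancel₀ _ this]

lemma SliceC.sqrtA {A B t : ℝ} (h : SliceC A B t) :
    sqrt (1 + (A * ust A B t) ^ 2) = (B + A * cosh t) / sqrt (A ^ 2 + B ^ 2 + 2 * A * B * cosh t) := by
  have h1 : 1 + (A * ust A B t) ^ 2 =
      ((B + A * cosh t) / sqrt (A ^ 2 + B ^ 2 + 2 * A * B * cosh t)) ^ 2 := by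
    rw [mul_pow, h.ust_sq, div_pow, sq_sqrt h.D_pos.le]
    have h1 := h.D_pos.ne'
    have h2 := cosh_sq t
    rw [eq_div_iff h1, add_mul, one_mul, ← mul_div_assoc, div_mul_cancel₀ _ h1]
    linear_combination (-A ^ 2) * h2
  rw [h1, sqrt_sq (div_nonneg h.P.le (sqrt_nonneg _))]

lemma ust_symm (A B t : ℝ) : ust B A t = ust A B t := by
  unfold ust
  congr 2
  ring

lemma SliceC.sqrtB {A B t : ℝ} (h : SliceC A B t) :
    sqrt (1 + (B * ust A B t) ^ 2) = (A + B * cosh t) / sqrt (A ^ 2 + B ^ 2 + 2 * A * B * cosh t) := by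
  have := h.symm.sqrtA
  rw [ust_symm] at this
  rw [this]
  congr 2
  ring

lemma SliceC.gg_ust {A B t : ℝ} (h : SliceC A B t) : gg A B t (ust A B t) = 0 := by
  have h1 : arsinh (A * ust A B t) + arsinh (B * ust A B t) = t := by
    apply sinh_injective
    rw [sinh_add, sinh_arsinh, sinh_arsinh, cosh_arsinh, cosh_arsinh, h.sqrtA, h.sqrtB]
    unfold ust
    have h0 := h.D_pos
    have h2 : sqrt (A ^ 2 + B ^ 2 + 2 * A * B * cosh t) ≠ 0 := (sqrt_pos.mpr h0).ne'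
    have h3 := sq_sqrt h0.le
    generalize sqrt (A ^ 2 + B ^ 2 + 2 * A * B * cosh t) = R at *
    field_simp
    rw [h3]
    ring
  unfold gg
  linarith

lemma SliceC.sum_pos {A B t : ℝ} (h : SliceC A B t) : 0 < A + B := by
  have h1 := h.P
  have h2 := h.P'
  have hC : 1 ≤ cosh t := one_le_cosh t
  have : 0 < (A + B) * (1 + cosh t) := by linarith
  by_contra hh
  push Not at hh
  nlinarith

lemma gg_deriv (A B t u : ℝ) :
    HasDerivAt (gg A B t) (-(A / sqrt (1 + (A * u) ^ 2)) - B / sqrt (1 + (B * u) ^ 2)) u := by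
  unfold gg
  have h1 := ((hasDerivAt_id u).const_mul A).arsinh
  have h2 := ((hasDerivAt_id u).const_mul B).arsinh
  have := ((hasDerivAt_const u t).sub h1).sub h2
  refine this.congr_deriv ?_
  simp only [id, smul_eq_mul, mul_one]
  rw [inv_mul_eq_div, inv_mul_eq_div]
  ring

lemma div_sqrt_mono {x y u : ℝ} (h : x < y) : x / sqrt (1 + (x * u) ^ 2) < y / sqrt (1 + (y * u) ^ 2) := by
  have hx : 0 < sqrt (1 + (x * u) ^ 2) := sqrt_pos.mpr (by positivity)
  have hy : 0 < sqrt (1 + (y * u) ^ 2) := sqrt_pos.mpr (by positivity)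
  rw [div_lt_div_iff₀ hx hy]
  rcases lt_trichotomy x 0 with h0 | h0 | h0
  · rcases le_or_gt 0 y with h1 | h1
    · nlinarith [mul_pos (neg_pos.mpr h0) hy, mul_nonneg h1 hx.le]
    · have key : (-y * sqrt (1 + (x * u) ^ 2)) ^ 2 < (-x * sqrt (1 + (y * u) ^ 2)) ^ 2 := by
        have s1 := sq_sqrt (show 0 ≤ 1 + (x * u) ^ 2 by positivity)
        have s2 := sq_sqrt (show 0 ≤ 1 + (y * u) ^ 2 by positivity)
        rw [mul_pow (-y), mul_pow (-x), s1, s2]
        nlinarith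
      have := abs_lt_of_sq_lt_sq' key (by nlinarith [mul_pos (neg_pos.mpr h0) hy])
      linarith [this.2]
  · subst h0
    simp
    exact h
  · have key : (x * sqrt (1 + (y * u) ^ 2)) ^ 2 < (y * sqrt (1 + (x * u) ^ 2)) ^ 2 := by
      have s1 := sq_sqrt (show 0 ≤ 1 + (x * u) ^ 2 by positivity)
      have s2 := sq_sqrt (show 0 ≤ 1 + (y * u) ^ 2 by positivity)
      rw [mul_pow x (sqrt _), mul_pow y (sqrt _), s1, s2]
      nlinarith
    have := abs_lt_of_sq_lt_sq' key (by nlinarith [mul_pos (h0.trans h) hx])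
    linarith [this.2]

lemma gg_anti {A B t : ℝ} (h : 0 < A + B) : StrictAnti (gg A B t) := by
  apply strictAnti_of_hasDerivAt_neg (fun u => gg_deriv A B t u)
  intro u
  have h1 := div_sqrt_mono (x := -B) (y := A) (u := u) (by linarith)
  have e : (-B * u) ^ 2 = (B * u) ^ 2 := by ring
  rw [e, neg_div] at h1
  linarith

lemma SliceC.gg_nonneg {A B t u : ℝ} (h : SliceC A B t) (hu : u ≤ ust A B t) : 0 ≤ gg A B t u := by
  rw [← h.gg_ust]
  exact (gg_anti h.sum_pos).antitone hu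

lemma SliceC.gg_neg {A B t u : ℝ} (h : SliceC A B t) (hu : ust A B t < u) : gg A B t u < 0 := by
  rw [← h.gg_ust]
  exact (gg_anti h.sum_pos) hu

/-- logarithmic part of the antiderivative -/
noncomputable def lg (A u : ℝ) : ℝ :=
  Real.log ((sqrt (1 + (A * u) ^ 2) + sqrt (1 + A ^ 2) * u) / sqrt (1 - u ^ 2))

lemma lg_deriv {A u : ℝ} (h0 : 0 ≤ u) (h1 : u < 1) :
    HasDerivAt (lg A) (sqrt (1 + A ^ 2) / (sqrt (1 + (A * u) ^ 2) * (1 - u ^ 2))) u := by
  have hu : 0 < 1 - u ^ 2 := by nlinarith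
  have hs : 0 < sqrt (1 - u ^ 2) := sqrt_pos.mpr hu
  have hR0 : 0 < 1 + (A * u) ^ 2 := by positivity
  have hR : 0 < sqrt (1 + (A * u) ^ 2) := sqrt_pos.mpr hR0
  have hK : 0 < sqrt (1 + A ^ 2) := sqrt_pos.mpr (by positivity)
  have hsum : 0 < sqrt (1 + (A * u) ^ 2) + sqrt (1 + A ^ 2) * u := by positivity
  have e : lg A =ᶠ[𝓝 u] fun u => Real.log (sqrt (1 + (A * u) ^ 2) + sqrt (1 + A ^ 2) * u) -
      Real.log (sqrt (1 - u ^ 2)) := by
    have c1 : ∀ᶠ v in 𝓝 u, 0 < sqrt (1 - v ^ 2) :=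
      (by fun_prop : Continuous (fun v : ℝ => sqrt (1 - v ^ 2))).continuousAt.eventually
        (lt_mem_nhds hs)
    have c2 : ∀ᶠ v in 𝓝 u, 0 < sqrt (1 + (A * v) ^ 2) + sqrt (1 + A ^ 2) * v :=
      (by fun_prop : Continuous (fun v : ℝ => sqrt (1 + (A * v) ^ 2) + sqrt (1 + A ^ 2) * v)).continuousAt.eventually
        (lt_mem_nhds hsum)
    filter_upwards [c1, c2] with v h1 h2
    unfold lg
    rw [Real.log_div h2.ne' h1.ne']
  have d1 : HasDerivAt (fun v : ℝ => sqrt (1 + (A * v) ^ 2)) ((2 * (A * u) * A) / (2 * sqrt (1 + (A * u) ^ 2))) u := by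
    have := (((hasDerivAt_id u).const_mul A).pow 2).const_add 1
    refine (this.sqrt hR0.ne').congr_deriv ?_
    simp
  have d2 : HasDerivAt (fun v : ℝ => sqrt (1 - v ^ 2)) ((-(2 * u)) / (2 * sqrt (1 - u ^ 2))) u := by
    have := ((hasDerivAt_id u).pow 2).const_sub 1
    refine (this.sqrt hu.ne').congr_deriv ?_
    simp
  have d3 := (d1.add ((hasDerivAt_id u).const_mul (sqrt (1 + A ^ 2)))).log hsum.ne'
  have d4 := d2.log hs.ne'
  refine ((d3.sub d4).congr_of_eventuallyEq e).congr_deriv ?_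
  simp only [Pi.add_apply, id, mul_one]
  have q1 := sq_sqrt hR0.le
  have q2 := sq_sqrt hu.le
  have q3 := sq_sqrt (show 0 ≤ 1 + A ^ 2 by positivity)
  rw [div_div, show 2 * sqrt (1 - u ^ 2) * sqrt (1 - u ^ 2) = 2 * (1 - u ^ 2) by
    rw [mul_assoc, ← sq, q2]]
  clear e d1 d2 d3 d4 q2 hs
  generalize sqrt (1 + (A * u) ^ 2) = R at *
  generalize sqrt (1 + A ^ 2) = K at *
  have hu' := hu.ne'
  have hR' := hR.ne'
  have hsum' := hsum.ne'
  field_simp
  have e1 : (A * u) ^ 2 = u ^ 2 * A ^ 2 := by ring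
  rw [e1] at q1
  linear_combination u * q1 - u * q3

end Run7.h27
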