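import Pool.Agent.Run7.h27.Geo1

/-!
# The integral over a slice of the tetrahedron
-/

set_option autoImplicit false

namespace Run7.h27

open Real MeasureTheory Filter Topology Set

/-- antiderivative -/
noncomputable def Phi (A B t u : ℝ) : ℝ :=
  1 / 2 * (gg A B t u / (1 - u ^ 2) + A / sqrt (1 + A ^ 2) * lg A u + B / sqrt (1 + B ^ 2) * lg B u)

lemma Phi_deriv (A B t : ℝ) {u : ℝ} (h0 : 0 ≤ u) (h1 : u < 1) :
    HasDerivAt (Phi A B t) (u / (1 - u ^ 2) ^ 2 * gg A B t u) u := by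
  have hu : 0 < 1 - u ^ 2 := by nlinarith
  have d0 : HasDerivAt (fun v : ℝ => 1 - v ^ 2) (-(2 * u)) u := by
    refine (((hasDerivAt_id u).pow 2).const_sub 1).congr_deriv ?_
    simp
  have d1 := (gg_deriv A B t u).div d0 hu.ne'
  have d2 := (lg_deriv (A := A) h0 h1).const_mul (A / sqrt (1 + A ^ 2))
  have d3 := (lg_deriv (A := B) h0 h1).const_mul (B / sqrt (1 + B ^ 2))
  have d4 := ((d1.add d2).add d3).const_mul (1 / 2)
  refine d4.congr_deriv ?_
  have hK : 0 < sqrt (1 + A ^ 2) := sqrt_pos.mpr (by positivity)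
  have hK' : 0 < sqrt (1 + B ^ 2) := sqrt_pos.mpr (by positivity)
  have hR : 0 < sqrt (1 + (A * u) ^ 2) := sqrt_pos.mpr (by positivity)
  have hR' : 0 < sqrt (1 + (B * u) ^ 2) := sqrt_pos.mpr (by positivity)
  clear d0 d1 d2 d3 d4
  generalize sqrt (1 + (A * u) ^ 2) = R at *
  generalize sqrt (1 + (B * u) ^ 2) = R' at *
  generalize sqrt (1 + A ^ 2) = K at *
  generalize sqrt (1 + B ^ 2) = K' at *
  generalize gg A B t u = g at *
  generalize 1 - u ^ 2 = w at *
  have := hu.ne'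
  have := hK.ne'
  have := hK'.ne'
  have := hR.ne'
  have := hR'.ne'
  field_simp
  ring

/-- value of the slice integral -/
noncomputable def v0 (A B t : ℝ) : ℝ :=
  1 / 2 * (A / sqrt (1 + A ^ 2) * Lg A B t (A ^ 2 + B ^ 2 + 2 * A * B * cosh t - sinh t ^ 2) +
    B / sqrt (1 + B ^ 2) * Lg B A t (A ^ 2 + B ^ 2 + 2 * A * B * cosh t - sinh t ^ 2) - t)

lemma SliceC.lg_ust {A B t : ℝ} (h : SliceC A B t) :
    lg A (ust A B t) = Lg A B t (A ^ 2 + B ^ 2 + 2 * A * B * cosh t - sinh t ^ 2) := by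
  unfold lg Lg
  rw [h.sqrtA, h.one_sub, sqrt_div h.Q.le]
  unfold ust
  have h0 : sqrt (A ^ 2 + B ^ 2 + 2 * A * B * cosh t) ≠ 0 := (sqrt_pos.mpr h.D_pos).ne'
  have h1 : sqrt (A ^ 2 + B ^ 2 + 2 * A * B * cosh t - sinh t ^ 2) ≠ 0 := (sqrt_pos.mpr h.Q).ne'
  congr 1
  generalize sqrt (A ^ 2 + B ^ 2 + 2 * A * B * cosh t) = D at *
  generalize sqrt (A ^ 2 + B ^ 2 + 2 * A * B * cosh t - sinh t ^ 2) = D' at *
  field_simp

lemma SliceC.lg_ust' {A B t : ℝ} (h : SliceC A B t) :
    lg B (ust A B t) = Lg B A t (A ^ 2 + B ^ 2 + 2 * A * B * cosh t - sinh t ^ 2) := by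
  have := h.symm.lg_ust
  rw [ust_symm] at this
  rw [this]
  congr 1
  ring

lemma SliceC.Phi_ust {A B t : ℝ} (h : SliceC A B t) : Phi A B t (ust A B t) - Phi A B t 0 = v0 A B t := by
  unfold Phi v0
  rw [h.gg_ust, h.lg_ust, h.lg_ust']
  have e : ∀ A : ℝ, lg A 0 = 0 := by intro A; unfold lg; simp
  rw [e, e]
  unfold gg
  simp
  ring

lemma SliceC.lint_u {A B t : ℝ} (h : SliceC A B t) :
    ∫⁻ u in Ioi (0:ℝ), ENNReal.ofReal (u / (1 - u ^ 2) ^ 2) * ENNReal.ofReal (gg A B t u) =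
      ENNReal.ofReal (v0 A B t) := by
  have hu0 := h.ust_pos
  have hu1 := h.ust_lt
  have hcont : ContinuousOn (fun u : ℝ => u / (1 - u ^ 2) ^ 2 * gg A B t u) (Icc 0 (ust A B t)) := by
    have c1 : Continuous (gg A B t) := by
      unfold gg
      exact (continuous_const.sub (continuous_arsinh.comp (continuous_const.mul continuous_id))).sub
        (continuous_arsinh.comp (continuous_const.mul continuous_id))
    apply ContinuousOn.mul _ c1.continuousOn
    apply ContinuousOn.div (by fun_prop) (by fun_prop)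
    intro x hx
    have : 0 < 1 - x ^ 2 := by nlinarith [hx.1, hx.2]
    positivity
  have hint : IntervalIntegrable (fun u : ℝ => u / (1 - u ^ 2) ^ 2 * gg A B t u) volume 0 (ust A B t) :=
    ContinuousOn.intervalIntegrable (by rwa [uIcc_of_le hu0.le])
  have h1 : ∫ u in (0:ℝ)..(ust A B t), u / (1 - u ^ 2) ^ 2 * gg A B t u = v0 A B t := by
    rw [intervalIntegral.integral_eq_sub_of_hasDerivAt (f := Phi A B t) _ hint, h.Phi_ust]
    intro u hu
    rw [uIcc_of_le hu0.le] at hu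
    exact Phi_deriv A B t hu.1 (hu.2.trans_lt hu1)
  rw [← h1, intervalIntegral.integral_of_le hu0.le, ofReal_integral_eq_lintegral_ofReal]
  · rw [← Ioc_union_Ioi_eq_Ioi hu0.le, lintegral_union measurableSet_Ioi
      (by rw [Set.disjoint_left]; intro x hx hx'; exact absurd hx.2 (not_le.mpr hx'))]
    have e2 : ∫⁻ u in Ioi (ust A B t), ENNReal.ofReal (u / (1 - u ^ 2) ^ 2) *
        ENNReal.ofReal (gg A B t u) = 0 := by
      rw [setLIntegral_congr_fun measurableSet_Ioi (g := fun _ => 0)]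
      · simp
      · intro u hu
        simp only
        rw [ENNReal.ofReal_of_nonpos (h.gg_neg hu).le, mul_zero]
    rw [e2, add_zero]
    apply setLIntegral_congr_fun measurableSet_Ioc
    intro u hu
    simp only
    rw [ENNReal.ofReal_mul (div_nonneg hu.1.le (by positivity))]
  · rwa [intervalIntegrable_iff_integrableOn_Ioc_of_le hu0.le] at hint
  · rw [Filter.EventuallyLE, ae_restrict_iff' measurableSet_Ioc]
    refine Filter.Eventually.of_forall (fun u hu => ?_)
    exact mul_nonneg (div_nonneg hu.1.le (by positivity)) (h.gg_nonneg hu.2)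

/-- the region in the coordinates `(s, u)` -/
def Reg2 (A B t : ℝ) : Set (ℝ × ℝ) := {p | A * p.2 ≤ sinh p.1 ∧ B * p.2 ≤ sinh (t - p.1)}

lemma Reg2_meas (A B t : ℝ) : MeasurableSet (Reg2 A B t) := by
  have h1 : IsClosed {p : ℝ × ℝ | A * p.2 ≤ sinh p.1} :=
    isClosed_le (by fun_prop) (by fun_prop)
  have h2 : IsClosed {p : ℝ × ℝ | B * p.2 ≤ sinh (t - p.1)} :=
    isClosed_le (by fun_prop) (by fun_prop)
  exact (h1.inter h2).measurableSet

lemma vol_section (A B t u : ℝ) :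
    volume {s : ℝ | A * u ≤ sinh s ∧ B * u ≤ sinh (t - s)} = ENNReal.ofReal (gg A B t u) := by
  have : {s : ℝ | A * u ≤ sinh s ∧ B * u ≤ sinh (t - s)} = Icc (arsinh (A * u)) (t - arsinh (B * u)) := by
    ext s
    simp only [mem_setOf_eq, mem_Icc]
    have e1 : A * u ≤ sinh s ↔ arsinh (A * u) ≤ s := by
      rw [← arsinh_le_arsinh, arsinh_sinh]
    have e2 : B * u ≤ sinh (t - s) ↔ arsinh (B * u) ≤ t - s := by
      rw [← arsinh_le_arsinh, arsinh_sinh]
    rw [e1, e2]
    constructor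
    · rintro ⟨h1, h2⟩; exact ⟨h1, by linarith⟩
    · rintro ⟨h1, h2⟩; exact ⟨h1, by linarith⟩
  rw [this, Real.volume_Icc]
  congr 1
  unfold gg
  ring

lemma SliceC.lint_su {A B t : ℝ} (h : SliceC A B t) :
    ∫⁻ s : ℝ, ∫⁻ u in Ioi (0:ℝ), (Reg2 A B t).indicator
      (fun p => ENNReal.ofReal (p.2 / (1 - p.2 ^ 2) ^ 2)) (s, u) = ENNReal.ofReal (v0 A B t) := by
  rw [lintegral_lintegral_swap]
  · rw [← h.lint_u]
    apply lintegral_congr
    intro u
    have e : (fun s : ℝ => (Reg2 A B t).indicator (fun p => ENNReal.ofReal (p.2 / (1 - p.2 ^ 2) ^ 2)) (s, u)) =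
        {s : ℝ | A * u ≤ sinh s ∧ B * u ≤ sinh (t - s)}.indicator
          (fun _ => ENNReal.ofReal (u / (1 - u ^ 2) ^ 2)) := by
      funext s
      by_cases hs : A * u ≤ sinh s ∧ B * u ≤ sinh (t - s)
      · rw [indicator_of_mem (show (s, u) ∈ Reg2 A B t from hs), indicator_of_mem (by exact hs)]
      · rw [indicator_of_notMem (show (s, u) ∉ Reg2 A B t from hs), indicator_of_notMem (by exact hs)]
    rw [e, lintegral_indicator, lintegral_const, Measure.restrict_apply_univ, vol_section]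
    have h1 : IsClosed {s : ℝ | A * u ≤ sinh s} := isClosed_le (by fun_prop) (by fun_prop)
    have h2 : IsClosed {s : ℝ | B * u ≤ sinh (t - s)} := isClosed_le (by fun_prop) (by fun_prop)
    exact (h1.inter h2).measurableSet
  · apply Measurable.aemeasurable
    have : Measurable ((Reg2 A B t).indicator (fun p : ℝ × ℝ => ENNReal.ofReal (p.2 / (1 - p.2 ^ 2) ^ 2))) := by
      apply Measurable.indicator _ (Reg2_meas A B t)
      fun_prop
    exact this

end Run7.h27
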