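import Pool.Agent.Run7.h27.Geo2

/-!
# The integral over a slice of the tetrahedron, cylindrical coordinates
-/

set_option autoImplicit false

namespace Run7.h27

open Real MeasureTheory Filter Topology Set

/-- the slice in the coordinates `(z, ρ)` -/
def Reg1 (A B t : ℝ) : Set (ℝ × ℝ) := {p | A * p.2 ≤ p.1 ∧ B * p.2 + p.1 * cosh t ≤ sinh t}

lemma SliceC.key {A B t : ℝ} (h : SliceC A B t) : |A * sinh t| < B + A * cosh t := by
  apply abs_lt_of_sq_lt_sq _ h.P.le
  have := cosh_sq t
  nlinarith [h.Q, sq_nonneg (sinh t), sinh_pos_iff.mpr h.ht, mul_pos (sinh_pos_iff.mpr h.ht) (sinh_pos_iff.mpr h.ht)]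

lemma SliceC.z_bound {A B t z ρ : ℝ} (h : SliceC A B t) (hρ : 0 < ρ) (h1 : A * ρ ≤ z)
    (h2 : B * ρ + z * cosh t ≤ sinh t) : z ∈ Ioo (-1) 1 := by
  have hk := abs_lt.mp h.key
  have hP := h.P
  have hS : sinh t < cosh t := sinh_lt_cosh t
  have hC := one_le_cosh t
  have hS0 := sinh_pos_iff.mpr h.ht
  have hsum := h.sum_pos
  constructor
  · rcases le_or_gt 0 A with hA | hA
    · have : 0 ≤ A * ρ := by positivity
      linarith
    · have e1 : A * (sinh t - z * cosh t) ≤ A * (B * ρ) :=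
        mul_le_mul_of_nonpos_left (by linarith) hA.le
      have hB : 0 < B := by linarith
      have e2 : B * (A * ρ) ≤ B * z := mul_le_mul_of_nonneg_left h1 hB.le
      have e3 : A * sinh t ≤ z * (B + A * cosh t) := by nlinarith
      by_contra hz
      push Not at hz
      have e4 : z * (B + A * cosh t) ≤ -1 * (B + A * cosh t) := mul_le_mul_of_nonneg_right hz hP.le
      linarith [hk.1]
  · rcases le_or_gt 0 B with hB | hB
    · have : 0 ≤ B * ρ := by positivity
      by_contra hz
      push Not at hz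
      have : cosh t ≤ z * cosh t := le_mul_of_one_le_left (by linarith) hz
      linarith
    · have hA : 0 < A := by linarith
      have e1 : B * z ≤ B * (A * ρ) := mul_le_mul_of_nonpos_left h1 hB.le
      have e2 : A * (B * ρ + z * cosh t) ≤ A * sinh t := mul_le_mul_of_nonneg_left h2 hA.le
      have e3 : z * (B + A * cosh t) ≤ A * sinh t := by nlinarith
      by_contra hz
      push Not at hz
      have e4 : 1 * (B + A * cosh t) ≤ z * (B + A * cosh t) := mul_le_mul_of_nonneg_right hz hP.le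
      linarith [hk.2]

lemma hasDerivAt_tanh' (s : ℝ) : HasDerivAt tanh (1 / cosh s ^ 2) s := by
  have h1 := (hasDerivAt_sinh s).div (hasDerivAt_cosh s) (cosh_pos s).ne'
  have e : tanh = fun s => sinh s / cosh s := by funext s; exact tanh_eq_sinh_div_cosh s
  rw [e]
  refine h1.congr_deriv ?_
  have := cosh_sq s
  congr 1
  linarith

lemma lint_tanh (H : ℝ → ENNReal) :
    ∫⁻ z in Ioo (-1:ℝ) 1, H z = ∫⁻ s : ℝ, ENNReal.ofReal (1 / cosh s ^ 2) * H (tanh s) := by
  have h1 := lintegral_image_eq_lintegral_abs_deriv_mul (s := univ) (f := tanh)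
    (f' := fun s => 1 / cosh s ^ 2) MeasurableSet.univ (fun s _ => (hasDerivAt_tanh' s).hasDerivWithinAt)
    tanh_injective.injOn H
  rw [tanh_bijOn.image_eq] at h1
  rw [h1, Measure.restrict_univ]
  apply lintegral_congr
  intro s
  rw [abs_of_nonneg (by positivity)]

lemma lint_scale {c : ℝ} (hc : 0 < c) (G : ℝ → ENNReal) :
    ∫⁻ ρ in Ioi (0:ℝ), G ρ = ENNReal.ofReal c * ∫⁻ u in Ioi (0:ℝ), G (c * u) := by
  have h1 := lintegral_image_eq_lintegral_abs_deriv_mul (s := Ioi (0:ℝ)) (f := fun u => c * u)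
    (f' := fun _ => c) measurableSet_Ioi
    (fun s _ => by simpa using ((hasDerivAt_id s).const_mul c).hasDerivWithinAt)
    (fun x _ y _ hxy => mul_left_cancel₀ hc.ne' hxy) G
  have e : (fun u => c * u) '' Ioi (0:ℝ) = Ioi 0 := by
    ext x
    simp only [mem_image, mem_Ioi]
    constructor
    · rintro ⟨u, hu, rfl⟩; positivity
    · intro hx; exact ⟨x / c, by positivity, by field_simp⟩
  rw [e] at h1
  rw [h1, abs_of_pos hc, lintegral_const_mul' _ _ ENNReal.ofReal_ne_top]

theorem SliceC.lint_zr {A B t : ℝ} (h : SliceC A B t) :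
    ∫⁻ z : ℝ, ∫⁻ ρ in Ioi (0:ℝ), (Reg1 A B t).indicator
      (fun p => ENNReal.ofReal (p.2 / (1 - p.2 ^ 2 - p.1 ^ 2) ^ 2)) (z, ρ) = ENNReal.ofReal (v0 A B t) := by
  rw [← h.lint_su]
  set H : ℝ → ENNReal := fun z => ∫⁻ ρ in Ioi (0:ℝ), (Reg1 A B t).indicator
      (fun p => ENNReal.ofReal (p.2 / (1 - p.2 ^ 2 - p.1 ^ 2) ^ 2)) (z, ρ) with hH
  have e1 : ∫⁻ z : ℝ, H z = ∫⁻ z in Ioo (-1:ℝ) 1, H z := by
    rw [← lintegral_indicator measurableSet_Ioo]
    apply lintegral_congr
    intro z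
    by_cases hz : z ∈ Ioo (-1:ℝ) 1
    · rw [indicator_of_mem hz]
    · rw [indicator_of_notMem hz, hH]
      simp only
      rw [setLIntegral_congr_fun measurableSet_Ioi (g := fun _ => 0)]
      · simp
      · intro ρ hρ
        simp only
        rw [indicator_of_notMem]
        rintro ⟨h1, h2⟩
        exact hz (h.z_bound hρ h1 h2)
  rw [e1, lint_tanh]
  apply lintegral_congr
  intro s
  have hC := cosh_pos s
  rw [hH]
  simp only
  rw [lint_scale (c := 1 / cosh s) (by positivity), ← mul_assoc, ← ENNReal.ofReal_mul (by positivity),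
    ← lintegral_const_mul' _ _ ENNReal.ofReal_ne_top]
  apply lintegral_congr
  intro u
  have iff1 : (tanh s, 1 / cosh s * u) ∈ Reg1 A B t ↔ (s, u) ∈ Reg2 A B t := by
    unfold Reg1 Reg2
    simp only [mem_setOf_eq]
    rw [sinh_sub, tanh_eq_sinh_div_cosh]
    have e2 : A * (1 / cosh s * u) = A * u / cosh s := by field_simp
    have e3 : B * (1 / cosh s * u) + sinh s / cosh s * cosh t = (B * u + sinh s * cosh t) / cosh s := by
      field_simp
    rw [e2, e3, div_le_div_iff_of_pos_right hC, div_le_iff₀ hC]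
    constructor
    · rintro ⟨h1, h2⟩; exact ⟨h1, by linarith⟩
    · rintro ⟨h1, h2⟩; exact ⟨h1, by linarith⟩
  by_cases hm : (s, u) ∈ Reg2 A B t
  · rw [indicator_of_mem hm, indicator_of_mem (iff1.mpr hm), ← ENNReal.ofReal_mul (by positivity)]
    congr 1
    simp only
    rw [tanh_eq_sinh_div_cosh]
    have hs := cosh_sq s
    have e4 : 1 - (1 / cosh s * u) ^ 2 - (sinh s / cosh s) ^ 2 = (1 - u ^ 2) / cosh s ^ 2 := by
      field_simp
      linear_combination hs
    rw [e4]
    rcases eq_or_ne (1 - u ^ 2) 0 with h0 | h0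
    · rw [h0]; simp
    · field_simp
  · rw [indicator_of_notMem hm, indicator_of_notMem (fun hh => hm (iff1.mp hh)), mul_zero]

end Run7.h27
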