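import Pool.Agent.Run7.h27.Geo3

/-!
# The hyperbolic volume of the tetrahedron in standard position
-/

set_option autoImplicit false

namespace Run7.h27

open Real MeasureTheory Filter Topology Set

/-- hyperbolic volume of a subset of the unit ball in the projective (Klein) model -/
noncomputable def hvol (S : Set (Fin 3 → ℝ)) : ℝ := ∫ x in S, 1 / (1 - ∑ i, x i ^ 2) ^ 2

/-- the tetrahedron in standard position -/
def P0 (a1 a2 b1 b2 t φ : ℝ) : Set (Fin 3 → ℝ) :=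
  {p | 0 ≤ p 1 ∧ 0 ≤ p 0 * sin φ - p 1 * cos φ ∧ a1 * p 0 + a2 * p 1 ≤ p 2 ∧
    b1 * p 0 + b2 * p 1 + p 2 * cosh t ≤ sinh t}

/-- integration over `ℝ³` -/
lemma lint_three (F : ℝ → ℝ → ℝ → ENNReal) (hF : Measurable (fun p : ℝ × ℝ × ℝ => F p.1 p.2.1 p.2.2)) :
    ∫⁻ p : Fin 3 → ℝ, F (p 0) (p 1) (p 2) = ∫⁻ z : ℝ, ∫⁻ q : ℝ × ℝ, F q.1 q.2 z := by
  have h1 := volume_preserving_piFinSuccAbove (fun _ : Fin 3 => ℝ) 2
  have h2 := volume_preserving_finTwoArrow ℝ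
  set G : ℝ × (Fin 2 → ℝ) → ENNReal := fun x => F (x.2 0) (x.2 1) x.1 with hG
  have hGm : Measurable G := by
    have : Measurable (fun x : ℝ × (Fin 2 → ℝ) => ((x.2 0, x.2 1, x.1) : ℝ × ℝ × ℝ)) := by fun_prop
    exact hF.comp this
  have e1 : ∫⁻ p : Fin 3 → ℝ, F (p 0) (p 1) (p 2) =
      ∫⁻ p : Fin 3 → ℝ, G (MeasurableEquiv.piFinSuccAbove (fun _ : Fin 3 => ℝ) 2 p) := rfl
  rw [e1, h1.lintegral_comp_emb (MeasurableEquiv.measurableEmbedding _), Measure.volume_eq_prod]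
  rw [lintegral_prod _ hGm.aemeasurable]
  apply lintegral_congr
  intro z
  exact h2.lintegral_comp_emb (MeasurableEquiv.measurableEmbedding _)
    (fun q : ℝ × ℝ => F q.1 q.2 z)

/-- polar coordinates -/
lemma lint_polar (F : ℝ → ℝ → ENNReal) (hF : Measurable (fun p : ℝ × ℝ => F p.1 p.2)) :
    ∫⁻ q : ℝ × ℝ, F q.1 q.2 = ∫⁻ ψ in Ioo (-π) π, ∫⁻ ρ in Ioi (0:ℝ),
      ENNReal.ofReal ρ * F (ρ * cos ψ) (ρ * sin ψ) := by
  rw [← lintegral_comp_polarCoord_symm (fun q : ℝ × ℝ => F q.1 q.2)]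
  have ht : polarCoord.target = Ioi (0:ℝ) ×ˢ Ioo (-π) π := rfl
  rw [ht, Measure.volume_eq_prod, ← Measure.prod_restrict, lintegral_prod_symm]
  · rfl
  · apply Measurable.aemeasurable
    apply Measurable.mul (by fun_prop)
    exact hF.comp continuous_polarCoord_symm.measurable

/-- cylindrical coordinates, with the angle outermost -/
lemma lint_cyl (F : ℝ → ℝ → ℝ → ENNReal) (hF : Measurable (fun p : ℝ × ℝ × ℝ => F p.1 p.2.1 p.2.2)) :
    ∫⁻ p : Fin 3 → ℝ, F (p 0) (p 1) (p 2) = ∫⁻ ψ in Ioo (-π) π, ∫⁻ z : ℝ, ∫⁻ ρ in Ioi (0:ℝ),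
      ENNReal.ofReal ρ * F (ρ * cos ψ) (ρ * sin ψ) z := by
  rw [lint_three F hF]
  have e1 : ∀ z : ℝ, ∫⁻ q : ℝ × ℝ, F q.1 q.2 z = ∫⁻ ψ in Ioo (-π) π, ∫⁻ ρ in Ioi (0:ℝ),
      ENNReal.ofReal ρ * F (ρ * cos ψ) (ρ * sin ψ) z := by
    intro z
    apply lint_polar (fun x y => F x y z)
    have : Measurable (fun x : ℝ × ℝ => ((x.1, x.2, z) : ℝ × ℝ × ℝ)) := by fun_prop
    exact hF.comp this
  rw [lintegral_congr e1, lintegral_lintegral_swap]
  apply Measurable.aemeasurable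
  have hm : Measurable (fun x : (ℝ × ℝ) × ℝ => ENNReal.ofReal x.2 *
      F (x.2 * cos x.1.2) (x.2 * sin x.1.2) x.1.1) := by
    apply Measurable.mul (by fun_prop)
    have : Measurable (fun x : (ℝ × ℝ) × ℝ => ((x.2 * cos x.1.2, x.2 * sin x.1.2, x.1.1) : ℝ × ℝ × ℝ)) := by
      fun_prop
    exact hF.comp this
  exact hm.lintegral_prod_right'

lemma v0_eq (a1 a2 b1 b2 t ψ : ℝ) : v0 (hA a1 a2 ψ) (hA b1 b2 ψ) t = vv a1 a2 b1 b2 t ψ := rfl

lemma Slice.C {a1 a2 b1 b2 t ψ : ℝ} (h : Slice a1 a2 b1 b2 t ψ) (ht : 0 < t) :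
    SliceC (hA a1 a2 ψ) (hA b1 b2 ψ) t := ⟨ht, h.P, h.P', h.Q⟩

lemma SliceC.v0_nonneg {A B t : ℝ} (h : SliceC A B t) : 0 ≤ v0 A B t := by
  have hu0 := h.ust_pos
  have hu1 := h.ust_lt
  have hint : IntervalIntegrable (fun u : ℝ => u / (1 - u ^ 2) ^ 2 * gg A B t u) volume 0 (ust A B t) := by
    apply ContinuousOn.intervalIntegrable
    rw [uIcc_of_le hu0.le]
    have c1 : Continuous (gg A B t) := by
      unfold gg
      exact (continuous_const.sub (continuous_arsinh.comp (continuous_const.mul continuous_id))).sub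
        (continuous_arsinh.comp (continuous_const.mul continuous_id))
    apply ContinuousOn.mul _ c1.continuousOn
    apply ContinuousOn.div (by fun_prop) (by fun_prop)
    intro x hx
    have : 0 < 1 - x ^ 2 := by nlinarith [hx.1, hx.2]
    positivity
  have h1 : ∫ u in (0:ℝ)..(ust A B t), u / (1 - u ^ 2) ^ 2 * gg A B t u = v0 A B t := by
    rw [intervalIntegral.integral_eq_sub_of_hasDerivAt (f := Phi A B t) _ hint, h.Phi_ust]
    intro u hu
    rw [uIcc_of_le hu0.le] at hu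
    exact Phi_deriv A B t hu.1 (hu.2.trans_lt hu1)
  rw [← h1]
  apply intervalIntegral.integral_nonneg hu0.le
  intro u hu
  exact mul_nonneg (div_nonneg hu.1 (by positivity)) (h.gg_nonneg hu.2)

/-- the wedge condition in polar coordinates -/
lemma wedge_iff {φ ψ ρ : ℝ} (hφ : Ang φ) (hρ : 0 < ρ) (hψ : ψ ∈ Ioo (-π) π) :
    (0 ≤ ρ * sin ψ ∧ 0 ≤ ρ * cos ψ * sin φ - ρ * sin ψ * cos φ) ↔ ψ ∈ Icc 0 φ := by
  have e : ρ * cos ψ * sin φ - ρ * sin ψ * cos φ = ρ * sin (φ - ψ) := by rw [sin_sub]; ring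
  rw [e, mul_nonneg_iff_of_pos_left hρ, mul_nonneg_iff_of_pos_left hρ]
  constructor
  · rintro ⟨h1, h2⟩
    have h3 : 0 ≤ ψ := by
      by_contra hh
      push Not at hh
      have := sin_neg_of_neg_of_neg_pi_lt hh hψ.1
      linarith
    refine ⟨h3, ?_⟩
    by_contra hh
    push Not at hh
    have := sin_neg_of_neg_of_neg_pi_lt (x := φ - ψ) (by linarith) (by linarith [hφ.1, hψ.2])
    linarith
  · rintro ⟨h1, h2⟩
    exact ⟨sin_nonneg_of_nonneg_of_le_pi h1 hψ.2.le,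
      sin_nonneg_of_nonneg_of_le_pi (by linarith) (by linarith [hφ.2])⟩

lemma P0_meas (a1 a2 b1 b2 t φ : ℝ) : MeasurableSet (P0 a1 a2 b1 b2 t φ) := by
  have h1 : IsClosed {p : Fin 3 → ℝ | 0 ≤ p 1} := isClosed_le (by fun_prop) (by fun_prop)
  have h2 : IsClosed {p : Fin 3 → ℝ | 0 ≤ p 0 * sin φ - p 1 * cos φ} := isClosed_le (by fun_prop) (by fun_prop)
  have h3 : IsClosed {p : Fin 3 → ℝ | a1 * p 0 + a2 * p 1 ≤ p 2} := isClosed_le (by fun_prop) (by fun_prop)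
  have h4 : IsClosed {p : Fin 3 → ℝ | b1 * p 0 + b2 * p 1 + p 2 * cosh t ≤ sinh t} :=
    isClosed_le (by fun_prop) (by fun_prop)
  exact (h1.inter (h2.inter (h3.inter h4))).measurableSet

theorem lint_P0 {a1 a2 b1 b2 t φ : ℝ} (h : Std a1 a2 b1 b2 t φ) :
    ∫⁻ p in P0 a1 a2 b1 b2 t φ, ENNReal.ofReal (1 / (1 - ∑ i, p i ^ 2) ^ 2) =
      ENNReal.ofReal (∫ ψ in (0:ℝ)..φ, vv a1 a2 b1 b2 t ψ) := by
  set S : Set (ℝ × ℝ × ℝ) := {p | 0 ≤ p.2.1 ∧ 0 ≤ p.1 * sin φ - p.2.1 * cos φ ∧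
    a1 * p.1 + a2 * p.2.1 ≤ p.2.2 ∧ b1 * p.1 + b2 * p.2.1 + p.2.2 * cosh t ≤ sinh t} with hS
  have hSm : MeasurableSet S := by
    have h1 : IsClosed {p : ℝ × ℝ × ℝ | 0 ≤ p.2.1} := isClosed_le (by fun_prop) (by fun_prop)
    have h2 : IsClosed {p : ℝ × ℝ × ℝ | 0 ≤ p.1 * sin φ - p.2.1 * cos φ} :=
      isClosed_le (by fun_prop) (by fun_prop)
    have h3 : IsClosed {p : ℝ × ℝ × ℝ | a1 * p.1 + a2 * p.2.1 ≤ p.2.2} :=
      isClosed_le (by fun_prop) (by fun_prop)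
    have h4 : IsClosed {p : ℝ × ℝ × ℝ | b1 * p.1 + b2 * p.2.1 + p.2.2 * cosh t ≤ sinh t} :=
      isClosed_le (by fun_prop) (by fun_prop)
    exact (h1.inter (h2.inter (h3.inter h4))).measurableSet
  set F : ℝ → ℝ → ℝ → ENNReal := fun x y z =>
    S.indicator (fun p => ENNReal.ofReal (1 / (1 - p.1 ^ 2 - p.2.1 ^ 2 - p.2.2 ^ 2) ^ 2)) (x, y, z) with hF
  have hFm : Measurable (fun p : ℝ × ℝ × ℝ => F p.1 p.2.1 p.2.2) := by
    have : Measurable (S.indicator (fun p => ENNReal.ofReal (1 / (1 - p.1 ^ 2 - p.2.1 ^ 2 - p.2.2 ^ 2) ^ 2))) := by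
      apply Measurable.indicator _ hSm
      fun_prop
    exact this
  have e1 : ∫⁻ p in P0 a1 a2 b1 b2 t φ, ENNReal.ofReal (1 / (1 - ∑ i, p i ^ 2) ^ 2) =
      ∫⁻ p : Fin 3 → ℝ, F (p 0) (p 1) (p 2) := by
    rw [← lintegral_indicator (P0_meas _ _ _ _ _ _)]
    apply lintegral_congr
    intro p
    by_cases hp : p ∈ P0 a1 a2 b1 b2 t φ
    · have hp' : (p 0, p 1, p 2) ∈ S := hp
      rw [indicator_of_mem hp, hF]
      simp only
      rw [indicator_of_mem hp', Fin.sum_univ_three]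
      simp only
      congr 3
      ring
    · have hp' : (p 0, p 1, p 2) ∉ S := hp
      rw [indicator_of_notMem hp, hF]
      simp only
      rw [indicator_of_notMem hp']
  rw [e1, lint_cyl F hFm]
  have e2 : ∀ ψ ∈ Ioo (-π) π, ∫⁻ z : ℝ, ∫⁻ ρ in Ioi (0:ℝ), ENNReal.ofReal ρ * F (ρ * cos ψ) (ρ * sin ψ) z =
      (Icc 0 φ).indicator (fun ψ => ENNReal.ofReal (vv a1 a2 b1 b2 t ψ)) ψ := by
    intro ψ hψ
    by_cases hm : ψ ∈ Icc 0 φ
    · rw [indicator_of_mem hm, ← v0_eq, ← ((h.slice hm.1 hm.2).C h.ht).lint_zr]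
      apply lintegral_congr
      intro z
      apply setLIntegral_congr_fun measurableSet_Ioi
      intro ρ hρ
      have hρ' : (0:ℝ) < ρ := hρ
      simp only
      have iff1 : (ρ * cos ψ, ρ * sin ψ, z) ∈ S ↔ (z, ρ) ∈ Reg1 (hA a1 a2 ψ) (hA b1 b2 ψ) t := by
        rw [hS]
        unfold Reg1 hA
        simp only [mem_setOf_eq]
        rw [← and_assoc, wedge_iff h.aφ hρ' hψ]
        constructor
        · rintro ⟨_, h1, h2⟩
          exact ⟨by linarith, by linarith⟩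
        · rintro ⟨h1, h2⟩
          exact ⟨hm, by linarith, by linarith⟩
      rw [hF]
      simp only
      by_cases hm' : (z, ρ) ∈ Reg1 (hA a1 a2 ψ) (hA b1 b2 ψ) t
      · rw [indicator_of_mem hm', indicator_of_mem (iff1.mpr hm'), ← ENNReal.ofReal_mul hρ'.le]
        congr 1
        simp only
        have e3 : 1 - (ρ * cos ψ) ^ 2 - (ρ * sin ψ) ^ 2 - z ^ 2 = 1 - ρ ^ 2 - z ^ 2 := by
          have := sin_sq_add_cos_sq ψ
          linear_combination (-ρ ^ 2) * this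
        rw [e3, mul_one_div]
      · rw [indicator_of_notMem hm', indicator_of_notMem (fun hh => hm' (iff1.mp hh)), mul_zero]
    · rw [indicator_of_notMem hm]
      rw [show (0 : ENNReal) = ∫⁻ z : ℝ, 0 by simp]
      apply lintegral_congr
      intro z
      rw [setLIntegral_congr_fun measurableSet_Ioi (g := fun _ => 0)]
      · simp
      · intro ρ hρ
        have hρ' : (0:ℝ) < ρ := hρ
        simp only
        rw [hF]
        simp only
        rw [indicator_of_notMem, mul_zero]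
        rintro ⟨h1, h2, _⟩
        exact hm ((wedge_iff h.aφ hρ' hψ).mp ⟨h1, h2⟩)
  rw [setLIntegral_congr_fun measurableSet_Ioo e2, setLIntegral_indicator measurableSet_Icc]
  have e4 : Icc 0 φ ∩ Ioo (-π) π = Icc 0 φ := by
    apply inter_eq_left.mpr
    intro x hx
    exact ⟨by linarith [pi_pos, hx.1], hx.2.trans_lt h.aφ.2⟩
  rw [e4, intervalIntegral.integral_of_le h.aφ.1.le, ofReal_integral_eq_lintegral_ofReal]
  · exact setLIntegral_congr Ioc_ae_eq_Icc.symm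
  · have hc := vv_cont h
    exact (hc.integrableOn_Icc).mono_set Ioc_subset_Icc_self
  · rw [Filter.EventuallyLE, ae_restrict_iff' measurableSet_Ioc]
    refine Filter.Eventually.of_forall (fun ψ hψ => ?_)
    simp only [Pi.zero_apply]
    rw [← v0_eq]
    exact ((h.slice hψ.1.le hψ.2).C h.ht).v0_nonneg

lemma Std.int_nonneg {a1 a2 b1 b2 t φ : ℝ} (h : Std a1 a2 b1 b2 t φ) :
    0 ≤ ∫ ψ in (0:ℝ)..φ, vv a1 a2 b1 b2 t ψ := by
  apply intervalIntegral.integral_nonneg h.aφ.1.le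
  intro u hu
  rw [← v0_eq]
  exact ((h.slice hu.1 hu.2).C h.ht).v0_nonneg

theorem hvol_P0 {a1 a2 b1 b2 t φ : ℝ} (h : Std a1 a2 b1 b2 t φ) :
    hvol (P0 a1 a2 b1 b2 t φ) = ∫ ψ in (0:ℝ)..φ, vv a1 a2 b1 b2 t ψ := by
  unfold hvol
  rw [integral_eq_lintegral_of_nonneg_ae, lint_P0 h, ENNReal.toReal_ofReal h.int_nonneg]
  · refine Filter.Eventually.of_forall (fun p => ?_)
    simp only [Pi.zero_apply]
    positivity
  · apply Measurable.aestronglyMeasurable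
    fun_prop

end Run7.h27
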