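import Pool.Agent.Run7.h27.Std2
import Mathlib.Analysis.SpecialFunctions.Arcosh

/-!
# Standard parameters of given dihedral angles
-/

set_option autoImplicit false

namespace Run7.h27

open Real

lemma face_params {φ β1 β2 : ℝ} (aφ : Ang φ) (a1 : Ang β1) (a2 : Ang β2) (d : 0 < Dv φ β1 β2) :
    ∃ x1 x2 : ℝ, lm x1 x2 = sqrt (Dv φ β1 β2) / sin φ ∧ be1 x1 x2 = β1 ∧ be2 x1 x2 φ = β2 := by
  have hs := aφ.sin_pos
  set L := sqrt (Dv φ β1 β2) / sin φ with hL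
  have hLp : 0 < L := div_pos (sqrt_pos.mpr d) hs
  have hL2 : L ^ 2 * sin φ ^ 2 = Dv φ β1 β2 := by
    rw [hL, div_pow, sq_sqrt d.le]; field_simp
  refine ⟨(cos β2 + cos β1 * cos φ) / (L * sin φ), cos β1 / L, ?_⟩
  set x1 := (cos β2 + cos β1 * cos φ) / (L * sin φ) with hx1
  set x2 := cos β1 / L with hx2
  have e1 : L * sin φ * x1 = cos β2 + cos β1 * cos φ := by rw [hx1]; field_simp
  have e2 : L * x2 = cos β1 := by rw [hx2]; field_simp
  have key : L ^ 2 * (1 + x1 ^ 2 + x2 ^ 2) = 1 := by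
    have h0 : sin φ ^ 2 * (L ^ 2 * (1 + x1 ^ 2 + x2 ^ 2)) = sin φ ^ 2 * 1 := by
      have h1 : sin φ ^ 2 * (L ^ 2 * (1 + x1 ^ 2 + x2 ^ 2)) =
        L ^ 2 * sin φ ^ 2 + (L * sin φ * x1) ^ 2 + sin φ ^ 2 * (L * x2) ^ 2 := by ring
      rw [h1, hL2, e1, e2]
      unfold Dv
      have := sin_sq_add_cos_sq φ
      linear_combination (cos β1 ^ 2 - 1) * this
    exact mul_left_cancel₀ (by positivity) h0
  have hlm : lm x1 x2 = L := by
    have h1 := lm_sq x1 x2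
    have h2 : lm x1 x2 ^ 2 = L ^ 2 := by
      have h3 := N_pos x1 x2
      apply mul_right_cancel₀ h3.ne'
      rw [h1, key]
    exact (pow_left_inj₀ (lm_pos x1 x2).le hLp.le (by norm_num)).mp h2
  refine ⟨hlm, ?_, ?_⟩
  · unfold be1
    rw [hlm, e2, arccos_cos a1.1.le a1.2.le]
  · unfold be2
    rw [hlm]
    have : L * hT x1 x2 φ = cos β2 := by
      unfold hT
      have : L * (x1 * sin φ - x2 * cos φ) = L * sin φ * x1 - L * x2 * cos φ := by ring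
      rw [this, e1, e2]; ring
    rw [this, arccos_cos a2.1.le a2.2.le]

theorem exists_std {φ θ β1 β2 γ1 γ2 : ℝ} (h : Reg φ θ β1 β2 γ1 γ2)
    (c34 : 0 < Cof φ θ β1 β2 γ1 γ2) (c35 : 0 < Cof β1 γ2 φ β2 γ1 θ) (c36 : 0 < Cof β2 γ1 φ β1 γ2 θ)
    (hyp : Dv φ β1 β2 * Dv φ γ1 γ2 < Cof φ θ β1 β2 γ1 γ2 ^ 2) :
    ∃ a1 a2 b1 b2 t : ℝ, Std a1 a2 b1 b2 t φ ∧ be1 a1 a2 = β1 ∧ be2 a1 a2 φ = β2 ∧
      be1 b1 b2 = γ1 ∧ be2 b1 b2 φ = γ2 ∧ tht a1 a2 b1 b2 t = θ := by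
  obtain ⟨a1, a2, hL, h1, h2⟩ := face_params h.aφ h.aβ1 h.aβ2 h.d3
  obtain ⟨b1, b2, hM, h3, h4⟩ := face_params h.aφ h.aγ1 h.aγ2 h.d4
  have hs := h.aφ.sin_pos
  have hLp := lm_pos a1 a2
  have hMp := lm_pos b1 b2
  have cb1 := (cos_be1 a1 a2).1
  have cb2 := (cos_be2 a1 a2 φ).1
  have cg1 := (cos_be1 b1 b2).1
  have cg2 := (cos_be2 b1 b2 φ).1
  rw [h1] at cb1
  rw [h2] at cb2
  rw [h3] at cg1
  rw [h4] at cg2
  set L := lm a1 a2 with hLd
  set M := lm b1 b2 with hMd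
  set C := cos θ / (L * M) + (a1 * b1 + a2 * b2) with hC
  have eC : L * M * (C - (a1 * b1 + a2 * b2)) = cos θ := by rw [hC]; field_simp; ring
  have eCof : Cof φ θ β1 β2 γ1 γ2 = L * M * sin φ ^ 2 * C := by
    unfold Cof
    rw [cb1, cb2, cg1, cg2, ← eC]
    unfold hT
    have hs := sin_sq_add_cos_sq φ
    linear_combination (L * M * (-1 * a2 * b2)) * hs
  have eD3 : Dv φ β1 β2 = L ^ 2 * sin φ ^ 2 := by
    have := D3_std a1 a2 φ
    rwa [h1, h2] at this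
  have eD4 : Dv φ γ1 γ2 = M ^ 2 * sin φ ^ 2 := by
    have := D3_std b1 b2 φ
    rwa [h3, h4] at this
  have hC0 : 0 < C := by
    rw [eCof] at c34
    by_contra hh
    push Not at hh
    have : L * M * sin φ ^ 2 * C ≤ 0 := mul_nonpos_of_nonneg_of_nonpos (by positivity) hh
    linarith
  have hC1 : 1 < C := by
    rw [eD3, eD4, eCof] at hyp
    have h5 : (L * M * sin φ ^ 2) ^ 2 * 1 < (L * M * sin φ ^ 2) ^ 2 * C ^ 2 := by nlinarith
    have h6 : 1 < C ^ 2 := lt_of_mul_lt_mul_left h5 (by positivity)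
    nlinarith
  set t := arcosh C with ht
  have hcosh : cosh t = C := cosh_arcosh hC1.le
  have htp : 0 < t := arcosh_pos hC1
  have htht : tht a1 a2 b1 b2 t = θ := by
    unfold tht
    rw [hcosh, eC, arccos_cos h.aθ.1.le h.aθ.2.le]
  have hQ0 : 0 < Qf a1 a2 b1 b2 t 0 := by
    have key := D5_alg a1 a2 b1 b2 (lm_sq a1 a2) (lm_sq b1 b2) (cosh_sq t)
    rw [← hLd, ← hMd, hcosh, eC, ← cb1, ← cg1] at key
    have h5 := h.d5
    unfold Dv at h5
    unfold Qf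
    rw [hA_zero, hA_zero, hcosh]
    have h6 : 0 < L ^ 2 * M ^ 2 * (a1 ^ 2 + b1 ^ 2 + 2 * a1 * b1 * C - sinh t ^ 2) := by
      rw [← key]; linarith
    by_contra hh
    push Not at hh
    have : L ^ 2 * M ^ 2 * (a1 ^ 2 + b1 ^ 2 + 2 * a1 * b1 * C - sinh t ^ 2) ≤ 0 :=
      mul_nonpos_of_nonneg_of_nonpos (by positivity) hh
    linarith
  have pos_of : ∀ {x y : ℝ}, 0 < x → 0 < x * y → 0 < y := by
    intro x y hx hxy
    by_contra hh
    push Not at hh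
    have := mul_nonpos_of_nonneg_of_nonpos hx.le hh
    linarith
  refine ⟨a1, a2, b1, b2, t, ⟨h.aφ, htp, ⟨?_, hQ0⟩, ⟨?_, ?_⟩⟩, h1, h2, h3, h4, htht⟩
  · have := Cof35_std (φ := φ) hQ0
    rw [h1, h2, h3, h4, htht] at this
    rw [this] at c35
    exact pos_of (by positivity) c35
  · have := Cof36_std (φ := φ) hQ0
    rw [h1, h2, h3, h4, htht] at this
    rw [this] at c36
    exact pos_of (by positivity) c36
  · have := D6_std (φ := φ) hQ0
    rw [h2, h4, htht] at this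
    have h6 := h.d6
    rw [this] at h6
    exact pos_of (by positivity) h6

end Run7.h27
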