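import Pool.Agent.Run7.h27.Geo4

/-!
# Hyperbolic volume as the volume of a cone
-/

set_option autoImplicit false

namespace Run7.h27

open Real MeasureTheory Filter Topology Set Matrix
open scoped Pointwise

/-- homogeneous coordinates -/
def up (x : Fin 3 → ℝ) (w : ℝ) : Fin 4 → ℝ := ![x 0, x 1, x 2, w]

/-- quadratic form, positive on timelike vectors -/
def qq (p : Fin 4 → ℝ) : ℝ := p 3 ^ 2 - p 0 ^ 2 - p 1 ^ 2 - p 2 ^ 2

/-- the cone truncated by the hyperboloid -/
def KN (N : Matrix (Fin 4) (Fin 4) ℝ) : Set (Fin 4 → ℝ) := {p | (∀ k, (N *ᵥ p) k ≤ 0) ∧ qq p < 1}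

lemma qq_up (x : Fin 3 → ℝ) (w : ℝ) : qq (up x w) = w ^ 2 - ∑ i, x i ^ 2 := by
  unfold qq up
  rw [Fin.sum_univ_three]
  simp only [Matrix.cons_val]
  ring

lemma up_smul (w : ℝ) (y : Fin 3 → ℝ) : up (w • y) w = w • up y 1 := by
  unfold up
  funext i
  fin_cases i <;> simp

lemma up_eta (p : Fin 4 → ℝ) : up (fun j => p (Fin.castSucc j)) (p 3) = p := by
  unfold up
  funext i
  fin_cases i <;> rfl

lemma up_cont : Continuous (fun x : ℝ × (Fin 3 → ℝ) => up x.2 x.1) := by
  apply continuous_pi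
  intro i
  have h : ∀ j : Fin 3, Continuous (fun x : ℝ × (Fin 3 → ℝ) => x.2 j) := fun j =>
    (continuous_apply j).comp continuous_snd
  fin_cases i
  · exact h 0
  · exact h 1
  · exact h 2
  · exact continuous_fst

lemma qq_cont : Continuous qq := by unfold qq; fun_prop

lemma KN_meas (N : Matrix (Fin 4) (Fin 4) ℝ) : MeasurableSet (KN N) := by
  have h1 : ∀ k, MeasurableSet {p : Fin 4 → ℝ | (N *ᵥ p) k ≤ 0} := by
    intro k
    apply IsClosed.measurableSet
    apply isClosed_le _ continuous_const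
    exact (continuous_apply k).comp (by fun_prop : Continuous (fun p : Fin 4 → ℝ => N *ᵥ p))
  have h2 : MeasurableSet {p : Fin 4 → ℝ | qq p < 1} :=
    (isOpen_lt qq_cont continuous_const).measurableSet
  have : KN N = (⋂ k, {p : Fin 4 → ℝ | (N *ᵥ p) k ≤ 0}) ∩ {p | qq p < 1} := by
    ext p; simp [KN]
  rw [this]
  exact (MeasurableSet.iInter h1).inter h2

/-- the projective section of the cone -/
def PN (N : Matrix (Fin 4) (Fin 4) ℝ) : Set (Fin 3 → ℝ) := {y | ∀ k, (N *ᵥ (up y 1)) k ≤ 0}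

lemma PN_meas (N : Matrix (Fin 4) (Fin 4) ℝ) : MeasurableSet (PN N) := by
  have h1 : ∀ k, MeasurableSet {y : Fin 3 → ℝ | (N *ᵥ (up y 1)) k ≤ 0} := by
    intro k
    apply IsClosed.measurableSet
    apply isClosed_le _ continuous_const
    have : Continuous (fun y : Fin 3 → ℝ => up y 1) :=
      up_cont.comp (continuous_const.prodMk continuous_id)
    exact (continuous_apply k).comp ((by fun_prop : Continuous (fun p : Fin 4 → ℝ => N *ᵥ p)).comp this)
  have : PN N = ⋂ k, {y : Fin 3 → ℝ | (N *ᵥ (up y 1)) k ≤ 0} := by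
    ext p; simp [PN]
  rw [this]
  exact MeasurableSet.iInter h1

/-- the set of pairs `(w, y)` -/
def RW (N : Matrix (Fin 4) (Fin 4) ℝ) : Set (ℝ × (Fin 3 → ℝ)) :=
  {x | x.2 ∈ PN N ∧ x.1 ^ 2 * (1 - ∑ i, x.2 i ^ 2) < 1}

lemma RW_meas (N : Matrix (Fin 4) (Fin 4) ℝ) : MeasurableSet (RW N) := by
  have h1 : MeasurableSet {x : ℝ × (Fin 3 → ℝ) | x.2 ∈ PN N} := measurable_snd (PN_meas N)
  have h2 : MeasurableSet {x : ℝ × (Fin 3 → ℝ) | x.1 ^ 2 * (1 - ∑ i, x.2 i ^ 2) < 1} :=
    (isOpen_lt (by fun_prop) (by fun_prop)).measurableSet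
  exact h1.inter h2

/-- time-like cone condition -/
def Tim (N : Matrix (Fin 4) (Fin 4) ℝ) : Prop :=
  ∀ p, (∀ k, (N *ᵥ p) k ≤ 0) → p ≠ 0 → 0 < qq p ∧ 0 < p 3

lemma section_eq {N : Matrix (Fin 4) (Fin 4) ℝ} {w : ℝ} (hw : 0 < w) :
    {x : Fin 3 → ℝ | up x w ∈ KN N} = w • {y : Fin 3 → ℝ | (w, y) ∈ RW N} := by
  ext x
  rw [Set.mem_smul_set]
  have key : ∀ y : Fin 3 → ℝ, up (w • y) w ∈ KN N ↔ (w, y) ∈ RW N := by
    intro y
    unfold KN RW PN
    simp only [mem_setOf_eq]
    rw [up_smul, Matrix.mulVec_smul]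
    have e1 : ∀ k, (w • (N *ᵥ up y 1)) k ≤ 0 ↔ (N *ᵥ up y 1) k ≤ 0 := by
      intro k
      rw [Pi.smul_apply, smul_eq_mul]
      constructor
      · intro h
        by_contra hh
        push Not at hh
        have := mul_pos hw hh
        linarith
      · intro h; exact mul_nonpos_of_nonneg_of_nonpos hw.le h
    have e2 : qq (w • up y 1) = w ^ 2 * (1 - ∑ i, y i ^ 2) := by
      rw [← up_smul, qq_up]
      simp only [Pi.smul_apply, smul_eq_mul, mul_pow]
      rw [← Finset.mul_sum]; ring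
    rw [e2]
    exact and_congr_left' (forall_congr' e1)
  constructor
  · intro hx
    refine ⟨w⁻¹ • x, ?_, ?_⟩
    · rw [mem_setOf_eq, ← key, smul_inv_smul₀ hw.ne']
      exact hx
    · rw [smul_inv_smul₀ hw.ne']
  · rintro ⟨y, hy, rfl⟩
    exact (key y).mpr hy

lemma lint_pow {b : ℝ} (hb : 0 ≤ b) :
    ∫⁻ w in Ioo (0:ℝ) b, ENNReal.ofReal (w ^ 3) = ENNReal.ofReal (b ^ 4 / 4) := by
  have h1 : ∫ w in (0:ℝ)..b, w ^ 3 = b ^ 4 / 4 := by
    rw [integral_pow]; norm_num
  rw [← h1, intervalIntegral.integral_of_le hb, ofReal_integral_eq_lintegral_ofReal]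
  · exact setLIntegral_congr Ioo_ae_eq_Ioc
  · exact (continuous_pow 3).continuousOn.integrableOn_Icc.mono_set Ioc_subset_Icc_self
  · rw [Filter.EventuallyLE, ae_restrict_iff' measurableSet_Ioc]
    refine Filter.Eventually.of_forall (fun w hw => ?_)
    simp only [Pi.zero_apply]
    exact pow_nonneg hw.1.le 3

theorem four_vol {N : Matrix (Fin 4) (Fin 4) ℝ} (hT : Tim N) :
    volume (KN N) = ∫⁻ y in PN N, ENNReal.ofReal (1 / 4 * (1 / (1 - ∑ i, y i ^ 2) ^ 2)) := by
  have h1 := volume_preserving_piFinSuccAbove (fun _ : Fin 4 => ℝ) 3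
  set G : ℝ × (Fin 3 → ℝ) → ENNReal := fun x => (KN N).indicator 1 (up x.2 x.1) with hG
  have hGm : Measurable G := (measurable_one.indicator (KN_meas N)).comp up_cont.measurable
  have e1 : volume (KN N) = ∫⁻ p : Fin 4 → ℝ, G (MeasurableEquiv.piFinSuccAbove (fun _ : Fin 4 => ℝ) 3 p) := by
    rw [← lintegral_indicator_one (KN_meas N)]
    apply lintegral_congr
    intro p
    have : up (fun j => p (Fin.castSucc j)) (p 3) = p := up_eta p
    conv_lhs => rw [← this]
    rfl
  rw [e1, h1.lintegral_comp_emb (MeasurableEquiv.measurableEmbedding _), Measure.volume_eq_prod,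
    lintegral_prod _ hGm.aemeasurable]
  have e2 : ∫⁻ w : ℝ, ∫⁻ x : Fin 3 → ℝ, G (w, x) = ∫⁻ w in Ioi (0:ℝ), ∫⁻ x : Fin 3 → ℝ, G (w, x) := by
    have hne : ∀ᵐ w : ℝ, w ≠ 0 := by
      rw [ae_iff]; simp
    rw [← lintegral_indicator measurableSet_Ioi]
    apply lintegral_congr_ae
    filter_upwards [hne] with w hw
    by_cases hw0 : 0 < w
    · rw [indicator_of_mem (show w ∈ Ioi (0:ℝ) from hw0)]
    · rw [indicator_of_notMem (show w ∉ Ioi (0:ℝ) from hw0)]
      rw [show (0 : ENNReal) = ∫⁻ x : Fin 3 → ℝ, 0 by simp]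
      apply lintegral_congr
      intro x
      rw [hG]
      simp only
      rw [indicator_of_notMem]
      rintro ⟨h2, _⟩
      have h3 : up x w ≠ 0 := by
        intro h
        have := congrFun h 3
        exact hw this
      have := (hT _ h2 h3).2
      exact hw0 this
  rw [e2]
  have e3 : ∀ w ∈ Ioi (0:ℝ), ∫⁻ x : Fin 3 → ℝ, G (w, x) =
      ∫⁻ y : Fin 3 → ℝ, (RW N).indicator (fun x => ENNReal.ofReal (x.1 ^ 3)) (w, y) := by
    intro w hw
    have hw' : (0:ℝ) < w := hw
    have m1 : MeasurableSet {x : Fin 3 → ℝ | up x w ∈ KN N} :=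
      (up_cont.comp (continuous_const.prodMk continuous_id)).measurable (KN_meas N)
    have m2 : MeasurableSet {y : Fin 3 → ℝ | (w, y) ∈ RW N} :=
      (measurable_const.prodMk measurable_id) (RW_meas N)
    have a1 : ∫⁻ x : Fin 3 → ℝ, G (w, x) = volume {x : Fin 3 → ℝ | up x w ∈ KN N} := by
      rw [← lintegral_indicator_one m1]
      apply lintegral_congr
      intro x
      by_cases hx : up x w ∈ KN N
      · rw [indicator_of_mem (by exact hx), hG]; simp only; rw [indicator_of_mem hx]; rfl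
      · rw [indicator_of_notMem (by exact hx), hG]; simp only; rw [indicator_of_notMem hx]
    have a2 : ∫⁻ y : Fin 3 → ℝ, (RW N).indicator (fun x => ENNReal.ofReal (x.1 ^ 3)) (w, y) =
        ENNReal.ofReal (w ^ 3) * volume {y : Fin 3 → ℝ | (w, y) ∈ RW N} := by
      rw [← lintegral_indicator_const m2]
      apply lintegral_congr
      intro y
      by_cases hy : (w, y) ∈ RW N
      · rw [indicator_of_mem hy, indicator_of_mem (by exact hy)]
      · rw [indicator_of_notMem hy, indicator_of_notMem (by exact hy)]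
    rw [a1, a2, section_eq hw', Measure.addHaar_smul]
    congr 2
    rw [Module.finrank_fin_fun, abs_of_pos (by positivity)]
  rw [setLIntegral_congr_fun measurableSet_Ioi e3, lintegral_lintegral_swap]
  · rw [← lintegral_indicator (PN_meas N)]
    apply lintegral_congr
    intro y
    by_cases hy : y ∈ PN N
    · rw [indicator_of_mem hy]
      have hs : 0 < 1 - ∑ i, y i ^ 2 := by
        have h3 : up y 1 ≠ 0 := by
          intro h
          have := congrFun h 3
          exact one_ne_zero this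
        have := (hT _ hy h3).1
        rw [qq_up] at this
        linarith
      set s := 1 - ∑ i, y i ^ 2 with hsd
      have hsq : 0 < sqrt s := sqrt_pos.mpr hs
      have a1 : ∫⁻ w in Ioi (0:ℝ), (RW N).indicator (fun x => ENNReal.ofReal (x.1 ^ 3)) (w, y) =
          ∫⁻ w in Ioo (0:ℝ) (1 / sqrt s), ENNReal.ofReal (w ^ 3) := by
        rw [← lintegral_indicator measurableSet_Ioi, ← lintegral_indicator measurableSet_Ioo]
        apply lintegral_congr
        intro w
        have iff1 : (w ∈ Ioi (0:ℝ) ∧ (w, y) ∈ RW N) ↔ w ∈ Ioo (0:ℝ) (1 / sqrt s) := by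
          unfold RW
          simp only [mem_setOf_eq, mem_Ioi, mem_Ioo, ← hsd]
          constructor
          · rintro ⟨h1, _, h2⟩
            refine ⟨h1, ?_⟩
            rw [lt_div_iff₀ hsq]
            have h3 : (w * sqrt s) ^ 2 < 1 ^ 2 := by
              rw [mul_pow, sq_sqrt hs.le]; linarith
            exact lt_of_pow_lt_pow_left₀ 2 (by norm_num) h3
          · rintro ⟨h1, h2⟩
            refine ⟨h1, hy, ?_⟩
            rw [lt_div_iff₀ hsq] at h2
            have h3 : (w * sqrt s) ^ 2 < 1 ^ 2 := pow_lt_pow_left₀ h2 (by positivity) (by norm_num)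
            rw [mul_pow, sq_sqrt hs.le] at h3
            linarith
        by_cases hw : w ∈ Ioo (0:ℝ) (1 / sqrt s)
        · rw [indicator_of_mem hw, indicator_of_mem (iff1.mpr hw).1, indicator_of_mem (iff1.mpr hw).2]
        · rw [indicator_of_notMem hw]
          by_cases hw0 : w ∈ Ioi (0:ℝ)
          · rw [indicator_of_mem hw0, indicator_of_notMem (fun hh => hw (iff1.mp ⟨hw0, hh⟩))]
          · rw [indicator_of_notMem hw0]
      rw [a1, lint_pow (by positivity)]
      congr 1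
      rw [div_pow, show sqrt s ^ 4 = (sqrt s ^ 2) ^ 2 by ring, sq_sqrt hs.le]
      ring
    · rw [indicator_of_notMem hy]
      rw [show (0 : ENNReal) = ∫⁻ w in Ioi (0:ℝ), 0 by simp]
      apply lintegral_congr
      intro w
      rw [indicator_of_notMem]
      exact fun hh => hy hh.1
  · apply Measurable.aemeasurable
    have : Measurable ((RW N).indicator (fun x : ℝ × (Fin 3 → ℝ) => ENNReal.ofReal (x.1 ^ 3))) := by
      apply Measurable.indicator _ (RW_meas N)
      fun_prop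
    exact this

theorem hvol_PN {N : Matrix (Fin 4) (Fin 4) ℝ} (hT : Tim N) :
    hvol (PN N) = 4 * (volume (KN N)).toReal := by
  rw [four_vol hT]
  unfold hvol
  rw [integral_eq_lintegral_of_nonneg_ae]
  · have : ∀ y : Fin 3 → ℝ, ENNReal.ofReal (1 / 4 * (1 / (1 - ∑ i, y i ^ 2) ^ 2)) =
        ENNReal.ofReal (1 / 4) * ENNReal.ofReal (1 / (1 - ∑ i, y i ^ 2) ^ 2) := by
      intro y; rw [ENNReal.ofReal_mul (by norm_num)]
    rw [lintegral_congr this, lintegral_const_mul' _ _ ENNReal.ofReal_ne_top, ENNReal.toReal_mul,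
      ENNReal.toReal_ofReal (by norm_num)]
    ring
  · refine Filter.Eventually.of_forall (fun p => ?_)
    simp only [Pi.zero_apply]
    positivity
  · apply Measurable.aestronglyMeasurable
    fun_prop

/-- the matrix of the Lorentz form -/
def Jm : Matrix (Fin 4) (Fin 4) ℝ := Matrix.diagonal ![1, 1, 1, -1]

/-- image of the truncated cone in face coordinates -/
def MG (G : Matrix (Fin 4) (Fin 4) ℝ) : Set (Fin 4 → ℝ) :=
  {μ | (∀ k, μ k ≤ 0) ∧ -(μ ⬝ᵥ (G⁻¹ *ᵥ μ)) < 1}

lemma Jm_mul : Jm * Jm = 1 := by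
  unfold Jm
  rw [Matrix.diagonal_mul_diagonal, ← Matrix.diagonal_one]
  congr 1
  funext i
  fin_cases i <;> simp

lemma qq_Jm (p : Fin 4 → ℝ) : qq p = -(p ⬝ᵥ (Jm *ᵥ p)) := by
  unfold qq Jm
  simp only [Matrix.mulVec_diagonal, dotProduct, Fin.sum_univ_four, Matrix.cons_val]
  ring

lemma gram_inv {N : Matrix (Fin 4) (Fin 4) ℝ} (hd : IsUnit N.det) :
    Nᵀ * (N * Jm * Nᵀ)⁻¹ * N = Jm := by
  have hdT : IsUnit (Nᵀ).det := by rwa [Matrix.det_transpose]
  have hJ : Jm⁻¹ = Jm := Matrix.inv_eq_right_inv Jm_mul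
  rw [Matrix.mul_inv_rev, Matrix.mul_inv_rev, hJ, ← Matrix.mul_assoc, ← Matrix.mul_assoc,
    Matrix.mul_nonsing_inv _ hdT, Matrix.one_mul, Matrix.mul_assoc, Matrix.nonsing_inv_mul _ hd,
    Matrix.mul_one]

lemma qq_gram {N : Matrix (Fin 4) (Fin 4) ℝ} (hd : IsUnit N.det) (p : Fin 4 → ℝ) :
    qq p = -((N *ᵥ p) ⬝ᵥ ((N * Jm * Nᵀ)⁻¹ *ᵥ (N *ᵥ p))) := by
  rw [qq_Jm]
  congr 1
  conv_lhs => rw [← gram_inv hd]
  rw [← Matrix.mulVec_mulVec, ← Matrix.mulVec_mulVec, Matrix.dotProduct_mulVec,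
    Matrix.vecMul_transpose]

theorem vol_KN {N : Matrix (Fin 4) (Fin 4) ℝ} (hd : N.det ≠ 0) :
    volume (KN N) = ENNReal.ofReal |(N.det)⁻¹| * volume (MG (N * Jm * Nᵀ)) := by
  have h1 : KN N = (Matrix.toLin' N) ⁻¹' (MG (N * Jm * Nᵀ)) := by
    ext p
    unfold KN MG
    simp only [mem_setOf_eq, mem_preimage, Matrix.toLin'_apply]
    rw [qq_gram (isUnit_iff_ne_zero.mpr hd)]
  rw [h1, Measure.addHaar_preimage_linearMap, LinearMap.det_toLin']
  rwa [LinearMap.det_toLin']

/-- the volume of the cone depends only on the Gram matrix -/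
theorem vol_KN_eq {N N' : Matrix (Fin 4) (Fin 4) ℝ} (hd : N.det ≠ 0)
    (hG : N * Jm * Nᵀ = N' * Jm * N'ᵀ) : volume (KN N) = volume (KN N') := by
  have hJ : Jm.det ≠ 0 := by
    have := congrArg Matrix.det Jm_mul
    rw [Matrix.det_mul, Matrix.det_one] at this
    intro h
    rw [h, zero_mul] at this
    exact zero_ne_one this
  have h1 : N.det ^ 2 = N'.det ^ 2 := by
    have := congrArg Matrix.det hG
    rw [Matrix.det_mul, Matrix.det_mul, Matrix.det_mul, Matrix.det_mul, Matrix.det_transpose,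
      Matrix.det_transpose] at this
    apply mul_right_cancel₀ hJ
    linear_combination this
  have hd' : N'.det ≠ 0 := by
    intro h
    rw [h] at h1
    exact hd (by simpa using h1)
  rw [vol_KN hd, vol_KN hd', hG]
  congr 2
  rw [abs_inv, abs_inv, ← sq_abs, ← sq_abs N'.det] at *
  have := (pow_left_inj₀ (abs_nonneg _) (abs_nonneg _) (by norm_num : (2:ℕ) ≠ 0)).mp h1
  rw [this]

end Run7.h27
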