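import Pool.Agent.Run7.h27.GeoB
import Pool.Agent.Run7.h27.GeoC

/-!
# From the Gram matrix to the standard position
-/

set_option autoImplicit false

namespace Run7.h27

open Real MeasureTheory Filter Topology Set Matrix

/-- Gram matrix of the faces -/
noncomputable def Gx (φ θ β1 β2 γ1 γ2 : ℝ) : Matrix (Fin 4) (Fin 4) ℝ :=
  !![1, -cos θ, -cos γ2, -cos γ1; -cos θ, 1, -cos β2, -cos β1; -cos γ2, -cos β2, 1, -cos φ;
    -cos γ1, -cos β1, -cos φ, 1]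

/-- determinant of the Gram matrix as a polynomial -/
def dG (a b c d e f : ℝ) : ℝ :=
  1 - a ^ 2 - b ^ 2 - c ^ 2 - d ^ 2 - e ^ 2 - f ^ 2 - 2 * a * c * d - 2 * a * e * f - 2 * b * c * e -
    2 * b * d * f + a ^ 2 * b ^ 2 + c ^ 2 * f ^ 2 + d ^ 2 * e ^ 2 -
    2 * a * b * c * f - 2 * a * b * d * e - 2 * c * d * e * f

lemma det_Gx (φ θ β1 β2 γ1 γ2 : ℝ) :
    (Gx φ θ β1 β2 γ1 γ2).det = dG (cos φ) (cos θ) (cos β1) (cos β2) (cos γ1) (cos γ2) := by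
  unfold Gx dG
  rw [Matrix.det_succ_row_zero]
  simp only [Fin.sum_univ_four, Matrix.det_fin_three, Matrix.submatrix_apply, Matrix.of_apply,
    Matrix.cons_val, Fin.succAbove, Fin.reduceSucc, Fin.castSucc, Fin.castAdd, Fin.castLE]
  simp [Fin.lt_def]
  ring

/-- principal minors -/
def dD (x y z : ℝ) : ℝ := 1 - x ^ 2 - y ^ 2 - z ^ 2 - 2 * x * y * z

/-- mixed minors -/
def cF (p q b1 b2 g1 g2 : ℝ) : ℝ := (1 - p ^ 2) * q + b1 * g1 + b2 * g2 + p * (b1 * g2 + b2 * g1)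

lemma Dv_dD (x y z : ℝ) : Dv x y z = dD (cos x) (cos y) (cos z) := rfl

lemma Cof_cF (φ θ β1 β2 γ1 γ2 : ℝ) :
    Cof φ θ β1 β2 γ1 γ2 = cF (cos φ) (cos θ) (cos β1) (cos β2) (cos γ1) (cos γ2) := by
  unfold Cof cF
  rw [sin_sq]

section cramer

variable {p q b c g e h0 h1 h2 h3 r0 r1 r2 r3 : ℝ}

/-- Cramer's rule for the Gram matrix; `p, q, b, c, g, e` are the cosines of
`φ, θ, β₁, β₂, γ₁, γ₂` -/
lemma cramer0 (e0 : h0 - q * h1 - e * h2 - g * h3 = r0) (e1 : -q * h0 + h1 - c * h2 - b * h3 = r1)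
    (e2 : -e * h0 - c * h1 + h2 - p * h3 = r2) (e3 : -g * h0 - b * h1 - p * h2 + h3 = r3) :
    dG p q b c g e * h0 = dD p b c * r0 + cF p q b c g e * r1 + cF b e p c g q * r2 +
      cF c g p b e q * r3 ∧
    dG p q b c g e * h1 = cF p q b c g e * r0 + dD p g e * r1 + cF g c p e b q * r2 +
      cF e b p g c q * r3 ∧
    dG p q b c g e * h2 = cF b e p c g q * r0 + cF g c p e b q * r1 + dD q b g * r2 +
      cF q p b g c e * r3 ∧
    dG p q b c g e * h3 = cF c g p b e q * r0 + cF e b p g c q * r1 + cF q p b g c e * r2 +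
      dD q c e * r3 := by
  unfold dG dD cF
  refine ⟨?_, ?_, ?_, ?_⟩
  · rw [← e0, ← e1, ← e2, ← e3]; ring
  · rw [← e0, ← e1, ← e2, ← e3]; ring
  · rw [← e0, ← e1, ← e2, ← e3]; ring
  · rw [← e0, ← e1, ← e2, ← e3]; ring

end cramer

end Run7.h27
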