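import Pool.Agent.Run7.h27.GeoD

/-!
# Negative inverse Gram matrices
-/

set_option autoImplicit false

namespace Run7.h27

open Real MeasureTheory Filter Topology Set Matrix

lemma pos_of_neg_mul_neg {d h D : ℝ} (hd : d < 0) (hh : h < 0) (e : d * h = D) : 0 < D := by
  rw [← e]; exact mul_pos_of_neg_of_neg hd hh

lemma gram_cols {φ θ β1 β2 γ1 γ2 : ℝ} (hd : (Gx φ θ β1 β2 γ1 γ2).det ≠ 0) (l : Fin 4) :
    (1 : Matrix (Fin 4) (Fin 4) ℝ) 0 l = (Gx φ θ β1 β2 γ1 γ2)⁻¹ 0 l - cos θ * (Gx φ θ β1 β2 γ1 γ2)⁻¹ 1 l -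
      cos γ2 * (Gx φ θ β1 β2 γ1 γ2)⁻¹ 2 l - cos γ1 * (Gx φ θ β1 β2 γ1 γ2)⁻¹ 3 l ∧
    (1 : Matrix (Fin 4) (Fin 4) ℝ) 1 l = -cos θ * (Gx φ θ β1 β2 γ1 γ2)⁻¹ 0 l + (Gx φ θ β1 β2 γ1 γ2)⁻¹ 1 l -
      cos β2 * (Gx φ θ β1 β2 γ1 γ2)⁻¹ 2 l - cos β1 * (Gx φ θ β1 β2 γ1 γ2)⁻¹ 3 l ∧
    (1 : Matrix (Fin 4) (Fin 4) ℝ) 2 l = -cos γ2 * (Gx φ θ β1 β2 γ1 γ2)⁻¹ 0 l -
      cos β2 * (Gx φ θ β1 β2 γ1 γ2)⁻¹ 1 l + (Gx φ θ β1 β2 γ1 γ2)⁻¹ 2 l - cos φ * (Gx φ θ β1 β2 γ1 γ2)⁻¹ 3 l ∧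
    (1 : Matrix (Fin 4) (Fin 4) ℝ) 3 l = -cos γ1 * (Gx φ θ β1 β2 γ1 γ2)⁻¹ 0 l -
      cos β1 * (Gx φ θ β1 β2 γ1 γ2)⁻¹ 1 l - cos φ * (Gx φ θ β1 β2 γ1 γ2)⁻¹ 2 l +
      (Gx φ θ β1 β2 γ1 γ2)⁻¹ 3 l := by
  have h : Gx φ θ β1 β2 γ1 γ2 * (Gx φ θ β1 β2 γ1 γ2)⁻¹ = 1 :=
    Matrix.mul_nonsing_inv _ (isUnit_iff_ne_zero.mpr hd)
  generalize (Gx φ θ β1 β2 γ1 γ2)⁻¹ = H at *
  refine ⟨?_, ?_, ?_, ?_⟩ <;> rw [← h] <;>
    simp only [Gx, Matrix.mul_apply, Fin.sum_univ_four, Matrix.of_apply, Matrix.cons_val] <;> ring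

/-- sign conditions from a negative inverse Gram matrix -/
theorem gram_hyp {φ θ β1 β2 γ1 γ2 : ℝ} (aφ : Ang φ) (aθ : Ang θ) (aβ1 : Ang β1) (aβ2 : Ang β2)
    (aγ1 : Ang γ1) (aγ2 : Ang γ2) (hd : (Gx φ θ β1 β2 γ1 γ2).det < 0)
    (hn : ∀ k l, (Gx φ θ β1 β2 γ1 γ2)⁻¹ k l < 0) :
    Reg φ θ β1 β2 γ1 γ2 ∧ 0 < Cof φ θ β1 β2 γ1 γ2 ∧ 0 < Cof β1 γ2 φ β2 γ1 θ ∧
      0 < Cof β2 γ1 φ β1 γ2 θ ∧ Dv φ β1 β2 * Dv φ γ1 γ2 < Cof φ θ β1 β2 γ1 γ2 ^ 2 := by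
  have hc := fun l => gram_cols hd.ne l
  rw [det_Gx] at hd
  have k0 := cramer0 (hc 0).1.symm (hc 0).2.1.symm (hc 0).2.2.1.symm (hc 0).2.2.2.symm
  have k1 := cramer0 (hc 1).1.symm (hc 1).2.1.symm (hc 1).2.2.1.symm (hc 1).2.2.2.symm
  have k2 := cramer0 (hc 2).1.symm (hc 2).2.1.symm (hc 2).2.2.1.symm (hc 2).2.2.2.symm
  have k3 := cramer0 (hc 3).1.symm (hc 3).2.1.symm (hc 3).2.2.1.symm (hc 3).2.2.2.symm
  have one_eq : ∀ i j : Fin 4, (1 : Matrix (Fin 4) (Fin 4) ℝ) i j = if i = j then 1 else 0 :=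
    fun i j => Matrix.one_apply
  simp only [one_eq, Fin.isValue, if_true, Fin.reduceEq, if_false, mul_one, mul_zero, add_zero,
    zero_add] at k0 k1 k2 k3
  refine ⟨⟨aφ, aθ, aβ1, aβ2, aγ1, aγ2, ?_, ?_, ?_, ?_⟩, ?_, ?_, ?_, ?_⟩
  · exact pos_of_neg_mul_neg hd (hn 0 0) k0.1
  · exact pos_of_neg_mul_neg hd (hn 1 1) k1.2.1
  · exact pos_of_neg_mul_neg hd (hn 2 2) k2.2.2.1
  · exact pos_of_neg_mul_neg hd (hn 3 3) k3.2.2.2
  · rw [Cof_cF]; exact pos_of_neg_mul_neg hd (hn 1 0) k0.2.1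
  · rw [Cof_cF]; exact pos_of_neg_mul_neg hd (hn 2 0) k0.2.2.1
  · rw [Cof_cF]; exact pos_of_neg_mul_neg hd (hn 3 0) k0.2.2.2
  · rw [Cof_cF, Dv_dD, Dv_dD]
    have hs : 0 < 1 - cos φ ^ 2 := by
      rw [← sin_sq]; have := aφ.sin_pos; positivity
    have e : cF (cos φ) (cos θ) (cos β1) (cos β2) (cos γ1) (cos γ2) ^ 2 -
        dD (cos φ) (cos β1) (cos β2) * dD (cos φ) (cos γ1) (cos γ2) =
        -((1 - cos φ ^ 2) * dG (cos φ) (cos θ) (cos β1) (cos β2) (cos γ1) (cos γ2)) := by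
      unfold cF dD dG; ring
    have := mul_neg_of_pos_of_neg hs hd
    linarith

/-- timelike cones -/
theorem tim_of {N : Matrix (Fin 4) (Fin 4) ℝ} (hd : N.det ≠ 0)
    (hn : ∀ k l, (N * Jm * Nᵀ)⁻¹ k l < 0) {e : Fin 4 → ℝ} (he : ∀ k, (N *ᵥ e) k ≤ 0) (he3 : 0 < e 3) :
    Tim N := by
  have hinj : ∀ p : Fin 4 → ℝ, N *ᵥ p = 0 → p = 0 := by
    intro p hp
    have h1 : N⁻¹ *ᵥ (N *ᵥ p) = p := by
      rw [Matrix.mulVec_mulVec, Matrix.nonsing_inv_mul _ (isUnit_iff_ne_zero.mpr hd), Matrix.one_mulVec]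
    rw [← h1, hp, Matrix.mulVec_zero]
  have hq : ∀ p, (∀ k, (N *ᵥ p) k ≤ 0) → p ≠ 0 → 0 < qq p := by
    intro p hp hp0
    rw [qq_gram (isUnit_iff_ne_zero.mpr hd)]
    set μ := N *ᵥ p with hμ
    set H := (N * Jm * Nᵀ)⁻¹
    have hμ0 : μ ≠ 0 := fun h => hp0 (hinj p h)
    obtain ⟨j, hj⟩ : ∃ j, μ j ≠ 0 := by
      by_contra hh
      push Not at hh
      exact hμ0 (funext hh)
    have hjn : μ j < 0 := lt_of_le_of_ne (hp j) hj
    have e1 : -(μ ⬝ᵥ (H *ᵥ μ)) = ∑ k, ∑ l, -(μ k * μ l * H k l) := by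
      simp only [dotProduct, Matrix.mulVec, Finset.mul_sum, ← Finset.sum_neg_distrib]
      apply Finset.sum_congr rfl
      intro k _
      apply Finset.sum_congr rfl
      intro l _
      ring
    rw [e1]
    have hnn : ∀ k l, 0 ≤ -(μ k * μ l * H k l) := by
      intro k l
      have h1 : 0 ≤ μ k * μ l := mul_nonneg_of_nonpos_of_nonpos (hp k) (hp l)
      have h2 := hn k l
      have := mul_nonpos_of_nonneg_of_nonpos h1 h2.le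
      linarith
    calc 0 < -(μ j * μ j * H j j) := by
          have h1 : 0 < μ j * μ j := mul_pos_of_neg_of_neg hjn hjn
          have := mul_neg_of_pos_of_neg h1 (hn j j)
          linarith
      _ ≤ ∑ l, -(μ j * μ l * H j l) :=
          Finset.single_le_sum (f := fun l => -(μ j * μ l * H j l)) (fun l _ => hnn j l) (Finset.mem_univ j)
      _ ≤ ∑ k, ∑ l, -(μ k * μ l * H k l) :=
          Finset.single_le_sum (f := fun k => ∑ l, -(μ k * μ l * H k l))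
            (fun k _ => Finset.sum_nonneg (fun l _ => hnn k l)) (Finset.mem_univ j)
  intro p hp hp0
  refine ⟨hq p hp hp0, ?_⟩
  by_contra hh
  push Not at hh
  set s := -p 3 / e 3 with hs
  have hs0 : 0 ≤ s := div_nonneg (by linarith) he3.le
  set r := p + s • e with hr
  have hr3 : r 3 = 0 := by
    rw [hr, hs]
    simp only [Pi.add_apply, Pi.smul_apply, smul_eq_mul]
    field_simp
    ring
  have hNr : N *ᵥ r = N *ᵥ p + s • (N *ᵥ e) := by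
    rw [hr, Matrix.mulVec_add, Matrix.mulVec_smul]
  have hrN : ∀ k, (N *ᵥ r) k ≤ 0 := by
    intro k
    rw [hNr]
    simp only [Pi.add_apply, Pi.smul_apply, smul_eq_mul]
    have := mul_nonpos_of_nonneg_of_nonpos hs0 (he k)
    linarith [hp k]
  have hr0 : r = 0 := by
    by_contra h0
    have := hq r hrN h0
    unfold qq at this
    rw [hr3] at this
    nlinarith [sq_nonneg (r 0), sq_nonneg (r 1), sq_nonneg (r 2)]
  rw [hr0, Matrix.mulVec_zero] at hNr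
  apply hp0
  apply hinj
  funext k
  have h1 := congrFun hNr k
  simp only [Pi.zero_apply, Pi.add_apply, Pi.smul_apply, smul_eq_mul] at h1
  have h2 := mul_nonpos_of_nonneg_of_nonpos hs0 (he k)
  have h3 := hp k
  simp only [Pi.zero_apply]
  linarith

/-- normals in standard position -/
noncomputable def Nst (a1 a2 b1 b2 t φ : ℝ) : Matrix (Fin 4) (Fin 4) ℝ :=
  !![lm b1 b2 * b1, lm b1 b2 * b2, lm b1 b2 * cosh t, -(lm b1 b2 * sinh t);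
    lm a1 a2 * a1, lm a1 a2 * a2, -lm a1 a2, 0; -sin φ, cos φ, 0, 0; 0, -1, 0, 0]

lemma Nst_gram {a1 a2 b1 b2 t φ : ℝ} (h : 0 < Qf a1 a2 b1 b2 t 0) :
    Nst a1 a2 b1 b2 t φ * Jm * (Nst a1 a2 b1 b2 t φ)ᵀ =
      Gx φ (tht a1 a2 b1 b2 t) (be1 a1 a2) (be2 a1 a2 φ) (be1 b1 b2) (be2 b1 b2 φ) := by
  have hL := lm_sq a1 a2
  have hM := lm_sq b1 b2
  have hc := cosh_sq t
  have hs := sin_sq_add_cos_sq φ
  ext i j
  unfold Gx
  rw [(cos_be1 a1 a2).1, (cos_be2 a1 a2 φ).1, (cos_be1 b1 b2).1, (cos_be2 b1 b2 φ).1,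
    (cos_tht a1 a2 b1 b2 t h).1]
  unfold Nst Jm hT
  rw [Matrix.mul_apply]
  simp only [Matrix.mul_diagonal, Matrix.transpose_apply, Fin.sum_univ_four]
  fin_cases i <;> fin_cases j <;>
    simp only [Matrix.of_apply, Matrix.cons_val, Fin.zero_eta, Fin.mk_one, Fin.reduceFinMk,
      Fin.isValue] <;> first
      | ring1
      | linear_combination hL
      | linear_combination hM + lm b1 b2 ^ 2 * hc
      | linear_combination hs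

lemma PN_Nst {a1 a2 b1 b2 t φ : ℝ} : PN (Nst a1 a2 b1 b2 t φ) = P0 a1 a2 b1 b2 t φ := by
  ext y
  unfold PN P0
  simp only [mem_setOf_eq]
  have hL := lm_pos a1 a2
  have hM := lm_pos b1 b2
  have e : ∀ k, (Nst a1 a2 b1 b2 t φ *ᵥ up y 1) k =
      ![lm b1 b2 * (b1 * y 0 + b2 * y 1 + y 2 * cosh t - sinh t), lm a1 a2 * (a1 * y 0 + a2 * y 1 - y 2),
        -(y 0 * sin φ - y 1 * cos φ), -y 1] k := by
    intro k
    unfold Nst up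
    simp only [Matrix.mulVec, dotProduct, Fin.sum_univ_four]
    fin_cases k <;> simp only [Matrix.of_apply, Matrix.cons_val, Fin.zero_eta, Fin.mk_one,
      Fin.reduceFinMk, Fin.isValue] <;> ring
  constructor
  · intro h
    have h0 := h 0
    have h1 := h 1
    have h2 := h 2
    have h3 := h 3
    rw [e] at h0 h1 h2 h3
    simp only [Matrix.cons_val] at h0 h1 h2 h3
    refine ⟨by linarith, by linarith, ?_, ?_⟩
    · by_contra hh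
      push Not at hh
      have := mul_pos hL (sub_pos.mpr hh)
      linarith
    · by_contra hh
      push Not at hh
      have := mul_pos hM (sub_pos.mpr hh)
      linarith
  · rintro ⟨h3, h2, h1, h0⟩ k
    rw [e]
    fin_cases k
    · exact mul_nonpos_of_nonneg_of_nonpos hM.le (by linarith)
    · exact mul_nonpos_of_nonneg_of_nonpos hL.le (by linarith)
    · show -(y 0 * sin φ - y 1 * cos φ) ≤ 0
      linarith
    · show -y 1 ≤ 0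
      linarith

lemma Jm_det : Jm.det = -1 := by
  unfold Jm
  rw [Matrix.det_diagonal, Fin.prod_univ_four]
  simp

lemma gram_det (N : Matrix (Fin 4) (Fin 4) ℝ) : (N * Jm * Nᵀ).det = -(N.det ^ 2) := by
  rw [Matrix.det_mul, Matrix.det_mul, Jm_det, Matrix.det_transpose]; ring

/-- the volume of the cone of any tetrahedron with given dihedral angles -/
theorem hvol_gram {φ θ β1 β2 γ1 γ2 : ℝ} (aφ : Ang φ) (aθ : Ang θ) (aβ1 : Ang β1) (aβ2 : Ang β2)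
    (aγ1 : Ang γ1) (aγ2 : Ang γ2) {N : Matrix (Fin 4) (Fin 4) ℝ} (hd : N.det ≠ 0)
    (hG : N * Jm * Nᵀ = Gx φ θ β1 β2 γ1 γ2) (hn : ∀ k l, (Gx φ θ β1 β2 γ1 γ2)⁻¹ k l < 0)
    {e : Fin 4 → ℝ} (he : ∀ k, (N *ᵥ e) k ≤ 0) (he3 : 0 < e 3) :
    ∃ a1 a2 b1 b2 t : ℝ, Std a1 a2 b1 b2 t φ ∧ be1 a1 a2 = β1 ∧ be2 a1 a2 φ = β2 ∧
      be1 b1 b2 = γ1 ∧ be2 b1 b2 φ = γ2 ∧ tht a1 a2 b1 b2 t = θ ∧
      hvol (PN N) = ∫ ψ in (0:ℝ)..φ, vv a1 a2 b1 b2 t ψ := by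
  have hdet : (Gx φ θ β1 β2 γ1 γ2).det < 0 := by
    rw [← hG, gram_det]
    have : 0 < N.det ^ 2 := by positivity
    linarith
  obtain ⟨hR, c34, c35, c36, hyp⟩ := gram_hyp aφ aθ aβ1 aβ2 aγ1 aγ2 hdet hn
  obtain ⟨a1, a2, b1, b2, t, hS, h1, h2, h3, h4, h5⟩ := exists_std hR c34 c35 c36 hyp
  refine ⟨a1, a2, b1, b2, t, hS, h1, h2, h3, h4, h5, ?_⟩
  have hG0 := Nst_gram (φ := φ) hS.s0.Q
  rw [h1, h2, h3, h4, h5] at hG0
  have hd0 : (Nst a1 a2 b1 b2 t φ).det ≠ 0 := by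
    intro h
    have h6 := gram_det (Nst a1 a2 b1 b2 t φ)
    rw [hG0, h] at h6
    rw [h6] at hdet
    norm_num at hdet
  have hT : Tim N := tim_of hd (by rw [hG]; exact hn) he he3
  have hT0 : Tim (Nst a1 a2 b1 b2 t φ) := by
    apply tim_of hd0 (by rw [hG0]; exact hn) (e := ![0, 0, 0, 1])
    · intro k
      unfold Nst
      simp only [Matrix.mulVec, dotProduct, Fin.sum_univ_four]
      have hM := lm_pos b1 b2
      have hsh := sinh_pos_iff.mpr hS.ht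
      have := mul_pos hM hsh
      fin_cases k <;> simp only [Matrix.of_apply, Matrix.cons_val, Fin.zero_eta, Fin.mk_one,
        Fin.reduceFinMk, Fin.isValue] <;> linarith
    · show (0:ℝ) < 1
      norm_num
  rw [hvol_PN hT, vol_KN_eq hd (hG.trans hG0.symm), ← hvol_PN hT0, PN_Nst, hvol_P0 hS]

end Run7.h27
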