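import Pool.Agent.Run7.h27.GeoE

/-!
# Tetrahedra in general position
-/

set_option autoImplicit false

namespace Run7.h27

open Real MeasureTheory Filter Topology Set Matrix

/-- `(a, c)` is the outward unit normal, for the Lorentz form, of the face opposite to the vertex
`k` of the tetrahedron with vertices `v` in the projective ball model: the face lies in the plane
`a · x = c` and the tetrahedron in the half-space `a · x ≤ c` -/
structure IsNormal (v : Fin 4 → Fin 3 → ℝ) (k : Fin 4) (a : Fin 3 → ℝ) (c : ℝ) : Prop where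
  unit : ∑ i, a i ^ 2 - c ^ 2 = 1
  face : ∀ m, m ≠ k → ∑ i, a i * v m i = c
  out : ∑ i, a i * v k i < c

/-- `θ i j` is the dihedral angle at the edge joining the vertices `v i` and `v j` -/
def IsDihedral (v : Fin 4 → Fin 3 → ℝ) (θ : Fin 4 → Fin 4 → ℝ) : Prop :=
  ∃ (a : Fin 4 → Fin 3 → ℝ) (c : Fin 4 → ℝ), (∀ k, IsNormal v k (a k) (c k)) ∧
    ∀ i j k l, [i, j, k, l].Nodup →
      0 < θ i j ∧ θ i j < π ∧ cos (θ i j) = -(∑ m, a k m * a l m - c k * c l)

section

variable {v : Fin 4 → Fin 3 → ℝ} {a : Fin 4 → Fin 3 → ℝ} {c : Fin 4 → ℝ}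

/-- matrix of the normals -/
def Nv (a : Fin 4 → Fin 3 → ℝ) (c : Fin 4 → ℝ) : Matrix (Fin 4) (Fin 4) ℝ :=
  Matrix.of (fun k => up (a k) (-c k))

/-- its inverse -/
noncomputable def Wv (v : Fin 4 → Fin 3 → ℝ) (a : Fin 4 → Fin 3 → ℝ) (c : Fin 4 → ℝ) :
    Matrix (Fin 4) (Fin 4) ℝ :=
  Matrix.of (fun i m => -(up (v m) 1 i) / (c m - ∑ j, a m j * v m j))

lemma up_dot (x y : Fin 3 → ℝ) (w z : ℝ) : ∑ i, up x w i * up y z i = ∑ i, x i * y i + w * z := by
  unfold up
  rw [Fin.sum_univ_four, Fin.sum_univ_three]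
  simp only [Matrix.cons_val]

lemma Nv_mulVec (y : Fin 3 → ℝ) (w : ℝ) (k : Fin 4) :
    (Nv a c *ᵥ up y w) k = ∑ i, a k i * y i - c k * w := by
  have : (Nv a c *ᵥ up y w) k = ∑ i, up (a k) (-c k) i * up y w i := rfl
  rw [this, up_dot]; ring

lemma NW (hn : ∀ k, IsNormal v k (a k) (c k)) : Nv a c * Wv v a c = 1 := by
  ext k m
  have e : (Nv a c * Wv v a c) k m = -((Nv a c *ᵥ up (v m) 1) k) / (c m - ∑ j, a m j * v m j) := by
    rw [Matrix.mul_apply]
    simp only [Matrix.mulVec, dotProduct, Wv, Matrix.of_apply]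
    rw [neg_div, Finset.sum_div, ← Finset.sum_neg_distrib]
    apply Finset.sum_congr rfl
    intro i _
    ring
  rw [e, Nv_mulVec, mul_one]
  have ho := (hn m).out
  by_cases h : k = m
  · subst h
    rw [Matrix.one_apply_eq, neg_sub]
    exact div_self (sub_pos.mpr ho).ne'
  · rw [Matrix.one_apply_ne h, (hn k).face m (fun hh => h hh.symm), sub_self, neg_zero, zero_div]

lemma WN (hn : ∀ k, IsNormal v k (a k) (c k)) : Wv v a c * Nv a c = 1 :=
  mul_eq_one_comm.mp (NW hn)

lemma Nv_det (hn : ∀ k, IsNormal v k (a k) (c k)) : (Nv a c).det ≠ 0 := by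
  have := congrArg Matrix.det (NW hn)
  rw [Matrix.det_mul, Matrix.det_one] at this
  intro h
  rw [h, zero_mul] at this
  exact zero_ne_one this

lemma gram_inv_eq (hn : ∀ k, IsNormal v k (a k) (c k)) :
    (Nv a c * Jm * (Nv a c)ᵀ)⁻¹ = (Wv v a c)ᵀ * Jm * Wv v a c := by
  apply Matrix.inv_eq_right_inv
  have h1 : (Nv a c)ᵀ * (Wv v a c)ᵀ = 1 := by
    rw [← Matrix.transpose_mul, WN hn, Matrix.transpose_one]
  calc Nv a c * Jm * (Nv a c)ᵀ * ((Wv v a c)ᵀ * Jm * Wv v a c) =
      Nv a c * Jm * ((Nv a c)ᵀ * (Wv v a c)ᵀ) * Jm * Wv v a c := by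
        simp only [Matrix.mul_assoc]
    _ = 1 := by
        rw [h1, Matrix.mul_one, Matrix.mul_assoc (Nv a c), Jm_mul, Matrix.mul_one, NW hn]

lemma gram_inv_neg (hv : ∀ k, ∑ i, v k i ^ 2 < 1) (hn : ∀ k, IsNormal v k (a k) (c k)) (k l : Fin 4) :
    (Nv a c * Jm * (Nv a c)ᵀ)⁻¹ k l < 0 := by
  rw [gram_inv_eq hn]
  have hk := sub_pos.mpr (hn k).out
  have hl := sub_pos.mpr (hn l).out
  have e : ((Wv v a c)ᵀ * Jm * Wv v a c) k l =
      (∑ i, v k i * v l i - 1) / ((c k - ∑ j, a k j * v k j) * (c l - ∑ j, a l j * v l j)) := by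
    unfold Jm
    rw [Matrix.mul_apply]
    simp only [Matrix.mul_diagonal, Matrix.transpose_apply, Fin.sum_univ_four, Wv, Matrix.of_apply,
      Matrix.cons_val, up]
    rw [Fin.sum_univ_three (f := fun i => v k i * v l i)]
    generalize c k - ∑ j, a k j * v k j = x at *
    generalize c l - ∑ j, a l j * v l j = y at *
    field_simp
    ring
  rw [e]
  apply div_neg_of_neg_of_pos _ (mul_pos hk hl)
  have h1 := hv k
  have h2 := hv l
  rw [Fin.sum_univ_three] at *
  nlinarith [sq_nonneg (v k 0 - v l 0), sq_nonneg (v k 1 - v l 1), sq_nonneg (v k 2 - v l 2)]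

lemma PN_Nv (hn : ∀ k, IsNormal v k (a k) (c k)) : PN (Nv a c) = convexHull ℝ (range v) := by
  apply Subset.antisymm
  · intro y hy
    set lam : Fin 4 → ℝ := fun k => -((Nv a c *ᵥ up y 1) k) / (c k - ∑ j, a k j * v k j) with hlam
    have hpos : ∀ k, 0 ≤ lam k := by
      intro k
      apply div_nonneg _ (sub_pos.mpr (hn k).out).le
      linarith [hy k]
    have hW : Wv v a c *ᵥ (Nv a c *ᵥ up y 1) = up y 1 := by
      rw [Matrix.mulVec_mulVec, WN hn, Matrix.one_mulVec]
    have hcomp : ∀ i, up y 1 i = ∑ k, lam k * up (v k) 1 i := by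
      intro i
      rw [← congrFun hW i]
      simp only [Matrix.mulVec, dotProduct, Wv, Matrix.of_apply, hlam]
      apply Finset.sum_congr rfl
      intro k _
      ring
    have hsum : ∑ k, lam k = 1 := by
      have := hcomp 3
      have e1 : up y 1 3 = 1 := rfl
      have e2 : ∀ k, up (v k) 1 3 = 1 := fun _ => rfl
      rw [e1] at this
      simp only [e2, mul_one] at this
      exact this.symm
    have hy' : y = ∑ k, lam k • v k := by
      funext i
      rw [Finset.sum_apply]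
      simp only [Pi.smul_apply, smul_eq_mul]
      fin_cases i
      · exact hcomp 0
      · exact hcomp 1
      · exact hcomp 2
    rw [hy']
    exact (convex_convexHull ℝ (range v)).sum_mem (fun i _ => hpos i) hsum
      (fun i _ => subset_convexHull ℝ _ (mem_range_self i))
  · apply convexHull_min
    · rintro _ ⟨m, rfl⟩ k
      rw [Nv_mulVec, mul_one]
      by_cases h : m = k
      · subst h
        linarith [(hn m).out]
      · rw [(hn k).face m h]
        linarith
    · intro x hx y hy s t hs ht hst k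
      have h1 := hx k
      have h2 := hy k
      rw [Nv_mulVec, mul_one] at *
      have e : ∑ i, a k i * (s • x + t • y) i = s * ∑ i, a k i * x i + t * ∑ i, a k i * y i := by
        simp only [Pi.add_apply, Pi.smul_apply, smul_eq_mul, Fin.sum_univ_three]
        ring
      rw [e]
      have h3 := mul_nonpos_of_nonneg_of_nonpos hs h1
      have h4 := mul_nonpos_of_nonneg_of_nonpos ht h2
      have : c k = s * c k + t * c k := by rw [← add_mul, hst, one_mul]
      linarith

end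

/-- volume and standard parameters of a general tetrahedron -/
theorem tetra_data {v : Fin 4 → Fin 3 → ℝ} {θ : Fin 4 → Fin 4 → ℝ} (hv : ∀ k, ∑ i, v k i ^ 2 < 1)
    (hθ : IsDihedral v θ) :
    ∃ a1 a2 b1 b2 t : ℝ, Std a1 a2 b1 b2 t (θ 0 1) ∧ be1 a1 a2 = θ 0 2 ∧ be2 a1 a2 (θ 0 1) = θ 0 3 ∧
      be1 b1 b2 = θ 1 2 ∧ be2 b1 b2 (θ 0 1) = θ 1 3 ∧ tht a1 a2 b1 b2 t = θ 2 3 ∧
      hvol (convexHull ℝ (range v)) = ∫ ψ in (0:ℝ)..(θ 0 1), vv a1 a2 b1 b2 t ψ := by
  obtain ⟨a, c, hn, hc⟩ := hθ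
  have g01 := hc 0 1 2 3 (by decide)
  have g02 := hc 0 2 1 3 (by decide)
  have g03 := hc 0 3 1 2 (by decide)
  have g12 := hc 1 2 0 3 (by decide)
  have g13 := hc 1 3 0 2 (by decide)
  have g23 := hc 2 3 0 1 (by decide)
  have hG : Nv a c * Jm * (Nv a c)ᵀ = Gx (θ 0 1) (θ 2 3) (θ 0 2) (θ 0 3) (θ 1 2) (θ 1 3) := by
    have e : ∀ k l, (Nv a c * Jm * (Nv a c)ᵀ) k l = ∑ m, a k m * a l m - c k * c l := by
      intro k l
      unfold Jm
      rw [Matrix.mul_apply]
      simp only [Matrix.mul_diagonal, Matrix.transpose_apply, Fin.sum_univ_four, Nv, Matrix.of_apply,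
        Matrix.cons_val, up]
      rw [Fin.sum_univ_three (f := fun m => a k m * a l m)]
      ring
    have hu : ∀ k, ∑ m, a k m * a k m - c k * c k = 1 := by
      intro k
      rw [← (hn k).unit]
      simp only [sq]
    have hsym : ∀ k l, ∑ m, a k m * a l m - c k * c l = ∑ m, a l m * a k m - c l * c k := by
      intro k l
      rw [mul_comm (c k)]
      congr 1
      apply Finset.sum_congr rfl
      intro m _
      ring
    ext k l
    rw [e]
    have s10 := hsym 1 0
    have s20 := hsym 2 0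
    have s30 := hsym 3 0
    have s21 := hsym 2 1
    have s31 := hsym 3 1
    have s32 := hsym 3 2
    unfold Gx
    fin_cases k <;> fin_cases l <;>
      simp only [Matrix.of_apply, Matrix.cons_val, Fin.zero_eta, Fin.mk_one,
      Fin.reduceFinMk, Fin.isValue] <;>
      first
      | exact hu _
      | linarith [g01.2.2, g02.2.2, g03.2.2, g12.2.2, g13.2.2, g23.2.2]
  have := hvol_gram ⟨g01.1, g01.2.1⟩ ⟨g23.1, g23.2.1⟩ ⟨g02.1, g02.2.1⟩ ⟨g03.1, g03.2.1⟩
    ⟨g12.1, g12.2.1⟩ ⟨g13.1, g13.2.1⟩ (Nv_det hn) hG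
    (fun k l => by rw [← hG]; exact gram_inv_neg hv hn k l) (e := up (v 0) 1)
    (fun k => by
      rw [Nv_mulVec, mul_one]
      by_cases h : 0 = k
      · subst h
        linarith [(hn 0).out]
      · rw [(hn k).face 0 h]
        linarith)
    (by show (0:ℝ) < 1; norm_num)
  rwa [PN_Nv hn] at this

end Run7.h27
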