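import Pool.Agent.Run7.h27.Grow

/-!
# Growth of the symmetric sum, second part: uniform asymptotics of the exponent
-/

set_option autoImplicit false

namespace Run7.h27

open Real Finset Filter Topology

/-- odd integers going to infinity -/
def oddTop : Filter ℕ := atTop ⊓ 𝓟 {r | Odd r}

lemma ev_of_ge {p : ℕ → Prop} (R : ℕ) (h : ∀ r, R ≤ r → Odd r → p r) : ∀ᶠ r in oddTop, p r := by
  unfold oddTop
  rw [eventually_inf_principal]
  filter_upwards [eventually_ge_atTop R] with r hr hodd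
  exact h r hr hodd

lemma oddTop_le : oddTop ≤ atTop := inf_le_left

instance oddTop_neBot : NeBot oddTop := by
  unfold oddTop
  rw [Filter.inf_principal_neBot_iff]
  intro U hU
  rw [mem_atTop_sets] at hU
  obtain ⟨a, ha⟩ := hU
  exact ⟨2 * a + 1, ha _ (by omega), ⟨a, rfl⟩⟩

/-- `F4` only depends, up to `24 ε`, on its arguments up to `δ`. -/
lemma F4_close {ε δ : ℝ} (h : ∀ x y : ℝ, |x - y| < δ → |Lob x - Lob y| < ε)
    {t q t' q' : Fin 4 → ℝ} {x x' : ℝ}
    (h1 : ∀ i, |(x - t i) - (x' - t' i)| < δ) (h2 : ∀ i, |(q i - x) - (q' i - x')| < δ)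
    (h3 : ∀ i j, |(q j - t i) - (q' j - t' i)| < δ) :
    |F4 t q x - F4 t' q' x'| ≤ 16 * ε := by
  unfold F4
  have a : |∑ i, (Lob (x - t i) + Lob (q i - x)) - ∑ i, (Lob (x' - t' i) + Lob (q' i - x'))| ≤ 8 * ε := by
    rw [← sum_sub_distrib]
    calc _ ≤ ∑ i : Fin 4, |Lob (x - t i) + Lob (q i - x) - (Lob (x' - t' i) + Lob (q' i - x'))| :=
          abs_sum_le_sum_abs _ _
      _ ≤ ∑ i : Fin 4, (ε + ε) := by
          apply sum_le_sum
          intro i _
          have e1 := (h _ _ (h1 i))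
          have e2 := (h _ _ (h2 i))
          rw [abs_lt] at e1 e2
          rw [abs_le]
          constructor <;> linarith
      _ = 8 * ε := by simp; ring
  have b : |∑ i, ∑ j, Lob (q j - t i) - ∑ i, ∑ j, Lob (q' j - t' i)| ≤ 16 * ε := by
    rw [← sum_sub_distrib]
    calc _ ≤ ∑ i : Fin 4, |∑ j, Lob (q j - t i) - ∑ j, Lob (q' j - t' i)| :=
          abs_sum_le_sum_abs _ _
      _ ≤ ∑ i : Fin 4, (4 * ε) := by
          apply sum_le_sum
          intro i _
          rw [← sum_sub_distrib]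
          calc _ ≤ ∑ j : Fin 4, |Lob (q j - t i) - Lob (q' j - t' i)| := abs_sum_le_sum_abs _ _
            _ ≤ ∑ j : Fin 4, ε := by
                apply sum_le_sum
                intro j _
                exact (h _ _ (h3 i j)).le
            _ = 4 * ε := by simp
      _ = 16 * ε := by simp; ring
  rw [abs_le] at a b ⊢
  constructor <;> linarith

lemma LZ_asymp {ε : ℝ} (hε : 0 < ε) :
    ∃ R : ℕ, 3 ≤ R ∧ ∀ r : ℕ, R ≤ r → Odd r → ∀ n : ℤ, 0 ≤ n → n < r →
      |2 * π / r * LZ r n + Lob (2 * π / r * n)| ≤ ε := by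
  obtain ⟨R, hR, h⟩ := LL_asymp hε
  refine ⟨R, hR, ?_⟩
  intro r hr hodd n h0 hn
  have h1 := h r hr hodd n.toNat (by omega)
  unfold LZ
  have e : ((n.toNat : ℕ) : ℝ) = (n : ℝ) := by
    have : ((n.toNat : ℕ) : ℤ) = n := Int.toNat_of_nonneg h0
    exact_mod_cast congrArg (fun z : ℤ => (z:ℝ)) this
  rwa [e] at h1

lemma Good.range {r : ℕ} {T Q : Fin 4 → ℤ} (hG : Good r T Q) {z : ℤ} (hz : InR T Q z) (i : Fin 4) :
    (0 ≤ z - T i ∧ z - T i < r) ∧ (0 ≤ Q i - z ∧ Q i - z < r) := by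
  have h0 := (hz 0).2
  have hT := hG.T0 0
  have hz0 := (hz 0).1
  rw [hG.Q0] at h0
  have hi := hz i
  have hTi := hG.T0 i
  have hQi : Q i - z < r := by
    by_cases h : i = 0
    · subst h; rw [hG.Q0]; omega
    · have := hG.small 0 i h
      omega
  refine ⟨⟨by omega, by omega⟩, ⟨by omega, by omega⟩⟩

lemma Good.range2 {r : ℕ} {T Q : Fin 4 → ℤ} (hG : Good r T Q) (i j : Fin 4) :
    0 ≤ Q j - T i ∧ Q j - T i < r := by
  have h1 := hG.le i j
  have hTi := hG.T0 i
  refine ⟨by omega, ?_⟩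
  by_cases h : j = 0
  · subst h; rw [hG.Q0]; omega
  · have := hG.small i j h
    omega

/-- the exponent in terms of `F4` -/
lemma gz_close {r : ℕ} {T Q : Fin 4 → ℤ} {ε : ℝ} (hG : Good r T Q)
    (h : ∀ n : ℤ, 0 ≤ n → n < r → |2 * π / r * LZ r n + Lob (2 * π / r * n)| ≤ ε)
    {z : ℤ} (hz : InR T Q z) :
    |gz r T Q z - F4 (fun i => 2 * π / r * T i) (fun i => 2 * π / r * Q i) (2 * π / r * z)| ≤ 16 * ε := by
  unfold gz F4
  have a : |2 * π / r * (∑ i, (LZ r (z - T i) + LZ r (Q i - z))) +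
      ∑ i, (Lob (2 * π / r * z - 2 * π / r * T i) + Lob (2 * π / r * Q i - 2 * π / r * z))| ≤ 8 * ε := by
    rw [mul_sum, ← sum_add_distrib]
    calc _ ≤ ∑ i : Fin 4, |2 * π / r * (LZ r (z - T i) + LZ r (Q i - z)) +
            (Lob (2 * π / r * z - 2 * π / r * T i) + Lob (2 * π / r * Q i - 2 * π / r * z))| :=
          abs_sum_le_sum_abs _ _
      _ ≤ ∑ i : Fin 4, (ε + ε) := by
          apply sum_le_sum
          intro i _
          obtain ⟨⟨a1, a2⟩, ⟨a3, a4⟩⟩ := hG.range hz i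
          have e1 := h _ a1 a2
          have e2 := h _ a3 a4
          push_cast at e1 e2
          rw [mul_sub] at e1 e2
          rw [abs_le] at e1 e2 ⊢
          constructor <;> linarith
      _ = 8 * ε := by simp; ring
  have b : |2 * π / r * (∑ i, ∑ j, LZ r (Q j - T i)) +
      ∑ i, ∑ j, Lob (2 * π / r * Q j - 2 * π / r * T i)| ≤ 16 * ε := by
    rw [mul_sum, ← sum_add_distrib]
    calc _ ≤ ∑ i : Fin 4, |2 * π / r * (∑ j, LZ r (Q j - T i)) +
            ∑ j, Lob (2 * π / r * Q j - 2 * π / r * T i)| :=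
          abs_sum_le_sum_abs _ _
      _ ≤ ∑ i : Fin 4, (4 * ε) := by
          apply sum_le_sum
          intro i _
          rw [mul_sum, ← sum_add_distrib]
          calc _ ≤ ∑ j : Fin 4, |2 * π / r * LZ r (Q j - T i) +
                    Lob (2 * π / r * Q j - 2 * π / r * T i)| := abs_sum_le_sum_abs _ _
            _ ≤ ∑ j : Fin 4, ε := by
                apply sum_le_sum
                intro j _
                obtain ⟨a1, a2⟩ := hG.range2 i j
                have e1 := h _ a1 a2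
                push_cast at e1
                rwa [mul_sub] at e1
            _ = 4 * ε := by simp
      _ = 16 * ε := by simp; ring
  rw [mul_sub]
  rw [show 2 * π / r * (1 / 2 * ∑ i, ∑ j, LZ r (Q j - T i)) =
    1 / 2 * (2 * π / r * ∑ i, ∑ j, LZ r (Q j - T i)) by ring]
  rw [abs_le] at a b ⊢
  constructor <;> linarith

/-- hypotheses on the sequences -/
structure Lim (T Q : ℕ → Fin 4 → ℤ) (t q : Fin 4 → ℝ) : Prop where
  good : ∀ᶠ r in oddTop, Good r (T r) (Q r)
  hT : ∀ i, Tendsto (fun r : ℕ => 2 * π / r * T r i) oddTop (𝓝 (t i))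
  hQ : ∀ i, Tendsto (fun r : ℕ => 2 * π / r * Q r i) oddTop (𝓝 (q i))

lemma Lim.ev {T Q : ℕ → Fin 4 → ℤ} {t q : Fin 4 → ℝ} (h : Lim T Q t q) {δ : ℝ} (hδ : 0 < δ) :
    ∀ᶠ r in oddTop, ∀ i, |2 * π / r * T r i - t i| < δ ∧ |2 * π / r * Q r i - q i| < δ := by
  rw [eventually_all]
  intro i
  have h1 := (Metric.tendsto_nhds.mp (h.hT i)) δ hδ
  have h2 := (Metric.tendsto_nhds.mp (h.hQ i)) δ hδ
  filter_upwards [h1, h2] with r a b
  rw [Real.dist_eq] at a b
  exact ⟨a, b⟩

/-- uniform comparison of the exponent with the limiting potential at a nearby point -/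
lemma gz_unif {T Q : ℕ → Fin 4 → ℤ} {t q : Fin 4 → ℝ} (h : Lim T Q t q) {ε : ℝ} (hε : 0 < ε) :
    ∃ δ > 0, ∀ᶠ r in oddTop, ∀ z, InR (T r) (Q r) z → ∀ x', |2 * π / r * z - x'| < δ →
      |gz r (T r) (Q r) z - F4 t q x'| ≤ ε := by
  obtain ⟨δ, hδ, hL⟩ := Lob_unif (show 0 < ε / 32 by positivity)
  obtain ⟨R, hR, hA⟩ := LZ_asymp (show 0 < ε / 32 by positivity)
  refine ⟨δ / 2, by positivity, ?_⟩
  filter_upwards [h.good, h.ev (show 0 < δ / 2 by positivity), ev_of_ge R hA] with r hG hd hAr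
  intro z hz x' hx'
  have h1 := gz_close hG hAr hz
  have h2 := F4_close hL (t := fun i => 2 * π / r * T r i) (q := fun i => 2 * π / r * Q r i)
    (t' := t) (q' := q) (x := 2 * π / r * z) (x' := x')
    (by
      intro i
      have := (hd i).1
      rw [abs_lt] at this hx' ⊢
      constructor <;> linarith)
    (by
      intro i
      have := (hd i).2
      rw [abs_lt] at this hx' ⊢
      constructor <;> linarith)
    (by
      intro i j
      have a := (hd i).1
      have b := (hd j).2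
      rw [abs_lt] at a b ⊢
      constructor <;> linarith)
  rw [abs_le] at h1 h2 ⊢
  constructor <;> linarith

lemma F4_cont (t q : Fin 4 → ℝ) : Continuous (F4 t q) := by
  unfold F4
  have := Lob_cont
  fun_prop

/-- the limit range -/
lemma clamp {T Q : ℕ → Fin 4 → ℤ} {t q : Fin 4 → ℝ} (h : Lim T Q t q) (htq : ∀ i j, t i ≤ q j)
    {δ : ℝ} (hδ : 0 < δ) :
    ∀ᶠ r in oddTop, ∀ z, InR (T r) (Q r) z → ∃ x', |2 * π / r * z - x'| < δ ∧
      (∀ i, t i ≤ x') ∧ (∀ i, x' ≤ q i) ∧ (∀ s, 2 * π / r * z ≤ s → (∀ i, t i ≤ s) → x' ≤ s) := by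
  obtain ⟨i0, hi0⟩ := Finite.exists_max t
  obtain ⟨j0, hj0⟩ := Finite.exists_min q
  filter_upwards [h.ev hδ, h.good] with r hd hG
  intro z hz
  have hr : (0:ℝ) < 2 * π / r := by
    have : 0 < r := by have := hG.r3; omega
    have : (0:ℝ) < r := by exact_mod_cast this
    positivity
  have h1 : 2 * π / r * T r i0 ≤ 2 * π / r * z :=
    mul_le_mul_of_nonneg_left (by exact_mod_cast (hz i0).1) hr.le
  have h2 : 2 * π / r * z ≤ 2 * π / r * Q r j0 :=
    mul_le_mul_of_nonneg_left (by exact_mod_cast (hz j0).2) hr.le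
  have d1 := (hd i0).1
  have d2 := (hd j0).2
  rw [abs_lt] at d1 d2
  set x := 2 * π / r * z
  rcases lt_or_ge x (t i0) with hx | hx
  · refine ⟨t i0, ?_, hi0, fun i => htq i0 i, fun s _ hs => hs i0⟩
    rw [abs_lt]; constructor <;> linarith
  · rcases lt_or_ge (q j0) x with hx2 | hx2
    · refine ⟨q j0, ?_, fun i => htq i j0, hj0, fun s hs _ => by linarith⟩
      rw [abs_lt]; constructor <;> linarith
    · refine ⟨x, by simpa using hδ, fun i => (hi0 i).trans hx, fun i => hx2.trans (hj0 i),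
        fun s hs _ => hs⟩

/-- upper bound for the exponent -/
lemma gz_upper {T Q : ℕ → Fin 4 → ℤ} {t q : Fin 4 → ℝ} {V : ℝ} (h : Lim T Q t q)
    (htq : ∀ i j, t i ≤ q j)
    (H1 : ∀ x, (∀ i, t i ≤ x) → (∀ i, x ≤ q i) → F4 t q x ≤ V) {ε : ℝ} (hε : 0 < ε) :
    ∀ᶠ r in oddTop, ∀ z, InR (T r) (Q r) z → gz r (T r) (Q r) z ≤ V + ε := by
  obtain ⟨δ, hδ, hu⟩ := gz_unif h hε
  filter_upwards [hu, clamp h htq hδ] with r h1 h2
  intro z hz
  obtain ⟨x', hx', hx1, hx2, _⟩ := h2 z hz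
  have := h1 z hz x' hx'
  rw [abs_le] at this
  have h3 := H1 x' hx1 hx2
  linarith

/-- upper bound for the exponent in the alternating region -/
lemma gz_alt {T Q : ℕ → Fin 4 → ℤ} {t q : Fin 4 → ℝ} {V : ℝ} (h : Lim T Q t q)
    (htq : ∀ i j, t i ≤ q j) (htp : ∀ i, t i ≤ π)
    (H3 : ∀ x, (∀ i, t i ≤ x) → (∀ i, x ≤ q i) → x ≤ π → F4 t q x < V) :
    ∃ η > 0, ∀ᶠ r in oddTop, ∀ z, InR (T r) (Q r) z → 2 * z < (r:ℤ) - 3 →
      gz r (T r) (Q r) z ≤ V - η := by
  -- compactness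
  obtain ⟨η, hη, hV⟩ : ∃ η > 0, ∀ x, (∀ i, t i ≤ x) → (∀ i, x ≤ q i) → x ≤ π → F4 t q x ≤ V - η := by
    set K : Set ℝ := {x | (∀ i, t i ≤ x) ∧ (∀ i, x ≤ q i) ∧ x ≤ π} with hK
    rcases K.eq_empty_or_nonempty with hE | hE
    · refine ⟨1, one_pos, ?_⟩
      intro x h1 h2 h3
      exfalso
      have : x ∈ K := ⟨h1, h2, h3⟩
      rw [hE] at this
      exact this
    · have hKc : IsCompact K := by
        apply Metric.isCompact_of_isClosed_isBounded
        · rw [hK]
          simp only [Set.setOf_and]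
          apply IsClosed.inter
          · rw [Set.setOf_forall]
            exact isClosed_iInter (fun i => isClosed_le continuous_const continuous_id)
          apply IsClosed.inter
          · rw [Set.setOf_forall]
            exact isClosed_iInter (fun i => isClosed_le continuous_id continuous_const)
          · exact isClosed_le continuous_id continuous_const
        · apply (Metric.isBounded_Icc (t 0) π).subset
          intro x hx
          exact ⟨hx.1 0, hx.2.2⟩
      obtain ⟨x0, hx0, hmax⟩ := hKc.exists_isMaxOn hE (F4_cont t q).continuousOn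
      have h0 := H3 x0 hx0.1 hx0.2.1 hx0.2.2
      refine ⟨V - F4 t q x0, by linarith, ?_⟩
      intro x h1 h2 h3
      have := hmax (show x ∈ K from ⟨h1, h2, h3⟩)
      simp only [Set.mem_setOf_eq] at this
      linarith
  refine ⟨η / 2, by positivity, ?_⟩
  obtain ⟨δ, hδ, hu⟩ := gz_unif h (show 0 < η / 2 by positivity)
  filter_upwards [hu, clamp h htq hδ, h.good] with r h1 h2 hG
  intro z hz hzr
  obtain ⟨x', hx', hx1, hx2, hx3⟩ := h2 z hz
  have := h1 z hz x' hx'
  rw [abs_le] at this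
  have hr : (0:ℝ) < r := by
    have : 0 < r := by have := hG.r3; omega
    exact_mod_cast this
  have hzp : 2 * π / r * z ≤ π := by
    have h4 : (2:ℝ) * z ≤ r := by
      have : 2 * z ≤ (r:ℤ) := by omega
      exact_mod_cast this
    rw [div_mul_eq_mul_div, div_le_iff₀ hr]
    nlinarith [pi_pos]
  have h3 := hV x' hx1 hx2 (hx3 π hzp htp)
  linarith

/-- a point where the exponent is large -/
lemma gz_lower {T Q : ℕ → Fin 4 → ℤ} {t q : Fin 4 → ℝ} (h : Lim T Q t q) {x0 : ℝ}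
    (hx1 : ∀ i, t i < x0) (hx2 : ∀ i, x0 < q i) (hx3 : π < x0) {ε : ℝ} (hε : 0 < ε) :
    ∀ᶠ r in oddTop, ∃ z, InR (T r) (Q r) z ∧ (r:ℤ) - 3 ≤ 2 * z ∧
      F4 t q x0 - ε ≤ gz r (T r) (Q r) z := by
  obtain ⟨δ, hδ, hu⟩ := gz_unif h hε
  obtain ⟨i0, hi0⟩ := Finite.exists_max t
  obtain ⟨j0, hj0⟩ := Finite.exists_min q
  obtain ⟨d, hd, hd1, hd2, hd3, hd4⟩ : ∃ d > 0, d ≤ δ ∧ t i0 + 2 * d ≤ x0 ∧ x0 + 2 * d ≤ q j0 ∧ π + 2 * d ≤ x0 := by
    have a1 := hx1 i0
    have a2 := hx2 j0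
    refine ⟨min (min δ ((x0 - t i0) / 2)) (min ((q j0 - x0) / 2) ((x0 - π) / 2)), ?_, ?_, ?_, ?_, ?_⟩
    · refine lt_min (lt_min hδ (by linarith)) (lt_min (by linarith) (by linarith))
    · exact (min_le_left _ _).trans (min_le_left _ _)
    · have := (min_le_left (min δ ((x0 - t i0) / 2)) (min ((q j0 - x0) / 2) ((x0 - π) / 2))).trans (min_le_right _ _)
      linarith
    · have := (min_le_right (min δ ((x0 - t i0) / 2)) (min ((q j0 - x0) / 2) ((x0 - π) / 2))).trans (min_le_left _ _)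
      linarith
    · have := (min_le_right (min δ ((x0 - t i0) / 2)) (min ((q j0 - x0) / 2) ((x0 - π) / 2))).trans (min_le_right _ _)
      linarith
  have hbig : ∀ᶠ r in oddTop, 2 * π / (r:ℕ) < d := by
    have : Tendsto (fun r : ℕ => 2 * π / (r:ℝ)) oddTop (𝓝 0) :=
      (tendsto_const_div_atTop_nhds_zero_nat (2 * π)).mono_left oddTop_le
    exact this.eventually_lt_const hd
  filter_upwards [hu, h.ev hd, h.good, hbig] with r h1 h2 hG h3
  have hr : (0:ℝ) < r := by
    have : 0 < r := by have := hG.r3; omega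
    exact_mod_cast this
  have hpr : (0:ℝ) < 2 * π / r := by positivity
  obtain ⟨z, z1, z2⟩ : ∃ z : ℤ, 2 * π / r * (z:ℝ) ≤ x0 ∧ x0 < 2 * π / r * (z:ℝ) + 2 * π / r := by
    refine ⟨⌊x0 / (2 * π / r)⌋, ?_, ?_⟩
    · have := Int.floor_le (x0 / (2 * π / r))
      rw [le_div_iff₀ hpr] at this
      linarith
    · have := Int.lt_floor_add_one (x0 / (2 * π / r))
      rw [div_lt_iff₀ hpr] at this
      linarith
  have hin : InR (T r) (Q r) z := by
    intro i
    have e1 := (h2 i).1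
    have e2 := (h2 i).2
    have e3 := hi0 i
    have e4 := hj0 i
    rw [abs_lt] at e1 e2
    constructor
    · have : 2 * π / r * (T r i : ℝ) < 2 * π / r * z := by linarith
      have := lt_of_mul_lt_mul_left this hpr.le
      exact_mod_cast this.le
    · have : 2 * π / r * (z : ℝ) < 2 * π / r * Q r i := by linarith
      have := lt_of_mul_lt_mul_left this hpr.le
      exact_mod_cast this.le
  refine ⟨z, hin, ?_, ?_⟩
  · have : π < 2 * π / r * z := by linarith
    rw [div_mul_eq_mul_div, lt_div_iff₀ hr] at this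
    have h5 : (r:ℝ) < 2 * z := by nlinarith [pi_pos]
    have h6 : (r:ℤ) < 2 * z := by exact_mod_cast h5
    omega
  · have := h1 z hin x0 (by rw [abs_lt]; constructor <;> linarith)
    rw [abs_le] at this
    linarith

end Run7.h27
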