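import Pool.Agent.Run7.h27.Sym

/-!
# The bracket of a tetrahedron in symmetric form
-/

set_option autoImplicit false

namespace Run7.h27

open Real Finset

/-- integer version of the triangle sums -/
def TZ (c : Fin 4 → Fin 4 → ℕ) (i : Fin 4) : ℤ := triSum c i

/-- integer version of the quadrilateral sums, with `r - 2` in place `0` -/
def QZ (r : ℕ) (c : Fin 4 → Fin 4 → ℕ) : Fin 4 → ℤ :=
  ![(r:ℤ) - 2, quadSum c 0, quadSum c 1, quadSum c 2]

/-- numerical consequences of admissibility -/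
structure Num (r : ℕ) (c : Fin 4 → Fin 4 → ℕ) : Prop where
  r3 : 3 ≤ r
  t0 : 2 * triSum c 0 = c 0 1 + c 0 2 + c 0 3
  t1 : 2 * triSum c 1 = c 0 1 + c 1 2 + c 1 3
  t2 : 2 * triSum c 2 = c 0 2 + c 1 2 + c 2 3
  t3 : 2 * triSum c 3 = c 0 3 + c 1 3 + c 2 3
  q0 : 2 * quadSum c 0 = c 0 2 + c 0 3 + c 1 2 + c 1 3
  q1 : 2 * quadSum c 1 = c 0 1 + c 0 3 + c 1 2 + c 2 3
  q2 : 2 * quadSum c 2 = c 0 1 + c 0 2 + c 1 3 + c 2 3
  h0 : c 0 1 ≤ triSum c 0 ∧ c 0 2 ≤ triSum c 0 ∧ c 0 3 ≤ triSum c 0 ∧ triSum c 0 + 2 ≤ r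
  h1 : c 0 1 ≤ triSum c 1 ∧ c 1 2 ≤ triSum c 1 ∧ c 1 3 ≤ triSum c 1 ∧ triSum c 1 + 2 ≤ r
  h2 : c 0 2 ≤ triSum c 2 ∧ c 1 2 ≤ triSum c 2 ∧ c 2 3 ≤ triSum c 2 ∧ triSum c 2 + 2 ≤ r
  h3 : c 0 3 ≤ triSum c 3 ∧ c 1 3 ≤ triSum c 3 ∧ c 2 3 ≤ triSum c 3 ∧ triSum c 3 + 2 ≤ r

lemma AdmColoring.num {r : ℕ} {c : Fin 4 → Fin 4 → ℕ} (hr3 : 3 ≤ r) (h : AdmColoring r c) :
    Num r c := by
  obtain ⟨hs, h⟩ := h
  have a0 := h 0 1 2 3 (by decide) (by decide) (by decide) (by decide) (by decide) (by decide)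
  have a1 := h 1 0 2 3 (by decide) (by decide) (by decide) (by decide) (by decide) (by decide)
  have a2 := h 2 0 1 3 (by decide) (by decide) (by decide) (by decide) (by decide) (by decide)
  have a3 := h 3 0 1 2 (by decide) (by decide) (by decide) (by decide) (by decide) (by decide)
  rw [hs 1 0] at a1
  rw [hs 2 0, hs 2 1] at a2
  rw [hs 3 0, hs 3 1, hs 3 2] at a3
  unfold AdmTriple at a0 a1 a2 a3
  rw [Nat.even_iff] at a0 a1 a2 a3
  refine ⟨hr3, ?_, ?_, ?_, ?_, ?_, ?_, ?_, ?_, ?_, ?_, ?_⟩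
  all_goals simp only [triSum, quadSum, Matrix.cons_val]
  all_goals omega

/-- logarithm of the modulus of the quantum factorial -/
noncomputable def lam (r n : ℕ) : ℝ := LL r n - n * Real.log (s1 r)

lemma norm_qfact {r n : ℕ} (hr : Odd r) (hr3 : 3 ≤ r) (hn : n < r) : ‖qfact r n‖ = exp (lam r n) := by
  rw [qfact_eq, Complex.norm_real, Real.norm_eq_abs, abs_div, abs_sg hr hr3 hn, abs_pow,
    abs_of_pos (s1_pos hr3), lam, exp_sub, mul_comm (n:ℝ), Real.exp_mul, Real.exp_log (s1_pos hr3),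
    Real.rpow_natCast]

lemma sqrt_exp (x : ℝ) : Real.sqrt (exp x) = exp (x / 2) := by
  rw [Real.exp_half]

lemma norm_theta {r a b c T : ℕ} (hr : Odd r) (hr3 : 3 ≤ r) (hT : 2 * T = a + b + c)
    (ha : a ≤ T) (hb : b ≤ T) (hc : c ≤ T) (hTr : T + 2 ≤ r) :
    Real.sqrt ‖thetaNet r a b c‖ = exp ((lam r (T + 1) + lam r (T - a) + lam r (T - b) +
      lam r (T - c) - lam r a - lam r b - lam r c) / 2) := by
  have e : (a + b + c) / 2 = T := by omega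
  unfold thetaNet
  rw [e]
  rw [norm_div, norm_mul, norm_pow, norm_neg, norm_one, one_pow, one_mul, norm_mul, norm_mul,
    norm_mul, norm_mul, norm_mul, norm_qfact hr hr3 (by omega), norm_qfact hr hr3 (by omega),
    norm_qfact hr hr3 (by omega), norm_qfact hr hr3 (by omega), norm_qfact hr hr3 (by omega),
    norm_qfact hr hr3 (by omega), norm_qfact hr hr3 (by omega)]
  rw [← exp_add, ← exp_add, ← exp_add, ← exp_add, ← exp_add, ← exp_sub, sqrt_exp]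
  congr 1
  ring

end Run7.h27
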