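import Pool.Agent.Run7.h27.KL

/-!
# The bracket of a tetrahedron in symmetric form, second part
-/

set_option autoImplicit false

namespace Run7.h27

open Real Finset

/-- index set of the sum -/
def idx (c : Fin 4 → Fin 4 → ℕ) : Finset ℕ :=
  {z ∈ range (quadSum c 0 + 1) | (∀ i, triSum c i ≤ z) ∧ ∀ j, z ≤ quadSum c j}

lemma isf_of_nonneg {r : ℕ} {n : ℕ} : isf r (n : ℤ) = (sg r n)⁻¹ := by
  unfold isf; simp

lemma isf_sub {r : ℕ} {a b : ℕ} (h : b ≤ a) : isf r ((a : ℤ) - b) = (sg r (a - b))⁻¹ := by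
  rw [← Nat.cast_sub h, isf_of_nonneg]

lemma Ssym_eq {r : ℕ} {c : Fin 4 → Fin 4 → ℕ} (hr : Odd r) (hN : Num r c) :
    Ssym r (TZ c) (QZ r c) = ∑ z ∈ idx c,
      isf r ((r:ℤ) - 2 - z) * ((∏ i : Fin 4, sg r (z - triSum c i)) *
        ∏ j : Fin 3, sg r (quadSum c j - z))⁻¹ := by
  unfold Ssym
  have hsub : Function.support (fun z : ℤ => ∏ i, (isf r (z - TZ c i) * isf r (QZ r c i - z))) ⊆
      ((idx c).map Nat.castEmbedding : Finset ℤ) := by
    intro z hz
    rw [Function.mem_support, prod_ne_zero_iff] at hz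
    have h0 := hz 0 (mem_univ _)
    have h1 := hz 1 (mem_univ _)
    have h2 := hz 2 (mem_univ _)
    have h3 := hz 3 (mem_univ _)
    have key : ∀ n : ℤ, isf r n ≠ 0 → 0 ≤ n := by
      intro n hn
      by_contra hneg
      exact hn (by simp [isf, hneg])
    have a0 := key _ (left_ne_zero_of_mul h0)
    have a1 := key _ (left_ne_zero_of_mul h1)
    have a2 := key _ (left_ne_zero_of_mul h2)
    have a3 := key _ (left_ne_zero_of_mul h3)
    have b1 := key _ (right_ne_zero_of_mul h1)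
    have b2 := key _ (right_ne_zero_of_mul h2)
    have b3 := key _ (right_ne_zero_of_mul h3)
    simp only [TZ] at a0 a1 a2 a3
    simp only [QZ, Matrix.cons_val] at b1 b2 b3
    obtain ⟨n, rfl⟩ : ∃ n : ℕ, z = n := ⟨z.toNat, by omega⟩
    rw [Finset.mem_coe, mem_map]
    refine ⟨n, ?_, rfl⟩
    unfold idx
    rw [mem_filter, mem_range]
    refine ⟨by omega, ?_, ?_⟩
    · intro i; fin_cases i <;> simp only [Fin.zero_eta, Fin.mk_one, Fin.reduceFinMk] <;> omega
    · intro i; fin_cases i <;> simp only [Fin.zero_eta, Fin.mk_one, Fin.reduceFinMk] <;> omega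
  rw [finsum_eq_sum_of_support_subset _ hsub, sum_map]
  apply sum_congr rfl
  intro z hz
  unfold idx at hz
  rw [mem_filter] at hz
  obtain ⟨_, hT, hQ⟩ := hz
  rw [prod_mul_distrib]
  have e1 : ∏ i : Fin 4, isf r ((Nat.castEmbedding z : ℤ) - TZ c i) =
      (∏ i : Fin 4, sg r (z - triSum c i))⁻¹ := by
    rw [← prod_inv_distrib]
    apply prod_congr rfl
    intro i _
    simp only [TZ, Nat.castEmbedding_apply]
    exact isf_sub (hT i)
  have e2 : ∏ i : Fin 4, isf r (QZ r c i - (Nat.castEmbedding z : ℤ)) =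
      isf r ((r:ℤ) - 2 - z) * (∏ j : Fin 3, sg r (quadSum c j - z))⁻¹ := by
    rw [Fin.prod_univ_succ]
    congr 1
    rw [← prod_inv_distrib]
    apply prod_congr rfl
    intro i _
    fin_cases i
    · exact isf_sub (hQ 0)
    · exact isf_sub (hQ 1)
    · exact isf_sub (hQ 2)
  rw [e1, e2, mul_inv]
  ring

lemma term_eq {r z : ℕ} {c : Fin 4 → Fin 4 → ℕ} (hr : Odd r) (hN : Num r c) (hz : z ∈ idx c) :
    (-1) ^ z * qfact r (z + 1) /
        ((∏ i : Fin 4, qfact r (z - triSum c i)) * ∏ j : Fin 3, qfact r (quadSum c j - z)) =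
    ((-(sg r (r - 1) / s1 r) * (isf r ((r:ℤ) - 2 - z) * ((∏ i : Fin 4, sg r (z - triSum c i)) *
        ∏ j : Fin 3, sg r (quadSum c j - z))⁻¹) : ℝ) : ℂ) := by
  unfold idx at hz
  rw [mem_filter] at hz
  obtain ⟨_, hT, hQ⟩ := hz
  have hs := s1_pos hN.r3
  have e1 : (∏ i : Fin 4, qfact r (z - triSum c i)) * ∏ j : Fin 3, qfact r (quadSum c j - z) =
      (((∏ i : Fin 4, sg r (z - triSum c i)) * (∏ j : Fin 3, sg r (quadSum c j - z)) /
        s1 r ^ z : ℝ) : ℂ) := by
    have e3 : ∏ i : Fin 4, qfact r (z - triSum c i) =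
      (((∏ i : Fin 4, sg r (z - triSum c i)) / s1 r ^ (∑ i : Fin 4, (z - triSum c i)) : ℝ) : ℂ) := by
      rw [← prod_pow_eq_pow_sum, ← prod_div_distrib, Complex.ofReal_prod]
      apply prod_congr rfl
      intro i _
      rw [qfact_eq]
    have e4 : ∏ j : Fin 3, qfact r (quadSum c j - z) =
      (((∏ j : Fin 3, sg r (quadSum c j - z)) / s1 r ^ (∑ j : Fin 3, (quadSum c j - z)) : ℝ) : ℂ) := by
      rw [← prod_pow_eq_pow_sum, ← prod_div_distrib, Complex.ofReal_prod]
      apply prod_congr rfl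
      intro i _
      rw [qfact_eq]
    rw [e3, e4, ← Complex.ofReal_mul, div_mul_div_comm, ← pow_add]
    have e5 : (∑ i : Fin 4, (z - triSum c i)) + ∑ j : Fin 3, (quadSum c j - z) = z := by
      rw [Fin.sum_univ_four, Fin.sum_univ_three]
      have t0 := hT 0
      have t1 := hT 1
      have t2 := hT 2
      have t3 := hT 3
      have q0 := hQ 0
      have q1 := hQ 1
      have q2 := hQ 2
      have := hN.t0
      have := hN.t1
      have := hN.t2
      have := hN.t3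
      have := hN.q0
      have := hN.q1
      have := hN.q2
      omega
    rw [e5]
  rw [e1, qfact_eq]
  rw [show ((-1:ℂ)) ^ z = (((-1) ^ z : ℝ) : ℂ) by push_cast; rfl, ← Complex.ofReal_mul,
    ← Complex.ofReal_div]
  congr 1
  set P := (∏ i : Fin 4, sg r (z - triSum c i)) * ∏ j : Fin 3, sg r (quadSum c j - z)
  rcases Nat.lt_or_ge (z + 1) r with hzr | hzr
  · obtain ⟨m, hm⟩ : ∃ m, z + 1 + m + 1 = r := ⟨r - 2 - z, by omega⟩
    have h1 := sg_add hN.r3 hm
    have h2 : isf r ((r:ℤ) - 2 - z) = (sg r m)⁻¹ := by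
      have : (r:ℤ) - 2 - z = (m : ℤ) := by omega
      rw [this, isf_of_nonneg]
    rw [h1, h2]
    have hm0 : sg r m ≠ 0 := sg_ne hr hN.r3 (by omega)
    have hpm : (-1:ℝ) ^ z * (-1) ^ m = -1 := by
      rw [← pow_add]
      apply Odd.neg_one_pow
      obtain ⟨k, hk⟩ := hr
      exact ⟨k - 1, by omega⟩
    have hpm' : (-1:ℝ) ^ z = - (-1) ^ m := by
      have h3 : (-1:ℝ) ^ m * (-1) ^ m = 1 := by
        rw [← pow_add, ← two_mul, pow_mul]; norm_num
      have : (-1:ℝ) ^ z * ((-1) ^ m * (-1) ^ m) = -1 * (-1) ^ m := by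
        rw [← mul_assoc, hpm]
      rw [h3] at this; linarith
    rw [hpm', pow_succ]
    rcases eq_or_ne P 0 with hP | hP
    · rw [hP]; simp
    · field_simp
  · have h1 : sg r (z + 1) = 0 := sg_eq_zero hN.r3 hzr
    have h2 : isf r ((r:ℤ) - 2 - z) = 0 := by
      unfold isf
      rw [if_neg (by omega)]
    rw [h1, h2]; simp

lemma sum_eq {r : ℕ} {c : Fin 4 → Fin 4 → ℕ} (hr : Odd r) (hN : Num r c) :
    ∑ z ∈ Finset.range (quadSum c 0 + 1) with
        (∀ i, triSum c i ≤ z) ∧ ∀ j, z ≤ quadSum c j,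
      (-1) ^ z * qfact r (z + 1) /
        ((∏ i : Fin 4, qfact r (z - triSum c i)) * ∏ j : Fin 3, qfact r (quadSum c j - z)) =
    ((-(sg r (r - 1) / s1 r) * Ssym r (TZ c) (QZ r c) : ℝ) : ℂ) := by
  rw [Ssym_eq hr hN, mul_sum, Complex.ofReal_sum]
  apply sum_congr rfl
  intro z hz
  exact term_eq hr hN hz

end Run7.h27
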