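import Pool.Agent.Run7.h27.KL2

/-!
# The bracket of a tetrahedron in symmetric form, third part
-/

set_option autoImplicit false

namespace Run7.h27

open Real Finset

lemma LL_refl {r n m : ℕ} (hr : Odd r) (hr3 : 3 ≤ r) (h : n + m + 1 = r) :
    LL r n + LL r m = LL r (r - 1) := by
  have h1 := sg_add hr3 h
  have h2 : |sg r (r - 1)| = |sg r n| * |sg r m| := by
    rw [h1, abs_mul, abs_mul, abs_pow, abs_neg, abs_one, one_pow, one_mul]
  rw [abs_sg hr hr3 (by omega), abs_sg hr hr3 (by omega), abs_sg hr hr3 (by omega), ← exp_add] at h2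
  exact (Real.exp_injective h2).symm

lemma LZ_sub {r a b : ℕ} (_h : b ≤ a) : LZ r ((a:ℤ) - b) = LL r (a - b) := by
  unfold LZ; congr 1; omega

theorem absBracket_eq {r : ℕ} {c : Fin 4 → Fin 4 → ℕ} (hr : Odd r) (hN : Num r c) :
    absBracket r c = Kb r (TZ c) (QZ r c) := by
  have hr3 := hN.r3
  have hs := s1_pos hr3
  unfold absBracket tetNet
  rw [sum_eq hr hN]
  rw [norm_theta hr hr3 hN.t0 hN.h0.1 hN.h0.2.1 hN.h0.2.2.1 hN.h0.2.2.2,
    norm_theta hr hr3 hN.t1 hN.h1.1 hN.h1.2.1 hN.h1.2.2.1 hN.h1.2.2.2,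
    norm_theta hr hr3 hN.t2 hN.h2.1 hN.h2.2.1 hN.h2.2.2.1 hN.h2.2.2.2,
    norm_theta hr hr3 hN.t3 hN.h3.1 hN.h3.2.1 hN.h3.2.2.1 hN.h3.2.2.2]
  obtain ⟨_, t0, t1, t2, t3, q0, q1, q2, ⟨a1, a2, a3, a4⟩, ⟨b1, b2, b3, b4⟩, ⟨c1, c2, c3, c4⟩,
    ⟨d1, d2, d3, d4⟩⟩ := hN
  have n00 : quadSum c 0 - triSum c 0 = triSum c 1 - c 0 1 := by omega
  have n01 : quadSum c 0 - triSum c 1 = triSum c 0 - c 0 1 := by omega
  have n02 : quadSum c 0 - triSum c 2 = triSum c 3 - c 2 3 := by omega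
  have n03 : quadSum c 0 - triSum c 3 = triSum c 2 - c 2 3 := by omega
  have n10 : quadSum c 1 - triSum c 0 = triSum c 2 - c 0 2 := by omega
  have n11 : quadSum c 1 - triSum c 1 = triSum c 3 - c 1 3 := by omega
  have n12 : quadSum c 1 - triSum c 2 = triSum c 0 - c 0 2 := by omega
  have n13 : quadSum c 1 - triSum c 3 = triSum c 1 - c 1 3 := by omega
  have n20 : quadSum c 2 - triSum c 0 = triSum c 3 - c 0 3 := by omega
  have n21 : quadSum c 2 - triSum c 1 = triSum c 2 - c 1 2 := by omega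
  have n22 : quadSum c 2 - triSum c 2 = triSum c 1 - c 1 2 := by omega
  have n23 : quadSum c 2 - triSum c 3 = triSum c 0 - c 0 3 := by omega
  simp only [Fin.prod_univ_four, Fin.prod_univ_three]
  rw [n00, n01, n02, n03, n10, n11, n12, n13, n20, n21, n22, n23]
  -- right-hand side
  unfold Kb
  simp only [Fin.sum_univ_four]
  have z0 : ∀ i, LZ r (QZ r c 0 - TZ c i) = LL r (r - 2 - triSum c i) := by
    intro i
    unfold LZ QZ TZ
    simp only [Matrix.cons_val]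
    congr 1; omega
  have z1 : ∀ i, triSum c i ≤ quadSum c 0 →
      LZ r (QZ r c 1 - TZ c i) = LL r (quadSum c 0 - triSum c i) := by
    intro i hi
    simp only [QZ, TZ, Matrix.cons_val]
    exact LZ_sub hi
  have z2 : ∀ i, triSum c i ≤ quadSum c 1 →
      LZ r (QZ r c 2 - TZ c i) = LL r (quadSum c 1 - triSum c i) := by
    intro i hi
    simp only [QZ, TZ, Matrix.cons_val]
    exact LZ_sub hi
  have z3 : ∀ i, triSum c i ≤ quadSum c 2 →
      LZ r (QZ r c 3 - TZ c i) = LL r (quadSum c 2 - triSum c i) := by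
    intro i hi
    simp only [QZ, TZ, Matrix.cons_val]
    exact LZ_sub hi
  rw [z0 0, z0 1, z0 2, z0 3, z1 0 (by omega), z1 1 (by omega), z1 2 (by omega), z1 3 (by omega),
    z2 0 (by omega), z2 1 (by omega), z2 2 (by omega), z2 3 (by omega),
    z3 0 (by omega), z3 1 (by omega), z3 2 (by omega), z3 3 (by omega)]
  rw [n00, n01, n02, n03, n10, n11, n12, n13, n20, n21, n22, n23]
  have l0 := LL_refl (n := triSum c 0 + 1) (m := r - 2 - triSum c 0) hr hr3 (by omega)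
  have l1 := LL_refl (n := triSum c 1 + 1) (m := r - 2 - triSum c 1) hr hr3 (by omega)
  have l2 := LL_refl (n := triSum c 2 + 1) (m := r - 2 - triSum c 2) hr hr3 (by omega)
  have l3 := LL_refl (n := triSum c 3 + 1) (m := r - 2 - triSum c 3) hr hr3 (by omega)
  rw [norm_mul, norm_div, Complex.norm_real, Real.norm_eq_abs, abs_mul, abs_neg, abs_div,
    abs_sg hr hr3 (show r - 1 < r by omega), abs_of_pos hs]
  simp only [norm_mul]
  rw [norm_qfact hr hr3 (show triSum c 0 - c 0 1 < r by omega),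
    norm_qfact hr hr3 (show triSum c 0 - c 0 2 < r by omega),
    norm_qfact hr hr3 (show triSum c 0 - c 0 3 < r by omega),
    norm_qfact hr hr3 (show triSum c 1 - c 0 1 < r by omega),
    norm_qfact hr hr3 (show triSum c 1 - c 1 2 < r by omega),
    norm_qfact hr hr3 (show triSum c 1 - c 1 3 < r by omega),
    norm_qfact hr hr3 (show triSum c 2 - c 0 2 < r by omega),
    norm_qfact hr hr3 (show triSum c 2 - c 1 2 < r by omega),
    norm_qfact hr hr3 (show triSum c 2 - c 2 3 < r by omega),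
    norm_qfact hr hr3 (show triSum c 3 - c 0 3 < r by omega),
    norm_qfact hr hr3 (show triSum c 3 - c 1 3 < r by omega),
    norm_qfact hr hr3 (show triSum c 3 - c 2 3 < r by omega),
    norm_qfact hr hr3 (show c 0 1 < r by omega),
    norm_qfact hr hr3 (show c 0 2 < r by omega),
    norm_qfact hr hr3 (show c 0 3 < r by omega),
    norm_qfact hr hr3 (show c 1 2 < r by omega),
    norm_qfact hr hr3 (show c 1 3 < r by omega),
    norm_qfact hr hr3 (show c 2 3 < r by omega)]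
  simp only [← exp_add]
  have hexp : s1 r = exp (Real.log (s1 r)) := (Real.exp_log hs).symm
  set L := Real.log (s1 r) with hL
  rw [hexp]
  simp only [← exp_sub, ← exp_add, ← mul_assoc, ← mul_div_assoc]
  rw [mul_div_right_comm, ← exp_sub]
  congr 1
  rw [Real.exp_eq_exp]
  have c00 : ((triSum c 0 - c 0 1 : ℕ) : ℝ) = triSum c 0 - c 0 1 := by rw [Nat.cast_sub a1]
  have c01 : ((triSum c 0 - c 0 2 : ℕ) : ℝ) = triSum c 0 - c 0 2 := by rw [Nat.cast_sub a2]
  have c02 : ((triSum c 0 - c 0 3 : ℕ) : ℝ) = triSum c 0 - c 0 3 := by rw [Nat.cast_sub a3]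
  have c10 : ((triSum c 1 - c 0 1 : ℕ) : ℝ) = triSum c 1 - c 0 1 := by rw [Nat.cast_sub b1]
  have c11 : ((triSum c 1 - c 1 2 : ℕ) : ℝ) = triSum c 1 - c 1 2 := by rw [Nat.cast_sub b2]
  have c12 : ((triSum c 1 - c 1 3 : ℕ) : ℝ) = triSum c 1 - c 1 3 := by rw [Nat.cast_sub b3]
  have c20 : ((triSum c 2 - c 0 2 : ℕ) : ℝ) = triSum c 2 - c 0 2 := by rw [Nat.cast_sub c1]
  have c21 : ((triSum c 2 - c 1 2 : ℕ) : ℝ) = triSum c 2 - c 1 2 := by rw [Nat.cast_sub c2]
  have c22 : ((triSum c 2 - c 2 3 : ℕ) : ℝ) = triSum c 2 - c 2 3 := by rw [Nat.cast_sub c3]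
  have c30 : ((triSum c 3 - c 0 3 : ℕ) : ℝ) = triSum c 3 - c 0 3 := by rw [Nat.cast_sub d1]
  have c31 : ((triSum c 3 - c 1 3 : ℕ) : ℝ) = triSum c 3 - c 1 3 := by rw [Nat.cast_sub d2]
  have c32 : ((triSum c 3 - c 2 3 : ℕ) : ℝ) = triSum c 3 - c 2 3 := by rw [Nat.cast_sub d3]
  have t0' : (2:ℝ) * triSum c 0 = c 0 1 + c 0 2 + c 0 3 := by exact_mod_cast t0
  have t1' : (2:ℝ) * triSum c 1 = c 0 1 + c 1 2 + c 1 3 := by exact_mod_cast t1
  have t2' : (2:ℝ) * triSum c 2 = c 0 2 + c 1 2 + c 2 3 := by exact_mod_cast t2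
  have t3' : (2:ℝ) * triSum c 3 = c 0 3 + c 1 3 + c 2 3 := by exact_mod_cast t3
  unfold lam
  rw [c00, c01, c02, c10, c11, c12, c20, c21, c22, c30, c31, c32]
  push_cast
  rw [← hL]
  linear_combination (-1/2) * l0 - 1/2 * l1 - 1/2 * l2 - 1/2 * l3 - (L/2) * t0' - (L/2) * t1' - (L/2) * t2' - (L/2) * t3'

end Run7.h27
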