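import Pool.Agent.Run7.h27.PD3
import Pool.Agent.Run7.h27.Geo4

/-!
# The line of all tetrahedra with fixed angles except the one opposite to the first edge
-/

set_option autoImplicit false

namespace Run7.h27

open Real Set Filter Topology Matrix

/-- parameter on the line as a function of the angle -/
noncomputable def kap (a1 a2 b1 b2 y : ℝ) : ℝ :=
  cos y / (lm a1 a2 * lm b1 b2) + (a1 * b1 + a2 * b2)

/-- quadratic polynomial of a vertex -/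
noncomputable def qk (A B κ : ℝ) : ℝ := A ^ 2 + B ^ 2 + 2 * A * B * κ + 1 - κ ^ 2

variable {a1 a2 b1 b2 φ y : ℝ}

lemma kap_cos (a1 a2 b1 b2 y : ℝ) :
    lm a1 a2 * lm b1 b2 * (kap a1 a2 b1 b2 y - (a1 * b1 + a2 * b2)) = cos y := by
  have h1 := lm_pos a1 a2
  have h2 := lm_pos b1 b2
  unfold kap
  field_simp
  ring

lemma qk_concave {A B κ C : ℝ} (h1 : -1 < κ) (h2 : κ ≤ C) (hC : 0 < qk A B C) : 0 < qk A B κ := by
  have e : (C + 1) * qk A B κ = (κ + 1) * qk A B C + (C - κ) * (A - B) ^ 2 +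
      (C - κ) * (κ + 1) * (C + 1) := by
    unfold qk; ring
  have h3 : 0 < (C + 1) * qk A B κ := by
    rw [e]
    have i1 : 0 < (κ + 1) * qk A B C := mul_pos (by linarith) hC
    have i2 : 0 ≤ (C - κ) * (A - B) ^ 2 := mul_nonneg (by linarith) (sq_nonneg _)
    have i3 : 0 ≤ (C - κ) * (κ + 1) * (C + 1) :=
      mul_nonneg (mul_nonneg (by linarith) (by linarith)) (by linarith)
    linarith
  exact pos_of_mul_pos_right h3 (by linarith)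

lemma D5_kap (a1 a2 b1 b2 y : ℝ) : Dv y (be1 a1 a2) (be1 b1 b2) =
    lm a1 a2 ^ 2 * lm b1 b2 ^ 2 * qk a1 b1 (kap a1 a2 b1 b2 y) := by
  have hL := lm_sq a1 a2
  have hM := lm_sq b1 b2
  unfold Dv qk
  rw [(cos_be1 a1 a2).1, (cos_be1 b1 b2).1, ← kap_cos a1 a2 b1 b2 y]
  set C := kap a1 a2 b1 b2 y
  set L := lm a1 a2
  set M := lm b1 b2
  linear_combination (-(M ^ 2 * (1 + b1 ^ 2 + b2 ^ 2)) + M ^ 2 * b2 ^ 2) * hL +
    (-1 + L ^ 2 * a2 ^ 2) * hM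

lemma D6_kap (a1 a2 b1 b2 φ y : ℝ) : Dv y (be2 a1 a2 φ) (be2 b1 b2 φ) =
    lm a1 a2 ^ 2 * lm b1 b2 ^ 2 * qk (hA a1 a2 φ) (hA b1 b2 φ) (kap a1 a2 b1 b2 y) := by
  have hs := sin_sq_add_cos_sq φ
  have hL := lm_sq a1 a2
  have hM := lm_sq b1 b2
  unfold Dv qk
  rw [(cos_be2 a1 a2 φ).1, (cos_be2 b1 b2 φ).1, ← kap_cos a1 a2 b1 b2 y]
  unfold hA hT
  set L := lm a1 a2
  set M := lm b1 b2
  set s := sin φ
  set c := cos φ
  set C := kap a1 a2 b1 b2 y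
  linear_combination (-(M ^ 2 * (1 + b1 ^ 2 + b2 ^ 2)) + M ^ 2 * (b1 * s - b2 * c) ^ 2) * hL +
    (-1 + L ^ 2 * (a1 * s - a2 * c) ^ 2) * hM +
    L ^ 2 * M ^ 2 * (-2 * C * a1 * b1 - 2 * C * a2 * b2 + 2 * a1 * a2 * b1 * b2 - 1 * a1 ^ 2 -
      1 * a1 ^ 2 * b2 ^ 2 - 1 * a2 ^ 2 - 1 * a2 ^ 2 * b1 ^ 2 - 1 * b1 ^ 2 - 1 * b2 ^ 2) * hs

lemma Cof34_kap (a1 a2 b1 b2 φ y : ℝ) :
    Cof φ y (be1 a1 a2) (be2 a1 a2 φ) (be1 b1 b2) (be2 b1 b2 φ) =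
      lm a1 a2 * lm b1 b2 * sin φ ^ 2 * kap a1 a2 b1 b2 y := by
  have hs := sin_sq_add_cos_sq φ
  unfold Cof
  rw [(cos_be1 a1 a2).1, (cos_be1 b1 b2).1, (cos_be2 a1 a2 φ).1, (cos_be2 b1 b2 φ).1,
    ← kap_cos a1 a2 b1 b2 y]
  unfold hT
  set L := lm a1 a2
  set M := lm b1 b2
  set s := sin φ
  set c := cos φ
  linear_combination (L * M * (-1 * a2 * b2)) * hs

/-- points of the line with regular vertices -/
structure Ln (a1 a2 b1 b2 φ y : ℝ) : Prop where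
  aφ : Ang φ
  ay : Ang y
  q5 : 0 < qk a1 b1 (kap a1 a2 b1 b2 y)
  q6 : 0 < qk (hA a1 a2 φ) (hA b1 b2 φ) (kap a1 a2 b1 b2 y)

lemma Ln.reg (h : Ln a1 a2 b1 b2 φ y) :
    Reg φ y (be1 a1 a2) (be2 a1 a2 φ) (be1 b1 b2) (be2 b1 b2 φ) := by
  have hs := h.aφ.sin_pos
  have hL := lm_pos a1 a2
  have hM := lm_pos b1 b2
  have h5 := h.q5
  have h6 := h.q6
  refine ⟨h.aφ, h.ay, (cos_be1 a1 a2).2, (cos_be2 a1 a2 φ).2, (cos_be1 b1 b2).2,
    (cos_be2 b1 b2 φ).2, ?_, ?_, ?_, ?_⟩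
  · rw [D3_std]; positivity
  · rw [D3_std]; positivity
  · rw [D5_kap]; positivity
  · rw [D6_kap]; positivity

/-- the spherical part of the line -/
lemma Ln.posDef (h : Ln a1 a2 b1 b2 φ y) (h1 : -1 < kap a1 a2 b1 b2 y) (h2 : kap a1 a2 b1 b2 y < 1) :
    (Gx φ y (be1 a1 a2) (be2 a1 a2 φ) (be1 b1 b2) (be2 b1 b2 φ)).PosDef := by
  have hs := h.aφ.sin_pos
  have hL := lm_pos a1 a2
  have hM := lm_pos b1 b2
  have hk : 0 < 1 - kap a1 a2 b1 b2 y ^ 2 := by nlinarith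
  set κ := kap a1 a2 b1 b2 y with hκ
  set L := lm a1 a2 with hLd
  set M := lm b1 b2 with hMd
  set s := sqrt (1 - κ ^ 2) with hsd
  have hs0 : 0 < s := sqrt_pos.mpr hk
  have hs2 : s ^ 2 = 1 - κ ^ 2 := sq_sqrt hk.le
  set N : Matrix (Fin 4) (Fin 4) ℝ := !![M * b1, M * b2, M * κ, M * s; L * a1, L * a2, -L, 0;
    -sin φ, cos φ, 0, 0; 0, -1, 0, 0] with hN
  have e : Gx φ y (be1 a1 a2) (be2 a1 a2 φ) (be1 b1 b2) (be2 b1 b2 φ) = N * Nᴴ := by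
    have k1 := lm_sq a1 a2
    have k2 := lm_sq b1 b2
    rw [← hLd] at k1
    rw [← hMd] at k2
    have k3 := sin_sq_add_cos_sq φ
    unfold Gx
    rw [(cos_be1 a1 a2).1, (cos_be1 b1 b2).1, (cos_be2 a1 a2 φ).1, (cos_be2 b1 b2 φ).1,
      ← kap_cos a1 a2 b1 b2 y, ← hκ, ← hLd, ← hMd]
    unfold hT
    ext i j
    rw [Matrix.mul_apply]
    simp only [Fin.sum_univ_four, Matrix.conjTranspose_apply, star_trivial]
    fin_cases i <;> fin_cases j <;>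
      simp only [hN, Matrix.of_apply, Matrix.cons_val, Fin.zero_eta, Fin.mk_one, Fin.reduceFinMk,
        Fin.isValue]
    · linear_combination (-1 : ℝ) * k2 - M ^ 2 * hs2
    · ring
    · ring
    · ring
    · ring
    · linear_combination (-1 : ℝ) * k1
    · ring
    · ring
    · ring
    · ring
    · linear_combination (-1 : ℝ) * k3
    · ring
    · ring
    · ring
    · ring
    · ring
  rw [e]
  apply Matrix.PosDef.mul_conjTranspose_self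
  intro x z hxz
  have hx : ∀ i, (Matrix.vecMul (x - z) N) i = 0 := by
    intro i
    rw [Matrix.sub_vecMul]
    have : N.vecMul x = N.vecMul z := hxz
    show (Matrix.vecMul x N - Matrix.vecMul z N) i = 0
    have h3 : Matrix.vecMul x N = Matrix.vecMul z N := hxz
    rw [h3]; simp
  have g0 := hx 0
  have g1 := hx 1
  have g2 := hx 2
  have g3 := hx 3
  simp only [Matrix.vecMul, dotProduct, Fin.sum_univ_four, hN, Matrix.of_apply, Matrix.cons_val,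
    Pi.sub_apply] at g0 g1 g2 g3
  have f0 : x 0 - z 0 = 0 := by
    have : (x 0 - z 0) * (M * s) = 0 := by linarith
    rcases mul_eq_zero.mp this with h | h
    · exact h
    · exact absurd h (mul_pos hM hs0).ne'
  rw [f0] at g0 g1 g2
  have f1 : x 1 - z 1 = 0 := by
    have : (x 1 - z 1) * L = 0 := by linarith
    rcases mul_eq_zero.mp this with h | h
    · exact h
    · exact absurd h hL.ne'
  rw [f1] at g0 g1
  have f2 : x 2 - z 2 = 0 := by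
    have : (x 2 - z 2) * sin φ = 0 := by linarith
    rcases mul_eq_zero.mp this with h | h
    · exact h
    · exact absurd h hs.ne'
  rw [f2] at g1
  have f3 : x 3 - z 3 = 0 := by linarith
  funext i
  fin_cases i
  · exact sub_eq_zero.mp f0
  · exact sub_eq_zero.mp f1
  · exact sub_eq_zero.mp f2
  · exact sub_eq_zero.mp f3

/-- the determinant of the Gram matrix along the line -/
lemma dG_kap (h : Ang φ) : dG (cos φ) (cos y) (cos (be1 a1 a2)) (cos (be2 a1 a2 φ))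
    (cos (be1 b1 b2)) (cos (be2 b1 b2 φ)) =
    (lm a1 a2 * lm b1 b2 * sin φ) ^ 2 * (1 - kap a1 a2 b1 b2 y ^ 2) := by
  have hs := h.sin_pos
  have hj := jacobi φ y (be1 a1 a2) (be2 a1 a2 φ) (be1 b1 b2) (be2 b1 b2 φ)
  rw [D3_std, D3_std, Cof34_kap] at hj
  have h2 : sin φ ^ 2 ≠ 0 := by positivity
  apply mul_left_cancel₀ h2
  rw [← hj]; ring

lemma jac56 (h : Ang φ) :
    Dv y (be1 a1 a2) (be1 b1 b2) * Dv y (be2 a1 a2 φ) (be2 b1 b2 φ) -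
      Cof y φ (be1 a1 a2) (be1 b1 b2) (be2 a1 a2 φ) (be2 b1 b2 φ) ^ 2 =
    sin y ^ 2 * ((lm a1 a2 * lm b1 b2 * sin φ) ^ 2 * (1 - kap a1 a2 b1 b2 y ^ 2)) := by
  rw [jacobi, ← dG_kap h]
  congr 1
  unfold dG; ring

/-- the coefficient is bounded on the spherical part and at the flat point -/
lemma Ln.ce_le (h : Ln a1 a2 b1 b2 φ y) (h1 : -1 ≤ kap a1 a2 b1 b2 y) (h2 : kap a1 a2 b1 b2 y ≤ 1) :
    |ce y φ (be1 a1 a2) (be1 b1 b2) (be2 a1 a2 φ) (be2 b1 b2 φ)| ≤ 1 := by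
  have hR := h.reg.P1
  have hD : 0 < Dv y (be1 a1 a2) (be1 b1 b2) * Dv y (be2 a1 a2 φ) (be2 b1 b2 φ) := mul_pos hR.d3 hR.d4
  have hj := jac56 (a1 := a1) (a2 := a2) (b1 := b1) (b2 := b2) (y := y) h.aφ
  have hk : 0 ≤ 1 - kap a1 a2 b1 b2 y ^ 2 := by nlinarith
  have hg : 0 ≤ sin y ^ 2 * ((lm a1 a2 * lm b1 b2 * sin φ) ^ 2 * (1 - kap a1 a2 b1 b2 y ^ 2)) := by
    positivity
  unfold ce
  rw [abs_div, abs_of_pos (sqrt_pos.mpr hD), div_le_one (sqrt_pos.mpr hD)]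
  apply abs_le_sqrt
  linarith

/-- the hyperbolic part of the line -/
structure LnH (a1 a2 b1 b2 φ y : ℝ) : Prop extends Ln a1 a2 b1 b2 φ y where
  k1 : 1 < kap a1 a2 b1 b2 y
  s0 : 0 < a1 + b1
  s1 : 0 < hA a1 a2 φ + hA b1 b2 φ

lemma lin_pos {A B κ : ℝ} (hs : 0 < A + B) (hκ : 1 < κ) (hq : 0 < qk A B κ) : 0 < B + A * κ := by
  by_contra hh
  push Not at hh
  have hA : A < 0 := by
    by_contra h0
    push Not at h0
    nlinarith
  have hB : 0 < B := by linarith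
  unfold qk at hq
  -- B ≤ -A κ
  have h1 : B * (B + A * κ) ≤ 0 := mul_nonpos_of_nonneg_of_nonpos hB.le hh
  have h2 : A * (B * κ) ≤ A * (-A * κ) := by
    apply mul_le_mul_of_nonpos_left _ hA.le
    apply mul_le_mul_of_nonneg_right (by linarith) (by linarith)
  nlinarith [sq_nonneg A]

lemma LnH.cosh (h : LnH a1 a2 b1 b2 φ y) : cosh (arcosh (kap a1 a2 b1 b2 y)) = kap a1 a2 b1 b2 y :=
  cosh_arcosh h.k1.le

lemma LnH.tht (h : LnH a1 a2 b1 b2 φ y) :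
    Run7.h27.tht a1 a2 b1 b2 (arcosh (kap a1 a2 b1 b2 y)) = y := by
  unfold Run7.h27.tht
  rw [h.cosh, kap_cos, arccos_cos h.ay.1.le h.ay.2.le]

lemma Qf_qk {a1 a2 b1 b2 t ψ κ : ℝ} (h : cosh t = κ) :
    Qf a1 a2 b1 b2 t ψ = qk (hA a1 a2 ψ) (hA b1 b2 ψ) κ := by
  unfold Qf qk
  have := cosh_sq t
  rw [h] at this ⊢
  linarith

lemma LnH.std (h : LnH a1 a2 b1 b2 φ y) : Std a1 a2 b1 b2 (arcosh (kap a1 a2 b1 b2 y)) φ := by
  refine ⟨h.aφ, arcosh_pos h.k1, ⟨?_, ?_⟩, ⟨?_, ?_⟩⟩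
  · rw [hA_zero, hA_zero, h.cosh]
    exact lin_pos h.s0 h.k1 h.q5
  · rw [Qf_qk h.cosh, hA_zero, hA_zero]
    exact h.q5
  · rw [h.cosh]
    exact lin_pos h.s1 h.k1 h.q6
  · rw [Qf_qk h.cosh]
    exact h.q6

lemma LnH.hyp (h : LnH a1 a2 b1 b2 φ y) :
    Hyp φ y (be1 a1 a2) (be2 a1 a2 φ) (be1 b1 b2) (be2 b1 b2 φ) := by
  have := h.std.hyp
  rwa [h.tht] at this

lemma Std.kap {a1 a2 b1 b2 t φ : ℝ} (h : Std a1 a2 b1 b2 t φ) :
    Run7.h27.kap a1 a2 b1 b2 (tht a1 a2 b1 b2 t) = cosh t := by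
  have h1 := lm_pos a1 a2
  have h2 := lm_pos b1 b2
  have h3 := kap_cos a1 a2 b1 b2 (tht a1 a2 b1 b2 t)
  rw [(cos_tht a1 a2 b1 b2 t h.s0.Q).1] at h3
  have h4 := mul_left_cancel₀ (mul_pos h1 h2).ne' h3
  linarith

lemma Std.lnH {a1 a2 b1 b2 t φ : ℝ} (h : Std a1 a2 b1 b2 t φ) :
    LnH a1 a2 b1 b2 φ (tht a1 a2 b1 b2 t) := by
  have s0 := h.s0.sum_pos
  have q0 := h.s0.Q
  have q1 := h.s1.Q
  rw [hA_zero, hA_zero] at s0
  rw [Qf_qk rfl, hA_zero, hA_zero] at q0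
  rw [Qf_qk rfl] at q1
  refine ⟨⟨h.aφ, (cos_tht a1 a2 b1 b2 t h.s0.Q).2, ?_, ?_⟩, ?_, s0, h.s1.sum_pos⟩
  · rw [h.kap]; exact q0
  · rw [h.kap]; exact q1
  · rw [h.kap]; exact one_lt_cosh.mpr h.ht.ne'

end Run7.h27
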