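import Pool.Agent.Run7.h27.Line1

/-!
# The potential along the line and the upper bound
-/

set_option autoImplicit false

namespace Run7.h27

open Real Set Filter Topology

lemma ell_gr {B P : ℝ} (hP : 0 < P) (hB : 0 < B) (h : P ≤ B ^ 2) : ell B P = gr (B / sqrt P) := by
  have hs : 0 < sqrt P := sqrt_pos.mpr hP
  have hs2 : sqrt P ^ 2 = P := sq_sqrt hP.le
  have h1 : 1 ≤ B / sqrt P := by
    rw [le_div_iff₀ hs, one_mul]
    exact (sqrt_le_sqrt h).trans (by rw [sqrt_sq hB.le])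
  have e : (B + sqrt (B ^ 2 - P)) / sqrt P = B / sqrt P + sqrt ((B / sqrt P) ^ 2 - 1) := by
    have e1 : (B / sqrt P) ^ 2 - 1 = (B ^ 2 - P) / P := by
      rw [div_pow, hs2]
      field_simp
    rw [e1, sqrt_div (by linarith), add_div]
  unfold ell gr
  rw [max_eq_left h1, e, ← exp_arcosh h1, Real.log_exp]

lemma cof_pos_pair {φ θ β1 β2 γ1 γ2 xm xp : ℝ} (h : Reg φ θ β1 β2 γ1 γ2)
    (hm : Crit φ θ β1 β2 γ1 γ2 xm) (hp : Crit φ θ β1 β2 γ1 γ2 xp) (gm : GR φ θ β1 β2 γ1 γ2 xm)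
    (gp : GR φ θ β1 β2 γ1 γ2 xp) (hlt : xm < xp) : 0 < Cof φ θ β1 β2 γ1 γ2 := by
  have qp := Xr_quad h hp
  have qm := Xr_quad h hm
  have pp := Xr_pos h gp
  have pm := Xr_pos h gm
  have hmono := Xr_mono h gm gp hlt
  have hA := AA_pos h.aβ1 h.aβ2 h.aγ1 h.aγ2 h.d3 h.d4
  set X := Xr φ θ β1 β2 γ1 γ2 xp
  set Y := Xr φ θ β1 β2 γ1 γ2 xm
  set A := AA φ β1 β2 γ1 γ2
  set C := CC φ β1 β2 γ1 γ2
  set B := Cof φ θ β1 β2 γ1 γ2
  have s1 : A * (X + Y) = 2 * B := by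
    have : (X - Y) * (A * (X + Y) - 2 * B) = 0 := by linear_combination qp - qm
    rcases mul_eq_zero.mp this with h | h
    · linarith
    · linarith
  have := mul_pos hA (add_pos pp pm)
  linarith

variable {a1 a2 b1 b2 φ y : ℝ}

/-- the potential along the line -/
noncomputable def Wl (a1 a2 b1 b2 φ y : ℝ) : ℝ :=
  F6 φ y (be1 a1 a2) (be2 a1 a2 φ) (be1 b1 b2) (be2 b1 b2 φ)
    (xp φ y (be1 a1 a2) (be2 a1 a2 φ) (be1 b1 b2) (be2 b1 b2 φ))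

lemma LnH.Wl_eq (h : LnH a1 a2 b1 b2 φ y) :
    Wl a1 a2 b1 b2 φ y = Gp a1 a2 b1 b2 (arcosh (kap a1 a2 b1 b2 y)) φ := by
  unfold Wl Gp
  rw [h.tht]

lemma LnH.Wl_nonneg (h : LnH a1 a2 b1 b2 φ y) : 0 ≤ Wl a1 a2 b1 b2 φ y := by
  rw [h.Wl_eq, Gp_eq h.std]
  exact h.std.int_nonneg

lemma LnH.Wl_minus (h : LnH a1 a2 b1 b2 φ y) :
    F6 φ y (be1 a1 a2) (be2 a1 a2 φ) (be1 b1 b2) (be2 b1 b2 φ)
      (xm φ y (be1 a1 a2) (be2 a1 a2 φ) (be1 b1 b2) (be2 b1 b2 φ)) = -Wl a1 a2 b1 b2 φ y := by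
  have h1 := Gm_eq h.std
  rw [h.Wl_eq, Gp_eq h.std, ← h1]
  unfold Gm
  rw [h.tht]

/-- the coefficient along the line -/
noncomputable def cl (a1 a2 b1 b2 φ y : ℝ) : ℝ :=
  ce y φ (be1 a1 a2) (be1 b1 b2) (be2 a1 a2 φ) (be2 b1 b2 φ)

lemma LnH.cof_pos (h : LnH a1 a2 b1 b2 φ y) :
    0 < Cof y φ (be1 a1 a2) (be1 b1 b2) (be2 a1 a2 φ) (be2 b1 b2 φ) := by
  have hy := h.hyp
  exact cof_pos_pair hy.toReg.perm56 hy.m.1.perm56 hy.p.1.perm56 hy.m.2.1.perm56 hy.p.2.1.perm56 hy.lt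

lemma LnH.jac (h : LnH a1 a2 b1 b2 φ y) :
    Dv y (be1 a1 a2) (be1 b1 b2) * Dv y (be2 a1 a2 φ) (be2 b1 b2 φ) <
      Cof y φ (be1 a1 a2) (be1 b1 b2) (be2 a1 a2 φ) (be2 b1 b2 φ) ^ 2 := by
  have hj := jac56 (a1 := a1) (a2 := a2) (b1 := b1) (b2 := b2) (y := y) h.aφ
  have hs := h.aφ.sin_pos
  have hsy := h.ay.sin_pos
  have hL := lm_pos a1 a2
  have hM := lm_pos b1 b2
  have hk := h.k1
  have h1 : 0 < kap a1 a2 b1 b2 y ^ 2 - 1 := by nlinarith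
  have h2 : 0 < sin y ^ 2 * ((lm a1 a2 * lm b1 b2 * sin φ) ^ 2 * (kap a1 a2 b1 b2 y ^ 2 - 1)) := by
    positivity
  linarith

lemma LnH.one_lt_cl (h : LnH a1 a2 b1 b2 φ y) : 1 < cl a1 a2 b1 b2 φ y := by
  have hR := h.reg.P1
  have hD : 0 < Dv y (be1 a1 a2) (be1 b1 b2) * Dv y (be2 a1 a2 φ) (be2 b1 b2 φ) := mul_pos hR.d3 hR.d4
  unfold cl ce
  rw [lt_div_iff₀ (sqrt_pos.mpr hD), one_mul]
  have := sqrt_lt_sqrt hD.le h.jac
  rwa [sqrt_sq h.cof_pos.le] at this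

lemma gr_pos {c : ℝ} (h : 1 < c) : 0 < gr c := by
  unfold gr
  rw [max_eq_left h.le]
  exact arcosh_pos h

lemma LnH.ell_eq (h : LnH a1 a2 b1 b2 φ y) :
    ell (Cof y φ (be1 a1 a2) (be1 b1 b2) (be2 a1 a2 φ) (be2 b1 b2 φ))
      (Dv y (be1 a1 a2) (be1 b1 b2) * Dv y (be2 a1 a2 φ) (be2 b1 b2 φ)) = gr (cl a1 a2 b1 b2 φ y) := by
  have hR := h.reg.P1
  exact ell_gr (mul_pos hR.d3 hR.d4) h.cof_pos h.jac.le

/-- the derivative of the volume along the line -/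
lemma LnH.deriv (h : LnH a1 a2 b1 b2 φ y) :
    HasDerivAt (Wl a1 a2 b1 b2 φ) (-(1 / 2) * gr (cl a1 a2 b1 b2 φ y)) y := by
  have hy := h.hyp
  have dx := diff_xp (φ := fun _ => φ) (θ := fun s => s) (β1 := fun _ => be1 a1 a2)
    (β2 := fun _ => be2 a1 a2 φ) (γ1 := fun _ => be1 b1 b2) (γ2 := fun _ => be2 b1 b2 φ) (s := y)
    (differentiableAt_const _) differentiableAt_id (differentiableAt_const _)
    (differentiableAt_const _) (differentiableAt_const _) (differentiableAt_const _) hy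
  have main := F6_hasDeriv (hasDerivAt_const y φ) (hasDerivAt_id y)
    (hasDerivAt_const y (be1 a1 a2)) (hasDerivAt_const y (be2 a1 a2 φ))
    (hasDerivAt_const y (be1 b1 b2)) (hasDerivAt_const y (be2 b1 b2 φ)) dx hy.toReg hy.p.1
  simp only [id] at main
  rw [hy.dF56.1, h.ell_eq] at main
  unfold Wl
  refine main.congr_deriv ?_
  ring

lemma kap_cont (a1 a2 b1 b2 : ℝ) : Continuous (kap a1 a2 b1 b2) := by
  unfold kap
  fun_prop

lemma kap_anti (a1 a2 b1 b2 : ℝ) {x z : ℝ} (h0 : 0 ≤ x) (hz : z ≤ π) (h : x < z) :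
    kap a1 a2 b1 b2 z < kap a1 a2 b1 b2 x := by
  have h1 := lm_pos a1 a2
  have h2 := lm_pos b1 b2
  unfold kap
  have := cos_lt_cos_of_nonneg_of_le_pi h0 hz h
  have := div_lt_div_of_pos_right this (mul_pos h1 h2)
  linarith

lemma kap_pi_le (a1 a2 b1 b2 : ℝ) : kap a1 a2 b1 b2 π ≤ -1 := by
  have h1 := lm_pos a1 a2
  have h2 := lm_pos b1 b2
  have k1 := lm_sq a1 a2
  have k2 := lm_sq b1 b2
  unfold kap
  rw [cos_pi]
  have e1 : lm a1 a2 * lm b1 b2 * (a1 * b1 + a2 * b2 + 1) ≤ 1 := by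
    apply le_of_sq_le_sq _ zero_le_one
    rw [one_pow]
    have e : (lm a1 a2 * lm b1 b2 * (a1 * b1 + a2 * b2 + 1)) ^ 2 =
      lm a1 a2 ^ 2 * lm b1 b2 ^ 2 * (a1 * b1 + a2 * b2 + 1) ^ 2 := by ring
    have e2 : (1:ℝ) = lm a1 a2 ^ 2 * lm b1 b2 ^ 2 * ((1 + a1 ^ 2 + a2 ^ 2) * (1 + b1 ^ 2 + b2 ^ 2)) := by
      linear_combination (-(lm b1 b2 ^ 2 * (1 + b1 ^ 2 + b2 ^ 2))) * k1 - k2
    rw [e]
    conv_rhs => rw [e2]
    apply mul_le_mul_of_nonneg_left _ (by positivity)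
    nlinarith [sq_nonneg (a1 * b2 - a2 * b1), sq_nonneg (a1 - b1), sq_nonneg (a2 - b2)]
  have e2 : a1 * b1 + a2 * b2 + 1 ≤ 1 / (lm a1 a2 * lm b1 b2) := by
    rw [le_div_iff₀ (mul_pos h1 h2)]
    linarith
  have e3 : -1 / (lm a1 a2 * lm b1 b2) = -(1 / (lm a1 a2 * lm b1 b2)) := by ring
  rw [e3]
  linarith

/-- points of the line with larger angle -/
lemma Ln.above (h : Ln a1 a2 b1 b2 φ y) {z : ℝ} (hz : y ≤ z) (hπ : z < π)
    (hk : -1 < kap a1 a2 b1 b2 z) : Ln a1 a2 b1 b2 φ z := by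
  have hle : kap a1 a2 b1 b2 z ≤ kap a1 a2 b1 b2 y := by
    rcases eq_or_lt_of_le hz with h1 | h1
    · rw [h1]
    · exact (kap_anti a1 a2 b1 b2 h.ay.1.le hπ.le h1).le
  exact ⟨h.aφ, ⟨h.ay.1.trans_le hz, hπ⟩, qk_concave hk hle h.q5, qk_concave hk hle h.q6⟩

lemma LnH.above (h : LnH a1 a2 b1 b2 φ y) {z : ℝ} (hz : y ≤ z) (hπ : z < π)
    (hk : 1 < kap a1 a2 b1 b2 z) : LnH a1 a2 b1 b2 φ z :=
  ⟨h.toLn.above hz hπ (by linarith), hk, h.s0, h.s1⟩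

/-- the flat point of the line -/
lemma LnH.flat (h : LnH a1 a2 b1 b2 φ y) : ∃ z, y < z ∧ z < π ∧ kap a1 a2 b1 b2 z = 1 := by
  have h1 : (1:ℝ) ∈ Icc (kap a1 a2 b1 b2 π) (kap a1 a2 b1 b2 y) :=
    ⟨(kap_pi_le a1 a2 b1 b2).trans (by norm_num), h.k1.le⟩
  obtain ⟨z, hz, hz1⟩ := intermediate_value_Icc' h.ay.2.le (kap_cont a1 a2 b1 b2).continuousOn h1
  refine ⟨z, lt_of_le_of_ne hz.1 ?_, lt_of_le_of_ne hz.2 ?_, hz1⟩
  · intro e
    rw [← e] at hz1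
    exact absurd hz1 h.k1.ne'
  · intro e
    rw [e] at hz1
    have := kap_pi_le a1 a2 b1 b2
    linarith

/-- the upper bound along the line -/
theorem LnH.upper (h : LnH a1 a2 b1 b2 φ y) :
    UA φ y (be1 a1 a2) (be2 a1 a2 φ) (be1 b1 b2) (be2 b1 b2 φ) (Wl a1 a2 b1 b2 φ y) := by
  apply UB.closed
  intro ε hε
  obtain ⟨z1, hz1, hz1π, hk1⟩ := h.flat
  have L1 : Ln a1 a2 b1 b2 φ z1 := h.toLn.above hz1.le hz1π (by rw [hk1]; norm_num)
  have c1 := L1.ce_le (by rw [hk1]; norm_num) hk1.le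
  obtain ⟨δ, hδ, hstep⟩ := UB_step L1.reg.P1 (abs_le.mp c1).1 one_pos
  set G := gr (ce z1 φ (be1 a1 a2) (be1 b1 b2) (be2 a1 a2 φ) (be2 b1 b2 φ)) + 1 with hG
  have hG0 : 0 < G := by
    have := gr_nonneg (ce z1 φ (be1 a1 a2) (be1 b1 b2) (be2 a1 a2 φ) (be2 b1 b2 φ))
    linarith
  -- the points next to the flat point
  have hev : ∀ᶠ z in 𝓝[>] z1, z < π ∧ z < z1 + δ ∧ z < z1 + ε / G ∧ -1 < kap a1 a2 b1 b2 z := by
    have e1 : ∀ᶠ z in 𝓝 z1, z < π ∧ z < z1 + δ ∧ z < z1 + ε / G ∧ -1 < kap a1 a2 b1 b2 z := by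
      refine (gt_mem_nhds hz1π).and ((gt_mem_nhds (by linarith)).and ((gt_mem_nhds ?_).and ?_))
      · have : 0 < ε / G := by positivity
        linarith
      · exact (kap_cont a1 a2 b1 b2).continuousAt.eventually_const_lt (by rw [hk1]; norm_num)
    exact nhdsWithin_le_nhds e1
  obtain ⟨z2, ⟨h2π, h2δ, h2ε, h2k⟩, h12⟩ := (hev.and self_mem_nhdsWithin).exists
  have h12' : z1 < z2 := h12
  obtain ⟨z3, h3y, h31, h3δ, h3ε⟩ : ∃ z3, y < z3 ∧ z3 < z1 ∧ z1 - δ < z3 ∧ z1 - ε / G < z3 := by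
    have hp : 0 < ε / G := by positivity
    obtain ⟨z3, h3⟩ := exists_between (show max y (max (z1 - δ) (z1 - ε / G)) < z1 from
      max_lt hz1 (max_lt (by linarith) (by linarith)))
    refine ⟨z3, (le_max_left _ _).trans_lt h3.1, h3.2, ?_, ?_⟩
    · exact ((le_max_left _ _).trans (le_max_right _ _)).trans_lt h3.1
    · exact ((le_max_right _ _).trans (le_max_right _ _)).trans_lt h3.1
  -- the spherical point
  have L2 : Ln a1 a2 b1 b2 φ z2 := h.toLn.above (by linarith) h2π h2k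
  have k2 : kap a1 a2 b1 b2 z2 < 1 := by
    rw [← hk1]; exact kap_anti a1 a2 b1 b2 L1.ay.1.le h2π.le h12'
  have R2 := L2.reg
  have U2 := (pd_zero R2.aφ R2.aθ R2.aβ1 R2.aβ2 R2.aγ1 R2.aγ2 (L2.posDef h2k k2)).P1
  have z0 : ∀ x : ℝ, |x - x| < δ := fun x => by simpa using hδ
  have U3 := hstep z2 z3 φ (be1 a1 a2) (be1 b1 b2) (be2 a1 a2 φ) (be2 b1 b2 φ) 0
    (by rw [abs_lt]; constructor <;> linarith) (by rw [abs_lt]; constructor <;> linarith)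
    (z0 _) (z0 _) (z0 _) (z0 _) (z0 _) U2
  rw [zero_add] at U3
  have U3' : UA z3 φ (be1 a1 a2) (be1 b1 b2) (be2 a1 a2 φ) (be2 b1 b2 φ) ε := by
    apply UB.mono U3
    rw [abs_of_pos (by linarith)]
    have h4 : z2 - z3 ≤ 2 * (ε / G) := by linarith
    calc (z2 - z3) / 2 * G ≤ (ε / G) * G := by
          apply mul_le_mul_of_nonneg_right _ hG0.le
          linarith
      _ = ε := by field_simp
  -- the hyperbolic part
  have LH : ∀ v ∈ Icc (0:ℝ) ((z3 - y) / 2), LnH a1 a2 b1 b2 φ (z3 - 2 * v) := by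
    intro v hv
    apply h.above (by linarith [hv.2]) (by linarith [hv.1])
    rw [← hk1]
    exact kap_anti a1 a2 b1 b2 (by linarith [hv.2, h.ay.1]) hz1π.le (by linarith [hv.1])
  have := ode_transfer
    (P := fun v C => UA (z3 - 2 * v) φ (be1 a1 a2) (be1 b1 b2) (be2 a1 a2 φ) (be2 b1 b2 φ) C)
    (g := fun v => gr (cl a1 a2 b1 b2 φ (z3 - 2 * v)))
    (B := fun v => Wl a1 a2 b1 b2 φ (z3 - 2 * v)) (a := 0) (b := (z3 - y) / 2) (C := ε) (by linarith)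
    (fun v C C' hC h => UB.mono h hC) (fun v C h => UB.closed h) ?_ ?_
    (by simpa using U3')
  · simp only [mul_zero, sub_zero] at this
    rw [show z3 - 2 * ((z3 - y) / 2) = y by ring] at this
    apply UB.mono this.P1
    have h5 : LnH a1 a2 b1 b2 φ z3 := by
      have := LH 0 ⟨le_rfl, by linarith⟩
      rwa [mul_zero, sub_zero] at this
    have := h5.Wl_nonneg
    linarith
  · intro v0 hv0 ε' hε'
    have L := LH v0 hv0
    obtain ⟨δ', hδ', hst⟩ := UB_step L.reg.P1 (show -1 ≤ ce (z3 - 2 * v0) φ (be1 a1 a2) (be1 b1 b2)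
      (be2 a1 a2 φ) (be2 b1 b2 φ) by
        have := L.one_lt_cl
        unfold cl at this
        linarith) hε'
    refine ⟨δ' / 2, by positivity, ?_⟩
    intro v _ w _ hv hw C hU
    have z0 : ∀ x : ℝ, |x - x| < δ' := fun x => by simpa using hδ'
    have := hst (z3 - 2 * v) (z3 - 2 * w) φ (be1 a1 a2) (be1 b1 b2) (be2 a1 a2 φ) (be2 b1 b2 φ) C
      (by
        rw [abs_lt] at hv ⊢
        constructor <;> linarith)
      (by
        rw [abs_lt] at hw ⊢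
        constructor <;> linarith)
      (z0 _) (z0 _) (z0 _) (z0 _) (z0 _) hU
    rw [show z3 - 2 * v - (z3 - 2 * w) = 2 * (w - v) by ring, abs_mul, abs_of_pos (by norm_num : (0:ℝ) < 2),
      mul_div_cancel_left₀ _ (by norm_num : (2:ℝ) ≠ 0)] at this
    exact this
  · intro v hv
    have L := LH v hv
    have h6 : HasDerivAt (fun v : ℝ => z3 - 2 * v) (-2) v := by
      have := ((hasDerivAt_id v).const_mul 2).const_sub z3
      simpa using this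
    have h7 := L.deriv.comp v h6
    apply HasDerivAt.hasDerivWithinAt
    refine h7.congr_deriv ?_
    ring

end Run7.h27
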