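import Pool.Agent.H776R3.EvenVol.TaskL

/-!
# Lobachevsky's function
-/

set_option autoImplicit false

namespace Run7.h27

open Real MeasureTheory intervalIntegral Filter Topology

/-- Lobachevsky's function `Λ(x) = -∫_0^x log |2 sin t| dt`. -/
noncomputable def Lob (x : ℝ) : ℝ := -∫ t in (0:ℝ)..x, Real.log |2 * Real.sin t|

lemma Lob_eq : Lob = GapVol.lob := rfl

lemma Lob_cont : Continuous Lob := GapVol.lob_cont

lemma Lob_neg (x : ℝ) : Lob (-x) = -Lob x := EvenVol.LobIneq.lob_neg x

lemma Lob_per : Function.Periodic Lob π := EvenVol.LobIneq.lob_per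

lemma Lob_zero : Lob 0 = 0 := EvenVol.LobIneq.lob_zero'

lemma Lob_pi : Lob π = 0 := EvenVol.LobIneq.lob_pi

lemma Lob_half : Lob (π / 2) = 0 := GapVol.lob_half

lemma Lob_add_pi (x : ℝ) : Lob (x + π) = Lob x := Lob_per x

lemma Lob_sub_pi (x : ℝ) : Lob (x - π) = Lob x := Lob_per.sub_eq x

lemma Lob_pi_sub (x : ℝ) : Lob (π - x) = -Lob x := by
  rw [← Lob_neg, ← Lob_add_pi (-x)]; congr 1; ring

lemma Lob_two_pi_sub (x : ℝ) : Lob (2 * π - x) = -Lob x := by
  have : 2 * π - x = (π - x) + π := by ring
  rw [this, Lob_add_pi, Lob_pi_sub]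

/-- the integrand -/
noncomputable def ph (t : ℝ) : ℝ := Real.log |2 * Real.sin t|

lemma ph_int (a b : ℝ) : IntervalIntegrable ph volume a b := by
  have := (GapVol.g_int a b).neg
  refine this.congr_ae ?_
  apply ae_of_all
  intro t
  simp only [Pi.neg_apply, GapVol.g, ph, neg_neg]
  rw [Real.log_abs]

lemma Lob_sub (a b : ℝ) : Lob b - Lob a = -∫ t in a..b, ph t := by
  unfold Lob
  have h := intervalIntegral.integral_interval_sub_left (ph_int 0 b) (ph_int 0 a)
  unfold ph at h
  unfold ph
  rw [← h]; ring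

lemma ph_contAt {x : ℝ} (h : Real.sin x ≠ 0) : ContinuousAt ph x := by
  unfold ph
  apply ContinuousAt.log
  · exact (continuous_abs.comp (continuous_const.mul Real.continuous_sin)).continuousAt
  · simpa using h

lemma Lob_hasDeriv {x : ℝ} (h : Real.sin x ≠ 0) : HasDerivAt Lob (-ph x) x := by
  have h1 : HasDerivAt (fun u => ∫ t in (0:ℝ)..u, ph t) (ph x) x := by
    apply intervalIntegral.integral_hasDerivAt_right (ph_int 0 x)
    · have hm : Measurable ph := by
        unfold ph
        exact Real.measurable_log.comp ((continuous_abs.comp (continuous_const.mul Real.continuous_sin)).measurable)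
      exact hm.stronglyMeasurable.stronglyMeasurableAtFilter
    · exact ph_contAt h
  exact h1.neg

end Run7.h27
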