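import Mathlib

/-!
# Growth of solutions of three-term recursions with nearly constant coefficients
-/

set_option autoImplicit false

namespace Run7.h27

open Real

lemma prod_step {lam : ℂ} {c κ η : ℝ} (hl : 1 ≤ ‖lam‖) (hc : lam + lam⁻¹ = 2 * (c : ℂ)) (hκ : 1 ≤ κ)
    (hη : 0 ≤ η) {x y p p' : ℝ} (hp : |p - 2 * c| ≤ η) (hp' : |p' - 1| ≤ η) :
    ‖((p * x - p' * y : ℝ) : ℂ)‖ + κ * ‖((p * x - p' * y : ℝ) : ℂ) - lam * (x : ℂ)‖ ≤
      (‖lam‖ * (1 + 1 / κ) + 2 * (1 + κ) * η) * (‖(x : ℂ)‖ + κ * ‖(x : ℂ) - lam * (y : ℂ)‖) := by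
  have hl0 : lam ≠ 0 := by
    intro h; rw [h, norm_zero] at hl; linarith
  have hlp : 0 < ‖lam‖ := by linarith
  set E : ℂ := (x : ℂ) - lam * (y : ℂ) with hE
  set err : ℝ := (p - 2 * c) * x - (p' - 1) * y with herr
  set W : ℝ := ‖(x : ℂ)‖ + κ * ‖E‖ with hW
  have hW0 : 0 ≤ W := by positivity
  have hxW : ‖(x : ℂ)‖ ≤ W := by
    have : 0 ≤ κ * ‖E‖ := by positivity
    linarith
  have hyW : ‖(y : ℂ)‖ ≤ W := by
    have e1 : (y : ℂ) = lam⁻¹ * ((x : ℂ) - E) := by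
      rw [hE]; field_simp; ring
    have e2 : ‖(y : ℂ)‖ ≤ ‖(x : ℂ)‖ + ‖E‖ := by
      rw [e1, norm_mul, norm_inv]
      have h1 : ‖(x : ℂ) - E‖ ≤ ‖(x : ℂ)‖ + ‖E‖ := norm_sub_le _ _
      have h2 : ‖lam‖⁻¹ ≤ 1 := inv_le_one_of_one_le₀ hl
      calc ‖lam‖⁻¹ * ‖(x : ℂ) - E‖ ≤ 1 * (‖(x : ℂ)‖ + ‖E‖) :=
            mul_le_mul h2 h1 (norm_nonneg _) zero_le_one
        _ = _ := one_mul _
    have h3 : ‖E‖ ≤ κ * ‖E‖ := le_mul_of_one_le_left (norm_nonneg _) hκ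
    linarith
  have herrW : |err| ≤ 2 * η * W := by
    rw [Complex.norm_real, Real.norm_eq_abs] at hxW hyW
    calc |err| ≤ |(p - 2 * c) * x| + |(p' - 1) * y| := abs_sub _ _
      _ = |p - 2 * c| * |x| + |p' - 1| * |y| := by rw [abs_mul, abs_mul]
      _ ≤ η * W + η * W := by
          apply add_le_add
          · exact mul_le_mul hp hxW (abs_nonneg _) hη
          · exact mul_le_mul hp' hyW (abs_nonneg _) hη
      _ = 2 * η * W := by ring
  have ex : ((p * x - p' * y : ℝ) : ℂ) = lam * (x : ℂ) + lam⁻¹ * E + (err : ℂ) := by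
    rw [hE, herr]
    push_cast
    have : lam⁻¹ * ((x : ℂ) - lam * y) = lam⁻¹ * x - y := by field_simp
    rw [this]
    linear_combination (-(x : ℂ)) * hc
  have hinv : ‖lam⁻¹‖ ≤ ‖lam‖ := by
    rw [norm_inv]
    exact (inv_le_one_of_one_le₀ hl).trans hl
  have n1 : ‖((p * x - p' * y : ℝ) : ℂ)‖ ≤ ‖lam‖ * ‖(x : ℂ)‖ + ‖lam‖ * ‖E‖ + |err| := by
    rw [ex]
    calc ‖lam * (x : ℂ) + lam⁻¹ * E + (err : ℂ)‖ ≤ ‖lam * (x : ℂ)‖ + ‖lam⁻¹ * E‖ + ‖(err : ℂ)‖ :=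
          norm_add₃_le
      _ ≤ _ := by
          rw [norm_mul, norm_mul, Complex.norm_real err, Real.norm_eq_abs]
          have := mul_le_mul_of_nonneg_right hinv (norm_nonneg E)
          linarith
  have n2 : ‖((p * x - p' * y : ℝ) : ℂ) - lam * (x : ℂ)‖ ≤ ‖lam‖ * ‖E‖ + |err| := by
    have : ((p * x - p' * y : ℝ) : ℂ) - lam * (x : ℂ) = lam⁻¹ * E + (err : ℂ) := by
      rw [ex]; ring
    rw [this]
    calc ‖lam⁻¹ * E + (err : ℂ)‖ ≤ ‖lam⁻¹ * E‖ + ‖(err : ℂ)‖ := norm_add_le _ _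
      _ ≤ _ := by
          rw [norm_mul, Complex.norm_real err, Real.norm_eq_abs]
          have := mul_le_mul_of_nonneg_right hinv (norm_nonneg E)
          linarith
  have n3 : κ * ‖((p * x - p' * y : ℝ) : ℂ) - lam * (x : ℂ)‖ ≤ κ * (‖lam‖ * ‖E‖ + |err|) :=
    mul_le_mul_of_nonneg_left n2 (by linarith)
  have key : ‖lam‖ * ‖E‖ ≤ ‖lam‖ * (1 / κ) * (κ * ‖E‖) := by
    have : ‖lam‖ * (1 / κ) * (κ * ‖E‖) = ‖lam‖ * ‖E‖ := by field_simp
    rw [this]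
  have key2 : ‖lam‖ * (1 / κ) * (κ * ‖E‖) ≤ ‖lam‖ * (1 / κ) * W := by
    apply mul_le_mul_of_nonneg_left _ (by positivity)
    have := norm_nonneg (x : ℂ)
    linarith
  have key3 : (1 + κ) * |err| ≤ 2 * (1 + κ) * η * W := by
    have := mul_le_mul_of_nonneg_left herrW (by linarith : (0:ℝ) ≤ 1 + κ)
    linarith
  have e : (‖lam‖ * (1 + 1 / κ) + 2 * (1 + κ) * η) * W =
    ‖lam‖ * (‖(x : ℂ)‖ + κ * ‖E‖) + ‖lam‖ * (1 / κ) * W + 2 * (1 + κ) * η * W := by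
    rw [← hW]; ring
  rw [e]
  linarith

theorem prod_bound {lam : ℂ} {c : ℝ} (hl : 1 ≤ ‖lam‖) (hc : lam + lam⁻¹ = 2 * (c : ℂ)) {ε : ℝ}
    (hε : 0 < ε) :
    ∃ η > 0, ∃ K > 0, ∀ (n : ℕ) (N p p' : ℕ → ℝ),
      (∀ k, k < n → N (k + 2) = p k * N (k + 1) - p' k * N k) →
      (∀ k, k < n → |p k - 2 * c| ≤ η ∧ |p' k - 1| ≤ η) →
      |N n| + |N (n + 1)| ≤ K * (|N 0| + |N 1|) * (‖lam‖ * exp ε) ^ n := by
  set κ : ℝ := 1 + 2 / ε with hκ
  have hκ1 : 1 ≤ κ := by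
    have : 0 < 2 / ε := by positivity
    linarith
  set η : ℝ := ε / (4 * (1 + κ)) with hη
  have hη0 : 0 < η := by positivity
  have hlp : 0 < ‖lam‖ := by linarith
  have hq : ‖lam‖ * (1 + 1 / κ) + 2 * (1 + κ) * η ≤ ‖lam‖ * exp ε := by
    have h1 : 1 / κ ≤ ε / 2 := by
      rw [div_le_div_iff₀ (by linarith) (by norm_num)]
      rw [hκ]
      field_simp
      nlinarith
    have h2 : 2 * (1 + κ) * η = ε / 2 := by
      rw [hη]; field_simp; ring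
    have h3 : 1 + ε ≤ exp ε := by linarith [add_one_le_exp ε]
    rw [h2]
    calc ‖lam‖ * (1 + 1 / κ) + ε / 2 ≤ ‖lam‖ * (1 + ε / 2) + ‖lam‖ * (ε / 2) := by
          apply add_le_add
          · apply mul_le_mul_of_nonneg_left _ hlp.le
            linarith
          · have : 0 ≤ ε / 2 := by positivity
            nlinarith
      _ = ‖lam‖ * (1 + ε) := by ring
      _ ≤ ‖lam‖ * exp ε := mul_le_mul_of_nonneg_left h3 hlp.le
  refine ⟨η, hη0, 2 * ((1 + κ) * ‖lam‖), by positivity, ?_⟩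
  intro n N p p' hrec hpp
  set W : ℕ → ℝ := fun k => ‖(N (k + 1) : ℂ)‖ + κ * ‖(N (k + 1) : ℂ) - lam * (N k : ℂ)‖ with hW
  have hWn : ∀ k, 0 ≤ W k := fun k => by simp only [hW]; positivity
  have hind : ∀ k, k ≤ n → W k ≤ W 0 * (‖lam‖ * exp ε) ^ k := by
    intro k
    induction k with
    | zero => intro _; simp
    | succ k ih =>
      intro hk
      have h1 := prod_step hl hc hκ1 hη0.le (x := N (k + 1)) (y := N k) (hpp k (by omega)).1
        (hpp k (by omega)).2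
      rw [← hrec k (by omega)] at h1
      calc W (k + 1) ≤ (‖lam‖ * (1 + 1 / κ) + 2 * (1 + κ) * η) * W k := h1
        _ ≤ (‖lam‖ * exp ε) * W k := mul_le_mul_of_nonneg_right hq (hWn k)
        _ ≤ (‖lam‖ * exp ε) * (W 0 * (‖lam‖ * exp ε) ^ k) :=
            mul_le_mul_of_nonneg_left (ih (by omega)) (by positivity)
        _ = _ := by ring
  have h0 : W 0 ≤ (1 + κ) * ‖lam‖ * (|N 0| + |N 1|) := by
    simp only [hW, zero_add]
    have h1 : ‖(N 1 : ℂ) - lam * (N 0 : ℂ)‖ ≤ |N 1| + ‖lam‖ * |N 0| := by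
      calc _ ≤ ‖(N 1 : ℂ)‖ + ‖lam * (N 0 : ℂ)‖ := norm_sub_le _ _
        _ = _ := by rw [norm_mul, Complex.norm_real, Complex.norm_real, Real.norm_eq_abs,
            Real.norm_eq_abs]
    have h2 : κ * ‖(N 1 : ℂ) - lam * (N 0 : ℂ)‖ ≤ κ * (|N 1| + ‖lam‖ * |N 0|) :=
      mul_le_mul_of_nonneg_left h1 (by linarith)
    rw [Complex.norm_real (N 1), Real.norm_eq_abs]
    have a0 := abs_nonneg (N 0)
    have a1 := abs_nonneg (N 1)
    have h3 : |N 1| ≤ ‖lam‖ * |N 1| := le_mul_of_one_le_left a1 hl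
    have h4 : κ * |N 1| ≤ κ * (‖lam‖ * |N 1|) := mul_le_mul_of_nonneg_left h3 (by linarith)
    have h5 : 0 ≤ ‖lam‖ * |N 0| := by positivity
    nlinarith
  have hy : |N n| ≤ W n := by
    have hl0 : lam ≠ 0 := by
      intro h; rw [h, norm_zero] at hl; linarith
    simp only [hW]
    set x := N (n + 1)
    set y := N n
    set E : ℂ := (x : ℂ) - lam * (y : ℂ) with hE
    have e1 : (y : ℂ) = lam⁻¹ * ((x : ℂ) - E) := by
      rw [hE]; field_simp; ring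
    have e2 : ‖(y : ℂ)‖ ≤ ‖(x : ℂ)‖ + ‖E‖ := by
      rw [e1, norm_mul, norm_inv]
      have h1 : ‖(x : ℂ) - E‖ ≤ ‖(x : ℂ)‖ + ‖E‖ := norm_sub_le _ _
      have h2 : ‖lam‖⁻¹ ≤ 1 := inv_le_one_of_one_le₀ hl
      calc ‖lam‖⁻¹ * ‖(x : ℂ) - E‖ ≤ 1 * (‖(x : ℂ)‖ + ‖E‖) :=
            mul_le_mul h2 h1 (norm_nonneg _) zero_le_one
        _ = _ := one_mul _
    rw [Complex.norm_real y, Real.norm_eq_abs] at e2
    have h3 : ‖E‖ ≤ κ * ‖E‖ := le_mul_of_one_le_left (norm_nonneg _) hκ1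
    linarith
  have hx : |N (n + 1)| ≤ W n := by
    simp only [hW]
    rw [Complex.norm_real (N (n + 1)), Real.norm_eq_abs]
    have : 0 ≤ κ * ‖(N (n + 1) : ℂ) - lam * (N n : ℂ)‖ := by positivity
    linarith
  have hn := hind n le_rfl
  have hpow : 0 ≤ (‖lam‖ * exp ε) ^ n := by positivity
  calc |N n| + |N (n + 1)| ≤ 2 * W n := by linarith
    _ ≤ 2 * (W 0 * (‖lam‖ * exp ε) ^ n) := by linarith
    _ ≤ 2 * ((1 + κ) * ‖lam‖ * (|N 0| + |N 1|) * (‖lam‖ * exp ε) ^ n) := by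
        have := mul_le_mul_of_nonneg_right h0 hpow
        linarith
    _ = _ := by ring

/-- growth exponent -/
noncomputable def gr (c : ℝ) : ℝ := arcosh (max c 1)

lemma gr_nonneg (c : ℝ) : 0 ≤ gr c := arcosh_nonneg (le_max_right _ _)

lemma gr_of_le {c : ℝ} (h : c ≤ 1) : gr c = 0 := by
  unfold gr
  rw [max_eq_right h, arcosh_eq_zero_iff le_rfl]

lemma exists_lam {c : ℝ} (h : -1 ≤ c) :
    ∃ lam : ℂ, ‖lam‖ = exp (gr c) ∧ lam + lam⁻¹ = 2 * (c : ℂ) := by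
  rcases le_total c 1 with h1 | h1
  · refine ⟨Complex.exp (arccos c * Complex.I), ?_, ?_⟩
    · rw [Complex.norm_exp_ofReal_mul_I, gr_of_le h1, exp_zero]
    · rw [← Complex.exp_neg]
      have h2 : Complex.exp (arccos c * Complex.I) + Complex.exp (-(arccos c * Complex.I)) =
          2 * Complex.cos (arccos c) := by
        rw [Complex.cos]
        ring_nf
      rw [h2, ← Complex.ofReal_cos, cos_arccos h h1]
  · have hg : gr c = arcosh c := by unfold gr; rw [max_eq_left h1]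
    refine ⟨((exp (gr c) : ℝ) : ℂ), ?_, ?_⟩
    · rw [Complex.norm_real, Real.norm_eq_abs, abs_of_pos (exp_pos _)]
    · rw [← Complex.ofReal_inv, ← exp_neg, ← Complex.ofReal_add]
      have : exp (gr c) + exp (-gr c) = 2 * c := by
        have := cosh_arcosh h1
        rw [← hg, cosh_eq] at this
        linarith
      rw [this]
      push_cast; ring

end Run7.h27
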