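import Pool.Agent.Run7.h27.Rec4
import Pool.Agent.Run7.h27.Prod

/-!
# Local growth bounds along an edge
-/

set_option autoImplicit false

namespace Run7.h27

open Real Set Filter Topology

/-- lattice points near a given point -/
structure Near (r : ℕ) (T Q : Fin 4 → ℤ) (t q : Fin 4 → ℝ) (δ : ℝ) : Prop where
  Q0 : Q 0 = (r:ℤ) - 2
  sum : ∑ j, Q j - ∑ i, T i = (r:ℤ) - 2
  hT : ∀ i, |an r T i - t i| < δ
  hQ : ∀ i, |an r Q i - q i| < δ

lemma an_shT (r : ℕ) (T : Fin 4 → ℤ) (k : ℤ) :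
    an r (shT T k) = ![an r T 0 + 2 * π / r * k, an r T 1 + 2 * π / r * k, an r T 2, an r T 3] := by
  funext i
  unfold an shT
  fin_cases i <;> simp only [Fin.zero_eta, Fin.mk_one, Fin.reduceFinMk, Fin.isValue,
    Matrix.cons_val] <;> (try push_cast) <;> ring

lemma an_shQ (r : ℕ) (Q : Fin 4 → ℤ) (k : ℤ) :
    an r (shQ Q k) = ![an r Q 0, an r Q 1, an r Q 2 + 2 * π / r * k, an r Q 3 + 2 * π / r * k] := by
  funext i
  unfold an shQ
  fin_cases i <;> simp only [Fin.zero_eta, Fin.mk_one, Fin.reduceFinMk, Fin.isValue,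
    Matrix.cons_val] <;> (try push_cast) <;> ring

lemma shT_shT (T : Fin 4 → ℤ) (k l : ℤ) : shT (shT T k) l = shT T (k + l) := by
  funext i
  unfold shT
  fin_cases i <;> simp only [Fin.zero_eta, Fin.mk_one, Fin.reduceFinMk, Fin.isValue,
    Matrix.cons_val] <;> ring

lemma shQ_shQ (T : Fin 4 → ℤ) (k l : ℤ) : shQ (shQ T k) l = shQ T (k + l) := by
  funext i
  unfold shQ
  fin_cases i <;> simp only [Fin.zero_eta, Fin.mk_one, Fin.reduceFinMk, Fin.isValue,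
    Matrix.cons_val] <;> ring

lemma shT_zero (T : Fin 4 → ℤ) : shT T 0 = T := by
  funext i
  unfold shT
  fin_cases i <;> simp

lemma shQ_zero (T : Fin 4 → ℤ) : shQ T 0 = T := by
  funext i
  unfold shQ
  fin_cases i <;> simp

lemma sh_sum (T Q : Fin 4 → ℤ) (k : ℤ) :
    ∑ j, shQ Q k j - ∑ i, shT T k i = ∑ j, Q j - ∑ i, T i := by
  simp only [Fin.sum_univ_four, shT, shQ, Matrix.cons_val]
  ring

lemma conv_abs {x y c δ s : ℝ} (hx : |x - c| < δ) (hy : |x + y - c| < δ) (h0 : 0 ≤ s) (h1 : s ≤ 1) :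
    |x + s * y - c| < δ := by
  rw [abs_lt] at *
  obtain ⟨a1, a2⟩ := hx
  obtain ⟨b1, b2⟩ := hy
  have key : ∀ a b : ℝ, 0 < a → 0 < b → 0 < (1 - s) * a + s * b := by
    intro a b ha hb
    rcases eq_or_lt_of_le h0 with hs | hs
    · rw [← hs]; linarith
    · have h2 := mul_pos hs hb
      have h3 := mul_nonneg (sub_nonneg.mpr h1) ha.le
      linarith
  have k1 := key (x - c + δ) (x + y - c + δ) (by linarith) (by linarith)
  have k2 := key (δ - (x - c)) (δ - (x + y - c)) (by linarith) (by linarith)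
  constructor
  · have : (1 - s) * (x - c + δ) + s * (x + y - c + δ) = x + s * y - c + δ := by ring
    linarith
  · have : (1 - s) * (δ - (x - c)) + s * (δ - (x + y - c)) = δ - (x + s * y - c) := by ring
    linarith

/-- intermediate points are near -/
lemma Near.mid {r : ℕ} {T Q : Fin 4 → ℤ} {t q : Fin 4 → ℝ} {δ : ℝ} {n : ℕ} (h0 : Near r T Q t q δ)
    (h1 : Near r (shT T n) (shQ Q n) t q δ) {k : ℕ} (hk : k ≤ n) :
    Near r (shT T k) (shQ Q k) t q δ := by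
  rcases Nat.eq_zero_or_pos n with hn | hn
  · have : k = n := by omega
    rw [this]; exact h1
  have hs0 : (0:ℝ) ≤ (k:ℝ) / n := by positivity
  have hn' : (0:ℝ) < n := by exact_mod_cast hn
  have hs1 : (k:ℝ) / n ≤ 1 := by
    rw [div_le_one hn']; exact_mod_cast hk
  have e : 2 * π / r * ((k:ℤ):ℝ) = (k:ℝ) / n * (2 * π / r * ((n:ℤ):ℝ)) := by
    push_cast; field_simp
  refine ⟨h0.Q0, ?_, ?_, ?_⟩
  · rw [sh_sum]; exact h0.sum
  · intro i
    have a0 := h0.hT i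
    have a1 := h1.hT i
    rw [an_shT] at a1 ⊢
    fin_cases i
    · simp only [Fin.zero_eta, Fin.isValue, Matrix.cons_val] at *
      rw [e]; exact conv_abs a0 a1 hs0 hs1
    · simp only [Fin.mk_one, Fin.isValue, Matrix.cons_val] at *
      rw [e]; exact conv_abs a0 a1 hs0 hs1
    · exact a0
    · exact a0
  · intro i
    have a0 := h0.hQ i
    have a1 := h1.hQ i
    rw [an_shQ] at a1 ⊢
    fin_cases i
    · exact a0
    · exact a0
    · simp only [Fin.reduceFinMk, Fin.isValue, Matrix.cons_val] at *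
      rw [e]; exact conv_abs a0 a1 hs0 hs1
    · simp only [Fin.reduceFinMk, Fin.isValue, Matrix.cons_val] at *
      rw [e]; exact conv_abs a0 a1 hs0 hs1

/-- coefficients near a regular point -/
theorem near_rec {φ θ β1 β2 γ1 γ2 : ℝ} (h : Reg φ θ β1 β2 γ1 γ2) {η : ℝ} (hη : 0 < η) :
    ∃ δ > 0, ∃ R : ℕ, ∀ r : ℕ, R ≤ r → Odd r → ∀ T Q : Fin 4 → ℤ,
      Near r T Q (tvec φ θ β1 β2 γ1 γ2) (qvec φ θ β1 β2 γ1 γ2) δ →
      RecOK r T Q ∧ |Pc (an r T) (an r Q) (2 * π / r) - 2 * ce φ θ β1 β2 γ1 γ2| ≤ η ∧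
        |Pc' (an r T) (an r Q) (2 * π / r) - 1| ≤ η ∧
        |Pc (an r T) (an r Q) (2 * π / r) / Pc' (an r T) (an r Q) (2 * π / r) -
          2 * ce φ θ β1 β2 γ1 γ2| ≤ η ∧
        |1 / Pc' (an r T) (an r Q) (2 * π / r) - 1| ≤ η ∧
        Pc' (an r T) (an r Q) (2 * π / r) ≠ 0 := by
  have hs := reg_sines h
  have hP0 := Pc_zero h
  have hP1 := hs.Pc'_zero
  set t := tvec φ θ β1 β2 γ1 γ2 with ht
  set q := qvec φ θ β1 β2 γ1 γ2 with hq
  set c := ce φ θ β1 β2 γ1 γ2 with hc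
  have k1 : ∀ᶠ x in 𝓝 ((t, q, 0) : Par), fa x.1 x.2.1 x.2.2 ≠ 0 := ca_fa.eventually_ne hs.fa_ne
  have k2 : ∀ᶠ x in 𝓝 ((t, q, 0) : Par), fa' x.1 x.2.1 x.2.2 ≠ 0 := ca_fa'.eventually_ne hs.fa'_ne
  have k3 : ∀ᶠ x in 𝓝 ((t, q, 0) : Par), fc x.1 x.2.1 x.2.2 ≠ 0 := ca_fc.eventually_ne hs.fc_ne
  have k4 : ∀ᶠ x in 𝓝 ((t, q, 0) : Par), fcm x.1 x.2.1 x.2.2 ≠ 0 := ca_fcm.eventually_ne hs.fcm_ne
  have k5 : ∀ᶠ x in 𝓝 ((t, q, 0) : Par), |Pc x.1 x.2.1 x.2.2 - 2 * c| < η := by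
    have h1 := ca_Pc hs
    have h2 : ContinuousAt (fun x : Par => |Pc x.1 x.2.1 x.2.2 - 2 * c|) (t, q, 0) :=
      (h1.sub continuousAt_const).abs
    apply h2.eventually_lt continuousAt_const
    simp only
    rw [hP0, sub_self, abs_zero]; exact hη
  have k6 : ∀ᶠ x in 𝓝 ((t, q, 0) : Par), |Pc' x.1 x.2.1 x.2.2 - 1| < η := by
    have h1 := ca_Pc' hs
    have h2 : ContinuousAt (fun x : Par => |Pc' x.1 x.2.1 x.2.2 - 1|) (t, q, 0) :=
      (h1.sub continuousAt_const).abs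
    apply h2.eventually_lt continuousAt_const
    simp only
    rw [hP1, sub_self, abs_zero]; exact hη
  have hne : Pc' t q 0 ≠ 0 := by rw [hP1]; norm_num
  have k7 : ∀ᶠ x in 𝓝 ((t, q, 0) : Par), |Pc x.1 x.2.1 x.2.2 / Pc' x.1 x.2.1 x.2.2 - 2 * c| < η := by
    have h1 := (ca_Pc hs).div (ca_Pc' hs) hne
    have h2 : ContinuousAt (fun x : Par => |Pc x.1 x.2.1 x.2.2 / Pc' x.1 x.2.1 x.2.2 - 2 * c|) (t, q, 0) :=
      (h1.sub continuousAt_const).abs
    apply h2.eventually_lt continuousAt_const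
    simp only
    rw [hP1, hP0, div_one, sub_self, abs_zero]; exact hη
  have k8 : ∀ᶠ x in 𝓝 ((t, q, 0) : Par), |1 / Pc' x.1 x.2.1 x.2.2 - 1| < η := by
    have h1 : ContinuousAt (fun x : Par => (1:ℝ) / Pc' x.1 x.2.1 x.2.2) (t, q, 0) :=
      continuousAt_const.div (ca_Pc' hs) hne
    have h2 : ContinuousAt (fun x : Par => |1 / Pc' x.1 x.2.1 x.2.2 - 1|) (t, q, 0) :=
      (h1.sub continuousAt_const).abs
    apply h2.eventually_lt continuousAt_const
    simp only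
    rw [hP1, div_one, sub_self, abs_zero]; exact hη
  have k9 : ∀ᶠ x in 𝓝 ((t, q, 0) : Par), Pc' x.1 x.2.1 x.2.2 ≠ 0 := (ca_Pc' hs).eventually_ne hne
  have k10 : ∀ᶠ x in 𝓝 ((t, q, 0) : Par), ∀ i, 0 < x.1 i := by
    rw [eventually_all]
    intro i
    exact continuousAt_const.eventually_lt (c_t i _) (h.tvec i).1
  have k11 : ∀ᶠ x in 𝓝 ((t, q, 0) : Par), ∀ i j, 0 < x.2.1 j - x.1 i := by
    rw [eventually_all]
    intro i
    rw [eventually_all]
    intro j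
    apply continuousAt_const.eventually_lt ((c_q j _).sub (c_t i _))
    show 0 < q j - t i
    by_cases hj : j = 0
    · subst hj
      have h1 := (h.tvec i).2
      have : q 0 = 2 * π := rfl
      rw [this]
      linarith [pi_pos]
    · exact (h.qt i j hj).1
  have k12 : ∀ᶠ x in 𝓝 ((t, q, 0) : Par), ∀ j, j ≠ 0 → x.2.1 j + x.2.2 < 2 * π := by
    rw [eventually_all]
    intro j
    by_cases hj : j = 0
    · exact Filter.Eventually.of_forall (fun x h => absurd hj h)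
    · have : ∀ᶠ x in 𝓝 ((t, q, 0) : Par), x.2.1 j + x.2.2 < 2 * π := by
        apply ((c_q j _).add (c_h _)).eventually_lt continuousAt_const
        show q j + 0 < 2 * π
        have h1 := (h.tvec 0).2
        have h2 := (h.qt 0 j hj).2
        linarith
      filter_upwards [this] with x hx _
      exact hx
  have kall := ((((((((((k1.and k2).and k3).and k4).and k5).and k6).and k7).and k8).and k9).and k10).and
    k11).and k12
  rw [Metric.eventually_nhds_iff_ball] at kall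
  obtain ⟨δ, hδ, hball⟩ := kall
  obtain ⟨R0, hR0⟩ : ∃ R0 : ℕ, 2 * π / δ < R0 := exists_nat_gt _
  refine ⟨δ, hδ, max R0 3, ?_⟩
  intro r hr hodd T Q hN
  have hr3 : 3 ≤ r := (le_max_right _ _).trans hr
  have hrR : R0 ≤ r := (le_max_left _ _).trans hr
  have hr0 : (0:ℝ) < r := by exact_mod_cast (by omega : 0 < r)
  have hhp : 0 < 2 * π / (r:ℝ) := by positivity
  have hhd : 2 * π / (r:ℝ) < δ := by
    rw [div_lt_iff₀ hr0]
    rw [div_lt_iff₀ hδ] at hR0
    have : (R0:ℝ) ≤ r := by exact_mod_cast hrR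
    nlinarith
  have hmem : ((an r T, an r Q, 2 * π / (r:ℝ)) : Par) ∈ Metric.ball ((t, q, 0) : Par) δ := by
    rw [Metric.mem_ball, Prod.dist_eq, max_lt_iff, Prod.dist_eq, max_lt_iff]
    refine ⟨?_, ?_, ?_⟩
    · rw [dist_pi_lt_iff hδ]
      intro i
      rw [Real.dist_eq]; exact hN.hT i
    · rw [dist_pi_lt_iff hδ]
      intro i
      rw [Real.dist_eq]; exact hN.hQ i
    · simp only
      rw [Real.dist_eq, sub_zero, abs_of_pos hhp]; exact hhd
  obtain ⟨⟨⟨⟨⟨⟨⟨⟨⟨⟨⟨l1, l2⟩, l3⟩, l4⟩, l5⟩, l6⟩, l7⟩, l8⟩, l9⟩, l10⟩, l11⟩, l12⟩ := hball _ hmem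
  simp only at l1 l2 l3 l4 l5 l6 l7 l8 l9 l10 l11 l12
  refine ⟨⟨hodd, hr3, ?_, ?_, ?_, hN.sum, l1, l2, l3, l4⟩, l5.le, l6.le, l7.le, l8.le, l9⟩
  · intro i
    have := l10 i
    unfold an at this
    have : (0:ℝ) < T i := by
      by_contra hh
      push Not at hh
      have := mul_nonpos_of_nonneg_of_nonpos hhp.le hh
      linarith
    have : (0:ℤ) < T i := by exact_mod_cast this
    omega
  · intro j
    by_cases hj : j = 0
    · subst hj; rw [hN.Q0]; omega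
    · have := l12 j hj
      unfold an at this
      have h1 : 2 * π / (r:ℝ) * ((Q j:ℝ) + 1) < 2 * π / r * r := by
        have : 2 * π / (r:ℝ) * r = 2 * π := by field_simp
        rw [this]; linarith
      have h2 := lt_of_mul_lt_mul_left h1 hhp.le
      exact_mod_cast h2
  · intro i j
    have := l11 i j
    unfold an at this
    have h1 : 2 * π / (r:ℝ) * (T i:ℝ) < 2 * π / r * Q j := by linarith
    have h2 := lt_of_mul_lt_mul_left h1 hhp.le
    have h3 : T i < Q j := by exact_mod_cast h2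
    omega

/-- size of a pair of neighbours -/
noncomputable def AA2 (r : ℕ) (T Q : Fin 4 → ℤ) : ℝ := |N4 r T Q| + |N4 r (shT T 1) (shQ Q 1)|

/-- local growth bound in both directions -/
theorem local_prod {φ θ β1 β2 γ1 γ2 : ℝ} (h : Reg φ θ β1 β2 γ1 γ2) (hc : -1 ≤ ce φ θ β1 β2 γ1 γ2)
    {ε : ℝ} (hε : 0 < ε) :
    ∃ δ > 0, ∃ K > 0, ∃ R : ℕ, ∀ r : ℕ, R ≤ r → Odd r → ∀ (T Q : Fin 4 → ℤ) (n : ℕ),
      Near r T Q (tvec φ θ β1 β2 γ1 γ2) (qvec φ θ β1 β2 γ1 γ2) δ →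
      Near r (shT T n) (shQ Q n) (tvec φ θ β1 β2 γ1 γ2) (qvec φ θ β1 β2 γ1 γ2) δ →
      AA2 r (shT T n) (shQ Q n) ≤ K * AA2 r T Q * exp (gr (ce φ θ β1 β2 γ1 γ2) + ε) ^ n ∧
      AA2 r T Q ≤ K * AA2 r (shT T n) (shQ Q n) * exp (gr (ce φ θ β1 β2 γ1 γ2) + ε) ^ n := by
  obtain ⟨lam, hlam, hl⟩ := exists_lam hc
  have hl1 : 1 ≤ ‖lam‖ := by rw [hlam]; exact one_le_exp (gr_nonneg _)
  obtain ⟨η, hη, K, hK, hprod⟩ := prod_bound hl1 hl hε
  obtain ⟨δ, hδ, R, hR⟩ := near_rec h hη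
  refine ⟨δ, hδ, K, hK, R, ?_⟩
  intro r hr hodd T Q n h0 h1
  rw [exp_add, ← hlam]
  set N : ℕ → ℝ := fun k => N4 r (shT T k) (shQ Q k) with hN
  set p : ℕ → ℝ := fun k => Pc (an r (shT T (k + 1 : ℕ))) (an r (shQ Q (k + 1 : ℕ))) (2 * π / r) with hp
  set p' : ℕ → ℝ := fun k => Pc' (an r (shT T (k + 1 : ℕ))) (an r (shQ Q (k + 1 : ℕ))) (2 * π / r) with hp'
  have hNn : AA2 r (shT T n) (shQ Q n) = |N n| + |N (n + 1)| := by
    unfold AA2
    rw [shT_shT, shQ_shQ, hN]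
    simp only
    push_cast
    rfl
  have hN0 : AA2 r T Q = |N 0| + |N 1| := by
    unfold AA2
    rw [hN]
    simp only [Nat.cast_zero, Nat.cast_one]
    rw [shT_zero, shQ_zero]
  rw [hNn, hN0]
  have hnear : ∀ k, k < n → Near r (shT T (k + 1 : ℕ)) (shQ Q (k + 1 : ℕ)) (tvec φ θ β1 β2 γ1 γ2)
      (qvec φ θ β1 β2 γ1 γ2) δ := fun k hk => h0.mid h1 (by omega)
  have hrec : ∀ k, k < n → N (k + 2) = p k * N (k + 1) - p' k * N k := by
    intro k hk
    obtain ⟨ok, _⟩ := hR r hr hodd _ _ (hnear k hk)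
    have := rec_N ok
    rw [shT_shT, shQ_shQ, shT_shT, shQ_shQ] at this
    simp only [hN, hp, hp']
    have e1 : ((k + 1 : ℕ) : ℤ) + 1 = ((k + 2 : ℕ) : ℤ) := by push_cast; ring
    have e2 : ((k + 1 : ℕ) : ℤ) + -1 = ((k : ℕ) : ℤ) := by push_cast; ring
    rw [e1, e2] at this
    exact this
  constructor
  · apply hprod n N p p' hrec
    intro k hk
    obtain ⟨_, a, b, _⟩ := hR r hr hodd _ _ (hnear k hk)
    exact ⟨a, b⟩
  · have := hprod n (fun k => N (n + 1 - k)) (fun k => p (n - 1 - k) / p' (n - 1 - k))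
      (fun k => 1 / p' (n - 1 - k)) (by
        intro k hk
        obtain ⟨_, _, _, _, _, hne⟩ := hR r hr hodd _ _ (hnear (n - 1 - k) (by omega))
        have h2 := hrec (n - 1 - k) (by omega)
        have hne' : p' (n - 1 - k) ≠ 0 := hne
        rw [show n - 1 - k + 2 = n + 1 - k by omega, show n - 1 - k + 1 = n + 1 - (k + 1) by omega] at h2
        rw [show n + 1 - (k + 2) = n - 1 - k by omega, h2]
        field_simp
        ring)
      (by
        intro k hk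
        obtain ⟨_, _, _, a, b, _⟩ := hR r hr hodd _ _ (hnear (n - 1 - k) (by omega))
        exact ⟨a, b⟩)
    simp only [Nat.sub_zero, Nat.sub_self, Nat.add_sub_cancel] at this
    rw [show n + 1 - n = 1 by omega] at this
    rw [add_comm (|N (n + 1)|), add_comm (|N 1|)] at this
    exact this

end Run7.h27
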