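import Pool.Agent.Run7.h27.Loc1

/-!
# Transfer of growth bounds along an edge, for sequences
-/

set_option autoImplicit false

namespace Run7.h27

open Real Set Filter Topology

/-- sequences of lattice points with given limits -/
structure LimS (T Q : ℕ → Fin 4 → ℤ) (t q : Fin 4 → ℝ) : Prop where
  Q0 : ∀ᶠ r in oddTop, Q r 0 = (r:ℤ) - 2
  sum : ∀ᶠ r in oddTop, ∑ j, Q r j - ∑ i, T r i = (r:ℤ) - 2
  hT : ∀ i, Tendsto (fun r : ℕ => an r (T r) i) oddTop (𝓝 (t i))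
  hQ : ∀ i, Tendsto (fun r : ℕ => an r (Q r) i) oddTop (𝓝 (q i))

/-- real shift, lower parameters -/
def rt (t : Fin 4 → ℝ) (s : ℝ) : Fin 4 → ℝ := ![t 0 + s, t 1 + s, t 2, t 3]

/-- real shift, upper parameters -/
def rq (q : Fin 4 → ℝ) (s : ℝ) : Fin 4 → ℝ := ![q 0, q 1, q 2 + s, q 3 + s]

lemma tvec_shift (φ θ β1 β2 γ1 γ2 s : ℝ) :
    tvec (φ - 2 * s) θ β1 β2 γ1 γ2 = rt (tvec φ θ β1 β2 γ1 γ2) s := by
  unfold tvec rt Tv
  funext i
  fin_cases i <;> simp only [Fin.zero_eta, Fin.mk_one, Fin.reduceFinMk, Fin.isValue,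
    Matrix.cons_val] <;> ring

lemma qvec_shift (φ θ β1 β2 γ1 γ2 s : ℝ) :
    qvec (φ - 2 * s) θ β1 β2 γ1 γ2 = rq (qvec φ θ β1 β2 γ1 γ2) s := by
  unfold qvec rq Qv
  funext i
  fin_cases i <;> simp only [Fin.zero_eta, Fin.mk_one, Fin.reduceFinMk, Fin.isValue,
    Matrix.cons_val] <;> ring

lemma LimS.shift {T Q : ℕ → Fin 4 → ℤ} {t q : Fin 4 → ℝ} (h : LimS T Q t q) {n : ℕ → ℤ} {s : ℝ}
    (hn : Tendsto (fun r : ℕ => 2 * π / (r:ℝ) * (n r : ℝ)) oddTop (𝓝 s)) :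
    LimS (fun r => shT (T r) (n r)) (fun r => shQ (Q r) (n r)) (rt t s) (rq q s) := by
  refine ⟨h.Q0, ?_, ?_, ?_⟩
  · filter_upwards [h.sum] with r hr
    rw [sh_sum]; exact hr
  · intro i
    simp only [an_shT]
    unfold rt
    fin_cases i <;> simp only [Fin.zero_eta, Fin.mk_one, Fin.reduceFinMk, Fin.isValue,
      Matrix.cons_val]
    · exact (h.hT 0).add hn
    · exact (h.hT 1).add hn
    · exact h.hT 2
    · exact h.hT 3
  · intro i
    simp only [an_shQ]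
    unfold rq
    fin_cases i <;> simp only [Fin.zero_eta, Fin.mk_one, Fin.reduceFinMk, Fin.isValue,
      Matrix.cons_val]
    · exact h.hQ 0
    · exact h.hQ 1
    · exact (h.hQ 2).add hn
    · exact (h.hQ 3).add hn

lemma LimS.near {T Q : ℕ → Fin 4 → ℤ} {t q t0 q0 : Fin 4 → ℝ} {δ : ℝ} (h : LimS T Q t q)
    (ht : ∀ i, |t i - t0 i| < δ) (hq : ∀ i, |q i - q0 i| < δ) :
    ∀ᶠ r in oddTop, Near r (T r) (Q r) t0 q0 δ := by
  have h1 : ∀ᶠ r in oddTop, ∀ i, |an r (T r) i - t0 i| < δ := by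
    rw [eventually_all]
    intro i
    exact (((h.hT i).sub_const _).abs).eventually_lt_const (ht i)
  have h2 : ∀ᶠ r in oddTop, ∀ i, |an r (Q r) i - q0 i| < δ := by
    rw [eventually_all]
    intro i
    exact (((h.hQ i).sub_const _).abs).eventually_lt_const (hq i)
  filter_upwards [h.Q0, h.sum, h1, h2] with r a b c d
  exact ⟨a, b, c, d⟩

/-- upper bound for the growth at a point -/
def UB (t q : Fin 4 → ℝ) (C : ℝ) : Prop :=
  ∀ T Q : ℕ → Fin 4 → ℤ, LimS T Q t q → ∀ ε > 0, ∀ᶠ r in oddTop,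
    |N4 r (T r) (Q r)| ≤ exp ((r:ℝ) / (2 * π) * (C + ε))

lemma UB.mono {t q : Fin 4 → ℝ} {C C' : ℝ} (h : UB t q C) (hC : C ≤ C') : UB t q C' := by
  intro T Q hl ε hε
  filter_upwards [h T Q hl ε hε] with r hr
  apply hr.trans
  apply exp_le_exp.mpr
  apply mul_le_mul_of_nonneg_left (by linarith)
  have := pi_pos
  positivity

lemma UB.closed {t q : Fin 4 → ℝ} {C : ℝ} (h : ∀ ε > 0, UB t q (C + ε)) : UB t q C := by
  intro T Q hl ε hε
  filter_upwards [h (ε / 2) (by positivity) T Q hl (ε / 2) (by positivity)] with r hr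
  rwa [show C + ε / 2 + ε / 2 = C + ε by ring] at hr

lemma ev_large (a : ℝ) {ε : ℝ} (hε : 0 < ε) : ∀ᶠ r : ℕ in oddTop, a ≤ (r:ℝ) / (2 * π) * ε := by
  have h1 : Tendsto (fun r : ℕ => (r:ℝ) / (2 * π) * ε) atTop atTop := by
    apply Tendsto.atTop_mul_const hε
    apply Tendsto.atTop_div_const (by positivity)
    exact tendsto_natCast_atTop_atTop
  exact (h1.mono_left oddTop_le).eventually_ge_atTop a

/-- integer approximations -/
lemma floor_tendsto {s : ℝ} (hs : 0 ≤ s) :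
    Tendsto (fun r : ℕ => 2 * π / (r:ℝ) * (⌊s * r / (2 * π)⌋₊ : ℝ)) oddTop (𝓝 s) := by
  have h1 : Tendsto (fun r : ℕ => 2 * π / (r:ℝ)) oddTop (𝓝 0) :=
    (tendsto_const_div_atTop_nhds_zero_nat (2 * π)).mono_left oddTop_le
  have h2 : Tendsto (fun r : ℕ => s - 2 * π / (r:ℝ)) oddTop (𝓝 s) := by
    have := h1.const_sub s
    rwa [sub_zero] at this
  have hp := pi_pos
  apply tendsto_of_tendsto_of_tendsto_of_le_of_le' h2 tendsto_const_nhds
  · filter_upwards [ev_of_ge 3 (fun r h _ => h)] with r hr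
    have hr0 : (0:ℝ) < r := by exact_mod_cast (by omega : 0 < r)
    have := Nat.lt_floor_add_one (s * r / (2 * π))
    have h3 : 2 * π / (r:ℝ) * (s * r / (2 * π)) ≤ 2 * π / (r:ℝ) * (⌊s * r / (2 * π)⌋₊ + 1) :=
      mul_le_mul_of_nonneg_left this.le (by positivity)
    have h4 : 2 * π / (r:ℝ) * (s * r / (2 * π)) = s := by field_simp
    rw [h4] at h3
    linarith
  · filter_upwards [ev_of_ge 3 (fun r h _ => h)] with r hr
    have hr0 : (0:ℝ) < r := by exact_mod_cast (by omega : 0 < r)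
    have := Nat.floor_le (show 0 ≤ s * r / (2 * π) by positivity)
    have h3 : 2 * π / (r:ℝ) * (⌊s * r / (2 * π)⌋₊ : ℝ) ≤ 2 * π / (r:ℝ) * (s * r / (2 * π)) :=
      mul_le_mul_of_nonneg_left this (by positivity)
    have h4 : 2 * π / (r:ℝ) * (s * r / (2 * π)) = s := by field_simp
    linarith

lemma floor_bound {s : ℝ} (hs : 0 ≤ s) (r : ℕ) : (⌊s * r / (2 * π)⌋₊ : ℝ) ≤ (r:ℝ) / (2 * π) * s := by
  have hp := pi_pos
  have := Nat.floor_le (show 0 ≤ s * r / (2 * π) by positivity)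
  calc (⌊s * r / (2 * π)⌋₊ : ℝ) ≤ s * r / (2 * π) := this
    _ = _ := by ring

/-- closeness of the parameters from closeness of the angles -/
lemma vec_close {φ θ β1 β2 γ1 γ2 φ' θ' β1' β2' γ1' γ2' δ : ℝ} (h1 : |φ' - φ| < δ) (h2 : |θ' - θ| < δ)
    (h3 : |β1' - β1| < δ) (h4 : |β2' - β2| < δ) (h5 : |γ1' - γ1| < δ) (h6 : |γ2' - γ2| < δ) :
    (∀ i, |tvec φ' θ' β1' β2' γ1' γ2' i - tvec φ θ β1 β2 γ1 γ2 i| < 2 * δ) ∧
    (∀ i, |qvec φ' θ' β1' β2' γ1' γ2' i - qvec φ θ β1 β2 γ1 γ2 i| < 2 * δ) := by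
  have hδ : 0 < δ := lt_of_le_of_lt (abs_nonneg _) h1
  rw [abs_lt] at h1 h2 h3 h4 h5 h6
  constructor
  · intro i
    unfold tvec Tv
    rw [abs_lt]
    fin_cases i <;> simp only [Fin.zero_eta, Fin.mk_one, Fin.reduceFinMk, Fin.isValue,
      Matrix.cons_val] <;> constructor <;> linarith
  · intro i
    unfold qvec Qv
    rw [abs_lt]
    fin_cases i <;> simp only [Fin.zero_eta, Fin.mk_one, Fin.reduceFinMk, Fin.isValue,
      Matrix.cons_val] <;> constructor <;> linarith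

/-- local transfer of upper bounds along the first edge -/
theorem UB_step {φ θ β1 β2 γ1 γ2 : ℝ} (h : Reg φ θ β1 β2 γ1 γ2) (hc : -1 ≤ ce φ θ β1 β2 γ1 γ2)
    {ε : ℝ} (hε : 0 < ε) :
    ∃ δ > 0, ∀ φ1 φ2 θ' β1' β2' γ1' γ2' C : ℝ, |φ1 - φ| < δ → |φ2 - φ| < δ → |θ' - θ| < δ →
      |β1' - β1| < δ → |β2' - β2| < δ → |γ1' - γ1| < δ → |γ2' - γ2| < δ →
      UB (tvec φ1 θ' β1' β2' γ1' γ2') (qvec φ1 θ' β1' β2' γ1' γ2') C →
      UB (tvec φ2 θ' β1' β2' γ1' γ2') (qvec φ2 θ' β1' β2' γ1' γ2')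
        (C + |φ1 - φ2| / 2 * (gr (ce φ θ β1 β2 γ1 γ2) + ε)) := by
  obtain ⟨δ, hδ, K, hK, R, hloc⟩ := local_prod h hc hε
  refine ⟨δ / 2, by positivity, ?_⟩
  intro φ1 φ2 θ' β1' β2' γ1' γ2' C h1 h2 h3 h4 h5 h6 h7 hUB T Q hl ε1 hε1
  have hgr := gr_nonneg (ce φ θ β1 β2 γ1 γ2)
  set G := gr (ce φ θ β1 β2 γ1 γ2) + ε with hG
  have hG0 : 0 ≤ G := by linarith
  obtain ⟨c1, c2⟩ := vec_close h1 h3 h4 h5 h6 h7
  obtain ⟨c3, c4⟩ := vec_close h2 h3 h4 h5 h6 h7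
  rw [show 2 * (δ / 2) = δ by ring] at c1 c2 c3 c4
  set s := (φ1 - φ2) / 2 with hs
  have habs : |φ1 - φ2| / 2 = |s| := by rw [hs, abs_div]; norm_num
  rw [habs]
  have hp := pi_pos
  have h0r : Tendsto (fun r : ℕ => 2 * π / (r:ℝ)) oddTop (𝓝 0) :=
    (tendsto_const_div_atTop_nhds_zero_nat (2 * π)).mono_left oddTop_le
  -- a shifted sequence `T r + k r`, with `AA2` bound
  obtain ⟨k, n, hkn, hk, hkn'⟩ : ∃ (k : ℕ → ℤ) (n : ℕ → ℕ),
      (∀ r, (n r : ℝ) ≤ (r:ℝ) / (2 * π) * |s|) ∧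
      Tendsto (fun r : ℕ => 2 * π / (r:ℝ) * (k r : ℝ)) oddTop (𝓝 (-s)) ∧
      ((∀ r, k r = -(n r : ℤ)) ∨ (∀ r, k r = (n r : ℤ))) := by
    rcases le_total 0 s with hs0 | hs0
    · refine ⟨fun r => -(⌊s * r / (2 * π)⌋₊ : ℤ), fun r => ⌊s * r / (2 * π)⌋₊, ?_, ?_, Or.inl (fun _ => rfl)⟩
      · intro r; rw [abs_of_nonneg hs0]; exact floor_bound hs0 r
      · have := (floor_tendsto hs0).neg
        apply this.congr
        intro r
        push_cast; ring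
    · have hs1 : 0 ≤ -s := by linarith
      refine ⟨fun r => (⌊-s * r / (2 * π)⌋₊ : ℤ), fun r => ⌊-s * r / (2 * π)⌋₊, ?_, ?_, Or.inr (fun _ => rfl)⟩
      · intro r; rw [abs_of_nonpos hs0]; exact floor_bound hs1 r
      · have := floor_tendsto hs1
        apply this.congr
        intro r
        push_cast; ring
  have e1 : rt (tvec φ2 θ' β1' β2' γ1' γ2') (-s) = tvec φ1 θ' β1' β2' γ1' γ2' := by
    rw [← tvec_shift]; congr 1; rw [hs]; ring
  have e2 : rq (qvec φ2 θ' β1' β2' γ1' γ2') (-s) = qvec φ1 θ' β1' β2' γ1' γ2' := by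
    rw [← qvec_shift]; congr 1; rw [hs]; ring
  have l1 : LimS (fun r => shT (T r) (k r)) (fun r => shQ (Q r) (k r))
      (tvec φ1 θ' β1' β2' γ1' γ2') (qvec φ1 θ' β1' β2' γ1' γ2') := by
    rw [← e1, ← e2]; exact hl.shift hk
  have l2 : LimS (fun r => shT (T r) (k r + 1)) (fun r => shQ (Q r) (k r + 1))
      (tvec φ1 θ' β1' β2' γ1' γ2') (qvec φ1 θ' β1' β2' γ1' γ2') := by
    rw [← e1, ← e2]
    apply hl.shift
    have := hk.add h0r
    rw [add_zero] at this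
    apply this.congr
    intro r
    push_cast; ring
  have b1 := hUB _ _ l1 (ε1 / 2) (by positivity)
  have b2 := hUB _ _ l2 (ε1 / 2) (by positivity)
  have n1 := l1.near c1 c2
  have n2 := hl.near c3 c4
  filter_upwards [b1, b2, n1, n2, ev_of_ge R (fun r hr ho => hloc r hr ho),
    ev_large (Real.log (2 * K)) (show 0 < ε1 / 2 by positivity)] with r b1 b2 n1 n2 hloc hlarge
  have hA : AA2 r (shT (T r) (k r)) (shQ (Q r) (k r)) ≤ 2 * exp ((r:ℝ) / (2 * π) * (C + ε1 / 2)) := by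
    unfold AA2
    rw [shT_shT, shQ_shQ]
    linarith
  have hmain : AA2 r (T r) (Q r) ≤ K * AA2 r (shT (T r) (k r)) (shQ (Q r) (k r)) * exp G ^ n r := by
    rcases hkn' with hk | hk
    · have := (hloc (shT (T r) (k r)) (shQ (Q r) (k r)) (n r) n1 (by
        rw [shT_shT, shQ_shQ, hk r, neg_add_cancel, shT_zero, shQ_zero]; exact n2)).1
      rw [shT_shT, shQ_shQ, hk r, neg_add_cancel, shT_zero, shQ_zero] at this
      rw [hk r]
      exact this
    · have := (hloc (T r) (Q r) (n r) n2 (by rw [← hk r]; exact n1)).2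
      rw [hk r]
      exact this
  have hn : exp G ^ n r ≤ exp ((r:ℝ) / (2 * π) * (|s| * G)) := by
    rw [← exp_nat_mul]
    apply exp_le_exp.mpr
    have := mul_le_mul_of_nonneg_right (hkn r) hG0
    linarith
  have hK2 : 2 * K ≤ exp ((r:ℝ) / (2 * π) * (ε1 / 2)) := by
    rw [← Real.log_le_iff_le_exp (by positivity)]; exact hlarge
  calc |N4 r (T r) (Q r)| ≤ AA2 r (T r) (Q r) := by
        unfold AA2
        linarith [abs_nonneg (N4 r (shT (T r) 1) (shQ (Q r) 1))]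
    _ ≤ K * AA2 r (shT (T r) (k r)) (shQ (Q r) (k r)) * exp G ^ n r := hmain
    _ ≤ K * (2 * exp ((r:ℝ) / (2 * π) * (C + ε1 / 2))) * exp ((r:ℝ) / (2 * π) * (|s| * G)) := by
        apply mul_le_mul _ hn (by positivity) (by positivity)
        exact mul_le_mul_of_nonneg_left hA hK.le
    _ = 2 * K * (exp ((r:ℝ) / (2 * π) * (C + ε1 / 2)) * exp ((r:ℝ) / (2 * π) * (|s| * G))) := by ring
    _ ≤ exp ((r:ℝ) / (2 * π) * (ε1 / 2)) *
        (exp ((r:ℝ) / (2 * π) * (C + ε1 / 2)) * exp ((r:ℝ) / (2 * π) * (|s| * G))) :=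
        mul_le_mul_of_nonneg_right hK2 (by positivity)
    _ = exp ((r:ℝ) / (2 * π) * (C + |s| * G + ε1)) := by
        rw [← exp_add, ← exp_add]
        congr 1
        ring

end Run7.h27
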