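import Pool.Agent.Run7.h27.Loc2

/-!
# Transfer of lower bounds for pairs of neighbours along an edge
-/

set_option autoImplicit false

namespace Run7.h27

open Real Set Filter Topology

/-- lower bound for the size of pairs of neighbours -/
def LB (t q : Fin 4 → ℝ) (C : ℝ) : Prop :=
  ∀ T Q : ℕ → Fin 4 → ℤ, LimS T Q t q → ∀ ε > 0, ∀ᶠ r : ℕ in oddTop,
    exp ((r:ℝ) / (2 * π) * (-C - ε)) ≤ AA2 r (T r) (Q r)

lemma LB.mono {t q : Fin 4 → ℝ} {C C' : ℝ} (h : LB t q C) (hC : C ≤ C') : LB t q C' := by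
  intro T Q hl ε hε
  filter_upwards [h T Q hl ε hε] with r hr
  refine le_trans ?_ hr
  apply exp_le_exp.mpr
  apply mul_le_mul_of_nonneg_left (by linarith)
  have := pi_pos
  positivity

lemma LB.closed {t q : Fin 4 → ℝ} {C : ℝ} (h : ∀ ε > 0, LB t q (C + ε)) : LB t q C := by
  intro T Q hl ε hε
  filter_upwards [h (ε / 2) (by positivity) T Q hl (ε / 2) (by positivity)] with r hr
  rwa [show -(C + ε / 2) - ε / 2 = -C - ε by ring] at hr

/-- local transfer of lower bounds along the first edge -/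
theorem LB_step {φ θ β1 β2 γ1 γ2 : ℝ} (h : Reg φ θ β1 β2 γ1 γ2) (hc : -1 ≤ ce φ θ β1 β2 γ1 γ2)
    {ε : ℝ} (hε : 0 < ε) :
    ∃ δ > 0, ∀ φ1 φ2 θ' β1' β2' γ1' γ2' C : ℝ, |φ1 - φ| < δ → |φ2 - φ| < δ → |θ' - θ| < δ →
      |β1' - β1| < δ → |β2' - β2| < δ → |γ1' - γ1| < δ → |γ2' - γ2| < δ →
      LB (tvec φ1 θ' β1' β2' γ1' γ2') (qvec φ1 θ' β1' β2' γ1' γ2') C →
      LB (tvec φ2 θ' β1' β2' γ1' γ2') (qvec φ2 θ' β1' β2' γ1' γ2')
        (C + |φ1 - φ2| / 2 * (gr (ce φ θ β1 β2 γ1 γ2) + ε)) := by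
  obtain ⟨δ, hδ, K, hK, R, hloc⟩ := local_prod h hc hε
  refine ⟨δ / 2, by positivity, ?_⟩
  intro φ1 φ2 θ' β1' β2' γ1' γ2' C h1 h2 h3 h4 h5 h6 h7 hLB T Q hl ε1 hε1
  have hgr := gr_nonneg (ce φ θ β1 β2 γ1 γ2)
  set G := gr (ce φ θ β1 β2 γ1 γ2) + ε with hG
  have hG0 : 0 ≤ G := by linarith
  obtain ⟨c1, c2⟩ := vec_close h1 h3 h4 h5 h6 h7
  obtain ⟨c3, c4⟩ := vec_close h2 h3 h4 h5 h6 h7
  rw [show 2 * (δ / 2) = δ by ring] at c1 c2 c3 c4
  set s := (φ1 - φ2) / 2 with hs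
  have habs : |φ1 - φ2| / 2 = |s| := by rw [hs, abs_div]; norm_num
  rw [habs]
  have hp := pi_pos
  obtain ⟨k, n, hkn, hk, hkn'⟩ : ∃ (k : ℕ → ℤ) (n : ℕ → ℕ),
      (∀ r, (n r : ℝ) ≤ (r:ℝ) / (2 * π) * |s|) ∧
      Tendsto (fun r : ℕ => 2 * π / (r:ℝ) * (k r : ℝ)) oddTop (𝓝 (-s)) ∧
      ((∀ r, k r = -(n r : ℤ)) ∨ (∀ r, k r = (n r : ℤ))) := by
    rcases le_total 0 s with hs0 | hs0
    · refine ⟨fun r => -(⌊s * r / (2 * π)⌋₊ : ℤ), fun r => ⌊s * r / (2 * π)⌋₊, ?_, ?_, Or.inl (fun _ => rfl)⟩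
      · intro r; rw [abs_of_nonneg hs0]; exact floor_bound hs0 r
      · have := (floor_tendsto hs0).neg
        apply this.congr
        intro r
        push_cast; ring
    · have hs1 : 0 ≤ -s := by linarith
      refine ⟨fun r => (⌊-s * r / (2 * π)⌋₊ : ℤ), fun r => ⌊-s * r / (2 * π)⌋₊, ?_, ?_, Or.inr (fun _ => rfl)⟩
      · intro r; rw [abs_of_nonpos hs0]; exact floor_bound hs1 r
      · have := floor_tendsto hs1
        apply this.congr
        intro r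
        push_cast; ring
  have e1 : rt (tvec φ2 θ' β1' β2' γ1' γ2') (-s) = tvec φ1 θ' β1' β2' γ1' γ2' := by
    rw [← tvec_shift]; congr 1; rw [hs]; ring
  have e2 : rq (qvec φ2 θ' β1' β2' γ1' γ2') (-s) = qvec φ1 θ' β1' β2' γ1' γ2' := by
    rw [← qvec_shift]; congr 1; rw [hs]; ring
  have l1 : LimS (fun r => shT (T r) (k r)) (fun r => shQ (Q r) (k r))
      (tvec φ1 θ' β1' β2' γ1' γ2') (qvec φ1 θ' β1' β2' γ1' γ2') := by
    rw [← e1, ← e2]; exact hl.shift hk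
  have b1 := hLB _ _ l1 (ε1 / 2) (by positivity)
  have n1 := l1.near c1 c2
  have n2 := hl.near c3 c4
  filter_upwards [b1, n1, n2, ev_of_ge R (fun r hr ho => hloc r hr ho),
    ev_large (Real.log K) (show 0 < ε1 / 2 by positivity)] with r b1 n1 n2 hloc hlarge
  have hmain : AA2 r (shT (T r) (k r)) (shQ (Q r) (k r)) ≤ K * AA2 r (T r) (Q r) * exp G ^ n r := by
    rcases hkn' with hk | hk
    · have := (hloc (shT (T r) (k r)) (shQ (Q r) (k r)) (n r) n1 (by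
        rw [shT_shT, shQ_shQ, hk r, neg_add_cancel, shT_zero, shQ_zero]; exact n2)).2
      rw [shT_shT, shQ_shQ, hk r, neg_add_cancel, shT_zero, shQ_zero] at this
      rw [hk r]
      exact this
    · have := (hloc (T r) (Q r) (n r) n2 (by rw [← hk r]; exact n1)).1
      rw [hk r]
      exact this
  have hn : exp G ^ n r ≤ exp ((r:ℝ) / (2 * π) * (|s| * G)) := by
    rw [← exp_nat_mul]
    apply exp_le_exp.mpr
    have := mul_le_mul_of_nonneg_right (hkn r) hG0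
    linarith
  have hK2 : K ≤ exp ((r:ℝ) / (2 * π) * (ε1 / 2)) := by
    rw [← Real.log_le_iff_le_exp (by positivity)]; exact hlarge
  have hA0 : 0 ≤ AA2 r (T r) (Q r) := by unfold AA2; positivity
  have h8 : exp ((r:ℝ) / (2 * π) * (-C - ε1 / 2)) ≤ exp ((r:ℝ) / (2 * π) * (ε1 / 2)) *
      AA2 r (T r) (Q r) * exp ((r:ℝ) / (2 * π) * (|s| * G)) := by
    refine b1.trans (hmain.trans ?_)
    apply mul_le_mul _ hn (by positivity) (by positivity)
    exact mul_le_mul_of_nonneg_right hK2 hA0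
  have h9 : exp ((r:ℝ) / (2 * π) * (-C - ε1 / 2)) = exp ((r:ℝ) / (2 * π) * (ε1 / 2)) *
      exp ((r:ℝ) / (2 * π) * (-(C + |s| * G) - ε1)) * exp ((r:ℝ) / (2 * π) * (|s| * G)) := by
    rw [← exp_add, ← exp_add]
    congr 1
    ring
  rw [h9] at h8
  have h10 := le_of_mul_le_mul_right h8 (exp_pos _)
  exact le_of_mul_le_mul_left h10 (exp_pos _)

end Run7.h27
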