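import Pool.Agent.Run7.h27.EndL
import Pool.Agent.Run7.h27.Loc3

/-!
# The lower bound and the growth for every compact tetrahedron
-/

set_option autoImplicit false

namespace Run7.h27

open Real Set Filter Topology

lemma Kb_N4 (r : ℕ) (T Q : Fin 4 → ℤ) :
    Kb r T Q = s1 r * exp (-LL r (r - 1)) * |N4 r T Q| := by
  unfold Kb N4
  rw [abs_mul, abs_of_pos (exp_pos _), sub_eq_add_neg, exp_add]
  ring

/-- from the growth of the bracket to a lower bound of pairs -/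
lemma LB_of_growth {t q : Fin 4 → ℝ} {V : ℝ} (hV : 0 < V)
    (h : ∀ T Q : ℕ → Fin 4 → ℤ, LimS T Q t q →
      Tendsto (fun r : ℕ => 2 * π / r * Real.log (Kb r (T r) (Q r))) oddTop (𝓝 V)) :
    LB t q (-V) := by
  intro T Q hl ε hε
  obtain ⟨ε1, hε1, h1, h2⟩ : ∃ ε1 > 0, ε1 ≤ ε / 3 ∧ ε1 ≤ V / 2 :=
    ⟨min (ε / 3) (V / 2), lt_min (by positivity) (by positivity), min_le_left _ _, min_le_right _ _⟩
  have h3 := (h T Q hl).eventually_const_lt (show V - ε1 < V by linarith)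
  filter_upwards [h3, ev_LL hε1, ev_log hε1, ev_of_ge 4 (fun r hr _ => hr)] with r h3 h4 h5 hr
  have hr0 : (0:ℝ) < r := by exact_mod_cast (by omega : 0 < r)
  have hp := pi_pos
  have hrp : 0 < (r:ℝ) / (2 * π) := by positivity
  have hrq : 0 < 2 * π / (r:ℝ) := by positivity
  have hs : 0 < s1 r := s1_pos (by omega)
  have hinv : (r:ℝ) / (2 * π) * (2 * π / r) = 1 := by field_simp
  have hlog : (r:ℝ) / (2 * π) * (V - ε1) ≤ Real.log (Kb r (T r) (Q r)) := by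
    have := mul_le_mul_of_nonneg_left h3.le hrp.le
    rwa [← mul_assoc, hinv, one_mul] at this
  have hKpos : 0 < Kb r (T r) (Q r) := by
    have h0 : 0 ≤ Kb r (T r) (Q r) := by rw [Kb_N4]; positivity
    rcases eq_or_lt_of_le h0 with h6 | h6
    · exfalso
      rw [← h6, Real.log_zero] at hlog
      have : 0 < (r:ℝ) / (2 * π) * (V - ε1) := mul_pos hrp (by linarith)
      linarith
    · exact h6
  have hK : exp ((r:ℝ) / (2 * π) * (V - ε1)) ≤ Kb r (T r) (Q r) := by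
    rw [← Real.le_log_iff_exp_le hKpos]; exact hlog
  have hN : |N4 r (T r) (Q r)| ≤ AA2 r (T r) (Q r) := by
    unfold AA2
    linarith [abs_nonneg (N4 r (shT (T r) 1) (shQ (Q r) 1))]
  refine le_trans ?_ hN
  have hs1 : s1 r ≤ exp ((r:ℝ) / (2 * π) * ε1) := by
    rw [← Real.log_le_iff_le_exp hs]
    have := abs_log_s1 hr
    have h6 := mul_le_mul_of_nonneg_left h5 hrp.le
    rw [← mul_assoc, hinv, one_mul] at h6
    exact (le_abs_self _).trans (this.trans h6)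
  have hLL : exp (-LL r (r - 1)) ≤ exp ((r:ℝ) / (2 * π) * ε1) := by
    apply exp_le_exp.mpr
    have h6 := mul_le_mul_of_nonneg_left (neg_abs_le (2 * π / r * LL r (r - 1)) |>.trans' (neg_le_neg h4))
      hrp.le
    rw [← mul_assoc, hinv, one_mul] at h6
    linarith
  rw [Kb_N4] at hK
  have h7 : s1 r * exp (-LL r (r - 1)) * |N4 r (T r) (Q r)| ≤
      exp ((r:ℝ) / (2 * π) * ε1) * exp ((r:ℝ) / (2 * π) * ε1) * |N4 r (T r) (Q r)| :=
    mul_le_mul_of_nonneg_right (mul_le_mul hs1 hLL (exp_pos _).le (exp_pos _).le) (abs_nonneg _)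
  have h8 := hK.trans h7
  have h9 : exp ((r:ℝ) / (2 * π) * (V - ε1)) = exp ((r:ℝ) / (2 * π) * ε1) * exp ((r:ℝ) / (2 * π) * ε1) *
      exp ((r:ℝ) / (2 * π) * (V - 3 * ε1)) := by
    rw [← exp_add, ← exp_add]; congr 1; ring
  rw [h9] at h8
  have h10 := le_of_mul_le_mul_left h8 (by positivity)
  refine le_trans ?_ h10
  apply exp_le_exp.mpr
  apply mul_le_mul_of_nonneg_left _ hrp.le
  linarith

/-- from bounds of the normalised sums to the growth of the bracket -/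
lemma growth_of_bounds {T Q : ℕ → Fin 4 → ℤ} {V : ℝ}
    (h : ∀ ε > 0, ∀ᶠ r : ℕ in oddTop, exp ((r:ℝ) / (2 * π) * (V - ε)) ≤ |N4 r (T r) (Q r)| ∧
      |N4 r (T r) (Q r)| ≤ exp ((r:ℝ) / (2 * π) * (V + ε))) :
    Tendsto (fun r : ℕ => 2 * π / r * Real.log (Kb r (T r) (Q r))) oddTop (𝓝 V) := by
  rw [Metric.tendsto_nhds]
  intro ε hε
  have hε1 : 0 < ε / 4 := by positivity
  filter_upwards [h (ε / 4) hε1, ev_LL hε1, ev_log hε1, ev_of_ge 4 (fun r hr _ => hr)] with r h3 h4 h5 hr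
  obtain ⟨hlo, hup⟩ := h3
  have hr0 : (0:ℝ) < r := by exact_mod_cast (by omega : 0 < r)
  have hp := pi_pos
  have hrp : 0 < (r:ℝ) / (2 * π) := by positivity
  have hrq : 0 < 2 * π / (r:ℝ) := by positivity
  have hs : 0 < s1 r := s1_pos (by omega)
  have hinv : 2 * π / (r:ℝ) * (r / (2 * π)) = 1 := by field_simp
  have hN : 0 < |N4 r (T r) (Q r)| := (exp_pos _).trans_le hlo
  rw [Kb_N4, Real.log_mul (by positivity) hN.ne', Real.log_mul hs.ne' (exp_pos _).ne', Real.log_exp]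
  have h6 : (r:ℝ) / (2 * π) * (V - ε / 4) ≤ Real.log |N4 r (T r) (Q r)| := by
    rw [Real.le_log_iff_exp_le hN]; exact hlo
  have h7 : Real.log |N4 r (T r) (Q r)| ≤ (r:ℝ) / (2 * π) * (V + ε / 4) := by
    rw [Real.log_le_iff_le_exp hN]; exact hup
  have h8 := mul_le_mul_of_nonneg_left h6 hrq.le
  have h9 := mul_le_mul_of_nonneg_left h7 hrq.le
  rw [← mul_assoc, hinv, one_mul] at h8 h9
  have h10 : |2 * π / (r:ℝ) * Real.log (s1 r)| ≤ ε / 4 := by
    rw [abs_mul, abs_of_pos hrq]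
    exact (mul_le_mul_of_nonneg_left (abs_log_s1 hr) hrq.le).trans h5
  rw [Real.dist_eq, abs_lt]
  rw [abs_le] at h4 h10
  have e : 2 * π / (r:ℝ) * (Real.log (s1 r) + -LL r (r - 1) + Real.log |N4 r (T r) (Q r)|) =
    2 * π / (r:ℝ) * Real.log (s1 r) - 2 * π / (r:ℝ) * LL r (r - 1) +
      2 * π / (r:ℝ) * Real.log |N4 r (T r) (Q r)| := by ring
  rw [e]
  constructor <;> linarith

lemma mono_rec {M p p' : ℕ → ℝ} {c η : ℝ} (hη : η ≤ c - 1) {n : ℕ}
    (hrec : ∀ k, k < n → M (k + 2) = p k * M (k + 1) - p' k * M k)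
    (hp : ∀ k, k < n → |p k - 2 * c| ≤ η ∧ |p' k - 1| ≤ η) (h0 : |M 0| ≤ |M 1|) :
    ∀ k, k ≤ n → |M k| ≤ |M (k + 1)| ∧ |M 1| ≤ |M (k + 1)| := by
  intro k
  induction k with
  | zero => intro _; exact ⟨h0, le_rfl⟩
  | succ k ih =>
    intro hk
    obtain ⟨i1, i2⟩ := ih (by omega)
    obtain ⟨p1, p2⟩ := hp k (by omega)
    rw [abs_le] at p1 p2
    have h1 : |M (k + 1)| ≤ |M (k + 2)| := by
      rw [hrec k (by omega)]
      have h2 : |p k * M (k + 1)| - |p' k * M k| ≤ |p k * M (k + 1) - p' k * M k| := abs_sub_abs_le_abs_sub _ _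
      rw [abs_mul, abs_mul] at h2
      have h3 : 2 * c - η ≤ |p k| := by
        have := le_abs_self (p k)
        linarith
      have h4 : |p' k| ≤ 1 + η := by
        rw [abs_le]; constructor <;> linarith
      have a1 := abs_nonneg (M (k + 1))
      have a0 := abs_nonneg (M k)
      have h5 : (2 * c - η) * |M (k + 1)| ≤ |p k| * |M (k + 1)| := mul_le_mul_of_nonneg_right h3 a1
      have h6 : |p' k| * |M k| ≤ (1 + η) * |M (k + 1)| :=
        mul_le_mul h4 i1 a0 (by linarith [abs_nonneg (p' k)])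
      nlinarith
    exact ⟨h1, i2.trans h1⟩

variable {a1 a2 b1 b2 φ y : ℝ}

/-- monotonicity of the volume along the line -/
lemma LnH.anti (h : LnH a1 a2 b1 b2 φ y) {z : ℝ} (h1 : y < z) (hπ : z < π)
    (hk : 1 < kap a1 a2 b1 b2 z) : Wl a1 a2 b1 b2 φ z < Wl a1 a2 b1 b2 φ y := by
  have hL : ∀ w ∈ Icc y z, LnH a1 a2 b1 b2 φ w := by
    intro w hw
    apply h.above hw.1 (hw.2.trans_lt hπ)
    rcases eq_or_lt_of_le hw.2 with h3 | h3
    · rw [h3]; exact hk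
    · exact hk.trans (kap_anti a1 a2 b1 b2 (h.ay.1.le.trans hw.1) hπ.le h3)
  have hs : StrictAntiOn (Wl a1 a2 b1 b2 φ) (Icc y z) := by
    apply strictAntiOn_of_deriv_neg (convex_Icc _ _)
    · intro w hw
      exact (hL w hw).deriv.continuousAt.continuousWithinAt
    · intro w hw
      rw [interior_Icc] at hw
      have hl := hL w (Ioo_subset_Icc_self hw)
      rw [hl.deriv.deriv]
      have := gr_pos hl.one_lt_cl
      linarith
  exact hs (left_mem_Icc.mpr h1.le) (right_mem_Icc.mpr h1.le) h1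

/-- a nearby point of smaller volume -/
lemma LnH.next (h : LnH a1 a2 b1 b2 φ y) {δ : ℝ} (hδ : 0 < δ) :
    ∃ z, y < z ∧ z < y + δ ∧ LnH a1 a2 b1 b2 φ z ∧ Wl a1 a2 b1 b2 φ z < Wl a1 a2 b1 b2 φ y := by
  obtain ⟨z1, h1, h2, h3⟩ := h.flat
  obtain ⟨z, hz1, hz2⟩ := exists_between (show y < min z1 (y + δ) from lt_min h1 (by linarith))
  have hz3 := hz2.trans_le (min_le_left _ _)
  have hk : 1 < kap a1 a2 b1 b2 z := by
    rw [← h3]
    exact kap_anti a1 a2 b1 b2 (h.ay.1.le.trans hz1.le) h2.le hz3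
  exact ⟨z, hz1, hz2.trans_le (min_le_right _ _), h.above hz1.le (hz3.trans h2) hk,
    h.anti hz1 (hz3.trans h2) hk⟩

lemma LnH.Wl_pos (h : LnH a1 a2 b1 b2 φ y) : 0 < Wl a1 a2 b1 b2 φ y := by
  obtain ⟨z, _, _, hz, hlt⟩ := h.next one_pos
  exact hz.Wl_nonneg.trans_lt hlt

/-- lower bound in terms of angles -/
def LA (φ θ β1 β2 γ1 γ2 C : ℝ) : Prop := LB (tvec φ θ β1 β2 γ1 γ2) (qvec φ θ β1 β2 γ1 γ2) C

lemma LimS.P1 {T Q : ℕ → Fin 4 → ℤ} {φ θ β1 β2 γ1 γ2 : ℝ}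
    (h : LimS T Q (tvec θ φ β1 γ1 β2 γ2) (qvec θ φ β1 γ1 β2 γ2)) :
    LimS (fun r => T r ∘ ((Equiv.swap (0 : Fin 4) 2 * Equiv.swap (1 : Fin 4) 3 : Equiv.Perm (Fin 4))))
      (fun r => Q r ∘ (1 : Equiv.Perm (Fin 4))) (tvec φ θ β1 β2 γ1 γ2) (qvec φ θ β1 β2 γ1 γ2) := by
  rw [(tq_P1 (φ := θ) (θ := φ) (β1 := β1) (β2 := γ1) (γ1 := β2) (γ2 := γ2)).1,
    (tq_P1 (φ := θ) (θ := φ) (β1 := β1) (β2 := γ1) (γ1 := β2) (γ2 := γ2)).2]
  exact h.perm _ _ rfl

/-- near the ideal end the growth is known, which gives a lower bound -/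
lemma LnH.start (h : LnH a1 a2 b1 b2 φ y) {k : Fin 4}
    (hk : ∀ i, tvec φ y (be1 a1 a2) (be2 a1 a2 φ) (be1 b1 b2) (be2 b1 b2 φ) i ≤
      tvec φ y (be1 a1 a2) (be2 a1 a2 φ) (be1 b1 b2) (be2 b1 b2 φ) k)
    (hV : Lob ((π - tvec φ y (be1 a1 a2) (be2 a1 a2 φ) (be1 b1 b2) (be2 b1 b2 φ) k) / 2) +
        Lob (tvec φ y (be1 a1 a2) (be2 a1 a2 φ) (be1 b1 b2) (be2 b1 b2 φ) k / 2) <
          Wl a1 a2 b1 b2 φ y) :
    LA y φ (be1 a1 a2) (be1 b1 b2) (be2 a1 a2 φ) (be2 b1 b2 φ) (-Wl a1 a2 b1 b2 φ y) := by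
  apply LB_of_growth h.Wl_pos
  intro T Q hl
  have h1 := hl.P1
  have h2 := hyp_growth h.hyp rfl h.Wl_minus hk hV (h1.lim h.hyp.toReg)
  apply h2.congr
  intro r
  rw [Kb_perm]

/-- the lower bound for pairs -/
theorem LnH.pairs (h : LnH a1 a2 b1 b2 φ y) :
    LA y φ (be1 a1 a2) (be1 b1 b2) (be2 a1 a2 φ) (be2 b1 b2 φ) (-Wl a1 a2 b1 b2 φ y) := by
  obtain ⟨z, hz1, hz2, hz3⟩ := h.ideal_end h.Wl_pos
  have hmono : ∀ w ∈ Icc z y, LnH a1 a2 b1 b2 φ w := by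
    intro w hw
    apply hz2.above hw.1 (hw.2.trans_lt h.ay.2)
    rcases eq_or_lt_of_le hw.2 with h3 | h3
    · rw [h3]; exact h.k1
    · exact h.k1.trans (kap_anti a1 a2 b1 b2 (hz2.ay.1.le.trans hw.1) h.ay.2.le h3)
  have hW : Wl a1 a2 b1 b2 φ y ≤ Wl a1 a2 b1 b2 φ z := by
    rcases eq_or_lt_of_le hz1 with h3 | h3
    · rw [h3]
    · exact (hz2.anti h3 h.ay.2 h.k1).le
  obtain ⟨k, hk⟩ := Finite.exists_max (tvec φ z (be1 a1 a2) (be2 a1 a2 φ) (be1 b1 b2) (be2 b1 b2 φ))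
  have hstart := hz2.start hk ((hz3 k hk).trans_le hW)
  have hr : ∀ v ∈ Icc (0:ℝ) ((y - z) / 2), LnH a1 a2 b1 b2 φ (z + 2 * v) := fun v hv =>
    hmono _ ⟨by linarith [hv.1], by linarith [hv.2]⟩
  have := ode_transfer
    (P := fun v C => LA (z + 2 * v) φ (be1 a1 a2) (be1 b1 b2) (be2 a1 a2 φ) (be2 b1 b2 φ) C)
    (g := fun v => gr (cl a1 a2 b1 b2 φ (z + 2 * v)))
    (B := fun v => -Wl a1 a2 b1 b2 φ (z + 2 * v)) (a := 0) (b := (y - z) / 2)
    (C := -Wl a1 a2 b1 b2 φ z) (by linarith)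
    (fun v C C' hC h => LB.mono h hC) (fun v C h => LB.closed h) ?_ ?_
    (by simpa using hstart)
  · simp only [mul_zero, add_zero] at this
    rw [show z + 2 * ((y - z) / 2) = y by ring] at this
    apply LB.mono this
    linarith
  · intro v0 hv0 ε' hε'
    have L := hr v0 hv0
    obtain ⟨δ', hδ', hst⟩ := LB_step L.reg.P1 (show -1 ≤ ce (z + 2 * v0) φ (be1 a1 a2) (be1 b1 b2)
      (be2 a1 a2 φ) (be2 b1 b2 φ) by
        have := L.one_lt_cl
        unfold cl at this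
        linarith) hε'
    refine ⟨δ' / 2, by positivity, ?_⟩
    intro v _ w _ hv hw C hU
    have z0 : ∀ x : ℝ, |x - x| < δ' := fun x => by simpa using hδ'
    have := hst (z + 2 * v) (z + 2 * w) φ (be1 a1 a2) (be1 b1 b2) (be2 a1 a2 φ) (be2 b1 b2 φ) C
      (by
        rw [abs_lt] at hv ⊢
        constructor <;> linarith)
      (by
        rw [abs_lt] at hw ⊢
        constructor <;> linarith)
      (z0 _) (z0 _) (z0 _) (z0 _) (z0 _) hU
    rw [show z + 2 * v - (z + 2 * w) = 2 * (v - w) by ring, abs_mul, abs_of_pos (by norm_num : (0:ℝ) < 2),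
      mul_div_cancel_left₀ _ (by norm_num : (2:ℝ) ≠ 0), abs_sub_comm v w] at this
    exact this
  · intro v hv
    have L := hr v hv
    have h6 : HasDerivAt (fun v : ℝ => z + 2 * v) 2 v := by
      have := ((hasDerivAt_id v).const_mul 2).const_add z
      simpa using this
    have h7 := (L.deriv.comp v h6).neg
    apply HasDerivAt.hasDerivWithinAt
    refine h7.congr_deriv ?_
    ring

/-- the lower bound -/
theorem LnH.lower (h : LnH a1 a2 b1 b2 φ y) {T Q : ℕ → Fin 4 → ℤ}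
    (hl : LimS T Q (tvec y φ (be1 a1 a2) (be1 b1 b2) (be2 a1 a2 φ) (be2 b1 b2 φ))
      (qvec y φ (be1 a1 a2) (be1 b1 b2) (be2 a1 a2 φ) (be2 b1 b2 φ))) {ε : ℝ} (hε : 0 < ε) :
    ∀ᶠ r : ℕ in oddTop, exp ((r:ℝ) / (2 * π) * (Wl a1 a2 b1 b2 φ y - ε)) ≤ |N4 r (T r) (Q r)| := by
  have hc := h.one_lt_cl
  set c := cl a1 a2 b1 b2 φ y with hcd
  obtain ⟨δ, hδ, R, hrec⟩ := near_rec h.reg.P1 (show 0 < c - 1 by linarith)
  obtain ⟨z, hz1, hz2, hz3, hz4⟩ := h.next hδ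
  have hUz := hz3.upper.P1
  set V := Wl a1 a2 b1 b2 φ y with hVd
  set V' := Wl a1 a2 b1 b2 φ z with hVd'
  obtain ⟨ε1, hε1, h1, h2⟩ : ∃ ε1 > 0, ε1 ≤ ε / 2 ∧ ε1 ≤ (V - V') / 4 :=
    ⟨min (ε / 2) ((V - V') / 4), lt_min (by positivity) (by linarith), min_le_left _ _,
      min_le_right _ _⟩
  set s := (z - y) / 2 with hs
  have hs0 : 0 < s := by rw [hs]; linarith
  set n : ℕ → ℕ := fun r => ⌊s * r / (2 * π)⌋₊ with hn
  have hp := pi_pos
  have h0r : Tendsto (fun r : ℕ => 2 * π / (r:ℝ)) oddTop (𝓝 0) :=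
    (tendsto_const_div_atTop_nhds_zero_nat (2 * π)).mono_left oddTop_le
  have hk : Tendsto (fun r : ℕ => 2 * π / (r:ℝ) * ((-(n r : ℤ) : ℤ) : ℝ)) oddTop (𝓝 (-s)) := by
    have := (floor_tendsto hs0.le).neg
    apply this.congr
    intro r
    simp only [hn]
    push_cast; ring
  have hk1 : Tendsto (fun r : ℕ => 2 * π / (r:ℝ) * (((-1 : ℤ)) : ℝ)) oddTop (𝓝 0) := by
    have := h0r.neg
    rw [neg_zero] at this
    apply this.congr
    intro r
    push_cast; ring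
  have e1 : rt (tvec y φ (be1 a1 a2) (be1 b1 b2) (be2 a1 a2 φ) (be2 b1 b2 φ)) (-s) =
      tvec z φ (be1 a1 a2) (be1 b1 b2) (be2 a1 a2 φ) (be2 b1 b2 φ) := by
    rw [← tvec_shift]; congr 1; rw [hs]; ring
  have e2 : rq (qvec y φ (be1 a1 a2) (be1 b1 b2) (be2 a1 a2 φ) (be2 b1 b2 φ)) (-s) =
      qvec z φ (be1 a1 a2) (be1 b1 b2) (be2 a1 a2 φ) (be2 b1 b2 φ) := by
    rw [← qvec_shift]; congr 1; rw [hs]; ring
  have lz : LimS (fun r => shT (T r) (-(n r : ℤ))) (fun r => shQ (Q r) (-(n r : ℤ)))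
      (tvec z φ (be1 a1 a2) (be1 b1 b2) (be2 a1 a2 φ) (be2 b1 b2 φ))
      (qvec z φ (be1 a1 a2) (be1 b1 b2) (be2 a1 a2 φ) (be2 b1 b2 φ)) := by
    rw [← e1, ← e2]; exact hl.shift hk
  have l1 : LimS (fun r => shT (T r) (-1)) (fun r => shQ (Q r) (-1))
      (tvec y φ (be1 a1 a2) (be1 b1 b2) (be2 a1 a2 φ) (be2 b1 b2 φ))
      (qvec y φ (be1 a1 a2) (be1 b1 b2) (be2 a1 a2 φ) (be2 b1 b2 φ)) := by
    have h3 := hl.shift hk1
    rw [← tvec_shift, ← qvec_shift, mul_zero, sub_zero] at h3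
    exact h3
  have z0 : ∀ x : ℝ, |x - x| < δ / 2 := fun x => by simpa using hδ
  have hzy : |z - y| < δ := by rw [abs_lt]; constructor <;> linarith
  have near0 := hl.near (t0 := tvec y φ (be1 a1 a2) (be1 b1 b2) (be2 a1 a2 φ) (be2 b1 b2 φ))
    (q0 := qvec y φ (be1 a1 a2) (be1 b1 b2) (be2 a1 a2 φ) (be2 b1 b2 φ)) (δ := δ)
    (fun i => by simpa using hδ) (fun i => by simpa using hδ)
  have nearz := lz.near (t0 := tvec y φ (be1 a1 a2) (be1 b1 b2) (be2 a1 a2 φ) (be2 b1 b2 φ))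
    (q0 := qvec y φ (be1 a1 a2) (be1 b1 b2) (be2 a1 a2 φ) (be2 b1 b2 φ)) (δ := δ)
    (fun i => by
      unfold tvec Tv
      rw [abs_lt] at hzy ⊢
      fin_cases i <;> simp only [Fin.zero_eta, Fin.mk_one, Fin.reduceFinMk, Fin.isValue,
        Matrix.cons_val] <;> constructor <;> linarith)
    (fun i => by
      unfold qvec Qv
      rw [abs_lt] at hzy ⊢
      fin_cases i <;> simp only [Fin.zero_eta, Fin.mk_one, Fin.reduceFinMk, Fin.isValue,
        Matrix.cons_val] <;> constructor <;> linarith)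
  have hbig : ∀ᶠ r : ℕ in oddTop, 1 ≤ n r := by
    have h3 := floor_tendsto hs0.le
    have h4 := h3.eventually_const_lt (show 0 < s from hs0)
    filter_upwards [h4] with r hr
    by_contra hh
    have : n r = 0 := by omega
    simp only [hn] at this
    rw [this] at hr
    simp at hr
  have hLBev := h.pairs _ _ l1 ε1 hε1
  have hUBev := hUz _ _ lz ε1 hε1
  filter_upwards [hLBev, hUBev, near0, nearz, hbig, ev_of_ge R (fun r hr ho => hrec r hr ho),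
    ev_large (Real.log 2) hε1, ev_large (Real.log 2) (show 0 < (V - V') / 4 by linarith)]
    with r hLB hUB n0 nz hn1 hrec hlarge hlarge2
  rw [neg_neg] at hLB
  have hrp : 0 ≤ (r:ℝ) / (2 * π) := by positivity
  set M : ℕ → ℝ := fun k => N4 r (shT (T r) (-(k:ℤ))) (shQ (Q r) (-(k:ℤ))) with hM
  have hM0 : M 0 = N4 r (T r) (Q r) := by
    simp only [hM, Nat.cast_zero, neg_zero]
    rw [shT_zero, shQ_zero]
  have hA : AA2 r (shT (T r) (-1)) (shQ (Q r) (-1)) = |M 1| + |M 0| := by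
    unfold AA2
    rw [shT_shT, shQ_shQ, hM0, show (-1:ℤ) + 1 = 0 by norm_num, shT_zero, shQ_zero]
    simp only [hM, Nat.cast_one]
  rw [hA] at hLB
  have h2exp : (2:ℝ) ≤ exp ((r:ℝ) / (2 * π) * ε1) := by
    rw [← Real.log_le_iff_le_exp (by norm_num)]; exact hlarge
  have h2exp' : (2:ℝ) ≤ exp ((r:ℝ) / (2 * π) * ((V - V') / 4)) := by
    rw [← Real.log_le_iff_le_exp (by norm_num)]; exact hlarge2
  have hmain : |M 1| ≤ |M 0| := by
    by_contra hlt
    push Not at hlt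
    set p : ℕ → ℝ := fun k => Pc (an r (shT (T r) (-((k + 1 : ℕ) : ℤ)))) (an r (shQ (Q r) (-((k + 1 : ℕ) : ℤ))))
      (2 * π / r) / Pc' (an r (shT (T r) (-((k + 1 : ℕ) : ℤ)))) (an r (shQ (Q r) (-((k + 1 : ℕ) : ℤ))))
      (2 * π / r) with hpd
    set p' : ℕ → ℝ := fun k => 1 / Pc' (an r (shT (T r) (-((k + 1 : ℕ) : ℤ))))
      (an r (shQ (Q r) (-((k + 1 : ℕ) : ℤ)))) (2 * π / r) with hpd'
    have hnear : ∀ k, k < n r - 1 → Near r (shT (T r) (-((k + 1 : ℕ) : ℤ))) (shQ (Q r) (-((k + 1 : ℕ) : ℤ)))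
        (tvec y φ (be1 a1 a2) (be1 b1 b2) (be2 a1 a2 φ) (be2 b1 b2 φ))
        (qvec y φ (be1 a1 a2) (be1 b1 b2) (be2 a1 a2 φ) (be2 b1 b2 φ)) δ := by
      intro k hkn
      have h5 := nz.mid (n := n r) (k := n r - (k + 1)) (by
        rw [shT_shT, shQ_shQ, neg_add_cancel, shT_zero, shQ_zero]; exact n0) (by omega)
      rw [shT_shT, shQ_shQ] at h5
      have e3 : -(n r : ℤ) + ((n r - (k + 1) : ℕ) : ℤ) = -((k + 1 : ℕ) : ℤ) := by omega
      rw [e3] at h5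
      exact h5
    have hmono := mono_rec (M := M) (p := p) (p' := p') (c := c) (η := c - 1) le_rfl (n := n r - 1)
      (by
        intro k hkn
        obtain ⟨ok, _, _, _, _, hne⟩ := hrec _ _ (hnear k hkn)
        have h6 := rec_N ok
        rw [shT_shT, shQ_shQ, shT_shT, shQ_shQ] at h6
        have e4 : -((k + 1 : ℕ) : ℤ) + 1 = -((k : ℕ) : ℤ) := by push_cast; ring
        have e5 : -((k + 1 : ℕ) : ℤ) + -1 = -((k + 2 : ℕ) : ℤ) := by push_cast; ring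
        rw [e4, e5] at h6
        simp only [hM, hpd, hpd']
        rw [h6]
        field_simp
        ring)
      (by
        intro k hkn
        obtain ⟨_, _, _, i3, i4, _⟩ := hrec _ _ (hnear k hkn)
        exact ⟨i3, i4⟩) hlt.le
    have h7 := (hmono (n r - 1) le_rfl).2
    rw [show n r - 1 + 1 = n r by omega] at h7
    have h8 : |M (n r)| ≤ exp ((r:ℝ) / (2 * π) * (V' + ε1)) := hUB
    have h9 : exp ((r:ℝ) / (2 * π) * (V - ε1)) ≤ 2 * exp ((r:ℝ) / (2 * π) * (V' + ε1)) := by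
      linarith [hlt]
    have h10 : exp ((r:ℝ) / (2 * π) * (V - ε1)) <
        exp ((r:ℝ) / (2 * π) * ((V - V') / 4)) * exp ((r:ℝ) / (2 * π) * (V' + ε1)) := by
      have : |M 0| < exp ((r:ℝ) / (2 * π) * (V' + ε1)) := by linarith
      have h11 : exp ((r:ℝ) / (2 * π) * (V - ε1)) < 2 * exp ((r:ℝ) / (2 * π) * (V' + ε1)) := by
        linarith
      exact h11.trans_le (mul_le_mul_of_nonneg_right h2exp' (exp_pos _).le)
    rw [← exp_add, exp_lt_exp, ← mul_add] at h10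
    have h12 := lt_of_mul_lt_mul_left h10 hrp
    linarith
  have h13 : exp ((r:ℝ) / (2 * π) * (V - ε1)) ≤ 2 * |M 0| := by linarith
  rw [← hM0]
  have h14 : exp ((r:ℝ) / (2 * π) * (V - ε)) * 2 ≤ 2 * |M 0| := by
    refine le_trans ?_ h13
    calc exp ((r:ℝ) / (2 * π) * (V - ε)) * 2 ≤
        exp ((r:ℝ) / (2 * π) * (V - ε)) * exp ((r:ℝ) / (2 * π) * ε1) :=
          mul_le_mul_of_nonneg_left h2exp (exp_pos _).le
      _ = exp ((r:ℝ) / (2 * π) * (V - ε + ε1)) := by rw [← exp_add, ← mul_add]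
      _ ≤ exp ((r:ℝ) / (2 * π) * (V - ε1)) := by
          apply exp_le_exp.mpr
          apply mul_le_mul_of_nonneg_left _ hrp
          linarith
  linarith

/-- growth of the symmetric sums for every compact tetrahedron -/
theorem LnH.growth (h : LnH a1 a2 b1 b2 φ y) {T Q : ℕ → Fin 4 → ℤ}
    (hl : LimS T Q (tvec y φ (be1 a1 a2) (be1 b1 b2) (be2 a1 a2 φ) (be2 b1 b2 φ))
      (qvec y φ (be1 a1 a2) (be1 b1 b2) (be2 a1 a2 φ) (be2 b1 b2 φ))) :
    Tendsto (fun r : ℕ => 2 * π / r * Real.log (Kb r (T r) (Q r))) oddTop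
      (𝓝 (Wl a1 a2 b1 b2 φ y)) := by
  apply growth_of_bounds
  intro ε hε
  filter_upwards [h.lower hl hε, h.upper.P1 _ _ hl ε hε] with r h1 h2
  exact ⟨h1, h2⟩

end Run7.h27
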