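import Pool.Agent.Run7.h27.Seq

/-!
# Growth of the brackets
-/

set_option autoImplicit false

namespace Run7.h27

open Real Set Filter Topology

lemma TZ_tendsto {c : ℕ → Fin 4 → Fin 4 → ℕ} {T : ℕ → ℕ} {f g h : ℕ → ℕ} {a b d : ℝ}
    (hT : ∀ᶠ r in oddTop, 2 * T r = f r + g r + h r)
    (hf : Tendsto (fun r : ℕ => 2 * π / r * (f r : ℝ)) oddTop (𝓝 (π - a)))
    (hg : Tendsto (fun r : ℕ => 2 * π / r * (g r : ℝ)) oddTop (𝓝 (π - b)))
    (hh : Tendsto (fun r : ℕ => 2 * π / r * (h r : ℝ)) oddTop (𝓝 (π - d))) :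
    Tendsto (fun r : ℕ => 2 * π / r * (((T r : ℕ) : ℤ) : ℝ)) oddTop (𝓝 (Tv a b d)) := by
  have h1 := ((hf.add hg).add hh).div_const 2
  have e : (π - a + (π - b) + (π - d)) / 2 = Tv a b d := by unfold Tv; ring
  rw [e] at h1
  apply h1.congr'
  filter_upwards [hT] with r hr
  have : (2:ℝ) * T r = f r + g r + h r := by exact_mod_cast hr
  rw [show (((T r : ℕ) : ℤ) : ℝ) = (T r : ℝ) by norm_cast]
  rw [show (T r : ℝ) = (f r + g r + h r) / 2 by linarith]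
  ring

lemma QZ_tendsto {T : ℕ → ℕ} {f g h k : ℕ → ℕ} {a b d e : ℝ}
    (hT : ∀ᶠ r in oddTop, 2 * T r = f r + g r + h r + k r)
    (hf : Tendsto (fun r : ℕ => 2 * π / r * (f r : ℝ)) oddTop (𝓝 (π - a)))
    (hg : Tendsto (fun r : ℕ => 2 * π / r * (g r : ℝ)) oddTop (𝓝 (π - b)))
    (hh : Tendsto (fun r : ℕ => 2 * π / r * (h r : ℝ)) oddTop (𝓝 (π - d)))
    (hk : Tendsto (fun r : ℕ => 2 * π / r * (k r : ℝ)) oddTop (𝓝 (π - e))) :
    Tendsto (fun r : ℕ => 2 * π / r * (((T r : ℕ) : ℤ) : ℝ)) oddTop (𝓝 (Qv a b d e)) := by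
  have h1 := (((hf.add hg).add hh).add hk).div_const 2
  have e' : (π - a + (π - b) + (π - d) + (π - e)) / 2 = Qv a b d e := by unfold Qv; ring
  rw [e'] at h1
  apply h1.congr'
  filter_upwards [hT] with r hr
  have : (2:ℝ) * T r = f r + g r + h r + k r := by exact_mod_cast hr
  rw [show (((T r : ℕ) : ℤ) : ℝ) = (T r : ℝ) by norm_cast]
  rw [show (T r : ℝ) = (f r + g r + h r + k r) / 2 by linarith]
  ring

/-- the limits of the symmetric parameters -/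
theorem lim_of_minus {c : ℕ → Fin 4 → Fin 4 → ℕ} {θ : Fin 4 → Fin 4 → ℝ}
    (hA : ∀ᶠ r in oddTop, AdmColoring r (c r))
    (hR : Reg (θ 0 1) (θ 2 3) (θ 0 2) (θ 0 3) (θ 1 2) (θ 1 3))
    (m01 : Mi c θ 0 1) (m02 : Mi c θ 0 2) (m03 : Mi c θ 0 3) (m12 : Mi c θ 1 2) (m13 : Mi c θ 1 3)
    (m23 : Mi c θ 2 3) :
    Lim (fun r => TZ (c r)) (fun r => QZ r (c r))
      (tvec (θ 0 1) (θ 2 3) (θ 0 2) (θ 0 3) (θ 1 2) (θ 1 3))
      (qvec (θ 0 1) (θ 2 3) (θ 0 2) (θ 0 3) (θ 1 2) (θ 1 3)) := by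
  have hN : ∀ᶠ r in oddTop, Num r (c r) := by
    filter_upwards [hA, ev_r 3] with r h1 h2
    exact h1.num h2
  have hT : ∀ i, Tendsto (fun r : ℕ => 2 * π / r * (TZ (c r) i : ℝ)) oddTop
      (𝓝 (tvec (θ 0 1) (θ 2 3) (θ 0 2) (θ 0 3) (θ 1 2) (θ 1 3) i)) := by
    intro i
    fin_cases i
    · exact TZ_tendsto (c := c) (by filter_upwards [hN] with r h; exact h.t0) m01 m02 m03
    · exact TZ_tendsto (c := c) (by filter_upwards [hN] with r h; exact h.t1) m01 m12 m13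
    · have := TZ_tendsto (c := c) (T := fun r => triSum (c r) 2)
        (by filter_upwards [hN] with r h; exact h.t2) m02 m12 m23
      rw [show Tv (θ 0 2) (θ 1 2) (θ 2 3) = Tv (θ 2 3) (θ 0 2) (θ 1 2) by unfold Tv; ring] at this
      exact this
    · have := TZ_tendsto (c := c) (T := fun r => triSum (c r) 3)
        (by filter_upwards [hN] with r h; exact h.t3) m03 m13 m23
      rw [show Tv (θ 0 3) (θ 1 3) (θ 2 3) = Tv (θ 2 3) (θ 0 3) (θ 1 3) by unfold Tv; ring] at this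
      exact this
  have hQ : ∀ i, Tendsto (fun r : ℕ => 2 * π / r * (QZ r (c r) i : ℝ)) oddTop
      (𝓝 (qvec (θ 0 1) (θ 2 3) (θ 0 2) (θ 0 3) (θ 1 2) (θ 1 3) i)) := by
    intro i
    fin_cases i
    · have h1 : Tendsto (fun r : ℕ => 4 * π / (r:ℝ)) oddTop (𝓝 0) :=
        (tendsto_const_div_atTop_nhds_zero_nat (4 * π)).mono_left oddTop_le
      have h2 := (tendsto_const_nhds (x := 2 * π) (f := oddTop)).sub h1
      rw [sub_zero] at h2
      show Tendsto (fun r : ℕ => 2 * π / r * (((r:ℤ) - 2 : ℤ) : ℝ)) oddTop (𝓝 (2 * π))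
      apply h2.congr'
      filter_upwards [ev_r 3] with r hr
      have : (0:ℝ) < r := by exact_mod_cast (by omega : 0 < r)
      push_cast
      field_simp
      ring
    · exact QZ_tendsto (by filter_upwards [hN] with r h; exact h.q0) m02 m03 m12 m13
    · have := QZ_tendsto (T := fun r => quadSum (c r) 1)
        (by filter_upwards [hN] with r h; exact h.q1) m01 m03 m12 m23
      rw [show Qv (θ 0 1) (θ 0 3) (θ 1 2) (θ 2 3) = Qv (θ 0 1) (θ 2 3) (θ 1 2) (θ 0 3) by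
        unfold Qv; ring] at this
      exact this
    · have := QZ_tendsto (T := fun r => quadSum (c r) 2)
        (by filter_upwards [hN] with r h; exact h.q2) m01 m02 m13 m23
      rw [show Qv (θ 0 1) (θ 0 2) (θ 1 3) (θ 2 3) = Qv (θ 0 1) (θ 2 3) (θ 0 2) (θ 1 3) by
        unfold Qv; ring] at this
      exact this
  refine ⟨?_, hT, hQ⟩
  -- smallness
  have hsmall : ∀ᶠ r in oddTop, ∀ i j, j ≠ 0 → 2 * (QZ r (c r) j - TZ (c r) i) < (r:ℤ) := by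
    rw [eventually_all]
    intro i
    rw [eventually_all]
    intro j
    by_cases hj : j = 0
    · exact Filter.Eventually.of_forall (fun r h => absurd hj h)
    · have h1 := (hQ j).sub (hT i)
      have h2 := h1.eventually_lt_const (hR.qt i j hj).2
      filter_upwards [h2, ev_r 3] with r h3 h4 _
      have hr' : (0:ℝ) < r := by exact_mod_cast (by omega : 0 < r)
      rw [← mul_sub, div_mul_eq_mul_div, div_lt_iff₀ hr'] at h3
      have h5 : (2:ℝ) * ((QZ r (c r) j : ℝ) - (TZ (c r) i : ℝ)) < r := by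
        have := pi_pos
        by_contra hh
        push Not at hh
        nlinarith
      have h6 : ((2 * (QZ r (c r) j - TZ (c r) i) : ℤ) : ℝ) < ((r : ℤ) : ℝ) := by
        push_cast; exact h5
      exact_mod_cast h6
  filter_upwards [hN, ev_odd, hsmall] with r hN hodd hs
  refine ⟨hodd, hN.r3, rfl, fun i => by unfold TZ; omega, ?_, hs⟩
  obtain ⟨_, t0, t1, t2, t3, q0, q1, q2, ⟨a1, a2, a3, a4⟩, ⟨b1, b2, b3, b4⟩, ⟨c1, c2, c3, c4⟩,
    ⟨d1, d2, d3, d4⟩⟩ := hN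
  intro i j
  unfold TZ
  fin_cases j
  · show ((triSum (c r) i : ℕ) : ℤ) ≤ (r:ℤ) - 2
    fin_cases i <;> simp only [Fin.zero_eta, Fin.mk_one, Fin.reduceFinMk] <;> omega
  · show ((triSum (c r) i : ℕ) : ℤ) ≤ ((quadSum (c r) 0 : ℕ) : ℤ)
    fin_cases i <;> simp only [Fin.zero_eta, Fin.mk_one, Fin.reduceFinMk] <;> omega
  · show ((triSum (c r) i : ℕ) : ℤ) ≤ ((quadSum (c r) 1 : ℕ) : ℤ)
    fin_cases i <;> simp only [Fin.zero_eta, Fin.mk_one, Fin.reduceFinMk] <;> omega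
  · show ((triSum (c r) i : ℕ) : ℤ) ≤ ((quadSum (c r) 2 : ℕ) : ℤ)
    fin_cases i <;> simp only [Fin.zero_eta, Fin.mk_one, Fin.reduceFinMk] <;> omega

lemma Reg.vert {φ θ β1 β2 γ1 γ2 : ℝ} (h : Reg φ θ β1 β2 γ1 γ2) :
    π < φ + β1 + β2 ∧ π < φ + γ1 + γ2 ∧ π < θ + β1 + γ1 ∧ π < θ + β2 + γ2 :=
  ⟨(vert_ineq1 h.aφ h.aβ1 h.aβ2 h.d3).1, (vert_ineq1 h.aφ h.aγ1 h.aγ2 h.d4).1,
    (vert_ineq1 h.aθ h.aβ1 h.aγ1 h.d5).1, (vert_ineq1 h.aθ h.aβ2 h.aγ2 h.d6).1⟩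

/-- reduction of the growth of brackets to the growth of the symmetric sums -/
theorem bracket_growth {c : ℕ → Fin 4 → Fin 4 → ℕ} {θ : Fin 4 → Fin 4 → ℝ} {V : ℝ}
    (h : ColLim c θ) (hR : Reg (θ 0 1) (θ 2 3) (θ 0 2) (θ 0 3) (θ 1 2) (θ 1 3))
    (hmain : ∀ T Q : ℕ → Fin 4 → ℤ, Lim T Q (tvec (θ 0 1) (θ 2 3) (θ 0 2) (θ 0 3) (θ 1 2) (θ 1 3))
      (qvec (θ 0 1) (θ 2 3) (θ 0 2) (θ 0 3) (θ 1 2) (θ 1 3)) →
      (∀ᶠ r in oddTop, ∑ i, Q r i - ∑ i, T r i = (r:ℤ) - 2) →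
      Tendsto (fun r : ℕ => 2 * π / r * Real.log (Kb r (T r) (Q r))) oddTop (𝓝 V)) :
    Tendsto (fun r : ℕ => 2 * π / r * Real.log (absBracket r (c r))) oddTop (𝓝 V) := by
  obtain ⟨w0, w1, w2, w3⟩ := hR.vert
  obtain ⟨c', hA, hS, m01, m02, m03, m12, m13, m23⟩ := reduce h w0 w1 (by linarith)
  have hL := lim_of_minus hA hR m01 m02 m03 m12 m13 m23
  have hN : ∀ᶠ r in oddTop, Num r (c' r) := by
    filter_upwards [hA, ev_r 3] with r h1 h2
    exact h1.num h2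
  have := hmain _ _ hL (by
    filter_upwards [hN] with r hN
    obtain ⟨_, t0, t1, t2, t3, q0, q1, q2, _, _, _, _⟩ := hN
    rw [Fin.sum_univ_four, Fin.sum_univ_four]
    show ((r:ℤ) - 2 + ((quadSum (c' r) 0 : ℕ) : ℤ) + ((quadSum (c' r) 1 : ℕ) : ℤ) +
      ((quadSum (c' r) 2 : ℕ) : ℤ)) - (((triSum (c' r) 0 : ℕ) : ℤ) + ((triSum (c' r) 1 : ℕ) : ℤ) +
      ((triSum (c' r) 2 : ℕ) : ℤ) + ((triSum (c' r) 3 : ℕ) : ℤ)) = (r:ℤ) - 2
    omega)
  apply this.congr'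
  filter_upwards [h.1, ev_odd, ev_r 3, hS] with r h1 h2 h3 h4
  rw [absBracket_eq h2 (h1.num h3), h4]

end Run7.h27
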