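import Pool.Agent.Run7.h27.Main1
import Pool.Agent.Run7.h27.Seq2
import Pool.Agent.Run7.h27.GeoF

/-!
# Growth for general tetrahedra, under a volume condition
-/

set_option autoImplicit false

namespace Run7.h27

open Real Set Filter Topology

/-- growth for a tetrahedron in general position under the volume condition -/
theorem general_growth {v : Fin 4 → Fin 3 → ℝ} {θ : Fin 4 → Fin 4 → ℝ}
    (hv : ∀ k, ∑ i, v k i ^ 2 < 1) (hθ : IsDihedral v θ)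
    (hcrit : ∀ t ∈ ({Tv (θ 0 1) (θ 0 2) (θ 0 3), Tv (θ 0 1) (θ 1 2) (θ 1 3),
      Tv (θ 2 3) (θ 0 2) (θ 1 2), Tv (θ 2 3) (θ 0 3) (θ 1 3)} : Set ℝ),
      Tv (θ 0 1) (θ 0 2) (θ 0 3) ≤ t → Tv (θ 0 1) (θ 1 2) (θ 1 3) ≤ t →
      Tv (θ 2 3) (θ 0 2) (θ 1 2) ≤ t → Tv (θ 2 3) (θ 0 3) (θ 1 3) ≤ t →
      Lob ((π - t) / 2) + Lob (t / 2) < hvol (convexHull ℝ (range v)))
    {c : ℕ → Fin 4 → Fin 4 → ℕ} (hc : ColLim c θ) :
    Tendsto (fun r : ℕ => 2 * π / r * Real.log (absBracket r (c r))) oddTop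
      (𝓝 (hvol (convexHull ℝ (range v)))) := by
  obtain ⟨a1, a2, b1, b2, t, hS, h1, h2, h3, h4, h5, hV⟩ := tetra_data hv hθ
  have hy := hS.hyp
  have hp := Gp_eq hS
  have hm := Gm_eq hS
  rw [← hV] at hp hm
  unfold Gp at hp
  unfold Gm at hm
  rw [h1, h2, h3, h4, h5] at hy hp hm
  apply bracket_growth hc hy.toReg
  intro T Q hL _
  obtain ⟨k, hk⟩ := Finite.exists_max (tvec (θ 0 1) (θ 2 3) (θ 0 2) (θ 0 3) (θ 1 2) (θ 1 3))
  apply hyp_growth hy hp hm hk _ hL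
  apply hcrit
  · unfold tvec
    fin_cases k <;> simp
  · exact hk 0
  · exact hk 1
  · exact hk 2
  · exact hk 3

end Run7.h27
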