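import Pool.Agent.Run7.h27.Lower
import Pool.Agent.Run7.h27.Seq2
import Pool.Agent.Run7.h27.GeoF

/-!
# Growth for all compact tetrahedra
-/

set_option autoImplicit false

namespace Run7.h27

open Real Set Filter Topology

/-- growth of the brackets for every compact tetrahedron -/
theorem compact_growth {v : Fin 4 → Fin 3 → ℝ} {θ : Fin 4 → Fin 4 → ℝ}
    (hv : ∀ k, ∑ i, v k i ^ 2 < 1) (hθ : IsDihedral v θ)
    {c : ℕ → Fin 4 → Fin 4 → ℕ} (hc : ColLim c θ) :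
    Tendsto (fun r : ℕ => 2 * π / r * Real.log (absBracket r (c r))) oddTop
      (𝓝 (hvol (convexHull ℝ (range v)))) := by
  obtain ⟨a1, a2, b1, b2, t, hS, h1, h2, h3, h4, h5, hV⟩ := tetra_data hv hθ
  have hy := hS.hyp
  have hL := hS.lnH
  have hW : Wl a1 a2 b1 b2 (θ 0 1) (tht a1 a2 b1 b2 t) = hvol (convexHull ℝ (range v)) := by
    rw [hV, ← Gp_eq hS]
    rfl
  rw [← hW]
  have hR := hy.toReg
  rw [h1, h2, h3, h4, h5] at hR
  apply bracket_growth hc hR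
  intro T Q hl hsum
  have hl' : LimS T Q (tvec (θ 0 1) (θ 2 3) (θ 0 2) (θ 0 3) (θ 1 2) (θ 1 3))
      (qvec (θ 0 1) (θ 2 3) (θ 0 2) (θ 0 3) (θ 1 2) (θ 1 3)) := by
    refine ⟨?_, hsum, hl.hT, hl.hQ⟩
    filter_upwards [hl.good] with r hr
    exact hr.Q0
  have hP := hl'.P1
  have key := hL.growth (T := fun r => T r ∘ ((Equiv.swap (0 : Fin 4) 2 * Equiv.swap (1 : Fin 4) 3 :
    Equiv.Perm (Fin 4)))) (Q := fun r => Q r ∘ (1 : Equiv.Perm (Fin 4))) (by
      rw [h1, h2, h3, h4, h5]; exact hP)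
  apply key.congr
  intro r
  rw [Kb_perm]

end Run7.h27
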