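import Pool.Agent.Run7.h27.Lower

/-!
# Flipping a face: angles and potential

The data `(φ, π - θ, β₁, β₂, π - γ₁, π - γ₂)` are those of the same four planes, one of them with
the opposite orientation.
-/

set_option autoImplicit false

namespace Run7.h27

open Real Set Filter Topology

variable {φ θ β1 β2 γ1 γ2 : ℝ}

lemma Ang.flip {x : ℝ} (h : Ang x) : Ang (π - x) := ⟨by linarith [h.2], by linarith [h.1]⟩

lemma Dv_flip (x y z : ℝ) : Dv x (π - y) (π - z) = Dv x y z := by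
  unfold Dv
  rw [cos_pi_sub, cos_pi_sub]; ring

lemma Dv_flip' (x y z : ℝ) : Dv (π - x) y (π - z) = Dv x y z := by
  unfold Dv
  rw [cos_pi_sub, cos_pi_sub]; ring

lemma Reg.flip (h : Reg φ θ β1 β2 γ1 γ2) : Reg φ (π - θ) β1 β2 (π - γ1) (π - γ2) :=
  ⟨h.aφ, h.aθ.flip, h.aβ1, h.aβ2, h.aγ1.flip, h.aγ2.flip, h.d3, by rw [Dv_flip]; exact h.d4,
    by rw [Dv_flip']; exact h.d5, by rw [Dv_flip']; exact h.d6⟩

lemma ce_flip (φ θ β1 β2 γ1 γ2 : ℝ) :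
    ce (π - θ) φ β1 (π - γ1) β2 (π - γ2) = ce θ φ β1 γ1 β2 γ2 := by
  unfold ce
  rw [Dv_flip', Dv_flip']
  congr 1
  unfold Cof
  rw [cos_pi_sub, cos_pi_sub, cos_pi_sub, sin_pi_sub]
  ring

lemma F6_flip (φ θ β1 β2 γ1 γ2 z : ℝ) : F6 φ (π - θ) β1 β2 (π - γ1) (π - γ2) z =
    F6 φ θ β1 β2 γ1 γ2 (π + Tv φ β1 β2 - z) := by
  have k : ∀ a b : ℝ, a = b → Lob a = Lob b := fun a b h => by rw [h]
  have k1 : ∀ a b : ℝ, a + π = b → Lob a = Lob b := fun a b h => by rw [← h, Lob_add_pi]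
  have k2 : ∀ a b : ℝ, a - π = b → Lob a = Lob b := fun a b h => by rw [← h, Lob_sub_pi]
  unfold F6 F4
  simp only [Fin.sum_univ_four, Matrix.cons_val]
  set w := π + Tv φ β1 β2 - z with hw
  -- first part
  have a1 := k1 (z - Tv φ β1 β2) (2 * π - w) (by rw [hw]; ring)
  have a2 := k2 (2 * π - z) (w - Tv φ β1 β2) (by rw [hw]; ring)
  have a3 := k (z - Tv φ (π - γ1) (π - γ2)) (Qv β1 β2 γ1 γ2 - w) (by rw [hw]; unfold Tv Qv; ring)
  have a4 := k (Qv β1 β2 (π - γ1) (π - γ2) - z) (w - Tv φ γ1 γ2) (by rw [hw]; unfold Tv Qv; ring)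
  have a5 := k (z - Tv (π - θ) β1 (π - γ1)) (Qv φ θ γ1 β2 - w) (by rw [hw]; unfold Tv Qv; ring)
  have a6 := k (Qv φ (π - θ) (π - γ1) β2 - z) (w - Tv θ β1 γ1) (by rw [hw]; unfold Tv Qv; ring)
  have a7 := k (z - Tv (π - θ) β2 (π - γ2)) (Qv φ θ β1 γ2 - w) (by rw [hw]; unfold Tv Qv; ring)
  have a8 := k (Qv φ (π - θ) β1 (π - γ2) - z) (w - Tv θ β2 γ2) (by rw [hw]; unfold Tv Qv; ring)
  -- second part
  have c1 := k1 (Qv β1 β2 (π - γ1) (π - γ2) - Tv φ β1 β2) (2 * π - Tv φ γ1 γ2) (by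
    unfold Tv Qv; ring)
  have c2 := k1 (Qv φ (π - θ) (π - γ1) β2 - Tv φ β1 β2) (2 * π - Tv θ β1 γ1) (by
    unfold Tv Qv; ring)
  have c3 := k1 (Qv φ (π - θ) β1 (π - γ2) - Tv φ β1 β2) (2 * π - Tv θ β2 γ2) (by
    unfold Tv Qv; ring)
  have c4 := k2 (2 * π - Tv φ (π - γ1) (π - γ2)) (Qv β1 β2 γ1 γ2 - Tv φ β1 β2) (by
    unfold Tv Qv; ring)
  have c5 := k2 (2 * π - Tv (π - θ) β1 (π - γ1)) (Qv φ θ γ1 β2 - Tv φ β1 β2) (by
    unfold Tv Qv; ring)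
  have c6 := k2 (2 * π - Tv (π - θ) β2 (π - γ2)) (Qv φ θ β1 γ2 - Tv φ β1 β2) (by
    unfold Tv Qv; ring)
  have c7 := k (Qv β1 β2 (π - γ1) (π - γ2) - Tv φ (π - γ1) (π - γ2)) (Qv β1 β2 γ1 γ2 - Tv φ γ1 γ2) (by
    unfold Tv Qv; ring)
  have c8 := k (Qv β1 β2 (π - γ1) (π - γ2) - Tv (π - θ) β1 (π - γ1)) (Qv φ θ γ1 β2 - Tv φ γ1 γ2) (by
    unfold Tv Qv; ring)
  have c9 := k (Qv β1 β2 (π - γ1) (π - γ2) - Tv (π - θ) β2 (π - γ2)) (Qv φ θ β1 γ2 - Tv φ γ1 γ2) (by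
    unfold Tv Qv; ring)
  have d1 := k (Qv φ (π - θ) (π - γ1) β2 - Tv φ (π - γ1) (π - γ2)) (Qv β1 β2 γ1 γ2 - Tv θ β1 γ1) (by
    unfold Tv Qv; ring)
  have d2 := k (Qv φ (π - θ) (π - γ1) β2 - Tv (π - θ) β1 (π - γ1)) (Qv φ θ γ1 β2 - Tv θ β1 γ1) (by
    unfold Tv Qv; ring)
  have d3 := k (Qv φ (π - θ) (π - γ1) β2 - Tv (π - θ) β2 (π - γ2)) (Qv φ θ β1 γ2 - Tv θ β1 γ1) (by
    unfold Tv Qv; ring)
  have d4 := k (Qv φ (π - θ) β1 (π - γ2) - Tv φ (π - γ1) (π - γ2)) (Qv β1 β2 γ1 γ2 - Tv θ β2 γ2) (by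
    unfold Tv Qv; ring)
  have d5 := k (Qv φ (π - θ) β1 (π - γ2) - Tv (π - θ) β1 (π - γ1)) (Qv φ θ γ1 β2 - Tv θ β2 γ2) (by
    unfold Tv Qv; ring)
  have d6 := k (Qv φ (π - θ) β1 (π - γ2) - Tv (π - θ) β2 (π - γ2)) (Qv φ θ β1 γ2 - Tv θ β2 γ2) (by
    unfold Tv Qv; ring)
  rw [a1, a2, a3, a4, a5, a6, a7, a8, c1, c2, c3, c4, c5, c6, c7, c8, c9, d1, d2, d3,
    d4, d5, d6]
  ring

variable {a1 a2 b1 b2 y : ℝ}

/-- the ideal end of the line, with all linear facts -/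
structure IdEnd (a1 a2 b1 b2 φ y s : ℝ) : Prop where
  pos : 0 < s
  lt : s < y
  on : ∀ z, s < z → z ≤ y → LnH a1 a2 b1 b2 φ z
  f5 : π ≤ s + be1 a1 a2 + be1 b1 b2
  f6 : π ≤ s + be2 a1 a2 φ + be2 b1 b2 φ
  fa : φ + s + be1 b1 b2 + be2 a1 a2 φ ≤ 2 * π
  fb : φ + s + be1 a1 a2 + be2 b1 b2 φ ≤ 2 * π
  k1 : 1 < kap a1 a2 b1 b2 s
  q5 : 0 ≤ qk a1 b1 (kap a1 a2 b1 b2 s)
  q6 : 0 ≤ qk (hA a1 a2 φ) (hA b1 b2 φ) (kap a1 a2 b1 b2 s)
  fin : s + be1 a1 a2 + be1 b1 b2 = π ∨ s + be2 a1 a2 φ + be2 b1 b2 φ = π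

lemma cos_add_cos_zero {x z : ℝ} (hx : Ang x) (hz : Ang z) (h : cos x + cos z = 0) : x + z = π := by
  have h1 : cos x = cos (π - z) := by rw [cos_pi_sub]; linarith
  have := injOn_cos ⟨hx.1.le, hx.2.le⟩ ⟨by linarith [hz.2], by linarith [hz.1]⟩ h1
  linarith

theorem LnH.idEnd (h : LnH a1 a2 b1 b2 φ y) : ∃ s, IdEnd a1 a2 b1 b2 φ y s := by
  set m : ℝ → ℝ := fun z => min (qk a1 b1 (kap a1 a2 b1 b2 z))
    (qk (hA a1 a2 φ) (hA b1 b2 φ) (kap a1 a2 b1 b2 z)) with hm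
  have hkc := kap_cont a1 a2 b1 b2
  have hL := lm_pos a1 a2
  have hM := lm_pos b1 b2
  have hmc : Continuous m := by
    rw [hm]
    unfold qk
    fun_prop
  have hy := h.hyp
  have hqL := hy.qL
  have sgn5 : ∀ z, 0 ≤ qk a1 b1 (kap a1 a2 b1 b2 z) → 0 ≤ Dv z (be1 a1 a2) (be1 b1 b2) := by
    intro z hz
    rw [D5_kap]; positivity
  have sgn6 : ∀ z, 0 ≤ qk (hA a1 a2 φ) (hA b1 b2 φ) (kap a1 a2 b1 b2 z) →
      0 ≤ Dv z (be2 a1 a2 φ) (be2 b1 b2 φ) := by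
    intro z hz
    rw [D6_kap]; positivity
  have hm0 : m 0 < 0 := by
    by_contra hh
    push Not at hh
    have h5 := sgn5 0 (hh.trans (min_le_left _ _))
    have h6 := sgn6 0 (hh.trans (min_le_right _ _))
    have e : ∀ x z : ℝ, 0 ≤ Dv 0 x z → cos x + cos z = 0 := by
      intro x z hxz
      unfold Dv at hxz
      rw [cos_zero] at hxz
      have h7 : (cos x + cos z) ^ 2 = 0 := le_antisymm (by nlinarith) (sq_nonneg _)
      exact pow_eq_zero_iff (two_ne_zero) |>.mp h7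
    have g5 := cos_add_cos_zero hy.aβ1 hy.aγ1 (e _ _ h5)
    have g6 := cos_add_cos_zero hy.aβ2 hy.aγ2 (e _ _ h6)
    linarith
  have hmy : 0 < m y := lt_min h.q5 h.q6
  obtain ⟨s, hs, hsmax⟩ : ∃ s ∈ Icc 0 y ∩ m ⁻¹' Iic 0, ∀ z ∈ Icc 0 y ∩ m ⁻¹' Iic 0, z ≤ s := by
    have hK : IsCompact (Icc 0 y ∩ m ⁻¹' Iic 0) :=
      isCompact_Icc.inter_right (isClosed_Iic.preimage hmc)
    exact hK.exists_isMaxOn ⟨0, ⟨le_rfl, h.ay.1.le⟩, hm0.le⟩ continuousOn_id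
  have hsy : s < y := by
    apply lt_of_le_of_ne hs.1.2
    intro e
    have h3 : m s ≤ 0 := hs.2
    rw [e] at h3
    linarith
  have hpos : ∀ z, s < z → z ≤ y → 0 < m z := by
    intro z h1 h2
    by_contra hh
    push Not at hh
    have := hsmax z ⟨⟨hs.1.1.trans h1.le, h2⟩, hh⟩
    linarith
  have hLH : ∀ z, s < z → z ≤ y → LnH a1 a2 b1 b2 φ z := by
    intro z h1 h2
    have h3 := hpos z h1 h2
    refine ⟨⟨h.aφ, ⟨hs.1.1.trans_lt h1, h2.trans_lt h.ay.2⟩, h3.trans_le (min_le_left _ _),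
      h3.trans_le (min_le_right _ _)⟩, ?_, h.s0, h.s1⟩
    rcases eq_or_lt_of_le h2 with h4 | h4
    · rw [h4]; exact h.k1
    · exact h.k1.trans (kap_anti a1 a2 b1 b2 (hs.1.1.trans h1.le) h.ay.2.le h4)
  have hms : m s = 0 := by
    apply le_antisymm hs.2
    have h1 : Tendsto m (𝓝[>] s) (𝓝 (m s)) := hmc.continuousAt.tendsto.mono_left nhdsWithin_le_nhds
    apply ge_of_tendsto h1
    filter_upwards [Ioc_mem_nhdsGT hsy] with z hz
    exact (hpos z hz.1 hz.2).le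
  have hs0 : 0 < s := by
    apply lt_of_le_of_ne hs.1.1
    intro e
    rw [← e] at hms
    linarith
  -- limits of the linear inequalities
  have lim_le : ∀ c d : ℝ, (∀ z, s < z → z ≤ y → c < z + d) → c ≤ s + d := by
    intro c d hz
    by_contra hh
    push Not at hh
    obtain ⟨z, hz1, hz2⟩ := exists_between (show s < min y (c - d) from lt_min hsy (by linarith))
    have h1 := hz z hz1 (hz2.trans_le (min_le_left _ _)).le
    have h2 := hz2.trans_le (min_le_right _ _)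
    linarith
  have lim_ge : ∀ c d : ℝ, (∀ z, s < z → z ≤ y → z + d < c) → s + d ≤ c := by
    intro c d hz
    have := hz y hsy le_rfl
    linarith
  have f5 := lim_le π (be1 a1 a2 + be1 b1 b2) (fun z h1 h2 => by
    have := (hLH z h1 h2).facts.1; linarith)
  have f6 := lim_le π (be2 a1 a2 φ + be2 b1 b2 φ) (fun z h1 h2 => by
    have := (hLH z h1 h2).facts.2.1; linarith)
  have fa := lim_ge (2 * π) (φ + be1 b1 b2 + be2 a1 a2 φ) (fun z h1 h2 => by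
    have := (hLH z h1 h2).facts.2.2.1; linarith)
  have fb := lim_ge (2 * π) (φ + be1 a1 a2 + be2 b1 b2 φ) (fun z h1 h2 => by
    have := (hLH z h1 h2).facts.2.2.2; linarith)
  have i3 := (vert_ineq1 hy.aφ hy.aβ1 hy.aβ2 hy.d3).1
  have i4 := (vert_ineq1 hy.aφ hy.aγ1 hy.aγ2 hy.d4).1
  have hsπ : s < π := hsy.trans h.ay.2
  have hend : s + be1 a1 a2 + be1 b1 b2 = π ∨ s + be2 a1 a2 φ + be2 b1 b2 φ = π := by
    rcases min_choice (qk a1 b1 (kap a1 a2 b1 b2 s))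
      (qk (hA a1 a2 φ) (hA b1 b2 φ) (kap a1 a2 b1 b2 s)) with h1 | h1
    · left
      have h2 : qk a1 b1 (kap a1 a2 b1 b2 s) = 0 := by rw [← h1]; exact hms
      have h3 := D5_kap a1 a2 b1 b2 s
      rw [h2, mul_zero] at h3
      exact ideal_core (φ := φ) (β' := be2 a1 a2 φ) (γ' := be2 b1 b2 φ) hs.1.1 hsπ hy.aβ1 hy.aγ1 h3
        (by linarith) (by linarith) (by linarith) (by linarith) (by linarith) (by linarith)
    · right
      have h2 : qk (hA a1 a2 φ) (hA b1 b2 φ) (kap a1 a2 b1 b2 s) = 0 := by rw [← h1]; exact hms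
      have h3 := D6_kap a1 a2 b1 b2 φ s
      rw [h2, mul_zero] at h3
      exact ideal_core (φ := φ) (β' := be1 a1 a2) (γ' := be1 b1 b2) hs.1.1 hsπ hy.aβ2 hy.aγ2 h3
        (by linarith) (by linarith) (by linarith) (by linarith) (by linarith) (by linarith)
  refine ⟨s, hs0, hsy, hLH, by linarith, by linarith, by linarith, by linarith, ?_, ?_, ?_, hend⟩
  · exact h.k1.trans (kap_anti a1 a2 b1 b2 hs0.le h.ay.2.le hsy)
  · rw [← hms]; exact min_le_left _ _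
  · rw [← hms]; exact min_le_right _ _

end Run7.h27
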