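import Pool.Agent.Run7.h27.Neg1

/-!
# Flipping a face: the upper bound
-/

set_option autoImplicit false

namespace Run7.h27

open Real Set Filter Topology

variable {a1 a2 b1 b2 φ y : ℝ}

/-- crude bound near the ideal end -/
lemma LnH.neg_crude (h : LnH a1 a2 b1 b2 φ y) {k : Fin 4} (hk2 : k = 2 ∨ k = 3)
    (hk : ∀ i, tvec φ y (be1 a1 a2) (be2 a1 a2 φ) (be1 b1 b2) (be2 b1 b2 φ) i ≤
      tvec φ y (be1 a1 a2) (be2 a1 a2 φ) (be1 b1 b2) (be2 b1 b2 φ) k) :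
    UA φ (π - y) (be1 a1 a2) (be2 a1 a2 φ) (π - be1 b1 b2) (π - be2 b1 b2 φ)
      (-Wl a1 a2 b1 b2 φ y +
        2 * (Lob ((π - tvec φ y (be1 a1 a2) (be2 a1 a2 φ) (be1 b1 b2) (be2 b1 b2 φ) k) / 2) +
        Lob (tvec φ y (be1 a1 a2) (be2 a1 a2 φ) (be1 b1 b2) (be2 b1 b2 φ) k / 2))) := by
  apply UB_crude h.reg.flip
  intro x hx1 hx2
  rw [← F6_def, F6_flip]
  apply h.hyp.Vbounds h.Wl_minus hk
  · rcases hk2 with rfl | rfl
    · have h2 : x ≤ Qv φ (π - y) (π - be1 b1 b2) (be2 a1 a2 φ) := hx2 2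
      show Tv y (be1 a1 a2) (be1 b1 b2) ≤ _
      unfold Qv at h2
      unfold Tv
      linarith
    · have h2 : x ≤ Qv φ (π - y) (be1 a1 a2) (π - be2 b1 b2 φ) := hx2 3
      show Tv y (be2 a1 a2 φ) (be2 b1 b2 φ) ≤ _
      unfold Qv at h2
      unfold Tv
      linarith
  · have h1 : Tv φ (be1 a1 a2) (be2 a1 a2 φ) ≤ x := hx1 0
    linarith

/-- the vertex which becomes ideal has the largest parameter -/
lemma IdEnd.near {s : ℝ} (hs : IdEnd a1 a2 b1 b2 φ y s) {δ : ℝ} (hδ : 0 < δ) :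
    ∃ d > 0, ∀ z, s < z → z < s + d → z ≤ y →
      ∃ k : Fin 4, (k = 2 ∨ k = 3) ∧
        (∀ i, tvec φ z (be1 a1 a2) (be2 a1 a2 φ) (be1 b1 b2) (be2 b1 b2 φ) i ≤
          tvec φ z (be1 a1 a2) (be2 a1 a2 φ) (be1 b1 b2) (be2 b1 b2 φ) k) ∧
        π - δ < tvec φ z (be1 a1 a2) (be2 a1 a2 φ) (be1 b1 b2) (be2 b1 b2 φ) k ∧
        tvec φ z (be1 a1 a2) (be2 a1 a2 φ) (be1 b1 b2) (be2 b1 b2 φ) k ≤ π := by
  have hl := (hs.on y hs.lt le_rfl).hyp.toReg.lin
  obtain ⟨d, hd, hd1, hd2, hd3⟩ : ∃ d > 0, d ≤ δ ∧ d ≤ π - Tv φ (be1 a1 a2) (be2 a1 a2 φ) ∧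
      d ≤ π - Tv φ (be1 b1 b2) (be2 b1 b2 φ) := by
    refine ⟨min δ (min (π - Tv φ (be1 a1 a2) (be2 a1 a2 φ)) (π - Tv φ (be1 b1 b2) (be2 b1 b2 φ))),
      lt_min hδ (lt_min ?_ ?_), min_le_left _ _, ?_, ?_⟩
    · linarith [hl.t3.2]
    · linarith [hl.t4.2]
    · exact (min_le_right _ _).trans (min_le_left _ _)
    · exact (min_le_right _ _).trans (min_le_right _ _)
  refine ⟨d, hd, ?_⟩
  intro z hz1 hz2 hz3
  have hz := hs.on z hz1 hz3
  obtain ⟨k, hk⟩ := Finite.exists_max (tvec φ z (be1 a1 a2) (be2 a1 a2 φ) (be1 b1 b2) (be2 b1 b2 φ))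
  have hbig : π - d < tvec φ z (be1 a1 a2) (be2 a1 a2 φ) (be1 b1 b2) (be2 b1 b2 φ) k := by
    rcases hs.fin with h1 | h1
    · refine lt_of_lt_of_le ?_ (hk 2)
      show π - d < Tv z (be1 a1 a2) (be1 b1 b2)
      unfold Tv
      linarith
    · refine lt_of_lt_of_le ?_ (hk 3)
      show π - d < Tv z (be2 a1 a2 φ) (be2 b1 b2 φ)
      unfold Tv
      linarith
  refine ⟨k, ?_, hk, by linarith, (hz.hyp.toReg.tvec k).2.le⟩
  fin_cases k
  · exfalso
    have : π - d < Tv φ (be1 a1 a2) (be2 a1 a2 φ) := hbig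
    linarith
  · exfalso
    have : π - d < Tv φ (be1 b1 b2) (be2 b1 b2 φ) := hbig
    linarith
  · left; rfl
  · right; rfl

/-- the upper bound for the flipped data -/
theorem LnH.neg_upper (h : LnH a1 a2 b1 b2 φ y) :
    UA φ (π - y) (be1 a1 a2) (be2 a1 a2 φ) (π - be1 b1 b2) (π - be2 b1 b2 φ)
      (-Wl a1 a2 b1 b2 φ y) := by
  apply UB.closed
  intro ε hε
  obtain ⟨s, hs⟩ := h.idEnd
  obtain ⟨δ, hδ, hcrit⟩ := crit_fun (show 0 < ε / 2 by positivity)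
  obtain ⟨d, hd, hnear⟩ := hs.near hδ
  obtain ⟨z, hz1, hz2⟩ := exists_between (show s < min y (s + d) from lt_min hs.lt (by linarith))
  have hzy : z ≤ y := (hz2.trans_le (min_le_left _ _)).le
  have hzd : z < s + d := hz2.trans_le (min_le_right _ _)
  obtain ⟨k, hk2, hk, hk3, hk4⟩ := hnear z hz1 hzd hzy
  have LZ' := hs.on z hz1 hzy
  have hc := hcrit _ hk3 hk4
  have hstart : UA (π - z) φ (be1 a1 a2) (π - be1 b1 b2) (be2 a1 a2 φ) (π - be2 b1 b2 φ)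
      (-Wl a1 a2 b1 b2 φ z + ε) := by
    apply UB.mono (LZ'.neg_crude hk2 hk).P1
    linarith
  have hr : ∀ v ∈ Icc (0:ℝ) ((y - z) / 2), LnH a1 a2 b1 b2 φ (z + 2 * v) := fun v hv =>
    hs.on _ (by linarith [hv.1]) (by linarith [hv.2])
  have := ode_transfer
    (P := fun v C => UA (π - (z + 2 * v)) φ (be1 a1 a2) (π - be1 b1 b2) (be2 a1 a2 φ)
      (π - be2 b1 b2 φ) C)
    (g := fun v => gr (cl a1 a2 b1 b2 φ (z + 2 * v)))
    (B := fun v => -Wl a1 a2 b1 b2 φ (z + 2 * v)) (a := 0) (b := (y - z) / 2)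
    (C := -Wl a1 a2 b1 b2 φ z + ε) (by linarith)
    (fun v C C' hC h => UB.mono h hC) (fun v C h => UB.closed h) ?_ ?_
    (by simpa using hstart)
  · simp only [mul_zero, add_zero] at this
    rw [show z + 2 * ((y - z) / 2) = y by ring] at this
    apply UB.mono this.P1
    linarith
  · intro v0 hv0 ε' hε'
    have L := hr v0 hv0
    have hce := ce_flip φ (z + 2 * v0) (be1 a1 a2) (be2 a1 a2 φ) (be1 b1 b2) (be2 b1 b2 φ)
    obtain ⟨δ', hδ', hst⟩ := UB_step L.reg.flip.P1 (by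
        rw [hce]
        have := L.one_lt_cl
        unfold cl at this
        linarith) hε'
    rw [hce] at hst
    refine ⟨δ' / 2, by positivity, ?_⟩
    intro v _ w _ hv hw C hU
    have z0 : ∀ x : ℝ, |x - x| < δ' := fun x => by simpa using hδ'
    have := hst (π - (z + 2 * v)) (π - (z + 2 * w)) φ (be1 a1 a2) (π - be1 b1 b2) (be2 a1 a2 φ)
      (π - be2 b1 b2 φ) C
      (by
        rw [abs_lt] at hv ⊢
        constructor <;> linarith)
      (by
        rw [abs_lt] at hw ⊢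
        constructor <;> linarith)
      (z0 _) (z0 _) (z0 _) (z0 _) (z0 _) hU
    rw [show π - (z + 2 * v) - (π - (z + 2 * w)) = 2 * (w - v) by ring, abs_mul,
      abs_of_pos (by norm_num : (0:ℝ) < 2), mul_div_cancel_left₀ _ (by norm_num : (2:ℝ) ≠ 0)] at this
    exact this
  · intro v hv
    have L := hr v hv
    have h6 : HasDerivAt (fun v : ℝ => z + 2 * v) 2 v := by
      have := ((hasDerivAt_id v).const_mul 2).const_add z
      simpa using this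
    have h7 := (L.deriv.comp v h6).neg
    apply HasDerivAt.hasDerivWithinAt
    refine h7.congr_deriv ?_
    ring

end Run7.h27
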