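import Mathlib

/-!
# Local growth bounds imply global ones
-/

set_option autoImplicit false

namespace Run7.h27

open Set Filter Topology

theorem ode_transfer {P : ℝ → ℝ → Prop} {g B : ℝ → ℝ} {a b : ℝ} (hab : a ≤ b)
    (mono : ∀ v C C', C ≤ C' → P v C → P v C')
    (closed : ∀ v C, (∀ ε > 0, P v (C + ε)) → P v C)
    (hloc : ∀ v0 ∈ Icc a b, ∀ ε > 0, ∃ δ > 0, ∀ v ∈ Icc a b, ∀ w ∈ Icc a b, |v - v0| < δ →
      |w - v0| < δ → ∀ C, P v C → P w (C + |w - v| * (g v0 + ε)))
    (hB : ∀ v ∈ Icc a b, HasDerivWithinAt B (g v) (Icc a b) v)
    {C : ℝ} (h : P a C) : P b (C + (B b - B a)) := by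
  have key : ∀ ε > 0, P b (C + (B b - B a) + ε * (b - a)) := by
    intro ε hε
    set S : Set ℝ := {v | P v (C + (B v - B a) + ε * (v - a))} with hS
    have hsub : Icc a b ⊆ S := by
      apply IsClosed.Icc_subset_of_forall_exists_gt
      · apply isClosed_of_closure_subset
        intro v hv
        have hvI : v ∈ Icc a b := by
          have := closure_mono (inter_subset_right (s := S) (t := Icc a b)) hv
          rwa [isClosed_Icc.closure_eq] at this
        refine ⟨?_, hvI⟩
        apply closed
        intro ε' hε'
        obtain ⟨δ, hδ, hl⟩ := hloc v hvI 1 one_pos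
        -- the function to be controlled
        have hcont : ContinuousWithinAt (fun w => (B w - B a) + ε * (w - a) + |v - w| * (g v + 1))
            (Icc a b) v := by
          have h1 := (hB v hvI).continuousWithinAt
          apply ContinuousWithinAt.add
          · apply ContinuousWithinAt.add
            · exact h1.sub continuousWithinAt_const
            · exact (by fun_prop : Continuous (fun w => ε * (w - a))).continuousWithinAt
          · exact (by fun_prop : Continuous (fun w => |v - w| * (g v + 1))).continuousWithinAt
        have hlt : ∀ᶠ w in 𝓝[Icc a b] v, (B w - B a) + ε * (w - a) + |v - w| * (g v + 1) <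
            (B v - B a) + ε * (v - a) + ε' := by
          apply hcont.eventually_lt_const
          show (B v - B a) + ε * (v - a) + |v - v| * (g v + 1) < _
          rw [sub_self v, abs_zero, zero_mul, add_zero]
          linarith
        rw [eventually_nhdsWithin_iff, Metric.eventually_nhds_iff] at hlt
        obtain ⟨δ', hδ', hlt⟩ := hlt
        obtain ⟨w, hw, hdw⟩ := Metric.mem_closure_iff.mp hv (min δ δ') (lt_min hδ hδ')
        rw [Real.dist_eq] at hdw
        have hwd : |w - v| < δ := by rw [abs_sub_comm]; exact hdw.trans_le (min_le_left _ _)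
        have h1 := hl w hw.2 v hvI hwd (by simpa using hδ) _ hw.1
        have h2 := hlt (y := w) (by rw [Real.dist_eq, abs_sub_comm]; exact hdw.trans_le (min_le_right _ _)) hw.2
        exact mono _ _ _ (by linarith) h1
      · show P a (C + (B a - B a) + ε * (a - a))
        rw [sub_self, sub_self, mul_zero, add_zero, add_zero]
        exact h
      · rintro v ⟨hvS, hvI⟩ y hy
        have hy' : v < y := hy
        have hvI' : v ∈ Icc a b := ⟨hvI.1, hvI.2.le⟩
        obtain ⟨δ, hδ, hl⟩ := hloc v hvI' (ε / 2) (by positivity)
        -- derivative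
        have hd := hB v hvI'
        have h1 : ∀ᶠ w in 𝓝[Ioi v] v, (w - v) * (g v - ε / 2) ≤ B w - B v := by
          have h2 : HasDerivWithinAt B (g v) (Ioc v b) v :=
            hd.mono (fun w hw => ⟨hvI.1.trans hw.1.le, hw.2⟩)
          have h3 := hasDerivWithinAt_iff_tendsto_slope.mp h2
          have h4 : (Ioc v b) \ {v} = Ioc v b := by
            ext w; simp only [mem_diff, mem_singleton_iff, mem_Ioc, and_iff_left_iff_imp]
            intro h; exact h.1.ne'
          rw [h4] at h3
          have h5 := h3.eventually_const_lt (show g v - ε / 2 < g v by linarith)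
          rw [nhdsWithin_Ioc_eq_nhdsGT hvI.2] at h5
          filter_upwards [h5, self_mem_nhdsWithin] with w hw hw2
          have hw3 : 0 < w - v := sub_pos.mpr hw2
          rw [slope_def_field, lt_div_iff₀ hw3] at hw
          linarith
        have h2 : ∀ᶠ w in 𝓝[Ioi v] v, w < min y (min b (v + δ)) := by
          apply eventually_nhdsWithin_of_eventually_nhds
          exact gt_mem_nhds (lt_min hy' (lt_min hvI.2 (by linarith)))
        obtain ⟨w, ⟨hw1, hw2⟩, hw3⟩ := ((h1.and h2).and self_mem_nhdsWithin).exists
        have hw3' : v < w := hw3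
        have hwy : w < y := hw2.trans_le (min_le_left _ _)
        have hwb : w < b := hw2.trans_le ((min_le_right _ _).trans (min_le_left _ _))
        have hwδ : w < v + δ := hw2.trans_le ((min_le_right _ _).trans (min_le_right _ _))
        refine ⟨w, ?_, hw3', hwy.le⟩
        have h3 := hl v hvI' w ⟨hvI.1.trans hw3'.le, hwb.le⟩ (by simpa using hδ)
          (by rw [abs_lt]; constructor <;> linarith) _ hvS
        apply mono _ _ _ _ h3
        rw [abs_of_pos (by linarith)]
        nlinarith
    exact hsub (right_mem_Icc.mpr hab)
  apply closed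
  intro ε hε
  rcases eq_or_lt_of_le hab with h1 | h1
  · have := key 1 one_pos
    rw [h1, sub_self, sub_self, mul_zero, add_zero, add_zero] at this
    rw [h1, sub_self, add_zero]
    exact mono _ _ _ (by linarith) this
  · have := key (ε / (b - a)) (div_pos hε (by linarith))
    rwa [div_mul_cancel₀ _ (by linarith : b - a ≠ 0)] at this

end Run7.h27
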