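import Pool.Agent.Run7.h27.Loc2
import Pool.Agent.Run7.h27.GeoD

/-!
# Symmetries of the upper bound and the positive definite region
-/

set_option autoImplicit false

namespace Run7.h27

open Real Set Filter Topology Matrix

lemma N4_perm (r : ℕ) (T Q : Fin 4 → ℤ) (σ ρ : Equiv.Perm (Fin 4)) :
    N4 r (T ∘ σ) (Q ∘ ρ) = N4 r T Q := by
  unfold N4
  rw [Ssym_perm]
  congr 3
  rw [← Equiv.sum_comp σ (fun i => ∑ j, LZ r (Q j - T i))]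
  apply Finset.sum_congr rfl
  intro i _
  exact Equiv.sum_comp ρ (fun j => LZ r (Q j - T (σ i)))

lemma LimS.perm {T Q : ℕ → Fin 4 → ℤ} {t q : Fin 4 → ℝ} (h : LimS T Q t q)
    (σ ρ : Equiv.Perm (Fin 4)) (hρ : ρ 0 = 0) :
    LimS (fun r => T r ∘ σ) (fun r => Q r ∘ ρ) (t ∘ σ) (q ∘ ρ) := by
  refine ⟨?_, ?_, ?_, ?_⟩
  · filter_upwards [h.Q0] with r hr
    simp only [Function.comp, hρ]; exact hr
  · filter_upwards [h.sum] with r hr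
    rw [← hr]
    congr 1
    · exact Equiv.sum_comp ρ (fun j => Q r j)
    · exact Equiv.sum_comp σ (fun j => T r j)
  · intro i; exact h.hT (σ i)
  · intro i; exact h.hQ (ρ i)

lemma UB.perm {t q : Fin 4 → ℝ} {C : ℝ} (h : UB t q C) (σ ρ : Equiv.Perm (Fin 4)) (hρ : ρ 0 = 0) :
    UB (t ∘ σ) (q ∘ ρ) C := by
  intro T Q hl ε hε
  have hρ' : ρ⁻¹ 0 = 0 := by
    rw [Equiv.Perm.inv_eq_iff_eq]; exact hρ.symm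
  have h1 := hl.perm σ⁻¹ ρ⁻¹ hρ'
  have e1 : (t ∘ σ) ∘ ⇑(σ⁻¹) = t := by
    funext i; simp
  have e2 : (q ∘ ρ) ∘ ⇑(ρ⁻¹) = q := by
    funext i; simp
  rw [e1, e2] at h1
  filter_upwards [h _ _ h1 ε hε] with r hr
  rwa [N4_perm] at hr

/-- upper bound in terms of angles -/
def UA (φ θ β1 β2 γ1 γ2 C : ℝ) : Prop := UB (tvec φ θ β1 β2 γ1 γ2) (qvec φ θ β1 β2 γ1 γ2) C

variable {φ θ β1 β2 γ1 γ2 C : ℝ}

lemma tq_P1 : tvec θ φ β1 γ1 β2 γ2 = tvec φ θ β1 β2 γ1 γ2 ∘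
      ((Equiv.swap (0 : Fin 4) 2 * Equiv.swap (1 : Fin 4) 3 : Equiv.Perm (Fin 4))) ∧
    qvec θ φ β1 γ1 β2 γ2 = qvec φ θ β1 β2 γ1 γ2 ∘ (1 : Equiv.Perm (Fin 4)) := by
  constructor
  · funext i
    fin_cases i
    · show Tv θ β1 γ1 = Tv θ β1 γ1
      rfl
    · show Tv θ β2 γ2 = Tv θ β2 γ2
      rfl
    · show Tv φ β1 β2 = Tv φ β1 β2
      rfl
    · show Tv φ γ1 γ2 = Tv φ γ1 γ2
      rfl
  · funext i
    fin_cases i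
    · rfl
    · show Qv β1 γ1 β2 γ2 = Qv β1 β2 γ1 γ2
      unfold Qv; ring
    · show Qv θ φ β2 γ1 = Qv φ θ γ1 β2
      unfold Qv; ring
    · show Qv θ φ β1 γ2 = Qv φ θ β1 γ2
      unfold Qv; ring

lemma tq_P2 : tvec β1 γ2 φ β2 γ1 θ = tvec φ θ β1 β2 γ1 γ2 ∘ (Equiv.swap (1 : Fin 4) 2) ∧
    qvec β1 γ2 φ β2 γ1 θ = qvec φ θ β1 β2 γ1 γ2 ∘ (Equiv.swap (1 : Fin 4) 2) := by
  constructor
  · funext i
    fin_cases i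
    · show Tv β1 φ β2 = Tv φ β1 β2
      unfold Tv; ring
    · show Tv β1 γ1 θ = Tv θ β1 γ1
      unfold Tv; ring
    · show Tv γ2 φ γ1 = Tv φ γ1 γ2
      unfold Tv; ring
    · show Tv γ2 β2 θ = Tv θ β2 γ2
      unfold Tv; ring
  · funext i
    fin_cases i
    · rfl
    · show Qv φ β2 γ1 θ = Qv φ θ γ1 β2
      unfold Qv; ring
    · show Qv β1 γ2 γ1 β2 = Qv β1 β2 γ1 γ2
      unfold Qv; ring
    · show Qv β1 γ2 φ θ = Qv φ θ β1 γ2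
      unfold Qv; ring

lemma tq_P0 : tvec φ θ γ1 γ2 β1 β2 = tvec φ θ β1 β2 γ1 γ2 ∘ (Equiv.swap (0 : Fin 4) 1) ∧
    qvec φ θ γ1 γ2 β1 β2 = qvec φ θ β1 β2 γ1 γ2 ∘ (Equiv.swap (2 : Fin 4) 3) := by
  constructor
  · funext i
    fin_cases i
    · rfl
    · rfl
    · show Tv θ γ1 β1 = Tv θ β1 γ1
      unfold Tv; ring
    · show Tv θ γ2 β2 = Tv θ β2 γ2
      unfold Tv; ring
  · funext i
    fin_cases i
    · rfl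
    · show Qv γ1 γ2 β1 β2 = Qv β1 β2 γ1 γ2
      unfold Qv; ring
    · rfl
    · rfl

lemma tq_P3 : tvec φ θ β2 β1 γ2 γ1 = tvec φ θ β1 β2 γ1 γ2 ∘ (Equiv.swap (2 : Fin 4) 3) ∧
    qvec φ θ β2 β1 γ2 γ1 = qvec φ θ β1 β2 γ1 γ2 ∘ (Equiv.swap (2 : Fin 4) 3) := by
  constructor
  · funext i
    fin_cases i
    · show Tv φ β2 β1 = Tv φ β1 β2
      unfold Tv; ring
    · show Tv φ γ2 γ1 = Tv φ γ1 γ2
      unfold Tv; ring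
    · rfl
    · rfl
  · funext i
    fin_cases i
    · rfl
    · show Qv β2 β1 γ2 γ1 = Qv β1 β2 γ1 γ2
      unfold Qv; ring
    · show Qv φ θ γ2 β1 = Qv φ θ β1 γ2
      unfold Qv; ring
    · show Qv φ θ β2 γ1 = Qv φ θ γ1 β2
      unfold Qv; ring

lemma UA.P1 (h : UA φ θ β1 β2 γ1 γ2 C) : UA θ φ β1 γ1 β2 γ2 C := by
  unfold UA at *
  rw [tq_P1.1, tq_P1.2]
  exact h.perm _ _ rfl

lemma UA.P2 (h : UA φ θ β1 β2 γ1 γ2 C) : UA β1 γ2 φ β2 γ1 θ C := by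
  unfold UA at *
  rw [tq_P2.1, tq_P2.2]
  exact h.perm _ _ (by decide)

lemma UA.P0 (h : UA φ θ β1 β2 γ1 γ2 C) : UA φ θ γ1 γ2 β1 β2 C := by
  unfold UA at *
  rw [tq_P0.1, tq_P0.2]
  exact h.perm _ _ (by decide)

lemma UA.P3 (h : UA φ θ β1 β2 γ1 γ2 C) : UA φ θ β2 β1 γ2 γ1 C := by
  unfold UA at *
  rw [tq_P3.1, tq_P3.2]
  exact h.perm _ _ (by decide)

/-- regular vertices and positive Gram determinant -/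
structure PDb (φ θ β1 β2 γ1 γ2 : ℝ) : Prop extends Reg φ θ β1 β2 γ1 γ2 where
  g : 0 < dG (cos φ) (cos θ) (cos β1) (cos β2) (cos γ1) (cos γ2)

lemma Reg.P1 (h : Reg φ θ β1 β2 γ1 γ2) : Reg θ φ β1 γ1 β2 γ2 :=
  ⟨h.aθ, h.aφ, h.aβ1, h.aγ1, h.aβ2, h.aγ2, h.d5, h.d6, h.d3, h.d4⟩

lemma Reg.P2 (h : Reg φ θ β1 β2 γ1 γ2) : Reg β1 γ2 φ β2 γ1 θ :=
  ⟨h.aβ1, h.aγ2, h.aφ, h.aβ2, h.aγ1, h.aθ, by rw [Dv_perm1]; exact h.d3,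
    by rw [Dv_perm2]; exact h.d5, by rw [Dv_perm3]; exact h.d4,
    by
      have := h.d6
      unfold Dv at *; linarith⟩

lemma Reg.P0 (h : Reg φ θ β1 β2 γ1 γ2) : Reg φ θ γ1 γ2 β1 β2 :=
  ⟨h.aφ, h.aθ, h.aγ1, h.aγ2, h.aβ1, h.aβ2, h.d4, h.d3, by rw [Dv_perm4]; exact h.d5,
    by rw [Dv_perm4]; exact h.d6⟩

lemma Reg.P3 (h : Reg φ θ β1 β2 γ1 γ2) : Reg φ θ β2 β1 γ2 γ1 :=
  ⟨h.aφ, h.aθ, h.aβ2, h.aβ1, h.aγ2, h.aγ1, by rw [Dv_perm4]; exact h.d3,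
    by rw [Dv_perm4]; exact h.d4, h.d6, h.d5⟩

lemma PDb.P1 (h : PDb φ θ β1 β2 γ1 γ2) : PDb θ φ β1 γ1 β2 γ2 :=
  ⟨h.toReg.P1, by have := h.g; unfold dG at *; linarith⟩

lemma PDb.P2 (h : PDb φ θ β1 β2 γ1 γ2) : PDb β1 γ2 φ β2 γ1 θ :=
  ⟨h.toReg.P2, by have := h.g; unfold dG at *; linarith⟩

lemma PDb.P0 (h : PDb φ θ β1 β2 γ1 γ2) : PDb φ θ γ1 γ2 β1 β2 :=
  ⟨h.toReg.P0, by have := h.g; unfold dG at *; linarith⟩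

lemma PDb.P3 (h : PDb φ θ β1 β2 γ1 γ2) : PDb φ θ β2 β1 γ2 γ1 :=
  ⟨h.toReg.P3, by have := h.g; unfold dG at *; linarith⟩

/-- Jacobi's identity -/
lemma jacobi (φ θ β1 β2 γ1 γ2 : ℝ) : Dv φ β1 β2 * Dv φ γ1 γ2 - Cof φ θ β1 β2 γ1 γ2 ^ 2 =
    sin φ ^ 2 * dG (cos φ) (cos θ) (cos β1) (cos β2) (cos γ1) (cos γ2) := by
  rw [Cof_cF, Dv_dD, Dv_dD, sin_sq]
  unfold cF dD dG; ring

lemma PDb.ce_abs (h : PDb φ θ β1 β2 γ1 γ2) : |ce φ θ β1 β2 γ1 γ2| ≤ 1 := by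
  have hD : 0 < Dv φ β1 β2 * Dv φ γ1 γ2 := mul_pos h.d3 h.d4
  have hs := h.aφ.sin_pos
  have hj := jacobi φ θ β1 β2 γ1 γ2
  have hg := mul_pos (pow_pos hs 2) h.g
  unfold ce
  rw [abs_div, abs_of_pos (sqrt_pos.mpr hD), div_le_one (sqrt_pos.mpr hD)]
  apply abs_le_sqrt
  linarith

/-- local invariance in the first coordinate -/
lemma PDb.step1 (h : PDb φ θ β1 β2 γ1 γ2) {ε : ℝ} (hε : 0 < ε) :
    ∃ δ > 0, ∀ φ1 φ2 θ' β1' β2' γ1' γ2' C : ℝ, |φ1 - φ| < δ → |φ2 - φ| < δ → |θ' - θ| < δ →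
      |β1' - β1| < δ → |β2' - β2| < δ → |γ1' - γ1| < δ → |γ2' - γ2| < δ →
      UA φ1 θ' β1' β2' γ1' γ2' C → UA φ2 θ' β1' β2' γ1' γ2' (C + |φ1 - φ2| * ε) := by
  have hc := h.ce_abs
  obtain ⟨δ, hδ, hs⟩ := UB_step h.toReg (abs_le.mp hc).1 hε
  refine ⟨δ, hδ, ?_⟩
  intro φ1 φ2 θ' β1' β2' γ1' γ2' C h1 h2 h3 h4 h5 h6 h7 hU
  have := hs φ1 φ2 θ' β1' β2' γ1' γ2' C h1 h2 h3 h4 h5 h6 h7 hU
  rw [gr_of_le (abs_le.mp hc).2, zero_add] at this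
  apply UB.mono this
  have : 0 ≤ |φ1 - φ2| * ε := by positivity
  linarith

/-- local invariance in all coordinates -/
theorem PDb.box (h : PDb φ θ β1 β2 γ1 γ2) {ε : ℝ} (hε : 0 < ε) :
    ∃ δ > 0, ∀ x0 x1 x2 x3 x4 x5 y0 y1 y2 y3 y4 y5 C : ℝ,
      |x0 - φ| < δ → |x1 - θ| < δ → |x2 - β1| < δ → |x3 - β2| < δ → |x4 - γ1| < δ → |x5 - γ2| < δ →
      |y0 - φ| < δ → |y1 - θ| < δ → |y2 - β1| < δ → |y3 - β2| < δ → |y4 - γ1| < δ → |y5 - γ2| < δ →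
      UA x0 x1 x2 x3 x4 x5 C → UA y0 y1 y2 y3 y4 y5
        (C + (|x0 - y0| + |x1 - y1| + |x2 - y2| + |x3 - y3| + |x4 - y4| + |x5 - y5|) * ε) := by
  obtain ⟨d0, hd0, s0⟩ := h.step1 hε
  obtain ⟨d1, hd1, s1⟩ := h.P1.step1 hε
  obtain ⟨d2, hd2, s2⟩ := h.P2.step1 hε
  obtain ⟨d3, hd3, s3⟩ := h.P3.P2.step1 hε
  obtain ⟨d4, hd4, s4⟩ := h.P0.P2.step1 hε
  obtain ⟨d5, hd5, s5⟩ := h.P0.P3.P2.step1 hε
  obtain ⟨δ, hδ, hδ0, hδ1, hδ2, hδ3, hδ4, hδ5⟩ : ∃ δ > 0, δ ≤ d0 ∧ δ ≤ d1 ∧ δ ≤ d2 ∧ δ ≤ d3 ∧ δ ≤ d4 ∧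
      δ ≤ d5 := by
    refine ⟨min d0 (min d1 (min d2 (min d3 (min d4 d5)))), ?_, ?_, ?_, ?_, ?_, ?_, ?_⟩
    · exact lt_min hd0 (lt_min hd1 (lt_min hd2 (lt_min hd3 (lt_min hd4 hd5))))
    · exact min_le_left _ _
    · exact (min_le_right _ _).trans (min_le_left _ _)
    · exact (min_le_right _ _).trans ((min_le_right _ _).trans (min_le_left _ _))
    · exact (min_le_right _ _).trans ((min_le_right _ _).trans ((min_le_right _ _).trans (min_le_left _ _)))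
    · exact (min_le_right _ _).trans ((min_le_right _ _).trans ((min_le_right _ _).trans
        ((min_le_right _ _).trans (min_le_left _ _))))
    · exact (min_le_right _ _).trans ((min_le_right _ _).trans ((min_le_right _ _).trans
        ((min_le_right _ _).trans (min_le_right _ _))))
  refine ⟨δ, hδ, ?_⟩
  intro x0 x1 x2 x3 x4 x5 y0 y1 y2 y3 y4 y5 C a0 a1 a2 a3 a4 a5 b0 b1 b2 b3 b4 b5 hU
  have u0 := s0 x0 y0 x1 x2 x3 x4 x5 C (a0.trans_le hδ0) (b0.trans_le hδ0) (a1.trans_le hδ0)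
    (a2.trans_le hδ0) (a3.trans_le hδ0) (a4.trans_le hδ0) (a5.trans_le hδ0) hU
  have u1 := (s1 x1 y1 y0 x2 x4 x3 x5 _ (a1.trans_le hδ1) (b1.trans_le hδ1) (b0.trans_le hδ1)
    (a2.trans_le hδ1) (a4.trans_le hδ1) (a3.trans_le hδ1) (a5.trans_le hδ1) u0.P1).P1
  have u2 := (s2 x2 y2 x5 y0 x3 x4 y1 _ (a2.trans_le hδ2) (b2.trans_le hδ2) (a5.trans_le hδ2)
    (b0.trans_le hδ2) (a3.trans_le hδ2) (a4.trans_le hδ2) (b1.trans_le hδ2) u1.P2).P2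
  have u3 := (s3 x3 y3 x4 y0 y2 x5 y1 _ (a3.trans_le hδ3) (b3.trans_le hδ3) (a4.trans_le hδ3)
    (b0.trans_le hδ3) (b2.trans_le hδ3) (a5.trans_le hδ3) (b1.trans_le hδ3) u2.P3.P2).P2.P3
  have u4 := (s4 x4 y4 y3 y0 x5 y2 y1 _ (a4.trans_le hδ4) (b4.trans_le hδ4) (b3.trans_le hδ4)
    (b0.trans_le hδ4) (a5.trans_le hδ4) (b2.trans_le hδ4) (b1.trans_le hδ4) u3.P0.P2).P2.P0
  have u5 := (s5 x5 y5 y2 y0 y4 y3 y1 _ (a5.trans_le hδ5) (b5.trans_le hδ5) (b2.trans_le hδ5)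
    (b0.trans_le hδ5) (b4.trans_le hδ5) (b3.trans_le hδ5) (b1.trans_le hδ5) u4.P0.P3.P2).P2.P3.P0
  have e : C + (|x0 - y0| + |x1 - y1| + |x2 - y2| + |x3 - y3| + |x4 - y4| + |x5 - y5|) * ε =
    C + |x0 - y0| * ε + |x1 - y1| * ε + |x2 - y2| * ε + |x3 - y3| * ε + |x4 - y4| * ε + |x5 - y5| * ε := by
    ring
  rw [e]
  exact u5

end Run7.h27
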