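import Pool.Agent.Run7.h27.PD1
import Pool.Agent.Run7.h27.Ode

/-!
# The crude bound and the corner
-/

set_option autoImplicit false

namespace Run7.h27

open Real Set Filter Topology Matrix

lemma LimS.good {T Q : ℕ → Fin 4 → ℤ} {φ θ β1 β2 γ1 γ2 : ℝ}
    (h : LimS T Q (tvec φ θ β1 β2 γ1 γ2) (qvec φ θ β1 β2 γ1 γ2)) (hR : Reg φ θ β1 β2 γ1 γ2) :
    ∀ᶠ r in oddTop, Good r (T r) (Q r) := by
  obtain ⟨δ, hδ, R, hrec⟩ := near_rec hR one_pos
  have hn := h.near (t0 := tvec φ θ β1 β2 γ1 γ2) (q0 := qvec φ θ β1 β2 γ1 γ2) (δ := δ)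
    (fun i => by simpa using hδ) (fun i => by simpa using hδ)
  have hsmall : ∀ᶠ r in oddTop, ∀ i j, j ≠ 0 → an r (Q r) j - an r (T r) i < π := by
    rw [eventually_all]
    intro i
    rw [eventually_all]
    intro j
    by_cases hj : j = 0
    · exact Filter.Eventually.of_forall (fun r h => absurd hj h)
    · have := ((h.hQ j).sub (h.hT i)).eventually_lt_const (hR.qt i j hj).2
      filter_upwards [this] with r hr _
      exact hr
  filter_upwards [hn, ev_of_ge R (fun r hr ho => hrec r hr ho), hsmall] with r h1 h2 h3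
  obtain ⟨ok, _⟩ := h2 _ _ h1
  have hr0 : (0:ℝ) < r := by
    have := ok.r3
    exact_mod_cast (by omega : 0 < r)
  refine ⟨ok.odd, ok.r3, h1.Q0, ?_, ?_, ?_⟩
  · intro i; have := ok.T1 i; omega
  · intro i j; have := ok.TQ i j; omega
  · intro i j hj
    have h4 := h3 i j hj
    unfold an at h4
    have h5 : 2 * π / (r:ℝ) * (2 * ((Q r j : ℝ) - T r i)) < 2 * π / r * r := by
      have e : 2 * π / (r:ℝ) * r = 2 * π := by field_simp
      rw [e]; linarith
    have h6 := lt_of_mul_lt_mul_left h5 (by positivity)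
    exact_mod_cast h6

lemma LimS.lim {T Q : ℕ → Fin 4 → ℤ} {φ θ β1 β2 γ1 γ2 : ℝ}
    (h : LimS T Q (tvec φ θ β1 β2 γ1 γ2) (qvec φ θ β1 β2 γ1 γ2)) (hR : Reg φ θ β1 β2 γ1 γ2) :
    Lim T Q (tvec φ θ β1 β2 γ1 γ2) (qvec φ θ β1 β2 γ1 γ2) :=
  ⟨h.good hR, h.hT, h.hQ⟩

/-- crude bound -/
theorem UB_crude {φ θ β1 β2 γ1 γ2 C : ℝ} (hR : Reg φ θ β1 β2 γ1 γ2)
    (H1 : ∀ x, (∀ i, tvec φ θ β1 β2 γ1 γ2 i ≤ x) → (∀ i, x ≤ qvec φ θ β1 β2 γ1 γ2 i) →
      F4 (tvec φ θ β1 β2 γ1 γ2) (qvec φ θ β1 β2 γ1 γ2) x ≤ C) : UA φ θ β1 β2 γ1 γ2 C := by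
  intro T Q hl ε hε
  have h := hl.lim hR
  filter_upwards [gz_upper h hR.tq H1 (show 0 < ε / 2 by positivity), h.good,
    ev_log (show 0 < ε / 2 by positivity)] with r hA hG hE
  have hr : (0:ℝ) < r := by
    have := hG.r3
    exact_mod_cast (by omega : 0 < r)
  have hrp : 0 < (r:ℝ) / (2 * π) := by positivity
  set E0 := exp (1 / 2 * ∑ i, ∑ j, LZ r (Q r j - T r i)) with hE0
  have hE0p : 0 < E0 := exp_pos _
  have hup : E0 * |Ssym r (T r) (Q r)| ≤ r * exp (r / (2 * π) * (C + ε / 2)) := by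
    have := Ssym_upper (B := exp (r / (2 * π) * (C + ε / 2)) / E0) hG (by
      intro z hz
      rw [le_div_iff₀ hE0p, mul_comm, hE0, exp_term hG hz]
      apply exp_le_exp.mpr
      exact mul_le_mul_of_nonneg_left (hA z hz) hrp.le) (by positivity)
    calc E0 * |Ssym r (T r) (Q r)| ≤ E0 * (r * (exp (r / (2 * π) * (C + ε / 2)) / E0)) :=
          mul_le_mul_of_nonneg_left this hE0p.le
      _ = r * exp (r / (2 * π) * (C + ε / 2)) := by field_simp
  have hN : |N4 r (T r) (Q r)| = E0 * |Ssym r (T r) (Q r)| := by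
    unfold N4
    rw [abs_mul, abs_of_pos (exp_pos _)]
  rw [hN]
  apply hup.trans
  have hrle : (r:ℝ) ≤ exp (r / (2 * π) * (ε / 2)) := by
    rw [← Real.log_le_iff_le_exp hr]
    have h1 : Real.log r ≤ Real.log (2 * r) := Real.log_le_log hr (by linarith)
    have h2 : Real.log (2 * r) = r / (2 * π) * (2 * π / r * Real.log (2 * r)) := by
      have := pi_ne_zero
      field_simp
    have h3 := mul_le_mul_of_nonneg_left hE hrp.le
    linarith
  calc (r:ℝ) * exp (r / (2 * π) * (C + ε / 2)) ≤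
      exp (r / (2 * π) * (ε / 2)) * exp (r / (2 * π) * (C + ε / 2)) :=
        mul_le_mul_of_nonneg_right hrle (exp_pos _).le
    _ = exp (r / (2 * π) * (C + ε)) := by
        rw [← exp_add]; congr 1; ring

lemma Lob_two_pi : Lob (2 * π) = 0 := by
  have := Lob_two_pi_sub 0
  rw [sub_zero, Lob_zero] at this
  simpa using this

/-- near the corner the crude bound is small -/
theorem corner {ε : ℝ} (hε : 0 < ε) : ∃ δ > 0, ∀ φ θ β1 β2 γ1 γ2 : ℝ, Reg φ θ β1 β2 γ1 γ2 →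
    π - δ < φ → π - δ < θ → π - δ < β1 → π - δ < β2 → π - δ < γ1 → π - δ < γ2 →
    UA φ θ β1 β2 γ1 γ2 ε := by
  obtain ⟨δ, hδ, hL⟩ := Lob_unif (show 0 < ε / 16 by positivity)
  refine ⟨δ / 2, by positivity, ?_⟩
  intro φ θ β1 β2 γ1 γ2 hR h1 h2 h3 h4 h5 h6
  have p1 := hR.aφ.2
  have p2 := hR.aθ.2
  have p3 := hR.aβ1.2
  have p4 := hR.aβ2.2
  have p5 := hR.aγ1.2
  have p6 := hR.aγ2.2
  have hp := pi_pos
  apply UB_crude hR
  intro x hx1 hx2
  have tb : ∀ i, 0 < tvec φ θ β1 β2 γ1 γ2 i := fun i => (hR.tvec i).1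
  have qb : ∀ j, j ≠ 0 → qvec φ θ β1 β2 γ1 γ2 j < δ := by
    intro j hj
    fin_cases j
    · exact absurd rfl hj
    · show (4 * π - β1 - β2 - γ1 - γ2) / 2 < δ
      linarith
    · show (4 * π - φ - θ - γ1 - β2) / 2 < δ
      linarith
    · show (4 * π - φ - θ - β1 - γ2) / 2 < δ
      linarith
  have hx0 : 0 < x := (tb 0).trans_le (hx1 0)
  have hxδ : x < δ := (hx2 1).trans_lt (qb 1 (by decide))
  have key := F4_close hL (t := tvec φ θ β1 β2 γ1 γ2) (q := qvec φ θ β1 β2 γ1 γ2)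
    (t' := fun _ => 0) (q' := ![2 * π, 0, 0, 0]) (x := x) (x' := 0)
    (by
      intro i
      have a := tb i
      have b := hx1 i
      rw [abs_lt]; constructor <;> linarith)
    (by
      intro i
      by_cases hi : i = 0
      · subst hi
        have e1 : qvec φ θ β1 β2 γ1 γ2 0 = 2 * π := rfl
        have e2 : (![2 * π, 0, 0, 0] : Fin 4 → ℝ) 0 = 2 * π := rfl
        rw [e1, e2, abs_lt]; constructor <;> linarith
      · have a := qb i hi
        have b := hx2 i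
        have e2 : (![2 * π, 0, 0, 0] : Fin 4 → ℝ) i = 0 := by
          fin_cases i
          · exact absurd rfl hi
          · rfl
          · rfl
          · rfl
        rw [e2, abs_lt]; constructor <;> linarith)
    (by
      intro i j
      have a := tb i
      have a' := hx1 i
      by_cases hj : j = 0
      · subst hj
        have e1 : qvec φ θ β1 β2 γ1 γ2 0 = 2 * π := rfl
        have e2 : (![2 * π, 0, 0, 0] : Fin 4 → ℝ) 0 = 2 * π := rfl
        rw [e1, e2]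
        rw [abs_lt]; constructor <;> linarith
      · have b := qb j hj
        have b' := hx2 j
        have e2 : (![2 * π, 0, 0, 0] : Fin 4 → ℝ) j = 0 := by
          fin_cases j
          · exact absurd rfl hj
          · rfl
          · rfl
          · rfl
        rw [e2]
        rw [abs_lt]; constructor <;> linarith)
  have e0 : F4 (fun _ => 0) ![2 * π, 0, 0, 0] 0 = 0 := by
    unfold F4
    simp only [Fin.sum_univ_four, Matrix.cons_val, sub_zero, Lob_zero, Lob_two_pi]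
    norm_num
  rw [e0, sub_zero, abs_le] at key
  have := key.2
  linarith

/-- angle with given cosine moved towards `-1` -/
noncomputable def mv (x s : ℝ) : ℝ := arccos ((1 - s) * cos x - s)

lemma mv_range {x s : ℝ} (hx : Ang x) (h0 : 0 ≤ s) (h1 : s < 1) :
    -1 < (1 - s) * cos x - s ∧ (1 - s) * cos x - s < 1 := by
  have a : -1 < cos x := by
    have := cos_lt_cos_of_nonneg_of_le_pi hx.1.le le_rfl hx.2
    rwa [cos_pi] at this
  have b : cos x < 1 := by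
    have := cos_lt_cos_of_nonneg_of_le_pi le_rfl hx.2.le hx.1
    rwa [cos_zero] at this
  constructor <;> nlinarith

lemma mv_ang {x s : ℝ} (hx : Ang x) (h0 : 0 ≤ s) (h1 : s < 1) :
    Ang (mv x s) ∧ cos (mv x s) = (1 - s) * cos x - s := by
  obtain ⟨a, b⟩ := mv_range hx h0 h1
  unfold mv
  exact ⟨⟨arccos_pos.mpr b, arccos_lt_pi.mpr a⟩, cos_arccos a.le b.le⟩

lemma mv_zero {x : ℝ} (hx : Ang x) : mv x 0 = x := by
  unfold mv
  rw [sub_zero, sub_zero, one_mul, arccos_cos hx.1.le hx.2.le]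

lemma mv_lip {x s : ℝ} (hx : Ang x) (h0 : 0 ≤ s) (h1 : s < 1) :
    ∃ K : ℝ, 0 ≤ K ∧ ∃ δ > 0, ∀ u v : ℝ, |u - s| < δ → |v - s| < δ → |mv x u - mv x v| ≤ K * |u - v| := by
  obtain ⟨a, b⟩ := mv_range hx h0 h1
  have h2 : HasStrictDerivAt (fun s : ℝ => (1 - s) * cos x - s) (-cos x - 1) s := by
    have := (((hasStrictDerivAt_id s).const_sub 1).mul_const (cos x)).sub (hasStrictDerivAt_id s)
    refine this.congr_deriv ?_
    ring
  have h3 : HasStrictDerivAt (arccos ∘ fun s : ℝ => (1 - s) * cos x - s) _ s :=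
    HasStrictDerivAt.comp s (h₂ := arccos) (hasStrictDerivAt_arccos a.ne' b.ne) h2
  obtain ⟨K, U, hU, hK⟩ := HasStrictFDerivAt.exists_lipschitzOnWith h3.hasStrictFDerivAt
  obtain ⟨δ, hδ, hb⟩ := Metric.mem_nhds_iff.mp hU
  refine ⟨K, K.2, δ, hδ, ?_⟩
  intro u v hu hv
  have := hK.dist_le_mul u (hb (by rw [Metric.mem_ball, Real.dist_eq]; exact hu)) v
    (hb (by rw [Metric.mem_ball, Real.dist_eq]; exact hv))
  rwa [Real.dist_eq, Real.dist_eq] at this

lemma mv_tendsto (x : ℝ) : Tendsto (mv x) (𝓝[<] 1) (𝓝 π) := by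
  have h1 : Continuous (mv x) := by
    unfold mv
    exact continuous_arccos.comp (by fun_prop)
  have h2 : mv x 1 = π := by
    unfold mv
    rw [sub_self, zero_mul, zero_sub, arccos_neg_one]
  have := (h1.tendsto 1).mono_left (nhdsWithin_le_nhds (s := Iio 1))
  rwa [h2] at this

variable {φ θ β1 β2 γ1 γ2 : ℝ}

lemma Gx_submatrix_det (e : Fin 3 → Fin 4) : ((Gx φ θ β1 β2 γ1 γ2).submatrix e e).det =
    (Gx φ θ β1 β2 γ1 γ2) (e 0) (e 0) * (Gx φ θ β1 β2 γ1 γ2) (e 1) (e 1) * (Gx φ θ β1 β2 γ1 γ2) (e 2) (e 2) -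
    (Gx φ θ β1 β2 γ1 γ2) (e 0) (e 0) * (Gx φ θ β1 β2 γ1 γ2) (e 1) (e 2) * (Gx φ θ β1 β2 γ1 γ2) (e 2) (e 1) -
    (Gx φ θ β1 β2 γ1 γ2) (e 0) (e 1) * (Gx φ θ β1 β2 γ1 γ2) (e 1) (e 0) * (Gx φ θ β1 β2 γ1 γ2) (e 2) (e 2) +
    (Gx φ θ β1 β2 γ1 γ2) (e 0) (e 1) * (Gx φ θ β1 β2 γ1 γ2) (e 1) (e 2) * (Gx φ θ β1 β2 γ1 γ2) (e 2) (e 0) +
    (Gx φ θ β1 β2 γ1 γ2) (e 0) (e 2) * (Gx φ θ β1 β2 γ1 γ2) (e 1) (e 0) * (Gx φ θ β1 β2 γ1 γ2) (e 2) (e 1) -
    (Gx φ θ β1 β2 γ1 γ2) (e 0) (e 2) * (Gx φ θ β1 β2 γ1 γ2) (e 1) (e 1) * (Gx φ θ β1 β2 γ1 γ2) (e 2) (e 0) := by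
  rw [Matrix.det_fin_three]
  rfl

/-- positive definite Gram matrices -/
theorem pdb_of_posDef (aφ : Ang φ) (aθ : Ang θ) (aβ1 : Ang β1) (aβ2 : Ang β2) (aγ1 : Ang γ1)
    (aγ2 : Ang γ2) (h : (Gx φ θ β1 β2 γ1 γ2).PosDef) : PDb φ θ β1 β2 γ1 γ2 := by
  have hinj : ∀ e : Fin 3 → Fin 4, Function.Injective e →
      0 < ((Gx φ θ β1 β2 γ1 γ2).submatrix e e).det := fun e he => (h.submatrix he).det_pos
  have hdet := h.det_pos
  rw [det_Gx] at hdet
  refine ⟨⟨aφ, aθ, aβ1, aβ2, aγ1, aγ2, ?_, ?_, ?_, ?_⟩, hdet⟩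
  · have := hinj ![1, 2, 3] (by decide)
    rw [Gx_submatrix_det] at this
    unfold Gx at this
    simp only [Matrix.of_apply, Matrix.cons_val] at this
    unfold Dv; linarith
  · have := hinj ![0, 2, 3] (by decide)
    rw [Gx_submatrix_det] at this
    unfold Gx at this
    simp only [Matrix.of_apply, Matrix.cons_val] at this
    unfold Dv; linarith
  · have := hinj ![0, 1, 3] (by decide)
    rw [Gx_submatrix_det] at this
    unfold Gx at this
    simp only [Matrix.of_apply, Matrix.cons_val] at this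
    unfold Dv; linarith
  · have := hinj ![0, 1, 2] (by decide)
    rw [Gx_submatrix_det] at this
    unfold Gx at this
    simp only [Matrix.of_apply, Matrix.cons_val] at this
    unfold Dv; linarith

lemma ones_posSemidef : (Matrix.of (fun _ _ : Fin 4 => (1:ℝ))).PosSemidef := by
  rw [Matrix.posSemidef_iff_dotProduct_mulVec]
  refine ⟨?_, ?_⟩
  · ext i j; rfl
  · intro x
    simp only [star_trivial, dotProduct, Matrix.mulVec, Matrix.of_apply, one_mul]
    rw [← Finset.sum_mul]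
    exact mul_self_nonneg _

/-- moving towards the corner keeps the Gram matrix positive definite -/
lemma mv_posDef (aφ : Ang φ) (aθ : Ang θ) (aβ1 : Ang β1) (aβ2 : Ang β2) (aγ1 : Ang γ1)
    (aγ2 : Ang γ2) (h : (Gx φ θ β1 β2 γ1 γ2).PosDef) {s : ℝ} (h0 : 0 ≤ s) (h1 : s < 1) :
    (Gx (mv φ s) (mv θ s) (mv β1 s) (mv β2 s) (mv γ1 s) (mv γ2 s)).PosDef := by
  have e : Gx (mv φ s) (mv θ s) (mv β1 s) (mv β2 s) (mv γ1 s) (mv γ2 s) =
      (1 - s) • Gx φ θ β1 β2 γ1 γ2 + s • Matrix.of (fun _ _ : Fin 4 => (1:ℝ)) := by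
    unfold Gx
    rw [(mv_ang aφ h0 h1).2, (mv_ang aθ h0 h1).2, (mv_ang aβ1 h0 h1).2, (mv_ang aβ2 h0 h1).2,
      (mv_ang aγ1 h0 h1).2, (mv_ang aγ2 h0 h1).2]
    ext i j
    fin_cases i <;> fin_cases j <;>
      simp only [Matrix.of_apply, Matrix.cons_val, Matrix.add_apply, Matrix.smul_apply, smul_eq_mul,
        Fin.zero_eta, Fin.mk_one, Fin.reduceFinMk, Fin.isValue] <;> ring
  rw [e]
  exact (h.smul (by linarith : 0 < 1 - s)).add_posSemidef (ones_posSemidef.smul h0)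

end Run7.h27
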