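import Pool.Agent.Run7.h27.PD2

/-!
# No exponential growth in the positive definite region
-/

set_option autoImplicit false

namespace Run7.h27

open Real Set Filter Topology Matrix

variable {φ θ β1 β2 γ1 γ2 : ℝ}

/-- uniform Lipschitz bound for all six angles -/
lemma mv_lip6 (aφ : Ang φ) (aθ : Ang θ) (aβ1 : Ang β1) (aβ2 : Ang β2) (aγ1 : Ang γ1)
    (aγ2 : Ang γ2) {s : ℝ} (h0 : 0 ≤ s) (h1 : s < 1) :
    ∃ K : ℝ, 0 < K ∧ ∃ δ > 0, ∀ x ∈ ({φ, θ, β1, β2, γ1, γ2} : Set ℝ), ∀ u v : ℝ, |u - s| < δ →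
      |v - s| < δ → |mv x u - mv x v| ≤ K * |u - v| := by
  have hfin : ({φ, θ, β1, β2, γ1, γ2} : Set ℝ).Finite := by simp
  have hA : ∀ x ∈ ({φ, θ, β1, β2, γ1, γ2} : Set ℝ), Ang x := by
    intro x hx
    simp only [mem_insert_iff, mem_singleton_iff] at hx
    rcases hx with h | h | h | h | h | h <;> subst h <;> assumption
  have key : ∀ S : Set ℝ, S.Finite → (∀ x ∈ S, Ang x) → ∃ K : ℝ, 0 < K ∧ ∃ δ > 0, ∀ x ∈ S,
      ∀ u v : ℝ, |u - s| < δ → |v - s| < δ → |mv x u - mv x v| ≤ K * |u - v| := by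
    intro S hS
    induction S, hS using Set.Finite.induction_on with
    | empty => intro _; exact ⟨1, one_pos, 1, one_pos, fun x hx => absurd hx (notMem_empty x)⟩
    | insert ha hfin ih =>
      intro hAng
      obtain ⟨K, hK, δ, hδ, hh⟩ := ih (fun x hx => hAng x (mem_insert_of_mem _ hx))
      obtain ⟨K', hK', δ', hδ', hh'⟩ := mv_lip (hAng _ (mem_insert _ _)) h0 h1
      refine ⟨K + K', by linarith, min δ δ', lt_min hδ hδ', ?_⟩
      intro x hx u v hu hv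
      have hab := abs_nonneg (u - v)
      rcases hx with hx | hx
      · rw [hx]
        have := hh' u v (hu.trans_le (min_le_right _ _)) (hv.trans_le (min_le_right _ _))
        nlinarith
      · have := hh x hx u v (hu.trans_le (min_le_left _ _)) (hv.trans_le (min_le_left _ _))
        nlinarith
  exact key _ hfin hA

theorem pd_zero (aφ : Ang φ) (aθ : Ang θ) (aβ1 : Ang β1) (aβ2 : Ang β2) (aγ1 : Ang γ1)
    (aγ2 : Ang γ2) (h : (Gx φ θ β1 β2 γ1 γ2).PosDef) : UA φ θ β1 β2 γ1 γ2 0 := by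
  apply UB.closed
  intro ε hε
  rw [zero_add]
  obtain ⟨δc, hδc, hcorner⟩ := corner hε
  -- a point near the corner
  obtain ⟨s1, hs10, hs11, hnear⟩ : ∃ s1 : ℝ, 0 < s1 ∧ s1 < 1 ∧
      (π - δc < mv φ s1 ∧ π - δc < mv θ s1 ∧ π - δc < mv β1 s1 ∧ π - δc < mv β2 s1 ∧
        π - δc < mv γ1 s1 ∧ π - δc < mv γ2 s1) := by
    have hev : ∀ x, ∀ᶠ s in 𝓝[<] (1:ℝ), π - δc < mv x s := fun x =>
      (mv_tendsto x).eventually_const_lt (by linarith)
    have h1 : ∀ᶠ s in 𝓝[<] (1:ℝ), s ∈ Ioo (0:ℝ) 1 := Ioo_mem_nhdsLT one_pos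
    obtain ⟨s, hs⟩ := (h1.and ((hev φ).and ((hev θ).and ((hev β1).and ((hev β2).and
      ((hev γ1).and (hev γ2))))))).exists
    exact ⟨s, hs.1.1, hs.1.2, hs.2⟩
  have hreg : ∀ s : ℝ, 0 ≤ s → s < 1 → PDb (mv φ s) (mv θ s) (mv β1 s) (mv β2 s) (mv γ1 s) (mv γ2 s) := by
    intro s h0 h1
    exact pdb_of_posDef (mv_ang aφ h0 h1).1 (mv_ang aθ h0 h1).1 (mv_ang aβ1 h0 h1).1
      (mv_ang aβ2 h0 h1).1 (mv_ang aγ1 h0 h1).1 (mv_ang aγ2 h0 h1).1
      (mv_posDef aφ aθ aβ1 aβ2 aγ1 aγ2 h h0 h1)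
  have hstart : UA (mv φ s1) (mv θ s1) (mv β1 s1) (mv β2 s1) (mv γ1 s1) (mv γ2 s1) ε :=
    hcorner _ _ _ _ _ _ (hreg s1 hs10.le hs11).toReg hnear.1 hnear.2.1 hnear.2.2.1 hnear.2.2.2.1
      hnear.2.2.2.2.1 hnear.2.2.2.2.2
  have := ode_transfer (P := fun v C => UA (mv φ (s1 - v)) (mv θ (s1 - v)) (mv β1 (s1 - v))
      (mv β2 (s1 - v)) (mv γ1 (s1 - v)) (mv γ2 (s1 - v)) C) (g := fun _ => 0) (B := fun _ => 0)
      (a := 0) (b := s1) (C := ε) hs10.le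
      (fun v C C' hC h => UB.mono h hC) (fun v C h => UB.closed h) ?_
      (fun v _ => hasDerivWithinAt_const _ _ _) (by simpa using hstart)
  · simp only [sub_self, add_zero] at this
    rw [mv_zero aφ, mv_zero aθ, mv_zero aβ1, mv_zero aβ2, mv_zero aγ1, mv_zero aγ2] at this
    exact this
  · intro v0 hv0 ε' hε'
    have hs0 : 0 ≤ s1 - v0 := by linarith [hv0.2]
    have hs1 : s1 - v0 < 1 := by linarith [hv0.1]
    obtain ⟨K, hK, δl, hδl, hlip⟩ := mv_lip6 aφ aθ aβ1 aβ2 aγ1 aγ2 hs0 hs1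
    obtain ⟨δb, hδb, hbox⟩ := (hreg _ hs0 hs1).box (show 0 < ε' / (6 * K) by positivity)
    refine ⟨min δl (δb / K), lt_min hδl (by positivity), ?_⟩
    intro v _ w _ hv hw C hU
    have hv1 : |s1 - v - (s1 - v0)| < δl := by
      rw [show s1 - v - (s1 - v0) = -(v - v0) by ring, abs_neg]
      exact hv.trans_le (min_le_left _ _)
    have hw1 : |s1 - w - (s1 - v0)| < δl := by
      rw [show s1 - w - (s1 - v0) = -(w - v0) by ring, abs_neg]
      exact hw.trans_le (min_le_left _ _)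
    have hc0 : |s1 - v0 - (s1 - v0)| < δl := by simpa using hδl
    have hclose : ∀ x ∈ ({φ, θ, β1, β2, γ1, γ2} : Set ℝ), |mv x (s1 - v) - mv x (s1 - v0)| < δb := by
      intro x hx
      have h1 := hlip x hx _ _ hv1 hc0
      rw [show s1 - v - (s1 - v0) = -(v - v0) by ring, abs_neg] at h1
      have h2 : |v - v0| < δb / K := hv.trans_le (min_le_right _ _)
      rw [lt_div_iff₀ hK] at h2
      linarith
    have hclose' : ∀ x ∈ ({φ, θ, β1, β2, γ1, γ2} : Set ℝ), |mv x (s1 - w) - mv x (s1 - v0)| < δb := by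
      intro x hx
      have h1 := hlip x hx _ _ hw1 hc0
      rw [show s1 - w - (s1 - v0) = -(w - v0) by ring, abs_neg] at h1
      have h2 : |w - v0| < δb / K := hw.trans_le (min_le_right _ _)
      rw [lt_div_iff₀ hK] at h2
      linarith
    have hdiff : ∀ x ∈ ({φ, θ, β1, β2, γ1, γ2} : Set ℝ),
        |mv x (s1 - v) - mv x (s1 - w)| ≤ K * |w - v| := by
      intro x hx
      have h1 := hlip x hx _ _ hv1 hw1
      rwa [show s1 - v - (s1 - w) = w - v by ring] at h1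
    have mφ : φ ∈ ({φ, θ, β1, β2, γ1, γ2} : Set ℝ) := by simp
    have mθ : θ ∈ ({φ, θ, β1, β2, γ1, γ2} : Set ℝ) := by simp
    have mβ1 : β1 ∈ ({φ, θ, β1, β2, γ1, γ2} : Set ℝ) := by simp
    have mβ2 : β2 ∈ ({φ, θ, β1, β2, γ1, γ2} : Set ℝ) := by simp
    have mγ1 : γ1 ∈ ({φ, θ, β1, β2, γ1, γ2} : Set ℝ) := by simp
    have mγ2 : γ2 ∈ ({φ, θ, β1, β2, γ1, γ2} : Set ℝ) := by simp
    have := hbox _ _ _ _ _ _ _ _ _ _ _ _ C (hclose φ mφ) (hclose θ mθ) (hclose β1 mβ1)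
      (hclose β2 mβ2) (hclose γ1 mγ1) (hclose γ2 mγ2) (hclose' φ mφ) (hclose' θ mθ) (hclose' β1 mβ1)
      (hclose' β2 mβ2) (hclose' γ1 mγ1) (hclose' γ2 mγ2) hU
    apply UB.mono this
    have d0 := hdiff φ mφ
    have d1 := hdiff θ mθ
    have d2 := hdiff β1 mβ1
    have d3 := hdiff β2 mβ2
    have d4 := hdiff γ1 mγ1
    have d5 := hdiff γ2 mγ2
    have e : (6 * K * |w - v|) * (ε' / (6 * K)) = |w - v| * ε' := by field_simp
    rw [zero_add, ← e]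
    have : 0 ≤ ε' / (6 * K) := by positivity
    have := mul_le_mul_of_nonneg_right (show |mv φ (s1 - v) - mv φ (s1 - w)| +
      |mv θ (s1 - v) - mv θ (s1 - w)| + |mv β1 (s1 - v) - mv β1 (s1 - w)| +
      |mv β2 (s1 - v) - mv β2 (s1 - w)| + |mv γ1 (s1 - v) - mv γ1 (s1 - w)| +
      |mv γ2 (s1 - v) - mv γ2 (s1 - w)| ≤ 6 * K * |w - v| by linarith) this
    linarith

end Run7.h27
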