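import Pool.Agent.Run7.h27.Calc

/-!
# The two critical points and the derivative of the potential at them
-/

set_option autoImplicit false

namespace Run7.h27

open Real

/-- the length of an edge in terms of the cofactor `B` and the product `P` of the vertex
determinants -/
noncomputable def ell (B P : ℝ) : ℝ := Real.log ((B + sqrt (B ^ 2 - P)) / sqrt P)

lemma prod_M30 (φ β1 β2 γ1 γ2 : ℝ) :
    sin (2 * π - Tv φ β1 β2) * sin (Qv β1 β2 γ1 γ2 - Tv φ γ1 γ2) =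
      (cos φ + cos (β1 + β2)) / 2 := by
  have e1 : sin (2 * π - Tv φ β1 β2) = cos ((φ + (β1 + β2)) / 2) := by
    rw [← cos_pi_div_two_sub, ← cos_neg]; congr 1; unfold Tv; ring
  have e2 : sin (Qv β1 β2 γ1 γ2 - Tv φ γ1 γ2) = cos ((φ - (β1 + β2)) / 2) := by
    rw [← cos_pi_div_two_sub, ← cos_neg]; congr 1; unfold Tv Qv; ring
  rw [e1, e2]
  have := Real.cos_add_cos φ (β1 + β2)
  rw [this]; ring

lemma prod_M40 (φ β1 β2 γ1 γ2 : ℝ) :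
    sin (2 * π - Tv φ γ1 γ2) * sin (Qv β1 β2 γ1 γ2 - Tv φ β1 β2) =
      (cos φ + cos (γ1 + γ2)) / 2 := by
  have e1 : sin (2 * π - Tv φ γ1 γ2) = cos ((φ + (γ1 + γ2)) / 2) := by
    rw [← cos_pi_div_two_sub, ← cos_neg]; congr 1; unfold Tv; ring
  have e2 : sin (Qv β1 β2 γ1 γ2 - Tv φ β1 β2) = cos ((φ - (γ1 + γ2)) / 2) := by
    rw [← cos_pi_div_two_sub, ← cos_neg]; congr 1; unfold Tv Qv; ring
  rw [e1, e2]
  have := Real.cos_add_cos φ (γ1 + γ2)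
  rw [this]; ring

lemma prod_M5a (φ θ β1 β2 γ1 γ2 : ℝ) :
    sin (Qv φ θ γ1 β2 - Tv θ β1 γ1) * sin (Qv φ θ β1 γ2 - Tv θ β2 γ2) =
      (cos φ + cos (β1 - β2)) / 2 := by
  have e1 : sin (Qv φ θ γ1 β2 - Tv θ β1 γ1) = cos ((φ - (β1 - β2)) / 2) := by
    rw [← cos_pi_div_two_sub]; congr 1; unfold Tv Qv; ring
  have e2 : sin (Qv φ θ β1 γ2 - Tv θ β2 γ2) = cos ((φ + (β1 - β2)) / 2) := by
    rw [← cos_pi_div_two_sub]; congr 1; unfold Tv Qv; ring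
  rw [e1, e2]
  have := Real.cos_add_cos φ (β1 - β2)
  rw [this]; ring

lemma prod_M5b (φ θ β1 β2 γ1 γ2 : ℝ) :
    sin (Qv φ θ β1 γ2 - Tv θ β1 γ1) * sin (Qv φ θ γ1 β2 - Tv θ β2 γ2) =
      (cos φ + cos (γ1 - γ2)) / 2 := by
  have e1 : sin (Qv φ θ β1 γ2 - Tv θ β1 γ1) = cos ((φ - (γ1 - γ2)) / 2) := by
    rw [← cos_pi_div_two_sub]; congr 1; unfold Tv Qv; ring
  have e2 : sin (Qv φ θ γ1 β2 - Tv θ β2 γ2) = cos ((φ + (γ1 - γ2)) / 2) := by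
    rw [← cos_pi_div_two_sub]; congr 1; unfold Tv Qv; ring
  rw [e1, e2]
  have := Real.cos_add_cos φ (γ1 - γ2)
  rw [this]; ring

lemma sin_two_pi_sub_ne {t : ℝ} (h : Ang t) : sin (2 * π - t) ≠ 0 := by
  rw [sin_two_pi_sub]; exact neg_ne_zero.mpr h.ne

/-- the part of the derivative which comes from the prefactor -/
lemma pre_eq {φ θ β1 β2 γ1 γ2 : ℝ} (h : Reg φ θ β1 β2 γ1 γ2) :
    ph (2 * π - Tv φ β1 β2) + ph (Qv β1 β2 γ1 γ2 - Tv φ β1 β2) +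
    ph (2 * π - Tv φ γ1 γ2) + ph (Qv β1 β2 γ1 γ2 - Tv φ γ1 γ2) -
    ph (Qv φ θ γ1 β2 - Tv θ β1 γ1) - ph (Qv φ θ β1 γ2 - Tv θ β1 γ1) -
    ph (Qv φ θ γ1 β2 - Tv θ β2 γ2) - ph (Qv φ θ β1 γ2 - Tv θ β2 γ2) =
    Real.log (CC φ β1 β2 γ1 γ2) - Real.log (AA φ β1 β2 γ1 γ2) := by
  have hl := h.lin
  have a1 := ph_add_log (sin_two_pi_sub_ne hl.t3) hl.L4.ne
  have a2 := ph_add_log (sin_two_pi_sub_ne hl.t4) hl.L3.ne
  have a3 := ph_add_log hl.a5.ne hl.b6.ne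
  have a4 := ph_add_log hl.b5.ne hl.a6.ne
  rw [prod_M30] at a1
  rw [prod_M40] at a2
  rw [prod_M5a] at a3
  rw [prod_M5b] at a4
  obtain ⟨s1, s2⟩ := vert_signs h.aβ1 h.aβ2 h.d3
  obtain ⟨s3, s4⟩ := vert_signs h.aγ1 h.aγ2 h.d4
  have b1 : Real.log |4 * ((cos φ + cos (β1 + β2)) / 2)| + Real.log |4 * ((cos φ + cos (γ1 + γ2)) / 2)| =
      Real.log 4 + Real.log (CC φ β1 β2 γ1 γ2) := by
    unfold CC
    rw [← Real.log_mul (abs_ne_zero.mpr (by linarith)) (abs_ne_zero.mpr (by linarith)), ← abs_mul,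
      ← Real.log_mul (by norm_num) (mul_ne_zero s1.ne s3.ne), abs_of_pos]
    · congr 1; ring
    · have := mul_pos_of_neg_of_neg s1 s3
      nlinarith
  have b2 : Real.log |4 * ((cos φ + cos (β1 - β2)) / 2)| + Real.log |4 * ((cos φ + cos (γ1 - γ2)) / 2)| =
      Real.log 4 + Real.log (AA φ β1 β2 γ1 γ2) := by
    unfold AA
    rw [← Real.log_mul (abs_ne_zero.mpr (by linarith)) (abs_ne_zero.mpr (by linarith)), ← abs_mul,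
      ← Real.log_mul (by norm_num) (mul_ne_zero s2.ne' s4.ne'), abs_of_pos]
    · congr 1; ring
    · have := mul_pos s2 s4
      nlinarith
  linarith

/-- the good range -/
structure GR (φ θ β1 β2 γ1 γ2 x : ℝ) : Prop where
  pi : π < x
  L : x < Qv β1 β2 γ1 γ2
  a : x < Qv φ θ γ1 β2
  b : x < Qv φ θ β1 γ2

lemma GR.pos {φ θ β1 β2 γ1 γ2 x : ℝ} (h : Reg φ θ β1 β2 γ1 γ2) (g : GR φ θ β1 β2 γ1 γ2 x) :
    (0 < sin (x - Tv φ β1 β2) ∧ 0 < sin (x - Tv φ γ1 γ2) ∧ 0 < sin (x - Tv θ β1 γ1) ∧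
      0 < sin (x - Tv θ β2 γ2)) ∧
    (0 < sin (2 * π - x) ∧ 0 < sin (Qv β1 β2 γ1 γ2 - x) ∧ 0 < sin (Qv φ θ γ1 β2 - x) ∧
      0 < sin (Qv φ θ β1 γ2 - x)) := by
  have hl := h.lin
  obtain ⟨g1, g2, g3, g4⟩ := g
  have p := pi_pos
  refine ⟨⟨?_, ?_, ?_, ?_⟩, ⟨?_, ?_, ?_, ?_⟩⟩ <;> apply sin_pos_of_pos_of_lt_pi
  · linarith [hl.t3.2]
  · linarith [hl.L3.2]
  · linarith [hl.t4.2]
  · linarith [hl.L4.2]
  · linarith [hl.t5.2]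
  · linarith [hl.L5.2]
  · linarith [hl.t6.2]
  · linarith [hl.L6.2]
  · linarith [hl.L3.2, hl.t3.2]
  · linarith
  · linarith
  · linarith [hl.L3.2, hl.t3.2]
  · linarith
  · linarith [hl.a3.2, hl.t3.2]
  · linarith
  · linarith [hl.b3.2, hl.t3.2]

/-- the ratio of the edge `34` -/
noncomputable def Xr (φ θ β1 β2 γ1 γ2 x : ℝ) : ℝ :=
  sin (x - Tv φ β1 β2) * sin (x - Tv φ γ1 γ2) / (sin (Qv φ θ γ1 β2 - x) * sin (Qv φ θ β1 γ2 - x))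

lemma Xr_pos {φ θ β1 β2 γ1 γ2 x : ℝ} (h : Reg φ θ β1 β2 γ1 γ2) (g : GR φ θ β1 β2 γ1 γ2 x) :
    0 < Xr φ θ β1 β2 γ1 γ2 x := by
  obtain ⟨⟨u3, u4, u5, u6⟩, ⟨v0, vL, va, vb⟩⟩ := g.pos h
  unfold Xr
  positivity

lemma Xr_mono {φ θ β1 β2 γ1 γ2 x x' : ℝ} (h : Reg φ θ β1 β2 γ1 γ2) (g : GR φ θ β1 β2 γ1 γ2 x)
    (g' : GR φ θ β1 β2 γ1 γ2 x') (hx : x < x') :
    Xr φ θ β1 β2 γ1 γ2 x < Xr φ θ β1 β2 γ1 γ2 x' := by
  have hl := h.lin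
  obtain ⟨⟨u3, u4, u5, u6⟩, ⟨v0, vL, va, vb⟩⟩ := g.pos h
  obtain ⟨⟨u3', u4', u5', u6'⟩, ⟨v0', vL', va', vb'⟩⟩ := g'.pos h
  have r1 := ratio_mono (t := Tv φ β1 β2) (q := Qv φ θ γ1 β2) (x := x) (x' := x')
    (by linarith [hl.t3.2, g.pi]) hx g'.a (by linarith [hl.a3.2])
  have r2 := ratio_mono (t := Tv φ γ1 γ2) (q := Qv φ θ β1 γ2) (x := x) (x' := x')
    (by linarith [hl.t4.2, g.pi]) hx g'.b (by linarith [hl.b4.2])
  unfold Xr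
  rw [mul_div_mul_comm, mul_div_mul_comm]
  exact mul_lt_mul'' r1 r2 (by positivity) (by positivity)

lemma Xr_quad {φ θ β1 β2 γ1 γ2 x : ℝ} (h : Reg φ θ β1 β2 γ1 γ2) (hc : Crit φ θ β1 β2 γ1 γ2 x) :
    AA φ β1 β2 γ1 γ2 * Xr φ θ β1 β2 γ1 γ2 x ^ 2 -
      2 * Cof φ θ β1 β2 γ1 γ2 * Xr φ θ β1 β2 γ1 γ2 x + CC φ β1 β2 γ1 γ2 = 0 := by
  obtain ⟨⟨u3, u4, u5, u6⟩, ⟨v0, vL, va, vb⟩⟩ := crit_ne h hc
  obtain ⟨X, e1, e2⟩ := crit_quad h hc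
  have : Xr φ θ β1 β2 γ1 γ2 x = X := by
    unfold Xr
    rw [e1]
    field_simp
  rw [this]; exact e2

/-- the derivative in terms of the ratio -/
lemma dF_eq {φ θ β1 β2 γ1 γ2 x : ℝ} (h : Reg φ θ β1 β2 γ1 γ2) (g : GR φ θ β1 β2 γ1 γ2 x) :
    dF φ θ β1 β2 γ1 γ2 x = -1 / 2 * (Real.log (Xr φ θ β1 β2 γ1 γ2 x) +
      1 / 2 * (Real.log (AA φ β1 β2 γ1 γ2) - Real.log (CC φ β1 β2 γ1 γ2))) := by
  obtain ⟨⟨u3, u4, u5, u6⟩, ⟨v0, vL, va, vb⟩⟩ := g.pos h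
  have e1 := ph_add_log u3.ne' u4.ne'
  have e2 := ph_add_log va.ne' vb.ne'
  have hp := pre_eq h
  have e3 : Real.log |4 * (sin (x - Tv φ β1 β2) * sin (x - Tv φ γ1 γ2))| -
      Real.log |4 * (sin (Qv φ θ γ1 β2 - x) * sin (Qv φ θ β1 γ2 - x))| =
      Real.log (Xr φ θ β1 β2 γ1 γ2 x) := by
    have l4 : ∀ P : ℝ, 0 < P → Real.log |4 * P| = Real.log 4 + Real.log P := by
      intro P hP
      rw [abs_of_pos (by positivity), Real.log_mul (by norm_num) hP.ne']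
    unfold Xr
    rw [l4 _ (mul_pos u3 u4), l4 _ (mul_pos va vb),
      Real.log_div (mul_pos u3 u4).ne' (mul_pos va vb).ne']
    ring
  unfold dF
  rw [← e3]
  linarith

lemma dF_pair {φ θ β1 β2 γ1 γ2 xm xp : ℝ} (h : Reg φ θ β1 β2 γ1 γ2)
    (hm : Crit φ θ β1 β2 γ1 γ2 xm) (hp : Crit φ θ β1 β2 γ1 γ2 xp) (gm : GR φ θ β1 β2 γ1 γ2 xm)
    (gp : GR φ θ β1 β2 γ1 γ2 xp) (hlt : xm < xp) :
    dF φ θ β1 β2 γ1 γ2 xp = -1 / 2 * ell (Cof φ θ β1 β2 γ1 γ2) (Dv φ β1 β2 * Dv φ γ1 γ2) ∧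
    dF φ θ β1 β2 γ1 γ2 xm = 1 / 2 * ell (Cof φ θ β1 β2 γ1 γ2) (Dv φ β1 β2 * Dv φ γ1 γ2) := by
  have qp := Xr_quad h hp
  have qm := Xr_quad h hm
  have pp := Xr_pos h gp
  have pm := Xr_pos h gm
  have hmono := Xr_mono h gm gp hlt
  have hA := AA_pos h.aβ1 h.aβ2 h.aγ1 h.aγ2 h.d3 h.d4
  have hC := CC_pos h.aβ1 h.aβ2 h.aγ1 h.aγ2 h.d3 h.d4
  have hAC := AA_CC φ β1 β2 γ1 γ2
  rw [dF_eq h gp, dF_eq h gm]
  set X := Xr φ θ β1 β2 γ1 γ2 xp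
  set Y := Xr φ θ β1 β2 γ1 γ2 xm
  set A := AA φ β1 β2 γ1 γ2
  set C := CC φ β1 β2 γ1 γ2
  set B := Cof φ θ β1 β2 γ1 γ2
  have s1 : A * (X + Y) = 2 * B := by
    have : (X - Y) * (A * (X + Y) - 2 * B) = 0 := by linear_combination qp - qm
    rcases mul_eq_zero.mp this with h | h
    · linarith
    · linarith
  have s2 : A * (X * Y) = C := by
    have : A * X ^ 2 - A * (X + Y) * X + C = 0 := by rw [s1]; exact qp
    linarith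
  have s3 : sqrt (B ^ 2 - A * C) = A * (X - Y) / 2 := by
    have : B ^ 2 - A * C = (A * (X - Y) / 2) ^ 2 := by
      rw [← s2, show B = A * (X + Y) / 2 by linarith]; ring
    rw [this, sqrt_sq]
    have := mul_pos hA (sub_pos.mpr hmono)
    linarith
  have s4 : B + sqrt (B ^ 2 - A * C) = A * X := by rw [s3]; linarith
  rw [← hAC]
  unfold ell
  rw [s4]
  have l1 : Real.log (A * X / sqrt (A * C)) = Real.log X + 1 / 2 * (Real.log A - Real.log C) := by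
    rw [Real.log_div (by positivity) (by positivity), Real.log_sqrt (by positivity),
      Real.log_mul hA.ne' pp.ne', Real.log_mul hA.ne' hC.ne']
    ring
  have l2 : Real.log C = Real.log A + Real.log X + Real.log Y := by
    rw [← s2, Real.log_mul hA.ne' (by positivity), Real.log_mul pp.ne' pm.ne']; ring
  rw [l1, l2]
  constructor
  · ring
  · ring

end Run7.h27
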