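import Pool.Agent.Run7.h27.Riem2
import Pool.Agent.Run7.h27.Defs

/-!
# Quantum factorials: real form, modulus and reflection
-/

set_option autoImplicit false

namespace Run7.h27

open Real Finset

/-- `∏_{k=1}^n 2 sin (2 π k / r)` -/
noncomputable def sg (r n : ℕ) : ℝ := ∏ k ∈ range n, (2 * sin (2 * π / r * (k + 1)))

/-- `2 sin (2π/r)` -/
noncomputable def s1 (r : ℕ) : ℝ := 2 * sin (2 * π / r)

lemma s1_pos {r : ℕ} (hr : 3 ≤ r) : 0 < s1 r := by
  unfold s1
  have hr' : (3:ℝ) ≤ r := by exact_mod_cast hr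
  have : 0 < sin (2 * π / r) := by
    apply sin_pos_of_pos_of_lt_pi (by positivity)
    rw [div_lt_iff₀ (by linarith)]
    nlinarith [pi_pos]
  linarith

lemma rootq_pow_sub (r n : ℕ) :
    rootq r ^ n - (rootq r)⁻¹ ^ n = ((2 * sin (2 * π / r * n) : ℝ) : ℂ) * Complex.I := by
  unfold rootq
  rw [← Complex.exp_neg, ← Complex.exp_nat_mul, ← Complex.exp_nat_mul]
  have h1 : (n:ℂ) * (2 * π * Complex.I / r) = ((2 * π / r * n : ℝ) : ℂ) * Complex.I := by
    push_cast; ring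
  have h2 : (n:ℂ) * -(2 * π * Complex.I / r) = ((-(2 * π / r * n) : ℝ) : ℂ) * Complex.I := by
    push_cast; ring
  rw [h1, h2, Complex.exp_mul_I, Complex.exp_mul_I, ← Complex.ofReal_cos, ← Complex.ofReal_sin,
    ← Complex.ofReal_cos, ← Complex.ofReal_sin, Real.cos_neg, Real.sin_neg]
  push_cast; ring

lemma qnum_eq (r n : ℕ) : qnum r n = ((2 * sin (2 * π / r * n) / s1 r : ℝ) : ℂ) := by
  unfold qnum
  have h1 := rootq_pow_sub r 1
  rw [pow_one, pow_one, Nat.cast_one, mul_one] at h1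
  rw [rootq_pow_sub, h1, mul_div_mul_right _ _ Complex.I_ne_zero]
  unfold s1
  push_cast; ring

lemma qfact_eq (r n : ℕ) : qfact r n = ((sg r n / s1 r ^ n : ℝ) : ℂ) := by
  unfold qfact sg
  induction n with
  | zero => simp
  | succ n ih =>
    rw [prod_range_succ, ih, prod_range_succ, qnum_eq]
    push_cast
    rw [pow_succ, div_mul_div_comm]

lemma sin_ne' {r k : ℕ} (hr : Odd r) (hr3 : 3 ≤ r) (hk : k + 1 < r) :
    sin (2 * π / r * (k + 1)) ≠ 0 := by
  have := sin_ne (k := k + 1) hr hr3 (by omega) hk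
  exact_mod_cast this

lemma sg_ne {r n : ℕ} (hr : Odd r) (hr3 : 3 ≤ r) (hn : n < r) : sg r n ≠ 0 := by
  unfold sg
  rw [prod_ne_zero_iff]
  intro k hk
  rw [mem_range] at hk
  exact mul_ne_zero two_ne_zero (sin_ne' hr hr3 (by omega))

lemma abs_sg {r n : ℕ} (hr : Odd r) (hr3 : 3 ≤ r) (hn : n < r) : |sg r n| = exp (LL r n) := by
  unfold sg LL
  rw [abs_prod, exp_sum]
  apply prod_congr rfl
  intro k hk
  rw [mem_range] at hk
  unfold ph
  rw [Real.exp_log]
  exact abs_pos.mpr (mul_ne_zero two_ne_zero (sin_ne' hr hr3 (by omega)))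

lemma sg_eq_zero {r n : ℕ} (hr3 : 3 ≤ r) (hn : r ≤ n) : sg r n = 0 := by
  unfold sg
  apply prod_eq_zero (i := r - 1)
  · rw [mem_range]; omega
  · have hr' : (3:ℝ) ≤ r := by exact_mod_cast hr3
    have : 2 * π / r * (((r - 1 : ℕ) : ℝ) + 1) = 2 * π := by
      rw [Nat.cast_sub (by omega)]
      push_cast
      field_simp; ring
    rw [this, sin_two_pi, mul_zero]

lemma sg_pos {r n : ℕ} (hn : 2 * n < r) : 0 < sg r n := by
  unfold sg
  apply prod_pos
  intro k hk
  rw [mem_range] at hk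
  have hr' : (0:ℝ) < r := by exact_mod_cast (by omega : 0 < r)
  have h1 : 0 < sin (2 * π / r * (k + 1)) := by
    apply sin_pos_of_pos_of_lt_pi (by positivity)
    have h2 : 2 * ((k:ℝ) + 1) < r := by exact_mod_cast (by omega : 2 * (k + 1) < r)
    rw [div_mul_eq_mul_div, div_lt_iff₀ hr']
    nlinarith [pi_pos]
  linarith

lemma sg_add {r n m : ℕ} (hr3 : 3 ≤ r) (h : n + m + 1 = r) :
    sg r (r - 1) = sg r n * ((-1) ^ m * sg r m) := by
  have hr' : (3:ℝ) ≤ r := by exact_mod_cast hr3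
  unfold sg
  rw [show r - 1 = n + m by omega, prod_range_add]
  congr 1
  rw [← prod_range_reflect]
  have h1 : ((-1:ℝ)) ^ m = ∏ k ∈ range m, (-1:ℝ) := by simp
  rw [h1, ← prod_mul_distrib]
  apply prod_congr rfl
  intro k hk
  rw [mem_range] at hk
  have e : 2 * π / r * (((n + (m - 1 - k) : ℕ) : ℝ) + 1) = 2 * π - 2 * π / r * (k + 1) := by
    have : ((n + (m - 1 - k) : ℕ) : ℝ) + 1 = r - (k + 1) := by
      have h2 : n + (m - 1 - k) + 1 + (k + 1) = r := by omega
      have h3 : ((n + (m - 1 - k) + 1 + (k + 1) : ℕ) : ℝ) = r := by exact_mod_cast h2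
      push_cast at h3 ⊢
      linarith
    rw [this]; field_simp
  rw [e, sin_two_pi_sub]
  ring

end Run7.h27
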