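import Pool.Agent.Run7.h27.Sym

/-!
# Contiguity relations for the symmetric sum
-/

set_option autoImplicit false

namespace Run7.h27

open Real Finset

/-- `2 sin (2 π n / r)` -/
noncomputable def br (r : ℕ) (n : ℤ) : ℝ := 2 * sin (2 * π / r * n)

lemma isf_mul {r : ℕ} (hr : Odd r) (hr3 : 3 ≤ r) {n : ℤ} (hn : n ≠ r) :
    isf r n * br r n = isf r (n - 1) := by
  rcases lt_trichotomy n 0 with h | h | h
  · unfold isf
    rw [if_neg (by omega), if_neg (by omega), zero_mul]
  · subst h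
    unfold isf br
    rw [if_neg (show ¬ ((0:ℤ) ≤ 0 - 1) by omega)]
    simp
  · obtain ⟨m, rfl⟩ : ∃ m : ℕ, n = m + 1 := ⟨(n - 1).toNat, by omega⟩
    have e1 : ((m:ℤ) + 1).toNat = m + 1 := by omega
    have e2 : ((m:ℤ) + 1 - 1).toNat = m := by omega
    unfold isf
    rw [if_pos (by omega), if_pos (by omega), e1, e2]
    have e3 : sg r (m + 1) = sg r m * br r ((m:ℤ) + 1) := by
      unfold sg br
      rw [prod_range_succ]
      push_cast
      rfl
    rcases lt_or_ge (m + 1) r with h1 | h1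
    · have h2 : br r ((m:ℤ) + 1) ≠ 0 := by
        unfold br
        push_cast
        exact mul_ne_zero two_ne_zero (sin_ne' hr hr3 h1)
      rw [e3, mul_inv, mul_assoc, inv_mul_cancel₀ h2, mul_one]
    · have h2 : r ≤ m := by omega
      rw [e3, sg_eq_zero hr3 h2]
      simp

/-- the basic product identity -/
lemma sin_contig_prod (a b c : ℝ) : sin (a + c) * sin (b + c) = sin a * sin b + sin c * sin (a + b + c) := by
  have h1 := sin_sq_add_cos_sq c
  rw [show a + b + c = a + (b + c) by ring, sin_add a (b + c), sin_add b c, cos_add b c, sin_add a c]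
  linear_combination (sin a * sin b) * h1

/-- the trigonometric identity behind the contiguity relation -/
lemma trig_contig {v0 vL va vb u3 u4 u5 u6 : ℝ} (h : v0 + vL + va + vb + u3 + u4 + u5 + u6 = 2 * π) :
    sin v0 * sin vL * sin va * sin vb - sin u3 * sin u4 * sin u5 * sin u6 =
      -(sin (va + u5) * sin (va + u6)) * (sin u3 * sin u4) +
      sin (v0 + u3) * sin (vL + u3) * (sin va * sin vb) -
      sin (vb + u4) * sin (v0 + vL + u3 + u4) * (sin u3 * sin va) := by
  have e1 := sin_contig_prod u5 u6 va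
  have e2 := sin_contig_prod v0 vL u3
  have e3 := sin_contig_prod vb (v0 + vL + u3) u4
  have e4 : sin (u5 + u6 + va) = -sin (vb + (v0 + vL + u3) + u4) := by
    rw [← sin_two_pi_sub]
    congr 1; linarith
  rw [show va + u5 = u5 + va by ring, show va + u6 = u6 + va by ring, e1, e2, e4,
    show v0 + vL + u3 + u4 = (v0 + vL + u3) + u4 by ring]
  linear_combination (sin u3 * sin va) * e3

/-- the sum with explicit arguments -/
noncomputable def S8 (r : ℕ) (T3 T4 T5 T6 Q0 QL Qa Qb : ℤ) : ℝ :=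
  Ssym r ![T3, T4, T5, T6] ![Q0, QL, Qa, Qb]

/-- its terms -/
noncomputable def t8 (r : ℕ) (T3 T4 T5 T6 Q0 QL Qa Qb z : ℤ) : ℝ :=
  (isf r (z - T3) * isf r (z - T4) * isf r (z - T5) * isf r (z - T6)) *
    (isf r (Q0 - z) * isf r (QL - z) * isf r (Qa - z) * isf r (Qb - z))

lemma S8_eq (r : ℕ) (T3 T4 T5 T6 Q0 QL Qa Qb : ℤ) :
    S8 r T3 T4 T5 T6 Q0 QL Qa Qb = ∑ᶠ z : ℤ, t8 r T3 T4 T5 T6 Q0 QL Qa Qb z := by
  unfold S8 Ssym
  apply finsum_congr
  intro z
  rw [Fin.prod_univ_four]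
  unfold t8
  simp only [Matrix.cons_val]
  ring

lemma isf_neg {r : ℕ} {n : ℤ} (h : n < 0) : isf r n = 0 := by
  unfold isf; rw [if_neg (by omega)]

lemma t8_finite (r : ℕ) (T3 T4 T5 T6 Q0 QL Qa Qb : ℤ) :
    (Function.support (fun z => t8 r T3 T4 T5 T6 Q0 QL Qa Qb z)).Finite := by
  apply (Set.finite_Icc T3 Q0).subset
  intro z hz
  rw [Function.mem_support] at hz
  by_contra h
  rw [Set.mem_Icc, not_and_or] at h
  apply hz
  unfold t8
  rcases h with h | h
  · rw [isf_neg (show z - T3 < 0 by omega)]; ring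
  · rw [isf_neg (show Q0 - z < 0 by omega)]; ring

lemma br_add (r : ℕ) (m n : ℤ) : br r (m + n) = 2 * sin (2 * π / r * m + 2 * π / r * n) := by
  unfold br; push_cast; rw [mul_add]

/-- first contiguity relation -/
theorem contig_A {r : ℕ} (hr : Odd r) (hr3 : 3 ≤ r) {T3 T4 T5 T6 Q0 QL Qa Qb : ℤ}
    (h3 : 0 ≤ T3) (h4 : 0 ≤ T4) (h5 : 0 ≤ T5) (h6 : 0 ≤ T6) (k0 : Q0 < r) (kL : QL < r) (ka : Qa < r)
    (kb : Qb < r) (hs : Q0 + QL + Qa + Qb - (T3 + T4 + T5 + T6) = r) :
    br r (Qa - T5) * br r (Qa - T6) * S8 r (T3 + 1) (T4 + 1) T5 T6 Q0 QL Qa Qb =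
      br r (Q0 - T3) * br r (QL - T3) * S8 r T3 T4 T5 T6 Q0 QL (Qa - 1) (Qb - 1) -
      br r (Qb - T4) * br r (Q0 + QL - T3 - T4) * S8 r (T3 + 1) T4 T5 T6 Q0 QL (Qa - 1) Qb := by
  have hr0 : (0:ℝ) < r := by exact_mod_cast (by omega : 0 < r)
  set F1 : ℤ → ℝ := fun z => (isf r (z - T3) * isf r (z - T4) * isf r (z - T5) * isf r (z - T6)) *
    (isf r (Q0 - z - 1) * isf r (QL - z - 1) * isf r (Qa - z - 1) * isf r (Qb - z - 1)) with hF1
  set F2 : ℤ → ℝ := fun z => (isf r (z - T3 - 1) * isf r (z - T4 - 1) * isf r (z - T5 - 1) * isf r (z - T6 - 1)) *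
    (isf r (Q0 - z) * isf r (QL - z) * isf r (Qa - z) * isf r (Qb - z)) with hF2
  have hshift : ∑ᶠ z, F1 z = ∑ᶠ z, F2 z := by
    rw [← finsum_comp_equiv (Equiv.addRight (1:ℤ)) (f := F2)]
    apply finsum_congr
    intro z
    simp only [hF1, hF2, Equiv.coe_addRight]
    congr 1
    · congr 1
      · congr 1
        · congr 1 <;> (congr 1; ring)
        · congr 1; ring
      · congr 1; ring
    · congr 1
      · congr 1
        · congr 1 <;> (congr 1; ring)
        · congr 1; ring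
      · congr 1; ring
  have hf1 : (Function.support F1).Finite := by
    apply (Set.finite_Icc T3 Q0).subset
    intro z hz
    rw [Function.mem_support] at hz
    by_contra h
    rw [Set.mem_Icc, not_and_or] at h
    apply hz
    simp only [hF1]
    rcases h with h | h
    · rw [isf_neg (show z - T3 < 0 by omega)]; ring
    · rw [isf_neg (show Q0 - z - 1 < 0 by omega)]; ring
  have hf2 : (Function.support F2).Finite := by
    apply (Set.finite_Icc T3 Q0).subset
    intro z hz
    rw [Function.mem_support] at hz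
    by_contra h
    rw [Set.mem_Icc, not_and_or] at h
    apply hz
    simp only [hF2]
    rcases h with h | h
    · rw [isf_neg (show z - T3 - 1 < 0 by omega)]; ring
    · rw [isf_neg (show Q0 - z < 0 by omega)]; ring
  set A := br r (Qa - T5) * br r (Qa - T6) with hA
  set B := br r (Q0 - T3) * br r (QL - T3) with hB
  set C := br r (Qb - T4) * br r (Q0 + QL - T3 - T4) with hC
  have key : ∀ z, F1 z - F2 z = (B * t8 r T3 T4 T5 T6 Q0 QL (Qa - 1) (Qb - 1) z -
      C * t8 r (T3 + 1) T4 T5 T6 Q0 QL (Qa - 1) Qb z) -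
      A * t8 r (T3 + 1) (T4 + 1) T5 T6 Q0 QL Qa Qb z := by
    intro z
    by_cases hz : z < 0
    · simp only [hF1, hF2, t8]
      rw [isf_neg (show z - T5 < 0 by omega), isf_neg (show z - T5 - 1 < 0 by omega)]
      ring
    by_cases hz' : Q0 < z
    · simp only [hF1, hF2, t8]
      rw [isf_neg (show Q0 - z - 1 < 0 by omega), isf_neg (show Q0 - z < 0 by omega)]
      ring
    push Not at hz hz'
    have a3 := isf_mul hr hr3 (n := z - T3) (by omega)
    have a4 := isf_mul hr hr3 (n := z - T4) (by omega)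
    have a5 := isf_mul hr hr3 (n := z - T5) (by omega)
    have a6 := isf_mul hr hr3 (n := z - T6) (by omega)
    have b0 := isf_mul hr hr3 (n := Q0 - z) (by omega)
    have bL := isf_mul hr hr3 (n := QL - z) (by omega)
    have ba := isf_mul hr hr3 (n := Qa - z) (by omega)
    have bb := isf_mul hr hr3 (n := Qb - z) (by omega)
    simp only [hF1, hF2, t8]
    rw [show z - (T3 + 1) = z - T3 - 1 by ring, show z - (T4 + 1) = z - T4 - 1 by ring,
      show Qa - 1 - z = Qa - z - 1 by ring, show Qb - 1 - z = Qb - z - 1 by ring,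
      ← a3, ← a4, ← a5, ← a6, ← b0, ← bL, ← ba, ← bb]
    have tr := trig_contig (v0 := 2 * π / r * (Q0 - z)) (vL := 2 * π / r * (QL - z))
      (va := 2 * π / r * (Qa - z)) (vb := 2 * π / r * (Qb - z)) (u3 := 2 * π / r * (z - T3))
      (u4 := 2 * π / r * (z - T4)) (u5 := 2 * π / r * (z - T5)) (u6 := 2 * π / r * (z - T6))
      (by
        have h1 : ((Q0 + QL + Qa + Qb - (T3 + T4 + T5 + T6) : ℤ) : ℝ) = r := by rw [hs]; simp
        push_cast at h1
        have h2 : 2 * π / r * (Q0 - z) + 2 * π / r * (QL - z) + 2 * π / r * (Qa - z) +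
          2 * π / r * (Qb - z) + 2 * π / r * (z - T3) + 2 * π / r * (z - T4) + 2 * π / r * (z - T5) +
          2 * π / r * (z - T6) = 2 * π / r * (Q0 + QL + Qa + Qb - (T3 + T4 + T5 + T6)) := by ring
        rw [h2, h1]
        field_simp)
    have e1 : A = 4 * (sin (2 * π / r * (Qa - z) + 2 * π / r * (z - T5)) *
        sin (2 * π / r * (Qa - z) + 2 * π / r * (z - T6))) := by
      rw [hA, show Qa - T5 = (Qa - z) + (z - T5) by ring, show Qa - T6 = (Qa - z) + (z - T6) by ring,
        br_add, br_add]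
      push_cast; ring
    have e2 : B = 4 * (sin (2 * π / r * (Q0 - z) + 2 * π / r * (z - T3)) *
        sin (2 * π / r * (QL - z) + 2 * π / r * (z - T3))) := by
      rw [hB, show Q0 - T3 = (Q0 - z) + (z - T3) by ring, show QL - T3 = (QL - z) + (z - T3) by ring,
        br_add, br_add]
      push_cast; ring
    have e3 : C = 4 * (sin (2 * π / r * (Qb - z) + 2 * π / r * (z - T4)) *
        sin (2 * π / r * (Q0 - z) + 2 * π / r * (QL - z) + 2 * π / r * (z - T3) +
          2 * π / r * (z - T4))) := by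
      rw [hC, show Qb - T4 = (Qb - z) + (z - T4) by ring, br_add]
      have : br r (Q0 + QL - T3 - T4) = 2 * sin (2 * π / r * (Q0 - z) + 2 * π / r * (QL - z) +
          2 * π / r * (z - T3) + 2 * π / r * (z - T4)) := by
        unfold br
        push_cast
        congr 2
        ring
      rw [this]
      push_cast; ring
    rw [e1, e2, e3]
    have f : ∀ x y : ℤ, br r (x - y) = 2 * sin (2 * π / r * ((x:ℝ) - y)) := by
      intro x y; unfold br; push_cast; rfl
    simp only [f]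
    linear_combination (16 * (isf r (z - T3) * isf r (z - T4) * isf r (z - T5) * isf r (z - T6)) *
      (isf r (Q0 - z) * isf r (QL - z) * isf r (Qa - z) * isf r (Qb - z))) * tr
  have hsum : ∑ᶠ z, (F1 z - F2 z) = 0 := by
    rw [finsum_sub_distrib hf1 hf2, hshift, sub_self]
  have fin1 := t8_finite r T3 T4 T5 T6 Q0 QL (Qa - 1) (Qb - 1)
  have fin2 := t8_finite r (T3 + 1) T4 T5 T6 Q0 QL (Qa - 1) Qb
  have fin3 := t8_finite r (T3 + 1) (T4 + 1) T5 T6 Q0 QL Qa Qb
  have mulfin : ∀ (c : ℝ) (f : ℤ → ℝ), (Function.support f).Finite →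
      (Function.support (fun z => c * f z)).Finite := by
    intro c f hf
    apply hf.subset
    intro z hz
    rw [Function.mem_support] at hz ⊢
    exact right_ne_zero_of_mul hz
  rw [finsum_congr key, finsum_sub_distrib _ (mulfin _ _ fin3),
    finsum_sub_distrib (mulfin _ _ fin1) (mulfin _ _ fin2), ← mul_finsum, ← mul_finsum,
    ← mul_finsum, ← S8_eq, ← S8_eq, ← S8_eq] at hsum
  · linarith
  · apply ((mulfin B _ fin1).union (mulfin C _ fin2)).subset
    intro z hz
    by_contra h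
    rw [Set.mem_union, not_or, Function.notMem_support, Function.notMem_support] at h
    apply hz
    simp only
    rw [h.1, h.2, sub_zero]

lemma S8_swap (r : ℕ) (T3 T4 T5 T6 Q0 QL Qa Qb : ℤ) :
    S8 r T4 T3 T5 T6 Q0 QL Qb Qa = S8 r T3 T4 T5 T6 Q0 QL Qa Qb := by
  rw [S8_eq, S8_eq]
  apply finsum_congr
  intro z
  unfold t8; ring

/-- second contiguity relation -/
theorem contig_B {r : ℕ} (hr : Odd r) (hr3 : 3 ≤ r) {T3 T4 T5 T6 Q0 QL Qa Qb : ℤ}
    (h3 : 0 ≤ T3) (h4 : 0 ≤ T4) (h5 : 0 ≤ T5) (h6 : 0 ≤ T6) (k0 : Q0 < r) (kL : QL < r) (ka : Qa < r)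
    (kb : Qb < r) (hs : Q0 + QL + Qa + Qb - (T3 + T4 + T5 + T6) = r) :
    br r (Qb - T5) * br r (Qb - T6) * S8 r (T3 + 1) (T4 + 1) T5 T6 Q0 QL Qa Qb =
      br r (Q0 - T4) * br r (QL - T4) * S8 r T3 T4 T5 T6 Q0 QL (Qa - 1) (Qb - 1) -
      br r (Qa - T3) * br r (Q0 + QL - T3 - T4) * S8 r T3 (T4 + 1) T5 T6 Q0 QL Qa (Qb - 1) := by
  have := contig_A hr hr3 h4 h3 h5 h6 k0 kL kb ka (by omega)
  rw [S8_swap r (T3 + 1) (T4 + 1), S8_swap r T3 T4, S8_swap r T3 (T4 + 1)] at this
  rw [this]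
  congr 3
  congr 1
  ring

end Run7.h27
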