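import Pool.Agent.Run7.h27.Rec1

/-!
# The three-term recursion for the normalised sum
-/

set_option autoImplicit false

namespace Run7.h27

open Real Finset

/-- the normalised signed sum -/
noncomputable def N4 (r : ℕ) (T Q : Fin 4 → ℤ) : ℝ :=
  exp (1 / 2 * ∑ i, ∑ j, LZ r (Q j - T i)) * Ssym r T Q

/-- shift along the first edge, lower parameters -/
def shT (T : Fin 4 → ℤ) (k : ℤ) : Fin 4 → ℤ := ![T 0 + k, T 1 + k, T 2, T 3]

/-- shift along the first edge, upper parameters -/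
def shQ (Q : Fin 4 → ℤ) (k : ℤ) : Fin 4 → ℤ := ![Q 0, Q 1, Q 2 + k, Q 3 + k]

lemma LZ_succ {r : ℕ} {n : ℤ} (h : 1 ≤ n) : LZ r n = LZ r (n - 1) + Real.log |br r n| := by
  obtain ⟨m, rfl⟩ : ∃ m : ℕ, n = m + 1 := ⟨(n - 1).toNat, by omega⟩
  unfold LZ
  rw [show ((m:ℤ) + 1).toNat = m + 1 by omega, show ((m:ℤ) + 1 - 1).toNat = m by omega]
  unfold LL
  rw [sum_range_succ]
  unfold ph br
  push_cast
  rfl

/-- `2 sin` -/
noncomputable def ss (x : ℝ) : ℝ := 2 * sin x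

lemma br_ss (r : ℕ) (n : ℤ) : br r n = ss (2 * π / r * n) := rfl

/-- ratio of consecutive normalising factors -/
noncomputable def Rf (t q : Fin 4 → ℝ) (h : ℝ) : ℝ :=
  exp (1 / 2 * (Real.log |ss (q 2 - t 2 + h)| + Real.log |ss (q 2 - t 3 + h)| +
    Real.log |ss (q 3 - t 2 + h)| + Real.log |ss (q 3 - t 3 + h)| - Real.log |ss (q 0 - t 0)| -
    Real.log |ss (q 0 - t 1)| - Real.log |ss (q 1 - t 0)| - Real.log |ss (q 1 - t 1)|))

/-- ratio of the previous normalising factors -/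
noncomputable def Rg (t q : Fin 4 → ℝ) (h : ℝ) : ℝ :=
  exp (1 / 2 * (Real.log |ss (q 2 - t 2)| + Real.log |ss (q 2 - t 3)| +
    Real.log |ss (q 3 - t 2)| + Real.log |ss (q 3 - t 3)| - Real.log |ss (q 0 - t 0 + h)| -
    Real.log |ss (q 0 - t 1 + h)| - Real.log |ss (q 1 - t 0 + h)| - Real.log |ss (q 1 - t 1 + h)|))

/-- coefficient `a` -/
noncomputable def fa (t q : Fin 4 → ℝ) (h : ℝ) : ℝ := ss (q 2 - t 2 + h) * ss (q 2 - t 3 + h)
/-- coefficient `a'` -/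
noncomputable def fa' (t q : Fin 4 → ℝ) (h : ℝ) : ℝ := ss (q 3 - t 2 + h) * ss (q 3 - t 3 + h)
/-- coefficient `b` -/
noncomputable def fb (t q : Fin 4 → ℝ) : ℝ := ss (q 0 - t 0) * ss (q 1 - t 0)
/-- coefficient `b'` -/
noncomputable def fb' (t q : Fin 4 → ℝ) (h : ℝ) : ℝ := ss (q 0 - t 1 + h) * ss (q 1 - t 1 + h)
/-- coefficient `c` -/
noncomputable def fc (t q : Fin 4 → ℝ) (h : ℝ) : ℝ := ss (q 3 - t 1 + h) * ss (q 0 + q 1 - t 0 - t 1)
/-- coefficient `c'` -/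
noncomputable def fc' (t q : Fin 4 → ℝ) (h : ℝ) : ℝ := ss (q 2 - t 0) * ss (q 0 + q 1 - t 0 - t 1 + h)
/-- coefficient `a₋` -/
noncomputable def fam (t q : Fin 4 → ℝ) : ℝ := ss (q 2 - t 2) * ss (q 2 - t 3)
/-- coefficient `b₋` -/
noncomputable def fbm (t q : Fin 4 → ℝ) (h : ℝ) : ℝ := ss (q 0 - t 0 + h) * ss (q 1 - t 0 + h)
/-- coefficient `c₋` -/
noncomputable def fcm (t q : Fin 4 → ℝ) (h : ℝ) : ℝ :=
  ss (q 3 - t 1 + h) * ss (q 0 + q 1 - t 0 - t 1 + 2 * h)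

/-- leading coefficient of the recursion -/
noncomputable def Pc (t q : Fin 4 → ℝ) (h : ℝ) : ℝ :=
  Rf t q h * (fc t q h / (fa t q h * fa' t q h)) *
    (fa' t q h * fb t q / fc t q h + fb' t q h * fam t q / fcm t q h + fc' t q h)

/-- second coefficient of the recursion -/
noncomputable def Pc' (t q : Fin 4 → ℝ) (h : ℝ) : ℝ :=
  Rf t q h * Rg t q h * (fc t q h / (fa t q h * fa' t q h)) * (fb' t q h * fbm t q h / fcm t q h)

/-- angle coordinates of lattice points -/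
noncomputable def an (r : ℕ) (T : Fin 4 → ℤ) : Fin 4 → ℝ := fun i => 2 * π / r * T i

/-- numerical conditions for the recursion -/
structure RecOK (r : ℕ) (T Q : Fin 4 → ℤ) : Prop where
  odd : Odd r
  r3 : 3 ≤ r
  T1 : ∀ i, 1 ≤ T i
  Qr : ∀ j, Q j + 1 < r
  TQ : ∀ i j, 1 ≤ Q j - T i
  sum : ∑ j, Q j - ∑ i, T i = (r:ℤ) - 2
  ha : fa (an r T) (an r Q) (2 * π / r) ≠ 0
  ha' : fa' (an r T) (an r Q) (2 * π / r) ≠ 0
  hc : fc (an r T) (an r Q) (2 * π / r) ≠ 0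
  hcm : fcm (an r T) (an r Q) (2 * π / r) ≠ 0

lemma Ssym_S8 (r : ℕ) (T Q : Fin 4 → ℤ) :
    Ssym r T Q = S8 r (T 0) (T 1) (T 2) (T 3) (Q 0) (Q 1) (Q 2) (Q 3) := by
  unfold S8
  congr 1
  · funext i; fin_cases i <;> rfl
  · funext i; fin_cases i <;> rfl

lemma Ssym_sh (r : ℕ) (T Q : Fin 4 → ℤ) (k : ℤ) :
    Ssym r (shT T k) (shQ Q k) =
      S8 r (T 0 + k) (T 1 + k) (T 2) (T 3) (Q 0) (Q 1) (Q 2 + k) (Q 3 + k) := rfl

lemma rec_elim {a a' b b' c c' am bm cm Sp S0 Sm M0 Mm : ℝ} (ha : a ≠ 0) (ha' : a' ≠ 0) (hc : c ≠ 0)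
    (hcm : cm ≠ 0) (h1 : a * Sp = b * S0 - c * M0) (h2 : am * S0 = bm * Sm - cm * Mm)
    (h3 : a' * M0 = b' * Mm - c' * S0) :
    Sp = c / (a * a') * (a' * b / c + b' * am / cm + c') * S0 - c / (a * a') * (b' * bm / cm) * Sm := by
  have e0 : M0 = (b * S0 - a * Sp) / c := by
    rw [eq_div_iff hc]; linarith
  have e1 : Mm = (bm * Sm - am * S0) / cm := by
    rw [eq_div_iff hcm]; linarith
  rw [e0, e1] at h3
  field_simp at h3 ⊢
  linear_combination (-1 : ℝ) * h3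

/-- unnormalised three-term recursion -/
theorem rec_S {r : ℕ} {T Q : Fin 4 → ℤ} (h : RecOK r T Q) :
    Ssym r (shT T 1) (shQ Q 1) =
      fc (an r T) (an r Q) (2 * π / r) / (fa (an r T) (an r Q) (2 * π / r) * fa' (an r T) (an r Q) (2 * π / r)) *
        (fa' (an r T) (an r Q) (2 * π / r) * fb (an r T) (an r Q) / fc (an r T) (an r Q) (2 * π / r) +
          fb' (an r T) (an r Q) (2 * π / r) * fam (an r T) (an r Q) / fcm (an r T) (an r Q) (2 * π / r) +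
          fc' (an r T) (an r Q) (2 * π / r)) * Ssym r T Q -
      fc (an r T) (an r Q) (2 * π / r) / (fa (an r T) (an r Q) (2 * π / r) * fa' (an r T) (an r Q) (2 * π / r)) *
        (fb' (an r T) (an r Q) (2 * π / r) * fbm (an r T) (an r Q) (2 * π / r) /
          fcm (an r T) (an r Q) (2 * π / r)) * Ssym r (shT T (-1)) (shQ Q (-1)) := by
  obtain ⟨hodd, r3, T1, Qr, TQ, sum, ha, ha', hc, hcm⟩ := h
  rw [Fin.sum_univ_four, Fin.sum_univ_four] at sum
  have t0 := T1 0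
  have t1 := T1 1
  have t2 := T1 2
  have t3 := T1 3
  have q0 := Qr 0
  have q1 := Qr 1
  have q2 := Qr 2
  have q3 := Qr 3
  have bs : ∀ n : ℤ, br r n = ss (2 * π / r * n) := fun n => rfl
  have r1 := contig_A hodd r3 (T3 := T 0) (T4 := T 1) (T5 := T 2) (T6 := T 3) (Q0 := Q 0) (QL := Q 1)
    (Qa := Q 2 + 1) (Qb := Q 3 + 1) (by omega) (by omega) (by omega) (by omega) (by omega) (by omega)
    (by omega) (by omega) (by omega)
  have r2 := contig_A hodd r3 (T3 := T 0 - 1) (T4 := T 1 - 1) (T5 := T 2) (T6 := T 3) (Q0 := Q 0)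
    (QL := Q 1) (Qa := Q 2) (Qb := Q 3) (by omega) (by omega) (by omega) (by omega) (by omega)
    (by omega) (by omega) (by omega) (by omega)
  have r3' := contig_B hodd r3 (T3 := T 0) (T4 := T 1 - 1) (T5 := T 2) (T6 := T 3) (Q0 := Q 0)
    (QL := Q 1) (Qa := Q 2) (Qb := Q 3 + 1) (by omega) (by omega) (by omega) (by omega) (by omega)
    (by omega) (by omega) (by omega) (by omega)
  rw [show Q 2 + 1 - 1 = Q 2 by ring, show Q 3 + 1 - 1 = Q 3 by ring] at r1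
  rw [show T 0 - 1 + 1 = T 0 by ring, show T 1 - 1 + 1 = T 1 by ring] at r2
  rw [show T 1 - 1 + 1 = T 1 by ring, show Q 3 + 1 - 1 = Q 3 by ring] at r3'
  rw [Ssym_S8 r T Q, Ssym_sh, Ssym_sh]
  rw [show T 0 + -1 = T 0 - 1 by ring, show T 1 + -1 = T 1 - 1 by ring, show Q 2 + -1 = Q 2 - 1 by ring,
    show Q 3 + -1 = Q 3 - 1 by ring]
  have sse : ∀ x y : ℝ, x = y → ss x = ss y := fun x y h => by rw [h]
  apply rec_elim ha ha' hc hcm (M0 := S8 r (T 0 + 1) (T 1) (T 2) (T 3) (Q 0) (Q 1) (Q 2) (Q 3 + 1))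
    (Mm := S8 r (T 0) (T 1 - 1) (T 2) (T 3) (Q 0) (Q 1) (Q 2 - 1) (Q 3))
  · have e1 : fa (an r T) (an r Q) (2 * π / r) = br r (Q 2 + 1 - T 2) * br r (Q 2 + 1 - T 3) := by
      unfold fa an
      rw [bs, bs]
      congr 1 <;> (apply sse; push_cast; ring)
    have e2 : fb (an r T) (an r Q) = br r (Q 0 - T 0) * br r (Q 1 - T 0) := by
      unfold fb an
      rw [bs, bs]
      congr 1 <;> (apply sse; push_cast; ring)
    have e3 : fc (an r T) (an r Q) (2 * π / r) = br r (Q 3 + 1 - T 1) * br r (Q 0 + Q 1 - T 0 - T 1) := by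
      unfold fc an
      rw [bs, bs]
      congr 1 <;> (apply sse; push_cast; ring)
    rw [e1, e2, e3]
    exact r1
  · have e1 : fam (an r T) (an r Q) = br r (Q 2 - T 2) * br r (Q 2 - T 3) := by
      unfold fam an
      rw [bs, bs]
      congr 1 <;> (apply sse; push_cast; ring)
    have e2 : fbm (an r T) (an r Q) (2 * π / r) = br r (Q 0 - (T 0 - 1)) * br r (Q 1 - (T 0 - 1)) := by
      unfold fbm an
      rw [bs, bs]
      congr 1 <;> (apply sse; push_cast; ring)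
    have e3 : fcm (an r T) (an r Q) (2 * π / r) =
        br r (Q 3 - (T 1 - 1)) * br r (Q 0 + Q 1 - (T 0 - 1) - (T 1 - 1)) := by
      unfold fcm an
      rw [bs, bs]
      congr 1 <;> (apply sse; push_cast; ring)
    rw [e1, e2, e3]
    exact r2
  · have e1 : fa' (an r T) (an r Q) (2 * π / r) = br r (Q 3 + 1 - T 2) * br r (Q 3 + 1 - T 3) := by
      unfold fa' an
      rw [bs, bs]
      congr 1 <;> (apply sse; push_cast; ring)
    have e2 : fb' (an r T) (an r Q) (2 * π / r) = br r (Q 0 - (T 1 - 1)) * br r (Q 1 - (T 1 - 1)) := by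
      unfold fb' an
      rw [bs, bs]
      congr 1 <;> (apply sse; push_cast; ring)
    have e3 : fc' (an r T) (an r Q) (2 * π / r) =
        br r (Q 2 - T 0) * br r (Q 0 + Q 1 - T 0 - (T 1 - 1)) := by
      unfold fc' an
      rw [bs, bs]
      congr 1 <;> (apply sse; push_cast; ring)
    rw [e1, e2, e3]
    exact r3'

lemma sum16_p {r : ℕ} {T Q : Fin 4 → ℤ} (h : RecOK r T Q) :
    exp (1 / 2 * ∑ i, ∑ j, LZ r (shQ Q 1 j - shT T 1 i)) =
      Rf (an r T) (an r Q) (2 * π / r) * exp (1 / 2 * ∑ i, ∑ j, LZ r (Q j - T i)) := by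
  have TQ := h.TQ
  unfold Rf
  rw [← exp_add]
  congr 1
  simp only [Fin.sum_univ_four, shT, shQ, Matrix.cons_val]
  have f : ∀ i j, LZ r (Q j + 1 - T i) = LZ r (Q j - T i) + Real.log |ss (an r Q j - an r T i + 2 * π / r)| := by
    intro i j
    have := TQ i j
    rw [LZ_succ (show 1 ≤ Q j + 1 - T i by omega), br_ss]
    unfold an
    have e1 : Q j + 1 - T i - 1 = Q j - T i := by ring
    have e2 : 2 * π / (r:ℝ) * ((Q j + 1 - T i : ℤ) : ℝ) =
        2 * π / r * (Q j : ℝ) - 2 * π / r * (T i : ℝ) + 2 * π / r := by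
      push_cast; ring
    rw [e1, e2]
  have g : ∀ i j, LZ r (Q j - (T i + 1)) = LZ r (Q j - T i) - Real.log |ss (an r Q j - an r T i)| := by
    intro i j
    have := TQ i j
    rw [LZ_succ (show 1 ≤ Q j - T i by omega), br_ss]
    unfold an
    have e1 : Q j - (T i + 1) = Q j - T i - 1 := by ring
    have e2 : 2 * π / (r:ℝ) * ((Q j - T i : ℤ) : ℝ) = 2 * π / r * (Q j : ℝ) - 2 * π / r * (T i : ℝ) := by
      push_cast; ring
    rw [e1, e2]; ring
  have k : ∀ i j, LZ r (Q j + 1 - (T i + 1)) = LZ r (Q j - T i) := by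
    intro i j; congr 1; ring
  rw [g 0 0, g 0 1, k 0 2, k 0 3, g 1 0, g 1 1, k 1 2, k 1 3, f 2 2, f 2 3, f 3 2, f 3 3]
  ring

lemma sum16_m {r : ℕ} {T Q : Fin 4 → ℤ} (h : RecOK r T Q) :
    exp (1 / 2 * ∑ i, ∑ j, LZ r (Q j - T i)) =
      Rg (an r T) (an r Q) (2 * π / r) * exp (1 / 2 * ∑ i, ∑ j, LZ r (shQ Q (-1) j - shT T (-1) i)) := by
  have TQ := h.TQ
  unfold Rg
  rw [← exp_add]
  congr 1
  simp only [Fin.sum_univ_four, shT, shQ, Matrix.cons_val]
  have f : ∀ i j, LZ r (Q j + -1 - T i) = LZ r (Q j - T i) - Real.log |ss (an r Q j - an r T i)| := by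
    intro i j
    have := TQ i j
    rw [LZ_succ (show 1 ≤ Q j - T i by omega), br_ss]
    unfold an
    have e1 : Q j + -1 - T i = Q j - T i - 1 := by ring
    have e2 : 2 * π / (r:ℝ) * ((Q j - T i : ℤ) : ℝ) = 2 * π / r * (Q j : ℝ) - 2 * π / r * (T i : ℝ) := by
      push_cast; ring
    rw [e1, e2]; ring
  have g : ∀ i j, LZ r (Q j - (T i + -1)) = LZ r (Q j - T i) + Real.log |ss (an r Q j - an r T i + 2 * π / r)| := by
    intro i j
    have := TQ i j
    rw [LZ_succ (show 1 ≤ Q j - (T i + -1) by omega), br_ss]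
    unfold an
    have e1 : Q j - (T i + -1) - 1 = Q j - T i := by ring
    have e2 : 2 * π / (r:ℝ) * ((Q j - (T i + -1) : ℤ) : ℝ) =
        2 * π / r * (Q j : ℝ) - 2 * π / r * (T i : ℝ) + 2 * π / r := by
      push_cast; ring
    rw [e1, e2]
  have k : ∀ i j, LZ r (Q j + -1 - (T i + -1)) = LZ r (Q j - T i) := by
    intro i j; congr 1; ring
  rw [g 0 0, g 0 1, k 0 2, k 0 3, g 1 0, g 1 1, k 1 2, k 1 3, f 2 2, f 2 3, f 3 2, f 3 3]
  ring

/-- normalised three-term recursion -/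
theorem rec_N {r : ℕ} {T Q : Fin 4 → ℤ} (h : RecOK r T Q) :
    N4 r (shT T 1) (shQ Q 1) = Pc (an r T) (an r Q) (2 * π / r) * N4 r T Q -
      Pc' (an r T) (an r Q) (2 * π / r) * N4 r (shT T (-1)) (shQ Q (-1)) := by
  unfold N4
  rw [sum16_p h, rec_S h]
  have hm := sum16_m h
  unfold Pc Pc'
  set E0 := exp (1 / 2 * ∑ i, ∑ j, LZ r (Q j - T i))
  set Em := exp (1 / 2 * ∑ i, ∑ j, LZ r (shQ Q (-1) j - shT T (-1) i))
  linear_combination (-(Rf (an r T) (an r Q) (2 * π / r) * (fc (an r T) (an r Q) (2 * π / r) /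
    (fa (an r T) (an r Q) (2 * π / r) * fa' (an r T) (an r Q) (2 * π / r))) *
        (fb' (an r T) (an r Q) (2 * π / r) * fbm (an r T) (an r Q) (2 * π / r) /
          fcm (an r T) (an r Q) (2 * π / r)) * Ssym r (shT T (-1)) (shQ Q (-1)))) * hm

end Run7.h27
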