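import Pool.Agent.Run7.h27.Rec2
import Pool.Agent.Run7.h27.Main1

/-!
# Limits of the coefficients of the recursion
-/

set_option autoImplicit false

namespace Run7.h27

open Real Set Filter Topology

section values

variable {φ θ β1 β2 γ1 γ2 : ℝ}

/-- signs of all the sines -/
structure Sines (t q : Fin 4 → ℝ) : Prop where
  pos : ∀ i j, j ≠ 0 → 0 < ss (q j - t i)
  neg : ∀ i, ss (q 0 - t i) < 0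
  ne : ss (q 0 + q 1 - t 0 - t 1) ≠ 0

lemma reg_sines (h : Reg φ θ β1 β2 γ1 γ2) :
    Sines (tvec φ θ β1 β2 γ1 γ2) (qvec φ θ β1 β2 γ1 γ2) := by
  refine ⟨?_, ?_, ?_⟩
  · intro i j hj
    unfold ss
    have := (h.qt i j hj).sin_pos
    linarith
  · intro i
    have e : qvec φ θ β1 β2 γ1 γ2 0 - tvec φ θ β1 β2 γ1 γ2 i = 2 * π - tvec φ θ β1 β2 γ1 γ2 i := rfl
    unfold ss
    rw [e, sin_two_pi_sub]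
    have := (h.tvec i).sin_pos
    linarith
  · have e : qvec φ θ β1 β2 γ1 γ2 0 + qvec φ θ β1 β2 γ1 γ2 1 - tvec φ θ β1 β2 γ1 γ2 0 -
        tvec φ θ β1 β2 γ1 γ2 1 = φ + π := by
      show 2 * π + Qv β1 β2 γ1 γ2 - Tv φ β1 β2 - Tv φ γ1 γ2 = φ + π
      unfold Qv Tv; ring
    unfold ss
    rw [e, sin_add_pi]
    have := h.aφ.sin_pos
    intro h0
    linarith

lemma prod_aabb (h : Reg φ θ β1 β2 γ1 γ2) :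
    fa (tvec φ θ β1 β2 γ1 γ2) (qvec φ θ β1 β2 γ1 γ2) 0 * fa' (tvec φ θ β1 β2 γ1 γ2) (qvec φ θ β1 β2 γ1 γ2) 0 *
      (fb (tvec φ θ β1 β2 γ1 γ2) (qvec φ θ β1 β2 γ1 γ2) * fb' (tvec φ θ β1 β2 γ1 γ2) (qvec φ θ β1 β2 γ1 γ2) 0) =
      16 * (Dv φ β1 β2 * Dv φ γ1 γ2) := by
  have e3 : Dv φ β1 β2 = -((cos φ + cos (β1 + β2)) * (cos φ + cos (β1 - β2))) := by
    rw [Dv_eq]; ring
  have e4 : Dv φ γ1 γ2 = -((cos φ + cos (γ1 + γ2)) * (cos φ + cos (γ1 - γ2))) := by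
    rw [Dv_eq]; ring
  unfold fa fa' fb fb' ss
  show 2 * sin (Qv φ θ γ1 β2 - Tv θ β1 γ1 + 0) * (2 * sin (Qv φ θ γ1 β2 - Tv θ β2 γ2 + 0)) *
    (2 * sin (Qv φ θ β1 γ2 - Tv θ β1 γ1 + 0) * (2 * sin (Qv φ θ β1 γ2 - Tv θ β2 γ2 + 0))) *
    (2 * sin (2 * π - Tv φ β1 β2) * (2 * sin (Qv β1 β2 γ1 γ2 - Tv φ β1 β2)) *
    (2 * sin (2 * π - Tv φ γ1 γ2 + 0) * (2 * sin (Qv β1 β2 γ1 γ2 - Tv φ γ1 γ2 + 0)))) = _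
  simp only [add_zero]
  have p1 : sin (Qv φ θ γ1 β2 - Tv θ β1 γ1) * sin (Qv φ θ β1 γ2 - Tv θ β2 γ2) =
      (cos φ + cos (β1 - β2)) / 2 := by
    rw [sin_mul_sin]
    have a1 : Qv φ θ γ1 β2 - Tv θ β1 γ1 - (Qv φ θ β1 γ2 - Tv θ β2 γ2) = β1 - β2 := by
      unfold Qv Tv; ring
    have a2 : Qv φ θ γ1 β2 - Tv θ β1 γ1 + (Qv φ θ β1 γ2 - Tv θ β2 γ2) = π - φ := by
      unfold Qv Tv; ring
    rw [a1, a2, cos_pi_sub]; ring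
  have p2 : sin (Qv φ θ γ1 β2 - Tv θ β2 γ2) * sin (Qv φ θ β1 γ2 - Tv θ β1 γ1) =
      (cos φ + cos (γ1 - γ2)) / 2 := by
    rw [sin_mul_sin]
    have a1 : Qv φ θ γ1 β2 - Tv θ β2 γ2 - (Qv φ θ β1 γ2 - Tv θ β1 γ1) = -(γ1 - γ2) := by
      unfold Qv Tv; ring
    have a2 : Qv φ θ γ1 β2 - Tv θ β2 γ2 + (Qv φ θ β1 γ2 - Tv θ β1 γ1) = π - φ := by
      unfold Qv Tv; ring
    rw [a1, a2, cos_pi_sub, cos_neg]; ring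
  have p3 : sin (2 * π - Tv φ β1 β2) * sin (Qv β1 β2 γ1 γ2 - Tv φ γ1 γ2) =
      (cos φ + cos (β1 + β2)) / 2 := by
    rw [sin_mul_sin]
    have a1 : 2 * π - Tv φ β1 β2 - (Qv β1 β2 γ1 γ2 - Tv φ γ1 γ2) = β1 + β2 := by
      unfold Qv Tv; ring
    have a2 : 2 * π - Tv φ β1 β2 + (Qv β1 β2 γ1 γ2 - Tv φ γ1 γ2) = φ + π := by
      unfold Qv Tv; ring
    rw [a1, a2, cos_add_pi]; ring
  have p4 : sin (2 * π - Tv φ γ1 γ2) * sin (Qv β1 β2 γ1 γ2 - Tv φ β1 β2) =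
      (cos φ + cos (γ1 + γ2)) / 2 := by
    rw [sin_mul_sin]
    have a1 : 2 * π - Tv φ γ1 γ2 - (Qv β1 β2 γ1 γ2 - Tv φ β1 β2) = γ1 + γ2 := by
      unfold Qv Tv; ring
    have a2 : 2 * π - Tv φ γ1 γ2 + (Qv β1 β2 γ1 γ2 - Tv φ β1 β2) = φ + π := by
      unfold Qv Tv; ring
    rw [a1, a2, cos_add_pi]; ring
  rw [e3, e4]
  calc _ = 256 * (sin (Qv φ θ γ1 β2 - Tv θ β1 γ1) * sin (Qv φ θ β1 γ2 - Tv θ β2 γ2)) *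
      (sin (Qv φ θ γ1 β2 - Tv θ β2 γ2) * sin (Qv φ θ β1 γ2 - Tv θ β1 γ1)) *
      (sin (2 * π - Tv φ β1 β2) * sin (Qv β1 β2 γ1 γ2 - Tv φ γ1 γ2)) *
      (sin (2 * π - Tv φ γ1 γ2) * sin (Qv β1 β2 γ1 γ2 - Tv φ β1 β2)) := by ring
    _ = _ := by rw [p1, p2, p3, p4]; ring

lemma sum_cof : fa' (tvec φ θ β1 β2 γ1 γ2) (qvec φ θ β1 β2 γ1 γ2) 0 *
      fb (tvec φ θ β1 β2 γ1 γ2) (qvec φ θ β1 β2 γ1 γ2) +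
      fb' (tvec φ θ β1 β2 γ1 γ2) (qvec φ θ β1 β2 γ1 γ2) 0 *
        fa (tvec φ θ β1 β2 γ1 γ2) (qvec φ θ β1 β2 γ1 γ2) 0 +
      fc (tvec φ θ β1 β2 γ1 γ2) (qvec φ θ β1 β2 γ1 γ2) 0 *
        fc' (tvec φ θ β1 β2 γ1 γ2) (qvec φ θ β1 β2 γ1 γ2) 0 =
      8 * Cof φ θ β1 β2 γ1 γ2 := by
  unfold fa fa' fb fb' fc fc' ss
  show 2 * sin (Qv φ θ β1 γ2 - Tv θ β1 γ1 + 0) * (2 * sin (Qv φ θ β1 γ2 - Tv θ β2 γ2 + 0)) *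
    (2 * sin (2 * π - Tv φ β1 β2) * (2 * sin (Qv β1 β2 γ1 γ2 - Tv φ β1 β2))) +
    2 * sin (2 * π - Tv φ γ1 γ2 + 0) * (2 * sin (Qv β1 β2 γ1 γ2 - Tv φ γ1 γ2 + 0)) *
    (2 * sin (Qv φ θ γ1 β2 - Tv θ β1 γ1 + 0) * (2 * sin (Qv φ θ γ1 β2 - Tv θ β2 γ2 + 0))) +
    2 * sin (Qv φ θ β1 γ2 - Tv φ γ1 γ2 + 0) * (2 * sin (2 * π + Qv β1 β2 γ1 γ2 - Tv φ β1 β2 - Tv φ γ1 γ2)) *
    (2 * sin (Qv φ θ γ1 β2 - Tv φ β1 β2) *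
      (2 * sin (2 * π + Qv β1 β2 γ1 γ2 - Tv φ β1 β2 - Tv φ γ1 γ2 + 0))) = _
  simp only [add_zero]
  have p1 : sin (Qv φ θ β1 γ2 - Tv θ β2 γ2) * sin (2 * π - Tv φ β1 β2) =
      (cos (φ + β1) + cos β2) / 2 := by
    rw [sin_mul_sin]
    have a1 : Qv φ θ β1 γ2 - Tv θ β2 γ2 - (2 * π - Tv φ β1 β2) = -(φ + β1) := by
      unfold Qv Tv; ring
    have a2 : Qv φ θ β1 γ2 - Tv θ β2 γ2 + (2 * π - Tv φ β1 β2) = β2 + π := by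
      unfold Qv Tv; ring
    rw [a1, a2, cos_neg, cos_add_pi]; ring
  have p2 : sin (Qv φ θ β1 γ2 - Tv θ β1 γ1) * sin (Qv β1 β2 γ1 γ2 - Tv φ β1 β2) =
      (cos (φ - γ1) + cos γ2) / 2 := by
    rw [sin_mul_sin]
    have a1 : Qv φ θ β1 γ2 - Tv θ β1 γ1 - (Qv β1 β2 γ1 γ2 - Tv φ β1 β2) = -(φ - γ1) := by
      unfold Qv Tv; ring
    have a2 : Qv φ θ β1 γ2 - Tv θ β1 γ1 + (Qv β1 β2 γ1 γ2 - Tv φ β1 β2) = π - γ2 := by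
      unfold Qv Tv; ring
    rw [a1, a2, cos_neg, cos_pi_sub]; ring
  have p3 : sin (2 * π - Tv φ γ1 γ2) * sin (Qv φ θ γ1 β2 - Tv θ β2 γ2) =
      (cos (φ + γ1) + cos γ2) / 2 := by
    rw [sin_mul_sin]
    have a1 : 2 * π - Tv φ γ1 γ2 - (Qv φ θ γ1 β2 - Tv θ β2 γ2) = φ + γ1 := by
      unfold Qv Tv; ring
    have a2 : 2 * π - Tv φ γ1 γ2 + (Qv φ θ γ1 β2 - Tv θ β2 γ2) = γ2 + π := by
      unfold Qv Tv; ring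
    rw [a1, a2, cos_add_pi]; ring
  have p4 : sin (Qv β1 β2 γ1 γ2 - Tv φ γ1 γ2) * sin (Qv φ θ γ1 β2 - Tv θ β1 γ1) =
      (cos (φ - β1) + cos β2) / 2 := by
    rw [sin_mul_sin]
    have a1 : Qv β1 β2 γ1 γ2 - Tv φ γ1 γ2 - (Qv φ θ γ1 β2 - Tv θ β1 γ1) = φ - β1 := by
      unfold Qv Tv; ring
    have a2 : Qv β1 β2 γ1 γ2 - Tv φ γ1 γ2 + (Qv φ θ γ1 β2 - Tv θ β1 γ1) = π - β2 := by
      unfold Qv Tv; ring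
    rw [a1, a2, cos_pi_sub]; ring
  have p5 : sin (Qv φ θ β1 γ2 - Tv φ γ1 γ2) * sin (Qv φ θ γ1 β2 - Tv φ β1 β2) =
      (cos θ + cos (β1 - γ1)) / 2 := by
    rw [sin_mul_sin]
    have a1 : Qv φ θ β1 γ2 - Tv φ γ1 γ2 - (Qv φ θ γ1 β2 - Tv φ β1 β2) = -(β1 - γ1) := by
      unfold Qv Tv; ring
    have a2 : Qv φ θ β1 γ2 - Tv φ γ1 γ2 + (Qv φ θ γ1 β2 - Tv φ β1 β2) = π - θ := by
      unfold Qv Tv; ring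
    rw [a1, a2, cos_pi_sub, cos_neg]; ring
  have p6 : sin (2 * π + Qv β1 β2 γ1 γ2 - Tv φ β1 β2 - Tv φ γ1 γ2) = -sin φ := by
    have : 2 * π + Qv β1 β2 γ1 γ2 - Tv φ β1 β2 - Tv φ γ1 γ2 = φ + π := by
      unfold Qv Tv; ring
    rw [this, sin_add_pi]
  calc _ = 16 * ((sin (Qv φ θ β1 γ2 - Tv θ β2 γ2) * sin (2 * π - Tv φ β1 β2)) *
      (sin (Qv φ θ β1 γ2 - Tv θ β1 γ1) * sin (Qv β1 β2 γ1 γ2 - Tv φ β1 β2)) +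
      (sin (2 * π - Tv φ γ1 γ2) * sin (Qv φ θ γ1 β2 - Tv θ β2 γ2)) *
      (sin (Qv β1 β2 γ1 γ2 - Tv φ γ1 γ2) * sin (Qv φ θ γ1 β2 - Tv θ β1 γ1)) +
      (sin (Qv φ θ β1 γ2 - Tv φ γ1 γ2) * sin (Qv φ θ γ1 β2 - Tv φ β1 β2)) *
      sin (2 * π + Qv β1 β2 γ1 γ2 - Tv φ β1 β2 - Tv φ γ1 γ2) ^ 2) := by ring
    _ = _ := by
      rw [p1, p2, p3, p4, p5, p6]
      unfold Cof
      rw [cos_add, cos_add, cos_sub, cos_sub, cos_sub]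
      have h1 := sin_sq_add_cos_sq φ
      linear_combination (8 * cos β1 * cos γ1) * h1

end values

end Run7.h27
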