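import Pool.Agent.Run7.h27.Rec3

/-!
# Continuity and limits of the coefficients of the recursion
-/

set_option autoImplicit false

namespace Run7.h27

open Real Set Filter Topology

lemma ca_ss {X : Type*} [TopologicalSpace X] {f : X → ℝ} {x : X} (hf : ContinuousAt f x) :
    ContinuousAt (fun x => ss (f x)) x := by
  unfold ss
  exact (continuous_sin.continuousAt.comp hf).const_mul 2

lemma ca_log {X : Type*} [TopologicalSpace X] {f : X → ℝ} {x : X} (hf : ContinuousAt f x)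
    (h : ss (f x) ≠ 0) : ContinuousAt (fun x => Real.log |ss (f x)|) x := by
  apply ContinuousAt.log
  · exact (ca_ss hf).abs
  · exact abs_ne_zero.mpr h

/-- parameter space -/
abbrev Par := (Fin 4 → ℝ) × (Fin 4 → ℝ) × ℝ

lemma c_t (i : Fin 4) (x : Par) : ContinuousAt (fun x : Par => x.1 i) x :=
  ((continuous_apply i).comp continuous_fst).continuousAt

lemma c_q (i : Fin 4) (x : Par) : ContinuousAt (fun x : Par => x.2.1 i) x :=
  ((continuous_apply i).comp (continuous_fst.comp continuous_snd)).continuousAt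

lemma c_h (x : Par) : ContinuousAt (fun x : Par => x.2.2) x :=
  (continuous_snd.comp continuous_snd).continuousAt

section

variable {t q : Fin 4 → ℝ} (hs : Sines t q)
include hs

lemma Sines.ne' (i j : Fin 4) : ss (q j - t i + 0) ≠ 0 := by
  rw [add_zero]
  by_cases hj : j = 0
  · subst hj; exact (hs.neg i).ne
  · exact (hs.pos i j hj).ne'

lemma Sines.ne'' (i j : Fin 4) : ss (q j - t i) ≠ 0 := by
  by_cases hj : j = 0
  · subst hj; exact (hs.neg i).ne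
  · exact (hs.pos i j hj).ne'

lemma ca_Rf : ContinuousAt (fun x : Par => Rf x.1 x.2.1 x.2.2) (t, q, 0) := by
  unfold Rf
  have f : ∀ i j, ContinuousAt (fun x : Par => Real.log |ss (x.2.1 j - x.1 i + x.2.2)|) (t, q, 0) :=
    fun i j => ca_log (((c_q j _).sub (c_t i _)).add (c_h _)) (hs.ne' i j)
  have g : ∀ i j, ContinuousAt (fun x : Par => Real.log |ss (x.2.1 j - x.1 i)|) (t, q, 0) :=
    fun i j => ca_log ((c_q j _).sub (c_t i _)) (hs.ne'' i j)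
  apply ContinuousAt.rexp
  apply ContinuousAt.const_mul
  exact (((((((f 2 2).add (f 3 2)).add (f 2 3)).add (f 3 3)).sub (g 0 0)).sub (g 1 0)).sub
    (g 0 1)).sub (g 1 1)

lemma ca_Rg : ContinuousAt (fun x : Par => Rg x.1 x.2.1 x.2.2) (t, q, 0) := by
  unfold Rg
  have f : ∀ i j, ContinuousAt (fun x : Par => Real.log |ss (x.2.1 j - x.1 i + x.2.2)|) (t, q, 0) :=
    fun i j => ca_log (((c_q j _).sub (c_t i _)).add (c_h _)) (hs.ne' i j)
  have g : ∀ i j, ContinuousAt (fun x : Par => Real.log |ss (x.2.1 j - x.1 i)|) (t, q, 0) :=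
    fun i j => ca_log ((c_q j _).sub (c_t i _)) (hs.ne'' i j)
  apply ContinuousAt.rexp
  apply ContinuousAt.const_mul
  exact (((((((g 2 2).add (g 3 2)).add (g 2 3)).add (g 3 3)).sub (f 0 0)).sub (f 1 0)).sub
    (f 0 1)).sub (f 1 1)

omit hs in
lemma ca_fa : ContinuousAt (fun x : Par => fa x.1 x.2.1 x.2.2) (t, q, 0) :=
  (ca_ss (((c_q 2 _).sub (c_t 2 _)).add (c_h _))).mul (ca_ss (((c_q 2 _).sub (c_t 3 _)).add (c_h _)))

omit hs in
lemma ca_fa' : ContinuousAt (fun x : Par => fa' x.1 x.2.1 x.2.2) (t, q, 0) :=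
  (ca_ss (((c_q 3 _).sub (c_t 2 _)).add (c_h _))).mul (ca_ss (((c_q 3 _).sub (c_t 3 _)).add (c_h _)))

omit hs in
lemma ca_fb : ContinuousAt (fun x : Par => fb x.1 x.2.1) (t, q, 0) :=
  (ca_ss ((c_q 0 _).sub (c_t 0 _))).mul (ca_ss ((c_q 1 _).sub (c_t 0 _)))

omit hs in
lemma ca_fb' : ContinuousAt (fun x : Par => fb' x.1 x.2.1 x.2.2) (t, q, 0) :=
  (ca_ss (((c_q 0 _).sub (c_t 1 _)).add (c_h _))).mul (ca_ss (((c_q 1 _).sub (c_t 1 _)).add (c_h _)))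

omit hs in
lemma ca_fc : ContinuousAt (fun x : Par => fc x.1 x.2.1 x.2.2) (t, q, 0) :=
  (ca_ss (((c_q 3 _).sub (c_t 1 _)).add (c_h _))).mul
    (ca_ss ((((c_q 0 _).add (c_q 1 _)).sub (c_t 0 _)).sub (c_t 1 _)))

omit hs in
lemma ca_fc' : ContinuousAt (fun x : Par => fc' x.1 x.2.1 x.2.2) (t, q, 0) :=
  (ca_ss ((c_q 2 _).sub (c_t 0 _))).mul
    (ca_ss (((((c_q 0 _).add (c_q 1 _)).sub (c_t 0 _)).sub (c_t 1 _)).add (c_h _)))

omit hs in
lemma ca_fam : ContinuousAt (fun x : Par => fam x.1 x.2.1) (t, q, 0) :=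
  (ca_ss ((c_q 2 _).sub (c_t 2 _))).mul (ca_ss ((c_q 2 _).sub (c_t 3 _)))

omit hs in
lemma ca_fbm : ContinuousAt (fun x : Par => fbm x.1 x.2.1 x.2.2) (t, q, 0) :=
  (ca_ss (((c_q 0 _).sub (c_t 0 _)).add (c_h _))).mul (ca_ss (((c_q 1 _).sub (c_t 0 _)).add (c_h _)))

omit hs in
lemma ca_fcm : ContinuousAt (fun x : Par => fcm x.1 x.2.1 x.2.2) (t, q, 0) :=
  (ca_ss (((c_q 3 _).sub (c_t 1 _)).add (c_h _))).mul
    (ca_ss (((((c_q 0 _).add (c_q 1 _)).sub (c_t 0 _)).sub (c_t 1 _)).add ((c_h _).const_mul 2)))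

lemma Sines.fa_ne : fa t q 0 ≠ 0 := mul_ne_zero (hs.ne' 2 2) (hs.ne' 3 2)
lemma Sines.fa'_ne : fa' t q 0 ≠ 0 := mul_ne_zero (hs.ne' 2 3) (hs.ne' 3 3)
lemma Sines.fc_ne : fc t q 0 ≠ 0 := mul_ne_zero (hs.ne' 1 3) hs.ne
lemma Sines.fcm_ne : fcm t q 0 ≠ 0 := by
  unfold fcm
  rw [mul_zero, add_zero (q 0 + q 1 - t 0 - t 1)]
  exact mul_ne_zero (hs.ne' 1 3) hs.ne

lemma ca_Pc : ContinuousAt (fun x : Par => Pc x.1 x.2.1 x.2.2) (t, q, 0) := by
  unfold Pc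
  apply ContinuousAt.mul
  · exact (ca_Rf hs).mul (ca_fc.div (ca_fa.mul ca_fa') (mul_ne_zero hs.fa_ne hs.fa'_ne))
  · exact (((ca_fa'.mul ca_fb).div ca_fc hs.fc_ne).add ((ca_fb'.mul ca_fam).div ca_fcm hs.fcm_ne)).add
      ca_fc'

lemma ca_Pc' : ContinuousAt (fun x : Par => Pc' x.1 x.2.1 x.2.2) (t, q, 0) := by
  unfold Pc'
  apply ContinuousAt.mul
  · exact ((ca_Rf hs).mul (ca_Rg hs)).mul
      (ca_fc.div (ca_fa.mul ca_fa') (mul_ne_zero hs.fa_ne hs.fa'_ne))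
  · exact (ca_fb'.mul ca_fbm).div ca_fcm hs.fcm_ne

lemma Sines.Rf_sq : Rf t q 0 ^ 2 = fa t q 0 * fa' t q 0 / (fb t q * fb' t q 0) := by
  have hp : ∀ i j, j ≠ 0 → 0 < ss (q j - t i) := hs.pos
  have hn : ∀ i, ss (q 0 - t i) < 0 := hs.neg
  unfold Rf fa fa' fb fb'
  simp only [add_zero]
  rw [← exp_nat_mul]
  have e : ((2:ℕ):ℝ) * (1 / 2 * (Real.log |ss (q 2 - t 2)| + Real.log |ss (q 2 - t 3)| +
      Real.log |ss (q 3 - t 2)| + Real.log |ss (q 3 - t 3)| - Real.log |ss (q 0 - t 0)| -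
      Real.log |ss (q 0 - t 1)| - Real.log |ss (q 1 - t 0)| - Real.log |ss (q 1 - t 1)|)) =
      Real.log |ss (q 2 - t 2)| + Real.log |ss (q 2 - t 3)| +
      Real.log |ss (q 3 - t 2)| + Real.log |ss (q 3 - t 3)| - Real.log |ss (q 0 - t 0)| -
      Real.log |ss (q 0 - t 1)| - Real.log |ss (q 1 - t 0)| - Real.log |ss (q 1 - t 1)| := by
    push_cast; ring
  rw [e, exp_sub, exp_sub, exp_sub, exp_sub, exp_add, exp_add, exp_add,
    Real.exp_log (abs_pos.mpr (hs.ne'' 2 2)), Real.exp_log (abs_pos.mpr (hs.ne'' 3 2)),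
    Real.exp_log (abs_pos.mpr (hs.ne'' 2 3)), Real.exp_log (abs_pos.mpr (hs.ne'' 3 3)),
    Real.exp_log (abs_pos.mpr (hs.ne'' 0 0)), Real.exp_log (abs_pos.mpr (hs.ne'' 1 0)),
    Real.exp_log (abs_pos.mpr (hs.ne'' 0 1)), Real.exp_log (abs_pos.mpr (hs.ne'' 1 1)),
    abs_of_pos (hp 2 2 (by decide)), abs_of_pos (hp 3 2 (by decide)), abs_of_pos (hp 2 3 (by decide)),
    abs_of_pos (hp 3 3 (by decide)), abs_of_pos (hp 0 1 (by decide)), abs_of_pos (hp 1 1 (by decide)),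
    abs_of_neg (hn 0), abs_of_neg (hn 1)]
  have n1 := hs.ne'' 0 0
  have n2 := hs.ne'' 1 0
  have n3 := hs.ne'' 0 1
  have n4 := hs.ne'' 1 1
  field_simp

lemma Sines.X_pos : 0 < fa t q 0 * fa' t q 0 := by
  unfold fa fa'
  simp only [add_zero]
  have := hs.pos 2 2 (by decide)
  have := hs.pos 3 2 (by decide)
  have := hs.pos 2 3 (by decide)
  have := hs.pos 3 3 (by decide)
  positivity

lemma Sines.Y_pos : 0 < fb t q * fb' t q 0 := by
  unfold fb fb'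
  simp only [add_zero]
  have h1 := hs.pos 0 1 (by decide)
  have h2 := hs.pos 1 1 (by decide)
  have h3 := mul_pos_of_neg_of_neg (hs.neg 0) (hs.neg 1)
  have : ss (q 0 - t 0) * ss (q 1 - t 0) * (ss (q 0 - t 1) * ss (q 1 - t 1)) =
    (ss (q 0 - t 0) * ss (q 0 - t 1)) * (ss (q 1 - t 0) * ss (q 1 - t 1)) := by ring
  rw [this]
  positivity

omit hs in
lemma Rf_pos (h : ℝ) : 0 < Rf t q h := exp_pos _

omit hs in
lemma Rg_zero : Rg t q 0 = Rf t q 0 := by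
  unfold Rg Rf
  simp only [add_zero]

lemma Sines.Pc'_zero : Pc' t q 0 = 1 := by
  unfold Pc'
  rw [Rg_zero]
  have e1 : fbm t q 0 = fb t q := by unfold fbm fb; simp only [add_zero]
  have e2 : fcm t q 0 = fc t q 0 := by unfold fcm fc; simp only [mul_zero, add_zero]
  rw [e1, e2, ← sq, hs.Rf_sq]
  have n1 := hs.fa_ne
  have n2 := hs.fa'_ne
  have n3 := hs.fc_ne
  have n4 := hs.Y_pos.ne'
  have n5 := left_ne_zero_of_mul n4
  have n6 := right_ne_zero_of_mul n4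
  field_simp

lemma Sines.Pc_zero' : Pc t q 0 = Rf t q 0 * ((fa' t q 0 * fb t q + fb' t q 0 * fa t q 0 +
    fc t q 0 * fc' t q 0) / (fa t q 0 * fa' t q 0)) := by
  unfold Pc
  have e1 : fam t q = fa t q 0 := by unfold fam fa; simp only [add_zero]
  have e2 : fcm t q 0 = fc t q 0 := by unfold fcm fc; simp only [mul_zero, add_zero]
  rw [e1, e2, mul_assoc]
  congr 1
  have n1 := hs.fa_ne
  have n2 := hs.fa'_ne
  have n3 := hs.fc_ne
  field_simp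

end

/-- the limit of the leading coefficient -/
noncomputable def ce (φ θ β1 β2 γ1 γ2 : ℝ) : ℝ :=
  Cof φ θ β1 β2 γ1 γ2 / sqrt (Dv φ β1 β2 * Dv φ γ1 γ2)

lemma Pc_zero {φ θ β1 β2 γ1 γ2 : ℝ} (h : Reg φ θ β1 β2 γ1 γ2) :
    Pc (tvec φ θ β1 β2 γ1 γ2) (qvec φ θ β1 β2 γ1 γ2) 0 = 2 * ce φ θ β1 β2 γ1 γ2 := by
  have hs := reg_sines h
  have h1 := prod_aabb h
  have h2 := hs.Rf_sq
  have hX := hs.X_pos
  have hY := hs.Y_pos
  rw [hs.Pc_zero', sum_cof]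
  unfold ce
  set X := fa (tvec φ θ β1 β2 γ1 γ2) (qvec φ θ β1 β2 γ1 γ2) 0 * fa' (tvec φ θ β1 β2 γ1 γ2) (qvec φ θ β1 β2 γ1 γ2) 0
  set Y := fb (tvec φ θ β1 β2 γ1 γ2) (qvec φ θ β1 β2 γ1 γ2) * fb' (tvec φ θ β1 β2 γ1 γ2) (qvec φ θ β1 β2 γ1 γ2) 0
  set R := Rf (tvec φ θ β1 β2 γ1 γ2) (qvec φ θ β1 β2 γ1 γ2) 0
  set D := Dv φ β1 β2 * Dv φ γ1 γ2
  have hD : 0 < D := mul_pos h.d3 h.d4
  have hR : 0 < R := Rf_pos 0
  have hsD : 0 < sqrt D := sqrt_pos.mpr hD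
  have e1 : R * (4 * sqrt D) = X := by
    have e2 : (R * (4 * sqrt D)) ^ 2 = X ^ 2 := by
      rw [mul_pow, mul_pow, sq_sqrt hD.le, h2]
      field_simp
      linear_combination (-1 : ℝ) * h1
    exact (pow_left_inj₀ (by positivity) hX.le (by norm_num)).mp e2
  rw [← e1]
  field_simp
  ring

end Run7.h27
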