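import Pool.Agent.Run7.h27.Lob

/-!
# Uniform Riemann sums for `log |2 sin|` at odd roots of unity
-/

set_option autoImplicit false

namespace Run7.h27

open Real MeasureTheory intervalIntegral Filter Topology Finset

lemma sin_prod (a s : ℝ) : sin (a + s) * sin (a - s) = sin a ^ 2 - sin s ^ 2 := by
  rw [sin_add, sin_sub]
  linear_combination (sin a ^ 2) * (sin_sq_add_cos_sq s) - (sin s ^ 2) * (sin_sq_add_cos_sq a)

lemma ph_int_add (a b c : ℝ) : IntervalIntegrable (fun s => ph (a + s)) volume b c := by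
  have := (ph_int (a + b) (a + c)).comp_add_left a
  simpa using this

lemma ph_int_sub (a b c : ℝ) : IntervalIntegrable (fun s => ph (a - s)) volume b c := by
  have := (ph_int (a - b) (a - c)).comp_sub_left a
  simpa using this

lemma int_symm (a s0 : ℝ) :
    ∫ t in (a - s0)..(a + s0), ph t = ∫ s in (0:ℝ)..s0, (ph (a + s) + ph (a - s)) := by
  have h1 : ∫ s in (0:ℝ)..s0, ph (a + s) = ∫ t in a..(a + s0), ph t := by
    have := intervalIntegral.integral_comp_add_left (a := 0) (b := s0) ph a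
    simpa using this
  have h2 : ∫ s in (0:ℝ)..s0, ph (a - s) = ∫ t in (a - s0)..a, ph t := by
    have := intervalIntegral.integral_comp_sub_left (a := 0) (b := s0) ph a
    simpa using this
  have h3 := intervalIntegral.integral_add_adjacent_intervals (ph_int (a - s0) a)
    (ph_int a (a + s0))
  rw [intervalIntegral.integral_add (ph_int_add a 0 s0) (ph_int_sub a 0 s0), h1, h2, ← h3]
  ring

lemma ph_add_sub {a s : ℝ} (h1 : sin (a + s) ≠ 0) (h2 : sin (a - s) ≠ 0) :
    ph (a + s) + ph (a - s) = Real.log (4 * |sin a ^ 2 - sin s ^ 2|) := by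
  unfold ph
  rw [← Real.log_mul (by simpa using h1) (by simpa using h2), ← abs_mul]
  congr 1
  rw [← sin_prod, show 2 * sin (a + s) * (2 * sin (a - s)) = 4 * (sin (a + s) * sin (a - s)) by ring,
    abs_mul, abs_of_pos (show (0:ℝ) < 4 by norm_num)]

lemma sin_sq_lt {a s s0 : ℝ} (hs0 : s0 ≤ π / 2) (h : sin s0 ≤ |sin a|) (hs : 0 < s) (hss : s < s0) :
    sin s ^ 2 < sin a ^ 2 := by
  have h1 : sin s < sin s0 := sin_lt_sin_of_lt_of_le_pi_div_two (by linarith [pi_pos]) hs0 hss
  have h2 : 0 < sin s := sin_pos_of_pos_of_lt_pi hs (by linarith [pi_pos])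
  rw [sq_lt_sq, abs_of_pos h2]
  linarith

lemma ne_of_sq {a s : ℝ} (h : sin s ^ 2 < sin a ^ 2) : sin (a + s) ≠ 0 ∧ sin (a - s) ≠ 0 := by
  have h1 : sin (a + s) * sin (a - s) ≠ 0 := by
    rw [sin_prod]; linarith
  exact ⟨left_ne_zero_of_mul h1, right_ne_zero_of_mul h1⟩

lemma mid_le {a s0 : ℝ} (h0 : 0 ≤ s0) (hs0 : s0 ≤ π / 2) (h : sin s0 ≤ |sin a|) :
    ∫ t in (a - s0)..(a + s0), ph t ≤ 2 * s0 * ph a := by
  rw [int_symm]
  have hc : 2 * s0 * ph a = ∫ s in (0:ℝ)..s0, (2 * ph a) := by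
    rw [intervalIntegral.integral_const]; simp; ring
  rw [hc]
  apply intervalIntegral.integral_mono_on_of_le_Ioo h0
  · exact (ph_int_add a 0 s0).add (ph_int_sub a 0 s0)
  · exact intervalIntegrable_const
  · intro s hs
    have hlt := sin_sq_lt hs0 h hs.1 hs.2
    obtain ⟨h1, h2⟩ := ne_of_sq hlt
    rw [ph_add_sub h1 h2]
    have ha : sin a ≠ 0 := by
      intro ha
      rw [ha] at hlt
      nlinarith [sq_nonneg (sin s)]
    have : 2 * ph a = Real.log (4 * sin a ^ 2) := by
      unfold ph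
      rw [show (4 * sin a ^ 2) = |2 * sin a| ^ 2 by rw [sq_abs]; ring, Real.log_pow]
      norm_num
    rw [this]
    apply Real.log_le_log
    · have : 0 < |sin a ^ 2 - sin s ^ 2| := abs_pos.mpr (by linarith)
      linarith
    · rw [abs_of_pos (by linarith)]
      nlinarith [sq_nonneg (sin s)]

lemma le_trap {a s0 : ℝ} (h0 : 0 ≤ s0) (hs0 : s0 ≤ π / 2) (h : sin s0 ≤ |sin a|)
    (hp : sin (a + s0) ≠ 0) (hm : sin (a - s0) ≠ 0) :
    s0 * (ph (a + s0) + ph (a - s0)) ≤ ∫ t in (a - s0)..(a + s0), ph t := by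
  rw [int_symm]
  have hc : s0 * (ph (a + s0) + ph (a - s0)) =
      ∫ s in (0:ℝ)..s0, (ph (a + s0) + ph (a - s0)) := by
    rw [intervalIntegral.integral_const]; simp
  rw [hc]
  apply intervalIntegral.integral_mono_on_of_le_Ioo h0
  · exact intervalIntegrable_const
  · exact (ph_int_add a 0 s0).add (ph_int_sub a 0 s0)
  · intro s hs
    have hlt := sin_sq_lt hs0 h hs.1 hs.2
    obtain ⟨h1, h2⟩ := ne_of_sq hlt
    rw [ph_add_sub h1 h2, ph_add_sub hp hm]
    have h3 : sin a ^ 2 - sin s0 ^ 2 ≠ 0 := by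
      rw [← sin_prod]; exact mul_ne_zero hp hm
    have h4 : sin s0 ^ 2 ≤ sin a ^ 2 := by
      rw [sq_le_sq, abs_of_nonneg (sin_nonneg_of_nonneg_of_le_pi h0 (by linarith [pi_pos]))]
      exact h
    have h5 : sin s ^ 2 ≤ sin s0 ^ 2 := by
      have h1 : sin s < sin s0 :=
        sin_lt_sin_of_lt_of_le_pi_div_two (by linarith [pi_pos, hs.1]) hs0 hs.2
      have h2 : 0 < sin s := sin_pos_of_pos_of_lt_pi hs.1 (by linarith [pi_pos, hs.2])
      nlinarith
    apply Real.log_le_log
    · have : 0 < |sin a ^ 2 - sin s0 ^ 2| := abs_pos.mpr h3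
      linarith
    · rw [abs_of_nonneg (by linarith), abs_of_nonneg (by linarith)]
      linarith

/-- `ph ≤ log 2` -/
lemma ph_le {x : ℝ} : ph x ≤ Real.log 2 := by
  unfold ph
  rcases eq_or_ne (sin x) 0 with h | h
  · simp [h]; positivity
  · apply Real.log_le_log
    · simpa using h
    · rw [abs_mul, abs_of_pos (by norm_num : (0:ℝ) < 2)]
      nlinarith [abs_sin_le_one x]

/-- the log of the modulus of `∏_{k=1}^n 2 sin (2 π k / r)` -/
noncomputable def LL (r n : ℕ) : ℝ := ∑ k ∈ range n, ph (2 * π / r * (k + 1))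

lemma sin_half_le {r m : ℕ} (hr : Odd r) (hm : ¬ r ∣ m) : sin (π / r) ≤ |sin (π / r * m)| := by
  have hr0 : 0 < r := hr.pos
  have hr' : (0:ℝ) < r := by exact_mod_cast hr0
  -- reduce m mod r
  have hdm := Nat.div_add_mod m r
  set d := m / r
  set c := m % r
  have hc0 : 0 < c := Nat.pos_of_ne_zero (fun h => hm (Nat.dvd_of_mod_eq_zero h))
  have hcr : c < r := Nat.mod_lt _ hr0
  have h1 : sin (π / r * m) = (-1) ^ d * sin (π / r * c) := by
    have : π / r * (m:ℝ) = π / r * c + d * π := by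
      have hh : (m:ℝ) = r * d + c := by exact_mod_cast hdm.symm
      rw [hh]; field_simp; ring
    rw [this, sin_add_nat_mul_pi]
  rw [h1, abs_mul, abs_pow, abs_neg, abs_one, one_pow, one_mul]
  have hpos : 0 < π / r := by positivity
  have hle : sin (π / r) ≤ sin (π / r * c) := by
    have hc1 : (1:ℝ) ≤ c := by exact_mod_cast hc0
    have hc2 : (c:ℝ) ≤ r - 1 := by
      have : c + 1 ≤ r := hcr
      have : ((c + 1 : ℕ) : ℝ) ≤ r := by exact_mod_cast this
      push_cast at this; linarith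
    have hx1 : π / r ≤ π / r * c := by nlinarith
    have hx2 : π / r * c ≤ π - π / r := by
      have : π / r * c ≤ π / r * (r - 1) := by
        apply mul_le_mul_of_nonneg_left hc2 hpos.le
      have h2 : π / r * (r - 1) = π - π / r := by field_simp
      linarith
    rcases le_total (π / r * c) (π / 2) with h | h
    · exact sin_le_sin_of_le_of_le_pi_div_two (by linarith [pi_pos]) h hx1
    · rw [← sin_pi_sub (π / r * c)]
      exact sin_le_sin_of_le_of_le_pi_div_two (by linarith [pi_pos]) (by linarith) (by linarith)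
  exact hle.trans (le_abs_self _)

lemma sin_pos_half {r : ℕ} (hr : 3 ≤ r) : 0 < sin (π / r) := by
  have hr' : (3:ℝ) ≤ r := by exact_mod_cast hr
  apply sin_pos_of_pos_of_lt_pi (by positivity)
  rw [div_lt_iff₀ (by linarith)]
  nlinarith [pi_pos]

lemma not_dvd_two_mul {r k : ℕ} (hr : Odd r) (h0 : 0 < k) (hk : k < r) : ¬ r ∣ 2 * k := by
  intro h
  have h2 : r ∣ k := (Nat.Coprime.dvd_of_dvd_mul_left (Nat.Coprime.symm (Nat.coprime_two_left.mpr hr)) h)
  exact absurd (Nat.le_of_dvd h0 h2) (by omega)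

lemma sin_ne {r k : ℕ} (hr : Odd r) (hr3 : 3 ≤ r) (h0 : 0 < k) (hk : k < r) :
    sin (2 * π / r * k) ≠ 0 := by
  have h := sin_half_le (m := 2 * k) hr (not_dvd_two_mul hr h0 hk)
  have h2 := sin_pos_half hr3
  intro h3
  have : π / r * ((2 * k : ℕ) : ℝ) = 2 * π / r * k := by push_cast; ring
  rw [this, h3, abs_zero] at h
  linarith

lemma LL_lower {r n : ℕ} (hr : Odd r) (hr3 : 3 ≤ r) (hn : n < r) :
    ∫ t in (π / r)..(2 * π / r * n + π / r), ph t ≤ 2 * π / r * LL r n := by
  have hr' : (3:ℝ) ≤ r := by exact_mod_cast hr3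
  induction n with
  | zero => simp [LL]
  | succ n ih =>
    have ih' := ih (by omega)
    unfold LL at ih' ⊢
    rw [sum_range_succ, mul_add]
    have hb := mid_le (a := 2 * π / r * ((n:ℝ) + 1)) (s0 := π / r) (by positivity)
      (by rw [div_le_div_iff₀ (by linarith) (by norm_num)]; nlinarith [pi_pos])
      (by
        have h := sin_half_le (m := 2 * (n + 1)) hr (not_dvd_two_mul hr (by omega) hn)
        have : π / r * ((2 * (n + 1) : ℕ) : ℝ) = 2 * π / r * ((n:ℝ) + 1) := by push_cast; ring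
        rwa [this] at h)
    have e1 : 2 * π / r * ((n:ℝ) + 1) - π / r = 2 * π / r * n + π / r := by ring
    rw [e1] at hb
    have e2 := intervalIntegral.integral_add_adjacent_intervals (ph_int (π / r) (2 * π / r * n + π / r))
      (ph_int (2 * π / r * n + π / r) (2 * π / r * ((n:ℝ) + 1) + π / r))
    push_cast
    rw [← e2]
    have e3 : 2 * (π / r) * ph (2 * π / r * ((n:ℝ) + 1)) = 2 * π / r * ph (2 * π / r * ((n:ℝ) + 1)) := by
      ring
    rw [e3] at hb
    linarith

lemma trap_step {r k : ℕ} (hr : Odd r) (hr3 : 3 ≤ r) (h0 : 0 < k) (hk : k + 1 < r)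
    (hc : ¬ r ∣ 2 * k + 1) :
    π / r * (ph (2 * π / r * (k + 1)) + ph (2 * π / r * k)) ≤
      ∫ t in (2 * π / r * k)..(2 * π / r * (k + 1)), ph t := by
  have hr' : (3:ℝ) ≤ r := by exact_mod_cast hr3
  have e1 : π / r * ((2 * k + 1 : ℕ) : ℝ) + π / r = 2 * π / r * (k + 1) := by push_cast; ring
  have e2 : π / r * ((2 * k + 1 : ℕ) : ℝ) - π / r = 2 * π / r * k := by push_cast; ring
  have h := le_trap (a := π / r * ((2 * k + 1 : ℕ) : ℝ)) (s0 := π / r) (by positivity)
      (by rw [div_le_div_iff₀ (by linarith) (by norm_num)]; nlinarith [pi_pos])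
      (sin_half_le hr hc)
      (by rw [e1]; exact_mod_cast sin_ne (k := k + 1) hr hr3 (by omega) hk)
      (by rw [e2]; exact sin_ne hr hr3 h0 (by omega))
  rwa [e1, e2] at h

end Run7.h27
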