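import Pool.Agent.Run7.h27.Riem

/-!
# Uniform Riemann sums, second part
-/

set_option autoImplicit false

namespace Run7.h27

open Real MeasureTheory intervalIntegral Filter Topology Finset

lemma Lob_unif {ε : ℝ} (hε : 0 < ε) : ∃ δ > 0, ∀ x y : ℝ, |x - y| < δ → |Lob x - Lob y| < ε := by
  have hc : UniformContinuousOn Lob (Set.Icc (-1) (π + 1)) :=
    isCompact_Icc.uniformContinuousOn_of_continuous Lob_cont.continuousOn
  rw [Metric.uniformContinuousOn_iff] at hc
  obtain ⟨δ, hδ, h⟩ := hc ε hε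
  refine ⟨min δ 1, lt_min hδ one_pos, ?_⟩
  intro x y hxy
  set n : ℤ := ⌊x / π⌋
  have hn1 : (n:ℝ) * π ≤ x := by
    have := Int.floor_le (x / π)
    rwa [le_div_iff₀ pi_pos] at this
  have hn2 : x < (n + 1) * π := by
    have := Int.lt_floor_add_one (x / π)
    rwa [div_lt_iff₀ pi_pos] at this
  have ex : Lob (x - n * π) = Lob x := Lob_per.sub_int_mul_eq n
  have ey : Lob (y - n * π) = Lob y := Lob_per.sub_int_mul_eq n
  have h1 := lt_of_lt_of_le hxy (min_le_right _ _)
  rw [abs_lt] at h1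
  have := h (x - n * π) ⟨by linarith, by linarith⟩ (y - n * π) ⟨by linarith, by linarith⟩
    (by rw [Real.dist_eq]; simpa using lt_of_lt_of_le hxy (min_le_left _ _))
  rw [Real.dist_eq, ex, ey] at this
  exact this

lemma LL_succ (r n : ℕ) : LL r (n + 1) = LL r n + ph (2 * π / r * (n + 1)) := by
  unfold LL; rw [sum_range_succ]

lemma LL_trap {r k0 : ℕ} (hr : Odd r) (hr3 : 3 ≤ r) (h0 : 0 < k0) (d : ℕ) (hn : k0 + d < r)
    (hc : ∀ k, k0 ≤ k → k < k0 + d → ¬ r ∣ 2 * k + 1) :
    2 * π / r * (LL r (k0 + d) - LL r k0) ≤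
      (Lob (2 * π / r * k0) - Lob (2 * π / r * (k0 + d : ℕ))) +
      π / r * (ph (2 * π / r * (k0 + d : ℕ)) - ph (2 * π / r * k0)) := by
  induction d with
  | zero => simp
  | succ d ih =>
    have ih' := ih (by omega) (fun k hk1 hk2 => hc k hk1 (by omega))
    have ht := trap_step (k := k0 + d) hr hr3 (by omega) (by omega) (hc (k0 + d) (by omega) (by omega))
    have hl := Lob_sub (2 * π / r * ((k0 + d : ℕ) : ℝ)) (2 * π / r * (((k0 + d : ℕ) : ℝ) + 1))
    have e1 : k0 + (d + 1) = (k0 + d) + 1 := by ring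
    rw [e1, LL_succ]
    have e2 : (((k0 + d + 1 : ℕ)) : ℝ) = ((k0 + d : ℕ) : ℝ) + 1 := by push_cast; ring
    rw [e2]
    have e3 : 2 * π / r * ph (2 * π / r * (((k0 + d : ℕ) : ℝ) + 1)) =
      π / r * (ph (2 * π / r * (((k0 + d : ℕ) : ℝ) + 1)) + ph (2 * π / r * ((k0 + d : ℕ) : ℝ))) +
      π / r * (ph (2 * π / r * (((k0 + d : ℕ) : ℝ) + 1)) - ph (2 * π / r * ((k0 + d : ℕ) : ℝ))) := by
      ring
    have e4 : 2 * π / r * (LL r (k0 + d) + ph (2 * π / r * (((k0 + d : ℕ) : ℝ) + 1)) - LL r k0) =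
      2 * π / r * (LL r (k0 + d) - LL r k0) + 2 * π / r * ph (2 * π / r * (((k0 + d : ℕ) : ℝ) + 1)) := by
      ring
    rw [e4, e3]
    have hpr : 0 ≤ π / r := by positivity
    nlinarith

lemma two_k_ne {r k : ℕ} (h : 2 * k + 1 ≠ r) (h2 : 2 * k + 1 < 2 * r) (_hr : Odd r) : ¬ r ∣ 2 * k + 1 := by
  rintro ⟨c, hc⟩
  rcases Nat.lt_or_ge c 2 with h3 | h3
  · interval_cases c <;> omega
  · nlinarith

/-- uniform asymptotics of the quantum factorial -/
theorem LL_asymp {ε : ℝ} (hε : 0 < ε) :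
    ∃ R : ℕ, 3 ≤ R ∧ ∀ r : ℕ, R ≤ r → Odd r → ∀ n : ℕ, n < r →
      |2 * π / r * LL r n + Lob (2 * π / r * n)| ≤ ε := by
  obtain ⟨δ, hδ, h⟩ := Lob_unif (show 0 < ε / 8 by positivity)
  obtain ⟨R, hR⟩ := exists_nat_gt (max (max (2 * π / δ) 3) (8 * π * Real.log 2 / (ε / 2)))
  have hR1 : 2 * π / δ < R := lt_of_le_of_lt (le_trans (le_max_left _ _) (le_max_left _ _)) hR
  have hR2 : (3:ℝ) < R := lt_of_le_of_lt (le_trans (le_max_right _ _) (le_max_left _ _)) hR
  have hR3 : 8 * π * Real.log 2 / (ε / 2) < R := lt_of_le_of_lt (le_max_right _ _) hR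
  refine ⟨R, by exact_mod_cast hR2.le, ?_⟩
  intro r hRr hr n hn
  have hRr' : (R:ℝ) ≤ r := by exact_mod_cast hRr
  have hr3 : 3 ≤ r := le_trans (by exact_mod_cast hR2.le) hRr
  have hr0 : (0:ℝ) < r := by linarith
  have hstep : 2 * π / r < δ := by
    rw [div_lt_iff₀ hr0]
    rw [div_lt_iff₀ hδ] at hR1
    nlinarith
  have hlog2 : 0 < Real.log 2 := Real.log_pos (by norm_num)
  have hbd : 4 * π / r * Real.log 2 ≤ ε / 4 := by
    have h1 : 8 * π * Real.log 2 / (ε / 2) < r := lt_of_lt_of_le hR3 hRr'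
    rw [div_lt_iff₀ (by positivity)] at h1
    rw [div_mul_eq_mul_div, div_le_iff₀ hr0]
    nlinarith
  have hs0 : 0 < 2 * π / r := by positivity
  have hs1 : 0 < π / r := by positivity
  have hs2 : π / r < δ := by
    have : π / r ≤ 2 * π / r := by
      apply div_le_div_of_nonneg_right _ hr0.le
      linarith [pi_pos]
    linarith
  have lower : -(ε / 4) ≤ 2 * π / r * LL r n + Lob (2 * π / r * n) := by
    have hl := LL_lower hr hr3 hn
    have e := Lob_sub (π / r) (2 * π / r * n + π / r)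
    have h1 := h (2 * π / r * n + π / r) (2 * π / r * n) (by
      rw [add_sub_cancel_left, abs_of_pos hs1]; exact hs2)
    have h2 := h (π / r) 0 (by rw [sub_zero, abs_of_pos hs1]; exact hs2)
    rw [Lob_zero] at h2
    rw [abs_lt] at h1 h2
    linarith
  have upper : 2 * π / r * LL r n + Lob (2 * π / r * n) ≤ ε := by
    rcases Nat.eq_zero_or_pos n with h0 | h0
    · subst h0
      simp [LL, Lob_zero]; exact hε.le
    · -- first piece
      have key1 : ∀ k : ℕ, 0 < k → 2 * k < r →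
          2 * π / r * LL r k ≤ Lob (2 * π / r) - Lob (2 * π / r * k) + 2 * π / r * Real.log 2 := by
        intro k hk hk2
        obtain ⟨d, rfl⟩ : ∃ d, k = 1 + d := ⟨k - 1, by omega⟩
        have ht := LL_trap (k0 := 1) hr hr3 one_pos d (by omega)
          (fun j hj1 hj2 => two_k_ne (by omega) (by omega) hr)
        have e1 : LL r 1 = ph (2 * π / r) := by simp [LL]
        rw [e1] at ht
        simp only [Nat.cast_one, mul_one] at ht
        have b1 : ph (2 * π / r * ((1 + d : ℕ) : ℝ)) ≤ Real.log 2 := ph_le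
        have b2 : ph (2 * π / r) ≤ Real.log 2 := ph_le
        have e2 : 2 * π / r * ph (2 * π / r) = π / r * ph (2 * π / r) + π / r * ph (2 * π / r) := by
          ring
        have e3 : 2 * π / r * Real.log 2 = π / r * Real.log 2 + π / r * Real.log 2 := by ring
        have b3 := mul_le_mul_of_nonneg_left b1 hs1.le
        have b4 := mul_le_mul_of_nonneg_left b2 hs1.le
        rw [mul_sub, mul_sub] at ht
        linarith
      have hd1 := h (2 * π / r) 0 (by rw [sub_zero, abs_of_pos hs0]; exact hstep)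
      rw [Lob_zero, abs_lt] at hd1
      have hbd2 : 2 * π / r * Real.log 2 ≤ ε / 4 := by
        have : 2 * π / r * Real.log 2 ≤ 4 * π / r * Real.log 2 := by
          apply mul_le_mul_of_nonneg_right _ hlog2.le
          apply div_le_div_of_nonneg_right _ hr0.le
          linarith [pi_pos]
        linarith
      rcases lt_or_ge (2 * n) r with hc | hc
      · have := key1 n h0 hc
        linarith
      · -- second piece
        obtain ⟨m, hm⟩ := hr
        have hm1 : 0 < m := by omega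
        have k1 := key1 m hm1 (by omega)
        obtain ⟨d, rfl⟩ : ∃ d, n = (m + 1) + d := ⟨n - (m + 1), by omega⟩
        have ht := LL_trap (k0 := m + 1) ⟨m, hm⟩ hr3 (by omega) d (by omega)
          (fun j hj1 hj2 => two_k_ne (by omega) (by omega) ⟨m, hm⟩)
        have e1 : LL r (m + 1) = LL r m + ph (2 * π / r * (m + 1)) := LL_succ r m
        rw [e1] at ht
        have b1 : ph (2 * π / r * (((m + 1) + d : ℕ) : ℝ)) ≤ Real.log 2 := ph_le
        have b2 : ph (2 * π / r * ((m:ℝ) + 1)) ≤ Real.log 2 := ph_le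
        have e2 : 2 * π / r * ph (2 * π / r * ((m:ℝ) + 1)) =
          π / r * ph (2 * π / r * ((m:ℝ) + 1)) + π / r * ph (2 * π / r * ((m:ℝ) + 1)) := by
          ring
        have e4 : 4 * π / r * Real.log 2 = 4 * (π / r * Real.log 2) := by ring
        have e5 : 2 * π / r * Real.log 2 = 2 * (π / r * Real.log 2) := by ring
        have b3 := mul_le_mul_of_nonneg_left b1 hs1.le
        have b4 := mul_le_mul_of_nonneg_left b2 hs1.le
        have hd2 := h (2 * π / r * ((m + 1 : ℕ) : ℝ)) (2 * π / r * m) (by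
          have : 2 * π / r * ((m + 1 : ℕ) : ℝ) - 2 * π / r * m = 2 * π / r := by push_cast; ring
          rw [this, abs_of_pos hs0]; exact hstep)
        rw [abs_lt] at hd2
        push_cast at ht hd2 b3 ⊢
        rw [mul_sub, mul_add, mul_sub] at ht
        linarith
  rw [abs_le]
  exact ⟨by linarith, upper⟩

end Run7.h27
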