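import Pool.Agent.Run7.h27.Angle

/-!
# Solving the critical point equation
-/

set_option autoImplicit false

namespace Run7.h27

open Real

/-- `m` -/
noncomputable def mm (β1 β2 γ1 γ2 X : ℝ) : ℝ :=
  cos ((β1 + β2 - γ1 - γ2) / 2) - X * cos ((β1 - β2 - γ1 + γ2) / 2)

/-- `n` -/
noncomputable def nn (β1 β2 γ1 γ2 X : ℝ) : ℝ :=
  X * cos ((β1 - β2 + γ1 - γ2) / 2) - cos ((β1 + β2 + γ1 + γ2) / 2)

/-- the modulus -/
noncomputable def RR (θ X : ℝ) : ℝ := sqrt (1 + 2 * X * cos θ + X ^ 2)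

/-- the angle `y` -/
noncomputable def yy (θ β1 β2 γ1 γ2 X : ℝ) : ℝ :=
  arccos (mm β1 β2 γ1 γ2 X / RR θ X) - arccos ((1 + X * cos θ) / RR θ X)

/-- the critical point -/
noncomputable def xx (φ θ β1 β2 γ1 γ2 X : ℝ) : ℝ :=
  (yy θ β1 β2 γ1 γ2 X - φ - (β1 + β2 + γ1 + γ2) / 2 + 3 * π) / 2

lemma RR_pos {θ X : ℝ} (hθ : Ang θ) (hX : 0 < X) : 0 < 1 + 2 * X * cos θ + X ^ 2 := by
  have h := sin_sq_add_cos_sq θ
  have h2 := mul_pos hX hθ.sin_pos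
  nlinarith [sq_nonneg (1 + X * cos θ), sq_pos_of_pos h2]

lemma RR_sq {θ X : ℝ} (hθ : Ang θ) (hX : 0 < X) : RR θ X ^ 2 = 1 + 2 * X * cos θ + X ^ 2 := by
  unfold RR; exact sq_sqrt (RR_pos hθ hX).le

lemma nprime_pos {φ β1 β2 γ1 γ2 X : ℝ} (hφ : Ang φ) (h1 : Ang β1) (h2 : Ang β2) (h3 : Ang γ1)
    (h4 : Ang γ2) (hDβ : 0 < Dv φ β1 β2) (hDγ : 0 < Dv φ γ1 γ2) (hX : 0 < X) :
    0 < nn β1 β2 γ1 γ2 X - mm β1 β2 γ1 γ2 X * cos φ := by
  have hB := vert_ineq1 hφ h1 h2 hDβ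
  have hG := vert_ineq1 hφ h3 h4 hDγ
  have hb := vert_ineq2 hφ h1 h2 hDβ
  have hg := vert_ineq2 hφ h3 h4 hDγ
  have hc1 : 0 < cos (φ / 2) := cos_pos_of_mem_Ioo ⟨by linarith [hφ.1], by linarith [hφ.2]⟩
  have hs1 : 0 < sin (φ / 2) := sin_pos_of_pos_of_lt_pi (by linarith [hφ.1]) (by linarith [hφ.2])
  -- first part : cos σ + cos φ cos ((B-Γ)/2) < 0
  have e1 : cos ((β1 + β2 + γ1 + γ2) / 2) + cos φ * cos ((β1 + β2 - γ1 - γ2) / 2) < 0 := by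
    -- |cot (B/2)| < tan (φ/2)
    have sB : 0 < sin ((β1 + β2) / 2) :=
      sin_pos_of_pos_of_lt_pi (by linarith [h1.1, h2.1]) (by linarith [h1.2, h2.2])
    have sG : 0 < sin ((γ1 + γ2) / 2) :=
      sin_pos_of_pos_of_lt_pi (by linarith [h3.1, h4.1]) (by linarith [h3.2, h4.2])
    have a1 : 0 < sin (φ / 2) * sin ((β1 + β2) / 2) - cos (φ / 2) * cos ((β1 + β2) / 2) := by
      have : cos (φ / 2 + (β1 + β2) / 2) < 0 :=
        cos_neg_of_pi_div_two_lt_of_lt (by linarith) (by linarith [h1.2, h2.2, hφ.2])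
      rw [cos_add] at this; linarith
    have a2 : 0 < sin (φ / 2) * sin ((β1 + β2) / 2) + cos (φ / 2) * cos ((β1 + β2) / 2) := by
      have : 0 < cos (φ / 2 - (β1 + β2) / 2) :=
        cos_pos_of_mem_Ioo ⟨by linarith, by linarith [h1.1, h2.1, hφ.2]⟩
      rw [cos_sub] at this; linarith
    have b1 : 0 < sin (φ / 2) * sin ((γ1 + γ2) / 2) - cos (φ / 2) * cos ((γ1 + γ2) / 2) := by
      have : cos (φ / 2 + (γ1 + γ2) / 2) < 0 :=
        cos_neg_of_pi_div_two_lt_of_lt (by linarith) (by linarith [h3.2, h4.2, hφ.2])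
      rw [cos_add] at this; linarith
    have b2 : 0 < sin (φ / 2) * sin ((γ1 + γ2) / 2) + cos (φ / 2) * cos ((γ1 + γ2) / 2) := by
      have : 0 < cos (φ / 2 - (γ1 + γ2) / 2) :=
        cos_pos_of_mem_Ioo ⟨by linarith, by linarith [h3.1, h4.1, hφ.2]⟩
      rw [cos_sub] at this; linarith
    have e : cos ((β1 + β2 + γ1 + γ2) / 2) + cos φ * cos ((β1 + β2 - γ1 - γ2) / 2) =
        -((sin (φ / 2) * sin ((β1 + β2) / 2) - cos (φ / 2) * cos ((β1 + β2) / 2)) *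
          (sin (φ / 2) * sin ((γ1 + γ2) / 2) + cos (φ / 2) * cos ((γ1 + γ2) / 2)) +
          (sin (φ / 2) * sin ((β1 + β2) / 2) + cos (φ / 2) * cos ((β1 + β2) / 2)) *
          (sin (φ / 2) * sin ((γ1 + γ2) / 2) - cos (φ / 2) * cos ((γ1 + γ2) / 2))) := by
      rw [show (β1 + β2 + γ1 + γ2) / 2 = (β1 + β2) / 2 + (γ1 + γ2) / 2 by ring,
        show (β1 + β2 - γ1 - γ2) / 2 = (β1 + β2) / 2 - (γ1 + γ2) / 2 by ring,
        cos_add, cos_sub, show cos φ = cos (φ / 2) ^ 2 - sin (φ / 2) ^ 2 by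
          rw [← cos_two_mul']; congr 1; ring]
      have h := sin_sq_add_cos_sq (φ / 2)
      linear_combination (-(cos ((β1 + β2) / 2) * cos ((γ1 + γ2) / 2) -
        sin ((β1 + β2) / 2) * sin ((γ1 + γ2) / 2))) * h
    rw [e]
    have := mul_pos a1 b2
    have := mul_pos a2 b1
    linarith
  have e2 : 0 < cos ((β1 - β2 + γ1 - γ2) / 2) + cos φ * cos ((β1 - β2 - γ1 + γ2) / 2) := by
    have a1 : 0 < cos (φ / 2) * cos ((β1 - β2) / 2) - sin (φ / 2) * sin ((β1 - β2) / 2) := by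
      have : 0 < cos (φ / 2 + (β1 - β2) / 2) :=
        cos_pos_of_mem_Ioo ⟨by linarith [h1.1, h2.2, hφ.1], by linarith⟩
      rw [cos_add] at this; linarith
    have a2 : 0 < cos (φ / 2) * cos ((β1 - β2) / 2) + sin (φ / 2) * sin ((β1 - β2) / 2) := by
      have : 0 < cos (φ / 2 - (β1 - β2) / 2) :=
        cos_pos_of_mem_Ioo ⟨by linarith [h1.2, h2.1, hφ.1], by linarith⟩
      rw [cos_sub] at this; linarith
    have b1 : 0 < cos (φ / 2) * cos ((γ1 - γ2) / 2) - sin (φ / 2) * sin ((γ1 - γ2) / 2) := by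
      have : 0 < cos (φ / 2 + (γ1 - γ2) / 2) :=
        cos_pos_of_mem_Ioo ⟨by linarith [h3.1, h4.2, hφ.1], by linarith⟩
      rw [cos_add] at this; linarith
    have b2 : 0 < cos (φ / 2) * cos ((γ1 - γ2) / 2) + sin (φ / 2) * sin ((γ1 - γ2) / 2) := by
      have : 0 < cos (φ / 2 - (γ1 - γ2) / 2) :=
        cos_pos_of_mem_Ioo ⟨by linarith [h3.2, h4.1, hφ.1], by linarith⟩
      rw [cos_sub] at this; linarith
    have e : cos ((β1 - β2 + γ1 - γ2) / 2) + cos φ * cos ((β1 - β2 - γ1 + γ2) / 2) =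
        ((cos (φ / 2) * cos ((β1 - β2) / 2) - sin (φ / 2) * sin ((β1 - β2) / 2)) *
          (cos (φ / 2) * cos ((γ1 - γ2) / 2) + sin (φ / 2) * sin ((γ1 - γ2) / 2)) +
          (cos (φ / 2) * cos ((β1 - β2) / 2) + sin (φ / 2) * sin ((β1 - β2) / 2)) *
          (cos (φ / 2) * cos ((γ1 - γ2) / 2) - sin (φ / 2) * sin ((γ1 - γ2) / 2))) := by
      rw [show (β1 - β2 + γ1 - γ2) / 2 = (β1 - β2) / 2 + (γ1 - γ2) / 2 by ring,
        show (β1 - β2 - γ1 + γ2) / 2 = (β1 - β2) / 2 - (γ1 - γ2) / 2 by ring,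
        cos_add, cos_sub, show cos φ = cos (φ / 2) ^ 2 - sin (φ / 2) ^ 2 by
          rw [← cos_two_mul']; congr 1; ring]
      have h := sin_sq_add_cos_sq (φ / 2)
      linear_combination (-(cos ((β1 - β2) / 2) * cos ((γ1 - γ2) / 2) -
        sin ((β1 - β2) / 2) * sin ((γ1 - γ2) / 2))) * h
    rw [e]
    have := mul_pos a1 b2
    have := mul_pos a2 b1
    linarith
  unfold nn mm
  nlinarith [mul_pos hX e2]

/-- the modulus identity implied by the quadratic equation -/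
lemma modulus {φ θ β1 β2 γ1 γ2 X : ℝ}
    (hq : AA φ β1 β2 γ1 γ2 * X ^ 2 - 2 * Cof φ θ β1 β2 γ1 γ2 * X + CC φ β1 β2 γ1 γ2 = 0) :
    sin φ ^ 2 * (1 + 2 * X * cos θ + X ^ 2) =
      mm β1 β2 γ1 γ2 X ^ 2 + nn β1 β2 γ1 γ2 X ^ 2 -
        2 * mm β1 β2 γ1 γ2 X * nn β1 β2 γ1 γ2 X * cos φ := by
  unfold mm nn
  set C1 := cos ((β1 + β2 - γ1 - γ2) / 2) with hC1
  set C2 := cos ((β1 - β2 - γ1 + γ2) / 2) with hC2
  set C3 := cos ((β1 + β2 + γ1 + γ2) / 2) with hC3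
  set C4 := cos ((β1 - β2 + γ1 - γ2) / 2) with hC4
  have p11 : 2 * C1 ^ 2 = 1 + cos (β1 + β2 - γ1 - γ2) := by
    have := cos_sq ((β1 + β2 - γ1 - γ2) / 2)
    rw [hC1, this, show 2 * ((β1 + β2 - γ1 - γ2) / 2) = β1 + β2 - γ1 - γ2 by ring]; ring
  have p33 : 2 * C3 ^ 2 = 1 + cos (β1 + β2 + γ1 + γ2) := by
    have := cos_sq ((β1 + β2 + γ1 + γ2) / 2)
    rw [hC3, this, show 2 * ((β1 + β2 + γ1 + γ2) / 2) = β1 + β2 + γ1 + γ2 by ring]; ring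
  have p22 : 2 * C2 ^ 2 = 1 + cos (β1 - β2 - γ1 + γ2) := by
    have := cos_sq ((β1 - β2 - γ1 + γ2) / 2)
    rw [hC2, this, show 2 * ((β1 - β2 - γ1 + γ2) / 2) = β1 - β2 - γ1 + γ2 by ring]; ring
  have p44 : 2 * C4 ^ 2 = 1 + cos (β1 - β2 + γ1 - γ2) := by
    have := cos_sq ((β1 - β2 + γ1 - γ2) / 2)
    rw [hC4, this, show 2 * ((β1 - β2 + γ1 - γ2) / 2) = β1 - β2 + γ1 - γ2 by ring]; ring
  have prod : ∀ a b : ℝ, 2 * (cos a * cos b) = cos (a + b) + cos (a - b) := by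
    intro a b; rw [cos_add, cos_sub]; ring
  have p13 : 2 * (C1 * C3) = cos (β1 + β2) + cos (γ1 + γ2) := by
    rw [hC1, hC3, prod]; congr 1
    · congr 1; ring
    · rw [← cos_neg]; congr 1; ring
  have p24 : 2 * (C2 * C4) = cos (β1 - β2) + cos (γ1 - γ2) := by
    rw [hC2, hC4, prod]; congr 1
    · congr 1; ring
    · rw [← cos_neg]; congr 1; ring
  have p12 : 2 * (C1 * C2) = cos (β1 - γ1) + cos (β2 - γ2) := by
    rw [hC1, hC2, prod]; congr 1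
    · congr 1; ring
    · congr 1; ring
  have p34 : 2 * (C3 * C4) = cos (β1 + γ1) + cos (β2 + γ2) := by
    rw [hC3, hC4, prod]; congr 1
    · congr 1; ring
    · congr 1; ring
  have p14 : 2 * (C1 * C4) = cos (β1 - γ2) + cos (β2 - γ1) := by
    rw [hC1, hC4, prod]; congr 1
    · congr 1; ring
    · congr 1; ring
  have p23 : 2 * (C2 * C3) = cos (β1 + γ2) + cos (β2 + γ1) := by
    rw [hC2, hC3, prod]; congr 1
    · congr 1; ring
    · rw [← cos_neg]; congr 1; ring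
  unfold AA CC Cof at hq
  have q1 : cos (β1 + β2 - γ1 - γ2) + cos (β1 + β2 + γ1 + γ2) = 2 * cos (β1 + β2) * cos (γ1 + γ2) := by
    rw [show β1 + β2 - γ1 - γ2 = (β1 + β2) - (γ1 + γ2) by ring,
      show β1 + β2 + γ1 + γ2 = (β1 + β2) + (γ1 + γ2) by ring, cos_sub (β1 + β2), cos_add (β1 + β2)]; ring
  have q2 : cos (β1 - β2 - γ1 + γ2) + cos (β1 - β2 + γ1 - γ2) = 2 * cos (β1 - β2) * cos (γ1 - γ2) := by
    rw [show β1 - β2 - γ1 + γ2 = (β1 - β2) - (γ1 - γ2) by ring,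
      show β1 - β2 + γ1 - γ2 = (β1 - β2) + (γ1 - γ2) by ring, cos_sub (β1 - β2) (γ1 - γ2), cos_add (β1 - β2)]; ring
  have r1 : cos (β1 - γ1) + cos (β1 + γ1) = 2 * cos β1 * cos γ1 := by
    rw [cos_sub, cos_add]; ring
  have r2 : cos (β2 - γ2) + cos (β2 + γ2) = 2 * cos β2 * cos γ2 := by
    rw [cos_sub, cos_add]; ring
  have r3 : cos (β1 - γ2) + cos (β1 + γ2) = 2 * cos β1 * cos γ2 := by
    rw [cos_sub, cos_add]; ring
  have r4 : cos (β2 - γ1) + cos (β2 + γ1) = 2 * cos β2 * cos γ1 := by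
    rw [cos_sub, cos_add]; ring
  have h2 := sin_sq_add_cos_sq φ
  linear_combination hq * (-1) + X ^ 2 * (-1 / 2 * p22 - 1 / 2 * p44 - 1 / 2 * q2 + h2 - cos φ * p24) +
    X * (p12 + p34 + r1 + r2 + cos φ * (p14 + p23 + r3 + r4)) +
    (-1 / 2 * p11 - 1 / 2 * p33 - 1 / 2 * q1 + h2 - cos φ * p13)

lemma arccos_sin_of {m n R : ℝ} (hn : 0 < n) (hR : 0 < R) (h : m ^ 2 + n ^ 2 = R ^ 2) :
    cos (arccos (m / R)) = m / R ∧ sin (arccos (m / R)) = n / R ∧ Ang (arccos (m / R)) := by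
  have h1 : (m / R) ^ 2 + (n / R) ^ 2 = 1 := by
    rw [div_pow, div_pow, ← add_div, h, div_self (by positivity)]
  have h2 : 0 < n / R := by positivity
  have h3 : -1 < m / R ∧ m / R < 1 := by
    constructor <;> nlinarith [sq_nonneg (m / R), sq_pos_of_pos h2]
  refine ⟨cos_arccos h3.1.le h3.2.le, ?_, ?_, ?_⟩
  · rw [sin_arccos, show 1 - (m / R) ^ 2 = (n / R) ^ 2 by linarith, sqrt_sq h2.le]
  · exact arccos_pos.mpr h3.2
  · exact arccos_lt_pi.mpr h3.1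

/-- existence of the critical angle -/
lemma yy_spec {φ θ β1 β2 γ1 γ2 X : ℝ} (hφ : Ang φ) (hθ : Ang θ) (h1 : Ang β1) (h2 : Ang β2)
    (h3 : Ang γ1) (h4 : Ang γ2) (hDβ : 0 < Dv φ β1 β2) (hDγ : 0 < Dv φ γ1 γ2) (hX : 0 < X)
    (hq : AA φ β1 β2 γ1 γ2 * X ^ 2 - 2 * Cof φ θ β1 β2 γ1 γ2 * X + CC φ β1 β2 γ1 γ2 = 0) :
    cos ((β1 + β2 - γ1 - γ2) / 2) - cos (yy θ β1 β2 γ1 γ2 X) =
      X * (cos ((β1 - β2 - γ1 + γ2) / 2) + cos (yy θ β1 β2 γ1 γ2 X + θ)) ∧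
    cos ((β1 + β2 + γ1 + γ2) / 2) + cos (yy θ β1 β2 γ1 γ2 X - φ) =
      X * (cos ((β1 - β2 + γ1 - γ2) / 2) - cos (yy θ β1 β2 γ1 γ2 X - φ + θ)) ∧
    -π < yy θ β1 β2 γ1 γ2 X ∧ yy θ β1 β2 γ1 γ2 X < π := by
  have hn := nprime_pos hφ h1 h2 h3 h4 hDβ hDγ hX
  have hmod := modulus hq
  have hRp := RR_pos hθ hX
  have hR2 := RR_sq hθ hX
  have hR : 0 < RR θ X := by unfold RR; exact sqrt_pos.mpr hRp
  set m := mm β1 β2 γ1 γ2 X with hm
  set n := nn β1 β2 γ1 γ2 X with hn'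
  set R := RR θ X with hR'
  have hs := hφ.sin_pos
  have hsθ := hθ.sin_pos
  obtain ⟨N, hN, hn1⟩ : ∃ N, N * sin φ = n - m * cos φ ∧ 0 < N :=
    ⟨(n - m * cos φ) / sin φ, by field_simp, div_pos hn hs⟩
  have e1 : m ^ 2 + N ^ 2 = R ^ 2 := by
    rw [hR2]
    have h := sin_sq_add_cos_sq φ
    have hh : sin φ ^ 2 * (m ^ 2 + N ^ 2) = sin φ ^ 2 * (1 + 2 * X * cos θ + X ^ 2) := by
      linear_combination (-1 : ℝ) * hmod + m ^ 2 * h + (N * sin φ + (n - m * cos φ)) * hN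
    exact mul_left_cancel₀ (by positivity) hh
  obtain ⟨cw, sw, aw⟩ := arccos_sin_of hn1 hR e1
  have e2 : (1 + X * cos θ) ^ 2 + (X * sin θ) ^ 2 = R ^ 2 := by
    rw [hR2]
    have h := sin_sq_add_cos_sq θ
    linear_combination X ^ 2 * h
  obtain ⟨ce, se, ae⟩ := arccos_sin_of (mul_pos hX hsθ) hR e2
  have hy : yy θ β1 β2 γ1 γ2 X = arccos (m / R) - arccos ((1 + X * cos θ) / R) := rfl
  set w := arccos (m / R)
  set ε := arccos ((1 + X * cos θ) / R)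
  have hcy : cos (w - ε) = (m * (1 + X * cos θ) + N * (X * sin θ)) / R ^ 2 := by
    rw [cos_sub, cw, ce, sw, se]
    field_simp
  have hsy : sin (w - ε) = (N * (1 + X * cos θ) - m * (X * sin θ)) / R ^ 2 := by
    rw [sin_sub, cw, ce, sw, se]
    field_simp
  have hR2' : R ^ 2 ≠ 0 := by positivity
  -- real part
  have k1 : cos (w - ε) * (1 + X * cos θ) - sin (w - ε) * (X * sin θ) = m := by
    rw [hcy, hsy, div_mul_eq_mul_div, div_mul_eq_mul_div, ← sub_div, div_eq_iff hR2', ← e2]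
    ring
  have k2 : sin (w - ε) * (1 + X * cos θ) + cos (w - ε) * (X * sin θ) = N := by
    rw [hcy, hsy, div_mul_eq_mul_div, div_mul_eq_mul_div, ← add_div, div_eq_iff hR2', ← e2]
    ring
  have k2' : sin φ * (sin (w - ε) * (1 + X * cos θ) + cos (w - ε) * (X * sin θ)) = n - m * cos φ := by
    rw [k2, ← hN]; ring
  rw [hy]
  refine ⟨?_, ?_, by linarith [aw.1, ae.2], by linarith [aw.2, ae.1]⟩
  · rw [cos_add (w - ε)]
    have : cos ((β1 + β2 - γ1 - γ2) / 2) = m + X * cos ((β1 - β2 - γ1 + γ2) / 2) := by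
      rw [hm]; unfold mm; ring
    rw [this]
    linear_combination (-1 : ℝ) * k1
  · rw [show w - ε - φ + θ = (w - ε - φ) + θ by ring, cos_add (w - ε - φ), cos_sub (w - ε) φ, sin_sub (w - ε) φ]
    have : cos ((β1 + β2 + γ1 + γ2) / 2) = X * cos ((β1 - β2 + γ1 - γ2) / 2) - n := by
      rw [hn']; unfold nn; ring
    rw [this]
    linear_combination cos φ * k1 + k2'

/-- the edge equations in terms of `x` -/
lemma xx_spec {φ θ β1 β2 γ1 γ2 X : ℝ} (hφ : Ang φ) (hθ : Ang θ) (h1 : Ang β1) (h2 : Ang β2)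
    (h3 : Ang γ1) (h4 : Ang γ2) (hDβ : 0 < Dv φ β1 β2) (hDγ : 0 < Dv φ γ1 γ2) (hX : 0 < X)
    (hq : AA φ β1 β2 γ1 γ2 * X ^ 2 - 2 * Cof φ θ β1 β2 γ1 γ2 * X + CC φ β1 β2 γ1 γ2 = 0) {x : ℝ}
    (hx : x = xx φ θ β1 β2 γ1 γ2 X) :
    sin (x - Tv φ β1 β2) * sin (x - Tv φ γ1 γ2) =
      X * (sin (Qv φ θ γ1 β2 - x) * sin (Qv φ θ β1 γ2 - x)) ∧
    sin (2 * π - x) * sin (Qv β1 β2 γ1 γ2 - x) =
      X * (sin (x - Tv θ β1 γ1) * sin (x - Tv θ β2 γ2)) ∧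
    -π < (x - Tv φ β1 β2) + (x - Tv φ γ1 γ2) ∧ (x - Tv φ β1 β2) + (x - Tv φ γ1 γ2) < π := by
  obtain ⟨a1, a2, a3, a4⟩ := yy_spec hφ hθ h1 h2 h3 h4 hDβ hDγ hX hq
  set y := yy θ β1 β2 γ1 γ2 X with hy
  have hx' : 2 * x = y - φ - (β1 + β2 + γ1 + γ2) / 2 + 3 * π := by
    rw [hx]; unfold xx; rw [← hy]; ring
  have hs : (x - Tv φ β1 β2) + (x - Tv φ γ1 γ2) = y := by
    unfold Tv; linarith
  refine ⟨?_, ?_, by rw [hs]; exact a3, by rw [hs]; exact a4⟩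
  · rw [sin_mul_sin, sin_mul_sin, hs]
    have e1 : (x - Tv φ β1 β2) - (x - Tv φ γ1 γ2) = (β1 + β2 - γ1 - γ2) / 2 := by unfold Tv; ring
    have e2 : cos ((Qv φ θ γ1 β2 - x) - (Qv φ θ β1 γ2 - x)) = cos ((β1 - β2 - γ1 + γ2) / 2) := by
      congr 1; unfold Qv; ring
    have e3 : cos ((Qv φ θ γ1 β2 - x) + (Qv φ θ β1 γ2 - x)) = -cos (y + θ) := by
      rw [← cos_pi_sub]; congr 1; unfold Qv; linarith
    rw [e1, e2, e3]
    linear_combination (1 / 2 : ℝ) * a1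
  · rw [sin_mul_sin, sin_mul_sin]
    have e1 : cos ((2 * π - x) - (Qv β1 β2 γ1 γ2 - x)) = cos ((β1 + β2 + γ1 + γ2) / 2) := by
      congr 1; unfold Qv; ring
    have e2 : cos ((2 * π - x) + (Qv β1 β2 γ1 γ2 - x)) = -cos (y - φ) := by
      rw [← cos_pi_sub]
      congr 1
      unfold Qv
      linarith
    have e3 : cos ((x - Tv θ β1 γ1) - (x - Tv θ β2 γ2)) = cos ((β1 - β2 + γ1 - γ2) / 2) := by
      congr 1; unfold Tv; ring
    have e4 : (x - Tv θ β1 γ1) + (x - Tv θ β2 γ2) = y - φ + θ := by unfold Tv; linarith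
    rw [e1, e2, e3, e4]
    linear_combination (1 / 2 : ℝ) * a2

end Run7.h27
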