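import Pool.Agent.Run7.h27.Flip

/-!
# Sequences of colourings and reduction to the case `2 π col / r → π - θ`
-/

set_option autoImplicit false

namespace Run7.h27

open Real Set Filter Topology

/-- sequences of admissible colourings with the required limits -/
def ColLim (c : ℕ → Fin 4 → Fin 4 → ℕ) (θ : Fin 4 → Fin 4 → ℝ) : Prop :=
  (∀ᶠ r in oddTop, AdmColoring r (c r)) ∧
  ∀ i j, i ≠ j → (Tendsto (fun r : ℕ => 2 * π / r * (c r i j : ℝ)) oddTop (𝓝 (π + θ i j)) ∨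
    Tendsto (fun r : ℕ => 2 * π / r * (c r i j : ℝ)) oddTop (𝓝 (π - θ i j)))

lemma ev_r (n : ℕ) : ∀ᶠ r in oddTop, n ≤ r := ev_of_ge n (fun _ h _ => h)

lemma ev_odd : ∀ᶠ r in oddTop, Odd r := ev_of_ge 0 (fun _ _ h => h)

lemma tendsto_two_pi_sub {f : ℕ → ℕ} {g : ℕ → ℕ} {a : ℝ}
    (h : Tendsto (fun r : ℕ => 2 * π / r * (f r : ℝ)) oddTop (𝓝 a))
    (hfg : ∀ᶠ r in oddTop, g r + f r + 2 = r) :
    Tendsto (fun r : ℕ => 2 * π / r * (g r : ℝ)) oddTop (𝓝 (2 * π - a)) := by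
  have h1 : Tendsto (fun r : ℕ => 4 * π / (r:ℝ)) oddTop (𝓝 0) :=
    (tendsto_const_div_atTop_nhds_zero_nat (4 * π)).mono_left oddTop_le
  have h2 := ((tendsto_const_nhds (x := 2 * π) (f := oddTop)).sub h).sub h1
  rw [sub_zero] at h2
  apply h2.congr'
  filter_upwards [hfg, ev_r 3] with r hr hr3
  have hr' : (0:ℝ) < r := by exact_mod_cast (by omega : 0 < r)
  have e : (g r : ℝ) = r - f r - 2 := by
    have : ((g r + f r + 2 : ℕ) : ℝ) = r := by rw [hr]
    push_cast at this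
    linarith
  rw [e]
  field_simp
  ring

lemma flip_eq {r : ℕ} {c : Fin 4 → Fin 4 → ℕ} {v i j : Fin 4} (h : i = v ∨ j = v) :
    flip r v c i j = c i j := by
  unfold flip; rw [if_pos h]

lemma flip_ne {r : ℕ} {c : Fin 4 → Fin 4 → ℕ} {v i j : Fin 4} (hr3 : 3 ≤ r) (hc : AdmColoring r c)
    (hij : i ≠ j) (h : ¬ (i = v ∨ j = v)) : flip r v c i j + c i j + 2 = r := by
  unfold flip; rw [if_neg h]
  have := hc.le hr3 hij
  omega

lemma flip_adm {r : ℕ} {c : Fin 4 → Fin 4 → ℕ} (hr3 : 3 ≤ r) (h : AdmColoring r c) {v : Fin 4}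
    (hv : v ≠ 3) : AdmColoring r (flip r v c) := by
  fin_cases v
  · exact flip0_adm hr3 h
  · exact flip1_adm hr3 h
  · exact flip2_adm hr3 h
  · exact absurd rfl hv

lemma flip_Kb {r : ℕ} {c : Fin 4 → Fin 4 → ℕ} (hr3 : 3 ≤ r) (h : AdmColoring r c) {v : Fin 4}
    (hv : v ≠ 3) : Kb r (TZ (flip r v c)) (QZ r (flip r v c)) = Kb r (TZ c) (QZ r c) := by
  fin_cases v
  · exact flip0_Kb hr3 h
  · exact flip1_Kb hr3 h
  · exact flip2_Kb hr3 h
  · exact absurd rfl hv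

/-- one step of the reduction -/
lemma ColLim.flip {c : ℕ → Fin 4 → Fin 4 → ℕ} {θ : Fin 4 → Fin 4 → ℝ} (h : ColLim c θ) {v : Fin 4}
    (hv : v ≠ 3) : ColLim (fun r => flip r v (c r)) θ := by
  refine ⟨?_, ?_⟩
  · filter_upwards [h.1, ev_r 3] with r h1 h2
    exact flip_adm h2 h1 hv
  · intro i j hij
    by_cases hc : i = v ∨ j = v
    · have e : (fun r : ℕ => 2 * π / r * (Run7.h27.flip r v (c r) i j : ℝ)) =
        fun r : ℕ => 2 * π / r * (c r i j : ℝ) := by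
        funext r; rw [flip_eq hc]
      rw [e]; exact h.2 i j hij
    · have ev : ∀ᶠ r in oddTop, Run7.h27.flip r v (c r) i j + c r i j + 2 = r := by
        filter_upwards [h.1, ev_r 3] with r h1 h2
        exact flip_ne h2 h1 hij hc
      rcases h.2 i j hij with h1 | h1
      · right
        have := tendsto_two_pi_sub h1 ev
        rwa [show 2 * π - (π + θ i j) = π - θ i j by ring] at this
      · left
        have := tendsto_two_pi_sub h1 ev
        rwa [show 2 * π - (π - θ i j) = π + θ i j by ring] at this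

/-- minus at an edge -/
def Mi (c : ℕ → Fin 4 → Fin 4 → ℕ) (θ : Fin 4 → Fin 4 → ℝ) (i j : Fin 4) : Prop :=
  Tendsto (fun r : ℕ => 2 * π / r * (c r i j : ℝ)) oddTop (𝓝 (π - θ i j))

/-- plus at an edge -/
def Pl (c : ℕ → Fin 4 → Fin 4 → ℕ) (θ : Fin 4 → Fin 4 → ℝ) (i j : Fin 4) : Prop :=
  Tendsto (fun r : ℕ => 2 * π / r * (c r i j : ℝ)) oddTop (𝓝 (π + θ i j))

lemma Mi.flip {c : ℕ → Fin 4 → Fin 4 → ℕ} {θ : Fin 4 → Fin 4 → ℝ} {v i j : Fin 4} (h : Mi c θ i j)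
    (hc : i = v ∨ j = v) : Mi (fun r => Run7.h27.flip r v (c r)) θ i j := by
  unfold Mi at *
  have e : (fun r : ℕ => 2 * π / r * (Run7.h27.flip r v (c r) i j : ℝ)) =
    fun r : ℕ => 2 * π / r * (c r i j : ℝ) := by
    funext r; rw [flip_eq hc]
  rwa [e]

lemma Pl.flip {c : ℕ → Fin 4 → Fin 4 → ℕ} {θ : Fin 4 → Fin 4 → ℝ} {v i j : Fin 4} (h : Pl c θ i j)
    (hA : ∀ᶠ r in oddTop, AdmColoring r (c r)) (hij : i ≠ j) (hc : ¬ (i = v ∨ j = v)) :
    Mi (fun r => Run7.h27.flip r v (c r)) θ i j := by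
  unfold Mi Pl at *
  have ev : ∀ᶠ r in oddTop, Run7.h27.flip r v (c r) i j + c r i j + 2 = r := by
    filter_upwards [hA, ev_r 3] with r h1 h2
    exact flip_ne h2 h1 hij hc
  have := tendsto_two_pi_sub h ev
  rwa [show 2 * π - (π + θ i j) = π - θ i j by ring] at this

/-- two sequences with the same bracket -/
def Same (c c' : ℕ → Fin 4 → Fin 4 → ℕ) : Prop :=
  ∀ᶠ r in oddTop, Kb r (TZ (c' r)) (QZ r (c' r)) = Kb r (TZ (c r)) (QZ r (c r))

lemma Same.flip {c : ℕ → Fin 4 → Fin 4 → ℕ} (hA : ∀ᶠ r in oddTop, AdmColoring r (c r)) {v : Fin 4}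
    (hv : v ≠ 3) : Same c (fun r => Run7.h27.flip r v (c r)) := by
  unfold Same
  filter_upwards [hA, ev_r 3] with r h1 h2
  exact flip_Kb h2 h1 hv

lemma Same.trans {c c' c'' : ℕ → Fin 4 → Fin 4 → ℕ} (h1 : Same c c') (h2 : Same c' c'') :
    Same c c'' := by
  unfold Same at *
  filter_upwards [h1, h2] with r a b
  rw [b, a]

lemma Same.refl (c : ℕ → Fin 4 → Fin 4 → ℕ) : Same c c :=
  Filter.Eventually.of_forall (fun _ => rfl)

/-- a triple with limits `-, -, +` contradicts regularity of the vertex -/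
lemma not_plus {f g h : ℕ → ℕ} {a b c : ℝ} (hA : ∀ᶠ r in oddTop, h r ≤ f r + g r)
    (hf : Tendsto (fun r : ℕ => 2 * π / r * (f r : ℝ)) oddTop (𝓝 (π - a)))
    (hg : Tendsto (fun r : ℕ => 2 * π / r * (g r : ℝ)) oddTop (𝓝 (π - b)))
    (hh : Tendsto (fun r : ℕ => 2 * π / r * (h r : ℝ)) oddTop (𝓝 (π + c))) :
    a + b + c ≤ π := by
  have h1 := hf.add hg
  have : π + c ≤ π - a + (π - b) := by
    apply le_of_tendsto_of_tendsto hh h1
    filter_upwards [hA, ev_r 3] with r h2 h3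
    have hr' : (0:ℝ) < r := by exact_mod_cast (by omega : 0 < r)
    have h4 : (h r : ℝ) ≤ f r + g r := by exact_mod_cast h2
    have : 0 ≤ 2 * π / (r:ℝ) := by positivity
    nlinarith [mul_le_mul_of_nonneg_left h4 this]
  linarith

theorem reduce {c : ℕ → Fin 4 → Fin 4 → ℕ} {θ : Fin 4 → Fin 4 → ℝ} (h : ColLim c θ)
    (v0 : π < θ 0 1 + θ 0 2 + θ 0 3) (v1 : π < θ 0 1 + θ 1 2 + θ 1 3)
    (v2 : π < θ 0 2 + θ 1 2 + θ 2 3) :
    ∃ c', (∀ᶠ r in oddTop, AdmColoring r (c' r)) ∧ Same c c' ∧ Mi c' θ 0 1 ∧ Mi c' θ 0 2 ∧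
      Mi c' θ 0 3 ∧ Mi c' θ 1 2 ∧ Mi c' θ 1 3 ∧ Mi c' θ 2 3 := by
  -- step 1
  obtain ⟨c1, h1, s1, m01⟩ : ∃ c1, ColLim c1 θ ∧ Same c c1 ∧ Mi c1 θ 0 1 := by
    rcases h.2 0 1 (by decide) with h01 | h01
    · exact ⟨_, h.flip (v := 2) (by decide), Same.flip h.1 (by decide),
        Pl.flip h01 h.1 (by decide) (by decide)⟩
    · exact ⟨c, h, Same.refl c, h01⟩
  -- step 2
  obtain ⟨c2, h2, s2, m01', m02⟩ : ∃ c2, ColLim c2 θ ∧ Same c c2 ∧ Mi c2 θ 0 1 ∧ Mi c2 θ 0 2 := by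
    rcases h1.2 0 2 (by decide) with h02 | h02
    · exact ⟨_, h1.flip (v := 1) (by decide), s1.trans (Same.flip h1.1 (by decide)),
        m01.flip (by decide), Pl.flip h02 h1.1 (by decide) (by decide)⟩
    · exact ⟨c1, h1, s1, m01, h02⟩
  -- step 3
  obtain ⟨c3, h3, s3, m01, m02, m12⟩ : ∃ c3, ColLim c3 θ ∧ Same c c3 ∧ Mi c3 θ 0 1 ∧ Mi c3 θ 0 2 ∧
      Mi c3 θ 1 2 := by
    rcases h2.2 1 2 (by decide) with h12 | h12
    · exact ⟨_, h2.flip (v := 0) (by decide), s2.trans (Same.flip h2.1 (by decide)),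
        m01'.flip (by decide), m02.flip (by decide), Pl.flip h12 h2.1 (by decide) (by decide)⟩
    · exact ⟨c2, h2, s2, m01', m02, h12⟩
  have hA := h3.1
  have m03 : Mi c3 θ 0 3 := by
    rcases h3.2 0 3 (by decide) with h03 | h03
    · exfalso
      have := not_plus (f := fun r => c3 r 0 1) (g := fun r => c3 r 0 2) (h := fun r => c3 r 0 3)
        (by filter_upwards [hA] with r hr; exact hr.triples.1.2.2.2.1) m01 m02 h03
      linarith
    · exact h03
  have m13 : Mi c3 θ 1 3 := by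
    rcases h3.2 1 3 (by decide) with h03 | h03
    · exfalso
      have := not_plus (f := fun r => c3 r 0 1) (g := fun r => c3 r 1 2) (h := fun r => c3 r 1 3)
        (by filter_upwards [hA] with r hr; exact hr.triples.2.1.2.2.2.1) m01 m12 h03
      linarith
    · exact h03
  have m23 : Mi c3 θ 2 3 := by
    rcases h3.2 2 3 (by decide) with h03 | h03
    · exfalso
      have := not_plus (f := fun r => c3 r 0 2) (g := fun r => c3 r 1 2) (h := fun r => c3 r 2 3)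
        (by filter_upwards [hA] with r hr; exact hr.triples.2.2.1.2.2.2.1) m02 m12 h03
      linarith
    · exact h03
  exact ⟨c3, hA, s3, m01, m02, m03, m12, m13, m23⟩

end Run7.h27
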