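import Pool.Agent.Run7.h27.Root

/-!
# The sign lemma: locating the critical points
-/

set_option autoImplicit false

namespace Run7.h27

open Real

lemma sin_shift_prod (k : ℤ) (a b : ℝ) :
    sin (a + k * π) * sin (b + k * π) = sin a * sin b := by
  rw [sin_add_int_mul_pi, sin_add_int_mul_pi]
  rcases Int.even_or_odd k with h | h
  · rw [h.neg_one_zpow]; ring
  · rw [h.neg_one_zpow]; ring

lemma pos_V {q x : ℝ} (h : 0 < sin (q - x)) (hq : 0 < q) (hx2 : x < 2 * π) :
    x < q ∨ q + π < x := by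
  by_contra hc
  push Not at hc
  have : sin (q - x) ≤ 0 := sin_nonpos_of_nonpos_of_neg_pi_le (by linarith) (by linarith)
  linarith

lemma neg_U {t x : ℝ} (h : sin (x - t) < 0) (ht : t < π) (hx : π < x) : t + π < x := by
  by_contra hc
  push Not at hc
  have : 0 ≤ sin (x - t) := sin_nonneg_of_nonneg_of_le_pi (by linarith) (by linarith)
  linarith

lemma pos_U {t x : ℝ} (h : 0 < sin (x - t)) (ht : 0 < t) (hx : π < x) (hx2 : x < 2 * π) :
    x < t + π := by
  by_contra hc
  push Not at hc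
  have h1 : 0 ≤ sin (x - t - π) := sin_nonneg_of_nonneg_of_le_pi (by linarith) (by linarith)
  rw [sin_sub_pi] at h1
  linarith

lemma sgn_core {t3 t4 t5 t6 qL qa qb x : ℝ}
    (ht3 : Ang t3) (ht4 : Ang t4) (ht5 : Ang t5) (ht6 : Ang t6)
    (hL : π < qL) (hL3 : qL < t3 + π) (hL4 : qL < t4 + π) (hL5 : qL < t5 + π) (hL6 : qL < t6 + π)
    (ha3 : t3 < qa) (ha3' : qa < t3 + π) (ha4 : t4 < qa) (ha4' : qa < t4 + π)
    (hb3 : t3 < qb) (hb3' : qb < t3 + π) (hb4 : t4 < qb) (hb4' : qb < t4 + π)
    (hx : π < x) (hx2 : x < 2 * π)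
    (h34 : 0 < (sin (x - t3) * sin (x - t4)) * (sin (qa - x) * sin (qb - x)))
    (h35 : 0 < (sin (x - t3) * sin (x - t5)) * (sin (qL - x) * sin (qb - x)))
    (h36 : 0 < (sin (x - t3) * sin (x - t6)) * (sin (qL - x) * sin (qa - x)))
    (hc : sin (x - t3) * sin (x - t4) * (sin (x - t5) * sin (x - t6)) =
      sin (2 * π - x) * sin (qL - x) * (sin (qa - x) * sin (qb - x))) :
    x < qL ∧ x < qa ∧ x < qb := by
  have hV0 : 0 < sin (2 * π - x) := sin_pos_of_pos_of_lt_pi (by linarith) (by linarith)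
  set U3 := sin (x - t3) with hU3
  set U4 := sin (x - t4) with hU4
  set U5 := sin (x - t5) with hU5
  set U6 := sin (x - t6) with hU6
  set VL := sin (qL - x) with hVL
  set Va := sin (qa - x) with hVa
  set Vb := sin (qb - x) with hVb
  set V0 := sin (2 * π - x) with hV0'
  have hprod : 0 < VL * Va * Vb := by
    have h1 := mul_pos (mul_pos h34 h35) h36
    have h2 : (U3 * U4 * (Va * Vb)) * (U3 * U5 * (VL * Vb)) * (U3 * U6 * (VL * Va)) =
        (U3 * (VL * Va * Vb)) ^ 2 * V0 * (VL * Va * Vb) := by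
      linear_combination (U3 ^ 2 * (VL * Va * Vb) ^ 2) * hc
    rw [h2] at h1
    by_contra hneg
    push Not at hneg
    have : (U3 * (VL * Va * Vb)) ^ 2 * V0 * (VL * Va * Vb) ≤ 0 :=
      mul_nonpos_of_nonneg_of_nonpos (by positivity) hneg
    linarith
  have fL := fun h : 0 < VL => (pos_V h (by linarith [pi_pos]) hx2)
  have fa := fun h : 0 < Va => (pos_V h (by linarith [ht3.1]) hx2)
  have fb := fun h : 0 < Vb => (pos_V h (by linarith [ht3.1]) hx2)
  have g3 := fun h : U3 < 0 => (neg_U h ht3.2 hx)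
  have g4 := fun h : U4 < 0 => (neg_U h ht4.2 hx)
  have k3 := fun h : 0 < U3 => (pos_U h ht3.1 hx hx2)
  have k4 := fun h : 0 < U4 => (pos_U h ht4.1 hx hx2)
  have g5 := fun h : U5 < 0 => (neg_U h ht5.2 hx)
  rcases lt_trichotomy VL 0 with hl | hl | hl
  · -- VL < 0
    have hab : Va * Vb < 0 := by
      by_contra hh
      push Not at hh
      nlinarith
    have h34' : U3 * U4 < 0 := by
      by_contra hh
      push Not at hh
      nlinarith [mul_nonneg hh (neg_nonneg.mpr hab.le)]
    have hU : (t3 + π < x ∧ x < t4 + π) ∨ (t4 + π < x ∧ x < t3 + π) := by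
      rcases lt_trichotomy U3 0 with h | h | h
      · left; exact ⟨g3 h, k4 (by by_contra hh; push Not at hh; nlinarith)⟩
      · rw [h] at h34'; linarith
      · right; exact ⟨g4 (by by_contra hh; push Not at hh; nlinarith), k3 h⟩
    exfalso
    rcases lt_trichotomy Va 0 with h | h | h
    · have hb : 0 < Vb := by by_contra hh; push Not at hh; nlinarith
      rcases fb hb with h1 | h1 <;> rcases hU with ⟨h2, h3⟩ | ⟨h2, h3⟩ <;> linarith
    · rw [h] at hab; linarith
    · rcases fa h with h1 | h1 <;> rcases hU with ⟨h2, h3⟩ | ⟨h2, h3⟩ <;> linarith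
  · rw [hl] at hprod; simp at hprod
  · -- VL > 0
    have hxL : x < qL := by
      rcases fL hl with h | h
      · exact h
      · linarith
    have hU3 : 0 < U3 := sin_pos_of_pos_of_lt_pi (by linarith [ht3.2]) (by linarith)
    have hU4 : 0 < U4 := sin_pos_of_pos_of_lt_pi (by linarith [ht4.2]) (by linarith)
    have hU5 : 0 < U5 := sin_pos_of_pos_of_lt_pi (by linarith [ht5.2]) (by linarith)
    have hU6 : 0 < U6 := sin_pos_of_pos_of_lt_pi (by linarith [ht6.2]) (by linarith)
    have hb : 0 < Vb := by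
      by_contra hh
      push Not at hh
      have h1 : VL * Vb ≤ 0 := mul_nonpos_of_nonneg_of_nonpos hl.le hh
      have h2 : 0 < U3 * U5 := mul_pos hU3 hU5
      nlinarith
    have ha : 0 < Va := by
      by_contra hh
      push Not at hh
      have h1 : VL * Va ≤ 0 := mul_nonpos_of_nonneg_of_nonpos hl.le hh
      have h2 : 0 < U3 * U6 := mul_pos hU3 hU6
      nlinarith
    refine ⟨hxL, ?_, ?_⟩
    · rcases fa ha with h | h
      · exact h
      · linarith
    · rcases fb hb with h | h
      · exact h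
      · linarith

lemma locate {t3 t4 t5 t6 qL qa qb x : ℝ}
    (ht3 : Ang t3) (ht4 : Ang t4) (ht5 : Ang t5) (ht6 : Ang t6)
    (hL : π < qL) (hL3 : qL < t3 + π) (hL4 : qL < t4 + π) (hL5 : qL < t5 + π) (hL6 : qL < t6 + π)
    (ha3 : t3 < qa) (ha3' : qa < t3 + π) (ha4 : t4 < qa) (ha4' : qa < t4 + π)
    (hb3 : t3 < qb) (hb3' : qb < t3 + π) (hb4 : t4 < qb) (hb4' : qb < t4 + π)
    (hab : qa + qb - t3 - t4 < π)
    (hy1 : -π < (x - t3) + (x - t4)) (hy2 : (x - t3) + (x - t4) < π)
    (h34 : 0 < (sin (x - t3) * sin (x - t4)) * (sin (qa - x) * sin (qb - x)))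
    (h35 : 0 < (sin (x - t3) * sin (x - t5)) * (sin (qL - x) * sin (qb - x)))
    (h36 : 0 < (sin (x - t3) * sin (x - t6)) * (sin (qL - x) * sin (qa - x)))
    (hc : sin (x - t3) * sin (x - t4) * (sin (x - t5) * sin (x - t6)) =
      sin (2 * π - x) * sin (qL - x) * (sin (qa - x) * sin (qb - x)))
    (h0 : sin (2 * π - x) ≠ 0) :
    π < x ∧ x < qL ∧ x < qa ∧ x < qb := by
  obtain ⟨k, hk1, hk2⟩ : ∃ k : ℤ, π ≤ x + k * π ∧ x + k * π < 2 * π := by
    refine ⟨1 - ⌊x / π⌋, ?_, ?_⟩
    · have := Int.floor_le (x / π)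
      rw [le_div_iff₀ pi_pos] at this
      push_cast
      linarith
    · have := Int.lt_floor_add_one (x / π)
      rw [div_lt_iff₀ pi_pos] at this
      push_cast
      linarith
  have hk1' : π < x + k * π := by
    rcases lt_or_eq_of_le hk1 with h | h
    · exact h
    · exfalso
      apply h0
      have : 2 * π - x = ((1 + k : ℤ) : ℝ) * π := by push_cast; linarith
      rw [this, sin_int_mul_pi]
  have e : ∀ q : ℝ, sin (q - (x + k * π)) = sin ((q - x) + ((-k : ℤ) : ℝ) * π) := by
    intro q; congr 1; push_cast; ring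
  have e' : ∀ t : ℝ, sin (x + k * π - t) = sin ((x - t) + (k : ℝ) * π) := by
    intro t; congr 1; ring
  have main := sgn_core (x := x + k * π) ht3 ht4 ht5 ht6 hL hL3 hL4 hL5 hL6 ha3 ha3' ha4 ha4'
    hb3 hb3' hb4 hb4' hk1' hk2
    (by
      rw [e', e', e, e, sin_shift_prod, sin_shift_prod]; exact h34)
    (by
      rw [e', e', e, e, sin_shift_prod, sin_shift_prod]; exact h35)
    (by
      rw [e', e', e, e, sin_shift_prod, sin_shift_prod]; exact h36)
    (by
      rw [e', e', e', e', e, e, e, e, sin_shift_prod, sin_shift_prod, sin_shift_prod,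
        sin_shift_prod]; exact hc)
  obtain ⟨m1, m2, m3⟩ := main
  have hk0 : k = 0 := by
    have b1 : 0 < (x + k * π - t3) + (x + k * π - t4) := by linarith [ht3.2, ht4.2]
    have b2 : (x + k * π - t3) + (x + k * π - t4) < π := by linarith
    have b3 : (-1:ℝ) < k := by
      by_contra hh
      push Not at hh
      nlinarith [pi_pos]
    have b4 : (k:ℝ) < 1 := by
      by_contra hh
      push Not at hh
      nlinarith [pi_pos]
    have b3' : (-1:ℤ) < k := by exact_mod_cast b3
    have b4' : (k:ℤ) < 1 := by exact_mod_cast b4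
    omega
  rw [hk0] at hk1' m1 m2 m3
  simp only [Int.cast_zero, zero_mul, add_zero] at hk1' m1 m2 m3
  exact ⟨hk1', m1, m2, m3⟩

/-- ratios of sines increase -/
lemma ratio_mono {t q x x' : ℝ} (ht : t < x) (hxx : x < x') (hq : x' < q) (hqt : q < t + π) :
    sin (x - t) / sin (q - x) < sin (x' - t) / sin (q - x') := by
  have h1 : 0 < sin (q - x) := sin_pos_of_pos_of_lt_pi (by linarith) (by linarith)
  have h2 : 0 < sin (q - x') := sin_pos_of_pos_of_lt_pi (by linarith) (by linarith)
  rw [div_lt_div_iff₀ h1 h2]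
  have e : sin (x' - t) * sin (q - x) - sin (x - t) * sin (q - x') = sin (x' - x) * sin (q - t) := by
    rw [sin_mul_sin, sin_mul_sin, sin_mul_sin]
    rw [show x' - t - (q - x) = x - t - (q - x') by ring,
      show x' - t + (q - x) = x' - x + (q - t) by ring,
      show x - t + (q - x') = -(x' - x - (q - t)) by ring, cos_neg]
    ring
  have h3 : 0 < sin (x' - x) * sin (q - t) := by
    apply mul_pos
    · exact sin_pos_of_pos_of_lt_pi (by linarith) (by linarith)
    · exact sin_pos_of_pos_of_lt_pi (by linarith) (by linarith)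
  linarith

end Run7.h27
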