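import Pool.Agent.Run7.h27.Two

/-!
# Tetrahedra in standard position

The tetrahedron is the intersection, in the Klein model, of the half-spaces `y ≥ 0`,
`x sin φ - y cos φ ≥ 0`, `a₁ x + a₂ y ≤ z` and `b₁ x + b₂ y + z cosh t ≤ sinh t`.
-/

set_option autoImplicit false

namespace Run7.h27

open Real

/-- normalising factor of a face -/
noncomputable def lm (a1 a2 : ℝ) : ℝ := 1 / sqrt (1 + a1 ^ 2 + a2 ^ 2)

/-- component along the direction `φ` -/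
noncomputable def hA (a1 a2 φ : ℝ) : ℝ := a1 * cos φ + a2 * sin φ

/-- component across the direction `φ` -/
noncomputable def hT (a1 a2 φ : ℝ) : ℝ := a1 * sin φ - a2 * cos φ

lemma N_pos (a1 a2 : ℝ) : 0 < 1 + a1 ^ 2 + a2 ^ 2 := by positivity

lemma lm_pos (a1 a2 : ℝ) : 0 < lm a1 a2 := by unfold lm; have := N_pos a1 a2; positivity

lemma lm_sq (a1 a2 : ℝ) : lm a1 a2 ^ 2 * (1 + a1 ^ 2 + a2 ^ 2) = 1 := by
  unfold lm
  have := N_pos a1 a2
  rw [div_pow, one_pow, sq_sqrt this.le]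
  field_simp

lemma hA_hT (a1 a2 φ : ℝ) : hA a1 a2 φ ^ 2 + hT a1 a2 φ ^ 2 = a1 ^ 2 + a2 ^ 2 := by
  unfold hA hT
  have h := sin_sq_add_cos_sq φ
  linear_combination (a1 ^ 2 + a2 ^ 2) * h

lemma lm_bound {a1 a2 x : ℝ} (h : x ^ 2 < 1 + a1 ^ 2 + a2 ^ 2) : -1 < lm a1 a2 * x ∧ lm a1 a2 * x < 1 := by
  have h1 := lm_sq a1 a2
  have h2 := lm_pos a1 a2
  have h3 : (lm a1 a2 * x) ^ 2 < 1 := by
    rw [mul_pow, ← h1]
    exact mul_lt_mul_of_pos_left h (by positivity)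
  rw [← abs_lt]
  exact (sq_lt_one_iff_abs_lt_one _).mp h3

/-- dihedral angle with the wall `y = 0` -/
noncomputable def be1 (a1 a2 : ℝ) : ℝ := arccos (lm a1 a2 * a2)

/-- dihedral angle with the wall in direction `φ` -/
noncomputable def be2 (a1 a2 φ : ℝ) : ℝ := arccos (lm a1 a2 * hT a1 a2 φ)

/-- dihedral angle of the faces `3` and `4` -/
noncomputable def tht (a1 a2 b1 b2 t : ℝ) : ℝ :=
  arccos (lm a1 a2 * lm b1 b2 * (cosh t - (a1 * b1 + a2 * b2)))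

lemma cos_be1 (a1 a2 : ℝ) : cos (be1 a1 a2) = lm a1 a2 * a2 ∧ Ang (be1 a1 a2) := by
  obtain ⟨h1, h2⟩ := lm_bound (a1 := a1) (a2 := a2) (x := a2) (by nlinarith [sq_nonneg a1])
  exact ⟨cos_arccos h1.le h2.le, arccos_pos.mpr h2, arccos_lt_pi.mpr h1⟩

lemma cos_be2 (a1 a2 φ : ℝ) : cos (be2 a1 a2 φ) = lm a1 a2 * hT a1 a2 φ ∧ Ang (be2 a1 a2 φ) := by
  obtain ⟨h1, h2⟩ := lm_bound (a1 := a1) (a2 := a2) (x := hT a1 a2 φ)
    (by nlinarith [sq_nonneg (hA a1 a2 φ), hA_hT a1 a2 φ])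
  exact ⟨cos_arccos h1.le h2.le, arccos_pos.mpr h2, arccos_lt_pi.mpr h1⟩

/-- the quadratic form at direction `φ` -/
noncomputable def Qf (a1 a2 b1 b2 t φ : ℝ) : ℝ :=
  hA a1 a2 φ ^ 2 + hA b1 b2 φ ^ 2 + 2 * hA a1 a2 φ * hA b1 b2 φ * cosh t - sinh t ^ 2

/-- compactness of the slice at direction `φ` -/
structure Slice (a1 a2 b1 b2 t φ : ℝ) : Prop where
  P : 0 < hA b1 b2 φ + hA a1 a2 φ * cosh t
  Q : 0 < Qf a1 a2 b1 b2 t φ

lemma Qf_id (a1 a2 b1 b2 t φ : ℝ) :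
    (hA b1 b2 φ + hA a1 a2 φ * cosh t) ^ 2 = Qf a1 a2 b1 b2 t φ + sinh t ^ 2 * (1 + hA a1 a2 φ ^ 2) := by
  unfold Qf
  have := cosh_sq t
  linear_combination (hA a1 a2 φ ^ 2) * this

lemma Qf_id' (a1 a2 b1 b2 t φ : ℝ) :
    (hA a1 a2 φ + hA b1 b2 φ * cosh t) ^ 2 = Qf a1 a2 b1 b2 t φ + sinh t ^ 2 * (1 + hA b1 b2 φ ^ 2) := by
  unfold Qf
  have := cosh_sq t
  linear_combination (hA b1 b2 φ ^ 2) * this

/-- the other positivity -/
lemma Slice.P' {a1 a2 b1 b2 t φ : ℝ} (h : Slice a1 a2 b1 b2 t φ) :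
    0 < hA a1 a2 φ + hA b1 b2 φ * cosh t := by
  obtain ⟨hP, hQ⟩ := h
  unfold Qf at hQ
  have hC : 1 ≤ cosh t := one_le_cosh t
  set A := hA a1 a2 φ
  set B := hA b1 b2 φ
  set C := cosh t
  by_contra hh
  push Not at hh
  rcases le_or_gt 0 B with hB | hB
  · have h1 : A ≤ -B * C := by linarith
    have h2 : A * C ≤ -B * C * C := mul_le_mul_of_nonneg_right h1 (by linarith)
    have h3 : B ≤ B * C := le_mul_of_one_le_right hB hC
    have h4 : B * C ≤ B * C * C := le_mul_of_one_le_right (by positivity) hC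
    linarith
  · have hA0 : 0 < A := by
      by_contra h0
      push Not at h0
      nlinarith
    nlinarith [mul_nonneg hA0.le (neg_nonneg.mpr hh), mul_pos (neg_pos.mpr hB) hP, sq_nonneg (sinh t)]

lemma Slice.sum_pos {a1 a2 b1 b2 t φ : ℝ} (h : Slice a1 a2 b1 b2 t φ) :
    0 < hA a1 a2 φ + hA b1 b2 φ := by
  have h1 := h.P
  have h2 := h.P'
  have hC : 1 ≤ cosh t := one_le_cosh t
  have : 0 < (hA a1 a2 φ + hA b1 b2 φ) * (1 + cosh t) := by linarith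
  by_contra hh
  push Not at hh
  nlinarith

/-- a tetrahedron in standard position -/
structure Std (a1 a2 b1 b2 t φ : ℝ) : Prop where
  aφ : Ang φ
  ht : 0 < t
  s0 : Slice a1 a2 b1 b2 t 0
  s1 : Slice a1 a2 b1 b2 t φ

lemma hA_zero (a1 a2 : ℝ) : hA a1 a2 0 = a1 := by unfold hA; simp

/-- the linear form of the homogeneous coordinates of the vertex -/
lemma hA_interp (a1 a2 φ ψ : ℝ) :
    hA a1 a2 ψ * sin φ = hA a1 a2 0 * sin (φ - ψ) + hA a1 a2 φ * sin ψ := by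
  unfold hA
  rw [sin_sub, cos_zero, sin_zero]
  ring

/-- all intermediate slices are compact -/
lemma Std.slice {a1 a2 b1 b2 t φ ψ : ℝ} (h : Std a1 a2 b1 b2 t φ) (h0 : 0 ≤ ψ) (h1 : ψ ≤ φ) :
    Slice a1 a2 b1 b2 t ψ := by
  obtain ⟨aφ, ht, s0, s1⟩ := h
  have hs := aφ.sin_pos
  have ha : 0 ≤ sin (φ - ψ) := sin_nonneg_of_nonneg_of_le_pi (by linarith) (by linarith [aφ.2])
  have hb : 0 ≤ sin ψ := sin_nonneg_of_nonneg_of_le_pi h0 (by linarith [aφ.2])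
  have hab : 0 < sin (φ - ψ) + sin ψ := by
    rcases eq_or_lt_of_le h0 with h2 | h2
    · rw [← h2]; simpa using hs
    · have : 0 < sin ψ := sin_pos_of_pos_of_lt_pi h2 (by linarith [aφ.2])
      linarith
  have iA := hA_interp a1 a2 φ ψ
  have iB := hA_interp b1 b2 φ ψ
  have q0 := Qf_id a1 a2 b1 b2 t 0
  have q1 := Qf_id a1 a2 b1 b2 t φ
  have qψ := Qf_id a1 a2 b1 b2 t ψ
  have P0 := s0.P
  have P1 := s1.P
  have Q0 := s0.Q
  have Q1 := s1.Q
  have hsh : 0 < sinh t := sinh_pos_iff.mpr ht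
  set A := hA a1 a2 ψ
  set B := hA b1 b2 ψ
  set A0 := hA a1 a2 0
  set B0 := hA b1 b2 0
  set A1 := hA a1 a2 φ
  set B1 := hA b1 b2 φ
  set C := cosh t
  set p := sin (φ - ψ)
  set q := sin ψ
  have hPs : (B + A * C) * sin φ = (B0 + A0 * C) * p + (B1 + A1 * C) * q := by
    linear_combination iB + C * iA
  have hP : 0 < B + A * C := by
    have : 0 < (B + A * C) * sin φ := by
      rw [hPs]
      rcases eq_or_lt_of_le ha with h2 | h2
      · rw [← h2] at hab ⊢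
        have : 0 < q := by linarith
        have := mul_pos P1 this
        linarith
      · have := mul_pos P0 h2
        have := mul_nonneg P1.le hb
        linarith
    exact pos_of_mul_pos_left this hs.le
  refine ⟨hP, ?_⟩
  -- the norm of the space part
  have e : (cos ψ) ^ 2 + (sin ψ) ^ 2 = 1 := by rw [add_comm]; exact sin_sq_add_cos_sq ψ
  -- use : u = cosh-part, |v| the space part, v linear
  -- u0 > s * sqrt (1 + A0^2), u1 > s * sqrt (1 + A1 ^ 2)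
  have k0 : sinh t * sqrt (1 + A0 ^ 2) < B0 + A0 * C := by
    rw [← sqrt_sq P0.le, q0, ← sqrt_sq hsh.le, ← sqrt_mul (by positivity), sqrt_sq hsh.le]
    apply sqrt_lt_sqrt (by positivity); linarith
  have k1 : sinh t * sqrt (1 + A1 ^ 2) < B1 + A1 * C := by
    rw [← sqrt_sq P1.le, q1, ← sqrt_sq hsh.le, ← sqrt_mul (by positivity), sqrt_sq hsh.le]
    apply sqrt_lt_sqrt (by positivity); linarith
  -- triangle inequality : sqrt(1+A^2) sin φ ≤ p sqrt(1+A0^2) + q sqrt(1+A1^2)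
  have e2 : sin φ ^ 2 = p ^ 2 + q ^ 2 + 2 * p * q * cos φ := by
    have h1 : φ = (φ - ψ) + ψ := by ring
    have h2 := sin_sq_add_cos_sq (φ - ψ)
    have h3 := sin_sq_add_cos_sq ψ
    have h4 : sin φ = p * cos ψ + cos (φ - ψ) * q := by
      conv_lhs => rw [h1]
      rw [sin_add]
    have h5 : cos φ = cos (φ - ψ) * cos ψ - p * q := by
      conv_lhs => rw [h1]
      rw [cos_add]
    rw [h4, h5]
    linear_combination (q ^ 2) * h2 + (p ^ 2) * h3
  have k2 : sqrt (1 + A ^ 2) * sin φ ≤ p * sqrt (1 + A0 ^ 2) + q * sqrt (1 + A1 ^ 2) := by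
    have l0 : 0 ≤ sqrt (1 + A0 ^ 2) := sqrt_nonneg _
    have l1 : 0 ≤ sqrt (1 + A1 ^ 2) := sqrt_nonneg _
    have m0 : sqrt (1 + A0 ^ 2) ^ 2 = 1 + A0 ^ 2 := sq_sqrt (by positivity)
    have m1 : sqrt (1 + A1 ^ 2) ^ 2 = 1 + A1 ^ 2 := sq_sqrt (by positivity)
    have mA : sqrt (1 + A ^ 2) ^ 2 = 1 + A ^ 2 := sq_sqrt (by positivity)
    apply abs_le_of_sq_le_sq' _ (by positivity) |>.2
    have hcs : 1 + A0 * A1 ≤ sqrt (1 + A0 ^ 2) * sqrt (1 + A1 ^ 2) := by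
      rw [← sqrt_mul (by positivity)]
      apply le_sqrt_of_sq_le
      nlinarith [sq_nonneg (A0 - A1)]
    have e3 : (sqrt (1 + A ^ 2) * sin φ) ^ 2 = sin φ ^ 2 + (A0 * p + A1 * q) ^ 2 := by
      rw [mul_pow, mA, ← iA]; ring
    rw [e3, e2]
    have hpq := mul_nonneg ha hb
    have hc1 : cos φ ≤ 1 := cos_le_one φ
    nlinarith [mul_le_mul_of_nonneg_left hcs hpq, mul_le_mul_of_nonneg_left hc1 hpq]
  have k3 : sinh t * sqrt (1 + A ^ 2) < B + A * C := by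
    have h3 : sinh t * sqrt (1 + A ^ 2) * sin φ < (B + A * C) * sin φ := by
      rw [hPs]
      have h4 : sinh t * (sqrt (1 + A ^ 2) * sin φ) ≤
          sinh t * (p * sqrt (1 + A0 ^ 2) + q * sqrt (1 + A1 ^ 2)) :=
        mul_le_mul_of_nonneg_left k2 hsh.le
      have h5 : sinh t * (p * sqrt (1 + A0 ^ 2) + q * sqrt (1 + A1 ^ 2)) <
          (B0 + A0 * C) * p + (B1 + A1 * C) * q := by
        rcases eq_or_lt_of_le ha with h2 | h2
        · rw [← h2] at hab ⊢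
          have : 0 < q := by linarith
          nlinarith [mul_lt_mul_of_pos_right k1 this]
        · nlinarith [mul_lt_mul_of_pos_right k0 h2, mul_le_mul_of_nonneg_right k1.le hb]
      linarith
    exact lt_of_mul_lt_mul_right h3 hs.le
  have k4 : sinh t ^ 2 * (1 + A ^ 2) < (B + A * C) ^ 2 := by
    have h5 : (sinh t * sqrt (1 + A ^ 2)) ^ 2 < (B + A * C) ^ 2 := by
      apply pow_lt_pow_left₀ k3 (by positivity) (by norm_num)
    rwa [mul_pow, sq_sqrt (by positivity)] at h5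
  rw [qψ] at k4
  linarith

lemma Std.sub {a1 a2 b1 b2 t φ ψ : ℝ} (h : Std a1 a2 b1 b2 t φ) (h0 : 0 < ψ) (h1 : ψ ≤ φ) :
    Std a1 a2 b1 b2 t ψ :=
  ⟨⟨h0, by linarith [h.aφ.2]⟩, h.ht, h.s0, h.slice h0.le h1⟩

end Run7.h27
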