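import Pool.Agent.Run7.h27.Std

/-!
# Dihedral angles of tetrahedra in standard position
-/

set_option autoImplicit false

namespace Run7.h27

open Real

lemma sin_sq_of {x y : ℝ} (h : cos x = y) : sin x ^ 2 = 1 - y ^ 2 := by
  have := sin_sq_add_cos_sq x
  rw [h] at this; linarith

section

variable (a1 a2 b1 b2 t φ : ℝ)

lemma D3_std : Dv φ (be1 a1 a2) (be2 a1 a2 φ) = lm a1 a2 ^ 2 * sin φ ^ 2 := by
  have hs := sin_sq_add_cos_sq φ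
  have hL := lm_sq a1 a2
  unfold Dv
  rw [(cos_be1 a1 a2).1, (cos_be2 a1 a2 φ).1]
  unfold hT
  set L := lm a1 a2
  set s := sin φ
  set c := cos φ
  linear_combination (-(1 - c ^ 2)) * hL + L ^ 2 * (-1 - a1 ^ 2) * hs

lemma D5_alg {L M C S : ℝ} (hL : L ^ 2 * (1 + a1 ^ 2 + a2 ^ 2) = 1)
    (hM : M ^ 2 * (1 + b1 ^ 2 + b2 ^ 2) = 1) (hC : C ^ 2 = S ^ 2 + 1) :
    1 - (L * a2) ^ 2 - (M * b2) ^ 2 - (L * M * (C - (a1 * b1 + a2 * b2))) ^ 2 -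
      2 * (L * M * (C - (a1 * b1 + a2 * b2))) * (L * a2) * (M * b2) =
    L ^ 2 * M ^ 2 * (a1 ^ 2 + b1 ^ 2 + 2 * a1 * b1 * C - S ^ 2) := by
  linear_combination (-(M ^ 2 * (1 + b1 ^ 2 + b2 ^ 2)) + M ^ 2 * b2 ^ 2) * hL +
    (-1 + L ^ 2 * a2 ^ 2) * hM - L ^ 2 * M ^ 2 * hC

/-- the angle `θ` is well defined -/
lemma cos_tht (h : 0 < Qf a1 a2 b1 b2 t 0) :
    cos (tht a1 a2 b1 b2 t) = lm a1 a2 * lm b1 b2 * (cosh t - (a1 * b1 + a2 * b2)) ∧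
      Ang (tht a1 a2 b1 b2 t) := by
  have hL := lm_sq a1 a2
  have hM := lm_sq b1 b2
  have key := D5_alg a1 a2 b1 b2 hL hM (cosh_sq t)
  unfold Qf at h
  rw [hA_zero, hA_zero] at h
  have hLp := lm_pos a1 a2
  have hMp := lm_pos b1 b2
  have b1' := (lm_bound (a1 := a1) (a2 := a2) (x := a2) (by nlinarith [sq_nonneg a1]))
  have b2' := (lm_bound (a1 := b1) (a2 := b2) (x := b2) (by nlinarith [sq_nonneg b1]))
  have hpos : 0 < lm a1 a2 ^ 2 * lm b1 b2 ^ 2 *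
      (a1 ^ 2 + b1 ^ 2 + 2 * a1 * b1 * cosh t - sinh t ^ 2) := by positivity
  rw [← key] at hpos
  set k := lm a1 a2 * lm b1 b2 * (cosh t - (a1 * b1 + a2 * b2)) with hk
  set c := lm a1 a2 * a2
  set g := lm b1 b2 * b2
  have hk1 : k < 1 := by
    by_contra hh
    push Not at hh
    have h1 : 0 < 1 + c * g := by nlinarith
    have h2 : (1 + c * g) ^ 2 ≤ (k + c * g) ^ 2 := by
      apply pow_le_pow_left₀ h1.le; linarith
    nlinarith [sq_nonneg (c + g)]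
  have hk2 : -1 < k := by
    by_contra hh
    push Not at hh
    have h1 : 0 < 1 - c * g := by nlinarith
    have h2 : (1 - c * g) ^ 2 ≤ (-(k + c * g)) ^ 2 := by
      apply pow_le_pow_left₀ h1.le; linarith
    nlinarith [sq_nonneg (c - g)]
  exact ⟨cos_arccos hk2.le hk1.le, arccos_pos.mpr hk1, arccos_lt_pi.mpr hk2⟩

variable {a1 a2 b1 b2 t φ}

lemma D5_std (h : 0 < Qf a1 a2 b1 b2 t 0) :
    Dv (tht a1 a2 b1 b2 t) (be1 a1 a2) (be1 b1 b2) =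
      lm a1 a2 ^ 2 * lm b1 b2 ^ 2 * Qf a1 a2 b1 b2 t 0 := by
  have key := D5_alg a1 a2 b1 b2 (lm_sq a1 a2) (lm_sq b1 b2) (cosh_sq t)
  unfold Dv Qf
  rw [hA_zero, hA_zero, (cos_be1 a1 a2).1, (cos_be1 b1 b2).1, (cos_tht a1 a2 b1 b2 t h).1]
  rw [← key]; ring

lemma D6_std (h : 0 < Qf a1 a2 b1 b2 t 0) :
    Dv (tht a1 a2 b1 b2 t) (be2 a1 a2 φ) (be2 b1 b2 φ) =
      lm a1 a2 ^ 2 * lm b1 b2 ^ 2 * Qf a1 a2 b1 b2 t φ := by
  have hs := sin_sq_add_cos_sq φ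
  have hL := lm_sq a1 a2
  have hM := lm_sq b1 b2
  have hC := cosh_sq t
  unfold Dv
  rw [(cos_be2 a1 a2 φ).1, (cos_be2 b1 b2 φ).1, (cos_tht a1 a2 b1 b2 t h).1]
  unfold Qf hA hT
  set L := lm a1 a2
  set M := lm b1 b2
  set s := sin φ
  set c := cos φ
  set C := cosh t
  set S := sinh t
  linear_combination (-(M ^ 2 * (1 + b1 ^ 2 + b2 ^ 2)) + M ^ 2 * (b1 * s - b2 * c) ^ 2) * hL +
    (-1 + L ^ 2 * (a1 * s - a2 * c) ^ 2) * hM - L ^ 2 * M ^ 2 * hC +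
    L ^ 2 * M ^ 2 * (-2 * C * a1 * b1 - 2 * C * a2 * b2 + 2 * a1 * a2 * b1 * b2 - 1 * a1 ^ 2 -
      1 * a1 ^ 2 * b2 ^ 2 - 1 * a2 ^ 2 - 1 * a2 ^ 2 * b1 ^ 2 - 1 * b1 ^ 2 - 1 * b2 ^ 2) * hs

lemma Cof34_std (h : 0 < Qf a1 a2 b1 b2 t 0) :
    Cof φ (tht a1 a2 b1 b2 t) (be1 a1 a2) (be2 a1 a2 φ) (be1 b1 b2) (be2 b1 b2 φ) =
      lm a1 a2 * lm b1 b2 * sin φ ^ 2 * cosh t := by
  have hs := sin_sq_add_cos_sq φ
  unfold Cof
  rw [(cos_be1 a1 a2).1, (cos_be1 b1 b2).1, (cos_be2 a1 a2 φ).1, (cos_be2 b1 b2 φ).1,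
    (cos_tht a1 a2 b1 b2 t h).1]
  unfold hT
  set L := lm a1 a2
  set M := lm b1 b2
  set s := sin φ
  set c := cos φ
  linear_combination (L * M * (-1 * a2 * b2)) * hs

lemma Cof35_std (h : 0 < Qf a1 a2 b1 b2 t 0) :
    Cof (be1 a1 a2) (be2 b1 b2 φ) φ (be2 a1 a2 φ) (be1 b1 b2) (tht a1 a2 b1 b2 t) =
      lm a1 a2 ^ 2 * lm b1 b2 * sin φ * (hA b1 b2 0 + hA a1 a2 0 * cosh t) := by
  have hL := lm_sq a1 a2
  unfold Cof
  rw [sin_sq_of (cos_be1 a1 a2).1, (cos_be1 a1 a2).1, (cos_be1 b1 b2).1, (cos_be2 a1 a2 φ).1,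
    (cos_be2 b1 b2 φ).1, (cos_tht a1 a2 b1 b2 t h).1, hA_zero, hA_zero]
  unfold hT
  set L := lm a1 a2
  set M := lm b1 b2
  set s := sin φ
  set c := cos φ
  linear_combination (-(M * (b1 * s - b2 * c) + c * M * b2)) * hL

lemma Cof36_std (h : 0 < Qf a1 a2 b1 b2 t 0) :
    Cof (be2 a1 a2 φ) (be1 b1 b2) φ (be1 a1 a2) (be2 b1 b2 φ) (tht a1 a2 b1 b2 t) =
      lm a1 a2 ^ 2 * lm b1 b2 * sin φ * (hA b1 b2 φ + hA a1 a2 φ * cosh t) := by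
  have hL := lm_sq a1 a2
  have hs := sin_sq_add_cos_sq φ
  unfold Cof
  rw [sin_sq_of (cos_be2 a1 a2 φ).1, (cos_be1 a1 a2).1, (cos_be1 b1 b2).1, (cos_be2 a1 a2 φ).1,
    (cos_be2 b1 b2 φ).1, (cos_tht a1 a2 b1 b2 t h).1]
  unfold hT hA
  set L := lm a1 a2
  set M := lm b1 b2
  set s := sin φ
  set c := cos φ
  set C := cosh t
  linear_combination (-(M * b2 + c * M * (b1 * s - b2 * c))) * hL +
    L ^ 2 * M * (-1 * C * a2 + a1 * a2 * b1 - 1 * a1 ^ 2 * b2 - 1 * b2) * hs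

lemma Cof46_std (h : 0 < Qf a1 a2 b1 b2 t 0) :
    Cof (be2 b1 b2 φ) (be1 a1 a2) φ (be1 b1 b2) (be2 a1 a2 φ) (tht a1 a2 b1 b2 t) =
      lm a1 a2 * lm b1 b2 ^ 2 * sin φ * (hA a1 a2 φ + hA b1 b2 φ * cosh t) := by
  have hM := lm_sq b1 b2
  have hs := sin_sq_add_cos_sq φ
  unfold Cof
  rw [sin_sq_of (cos_be2 b1 b2 φ).1, (cos_be1 a1 a2).1, (cos_be1 b1 b2).1, (cos_be2 a1 a2 φ).1,
    (cos_be2 b1 b2 φ).1, (cos_tht a1 a2 b1 b2 t h).1]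
  unfold hT hA
  set L := lm a1 a2
  set M := lm b1 b2
  set s := sin φ
  set c := cos φ
  set C := cosh t
  linear_combination (-(L * a2 + c * L * (a1 * s - a2 * c))) * hM +
    L * M ^ 2 * (-1 * C * b2 + a1 * b1 * b2 - 1 * a2 - 1 * a2 * b1 ^ 2) * hs

lemma Cof56_std (h : 0 < Qf a1 a2 b1 b2 t 0) :
    Cof (tht a1 a2 b1 b2 t) φ (be1 a1 a2) (be1 b1 b2) (be2 a1 a2 φ) (be2 b1 b2 φ) =
      lm a1 a2 ^ 2 * lm b1 b2 ^ 2 * (a1 * hA a1 a2 φ + b1 * hA b1 b2 φ +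
        cosh t * (a1 * hA b1 b2 φ + b1 * hA a1 a2 φ) - (cosh t ^ 2 - 1) * cos φ) := by
  have hL := lm_sq a1 a2
  have hM := lm_sq b1 b2
  unfold Cof
  rw [sin_sq_of (cos_tht a1 a2 b1 b2 t h).1, (cos_be1 a1 a2).1, (cos_be1 b1 b2).1,
    (cos_be2 a1 a2 φ).1, (cos_be2 b1 b2 φ).1, (cos_tht a1 a2 b1 b2 t h).1]
  unfold hT hA
  set L := lm a1 a2
  set M := lm b1 b2
  set s := sin φ
  set c := cos φ
  set C := cosh t
  linear_combination (-(c * M ^ 2 * (1 + b1 ^ 2 + b2 ^ 2)) - M ^ 2 * b2 * (b1 * s - b2 * c)) * hL +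
    (-c - L ^ 2 * a2 * (a1 * s - a2 * c)) * hM

/-- half-angle formula: `cot ((β₁+β₂)/2)` -/
lemma half_formula (a1 a2 φ : ℝ) :
    cos ((be1 a1 a2 + be2 a1 a2 φ) / 2) * (sqrt (1 + a1 ^ 2) + sqrt (1 + hA a1 a2 φ ^ 2)) =
      sin ((be1 a1 a2 + be2 a1 a2 φ) / 2) * (a2 + hT a1 a2 φ) := by
  obtain ⟨c1, n1⟩ := cos_be1 a1 a2
  obtain ⟨c2, n2⟩ := cos_be2 a1 a2 φ
  have hL := lm_sq a1 a2
  have hLp := lm_pos a1 a2
  have s1 : sin (be1 a1 a2) = lm a1 a2 * sqrt (1 + a1 ^ 2) := by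
    have h1 : sin (be1 a1 a2) ^ 2 = (lm a1 a2 * sqrt (1 + a1 ^ 2)) ^ 2 := by
      rw [sin_sq_of c1, mul_pow _ (sqrt _), sq_sqrt (by positivity)]
      linear_combination -hL
    exact (pow_left_inj₀ n1.sin_pos.le (by positivity) (by norm_num)).mp h1
  have s2 : sin (be2 a1 a2 φ) = lm a1 a2 * sqrt (1 + hA a1 a2 φ ^ 2) := by
    have h1 : sin (be2 a1 a2 φ) ^ 2 = (lm a1 a2 * sqrt (1 + hA a1 a2 φ ^ 2)) ^ 2 := by
      rw [sin_sq_of c2, mul_pow _ (sqrt _), sq_sqrt (by positivity)]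
      have := hA_hT a1 a2 φ
      linear_combination -hL - lm a1 a2 ^ 2 * this
    exact (pow_left_inj₀ n2.sin_pos.le (by positivity) (by norm_num)).mp h1
  -- cos β1 + cos β2 and sin β1 + sin β2
  have e1 : cos (be1 a1 a2) + cos (be2 a1 a2 φ) =
      2 * cos ((be1 a1 a2 + be2 a1 a2 φ) / 2) * cos ((be1 a1 a2 - be2 a1 a2 φ) / 2) :=
    Real.cos_add_cos _ _
  have e2 : sin (be1 a1 a2) + sin (be2 a1 a2 φ) =
      2 * sin ((be1 a1 a2 + be2 a1 a2 φ) / 2) * cos ((be1 a1 a2 - be2 a1 a2 φ) / 2) :=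
    Real.sin_add_sin _ _
  rw [c1, c2] at e1
  rw [s1, s2] at e2
  have hb : 0 < cos ((be1 a1 a2 - be2 a1 a2 φ) / 2) :=
    cos_pos_of_mem_Ioo ⟨by linarith [n1.1, n2.2], by linarith [n1.2, n2.1]⟩
  set x := cos ((be1 a1 a2 + be2 a1 a2 φ) / 2)
  set y := sin ((be1 a1 a2 + be2 a1 a2 φ) / 2)
  set z := cos ((be1 a1 a2 - be2 a1 a2 φ) / 2)
  have : (lm a1 a2 * z) * (x * (sqrt (1 + a1 ^ 2) + sqrt (1 + hA a1 a2 φ ^ 2))) =
      (lm a1 a2 * z) * (y * (a2 + hT a1 a2 φ)) := by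
    linear_combination (x * z) * e2 - (y * z) * e1
  exact mul_left_cancel₀ (by positivity) this

end

lemma sqrt_sinh (x : ℝ) : sqrt (1 + sinh x ^ 2) = cosh x := by
  rw [show 1 + sinh x ^ 2 = cosh x ^ 2 by rw [cosh_sq]; ring, sqrt_sq (cosh_pos x).le]

lemma sum_four {a b A B : ℝ} (h1 : 0 < a + b) (h2 : 0 < A + B) :
    0 < (b + B) * (sqrt (1 + a ^ 2) + sqrt (1 + A ^ 2)) +
      (a + A) * (sqrt (1 + b ^ 2) + sqrt (1 + B ^ 2)) := by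
  obtain ⟨a', rfl⟩ : ∃ a', sinh a' = a := ⟨arsinh a, sinh_arsinh a⟩
  obtain ⟨b', rfl⟩ : ∃ a', sinh a' = b := ⟨arsinh b, sinh_arsinh b⟩
  obtain ⟨A', rfl⟩ : ∃ a', sinh a' = A := ⟨arsinh A, sinh_arsinh A⟩
  obtain ⟨B', rfl⟩ : ∃ a', sinh a' = B := ⟨arsinh B, sinh_arsinh B⟩
  simp only [sqrt_sinh]
  have k : ∀ x y : ℝ, 0 < x + y → 0 < sinh x + sinh y := by
    intro x y hxy
    have : sinh (-y) < sinh x := sinh_lt_sinh.mpr (by linarith)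
    rw [sinh_neg] at this; linarith
  have k' : ∀ x y : ℝ, 0 < sinh x + sinh y → 0 < x + y := by
    intro x y hxy
    have : sinh (-y) < sinh x := by rw [sinh_neg]; linarith
    have := sinh_lt_sinh.mp this
    linarith
  have e1 := k' _ _ h1
  have e2 := k' _ _ h2
  have f1 : 0 < sinh (a' + b') := sinh_pos_iff.mpr e1
  have f2 : 0 < sinh (A' + B') := sinh_pos_iff.mpr e2
  have f3 := k (A' + b') (a' + B') (by linarith)
  rw [sinh_add] at f1 f2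
  rw [sinh_add, sinh_add] at f3
  nlinarith

lemma Std.qL {a1 a2 b1 b2 t φ : ℝ} (h : Std a1 a2 b1 b2 t φ) :
    be1 a1 a2 + be2 a1 a2 φ + be1 b1 b2 + be2 b1 b2 φ < 2 * π := by
  have ha := half_formula a1 a2 φ
  have hb := half_formula b1 b2 φ
  have n1 := (cos_be1 a1 a2).2
  have n2 := (cos_be2 a1 a2 φ).2
  have n3 := (cos_be1 b1 b2).2
  have n4 := (cos_be2 b1 b2 φ).2
  have s0 := h.s0.sum_pos
  have s1 := h.s1.sum_pos
  rw [hA_zero, hA_zero] at s0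
  have hf := sum_four s0 s1
  have hs := h.aφ.sin_pos
  have hc : 0 < 1 + cos φ := by
    have : -1 < cos φ := by
      rw [← cos_pi]
      exact cos_lt_cos_of_nonneg_of_le_pi h.aφ.1.le le_rfl h.aφ.2
    linarith
  have ra : (a2 + hT a1 a2 φ) * (1 + cos φ) = sin φ * (a1 + hA a1 a2 φ) := by
    have := sin_sq_add_cos_sq φ
    unfold hT hA
    linear_combination -a2 * this
  have rb : (b2 + hT b1 b2 φ) * (1 + cos φ) = sin φ * (b1 + hA b1 b2 φ) := by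
    have := sin_sq_add_cos_sq φ
    unfold hT hA
    linear_combination -b2 * this
  set DB := sqrt (1 + a1 ^ 2) + sqrt (1 + hA a1 a2 φ ^ 2) with hDB
  set DG := sqrt (1 + b1 ^ 2) + sqrt (1 + hA b1 b2 φ ^ 2) with hDG
  have pB : 0 < DB := by rw [hDB]; positivity
  have pG : 0 < DG := by rw [hDG]; positivity
  have sB : 0 < sin ((be1 a1 a2 + be2 a1 a2 φ) / 2) :=
    sin_pos_of_pos_of_lt_pi (by linarith [n1.1, n2.1]) (by linarith [n1.2, n2.2])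
  have sG : 0 < sin ((be1 b1 b2 + be2 b1 b2 φ) / 2) :=
    sin_pos_of_pos_of_lt_pi (by linarith [n3.1, n4.1]) (by linarith [n3.2, n4.2])
  have hsum : 0 < sin ((be1 a1 a2 + be2 a1 a2 φ) / 2 + (be1 b1 b2 + be2 b1 b2 φ) / 2) := by
    rw [sin_add]
    set x := sin ((be1 a1 a2 + be2 a1 a2 φ) / 2)
    set y := cos ((be1 a1 a2 + be2 a1 a2 φ) / 2)
    set z := sin ((be1 b1 b2 + be2 b1 b2 φ) / 2)
    set w := cos ((be1 b1 b2 + be2 b1 b2 φ) / 2)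
    have e : (x * w + y * z) * (DB * DG * (1 + cos φ)) =
        x * z * sin φ * ((b1 + hA b1 b2 φ) * DB + (a1 + hA a1 a2 φ) * DG) := by
      linear_combination (x * DB * (1 + cos φ)) * hb + (z * DG * (1 + cos φ)) * ha +
        x * z * DB * rb + x * z * DG * ra
    have h1 : 0 < x * z * sin φ * ((b1 + hA b1 b2 φ) * DB + (a1 + hA a1 a2 φ) * DG) := by positivity
    rw [← e] at h1
    exact pos_of_mul_pos_left h1 (by positivity)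
  by_contra hh
  push Not at hh
  have : sin ((be1 a1 a2 + be2 a1 a2 φ) / 2 + (be1 b1 b2 + be2 b1 b2 φ) / 2) ≤ 0 := by
    rw [← sin_sub_two_pi]
    apply sin_nonpos_of_nonpos_of_neg_pi_le
    · linarith [n1.2, n2.2, n3.2, n4.2]
    · linarith
  linarith

/-- the angles of a tetrahedron in standard position -/
lemma Std.hyp {a1 a2 b1 b2 t φ : ℝ} (h : Std a1 a2 b1 b2 t φ) :
    Hyp φ (tht a1 a2 b1 b2 t) (be1 a1 a2) (be2 a1 a2 φ) (be1 b1 b2) (be2 b1 b2 φ) := by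
  have hs := h.aφ.sin_pos
  have hL := lm_pos a1 a2
  have hM := lm_pos b1 b2
  have Q0 := h.s0.Q
  have Q1 := h.s1.Q
  have P0 := h.s0.P
  have P1 := h.s1.P
  have hC : 1 < cosh t := one_lt_cosh.mpr h.ht.ne'
  refine ⟨⟨h.aφ, (cos_tht a1 a2 b1 b2 t Q0).2, (cos_be1 a1 a2).2, (cos_be2 a1 a2 φ).2,
    (cos_be1 b1 b2).2, (cos_be2 b1 b2 φ).2, ?_, ?_, ?_, ?_⟩, h.qL, ?_, ?_, ?_, ?_⟩
  · rw [D3_std]; positivity
  · rw [D3_std]; positivity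
  · rw [D5_std Q0]; positivity
  · rw [D6_std Q0]; positivity
  · rw [Cof34_std Q0]; positivity
  · rw [Cof35_std Q0]; positivity
  · rw [Cof36_std Q0]; positivity
  · rw [Cof34_std Q0, D3_std, D3_std]
    have : 1 < cosh t ^ 2 := by nlinarith
    have h1 : 0 < lm a1 a2 ^ 2 * lm b1 b2 ^ 2 * sin φ ^ 4 := by positivity
    nlinarith

end Run7.h27
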