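import Pool.Agent.Run7.h27.Quant

/-!
# The symmetric form of the normalised tetrahedral network
-/

set_option autoImplicit false

namespace Run7.h27

open Real Finset

/-- inverse of the signed factorial, zero for negative arguments -/
noncomputable def isf (r : ℕ) (n : ℤ) : ℝ := if 0 ≤ n then (sg r n.toNat)⁻¹ else 0

/-- the symmetric sum -/
noncomputable def Ssym (r : ℕ) (T Q : Fin 4 → ℤ) : ℝ :=
  ∑ᶠ z : ℤ, ∏ i, (isf r (z - T i) * isf r (Q i - z))

/-- `LL` for integers -/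
noncomputable def LZ (r : ℕ) (n : ℤ) : ℝ := LL r n.toNat

/-- the symmetric form of the bracket -/
noncomputable def Kb (r : ℕ) (T Q : Fin 4 → ℤ) : ℝ :=
  s1 r * exp (1 / 2 * (∑ i, ∑ j, LZ r (Q j - T i)) - LL r (r - 1)) * |Ssym r T Q|

lemma Ssym_refl (r : ℕ) (T Q : Fin 4 → ℤ) (C : ℤ) :
    Ssym r (fun i => C - Q i) (fun i => C - T i) = Ssym r T Q := by
  unfold Ssym
  rw [← finsum_comp_equiv (Equiv.subLeft C)]
  apply finsum_congr
  intro z
  apply prod_congr rfl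
  intro i _
  simp only [Equiv.subLeft_apply]
  rw [mul_comm]
  congr 2 <;> ring

lemma Kb_refl (r : ℕ) (T Q : Fin 4 → ℤ) (C : ℤ) :
    Kb r (fun i => C - Q i) (fun i => C - T i) = Kb r T Q := by
  unfold Kb
  rw [Ssym_refl, sum_comm]
  simp only [sub_sub_sub_cancel_left]

lemma Ssym_perm (r : ℕ) (T Q : Fin 4 → ℤ) (σ ρ : Equiv.Perm (Fin 4)) :
    Ssym r (T ∘ σ) (Q ∘ ρ) = Ssym r T Q := by
  unfold Ssym
  apply finsum_congr
  intro z
  rw [prod_mul_distrib, prod_mul_distrib]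
  congr 1
  · exact Equiv.prod_comp σ (fun i => isf r (z - T i))
  · exact Equiv.prod_comp ρ (fun i => isf r (Q i - z))

lemma Kb_perm (r : ℕ) (T Q : Fin 4 → ℤ) (σ ρ : Equiv.Perm (Fin 4)) :
    Kb r (T ∘ σ) (Q ∘ ρ) = Kb r T Q := by
  unfold Kb
  rw [Ssym_perm]
  congr 3
  congr 1
  rw [← Equiv.sum_comp σ (fun i => ∑ j, LZ r (Q j - T i))]
  apply congrArg
  apply sum_congr rfl
  intro i _
  exact Equiv.sum_comp ρ (fun j => LZ r (Q j - T (σ i)))

end Run7.h27
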