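import Pool.Agent.Run7.h27.Sgn

/-!
# Angle data of a compact tetrahedron and its two critical points
-/

set_option autoImplicit false

namespace Run7.h27

open Real

lemma edge_x {φ θ β1 β2 γ1 γ2 x X : ℝ}
    (h1 : sin (x - Tv φ β1 β2) * sin (x - Tv φ γ1 γ2) =
      X * (sin (Qv φ θ γ1 β2 - x) * sin (Qv φ θ β1 γ2 - x)))
    (h2 : sin (2 * π - x) * sin (Qv β1 β2 γ1 γ2 - x) =
      X * (sin (x - Tv θ β1 γ1) * sin (x - Tv θ β2 γ2))) :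
    AA φ β1 β2 γ1 γ2 * X ^ 2 - 2 * Cof φ θ β1 β2 γ1 γ2 * X + CC φ β1 β2 γ1 γ2 = 0 := by
  set y := 2 * x - 3 * π + φ + (β1 + β2 + γ1 + γ2) / 2 with hy
  apply edge_quad (y := y)
  · rw [sin_mul_sin, sin_mul_sin] at h1
    have e0 : cos ((x - Tv φ β1 β2) + (x - Tv φ γ1 γ2)) = cos y := by
      congr 1; rw [hy]; unfold Tv; ring
    have e1 : cos ((x - Tv φ β1 β2) - (x - Tv φ γ1 γ2)) = cos ((β1 + β2 - γ1 - γ2) / 2) := by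
      congr 1; unfold Tv; ring
    have e2 : cos ((Qv φ θ γ1 β2 - x) - (Qv φ θ β1 γ2 - x)) = cos ((β1 - β2 - γ1 + γ2) / 2) := by
      congr 1; unfold Qv; ring
    have e3 : cos ((Qv φ θ γ1 β2 - x) + (Qv φ θ β1 γ2 - x)) = -cos (y + θ) := by
      rw [← cos_pi_sub]; congr 1; rw [hy]; unfold Qv; ring
    rw [e0, e1, e2, e3] at h1
    linear_combination (2 : ℝ) * h1
  · rw [sin_mul_sin, sin_mul_sin] at h2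
    have e1 : cos ((2 * π - x) - (Qv β1 β2 γ1 γ2 - x)) = cos ((β1 + β2 + γ1 + γ2) / 2) := by
      congr 1; unfold Qv; ring
    have e2 : cos ((2 * π - x) + (Qv β1 β2 γ1 γ2 - x)) = -cos (y - φ) := by
      rw [← cos_pi_sub]; congr 1; rw [hy]; unfold Qv; ring
    have e3 : cos ((x - Tv θ β1 γ1) - (x - Tv θ β2 γ2)) = cos ((β1 - β2 + γ1 - γ2) / 2) := by
      congr 1; unfold Tv; ring
    have e4 : cos ((x - Tv θ β1 γ1) + (x - Tv θ β2 γ2)) = cos (y - φ + θ) := by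
      congr 1; rw [hy]; unfold Tv; ring
    rw [e1, e2, e3, e4] at h2
    linear_combination (2 : ℝ) * h2

lemma quad_pos {A B C X : ℝ} (hA : 0 < A) (hB : 0 < B) (hC : 0 < C)
    (h : A * X ^ 2 - 2 * B * X + C = 0) : 0 < X := by
  by_contra hh
  push Not at hh
  nlinarith [mul_nonneg hB.le (neg_nonneg.mpr hh), mul_nonneg hA.le (sq_nonneg X)]

lemma AA_pos {φ β1 β2 γ1 γ2 : ℝ} (h1 : Ang β1) (h2 : Ang β2) (h3 : Ang γ1) (h4 : Ang γ2)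
    (hDβ : 0 < Dv φ β1 β2) (hDγ : 0 < Dv φ γ1 γ2) : 0 < AA φ β1 β2 γ1 γ2 :=
  mul_pos (vert_signs h1 h2 hDβ).2 (vert_signs h3 h4 hDγ).2

lemma CC_pos {φ β1 β2 γ1 γ2 : ℝ} (h1 : Ang β1) (h2 : Ang β2) (h3 : Ang γ1) (h4 : Ang γ2)
    (hDβ : 0 < Dv φ β1 β2) (hDγ : 0 < Dv φ γ1 γ2) : 0 < CC φ β1 β2 γ1 γ2 :=
  mul_pos_of_neg_of_neg (vert_signs h1 h2 hDβ).1 (vert_signs h3 h4 hDγ).1

lemma Dv_perm1 (x y z : ℝ) : Dv y x z = Dv x y z := by unfold Dv; ring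
lemma Dv_perm2 (x y z : ℝ) : Dv y z x = Dv x y z := by unfold Dv; ring
lemma Dv_perm3 (x y z : ℝ) : Dv z x y = Dv x y z := by unfold Dv; ring
lemma Dv_perm4 (x y z : ℝ) : Dv x z y = Dv x y z := by unfold Dv; ring

/-- dihedral angles with four regular vertices: `φ` at the edge `34`, `θ` at `56`, `β₁` at `35`,
`β₂` at `36`, `γ₁` at `45`, `γ₂` at `46` -/
structure Reg (φ θ β1 β2 γ1 γ2 : ℝ) : Prop where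
  aφ : Ang φ
  aθ : Ang θ
  aβ1 : Ang β1
  aβ2 : Ang β2
  aγ1 : Ang γ1
  aγ2 : Ang γ2
  d3 : 0 < Dv φ β1 β2
  d4 : 0 < Dv φ γ1 γ2
  d5 : 0 < Dv θ β1 γ1
  d6 : 0 < Dv θ β2 γ2

/-- all linear inequalities -/
structure Lin (φ θ β1 β2 γ1 γ2 : ℝ) : Prop where
  t3 : Ang (Tv φ β1 β2)
  t4 : Ang (Tv φ γ1 γ2)
  t5 : Ang (Tv θ β1 γ1)
  t6 : Ang (Tv θ β2 γ2)
  L3 : Ang (Qv β1 β2 γ1 γ2 - Tv φ β1 β2)
  L4 : Ang (Qv β1 β2 γ1 γ2 - Tv φ γ1 γ2)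
  L5 : Ang (Qv β1 β2 γ1 γ2 - Tv θ β1 γ1)
  L6 : Ang (Qv β1 β2 γ1 γ2 - Tv θ β2 γ2)
  a3 : Ang (Qv φ θ γ1 β2 - Tv φ β1 β2)
  a4 : Ang (Qv φ θ γ1 β2 - Tv φ γ1 γ2)
  a5 : Ang (Qv φ θ γ1 β2 - Tv θ β1 γ1)
  a6 : Ang (Qv φ θ γ1 β2 - Tv θ β2 γ2)
  b3 : Ang (Qv φ θ β1 γ2 - Tv φ β1 β2)
  b4 : Ang (Qv φ θ β1 γ2 - Tv φ γ1 γ2)
  b5 : Ang (Qv φ θ β1 γ2 - Tv θ β1 γ1)
  b6 : Ang (Qv φ θ β1 γ2 - Tv θ β2 γ2)

lemma Reg.lin {φ θ β1 β2 γ1 γ2 : ℝ} (h : Reg φ θ β1 β2 γ1 γ2) : Lin φ θ β1 β2 γ1 γ2 := by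
  obtain ⟨aφ, aθ, aβ1, aβ2, aγ1, aγ2, d3, d4, d5, d6⟩ := h
  have i3 := vert_ineq1 aφ aβ1 aβ2 d3
  have j3 := vert_ineq2 aφ aβ1 aβ2 d3
  have i4 := vert_ineq1 aφ aγ1 aγ2 d4
  have j4 := vert_ineq2 aφ aγ1 aγ2 d4
  have i5 := vert_ineq1 aθ aβ1 aγ1 d5
  have j5 := vert_ineq2 aθ aβ1 aγ1 d5
  have i6 := vert_ineq1 aθ aβ2 aγ2 d6
  have j6 := vert_ineq2 aθ aβ2 aγ2 d6
  unfold Ang at *
  constructor <;> (unfold Ang Tv; try unfold Qv) <;> constructor <;> linarith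

/-- angle data of a compact hyperbolic tetrahedron -/
structure Hyp (φ θ β1 β2 γ1 γ2 : ℝ) : Prop extends Reg φ θ β1 β2 γ1 γ2 where
  qL : β1 + β2 + γ1 + γ2 < 2 * π
  c34 : 0 < Cof φ θ β1 β2 γ1 γ2
  c35 : 0 < Cof β1 γ2 φ β2 γ1 θ
  c36 : 0 < Cof β2 γ1 φ β1 γ2 θ
  hyp : Dv φ β1 β2 * Dv φ γ1 γ2 < Cof φ θ β1 β2 γ1 γ2 ^ 2

/-- the product equation -/
def Crit (φ θ β1 β2 γ1 γ2 x : ℝ) : Prop :=
  sin (x - Tv φ β1 β2) * sin (x - Tv φ γ1 γ2) * (sin (x - Tv θ β1 γ1) * sin (x - Tv θ β2 γ2)) =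
    sin (2 * π - x) * sin (Qv β1 β2 γ1 γ2 - x) * (sin (Qv φ θ γ1 β2 - x) * sin (Qv φ θ β1 γ2 - x))

lemma ne_of_sum {a b : ℝ} (h : sin (a + b) ≠ 0) : ¬ (sin a = 0 ∧ sin b = 0) := by
  rintro ⟨h1, h2⟩
  apply h
  rw [sin_add, h1, h2]; ring

lemma Ang.ne {x : ℝ} (h : Ang x) : sin x ≠ 0 := h.sin_pos.ne'

/-- no factor vanishes -/
lemma crit_ne {φ θ β1 β2 γ1 γ2 x : ℝ} (h : Reg φ θ β1 β2 γ1 γ2) (hc : Crit φ θ β1 β2 γ1 γ2 x) :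
    (sin (x - Tv φ β1 β2) ≠ 0 ∧ sin (x - Tv φ γ1 γ2) ≠ 0 ∧ sin (x - Tv θ β1 γ1) ≠ 0 ∧
      sin (x - Tv θ β2 γ2) ≠ 0) ∧
    (sin (2 * π - x) ≠ 0 ∧ sin (Qv β1 β2 γ1 γ2 - x) ≠ 0 ∧ sin (Qv φ θ γ1 β2 - x) ≠ 0 ∧
      sin (Qv φ θ β1 γ2 - x) ≠ 0) := by
  have hl := h.lin
  have key : ∀ t q : ℝ, sin (q - t) ≠ 0 → sin (x - t) = 0 → sin (q - x) ≠ 0 := by
    intro t q h1 h2 h3
    exact ne_of_sum (a := x - t) (b := q - x) (by rwa [show x - t + (q - x) = q - t by ring]) ⟨h2, h3⟩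
  have z : ∀ t : ℝ, Ang t → sin (2 * π - t) ≠ 0 := by
    intro t ht
    rw [sin_two_pi_sub]
    exact neg_ne_zero.mpr ht.ne
  unfold Crit at hc
  have hU : ∀ t : ℝ, sin (2 * π - t) ≠ 0 → sin (Qv β1 β2 γ1 γ2 - t) ≠ 0 →
      sin (Qv φ θ γ1 β2 - t) ≠ 0 → sin (Qv φ θ β1 γ2 - t) ≠ 0 → sin (x - t) = 0 →
      sin (2 * π - x) * sin (Qv β1 β2 γ1 γ2 - x) *
        (sin (Qv φ θ γ1 β2 - x) * sin (Qv φ θ β1 γ2 - x)) ≠ 0 := by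
    intro t h0 hL ha hb ht
    exact mul_ne_zero (mul_ne_zero (key _ _ h0 ht) (key _ _ hL ht))
      (mul_ne_zero (key _ _ ha ht) (key _ _ hb ht))
  have hU3 : sin (x - Tv φ β1 β2) ≠ 0 := by
    intro h0
    apply hU _ (z _ hl.t3) hl.L3.ne hl.a3.ne hl.b3.ne h0
    rw [← hc, h0]; ring
  have hU4 : sin (x - Tv φ γ1 γ2) ≠ 0 := by
    intro h0
    apply hU _ (z _ hl.t4) hl.L4.ne hl.a4.ne hl.b4.ne h0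
    rw [← hc, h0]; ring
  have hU5 : sin (x - Tv θ β1 γ1) ≠ 0 := by
    intro h0
    apply hU _ (z _ hl.t5) hl.L5.ne hl.a5.ne hl.b5.ne h0
    rw [← hc, h0]; ring
  have hU6 : sin (x - Tv θ β2 γ2) ≠ 0 := by
    intro h0
    apply hU _ (z _ hl.t6) hl.L6.ne hl.a6.ne hl.b6.ne h0
    rw [← hc, h0]; ring
  have hall : sin (2 * π - x) * sin (Qv β1 β2 γ1 γ2 - x) *
      (sin (Qv φ θ γ1 β2 - x) * sin (Qv φ θ β1 γ2 - x)) ≠ 0 := by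
    rw [← hc]
    exact mul_ne_zero (mul_ne_zero hU3 hU4) (mul_ne_zero hU5 hU6)
  refine ⟨⟨hU3, hU4, hU5, hU6⟩, ?_⟩
  have h1 := left_ne_zero_of_mul hall
  have h2 := right_ne_zero_of_mul hall
  exact ⟨left_ne_zero_of_mul h1, right_ne_zero_of_mul h1, left_ne_zero_of_mul h2,
    right_ne_zero_of_mul h2⟩

/-- the ratio of the edge `34` at a critical point -/
lemma crit_quad {φ θ β1 β2 γ1 γ2 x : ℝ} (h : Reg φ θ β1 β2 γ1 γ2) (hc : Crit φ θ β1 β2 γ1 γ2 x) :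
    ∃ X, sin (x - Tv φ β1 β2) * sin (x - Tv φ γ1 γ2) =
      X * (sin (Qv φ θ γ1 β2 - x) * sin (Qv φ θ β1 γ2 - x)) ∧
      AA φ β1 β2 γ1 γ2 * X ^ 2 - 2 * Cof φ θ β1 β2 γ1 γ2 * X + CC φ β1 β2 γ1 γ2 = 0 := by
  obtain ⟨⟨u3, u4, u5, u6⟩, ⟨v0, vL, va, vb⟩⟩ := crit_ne h hc
  refine ⟨sin (x - Tv φ β1 β2) * sin (x - Tv φ γ1 γ2) /
    (sin (Qv φ θ γ1 β2 - x) * sin (Qv φ θ β1 γ2 - x)), ?_, ?_⟩
  · field_simp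
  · apply edge_x (x := x)
    · field_simp
    · unfold Crit at hc
      have hv := mul_ne_zero va vb
      rw [div_mul_eq_mul_div, eq_div_iff hv, ← hc]

/-- permuted angle data -/
lemma Reg.perm35 {φ θ β1 β2 γ1 γ2 : ℝ} (h : Reg φ θ β1 β2 γ1 γ2) : Reg β1 γ2 φ β2 γ1 θ := by
  obtain ⟨aφ, aθ, aβ1, aβ2, aγ1, aγ2, d3, d4, d5, d6⟩ := h
  refine ⟨aβ1, aγ2, aφ, aβ2, aγ1, aθ, ?_, ?_, ?_, ?_⟩
  · rw [Dv_perm1]; exact d3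
  · rwa [Dv_perm2]
  · rwa [Dv_perm3]
  · rwa [show Dv γ2 β2 θ = Dv θ β2 γ2 by unfold Dv; ring]

lemma Reg.perm36 {φ θ β1 β2 γ1 γ2 : ℝ} (h : Reg φ θ β1 β2 γ1 γ2) : Reg β2 γ1 φ β1 γ2 θ := by
  obtain ⟨aφ, aθ, aβ1, aβ2, aγ1, aγ2, d3, d4, d5, d6⟩ := h
  refine ⟨aβ2, aγ1, aφ, aβ1, aγ2, aθ, ?_, ?_, ?_, ?_⟩
  · rwa [Dv_perm3]
  · rwa [Dv_perm2]
  · rwa [show Dv γ1 φ γ2 = Dv φ γ1 γ2 by unfold Dv; ring]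
  · rwa [show Dv γ1 β1 θ = Dv θ β1 γ1 by unfold Dv; ring]

/-- exchange the two ends of the edge `34` -/
lemma Reg.perm43 {φ θ β1 β2 γ1 γ2 : ℝ} (h : Reg φ θ β1 β2 γ1 γ2) : Reg φ θ γ1 γ2 β1 β2 := by
  obtain ⟨aφ, aθ, aβ1, aβ2, aγ1, aγ2, d3, d4, d5, d6⟩ := h
  refine ⟨aφ, aθ, aγ1, aγ2, aβ1, aβ2, d4, d3, ?_, ?_⟩
  · rwa [Dv_perm4]
  · rwa [Dv_perm4]

/-- the edges `34` and `56` exchanged -/
lemma Reg.perm56 {φ θ β1 β2 γ1 γ2 : ℝ} (h : Reg φ θ β1 β2 γ1 γ2) : Reg θ φ β1 γ1 β2 γ2 := by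
  obtain ⟨aφ, aθ, aβ1, aβ2, aγ1, aγ2, d3, d4, d5, d6⟩ := h
  exact ⟨aθ, aφ, aβ1, aγ1, aβ2, aγ2, d5, d6, d3, d4⟩

lemma Tv1 (a b c : ℝ) : Tv b a c = Tv a b c := by unfold Tv; ring
lemma Tv2 (a b c : ℝ) : Tv b c a = Tv a b c := by unfold Tv; ring
lemma Tv3 (a b c : ℝ) : Tv c a b = Tv a b c := by unfold Tv; ring
lemma Tv4 (a b c : ℝ) : Tv a c b = Tv a b c := by unfold Tv; ring
lemma Tv5 (a b c : ℝ) : Tv c b a = Tv a b c := by unfold Tv; ring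

lemma Crit.perm35 {φ θ β1 β2 γ1 γ2 x : ℝ} (h : Crit φ θ β1 β2 γ1 γ2 x) :
    Crit β1 γ2 φ β2 γ1 θ x := by
  unfold Crit at h ⊢
  rw [Tv1 φ β1 β2, Tv2 θ β1 γ1, show Tv γ2 φ γ1 = Tv φ γ1 γ2 by unfold Tv; ring,
    show Tv γ2 β2 θ = Tv θ β2 γ2 by unfold Tv; ring,
    show Qv φ β2 γ1 θ = Qv φ θ γ1 β2 by unfold Qv; ring,
    show Qv β1 γ2 γ1 β2 = Qv β1 β2 γ1 γ2 by unfold Qv; ring,
    show Qv β1 γ2 φ θ = Qv φ θ β1 γ2 by unfold Qv; ring]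
  linear_combination h

lemma Crit.perm36 {φ θ β1 β2 γ1 γ2 x : ℝ} (h : Crit φ θ β1 β2 γ1 γ2 x) :
    Crit β2 γ1 φ β1 γ2 θ x := by
  unfold Crit at h ⊢
  rw [show Tv β2 φ β1 = Tv φ β1 β2 by unfold Tv; ring,
    show Tv β2 γ2 θ = Tv θ β2 γ2 by unfold Tv; ring,
    show Tv γ1 φ γ2 = Tv φ γ1 γ2 by unfold Tv; ring,
    show Tv γ1 β1 θ = Tv θ β1 γ1 by unfold Tv; ring,
    show Qv φ β1 γ2 θ = Qv φ θ β1 γ2 by unfold Qv; ring,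
    show Qv β2 γ1 γ2 β1 = Qv β1 β2 γ1 γ2 by unfold Qv; ring,
    show Qv β2 γ1 φ θ = Qv φ θ γ1 β2 by unfold Qv; ring]
  linear_combination h

lemma Crit.perm43 {φ θ β1 β2 γ1 γ2 x : ℝ} (h : Crit φ θ β1 β2 γ1 γ2 x) :
    Crit φ θ γ1 γ2 β1 β2 x := by
  unfold Crit at h ⊢
  rw [show Tv θ γ1 β1 = Tv θ β1 γ1 by unfold Tv; ring,
    show Tv θ γ2 β2 = Tv θ β2 γ2 by unfold Tv; ring,
    show Qv γ1 γ2 β1 β2 = Qv β1 β2 γ1 γ2 by unfold Qv; ring,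
    show Qv φ θ β1 γ2 = Qv φ θ β1 γ2 by unfold Qv; ring,
    show Qv φ θ γ1 β2 = Qv φ θ γ1 β2 by unfold Qv; ring]
  linear_combination h

lemma Crit.perm56 {φ θ β1 β2 γ1 γ2 x : ℝ} (h : Crit φ θ β1 β2 γ1 γ2 x) :
    Crit θ φ β1 γ1 β2 γ2 x := by
  unfold Crit at h ⊢
  rw [show Qv β1 γ1 β2 γ2 = Qv β1 β2 γ1 γ2 by unfold Qv; ring,
    show Qv θ φ β2 γ1 = Qv φ θ γ1 β2 by unfold Qv; ring,
    show Qv θ φ β1 γ2 = Qv φ θ β1 γ2 by unfold Qv; ring]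
  linear_combination h

/-- location of the critical points -/
lemma located {φ θ β1 β2 γ1 γ2 x : ℝ} (h : Hyp φ θ β1 β2 γ1 γ2) (hc : Crit φ θ β1 β2 γ1 γ2 x)
    (hy1 : -π < (x - Tv φ β1 β2) + (x - Tv φ γ1 γ2))
    (hy2 : (x - Tv φ β1 β2) + (x - Tv φ γ1 γ2) < π) :
    π < x ∧ x < Qv β1 β2 γ1 γ2 ∧ x < Qv φ θ γ1 β2 ∧ x < Qv φ θ β1 γ2 := by
  have hR := h.toReg
  have hl := hR.lin
  obtain ⟨⟨u3, u4, u5, u6⟩, ⟨v0, vL, va, vb⟩⟩ := crit_ne hR hc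
  -- edge 34
  obtain ⟨X, e1, e2⟩ := crit_quad hR hc
  have X1 := quad_pos (AA_pos h.aβ1 h.aβ2 h.aγ1 h.aγ2 h.d3 h.d4) h.c34
    (CC_pos h.aβ1 h.aβ2 h.aγ1 h.aγ2 h.d3 h.d4) e2
  -- edge 35
  have hR35 := hR.perm35
  obtain ⟨Y, f1, f2⟩ := crit_quad hR35 hc.perm35
  have Y1 := quad_pos (AA_pos hR35.aβ1 hR35.aβ2 hR35.aγ1 hR35.aγ2 hR35.d3 hR35.d4) h.c35
    (CC_pos hR35.aβ1 hR35.aβ2 hR35.aγ1 hR35.aγ2 hR35.d3 hR35.d4) f2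
  -- edge 36
  have hR36 := hR.perm36
  obtain ⟨Z, g1, g2⟩ := crit_quad hR36 hc.perm36
  have Z1 := quad_pos (AA_pos hR36.aβ1 hR36.aβ2 hR36.aγ1 hR36.aγ2 hR36.d3 hR36.d4) h.c36
    (CC_pos hR36.aβ1 hR36.aβ2 hR36.aγ1 hR36.aγ2 hR36.d3 hR36.d4) g2
  rw [Tv1 φ β1 β2, Tv2 θ β1 γ1, show Qv β1 γ2 γ1 β2 = Qv β1 β2 γ1 γ2 by unfold Qv; ring,
    show Qv β1 γ2 φ θ = Qv φ θ β1 γ2 by unfold Qv; ring] at f1
  rw [show Tv β2 φ β1 = Tv φ β1 β2 by unfold Tv; ring,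
    show Tv β2 γ2 θ = Tv θ β2 γ2 by unfold Tv; ring,
    show Qv β2 γ1 γ2 β1 = Qv β1 β2 γ1 γ2 by unfold Qv; ring,
    show Qv β2 γ1 φ θ = Qv φ θ γ1 β2 by unfold Qv; ring] at g1
  have hL : π < Qv β1 β2 γ1 γ2 := by unfold Qv; linarith [h.qL]
  apply locate hl.t3 hl.t4 hl.t5 hl.t6 hL (by linarith [hl.L3.2]) (by linarith [hl.L4.2])
    (by linarith [hl.L5.2]) (by linarith [hl.L6.2]) (by linarith [hl.a3.1]) (by linarith [hl.a3.2])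
    (by linarith [hl.a4.1]) (by linarith [hl.a4.2]) (by linarith [hl.b3.1]) (by linarith [hl.b3.2])
    (by linarith [hl.b4.1]) (by linarith [hl.b4.2])
    (by unfold Qv Tv; linarith [h.aθ.1]) hy1 hy2
  · rw [e1]
    have : 0 < (sin (Qv φ θ γ1 β2 - x) * sin (Qv φ θ β1 γ2 - x)) ^ 2 :=
      sq_pos_of_ne_zero (mul_ne_zero va vb)
    nlinarith
  · rw [f1]
    have : 0 < (sin (Qv β1 β2 γ1 γ2 - x) * sin (Qv φ θ β1 γ2 - x)) ^ 2 :=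
      sq_pos_of_ne_zero (mul_ne_zero vL vb)
    nlinarith
  · rw [g1]
    have : 0 < (sin (Qv β1 β2 γ1 γ2 - x) * sin (Qv φ θ γ1 β2 - x)) ^ 2 :=
      sq_pos_of_ne_zero (mul_ne_zero vL va)
    nlinarith
  · exact hc
  · exact v0

end Run7.h27
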