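import Pool.Agent.Run7.h27.Pair

/-!
# The two critical points of a compact tetrahedron
-/

set_option autoImplicit false

namespace Run7.h27

open Real

/-- larger root -/
noncomputable def Xp (φ θ β1 β2 γ1 γ2 : ℝ) : ℝ :=
  (Cof φ θ β1 β2 γ1 γ2 + sqrt (Cof φ θ β1 β2 γ1 γ2 ^ 2 - Dv φ β1 β2 * Dv φ γ1 γ2)) / AA φ β1 β2 γ1 γ2

/-- smaller root -/
noncomputable def Xm (φ θ β1 β2 γ1 γ2 : ℝ) : ℝ :=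
  (Cof φ θ β1 β2 γ1 γ2 - sqrt (Cof φ θ β1 β2 γ1 γ2 ^ 2 - Dv φ β1 β2 * Dv φ γ1 γ2)) / AA φ β1 β2 γ1 γ2

/-- the critical point with value the volume -/
noncomputable def xp (φ θ β1 β2 γ1 γ2 : ℝ) : ℝ := xx φ θ β1 β2 γ1 γ2 (Xp φ θ β1 β2 γ1 γ2)

/-- the critical point with value minus the volume -/
noncomputable def xm (φ θ β1 β2 γ1 γ2 : ℝ) : ℝ := xx φ θ β1 β2 γ1 γ2 (Xm φ θ β1 β2 γ1 γ2)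

lemma root_facts {A B C P : ℝ} (hA : 0 < A) (hB : 0 < B) (hP : A * C = P) (hP0 : 0 < P)
    (hd : P < B ^ 2) :
    (0 < (B - sqrt (B ^ 2 - P)) / A) ∧ (B - sqrt (B ^ 2 - P)) / A < (B + sqrt (B ^ 2 - P)) / A ∧
    A * ((B - sqrt (B ^ 2 - P)) / A) ^ 2 - 2 * B * ((B - sqrt (B ^ 2 - P)) / A) + C = 0 ∧
    A * ((B + sqrt (B ^ 2 - P)) / A) ^ 2 - 2 * B * ((B + sqrt (B ^ 2 - P)) / A) + C = 0 := by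
  have hs : 0 < sqrt (B ^ 2 - P) := sqrt_pos.mpr (by linarith)
  have hs2 : sqrt (B ^ 2 - P) ^ 2 = B ^ 2 - P := sq_sqrt (by linarith)
  set S := sqrt (B ^ 2 - P)
  have hSB : S < B := by
    by_contra h
    push Not at h
    nlinarith
  refine ⟨div_pos (by linarith) hA, ?_, ?_, ?_⟩
  · apply div_lt_div_of_pos_right _ hA; linarith
  · field_simp
    linear_combination hs2 + hP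
  · field_simp
    linear_combination hs2 + hP

lemma Hyp.roots {φ θ β1 β2 γ1 γ2 : ℝ} (h : Hyp φ θ β1 β2 γ1 γ2) :
    (0 < Xm φ θ β1 β2 γ1 γ2) ∧ Xm φ θ β1 β2 γ1 γ2 < Xp φ θ β1 β2 γ1 γ2 ∧
    AA φ β1 β2 γ1 γ2 * Xm φ θ β1 β2 γ1 γ2 ^ 2 - 2 * Cof φ θ β1 β2 γ1 γ2 * Xm φ θ β1 β2 γ1 γ2 +
      CC φ β1 β2 γ1 γ2 = 0 ∧
    AA φ β1 β2 γ1 γ2 * Xp φ θ β1 β2 γ1 γ2 ^ 2 - 2 * Cof φ θ β1 β2 γ1 γ2 * Xp φ θ β1 β2 γ1 γ2 +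
      CC φ β1 β2 γ1 γ2 = 0 :=
  root_facts (AA_pos h.aβ1 h.aβ2 h.aγ1 h.aγ2 h.d3 h.d4) h.c34 (AA_CC φ β1 β2 γ1 γ2)
    (mul_pos h.d3 h.d4) h.hyp

lemma root_good {φ θ β1 β2 γ1 γ2 X x : ℝ} (h : Hyp φ θ β1 β2 γ1 γ2) (hX : 0 < X)
    (hq : AA φ β1 β2 γ1 γ2 * X ^ 2 - 2 * Cof φ θ β1 β2 γ1 γ2 * X + CC φ β1 β2 γ1 γ2 = 0)
    (hx : x = xx φ θ β1 β2 γ1 γ2 X) :
    Crit φ θ β1 β2 γ1 γ2 x ∧ GR φ θ β1 β2 γ1 γ2 x ∧ Xr φ θ β1 β2 γ1 γ2 x = X := by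
  obtain ⟨e1, e2, e3, e4⟩ := xx_spec h.aφ h.aθ h.aβ1 h.aβ2 h.aγ1 h.aγ2 h.d3 h.d4 hX hq hx
  have hc : Crit φ θ β1 β2 γ1 γ2 x := by
    unfold Crit
    rw [e1, e2]; ring
  obtain ⟨g1, g2, g3, g4⟩ := located h hc e3 e4
  have g : GR φ θ β1 β2 γ1 γ2 x := ⟨g1, g2, g3, g4⟩
  refine ⟨hc, g, ?_⟩
  obtain ⟨⟨u3, u4, u5, u6⟩, ⟨v0, vL, va, vb⟩⟩ := g.pos h.toReg
  unfold Xr
  rw [e1]; field_simp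

lemma Hyp.p {φ θ β1 β2 γ1 γ2 : ℝ} (h : Hyp φ θ β1 β2 γ1 γ2) :
    Crit φ θ β1 β2 γ1 γ2 (xp φ θ β1 β2 γ1 γ2) ∧ GR φ θ β1 β2 γ1 γ2 (xp φ θ β1 β2 γ1 γ2) ∧
    Xr φ θ β1 β2 γ1 γ2 (xp φ θ β1 β2 γ1 γ2) = Xp φ θ β1 β2 γ1 γ2 := by
  obtain ⟨r1, r2, r3, r4⟩ := h.roots
  exact root_good h (r1.trans r2) r4 rfl

lemma Hyp.m {φ θ β1 β2 γ1 γ2 : ℝ} (h : Hyp φ θ β1 β2 γ1 γ2) :
    Crit φ θ β1 β2 γ1 γ2 (xm φ θ β1 β2 γ1 γ2) ∧ GR φ θ β1 β2 γ1 γ2 (xm φ θ β1 β2 γ1 γ2) ∧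
    Xr φ θ β1 β2 γ1 γ2 (xm φ θ β1 β2 γ1 γ2) = Xm φ θ β1 β2 γ1 γ2 := by
  obtain ⟨r1, r2, r3, r4⟩ := h.roots
  exact root_good h r1 r3 rfl

lemma Hyp.lt {φ θ β1 β2 γ1 γ2 : ℝ} (h : Hyp φ θ β1 β2 γ1 γ2) :
    xm φ θ β1 β2 γ1 γ2 < xp φ θ β1 β2 γ1 γ2 := by
  obtain ⟨_, gp, ep⟩ := h.p
  obtain ⟨_, gm, em⟩ := h.m
  obtain ⟨_, r2, _, _⟩ := h.roots
  by_contra hh
  push Not at hh
  rcases eq_or_lt_of_le hh with h1 | h1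
  · rw [h1, em] at ep; linarith
  · have := Xr_mono h.toReg gp gm h1
    rw [ep, em] at this
    linarith

/-- a point of the good range satisfying the equation is one of the two -/
lemma crit_unique {φ θ β1 β2 γ1 γ2 x : ℝ} (h : Hyp φ θ β1 β2 γ1 γ2) (hc : Crit φ θ β1 β2 γ1 γ2 x)
    (g : GR φ θ β1 β2 γ1 γ2 x) : x = xm φ θ β1 β2 γ1 γ2 ∨ x = xp φ θ β1 β2 γ1 γ2 := by
  obtain ⟨_, gp, ep⟩ := h.p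
  obtain ⟨_, gm, em⟩ := h.m
  obtain ⟨r1, r2, r3, r4⟩ := h.roots
  have hq := Xr_quad h.toReg hc
  have hA := AA_pos h.aβ1 h.aβ2 h.aγ1 h.aγ2 h.d3 h.d4
  have inj : ∀ y, GR φ θ β1 β2 γ1 γ2 y → Xr φ θ β1 β2 γ1 γ2 x = Xr φ θ β1 β2 γ1 γ2 y → x = y := by
    intro y gy he
    rcases lt_trichotomy x y with h1 | h1 | h1
    · have := Xr_mono h.toReg g gy h1; linarith
    · exact h1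
    · have := Xr_mono h.toReg gy g h1; linarith
  set X := Xr φ θ β1 β2 γ1 γ2 x
  set P := Xp φ θ β1 β2 γ1 γ2
  set M := Xm φ θ β1 β2 γ1 γ2
  set A := AA φ β1 β2 γ1 γ2
  set B := Cof φ θ β1 β2 γ1 γ2
  have s1 : A * (P + M) = 2 * B := by
    have : (P - M) * (A * (P + M) - 2 * B) = 0 := by linear_combination r4 - r3
    rcases mul_eq_zero.mp this with h | h
    · linarith
    · linarith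
  have s2 : A * ((X - P) * (X - M)) = 0 := by
    linear_combination hq - r4 - (X - P) * s1
  rcases mul_eq_zero.mp s2 with h1 | h1
  · exact absurd h1 hA.ne'
  · rcases mul_eq_zero.mp h1 with h2 | h2
    · right; exact inj _ gp (by rw [ep]; linarith)
    · left; exact inj _ gm (by rw [em]; linarith)

/-- `GR` of the permuted data -/
lemma GR.perm36 {φ θ β1 β2 γ1 γ2 x : ℝ} (g : GR φ θ β1 β2 γ1 γ2 x) : GR β2 γ1 φ β1 γ2 θ x := by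
  obtain ⟨g1, g2, g3, g4⟩ := g
  refine ⟨g1, ?_, ?_, ?_⟩
  · rwa [show Qv φ β1 γ2 θ = Qv φ θ β1 γ2 by unfold Qv; ring]
  · rwa [show Qv β2 γ1 γ2 β1 = Qv β1 β2 γ1 γ2 by unfold Qv; ring]
  · rwa [show Qv β2 γ1 φ θ = Qv φ θ γ1 β2 by unfold Qv; ring]

lemma GR.perm43 {φ θ β1 β2 γ1 γ2 x : ℝ} (g : GR φ θ β1 β2 γ1 γ2 x) : GR φ θ γ1 γ2 β1 β2 x := by
  obtain ⟨g1, g2, g3, g4⟩ := g
  refine ⟨g1, ?_, ?_, ?_⟩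
  · rwa [show Qv γ1 γ2 β1 β2 = Qv β1 β2 γ1 γ2 by unfold Qv; ring]
  · exact g4
  · exact g3

lemma GR.perm56 {φ θ β1 β2 γ1 γ2 x : ℝ} (g : GR φ θ β1 β2 γ1 γ2 x) : GR θ φ β1 γ1 β2 γ2 x := by
  obtain ⟨g1, g2, g3, g4⟩ := g
  refine ⟨g1, ?_, ?_, ?_⟩
  · rwa [show Qv β1 γ1 β2 γ2 = Qv β1 β2 γ1 γ2 by unfold Qv; ring]
  · rwa [show Qv θ φ β2 γ1 = Qv φ θ γ1 β2 by unfold Qv; ring]
  · rwa [show Qv θ φ β1 γ2 = Qv φ θ β1 γ2 by unfold Qv; ring]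

lemma Hyp.dF34 {φ θ β1 β2 γ1 γ2 : ℝ} (h : Hyp φ θ β1 β2 γ1 γ2) :
    dF φ θ β1 β2 γ1 γ2 (xp φ θ β1 β2 γ1 γ2) =
      -1 / 2 * ell (Cof φ θ β1 β2 γ1 γ2) (Dv φ β1 β2 * Dv φ γ1 γ2) ∧
    dF φ θ β1 β2 γ1 γ2 (xm φ θ β1 β2 γ1 γ2) =
      1 / 2 * ell (Cof φ θ β1 β2 γ1 γ2) (Dv φ β1 β2 * Dv φ γ1 γ2) :=
  dF_pair h.toReg h.m.1 h.p.1 h.m.2.1 h.p.2.1 h.lt

lemma Hyp.dF56 {φ θ β1 β2 γ1 γ2 : ℝ} (h : Hyp φ θ β1 β2 γ1 γ2) :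
    dF θ φ β1 γ1 β2 γ2 (xp φ θ β1 β2 γ1 γ2) =
      -1 / 2 * ell (Cof θ φ β1 γ1 β2 γ2) (Dv θ β1 γ1 * Dv θ β2 γ2) ∧
    dF θ φ β1 γ1 β2 γ2 (xm φ θ β1 β2 γ1 γ2) =
      1 / 2 * ell (Cof θ φ β1 γ1 β2 γ2) (Dv θ β1 γ1 * Dv θ β2 γ2) :=
  dF_pair h.toReg.perm56 h.m.1.perm56 h.p.1.perm56 h.m.2.1.perm56 h.p.2.1.perm56 h.lt

lemma Hyp.dF36 {φ θ β1 β2 γ1 γ2 : ℝ} (h : Hyp φ θ β1 β2 γ1 γ2) :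
    dF β2 γ1 φ β1 γ2 θ (xp φ θ β1 β2 γ1 γ2) =
      -1 / 2 * ell (Cof β2 γ1 φ β1 γ2 θ) (Dv β2 φ β1 * Dv β2 γ2 θ) ∧
    dF β2 γ1 φ β1 γ2 θ (xm φ θ β1 β2 γ1 γ2) =
      1 / 2 * ell (Cof β2 γ1 φ β1 γ2 θ) (Dv β2 φ β1 * Dv β2 γ2 θ) :=
  dF_pair h.toReg.perm36 h.m.1.perm36 h.p.1.perm36 h.m.2.1.perm36 h.p.2.1.perm36 h.lt

lemma Hyp.dF46 {φ θ β1 β2 γ1 γ2 : ℝ} (h : Hyp φ θ β1 β2 γ1 γ2) :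
    dF γ2 β1 φ γ1 β2 θ (xp φ θ β1 β2 γ1 γ2) =
      -1 / 2 * ell (Cof γ2 β1 φ γ1 β2 θ) (Dv γ2 φ γ1 * Dv γ2 β2 θ) ∧
    dF γ2 β1 φ γ1 β2 θ (xm φ θ β1 β2 γ1 γ2) =
      1 / 2 * ell (Cof γ2 β1 φ γ1 β2 θ) (Dv γ2 φ γ1 * Dv γ2 β2 θ) :=
  dF_pair h.toReg.perm43.perm36 h.m.1.perm43.perm36 h.p.1.perm43.perm36 h.m.2.1.perm43.perm36
    h.p.2.1.perm43.perm36 h.lt

end Run7.h27
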