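import Pool.Agent.Run7.h27.Diff
import Pool.Agent.Run7.h27.Grow2

/-!
# Opening the wedge: the potential at the critical point as an integral
-/

set_option autoImplicit false

namespace Run7.h27

open Real MeasureTheory Filter Topology Set

/-- logarithm attached to the length of a side of the slice -/
noncomputable def Lg (A B t Q : ℝ) : ℝ := Real.log ((B + A * cosh t + sinh t * sqrt (1 + A ^ 2)) / sqrt Q)

/-- the integrand -/
noncomputable def vv (a1 a2 b1 b2 t ψ : ℝ) : ℝ :=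
  1 / 2 * (hA a1 a2 ψ / sqrt (1 + hA a1 a2 ψ ^ 2) *
      Lg (hA a1 a2 ψ) (hA b1 b2 ψ) t (Qf a1 a2 b1 b2 t ψ) +
    hA b1 b2 ψ / sqrt (1 + hA b1 b2 ψ ^ 2) *
      Lg (hA b1 b2 ψ) (hA a1 a2 ψ) t (Qf a1 a2 b1 b2 t ψ) - t)

lemma ell_scale {K x Q R : ℝ} (hK : 0 < K) (hR : 0 ≤ R) (h : x ^ 2 - Q = R ^ 2) :
    ell (K * x) (K ^ 2 * Q) = Real.log ((x + R) / sqrt Q) := by
  unfold ell
  have e1 : (K * x) ^ 2 - K ^ 2 * Q = (K * R) ^ 2 := by
    rw [mul_pow, mul_pow, ← h]; ring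
  rw [e1, sqrt_sq (by positivity), sqrt_mul (by positivity), sqrt_sq hK.le, ← mul_add]
  congr 1
  exact mul_div_mul_left _ _ hK.ne'

lemma ell34_std {a1 a2 b1 b2 t φ : ℝ} (h : Std a1 a2 b1 b2 t φ) :
    ell (Cof φ (tht a1 a2 b1 b2 t) (be1 a1 a2) (be2 a1 a2 φ) (be1 b1 b2) (be2 b1 b2 φ))
      (Dv φ (be1 a1 a2) (be2 a1 a2 φ) * Dv φ (be1 b1 b2) (be2 b1 b2 φ)) = t := by
  rw [Cof34_std h.s0.Q, D3_std, D3_std]
  have hs := h.aφ.sin_pos
  have hL := lm_pos a1 a2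
  have hM := lm_pos b1 b2
  have e1 : lm a1 a2 ^ 2 * sin φ ^ 2 * (lm b1 b2 ^ 2 * sin φ ^ 2) =
    (lm a1 a2 * lm b1 b2 * sin φ ^ 2) ^ 2 * 1 := by ring
  rw [e1, ell_scale (R := sinh t) (by positivity) (sinh_nonneg_iff.mpr h.ht.le)
    (by rw [cosh_sq]; ring), sqrt_one, div_one, cosh_add_sinh, Real.log_exp]

lemma ell36_std {a1 a2 b1 b2 t φ : ℝ} (h : Std a1 a2 b1 b2 t φ) :
    ell (Cof (be2 a1 a2 φ) (be1 b1 b2) φ (be1 a1 a2) (be2 b1 b2 φ) (tht a1 a2 b1 b2 t))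
      (Dv (be2 a1 a2 φ) φ (be1 a1 a2) * Dv (be2 a1 a2 φ) (be2 b1 b2 φ) (tht a1 a2 b1 b2 t)) =
      Lg (hA a1 a2 φ) (hA b1 b2 φ) t (Qf a1 a2 b1 b2 t φ) := by
  have hs := h.aφ.sin_pos
  have hL := lm_pos a1 a2
  have hM := lm_pos b1 b2
  rw [Cof36_std h.s0.Q, Dv_perm3 φ (be1 a1 a2), D3_std,
    Dv_perm2 (tht a1 a2 b1 b2 t) (be2 a1 a2 φ), D6_std h.s0.Q]
  have e1 : lm a1 a2 ^ 2 * sin φ ^ 2 * (lm a1 a2 ^ 2 * lm b1 b2 ^ 2 * Qf a1 a2 b1 b2 t φ) =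
    (lm a1 a2 ^ 2 * lm b1 b2 * sin φ) ^ 2 * Qf a1 a2 b1 b2 t φ := by ring
  rw [e1, ell_scale (R := sinh t * sqrt (1 + hA a1 a2 φ ^ 2)) (by positivity)
    (mul_nonneg (sinh_nonneg_iff.mpr h.ht.le) (sqrt_nonneg _))
    (by rw [Qf_id, mul_pow, sq_sqrt (by positivity)]; ring)]
  rfl

lemma ell46_std {a1 a2 b1 b2 t φ : ℝ} (h : Std a1 a2 b1 b2 t φ) :
    ell (Cof (be2 b1 b2 φ) (be1 a1 a2) φ (be1 b1 b2) (be2 a1 a2 φ) (tht a1 a2 b1 b2 t))
      (Dv (be2 b1 b2 φ) φ (be1 b1 b2) * Dv (be2 b1 b2 φ) (be2 a1 a2 φ) (tht a1 a2 b1 b2 t)) =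
      Lg (hA b1 b2 φ) (hA a1 a2 φ) t (Qf a1 a2 b1 b2 t φ) := by
  have hs := h.aφ.sin_pos
  have hL := lm_pos a1 a2
  have hM := lm_pos b1 b2
  rw [Cof46_std h.s0.Q, Dv_perm3 φ (be1 b1 b2), D3_std,
    show Dv (be2 b1 b2 φ) (be2 a1 a2 φ) (tht a1 a2 b1 b2 t) =
      Dv (tht a1 a2 b1 b2 t) (be2 a1 a2 φ) (be2 b1 b2 φ) by unfold Dv; ring, D6_std h.s0.Q]
  have e1 : lm b1 b2 ^ 2 * sin φ ^ 2 * (lm a1 a2 ^ 2 * lm b1 b2 ^ 2 * Qf a1 a2 b1 b2 t φ) =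
    (lm a1 a2 * lm b1 b2 ^ 2 * sin φ) ^ 2 * Qf a1 a2 b1 b2 t φ := by ring
  rw [e1, ell_scale (R := sinh t * sqrt (1 + hA b1 b2 φ ^ 2)) (by positivity)
    (mul_nonneg (sinh_nonneg_iff.mpr h.ht.le) (sqrt_nonneg _))
    (by rw [Qf_id', mul_pow, sq_sqrt (by positivity)]; ring)]
  rfl

lemma be2_deriv (a1 a2 ψ : ℝ) :
    HasDerivAt (be2 a1 a2) (-(hA a1 a2 ψ / sqrt (1 + hA a1 a2 ψ ^ 2))) ψ := by
  obtain ⟨h1, h2⟩ := lm_bound (a1 := a1) (a2 := a2) (x := hT a1 a2 ψ)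
    (by nlinarith [sq_nonneg (hA a1 a2 ψ), hA_hT a1 a2 ψ])
  have hL := lm_pos a1 a2
  have d1 : HasDerivAt (fun ψ => lm a1 a2 * hT a1 a2 ψ) (lm a1 a2 * hA a1 a2 ψ) ψ := by
    unfold hT hA
    have e1 := ((hasDerivAt_sin ψ).const_mul a1).fun_sub ((hasDerivAt_cos ψ).const_mul a2)
    exact (e1.const_mul (lm a1 a2)).congr_deriv (by ring)
  have d2 := (hasDerivAt_arccos h1.ne' h2.ne).comp ψ d1
  have e : sqrt (1 - (lm a1 a2 * hT a1 a2 ψ) ^ 2) = lm a1 a2 * sqrt (1 + hA a1 a2 ψ ^ 2) := by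
    have e2 : 1 - (lm a1 a2 * hT a1 a2 ψ) ^ 2 = lm a1 a2 ^ 2 * (1 + hA a1 a2 ψ ^ 2) := by
      have := hA_hT a1 a2 ψ
      have hL2 := lm_sq a1 a2
      linear_combination -hL2 - lm a1 a2 ^ 2 * this
    rw [e2, sqrt_mul (by positivity), sqrt_sq hL.le]
  rw [e] at d2
  have hp : 0 < sqrt (1 + hA a1 a2 ψ ^ 2) := by positivity
  exact d2.congr_deriv (by field_simp)

/-- potential at the upper critical point -/
noncomputable def Gp (a1 a2 b1 b2 t ψ : ℝ) : ℝ :=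
  F6 ψ (tht a1 a2 b1 b2 t) (be1 a1 a2) (be2 a1 a2 ψ) (be1 b1 b2) (be2 b1 b2 ψ)
    (xp ψ (tht a1 a2 b1 b2 t) (be1 a1 a2) (be2 a1 a2 ψ) (be1 b1 b2) (be2 b1 b2 ψ))

/-- potential at the lower critical point -/
noncomputable def Gm (a1 a2 b1 b2 t ψ : ℝ) : ℝ :=
  F6 ψ (tht a1 a2 b1 b2 t) (be1 a1 a2) (be2 a1 a2 ψ) (be1 b1 b2) (be2 b1 b2 ψ)
    (xm ψ (tht a1 a2 b1 b2 t) (be1 a1 a2) (be2 a1 a2 ψ) (be1 b1 b2) (be2 b1 b2 ψ))

lemma Gp_deriv {a1 a2 b1 b2 t ψ : ℝ} (h : Std a1 a2 b1 b2 t ψ) :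
    HasDerivAt (Gp a1 a2 b1 b2 t) (vv a1 a2 b1 b2 t ψ) ψ := by
  have hy := h.hyp
  have dx := diff_xp (φ := fun s => s) (θ := fun _ => tht a1 a2 b1 b2 t) (β1 := fun _ => be1 a1 a2)
    (β2 := be2 a1 a2) (γ1 := fun _ => be1 b1 b2) (γ2 := be2 b1 b2) (s := ψ) differentiableAt_id
    (differentiableAt_const _) (differentiableAt_const _) (be2_deriv a1 a2 ψ).differentiableAt
    (differentiableAt_const _) (be2_deriv b1 b2 ψ).differentiableAt hy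
  have main := F6_hasDeriv (hasDerivAt_id ψ) (hasDerivAt_const ψ (tht a1 a2 b1 b2 t))
    (hasDerivAt_const ψ (be1 a1 a2)) (be2_deriv a1 a2 ψ) (hasDerivAt_const ψ (be1 b1 b2))
    (be2_deriv b1 b2 ψ) dx hy.toReg hy.p.1
  simp only [id] at main
  rw [hy.dF34.1, hy.dF36.1, hy.dF46.1, ell34_std h, ell36_std h, ell46_std h] at main
  unfold Gp
  convert main using 1
  unfold vv
  ring

lemma Gm_deriv {a1 a2 b1 b2 t ψ : ℝ} (h : Std a1 a2 b1 b2 t ψ) :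
    HasDerivAt (Gm a1 a2 b1 b2 t) (-vv a1 a2 b1 b2 t ψ) ψ := by
  have hy := h.hyp
  have dx := diff_xm (φ := fun s => s) (θ := fun _ => tht a1 a2 b1 b2 t) (β1 := fun _ => be1 a1 a2)
    (β2 := be2 a1 a2) (γ1 := fun _ => be1 b1 b2) (γ2 := be2 b1 b2) (s := ψ) differentiableAt_id
    (differentiableAt_const _) (differentiableAt_const _) (be2_deriv a1 a2 ψ).differentiableAt
    (differentiableAt_const _) (be2_deriv b1 b2 ψ).differentiableAt hy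
  have main := F6_hasDeriv (hasDerivAt_id ψ) (hasDerivAt_const ψ (tht a1 a2 b1 b2 t))
    (hasDerivAt_const ψ (be1 a1 a2)) (be2_deriv a1 a2 ψ) (hasDerivAt_const ψ (be1 b1 b2))
    (be2_deriv b1 b2 ψ) dx hy.toReg hy.m.1
  simp only [id] at main
  rw [hy.dF34.2, hy.dF36.2, hy.dF46.2, ell34_std h, ell36_std h, ell46_std h] at main
  unfold Gm
  convert main using 1
  unfold vv
  ring

/-- the potential of the flat limit vanishes -/
lemma F6_flat (θ β γ : ℝ) : F6 0 θ β (π - β) γ (π - γ) π = 0 := by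
  unfold F6 F4
  simp only [Fin.sum_univ_four, Matrix.cons_val]
  have e3 : Tv 0 β (π - β) = π := by unfold Tv; ring
  have e4 : Tv 0 γ (π - γ) = π := by unfold Tv; ring
  have eL : Qv β (π - β) γ (π - γ) = π := by unfold Qv; ring
  rw [e3, e4, eL]
  have f1 : Qv 0 θ γ (π - β) - Tv θ β γ = β := by unfold Qv Tv; ring
  have f2 : Qv 0 θ β (π - γ) - Tv θ β γ = γ := by unfold Qv Tv; ring
  have f3 : Qv 0 θ γ (π - β) - Tv θ (π - β) (π - γ) = π - γ := by unfold Qv Tv; ring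
  have f4 : Qv 0 θ β (π - γ) - Tv θ (π - β) (π - γ) = π - β := by unfold Qv Tv; ring
  rw [f1, f2, f3, f4]
  simp only [Lob_pi_sub, Lob_two_pi_sub, sub_self, Lob_zero, Lob_pi]
  ring

lemma F6_cont : Continuous (fun p : (ℝ × ℝ × ℝ × ℝ × ℝ × ℝ) × ℝ =>
    F6 p.1.1 p.1.2.1 p.1.2.2.1 p.1.2.2.2.1 p.1.2.2.2.2.1 p.1.2.2.2.2.2 p.2) := by
  unfold F6 F4
  simp only [Fin.sum_univ_four, Matrix.cons_val]
  unfold Tv Qv
  have := Lob_cont
  fun_prop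

lemma be2_cont (a1 a2 : ℝ) : Continuous (be2 a1 a2) := by
  unfold be2 hT
  have := Real.continuous_arccos
  fun_prop

lemma be2_zero (a1 a2 : ℝ) : be2 a1 a2 0 = π - be1 a1 a2 := by
  unfold be2 be1 hT
  rw [← arccos_neg]
  congr 1
  simp

/-- the limit at the closed wedge, for any choice of a point of the good range -/
lemma flat_limit {a1 a2 b1 b2 t φ : ℝ} (h : Std a1 a2 b1 b2 t φ) {x : ℝ → ℝ}
    (hx : ∀ ψ, 0 < ψ → ψ ≤ φ → GR ψ (tht a1 a2 b1 b2 t) (be1 a1 a2) (be2 a1 a2 ψ) (be1 b1 b2)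
      (be2 b1 b2 ψ) (x ψ)) :
    Tendsto (fun ψ => F6 ψ (tht a1 a2 b1 b2 t) (be1 a1 a2) (be2 a1 a2 ψ) (be1 b1 b2) (be2 b1 b2 ψ)
      (x ψ)) (𝓝[>] 0) (𝓝 0) := by
  have ev : ∀ᶠ ψ in 𝓝[>] (0:ℝ), 0 < ψ ∧ ψ ≤ φ := by
    filter_upwards [Ioc_mem_nhdsGT h.aφ.1] with ψ hψ
    exact hψ
  have hxl : Tendsto x (𝓝[>] 0) (𝓝 π) := by
    have up : Tendsto (fun ψ => Qv (be1 a1 a2) (be2 a1 a2 ψ) (be1 b1 b2) (be2 b1 b2 ψ)) (𝓝[>] 0)
        (𝓝 π) := by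
      have c : Continuous (fun ψ => Qv (be1 a1 a2) (be2 a1 a2 ψ) (be1 b1 b2) (be2 b1 b2 ψ)) := by
        have c1 := be2_cont a1 a2
        have c2 := be2_cont b1 b2
        unfold Qv
        fun_prop
      have := (c.tendsto 0).mono_left (nhdsWithin_le_nhds (s := Ioi 0))
      rw [be2_zero, be2_zero] at this
      convert this using 2
      unfold Qv; ring
    apply tendsto_of_tendsto_of_tendsto_of_le_of_le' tendsto_const_nhds up
    · filter_upwards [ev] with ψ hψ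
      exact (hx ψ hψ.1 hψ.2).pi.le
    · filter_upwards [ev] with ψ hψ
      exact (hx ψ hψ.1 hψ.2).L.le
  have key : Tendsto (fun ψ => ((ψ, tht a1 a2 b1 b2 t, be1 a1 a2, be2 a1 a2 ψ, be1 b1 b2,
      be2 b1 b2 ψ), x ψ)) (𝓝[>] 0) (𝓝 ((0, tht a1 a2 b1 b2 t, be1 a1 a2, π - be1 a1 a2, be1 b1 b2,
      π - be1 b1 b2), π)) := by
    apply Tendsto.prodMk_nhds _ hxl
    have c : Continuous (fun ψ : ℝ => (ψ, tht a1 a2 b1 b2 t, be1 a1 a2, be2 a1 a2 ψ, be1 b1 b2,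
      be2 b1 b2 ψ)) := by
      have c1 := be2_cont a1 a2
      have c2 := be2_cont b1 b2
      fun_prop
    have := (c.tendsto 0).mono_left (nhdsWithin_le_nhds (s := Ioi 0))
    rwa [be2_zero, be2_zero] at this
  have := (F6_cont.tendsto _).comp key
  simp only [Function.comp_def] at this
  rwa [F6_flat] at this

lemma vv_cont {a1 a2 b1 b2 t φ : ℝ} (h : Std a1 a2 b1 b2 t φ) :
    ContinuousOn (vv a1 a2 b1 b2 t) (Icc 0 φ) := by
  have cA : ∀ u v : ℝ, Continuous (hA u v) := by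
    intro u v; unfold hA; fun_prop
  have c1 := cA a1 a2
  have c2 := cA b1 b2
  have cQ : Continuous (Qf a1 a2 b1 b2 t) := by
    unfold Qf; fun_prop
  have hsh : 0 < sinh t := sinh_pos_iff.mpr h.ht
  unfold vv Lg
  apply ContinuousOn.mul continuousOn_const
  apply ContinuousOn.sub _ continuousOn_const
  apply ContinuousOn.add
  · apply ContinuousOn.mul
    · apply Continuous.continuousOn
      apply c1.div (by fun_prop)
      intro x; positivity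
    · apply ContinuousOn.log
      · apply ContinuousOn.div (by fun_prop) (by fun_prop)
        intro x hx
        exact (sqrt_pos.mpr (h.slice hx.1 hx.2).Q).ne'
      · intro x hx
        have hs := h.slice hx.1 hx.2
        have := hs.P
        have := sqrt_pos.mpr hs.Q
        positivity
  · apply ContinuousOn.mul
    · apply Continuous.continuousOn
      apply c2.div (by fun_prop)
      intro x; positivity
    · apply ContinuousOn.log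
      · apply ContinuousOn.div (by fun_prop) (by fun_prop)
        intro x hx
        exact (sqrt_pos.mpr (h.slice hx.1 hx.2).Q).ne'
      · intro x hx
        have hs := h.slice hx.1 hx.2
        have := hs.P'
        have := sqrt_pos.mpr hs.Q
        positivity

/-- the potential at the upper critical point is the integral of `vv` -/
theorem Gp_eq {a1 a2 b1 b2 t φ : ℝ} (h : Std a1 a2 b1 b2 t φ) :
    Gp a1 a2 b1 b2 t φ = ∫ ψ in (0:ℝ)..φ, vv a1 a2 b1 b2 t ψ := by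
  have h0 := h.aφ.1
  have l0 : Tendsto (Gp a1 a2 b1 b2 t) (𝓝[>] 0) (𝓝 0) :=
    flat_limit h (fun ψ h1 h2 => (h.sub h1 h2).hyp.p.2.1)
  have l1 : Tendsto (Gp a1 a2 b1 b2 t) (𝓝[<] φ) (𝓝 (Gp a1 a2 b1 b2 t φ)) :=
    (Gp_deriv h).continuousAt.tendsto.mono_left nhdsWithin_le_nhds
  rw [intervalIntegral.integral_eq_sub_of_hasDerivAt_of_tendsto h0
    (fun x hx => Gp_deriv (h.sub hx.1 hx.2.le)) _ l0 l1, sub_zero]
  apply ContinuousOn.intervalIntegrable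
  rw [uIcc_of_le h0.le]
  exact vv_cont h

/-- the potential at the lower critical point -/
theorem Gm_eq {a1 a2 b1 b2 t φ : ℝ} (h : Std a1 a2 b1 b2 t φ) :
    Gm a1 a2 b1 b2 t φ = -∫ ψ in (0:ℝ)..φ, vv a1 a2 b1 b2 t ψ := by
  have h0 := h.aφ.1
  have l0 : Tendsto (Gm a1 a2 b1 b2 t) (𝓝[>] 0) (𝓝 0) :=
    flat_limit h (fun ψ h1 h2 => (h.sub h1 h2).hyp.m.2.1)
  have l1 : Tendsto (Gm a1 a2 b1 b2 t) (𝓝[<] φ) (𝓝 (Gm a1 a2 b1 b2 t φ)) :=
    (Gm_deriv h).continuousAt.tendsto.mono_left nhdsWithin_le_nhds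
  rw [← intervalIntegral.integral_neg]
  rw [intervalIntegral.integral_eq_sub_of_hasDerivAt_of_tendsto h0
    (fun x hx => Gm_deriv (h.sub hx.1 hx.2.le)) _ l0 l1, sub_zero]
  apply ContinuousOn.intervalIntegrable
  rw [uIcc_of_le h0.le]
  exact (vv_cont h).neg

end Run7.h27
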